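import Pool.Agent.Lib_MP_8a48ad_gt.Basic

/-! # Piece HOMG: the homogeneous components of a linear map -/

set_option autoImplicit false

namespace MP8a

universe u

variable {A : Type u} [CommRing A] {G : Gr A}

theorem hmL_finite (M N : DGM G) (e : ℤ) (φ : M.X →ₗ[A] N.X) (x : M.X) :
    (Function.support fun i : ℤ => N.pr (i + e) (φ (M.pr i x))).Finite := by
  obtain ⟨s, hs, _⟩ := M.exists_support x
  refine s.finite_toSet.subset fun i hi => ?_
  by_contra h
  apply hi
  change N.pr (i + e) (φ (M.pr i x)) = 0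
  rw [hs i h, map_zero, map_zero]

/-- The component of degree `e` of a linear map `φ : M → N` (`x ↦ ∑ i, pr (i + e) (φ (pr i x))`, a finite sum).
`map_smul'`: it is enough to treat homogeneous `a` (`Gr.ind`) and homogeneous `x` (`DGM.ind`): for `x` of degree `i` the
value is `pr (i + e) (φ x)`; use `DGM.pr_smul`. -/
noncomputable def hmL (M N : DGM G) (e : ℤ) (φ : M.X →ₗ[A] N.X) : M.X →ₗ[A] N.X where
  toFun x := ∑ᶠ i : ℤ, N.pr (i + e) (φ (M.pr i x))
  map_add' x y := by
    rw [← finsum_add_distrib (hmL_finite M N e φ x) (hmL_finite M N e φ y)]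
    refine finsum_congr fun i => ?_
    rw [map_add, map_add, map_add]
  map_smul' := by
    intro a x
    rw [RingHom.id_apply]
    refine G.ind (P := fun a => ∑ᶠ i : ℤ, N.pr (i + e) (φ (M.pr i (a • x))) =
      a • ∑ᶠ i : ℤ, N.pr (i + e) (φ (M.pr i x))) (by simp) ?_ ?_ a
    · intro a b ha hb
      rw [add_smul a b (∑ᶠ i : ℤ, N.pr (i + e) (φ (M.pr i x))), ← ha, ← hb,
        ← finsum_add_distrib (hmL_finite M N e φ (a • x)) (hmL_finite M N e φ (b • x))]
      refine finsum_congr fun i => ?_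
      rw [add_smul, map_add, map_add, map_add]
    · intro k a ha
      rw [smul_finsum' _ (hmL_finite M N e φ x)]
      refine (finsum_congr fun i => ?_).trans
        (finsum_comp_equiv (Equiv.subRight k) (f := fun i : ℤ => a • N.pr (i + e) (φ (M.pr i x))))
      rw [M.pr_smul' ha, map_smul, N.pr_smul' ha, Equiv.subRight_apply,
        show i + e - k = i - k + e by ring]

theorem hmL_hom (M N : DGM G) (e : ℤ) (φ : M.X →ₗ[A] N.X) {i : ℤ} {x : M.X} (hx : M.pr i x = x) :
    hmL M N e φ x = N.pr (i + e) (φ x) := by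
  change ∑ᶠ j : ℤ, N.pr (j + e) (φ (M.pr j x)) = N.pr (i + e) (φ x)
  rw [finsum_eq_single _ i fun j hj => by rw [M.pr_ne hx hj, map_zero, map_zero], hx]

theorem hmL_pr (M N : DGM G) (e : ℤ) (φ : M.X →ₗ[A] N.X) (i : ℤ) (x : M.X) :
    N.pr (i + e) (hmL M N e φ x) = hmL M N e φ (M.pr i x) := by
  refine M.ind (P := fun x => N.pr (i + e) (hmL M N e φ x) = hmL M N e φ (M.pr i x)) (by simp) ?_ ?_ x
  · intro x y hx hy
    rw [map_add, map_add, map_add, map_add, hx, hy]
  · intro l x hx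
    rw [hmL_hom M N e φ hx]
    by_cases h : i = l
    · subst h
      rw [hx, hmL_hom M N e φ hx, N.pr_self]
    · rw [M.pr_ne hx h, map_zero, N.pr_pr, if_neg (fun h' => h (add_right_cancel h'))]

/-- equality of linear maps can be checked on homogeneous elements -/
theorem hmL_ext (M N : DGM G) {φ ψ : M.X →ₗ[A] N.X} (h : ∀ i x, M.pr i x = x → φ x = ψ x) :
    φ = ψ := by
  refine LinearMap.ext fun x => ?_
  refine M.ind (P := fun x => φ x = ψ x) (by simp) ?_ h x
  intro x y hx hy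
  rw [map_add, map_add, hx, hy]

/-- homogeneous maps -/
theorem hmL_self (M N : DGM G) {e : ℤ} {φ : M.X →ₗ[A] N.X}
    (h : ∀ i x, N.pr (i + e) (φ x) = φ (M.pr i x)) : hmL M N e φ = φ := by
  refine hmL_ext M N fun i x hx => ?_
  rw [hmL_hom M N e φ hx, h, hx]

theorem hmL_ne (M N : DGM G) {e e' : ℤ} {φ : M.X →ₗ[A] N.X}
    (h : ∀ i x, N.pr (i + e) (φ x) = φ (M.pr i x)) (he : e' ≠ e) : hmL M N e' φ = 0 := by
  refine hmL_ext M N fun i x hx => ?_
  have h1 : N.pr (i + e) (φ x) = φ x := by rw [h, hx]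
  rw [hmL_hom M N e' φ hx, LinearMap.zero_apply]
  exact N.pr_ne h1 (fun h' => he (add_left_cancel h'))

theorem hmL_add (M N : DGM G) (e : ℤ) (φ ψ : M.X →ₗ[A] N.X) :
    hmL M N e (φ + ψ) = hmL M N e φ + hmL M N e ψ := by
  refine hmL_ext M N fun i x hx => ?_
  rw [LinearMap.add_apply, hmL_hom M N e _ hx, hmL_hom M N e φ hx, hmL_hom M N e ψ hx,
    LinearMap.add_apply, map_add]

theorem hmL_comp_left (M N L : DGM G) {e e' : ℤ} (φ : M.X →ₗ[A] N.X) {g : N.X →ₗ[A] L.X}
    (hg : ∀ i x, L.pr (i + e') (g x) = g (N.pr i x)) :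
    hmL M L (e + e') (g ∘ₗ φ) = g ∘ₗ hmL M N e φ := by
  refine hmL_ext M L fun i x hx => ?_
  rw [LinearMap.comp_apply, hmL_hom M L _ _ hx, hmL_hom M N e φ hx, LinearMap.comp_apply, ← hg,
    add_assoc]

theorem hmL_comp_right (K M N : DGM G) {e e' : ℤ} (φ : M.X →ₗ[A] N.X) {g : K.X →ₗ[A] M.X}
    (hg : ∀ i x, M.pr (i + e') (g x) = g (K.pr i x)) :
    hmL K N (e' + e) (φ ∘ₗ g) = hmL M N e φ ∘ₗ g := by
  refine hmL_ext K N fun i x hx => ?_
  have h1 : M.pr (i + e') (g x) = g x := by rw [hg, hx]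
  rw [LinearMap.comp_apply, hmL_hom K N _ _ hx, hmL_hom M N e φ h1, LinearMap.comp_apply, add_assoc]

/-- multiplication by a homogeneous scalar -/
theorem hmL_smul (M N : DGM G) {e i : ℤ} {a : A} (ha : G.c i a = a) (φ : M.X →ₗ[A] N.X) :
    hmL M N (e + i) (a • φ) = a • hmL M N e φ := by
  refine hmL_ext M N fun j x hx => ?_
  rw [LinearMap.smul_apply, hmL_hom M N _ _ hx, hmL_hom M N e φ hx, LinearMap.smul_apply,
    ← N.pr_smul ha, show j + (e + i) = i + (j + e) by ring]

/-- components of a chain map are chain maps -/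
theorem hmL_isMor (M N : DGM G) (e : ℤ) {φ : M.X →ₗ[A] N.X} (h : ∀ x, N.d (φ x) = φ (M.d x)) :
    IsMor M N e (hmL M N e φ) := by
  refine ⟨fun i x => hmL_pr M N e φ i x, fun x => ?_⟩
  have h2 : N.d ∘ₗ hmL M N e φ = hmL M N e φ ∘ₗ M.d := by
    refine hmL_ext M N fun i x hx => ?_
    rw [LinearMap.comp_apply, LinearMap.comp_apply, hmL_hom M N e φ hx, hmL_hom M N e φ (M.d_hom hx),
      ← h, ← N.pr_d, add_right_comm]
  exact LinearMap.congr_fun h2 x

/-- components of a homotopy: if `h = d H + H d` then the same holds for the components of degree `e`, `e - 1` -/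
theorem hmL_null (M N : DGM G) (e : ℤ) {φ H : M.X →ₗ[A] N.X}
    (h : ∀ x, φ x = N.d (H x) + H (M.d x)) (x : M.X) :
    hmL M N e φ x = N.d (hmL M N (e - 1) H x) + hmL M N (e - 1) H (M.d x) := by
  have h2 : hmL M N e φ = N.d ∘ₗ hmL M N (e - 1) H + hmL M N (e - 1) H ∘ₗ M.d := by
    refine hmL_ext M N fun i x hx => ?_
    rw [LinearMap.add_apply, LinearMap.comp_apply, LinearMap.comp_apply, hmL_hom M N e φ hx,
      hmL_hom M N (e - 1) H hx, hmL_hom M N (e - 1) H (M.d_hom hx), h, map_add, ← N.pr_d,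
      show i + (e - 1) + 1 = i + e by ring, show i + 1 + (e - 1) = i + e by ring]
  exact LinearMap.congr_fun h2 x

end MP8a
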