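import Pool.Agent.Lib_MP_8a48ad_gt.Basic

/-! # Piece NZ: maps which are zero in the derived category -/

set_option autoImplicit false

namespace MP8a

universe u

variable {A : Type u} [CommRing A] {G : Gr A}

theorem NZ.comp_left {M N L : DGM G} {e e' : ℤ} {f : M.X →ₗ[A] N.X} {g : N.X →ₗ[A] L.X}
    (h : NZ M N e f) (hg : IsMor N L e' g) : NZ M L (e + e') (g ∘ₗ f) := by
  obtain ⟨Z, u, v, hZ, hu, hv, rfl⟩ := h
  exact ⟨Z, u, g ∘ₗ v, hZ, hu, hg.comp hv, rfl⟩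

/-- Use `Z.regr e'` (`IsMor.to_regr`, `IsMor.of_regr`). -/
theorem NZ.comp_right {M N L : DGM G} {e e' : ℤ} {f : L.X →ₗ[A] M.X} {g : M.X →ₗ[A] N.X}
    (hf : IsMor L M e' f) (h : NZ M N e g) : NZ L N (e' + e) (g ∘ₗ f) := by
  obtain ⟨Z, u, v, hZ, hu, hv, rfl⟩ := h
  refine ⟨Z.regr e', u ∘ₗ f, v, hZ, ?_, hv.of_regr, rfl⟩
  exact (hu.comp0 hf).to_regr

theorem NZ.cast {M N : DGM G} {e e' : ℤ} {f : M.X →ₗ[A] N.X} (h : NZ M N e f) (he : e = e') :
    NZ M N e' f := he ▸ h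

/-- Use `Z₁.prod Z₂`. -/
theorem NZ.add {M N : DGM G} {e : ℤ} {f g : M.X →ₗ[A] N.X} (hf : NZ M N e f) (hg : NZ M N e g) :
    NZ M N e (f + g) := by
  obtain ⟨Z, u, v, hZ, hu, hv, rfl⟩ := hf
  obtain ⟨Z', u', v', hZ', hu', hv', rfl⟩ := hg
  refine ⟨Z.prod Z', u.prod u', v.coprod v', ?_, hu.prodMk hu', hv.coprod hv', ?_⟩
  · rintro ⟨x, y⟩ hxy
    obtain ⟨a, ha⟩ := hZ x (congrArg Prod.fst hxy)
    obtain ⟨b, hb⟩ := hZ' y (congrArg Prod.snd hxy)
    exact ⟨(a, b), Prod.ext ha hb⟩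
  · ext x
    rfl

/-- multiplication by a homogeneous element (`NZ.comp_left` with `a • id`, `IsMor.smul`) -/
theorem NZ.smul {M N : DGM G} {e i : ℤ} {a : A} (ha : G.c i a = a) {f : M.X →ₗ[A] N.X}
    (h : NZ M N e f) : NZ M N (e + i) (a • f) := by
  have h1 := h.comp_left (IsMor.smul ha (isMor_id N))
  have h2 : (a • LinearMap.id : N.X →ₗ[A] N.X) ∘ₗ f = a • f := by
    ext x
    rfl
  rw [h2] at h1
  exact h1.cast (by rw [zero_add])

/-- Null-homotopic maps factor through the cone of the identity: `Z = M.cone M id`,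
`u x = (x, 0)`, `v (x, x') = h x + H x'`. -/
theorem NZ.of_null {M N : DGM G} {e : ℤ} {h : M.X →ₗ[A] N.X} (hh : IsMor M N e h)
    (H : M.X →ₗ[A] N.X) (hH : ∀ i x, N.pr (i + (e - 1)) (H x) = H (M.pr i x))
    (hd : ∀ x, h x = N.d (H x) + H (M.d x)) : NZ M N e h := by
  refine ⟨M.cone M LinearMap.id (isMor_id M), LinearMap.inl A M.X M.X, h.coprod H, ?_,
    isMor_cone_inl M M _ _, ?_, ?_⟩
  · rintro ⟨x, x'⟩ hx
    rw [DGM.cone_d] at hx
    have h1 : M.d x + x' = 0 := congrArg Prod.fst hx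
    refine ⟨(0, x), ?_⟩
    rw [DGM.cone_d]
    refine Prod.ext ?_ ?_
    · change M.d 0 + x = x
      rw [map_zero, zero_add]
    · change -(M.d x) = x'
      rw [← add_eq_zero_iff_neg_eq]
      exact h1
  · constructor
    · intro i x
      change N.pr (i + e) (h x.1 + H x.2) = h (M.pr i x.1) + H (M.pr (i + 1) x.2)
      have h1 := hH (i + 1) x.2
      have h2 : i + 1 + (e - 1) = i + e := by ring
      rw [h2] at h1
      rw [map_add, hh.pr, h1]
    · intro x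
      rw [DGM.cone_d]
      change N.d (h x.1 + H x.2) = h (M.d x.1 + x.2) + H (-(M.d x.2))
      rw [map_add, map_add, map_neg, hh.d, hd x.2]
      abel
  · ext x
    change h x = h x + H 0
    rw [map_zero, add_zero]

/-- A map into `M` which is killed by a trivial fibration `p : M → N` factors through the acyclic
`ker p`. -/
theorem NZ.of_ker {L M N : DGM G} {e e' : ℤ} {p : M.X →ₗ[A] N.X} (hp : IsMor M N e' p)
    (hq : SQ M N p) {f : L.X →ₗ[A] M.X} (hf : IsMor L M e f) (h : ∀ x, p (f x) = 0) :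
    NZ L M e f := by
  have h1 : IsMor L (M.sub (LinearMap.ker p) hp.ker_pr hp.ker_d) e
      (f.codRestrict (LinearMap.ker p) (fun x => LinearMap.mem_ker.2 (h x))) :=
    hf.codRestrict _ _ _ _
  refine ⟨(M.sub (LinearMap.ker p) hp.ker_pr hp.ker_d).regr e, _, (LinearMap.ker p).subtype, ?_,
    h1.to_regr, ?_, ?_⟩
  · intro x hx
    obtain ⟨y, hy1, hy2⟩ := hq.2 x.1 (LinearMap.mem_ker.1 x.2) (congrArg Subtype.val hx)
    exact ⟨⟨y, LinearMap.mem_ker.2 hy1⟩, Subtype.ext hy2⟩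
  · exact ((isMor_subtype M (LinearMap.ker p) hp.ker_pr hp.ker_d).of_regr).cast (add_zero e)
  · ext x
    rfl

/-- composite of the first `g` and the next `g'` maps of a sequence -/
theorem cmp_add (Y : ℕ → DGM G) (γ : ∀ j, (Y j).X →ₗ[A] (Y (j + 1)).X) (g g' : ℕ) (x : (Y 0).X) :
    cmp Y γ (g + g') x = cmp (fun j => Y (g + j)) (fun j => γ (g + j)) g' (cmp Y γ g x) := by
  induction g' with
  | zero => rfl
  | succ g' ih =>
    change γ (g + g') (cmp Y γ (g + g') x) =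
      γ (g + g') (cmp (fun j => Y (g + j)) (fun j => γ (g + j)) g' (cmp Y γ g x))
    rw [ih]

theorem isMor_cmp (Y : ℕ → DGM G) (γ : ∀ j, (Y j).X →ₗ[A] (Y (j + 1)).X)
    (hγ : ∀ j, IsMor (Y j) (Y (j + 1)) 0 (γ j)) (g : ℕ) : IsMor (Y 0) (Y g) 0 (cmp Y γ g) := by
  induction g with
  | zero => exact isMor_id (Y 0)
  | succ g ih => exact (hγ g).comp0 ih

end MP8a
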