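import Pool.Agent.Lib_MP_8a48ad_gt.Basic

/-! # Piece THB: consequences of the closure properties of thick subcategories -/

set_option autoImplicit false

namespace MP8a

universe u

variable {A : Type u} [CommRing A] {G : Gr A}

/-- a trivial fibration of degree `0` is a quasi-isomorphism -/
theorem SQ.isQis {M N : DGM G} {p : M.X →ₗ[A] N.X} (hp : IsMor M N 0 p) (h : SQ M N p) :
    IsQis M N p := by
  obtain ⟨h1, h2⟩ := h
  constructor
  · intro x hx y hy
    obtain ⟨y', rfl⟩ := h1 y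
    obtain ⟨z, _, hz⟩ := h2 (x - M.d y') (by rw [map_sub, ← hp.d, hy, sub_self])
      (by rw [map_sub, hx, M.d_d, sub_zero])
    exact ⟨z + y', by rw [map_add, hz, sub_add_cancel]⟩
  · intro y hy
    obtain ⟨x, rfl⟩ := h1 y
    obtain ⟨w, hw, hw2⟩ := h2 (M.d x) (by rw [← hp.d, hy]) (M.d_d x)
    exact ⟨x - w, 0, by rw [map_sub, hw2, sub_self], by rw [map_sub, hw, sub_zero, map_zero, add_zero]⟩

theorem isQis_equiv {M N : DGM G} (e : M.X ≃ₗ[A] N.X) (he : IsMor M N 0 e.toLinearMap) :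
    IsQis M N e.toLinearMap := by
  refine SQ.isQis he ⟨e.surjective, ?_⟩
  intro x hx _
  have h0 : x = 0 := by
    have h1 : e x = 0 := hx
    rwa [LinearEquiv.map_eq_zero_iff] at h1
  exact ⟨0, map_zero _, by rw [h0, map_zero]⟩

variable {T : DGM G → Prop}

theorem IsThick.iso (hT : IsThick T) {M N : DGM G} (e : M.X ≃ₗ[A] N.X)
    (he : IsMor M N 0 e.toLinearMap) : T M ↔ T N :=
  hT.qis M N _ he (isQis_equiv e he)

theorem IsThick.zero (hT : IsThick T) {M : DGM G} (hM : T M) : T (zeroM G) :=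
  hT.retr (zeroM G) M 0 0 (isMor_zero _ _ _) (isMor_zero _ _ _) (fun _ => Subsingleton.elim _ _) hM

theorem IsThick.acy (hT : IsThick T) {M : DGM G} (hM : T M) {Z : DGM G} (hZ : Acy Z) : T Z := by
  refine (hT.qis Z (zeroM G) 0 (isMor_zero _ _ _) ⟨fun x hx _ _ => hZ x hx, fun y _ => ?_⟩).2 (hT.zero hM)
  exact ⟨0, 0, map_zero _, Subsingleton.elim _ _⟩

theorem IsThick.cone (hT : IsThick T) {M N : DGM G} (hM : T M) (hN : T N) (f : M.X →ₗ[A] N.X)
    (hf : IsMor M N 0 f) : T (M.cone N f hf) :=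
  hT.ses2 N (M.cone N f hf) (M.sh 1) _ _ (isMor_cone_inl M N f hf) (isMor_cone_snd M N f hf)
    (isSES_cone M N f hf) hN (hT.sh M 1 hM)

theorem IsThick.prod (hT : IsThick T) {M N : DGM G} (hM : T M) (hN : T N) : T (M.prod N) := by
  refine hT.ses2 M (M.prod N) N (LinearMap.inl A M.X N.X) (LinearMap.snd A M.X N.X) (isMor_inl M N)
    (isMor_snd M N) ⟨LinearMap.inl_injective, LinearMap.snd_surjective, fun x => ⟨fun h => ?_, ?_⟩⟩ hM hN
  · exact ⟨x.1, Prod.ext rfl h.symm⟩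
  · rintro ⟨y, rfl⟩
    rfl

/-- `(M.sh e).sh (-e)` is `M` -/
theorem IsThick.of_sh (hT : IsThick T) {M : DGM G} {e : ℤ} (h : T (M.sh e)) : T M := by
  have h1 := hT.sh _ (-e) h
  refine (hT.iso (M := (M.sh e).sh (-e)) (N := M) (LinearEquiv.refl A M.X) ⟨?_, ?_⟩).1 h1
  · intro i x
    change M.pr (i + 0) x = M.pr (i + -e + e) x
    rw [add_zero, neg_add_cancel_right]
  · intro x
    change M.d x = (if Even (-e) then (if Even e then M.d else - M.d) else
      - (if Even e then M.d else - M.d)) x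
    by_cases he : Even e
    · have he' : Even (-e) := he.neg
      rw [if_pos he, if_pos he']
    · have he' : ¬ Even (-e) := fun h => he (by simpa using h)
      rw [if_neg he, if_neg he', neg_neg]

/-- The cone of an injective morphism `c : M → N` with cokernel `L` is quasi-isomorphic to `L`
(`(x, y) ↦ κ x` is a trivial fibration; also for `-c` in place of `c`). -/
theorem IsThick.cone_inj (hT : IsThick T) {M N L : DGM G} {c : M.X →ₗ[A] N.X} {κ : N.X →ₗ[A] L.X}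
    (hc : IsMor M N 0 c) (hκ : IsMor N L 0 κ) (h : IsSES M N L c κ) (hL : T L)
    (hc' : IsMor M N 0 (-c)) : T (M.cone N (-c) hc') := by
  obtain ⟨hinj, hsurj, hex⟩ := h
  have hm : IsMor (M.cone N (-c) hc') L 0 (κ ∘ₗ LinearMap.fst A N.X M.X) := by
    constructor
    · intro i x
      change L.pr (i + 0) (κ x.1) = κ (N.pr i x.1)
      exact hκ.pr i x.1
    · intro x
      change L.d (κ x.1) = κ (N.d x.1 + -(c x.2))
      rw [map_add, map_neg, (hex (c x.2)).2 ⟨_, rfl⟩, neg_zero, add_zero, hκ.d]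
  refine (hT.qis _ _ _ hm (SQ.isQis hm ⟨?_, ?_⟩)).2 hL
  · intro l
    obtain ⟨n, rfl⟩ := hsurj l
    exact ⟨(n, 0), rfl⟩
  · intro x hx hd
    obtain ⟨m, hm⟩ := (hex x.1).1 hx
    rw [DGM.cone_d] at hd
    have h1 : N.d x.1 + -(c x.2) = 0 := congrArg Prod.fst hd
    have h2 : M.d m = x.2 := by
      apply hinj
      rw [← hc.d, hm]
      rw [← sub_eq_add_neg, sub_eq_zero] at h1
      exact h1
    refine ⟨(0, -m), map_zero κ, ?_⟩
    rw [DGM.cone_d]
    refine Prod.ext ?_ ?_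
    · change N.d 0 + -(c (-m)) = x.1
      rw [map_zero, zero_add, map_neg, neg_neg, hm]
    · change -(M.d (-m)) = x.2
      rw [map_neg, neg_neg, h2]

/-- a map whose composition with a surjective morphism is a morphism -/
theorem isMor_of_surj {N L Z : DGM G} {e : ℤ} {κ : N.X →ₗ[A] L.X} {g : L.X →ₗ[A] Z.X}
    (hκ : IsMor N L 0 κ) (hs : Function.Surjective κ) (h : IsMor N Z e (g ∘ₗ κ)) : IsMor L Z e g := by
  constructor
  · intro i x
    obtain ⟨n, rfl⟩ := hs x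
    have h1 := h.pr i n
    have h2 := hκ.pr i n
    rw [add_zero] at h2
    rw [LinearMap.comp_apply, LinearMap.comp_apply] at h1
    rw [h1, h2]
  · intro x
    obtain ⟨n, rfl⟩ := hs x
    have h1 := h.d n
    rw [LinearMap.comp_apply, LinearMap.comp_apply] at h1
    rw [h1, hκ.d]

/-- Two composable injections `M → N → P` with cokernels `L`, `L'` in `T`: the composite is injective with cokernel
`L'' = P / M` in `T` (`0 → L → L'' → L' → 0`). -/
theorem IsThick.comp_ses (hT : IsThick T) {M N P L L' : DGM G} {a : M.X →ₗ[A] N.X}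
    {b : N.X →ₗ[A] P.X} {κ : N.X →ₗ[A] L.X} {κ' : P.X →ₗ[A] L'.X} (ha : IsMor M N 0 a)
    (hb : IsMor N P 0 b) (hκ : IsMor N L 0 κ) (hκ' : IsMor P L' 0 κ') (h : IsSES M N L a κ)
    (h' : IsSES N P L' b κ') (hL : T L) (hL' : T L') :
    ∃ (L'' : DGM G) (κ'' : P.X →ₗ[A] L''.X), IsMor P L'' 0 κ'' ∧ IsSES M P L'' (b ∘ₗ a) κ'' ∧ T L'' := by
  obtain ⟨h1, h2, h3⟩ := h
  obtain ⟨h1', h2', h3'⟩ := h'
  have hba : IsMor M P 0 (b ∘ₗ a) := hb.comp0 ha
  let U : Submodule A P.X := LinearMap.range (b ∘ₗ a)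
  let Q : DGM G := P.quo U hba.range_pr hba.range_d
  have hq : IsMor P Q 0 U.mkQ := isMor_mkQ P U hba.range_pr hba.range_d
  have hkerκ : LinearMap.ker κ ≤ LinearMap.ker (U.mkQ ∘ₗ b) := by
    intro n hn
    rw [LinearMap.mem_ker] at hn
    obtain ⟨m, rfl⟩ := (h3 n).1 hn
    rw [LinearMap.mem_ker, LinearMap.comp_apply, ← LinearMap.mem_ker, Submodule.ker_mkQ]
    exact ⟨m, rfl⟩
  let φ : L.X →ₗ[A] Q.X := ((LinearMap.ker κ).liftQ (U.mkQ ∘ₗ b) hkerκ) ∘ₗ
    (κ.quotKerEquivOfSurjective h2).symm.toLinearMap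
  have hφ : ∀ n, φ (κ n) = U.mkQ (b n) := by
    intro n
    have e1 : (κ.quotKerEquivOfSurjective h2).symm (κ n) = Submodule.Quotient.mk n := by
      rw [LinearEquiv.symm_apply_eq]
      rfl
    change ((LinearMap.ker κ).liftQ (U.mkQ ∘ₗ b) hkerκ) ((κ.quotKerEquivOfSurjective h2).symm (κ n)) = _
    rw [e1]
    rfl
  have hUκ' : U ≤ LinearMap.ker κ' := by
    rintro _ ⟨m, rfl⟩
    rw [LinearMap.mem_ker, LinearMap.comp_apply]
    exact (h3' _).2 ⟨_, rfl⟩
  let ψ : Q.X →ₗ[A] L'.X := U.liftQ κ' hUκ'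
  have hψ : ∀ x, ψ (U.mkQ x) = κ' x := fun x => rfl
  have hφm : IsMor L Q 0 φ := by
    refine isMor_of_surj hκ h2 ?_
    have e1 : φ ∘ₗ κ = U.mkQ ∘ₗ b := LinearMap.ext hφ
    rw [e1]
    exact hq.comp0 hb
  have hψm : IsMor Q L' 0 ψ := hκ'.liftQ U hba.range_pr hba.range_d hUκ'
  refine ⟨Q, U.mkQ, hq, ⟨h1'.comp h1, Submodule.mkQ_surjective U, fun x => ?_⟩, ?_⟩
  · rw [← LinearMap.mem_ker, Submodule.ker_mkQ]
    exact Iff.rfl
  · refine hT.ses2 L Q L' φ ψ hφm hψm ⟨?_, ?_, ?_⟩ hL hL'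
    · rw [injective_iff_map_eq_zero]
      intro l hl
      obtain ⟨n, rfl⟩ := h2 l
      rw [hφ, ← LinearMap.mem_ker, Submodule.ker_mkQ] at hl
      obtain ⟨m, hm⟩ := hl
      have h4 : a m = n := h1' hm
      exact (h3 n).2 ⟨m, h4⟩
    · intro l
      obtain ⟨p, rfl⟩ := h2' l
      exact ⟨U.mkQ p, rfl⟩
    · intro q
      obtain ⟨p, rfl⟩ := Submodule.mkQ_surjective U q
      rw [hψ]
      constructor
      · intro hp
        obtain ⟨n, rfl⟩ := (h3' p).1 hp
        exact ⟨κ n, hφ n⟩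
      · rintro ⟨l, hl⟩
        obtain ⟨n, rfl⟩ := h2 l
        rw [← hψ, ← hl, hφ, hψ]
        exact (h3' _).2 ⟨n, rfl⟩

/-- multiplication by a homogeneous element of even degree `e` as a morphism `M → M[e]` -/
theorem isMor_mul (M : DGM G) {e : ℤ} {a : A} (ha : G.c e a = a) (he : Even e) :
    IsMor M (M.sh e) 0 (a • (LinearMap.id : M.X →ₗ[A] M.X)) := by
  constructor
  · intro i x
    change M.pr (i + 0 + e) (a • x) = a • M.pr i x
    rw [add_zero, add_comm]
    exact M.pr_smul ha i x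
  · intro x
    rw [DGM.sh_d_even M he]
    change M.d (a • x) = a • M.d x
    rw [map_smul]

/-- The cone of the multiplication by `a`. -/
@[reducible] def DGM.mc (M : DGM G) {e : ℤ} {a : A} (ha : G.c e a = a) (he : Even e) : DGM G :=
  M.cone (M.sh e) (a • (LinearMap.id : M.X →ₗ[A] M.X)) (isMor_mul M ha he)

end MP8a
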