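import Pool.Agent.Lib_MP_8a48ad_gt.NZ

/-! # Piece GRET: the property `GP` and retracts -/

set_option autoImplicit false

namespace MP8a

universe u

variable {A : Type u} [CommRing A] {G : Gr A}

/-- `M` a retract of `N` (maps `i`, `r` of degree `0`, `r (i x) = x`).

PROOF. Let `p : M' → M` be a trivial fibration of degree `e'`, `y : M' → Y 0`. Let `N'` be the sub-DG-module
`{(x, n) | p x = r n}` of `M'.prod (N.regr e')` (`p : M' → M.regr e'` and `r : N.regr e' → M.regr e'` have degree `0`).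
`N' → N`, `(x, n) ↦ n` is a morphism of degree `e'` and a trivial fibration (surjective because `p` is; the kernel is `ker p`).
Apply the hypothesis to `N'` and `N' → M' → Y 0`, and compose with `M' → N'`, `x ↦ (x, i (p x))`, of degree `0`
(`NZ.comp_right`). -/
theorem GP_retract {m : ℤ} {f : A} {M N : DGM G} {i : M.X →ₗ[A] N.X} {r : N.X →ₗ[A] M.X}
    (hi : IsMor M N 0 i) (hr : IsMor N M 0 r) (h : ∀ x, r (i x) = x) {g : ℕ} (hN : GP m f N g) :
    GP m f M g := by
  intro M' e' p hp hq Y γ hγ hgh e y hy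
  -- the difference map
  have hp0 : IsMor M' (M.regr e') 0 p := hp.to_regr
  have hr0 : IsMor (N.regr e') (M.regr e') 0 r :=
    ⟨fun j x => hr.pr (j + e') x |> fun h1 => by
      rw [add_zero] at h1 ⊢
      exact h1, hr.d⟩
  have hD : IsMor (M'.prod (N.regr e')) (M.regr e') 0 (p.coprod (-r)) := hp0.coprod hr0.neg
  have hU1 := hD.ker_pr
  have hU2 := hD.ker_d
  have hmem : ∀ x : M'.X × N.X, x ∈ LinearMap.ker (p.coprod (-r)) ↔ p x.1 = r x.2 := by
    intro x
    rw [LinearMap.mem_ker]
    change p x.1 + -(r x.2) = 0 ↔ p x.1 = r x.2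
    rw [← sub_eq_add_neg, sub_eq_zero]
  set U : Submodule A (M'.X × N.X) := LinearMap.ker (p.coprod (-r)) with hU
  have hsub : IsMor ((M'.prod (N.regr e')).sub U hU1 hU2) (M'.prod (N.regr e')) 0 U.subtype :=
    isMor_subtype (M'.prod (N.regr e')) U hU1 hU2
  have hfst : IsMor ((M'.prod (N.regr e')).sub U hU1 hU2) M' 0
      ((LinearMap.fst A M'.X N.X) ∘ₗ U.subtype) :=
    (isMor_fst M' (N.regr e')).comp0 hsub
  have hsnd : IsMor ((M'.prod (N.regr e')).sub U hU1 hU2) N e'
      ((LinearMap.snd A M'.X N.X) ∘ₗ U.subtype) :=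
    ⟨fun _ _ => rfl, fun _ => rfl⟩
  have hSQ : SQ ((M'.prod (N.regr e')).sub U hU1 hU2) N
      ((LinearMap.snd A M'.X N.X) ∘ₗ U.subtype) := by
    constructor
    · intro n
      obtain ⟨x, hx⟩ := hq.1 (r n)
      exact ⟨⟨(x, n), (hmem (x, n)).2 hx⟩, rfl⟩
    · intro x hx hdx
      have hx2 : x.1.2 = 0 := hx
      have hx1 : p x.1.1 = 0 := by
        rw [(hmem x.1).1 x.2, hx2, map_zero]
      have hd1 : M'.d x.1.1 = 0 := congrArg (fun z => Prod.fst (Subtype.val z)) hdx
      obtain ⟨w, hw, hdw⟩ := hq.2 x.1.1 hx1 hd1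
      refine ⟨⟨(w, 0), (hmem (w, 0)).2 ?_⟩, rfl, ?_⟩
      · change p w = r 0
        rw [hw, map_zero]
      · apply Subtype.ext
        refine Prod.ext ?_ ?_
        · exact hdw
        · change N.d 0 = x.1.2
          rw [hx2, map_zero]
  have hNZ := hN _ e' _ hsnd hSQ Y γ hγ hgh e _ (hy.comp0' hfst)
  -- the section
  have hip : IsMor M' (N.regr e') 0 (i ∘ₗ p) := (hi.comp0 hp).to_regr
  have hj0 : IsMor M' (M'.prod (N.regr e')) 0 (LinearMap.id.prod (i ∘ₗ p)) :=
    (isMor_id M').prodMk hip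
  have hjU : ∀ x, (LinearMap.id.prod (i ∘ₗ p) : M'.X →ₗ[A] M'.X × N.X) x ∈ U := by
    intro x
    rw [hmem]
    exact (h (p x)).symm
  have hj := IsMor.codRestrict (M := M'.prod (N.regr e')) hj0 U hU1 hU2 hjU
  have hfin := (NZ.comp_right hj hNZ).cast (zero_add _)
  exact hfin

/-- in particular for isomorphic modules -/
theorem GP_iso {m : ℤ} {f : A} {M N : DGM G} (e : M.X ≃ₗ[A] N.X) (he : IsMor M N 0 e.toLinearMap)
    {g : ℕ} (hN : GP m f N g) : GP m f M g := by
  refine GP_retract (i := e.toLinearMap) (r := e.symm.toLinearMap) he ?_ (fun x => ?_) hN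
  · constructor
    · intro j x
      apply e.injective
      have h1 := he.pr j (e.symm x)
      rw [add_zero] at h1 ⊢
      change N.pr j (e (e.symm x)) = e (M.pr j (e.symm x)) at h1
      rw [e.apply_symm_apply] at h1
      change e (M.pr j (e.symm x)) = e (e.symm (N.pr j x))
      rw [e.apply_symm_apply, h1]
    · intro x
      apply e.injective
      have h1 := he.d (e.symm x)
      change N.d (e (e.symm x)) = e (M.d (e.symm x)) at h1
      rw [e.apply_symm_apply] at h1
      change e (M.d (e.symm x)) = e (e.symm (N.d x))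
      rw [e.apply_symm_apply, h1]
  · exact e.symm_apply_apply x

end MP8a
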