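import Mathlib

/-! # Piece KOSA: the operators `x_i ⊗ 1 - 1 ⊗ x_i` on `S ⊗_k V`, `V` a module over `S = k[x_1..x_n]` -/

set_option autoImplicit false

namespace MP8a

open TensorProduct

variable {k : Type*} [Field k] {n : ℕ} (V : Type*) [AddCommGroup V] [Module k V]
  [Module (MvPolynomial (Fin n) k) V] [IsScalarTower k (MvPolynomial (Fin n) k) V]

/-- multiplication by `x_i` on `V`, as a `k`-linear map -/
noncomputable def mulX (i : Fin n) : V →ₗ[k] V :=
  (LinearMap.lsmul (MvPolynomial (Fin n) k) V (MvPolynomial.X i)).restrictScalars k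

/-- `x_i ⊗ 1 - 1 ⊗ x_i` on `S ⊗_k V` -/
noncomputable def DD (i : Fin n) :
    (MvPolynomial (Fin n) k ⊗[k] V) →ₗ[MvPolynomial (Fin n) k] (MvPolynomial (Fin n) k ⊗[k] V) :=
  (MvPolynomial.X i : MvPolynomial (Fin n) k) • LinearMap.id -
    (mulX (k := k) V i).baseChange (MvPolynomial (Fin n) k)

theorem DD_tmul (i : Fin n) (s : MvPolynomial (Fin n) k) (v : V) :
    DD (k := k) V i (s ⊗ₜ v) = (MvPolynomial.X i * s) ⊗ₜ v - s ⊗ₜ ((MvPolynomial.X i : MvPolynomial (Fin n) k) • v) := rfl

/-- the submodule generated by the ranges of the `DD i`, `i < j` -/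
noncomputable def UD (j : ℕ) : Submodule (MvPolynomial (Fin n) k) (MvPolynomial (Fin n) k ⊗[k] V) :=
  ⨆ i : {i : Fin n // (i : ℕ) < j}, LinearMap.range (DD (k := k) V i.1)

theorem UD_zero : UD (k := k) (n := n) V 0 = ⊥ := by
  unfold UD
  have : IsEmpty {i : Fin n // (i : ℕ) < 0} := ⟨fun i => absurd i.2 (Nat.not_lt_zero _)⟩
  exact iSup_of_empty _

theorem UD_succ (j : ℕ) (hj : j < n) :
    UD (k := k) (n := n) V (j + 1) = UD (k := k) V j ⊔ LinearMap.range (DD (k := k) V ⟨j, hj⟩) := by
  unfold UD
  refine le_antisymm (iSup_le ?_) (sup_le (iSup_le ?_) ?_)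
  · rintro ⟨i, hi⟩
    rcases Nat.lt_succ_iff_lt_or_eq.1 hi with h | h
    · exact le_sup_of_le_left (le_iSup (fun i : {i : Fin n // (i : ℕ) < j} =>
        LinearMap.range (DD (k := k) V i.1)) ⟨i, h⟩)
    · have h' : i = ⟨j, hj⟩ := Fin.ext h
      subst h'
      exact le_sup_right
  · rintro ⟨i, hi⟩
    exact le_iSup (fun i : {i : Fin n // (i : ℕ) < j + 1} =>
        LinearMap.range (DD (k := k) V i.1)) ⟨i, Nat.lt_succ_of_lt hi⟩
  · exact le_iSup (fun i : {i : Fin n // (i : ℕ) < j + 1} =>
        LinearMap.range (DD (k := k) V i.1)) ⟨⟨j, hj⟩, Nat.lt_succ_self j⟩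

/-- the operators commute -/
theorem DD_comm (i j : Fin n) (z : MvPolynomial (Fin n) k ⊗[k] V) :
    DD (k := k) V i (DD (k := k) V j z) = DD (k := k) V j (DD (k := k) V i z) := by
  induction z using TensorProduct.induction_on with
  | zero => simp
  | tmul s v =>
    simp only [DD_tmul, map_sub]
    rw [mul_left_comm (MvPolynomial.X i) (MvPolynomial.X j) s,
      smul_comm (MvPolynomial.X i : MvPolynomial (Fin n) k) (MvPolynomial.X j) v]
    abel
  | add x y hx hy => simp only [map_add, hx, hy]

theorem DD_mem_UD (i : Fin n) (j : ℕ) (z : MvPolynomial (Fin n) k ⊗[k] V) (hz : z ∈ UD (k := k) V j) :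
    DD (k := k) V i z ∈ UD (k := k) V j := by
  have h1 : (UD (k := k) V j).map (DD (k := k) V i) ≤ UD (k := k) V j := by
    unfold UD
    rw [Submodule.map_iSup]
    refine iSup_le fun l => ?_
    refine le_trans ?_ (le_iSup (fun l : {i : Fin n // (i : ℕ) < j} =>
      LinearMap.range (DD (k := k) V l.1)) l)
    rintro _ ⟨_, ⟨z, rfl⟩, rfl⟩
    exact ⟨DD (k := k) V i z, DD_comm V l.1 i z⟩
  exact h1 ⟨z, hz, rfl⟩

/-- the decomposition of `S ⊗ V` -/
private noncomputable def kosE : (MvPolynomial (Fin n) k ⊗[k] V) ≃ₗ[k] ((Fin n →₀ ℕ) →₀ V) :=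
  (TensorProduct.congr (MvPolynomial.basisMonomials (Fin n) k).repr (LinearEquiv.refl k V)).trans
    (TensorProduct.finsuppScalarLeft k V (Fin n →₀ ℕ))

omit [Module (MvPolynomial (Fin n) k) V] [IsScalarTower k (MvPolynomial (Fin n) k) V] in
private theorem kosE_tmul (s : MvPolynomial (Fin n) k) (v : V) (μ : Fin n →₀ ℕ) :
    kosE V (s ⊗ₜ v) μ = MvPolynomial.coeff μ s • v := by
  unfold kosE
  rw [LinearEquiv.trans_apply, TensorProduct.congr_tmul,
    TensorProduct.finsuppScalarLeft_apply_tmul_apply]
  rfl

/-- the coefficient of `x^μ` -/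
private noncomputable def kosC (z : MvPolynomial (Fin n) k ⊗[k] V) (μ : Fin n →₀ ℕ) : V :=
  kosE V z μ

private theorem kosC_DD (i : Fin n) (z : MvPolynomial (Fin n) k ⊗[k] V) (μ : Fin n →₀ ℕ) :
    kosC V (DD (k := k) V i z) (Finsupp.single i 1 + μ) =
      kosC V z μ - (MvPolynomial.X i : MvPolynomial (Fin n) k) • kosC V z (Finsupp.single i 1 + μ) := by
  unfold kosC
  induction z using TensorProduct.induction_on with
  | zero => simp
  | add x y hx hy =>
    rw [map_add (DD (k := k) V i), map_add (kosE V), Finsupp.add_apply, hx, hy,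
      map_add (kosE V), Finsupp.add_apply, Finsupp.add_apply, smul_add]
    abel
  | tmul s v =>
    rw [DD_tmul, map_sub, Finsupp.sub_apply, kosE_tmul, kosE_tmul, kosE_tmul, kosE_tmul,
      MvPolynomial.coeff_X_mul, smul_comm]

private theorem DD_inj (i : Fin n) (z : MvPolynomial (Fin n) k ⊗[k] V)
    (h : DD (k := k) V i z = 0) : z = 0 := by
  have h1 : ∀ μ, kosC V z μ =
      (MvPolynomial.X i : MvPolynomial (Fin n) k) • kosC V z (Finsupp.single i 1 + μ) := by
    intro μ
    have h2 := kosC_DD V i z μ
    rw [h] at h2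
    have h3 : kosC V (0 : MvPolynomial (Fin n) k ⊗[k] V) (Finsupp.single i 1 + μ) = 0 := by
      unfold kosC
      simp
    rw [h3] at h2
    exact (sub_eq_zero.1 h2.symm)
  have h2 : ∀ (m : ℕ) μ, kosC V z (m • Finsupp.single i 1 + μ) = 0 → kosC V z μ = 0 := by
    intro m
    induction m with
    | zero =>
      intro μ h3
      rw [zero_smul, zero_add] at h3
      exact h3
    | succ m ih =>
      intro μ h3
      rw [h1 μ, ih (Finsupp.single i 1 + μ) ?_, smul_zero]
      rw [← add_assoc, ← succ_nsmul]
      exact h3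
  have h3 : ∀ μ, kosC V z μ = 0 := by
    intro μ
    obtain ⟨m, hm⟩ : ∃ m : ℕ, kosC V z (m • Finsupp.single i 1 + μ) = 0 := by
      by_contra hcon
      push Not at hcon
      have hinj : Function.Injective (fun m : ℕ => m • Finsupp.single i 1 + μ : ℕ → (Fin n →₀ ℕ)) := by
        intro a b hab
        have := DFunLike.congr_fun hab i
        simpa using this
      have hfin : (Set.range (fun m : ℕ => m • Finsupp.single i 1 + μ : ℕ → (Fin n →₀ ℕ))).Finite := by
        refine (kosE V z).support.finite_toSet.subset ?_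
        rintro _ ⟨m, rfl⟩
        exact Finsupp.mem_support_iff.2 (hcon m)
      exact (Set.infinite_range_of_injective hinj) hfin
    exact h2 m μ hm
  have h4 : kosE V z = 0 := Finsupp.ext h3
  exact (LinearEquiv.map_eq_zero_iff _).1 h4

/-- the action of `a ⊗ b` on `1 ⊗ v` -/
private noncomputable def kosMu : (MvPolynomial (Fin n) k ⊗[k] MvPolynomial (Fin n) k) →ₗ[k]
    V →ₗ[k] (MvPolynomial (Fin n) k ⊗[k] V) :=
  TensorProduct.lift
    { toFun := fun a =>
        { toFun := fun b => (TensorProduct.mk k (MvPolynomial (Fin n) k) V a).comp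
            ((LinearMap.lsmul (MvPolynomial (Fin n) k) V b).restrictScalars k)
          map_add' := by
            intro b c
            ext v
            show a ⊗ₜ ((b + c) • v) = a ⊗ₜ (b • v) + a ⊗ₜ (c • v)
            rw [add_smul, TensorProduct.tmul_add]
          map_smul' := by
            intro r b
            ext v
            show a ⊗ₜ ((r • b) • v) = r • (a ⊗ₜ[k] (b • v))
            rw [smul_assoc, TensorProduct.tmul_smul] }
      map_add' := by
        intro a b
        refine LinearMap.ext fun c => LinearMap.ext fun v => ?_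
        exact TensorProduct.add_tmul a b (c • v)
      map_smul' := by
        intro r a
        refine LinearMap.ext fun c => LinearMap.ext fun v => ?_
        exact rfl }

private theorem kosMu_tmul (a b : MvPolynomial (Fin n) k) (v : V) :
    kosMu V (a ⊗ₜ b) v = a ⊗ₜ[k] (b • v) := rfl

private theorem kosMu_left (a : MvPolynomial (Fin n) k)
    (e : MvPolynomial (Fin n) k ⊗[k] MvPolynomial (Fin n) k) (v : V) :
    kosMu V ((a ⊗ₜ[k] (1 : MvPolynomial (Fin n) k)) * e) v = a • kosMu V e v := by
  induction e using TensorProduct.induction_on with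
  | zero => simp
  | add x y hx hy =>
    rw [mul_add, map_add, LinearMap.add_apply, hx, hy, map_add, LinearMap.add_apply, smul_add]
  | tmul c d =>
    rw [Algebra.TensorProduct.tmul_mul_tmul, one_mul, kosMu_tmul, kosMu_tmul,
      TensorProduct.smul_tmul', smul_eq_mul]

private theorem kosMu_right (b : MvPolynomial (Fin n) k)
    (e : MvPolynomial (Fin n) k ⊗[k] MvPolynomial (Fin n) k) (v : V) :
    kosMu V (((1 : MvPolynomial (Fin n) k) ⊗ₜ[k] b) * e) v = kosMu V e (b • v) := by
  induction e using TensorProduct.induction_on with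
  | zero => simp
  | add x y hx hy =>
    rw [mul_add, map_add, LinearMap.add_apply, hx, hy, map_add, LinearMap.add_apply]
  | tmul c d =>
    rw [Algebra.TensorProduct.tmul_mul_tmul, one_mul, kosMu_tmul, kosMu_tmul, mul_comm, mul_smul]

open Classical in
/-- `x_i ↦ 1 ⊗ x_i` for `i < j`, `x_i ↦ x_i ⊗ 1` for `i ≥ j` -/
private noncomputable def kosTh (j : Fin n) : MvPolynomial (Fin n) k →ₐ[k]
    (MvPolynomial (Fin n) k ⊗[k] MvPolynomial (Fin n) k) :=
  MvPolynomial.aeval fun i => if i < j then 1 ⊗ₜ MvPolynomial.X i else MvPolynomial.X i ⊗ₜ 1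

private noncomputable def kosPi (j : Fin n) :
    (MvPolynomial (Fin n) k ⊗[k] V) →ₗ[k] (MvPolynomial (Fin n) k ⊗[k] V) :=
  TensorProduct.lift ((kosMu V).comp (kosTh (k := k) j).toLinearMap)

private theorem kosPi_tmul (j : Fin n) (s : MvPolynomial (Fin n) k) (v : V) :
    kosPi V j (s ⊗ₜ v) = kosMu V (kosTh j s) v := rfl

private theorem kosTh_lt {i j : Fin n} (h : i < j) (s : MvPolynomial (Fin n) k) :
    kosTh j (MvPolynomial.X i * s) = (1 ⊗ₜ MvPolynomial.X i) * kosTh (k := k) j s := by
  rw [map_mul]
  congr 1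
  unfold kosTh
  rw [MvPolynomial.aeval_X, if_pos h]

private theorem kosTh_ge {i j : Fin n} (h : ¬ i < j) (s : MvPolynomial (Fin n) k) :
    kosTh j (MvPolynomial.X i * s) = (MvPolynomial.X i ⊗ₜ 1) * kosTh (k := k) j s := by
  rw [map_mul]
  congr 1
  unfold kosTh
  rw [MvPolynomial.aeval_X, if_neg h]

private theorem kosPi_lt {i j : Fin n} (h : i < j) (z : MvPolynomial (Fin n) k ⊗[k] V) :
    kosPi V j (DD (k := k) V i z) = 0 := by
  induction z using TensorProduct.induction_on with
  | zero => simp
  | add x y hx hy => rw [map_add, map_add, hx, hy, add_zero]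
  | tmul s v =>
    rw [DD_tmul, map_sub, kosPi_tmul, kosPi_tmul, kosTh_lt h, kosMu_right, sub_self]

private theorem kosPi_UD (j : Fin n) (z : MvPolynomial (Fin n) k ⊗[k] V)
    (h : z ∈ UD (k := k) V j) : kosPi V j z = 0 := by
  unfold UD at h
  induction h using Submodule.iSup_induction' with
  | mem i x hx =>
    obtain ⟨y, rfl⟩ := hx
    exact kosPi_lt V i.2 y
  | zero => exact map_zero _
  | add x y _ _ hx hy => rw [map_add, hx, hy, add_zero]

private theorem kosMu_DD (j : Fin n) (e : MvPolynomial (Fin n) k ⊗[k] MvPolynomial (Fin n) k)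
    (v : V) : DD (k := k) V j (kosMu V e v) = (MvPolynomial.X j : MvPolynomial (Fin n) k) •
      kosMu V e v - kosMu V e ((MvPolynomial.X j : MvPolynomial (Fin n) k) • v) := by
  induction e using TensorProduct.induction_on with
  | zero => simp
  | add x y hx hy =>
    rw [map_add, LinearMap.add_apply, map_add, hx, hy, LinearMap.add_apply, smul_add]
    abel
  | tmul c d =>
    rw [kosMu_tmul, DD_tmul, kosMu_tmul, TensorProduct.smul_tmul', smul_eq_mul,
      smul_comm (MvPolynomial.X j : MvPolynomial (Fin n) k) d v]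

private theorem kosPi_DD (j : Fin n) (z : MvPolynomial (Fin n) k ⊗[k] V) :
    kosPi V j (DD (k := k) V j z) = DD (k := k) V j (kosPi V j z) := by
  induction z using TensorProduct.induction_on with
  | zero => simp
  | add x y hx hy => rw [map_add, map_add, hx, hy, map_add, map_add]
  | tmul s v =>
    rw [DD_tmul, map_sub, kosPi_tmul, kosPi_tmul, kosPi_tmul, kosTh_ge (lt_irrefl j), kosMu_left,
      kosMu_DD]

private theorem kosPi_sub (j : Fin n) (z : MvPolynomial (Fin n) k ⊗[k] V) :
    z - kosPi V j z ∈ UD (k := k) V j := by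
  induction z using TensorProduct.induction_on with
  | zero => simp
  | add x y hx hy =>
    rw [map_add, add_sub_add_comm]
    exact Submodule.add_mem _ hx hy
  | tmul s v =>
    rw [kosPi_tmul]
    induction s using MvPolynomial.induction_on generalizing v with
    | C a =>
      have e : kosTh j (MvPolynomial.C a : MvPolynomial (Fin n) k) =
          (MvPolynomial.C a : MvPolynomial (Fin n) k) ⊗ₜ[k] (1 : MvPolynomial (Fin n) k) := by
        rw [← MvPolynomial.algebraMap_eq, AlgHom.commutes,
          Algebra.TensorProduct.algebraMap_apply]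
      rw [e, kosMu_tmul, one_smul, sub_self]
      exact Submodule.zero_mem _
    | add p q hp hq =>
      rw [TensorProduct.add_tmul, map_add, map_add, LinearMap.add_apply, add_sub_add_comm]
      exact Submodule.add_mem _ (hp v) (hq v)
    | mul_X p i hp =>
      rw [mul_comm p]
      by_cases h : i < j
      · rw [kosTh_lt h, kosMu_right]
        have h2 := hp ((MvPolynomial.X i : MvPolynomial (Fin n) k) • v)
        have h3 : DD (k := k) V i (p ⊗ₜ v) ∈ UD (k := k) V j :=
          Submodule.mem_iSup_of_mem (p := fun l : {l : Fin n // (l : ℕ) < j} =>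
            LinearMap.range (DD (k := k) V l.1)) ⟨i, h⟩ ⟨_, rfl⟩
        rw [DD_tmul] at h3
        have h4 := Submodule.add_mem _ h3 h2
        rw [sub_add_sub_cancel] at h4
        exact h4
      · rw [kosTh_ge h, kosMu_left]
        have h2 := Submodule.smul_mem _ (MvPolynomial.X i : MvPolynomial (Fin n) k) (hp v)
        rw [smul_sub, TensorProduct.smul_tmul', smul_eq_mul] at h2
        exact h2

/-- The sequence is regular. PROOF. Let `Φ : S ⊗_k V → S ⊗_k V` be the `k`-linear map `Φ (s ⊗ v) = Δ(s) (1 ⊗ v)` where `Δ : S → S ⊗ S`,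
`x_i ↦ x_i ⊗ 1 - 1 ⊗ x_i`, is a homomorphism of `k`-algebras and `S ⊗ S` acts on `S ⊗ V`. `Φ` is bijective (the inverse is given in the same
way by `x_i ↦ x_i ⊗ 1 + 1 ⊗ x_i`), and `Φ (x_i z) = DD i (Φ z)`. So the statement becomes: if `x_j z ∈ ∑_{i<j} x_i (S ⊗ V)` then
`z ∈ ∑_{i<j} x_i (S ⊗ V)`. In terms of the basis of monomials (`S ⊗_k V = ⨁_μ V`), the right side consists of the `z` whose components `z_μ` vanish for all `μ`
with `μ_i = 0` for all `i < j`; multiplication by `x_j` shifts `μ`. (Alternative: without `Φ`, by an explicit normal form: every `z` is congruent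
modulo `UD j` to a unique element of `k[x_i, i ≥ j] ⊗ V`.) -/
theorem DD_regular (j : Fin n) (z : MvPolynomial (Fin n) k ⊗[k] V)
    (h : DD (k := k) V j z ∈ UD (k := k) V j) : z ∈ UD (k := k) V j := by
  have h1 : kosPi V j (DD (k := k) V j z) = 0 := kosPi_UD V j _ h
  rw [kosPi_DD] at h1
  have h2 : kosPi V j z = 0 := DD_inj V j _ h1
  have h3 := kosPi_sub V j z
  rw [h2, sub_zero] at h3
  exact h3

/-- the multiplication `S ⊗_k V → V` -/
noncomputable def mulT : (MvPolynomial (Fin n) k ⊗[k] V) →ₗ[MvPolynomial (Fin n) k] V :=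
  TensorProduct.AlgebraTensorModule.lift
    { toFun := fun s => (LinearMap.lsmul (MvPolynomial (Fin n) k) V s).restrictScalars k
      map_add' := by
        intro s t
        ext v
        exact add_smul s t v
      map_smul' := by
        intro s t
        ext v
        exact mul_smul s t v }

theorem mulT_tmul (s : MvPolynomial (Fin n) k) (v : V) : mulT (k := k) V (s ⊗ₜ v) = s • v := by
  rfl

/-- The kernel of the multiplication. PROOF. Modulo `UD n`, `x^μ ⊗ v = 1 ⊗ x^μ v` (induction on the degree), so every `z` is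
congruent to `1 ⊗ mulT z`. -/
theorem ker_mulT : LinearMap.ker (mulT (k := k) (n := n) V) = UD (k := k) V n := by
  apply le_antisymm
  · intro z hz
    have h1 : z - (1 : MvPolynomial (Fin n) k) ⊗ₜ[k] (mulT (k := k) (n := n) V z) ∈
        UD (k := k) V n := by
      clear hz
      induction z using TensorProduct.induction_on with
      | zero => simp
      | add x y hx hy =>
        rw [map_add, TensorProduct.tmul_add, add_sub_add_comm]
        exact Submodule.add_mem _ hx hy
      | tmul s v =>
        rw [mulT_tmul]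
        induction s using MvPolynomial.induction_on generalizing v with
        | C a =>
          have e : (MvPolynomial.C a : MvPolynomial (Fin n) k) = a • 1 := by
            rw [← MvPolynomial.algebraMap_eq, Algebra.algebraMap_eq_smul_one]
          rw [e, TensorProduct.smul_tmul, smul_assoc, one_smul, sub_self]
          exact Submodule.zero_mem _
        | add p q hp hq =>
          rw [TensorProduct.add_tmul, add_smul, TensorProduct.tmul_add, add_sub_add_comm]
          exact Submodule.add_mem _ (hp v) (hq v)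
        | mul_X p i hp =>
          have h2 := hp ((MvPolynomial.X i : MvPolynomial (Fin n) k) • v)
          have h3 : DD (k := k) V i (p ⊗ₜ v) ∈ UD (k := k) V n :=
            Submodule.mem_iSup_of_mem (p := fun l : {l : Fin n // (l : ℕ) < n} =>
              LinearMap.range (DD (k := k) V l.1)) ⟨i, i.2⟩ ⟨_, rfl⟩
          rw [DD_tmul] at h3
          have h4 := Submodule.add_mem _ h3 h2
          rw [sub_add_sub_cancel, ← mul_smul, mul_comm (MvPolynomial.X i) p] at h4
          exact h4
    have h2 : mulT (k := k) (n := n) V z = 0 := hz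
    rw [h2, TensorProduct.tmul_zero, sub_zero] at h1
    exact h1
  · unfold UD
    refine iSup_le fun i => ?_
    rintro _ ⟨z, rfl⟩
    rw [LinearMap.mem_ker]
    induction z using TensorProduct.induction_on with
    | zero => simp
    | add x y hx hy => rw [map_add, map_add, hx, hy, add_zero]
    | tmul s v =>
      rw [DD_tmul, map_sub, mulT_tmul, mulT_tmul, mul_comm, mul_smul, sub_self]

end MP8a
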