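import Pool.Agent.Lib_MP_8a48ad_gt.NZ

/-! # Piece SEST: the property `GP` and short exact sequences -/

set_option autoImplicit false

namespace MP8a

universe u

variable {A : Type u} [CommRing A] {G : Gr A}

/-- THE STEP. `0 → X1 → X2 → X3 → 0` exact (maps `i`, `q` of arbitrary degrees).

PROOF. Let `p : X' → X2` be a trivial fibration of degree `e'`, `Y`, `γ` a sequence of ghosts, `y : X' → Y 0` of degree
`e`. Put `c = f^g • (cmp Y γ g ∘ y) : X' → Y g`, a morphism of degree `e + g m` (`isMor_cmp`, `IsMor.smul`,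
`Gr.pow_hom`). Let `X1' ⊆ X'` be the sub-DG-module `p⁻¹(range i)` (`DGM.sub`). The map `p₁ : X1' → X1`,
`i (p₁ x) = p x` (use `LinearEquiv.ofInjective i` or choice), is a morphism of degree `e' - e1`; it is a trivial
fibration: surjective because `p` is, and its kernel is `ker p` (if `p₁ x = 0` and `d x = 0` take `y ∈ ker p`, `d y = x`).
By `h1`, `c` restricted to `X1'` is `v ∘ u` with `u : X1' → Z` of degree `0`, `v : Z → Y g`, `Z` acyclic. Let `E` be the quotient of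
`X'.prod Z` by the submodule `{(x, -u x) | x ∈ X1'}` (range of `x ↦ (x, -u x)`; stable under `pr` and `d`). Maps: `X' → E`, `x ↦ [(x, 0)]`;
`ψ : E → Y g`, `[(x, z)] ↦ c x + v z` (`IsMor.liftQ`), degree `e + g m`; `p' : E → X3`, `[(x, z)] ↦ q (p x)`, degree `e' + e3`.
`p'` is a trivial fibration: surjective; let `[(x, z)]` be a cycle with `q (p x) = 0`: then `x ∈ X1'` and `[(x, z)] = [(0, z + u x)]`, so let
`x = 0`; `[(0, d z)] = 0` gives `d z = 0` (if `(0, d z) = (x', -u x')` then `x' = 0`), so `z = d w` and `[(0, w)]` is in the kernel of `p'`.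
Apply `h3` to `X' := E`, `p'`, the sequence `fun j => Y (g + j)` and `ψ`: `f^g' • (cmp _ _ g' ∘ ψ)` is `NZ`; compose with
`X' → E` (`NZ.comp_right`) and use `cmp_add`. -/
theorem GP_ses {m : ℤ} {f : A} (hf : G.c m f = f) {X1 X2 X3 : DGM G} {e1 e3 : ℤ}
    {i : X1.X →ₗ[A] X2.X} {q : X2.X →ₗ[A] X3.X} (hi : IsMor X1 X2 e1 i) (hq : IsMor X2 X3 e3 q)
    (h : IsSES X1 X2 X3 i q) {g g' : ℕ} (h1 : GP m f X1 g) (h3 : GP m f X3 g') :
    GP m f X2 (g + g') := by
  obtain ⟨hinj, hqs, hex⟩ := h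
  intro X' e' p hp hSQ Y γ hγ hγG e y hy
  -- the sub DG module `p⁻¹ (range i)`
  let U : Submodule A X'.X := (LinearMap.range i).comap p
  have hU1 : ∀ k, ∀ x ∈ U, X'.pr k x ∈ U := by
    intro k x hx
    change p (X'.pr k x) ∈ LinearMap.range i
    rw [← hp.pr]
    exact hi.range_pr _ _ hx
  have hU2 : ∀ x ∈ U, X'.d x ∈ U := by
    intro x hx
    change p (X'.d x) ∈ LinearMap.range i
    rw [← hp.d]
    exact hi.range_d _ hx
  have hU0 : ∀ x, p x = 0 → x ∈ U := by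
    intro x hx
    change p x ∈ LinearMap.range i
    rw [hx]
    exact Submodule.zero_mem _
  obtain ⟨p₁, hp₁⟩ : ∃ p₁ : (X'.sub U hU1 hU2).X →ₗ[A] X1.X, ∀ x : U, i (p₁ x) = p x.1 := by
    refine ⟨(LinearEquiv.ofInjective i hinj).symm.toLinearMap ∘ₗ
      ((p ∘ₗ U.subtype).codRestrict (LinearMap.range i) (fun x => x.2)), fun x => ?_⟩
    exact LinearEquiv.ofInjective_symm_apply i (h := hinj) (⟨p x.1, x.2⟩ : LinearMap.range i)
  have hmp₁ : IsMor (X'.sub U hU1 hU2) X1 (e' - e1) p₁ := by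
    constructor
    · intro k x
      apply hinj
      rw [← hi.pr, hp₁, hp₁, DGM.sub_pr, ← hp.pr]
      congr 2
      ring
    · intro x
      apply hinj
      rw [← hi.d, hp₁, hp₁, DGM.sub_d, ← hp.d]
  have hSQ₁ : SQ (X'.sub U hU1 hU2) X1 p₁ := by
    constructor
    · intro z
      obtain ⟨x, hx⟩ := hSQ.1 (i z)
      have hxU : x ∈ U := ⟨z, hx.symm⟩
      refine ⟨⟨x, hxU⟩, hinj ?_⟩
      rw [hp₁]
      exact hx
    · intro x hx hdx
      have h2 : p x.1 = 0 := by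
        rw [← hp₁, hx, map_zero]
      have h4 : X'.d x.1 = 0 := congrArg Subtype.val hdx
      obtain ⟨z, hz1, hz2⟩ := hSQ.2 x.1 h2 h4
      refine ⟨⟨z, hU0 z hz1⟩, hinj ?_, Subtype.ext hz2⟩
      rw [hp₁, map_zero]
      exact hz1
  -- the map `c`
  have hgm : G.c (g * m) (f ^ g) = f ^ g := G.pow_hom hf g
  have hc : IsMor X' (Y g) (e + g * m) (f ^ g • (cmp Y γ g ∘ₗ y)) :=
    IsMor.smul hgm ((isMor_cmp Y γ hγ g).comp0 hy)
  obtain ⟨Z, u, v, hZ, hu, hv, huv⟩ := h1 (X'.sub U hU1 hU2) (e' - e1) p₁ hmp₁ hSQ₁ Y γ hγ hγG e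
    (y ∘ₗ U.subtype) (hy.comp0' (isMor_subtype X' U hU1 hU2))
  have huv' : ∀ x : U, (f ^ g • (cmp Y γ g ∘ₗ y)) x.1 = v (u x) := fun x => LinearMap.congr_fun huv x
  -- the quotient `E`
  have hw : IsMor (X'.sub U hU1 hU2) (X'.prod Z) 0 (U.subtype.prod (-u)) :=
    (isMor_subtype X' U hU1 hU2).prodMk hu.neg
  let W : Submodule A (X'.prod Z).X := LinearMap.range (U.subtype.prod (-u))
  have hW1 : ∀ k, ∀ x ∈ W, (X'.prod Z).pr k x ∈ W := hw.range_pr
  have hW2 : ∀ x ∈ W, (X'.prod Z).d x ∈ W := hw.range_d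
  have hψW : W ≤ LinearMap.ker ((f ^ g • (cmp Y γ g ∘ₗ y)).coprod v) := by
    rintro _ ⟨x, rfl⟩
    rw [LinearMap.mem_ker]
    change (f ^ g • (cmp Y γ g ∘ₗ y)) x.1 + v (-(u x)) = 0
    rw [huv', map_neg, add_neg_cancel]
  have hψ : IsMor ((X'.prod Z).quo W hW1 hW2) (Y g) (e + g * m)
      (W.liftQ ((f ^ g • (cmp Y γ g ∘ₗ y)).coprod v) hψW) := (hc.coprod hv).liftQ W hW1 hW2 hψW
  have hpW : W ≤ LinearMap.ker ((q ∘ₗ p).coprod (0 : Z.X →ₗ[A] X3.X)) := by
    rintro _ ⟨x, rfl⟩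
    rw [LinearMap.mem_ker]
    change q (p x.1) + 0 = 0
    rw [add_zero]
    exact (hex _).2 x.2
  have hp' : IsMor ((X'.prod Z).quo W hW1 hW2) X3 (e' + e3)
      (W.liftQ ((q ∘ₗ p).coprod (0 : Z.X →ₗ[A] X3.X)) hpW) :=
    ((hq.comp hp).coprod (isMor_zero Z X3 _)).liftQ W hW1 hW2 hpW
  have hSQ' : SQ ((X'.prod Z).quo W hW1 hW2) X3 (W.liftQ ((q ∘ₗ p).coprod (0 : Z.X →ₗ[A] X3.X)) hpW) := by
    constructor
    · intro z
      obtain ⟨a, ha⟩ := hqs z
      obtain ⟨b, hb⟩ := hSQ.1 a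
      refine ⟨Submodule.Quotient.mk (b, 0), ?_⟩
      change q (p b) + 0 = z
      rw [hb, ha, add_zero]
    · intro x hx hdx
      obtain ⟨⟨a, b⟩, rfl⟩ := Submodule.Quotient.mk_surjective W x
      have hx' : q (p a) + 0 = 0 := hx
      rw [add_zero] at hx'
      have haU : a ∈ U := (hex _).1 hx'
      have hab : (Submodule.Quotient.mk (a, b) : (X'.prod Z).X ⧸ W) =
          Submodule.Quotient.mk (0, b + u ⟨a, haU⟩) := by
        rw [Submodule.Quotient.eq]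
        refine ⟨⟨a, haU⟩, ?_⟩
        refine Prod.ext ?_ ?_
        · change a = a - 0
          rw [sub_zero]
        · change -(u ⟨a, haU⟩) = b - (b + u ⟨a, haU⟩)
          abel
      rw [hab] at hdx
      have hd1 : (Submodule.Quotient.mk ((0 : X'.X), Z.d (b + u ⟨a, haU⟩)) : (X'.prod Z).X ⧸ W) = 0 := by
        have h5 : (Submodule.Quotient.mk (X'.d 0, Z.d (b + u ⟨a, haU⟩)) : (X'.prod Z).X ⧸ W) = 0 := hdx
        rw [map_zero] at h5
        exact h5
      rw [Submodule.Quotient.mk_eq_zero] at hd1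
      obtain ⟨x', hx'1⟩ := hd1
      have h6 : (x' : U) = 0 := Subtype.ext (congrArg Prod.fst hx'1)
      have h7 : -(u x') = Z.d (b + u ⟨a, haU⟩) := congrArg Prod.snd hx'1
      rw [h6, map_zero, neg_zero] at h7
      obtain ⟨w, hw⟩ := hZ _ h7.symm
      refine ⟨Submodule.Quotient.mk (0, w), ?_, ?_⟩
      · change q (p 0) + 0 = 0
        rw [map_zero, map_zero, add_zero]
      · rw [hab, ← hw]
        change (Submodule.Quotient.mk (X'.d 0, Z.d w) : (X'.prod Z).X ⧸ W) = _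
        rw [map_zero]
  have h5 := h3 ((X'.prod Z).quo W hW1 hW2) (e' + e3) _ hp' hSQ' (fun j => Y (g + j))
    (fun j => γ (g + j)) (fun j => hγ (g + j)) (fun j => hγG (g + j)) (e + g * m) _ hψ
  have h6 : IsMor X' ((X'.prod Z).quo W hW1 hW2) 0 (W.mkQ ∘ₗ LinearMap.inl A X'.X Z.X) :=
    (isMor_mkQ (X'.prod Z) W hW1 hW2).comp0 (isMor_inl X' Z)
  have h7 := NZ.comp_right h6 h5
  have h8 : (0 : ℤ) + (e + g * m + g' * m) = e + ((g + g' : ℕ) : ℤ) * m := by
    push_cast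
    ring
  refine NZ.cast ?_ h8
  convert h7 using 1
  refine LinearMap.ext fun x => ?_
  change f ^ (g + g') • (cmp Y γ (g + g') (y x)) =
    f ^ g' • (cmp (fun j => Y (g + j)) (fun j => γ (g + j)) g' (f ^ g • (cmp Y γ g (y x)) + v 0))
  have h9 : f ^ g • (cmp Y γ g (y x)) + v 0 = f ^ g • (cmp Y γ g (y x)) := by
    rw [map_zero, add_zero]
  rw [h9, map_smul, cmp_add, smul_smul, pow_add, mul_comm]

end MP8a
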