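import Pool.Agent.Lib_MP_8a48ad_gt.TensG
import Pool.Agent.Lib_MP_8a48ad_gt.KosAlg
import Pool.Agent.Lib_MP_8a48ad_gt.SesStep
import Pool.Agent.Lib_MP_8a48ad_gt.GRet

/-! # Piece KOSS: from `S ⊗_k N` to `N` -/

set_option autoImplicit false

namespace MP8a

open TensorProduct

universe u

section koss

variable {A : Type u} [CommRing A] {G : Gr A}

/-- the DG module with the opposite differential -/
@[reducible] def kossNeg (M : DGM G) : DGM G where
  X := M.X
  pr := M.pr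
  pr_pr := M.pr_pr
  fin := M.fin
  smul := M.smul
  d := -M.d
  d_hom := by
    intro i x hx
    change M.pr (i + 1) (-(M.d x)) = -(M.d x)
    rw [map_neg, M.d_hom hx]
  d_d x := by
    change -(M.d (-(M.d x))) = 0
    rw [map_neg, M.d_d, neg_zero, neg_zero]

theorem koss_neg_mor {M N : DGM G} {e : ℤ} {f : M.X →ₗ[A] N.X} (hf : IsMor M N e f) :
    IsMor (kossNeg M) (kossNeg N) e f :=
  ⟨hf.pr, fun x => by
    change -(N.d (f x)) = f (-(M.d x))
    rw [hf.d, map_neg]⟩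

theorem koss_neg_cmp (Y : ℕ → DGM G) (γ : ∀ j, (Y j).X →ₗ[A] (Y (j + 1)).X) (g : ℕ) :
    cmp (fun j => kossNeg (Y j)) γ g = cmp Y γ g := by
  induction g with
  | zero => rfl
  | succ g ih => exact congrArg (fun z => γ g ∘ₗ z) ih

theorem koss_neg_nz {M N : DGM G} {e : ℤ} {f : M.X →ₗ[A] N.X} (hf : NZ (kossNeg M) (kossNeg N) e f) :
    NZ M N e f := by
  obtain ⟨Z, u, v, hZ, hu, hv, huv⟩ := hf
  refine ⟨kossNeg Z, u, v, ?_, ⟨hu.pr, fun x => ?_⟩, ⟨hv.pr, fun x => ?_⟩, huv⟩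
  · intro x hx
    have h1 : Z.d x = 0 := neg_eq_zero.1 hx
    obtain ⟨y, hy⟩ := hZ x h1
    refine ⟨-y, ?_⟩
    change -(Z.d (-y)) = x
    rw [map_neg, neg_neg, hy]
  · have h1 : Z.d (u x) = u (-(M.d x)) := hu.d x
    change -(Z.d (u x)) = u (M.d x)
    rw [h1, map_neg, neg_neg]
  · have h1 : -(N.d (v x)) = v (Z.d x) := hv.d x
    change N.d (v x) = v (-(Z.d x))
    rw [map_neg, ← h1, neg_neg]

theorem koss_neg_GP {m : ℤ} {f : A} {X : DGM G} {g : ℕ} (h : GP m f X g) :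
    GP m f (kossNeg X) g := by
  intro X' e' p hp hq Y γ hγ hgh e y hy
  have hp' : IsMor (kossNeg X') X e' p := ⟨hp.pr, fun x => by
    have h1 : -(X.d (p x)) = p (X'.d x) := hp.d x
    change X.d (p x) = p (-(X'.d x))
    rw [map_neg, ← h1, neg_neg]⟩
  have hq' : SQ (kossNeg X') X p := by
    refine ⟨hq.1, fun x hx hdx => ?_⟩
    obtain ⟨z, hz, hdz⟩ := hq.2 x hx (neg_eq_zero.1 hdx)
    refine ⟨-z, ?_, ?_⟩
    · rw [map_neg, hz, neg_zero]
    · change -(X'.d (-z)) = x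
      rw [map_neg, neg_neg, hdz]
  have h1 := h (kossNeg X') e' p hp' hq' (fun j => kossNeg (Y j)) γ
    (fun j => koss_neg_mor (hγ j)) (fun j x hx => ?_) e y (koss_neg_mor hy)
  · rw [koss_neg_cmp] at h1
    exact koss_neg_nz h1
  · obtain ⟨z, hz⟩ := hgh j x (neg_eq_zero.1 hx)
    refine ⟨-z, ?_⟩
    change -((Y (j + 1)).d (-z)) = γ j x
    rw [map_neg, neg_neg, hz]

theorem koss_regr_GP {m : ℤ} {f : A} {X : DGM G} {g : ℕ} (e0 : ℤ) (h : GP m f X g) :
    GP m f (X.regr e0) g := by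
  intro X' e' p hp hq Y γ hγ hgh e y hy
  refine h X' (e' + e0) p ⟨fun i x => ?_, hp.d⟩ hq Y γ hγ hgh e y hy
  rw [← add_assoc]
  exact hp.pr i x

theorem koss_of_regr_GP {m : ℤ} {f : A} {X : DGM G} {g : ℕ} (e0 : ℤ) (h : GP m f (X.regr e0) g) :
    GP m f X g := by
  intro X' e' p hp hq Y γ hγ hgh e y hy
  refine h X' (e' - e0) p ⟨fun i x => ?_, hp.d⟩ hq Y γ hγ hgh e y hy
  have h1 := hp.pr i x
  have h2 : i + (e' - e0) + e0 = i + e' := by ring
  change X.pr (i + (e' - e0) + e0) (p x) = p (X'.pr i x)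
  rw [h2, h1]

theorem koss_sh_GP {m : ℤ} {f : A} {X : DGM G} {g : ℕ} (h : GP m f X g) :
    GP m f (X.sh 1) g := by
  refine GP_iso (M := X.sh 1) (N := kossNeg (X.regr 1)) (LinearEquiv.refl A X.X) ?_
    (koss_neg_GP (koss_regr_GP 1 h))
  refine ⟨fun i x => by rw [add_zero]; rfl, fun x => ?_⟩
  rw [DGM.sh_d_one]
  rfl

theorem koss_lift {E F H : Type*} [AddCommGroup E] [Module A E] [AddCommGroup F] [Module A F]
    [AddCommGroup H] [Module A H] (π : E →ₗ[A] F) (hπ : Function.Surjective π) (g : E →ₗ[A] H)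
    (h : ∀ x, π x = 0 → g x = 0) : ∃ g' : F →ₗ[A] H, ∀ x, g' (π x) = g x := by
  have hle : LinearMap.ker π ≤ LinearMap.ker g := fun x hx =>
    LinearMap.mem_ker.2 (h x (LinearMap.mem_ker.1 hx))
  refine ⟨((LinearMap.ker π).liftQ g hle) ∘ₗ
    (π.quotKerEquivOfSurjective hπ).symm.toLinearMap, fun x => ?_⟩
  have h1 : (π.quotKerEquivOfSurjective hπ).symm (π x) = (LinearMap.ker π).mkQ x := by
    rw [LinearEquiv.symm_apply_eq]
    rfl
  rw [LinearMap.comp_apply, LinearEquiv.coe_coe, h1, Submodule.mkQ_apply, Submodule.liftQ_apply]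

/-- a morphism is zero in the derived category if it is so after composition with a trivial
fibration -/
theorem koss_descend {M' M W : DGM G} {e : ℤ} {π : M'.X →ₗ[A] M.X} (hπ : IsMor M' M 0 π)
    (hq : SQ M' M π) {h : M.X →ₗ[A] W.X} (hh : NZ M' W e (h ∘ₗ π)) : NZ M W e h := by
  obtain ⟨Z, u, v, hZ, hu, hv, huv⟩ := hh
  have huv' : ∀ x, v (u x) = h (π x) := fun x => (LinearMap.congr_fun huv x).symm
  have hu1 := hu.prodMk (isMor_cone_inl M' M' LinearMap.id (isMor_id M'))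
  have hv1 := hv.coprod (isMor_zero (M'.cone M' LinearMap.id (isMor_id M')) W e)
  have hZ1 : Acy (Z.prod (M'.cone M' LinearMap.id (isMor_id M'))) := by
    rintro ⟨z, a, b⟩ hx
    have hz : Z.d z = 0 := congrArg Prod.fst hx
    have ha : M'.d a + b = 0 := congrArg (fun t => t.2.1) hx
    obtain ⟨z', hz'⟩ := hZ z hz
    refine ⟨(z', 0, a), Prod.ext hz' (Prod.ext ?_ ?_)⟩
    · change M'.d 0 + a = a
      rw [map_zero, zero_add]
    · change -(M'.d a) = b
      rw [neg_eq_iff_add_eq_zero, ha]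
  obtain ⟨u1, hu1e⟩ : ∃ u1 : M'.X →ₗ[A] Z.X × (M'.X × M'.X),
    u1 = u.prod (LinearMap.inl A M'.X M'.X) := ⟨_, rfl⟩
  have hu1' : IsMor M' (Z.prod (M'.cone M' LinearMap.id (isMor_id M'))) 0 u1 := by
    rw [hu1e]
    exact hu1
  have hu1i : ∀ x, u1 x = 0 → x = 0 := by
    intro x hx
    rw [hu1e] at hx
    exact congrArg (fun t => t.2.1) hx
  have hN1 : ∀ i, ∀ x ∈ (LinearMap.ker π).map u1,
      (Z.prod (M'.cone M' LinearMap.id (isMor_id M'))).pr i x ∈ (LinearMap.ker π).map u1 := by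
    rintro i _ ⟨x, hx, rfl⟩
    refine ⟨M'.pr i x, hπ.ker_pr i x hx, ?_⟩
    have h1 := hu1'.pr i x
    rw [add_zero] at h1
    exact h1.symm
  have hN2 : ∀ x ∈ (LinearMap.ker π).map u1,
      (Z.prod (M'.cone M' LinearMap.id (isMor_id M'))).d x ∈ (LinearMap.ker π).map u1 := by
    rintro _ ⟨x, hx, rfl⟩
    exact ⟨M'.d x, hπ.ker_d x hx, (hu1'.d x).symm⟩
  have hZ2 : Acy ((Z.prod (M'.cone M' LinearMap.id (isMor_id M'))).quo
      ((LinearMap.ker π).map u1) hN1 hN2) := by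
    intro q hdq
    obtain ⟨z, rfl⟩ := Submodule.Quotient.mk_surjective _ q
    have h1 : (Z.prod (M'.cone M' LinearMap.id (isMor_id M'))).d z ∈ (LinearMap.ker π).map u1 :=
      (Submodule.Quotient.mk_eq_zero _).1 hdq
    obtain ⟨x, hx, hxz⟩ := h1
    have h2 : M'.d x = 0 := by
      apply hu1i
      rw [← hu1'.d x, hxz, DGM.d_d]
    obtain ⟨w, hw, hdw⟩ := hq.2 x hx h2
    have h3 : (Z.prod (M'.cone M' LinearMap.id (isMor_id M'))).d (z - u1 w) = 0 := by
      rw [map_sub, hu1'.d w, hdw, hxz, sub_self]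
    obtain ⟨z', hz'⟩ := hZ1 _ h3
    refine ⟨Submodule.Quotient.mk z', ?_⟩
    change (Submodule.Quotient.mk ((Z.prod (M'.cone M' LinearMap.id (isMor_id M'))).d z') :
      _ ⧸ (LinearMap.ker π).map u1) = Submodule.Quotient.mk z
    rw [Submodule.Quotient.eq, hz', sub_sub_cancel_left]
    exact Submodule.neg_mem _ ⟨w, hw, rfl⟩
  obtain ⟨ub, hub⟩ := koss_lift π hq.1 (((LinearMap.ker π).map u1).mkQ ∘ₗ u1) (fun x hx => by
    rw [LinearMap.comp_apply, Submodule.mkQ_apply, Submodule.Quotient.mk_eq_zero]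
    exact ⟨x, hx, rfl⟩)
  have hub' : ∀ x, ub (π x) = Submodule.Quotient.mk (u1 x) := hub
  have hle : (LinearMap.ker π).map u1 ≤ LinearMap.ker (v.coprod (0 : (M'.X × M'.X) →ₗ[A] W.X)) := by
    rintro _ ⟨x, hx, rfl⟩
    rw [LinearMap.mem_ker, hu1e]
    change v (u x) + 0 = 0
    have hx' : π x = 0 := hx
    rw [huv', hx', map_zero, add_zero]
  refine ⟨_, ub, ((LinearMap.ker π).map u1).liftQ _ hle, hZ2, ⟨fun i x => ?_, fun x => ?_⟩,
    IsMor.liftQ hv1 _ hN1 hN2 hle, ?_⟩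
  · obtain ⟨x, rfl⟩ := hq.1 x
    have h1 := hπ.pr i x
    have h2 := hu1'.pr i x
    rw [add_zero] at h1 h2 ⊢
    rw [h1, hub', hub', ← h2]
    rfl
  · obtain ⟨x, rfl⟩ := hq.1 x
    rw [hπ.d x, hub', hub', ← hu1'.d x]
    rfl
  · refine LinearMap.ext fun x => ?_
    obtain ⟨x, rfl⟩ := hq.1 x
    rw [LinearMap.comp_apply, hub', Submodule.liftQ_apply, hu1e]
    change h (π x) = v (u x) + 0
    rw [huv', add_zero]

/-- the property `GP` passes along trivial fibrations -/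
theorem koss_sq {m : ℤ} {f : A} {C X : DGM G} {P : C.X →ₗ[A] X.X} (hP : IsMor C X 0 P)
    (hPq : SQ C X P) {g : ℕ} (h : GP m f C g) : GP m f X g := by
  intro X' e' p hp hq Y γ hγ hgh e y hy
  have hp0 : IsMor X' (X.regr e') 0 p := hp.to_regr
  have hP0 : IsMor (C.regr e') (X.regr e') 0 P :=
    ⟨fun j x => hP.pr (j + e') x |> fun h1 => by
      rw [add_zero] at h1 ⊢
      exact h1, hP.d⟩
  have hD : IsMor (X'.prod (C.regr e')) (X.regr e') 0 (p.coprod (-P)) := hp0.coprod hP0.neg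
  have hU1 := hD.ker_pr
  have hU2 := hD.ker_d
  have hmem : ∀ x : X'.X × C.X, x ∈ LinearMap.ker (p.coprod (-P)) ↔ p x.1 = P x.2 := by
    intro x
    rw [LinearMap.mem_ker]
    change p x.1 + -(P x.2) = 0 ↔ p x.1 = P x.2
    rw [← sub_eq_add_neg, sub_eq_zero]
  set U : Submodule A (X'.X × C.X) := LinearMap.ker (p.coprod (-P)) with hU
  have hsub : IsMor ((X'.prod (C.regr e')).sub U hU1 hU2) (X'.prod (C.regr e')) 0 U.subtype :=
    isMor_subtype (X'.prod (C.regr e')) U hU1 hU2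
  have hfst : IsMor ((X'.prod (C.regr e')).sub U hU1 hU2) X' 0
      ((LinearMap.fst A X'.X C.X) ∘ₗ U.subtype) :=
    (isMor_fst X' (C.regr e')).comp0 hsub
  have hsnd : IsMor ((X'.prod (C.regr e')).sub U hU1 hU2) C e'
      ((LinearMap.snd A X'.X C.X) ∘ₗ U.subtype) :=
    ⟨fun _ _ => rfl, fun _ => rfl⟩
  have hSQ : SQ ((X'.prod (C.regr e')).sub U hU1 hU2) C
      ((LinearMap.snd A X'.X C.X) ∘ₗ U.subtype) := by
    constructor
    · intro n
      obtain ⟨x, hx⟩ := hq.1 (P n)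
      exact ⟨⟨(x, n), (hmem (x, n)).2 hx⟩, rfl⟩
    · intro x hx hdx
      have hx2 : x.1.2 = 0 := hx
      have hx1 : p x.1.1 = 0 := by
        rw [(hmem x.1).1 x.2, hx2, map_zero]
      have hd1 : X'.d x.1.1 = 0 := congrArg (fun z => Prod.fst (Subtype.val z)) hdx
      obtain ⟨w, hw, hdw⟩ := hq.2 x.1.1 hx1 hd1
      refine ⟨⟨(w, 0), (hmem (w, 0)).2 ?_⟩, rfl, ?_⟩
      · change p w = P 0
        rw [hw, map_zero]
      · apply Subtype.ext
        refine Prod.ext ?_ ?_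
        · exact hdw
        · change C.d 0 = x.1.2
          rw [hx2, map_zero]
  have hSQ' : SQ ((X'.prod (C.regr e')).sub U hU1 hU2) X'
      ((LinearMap.fst A X'.X C.X) ∘ₗ U.subtype) := by
    constructor
    · intro x
      obtain ⟨n, hn⟩ := hPq.1 (p x)
      exact ⟨⟨(x, n), (hmem (x, n)).2 hn.symm⟩, rfl⟩
    · intro x hx hdx
      have hx2 : x.1.1 = 0 := hx
      have hx1 : P x.1.2 = 0 := by
        rw [← (hmem x.1).1 x.2, hx2, map_zero]
      have hd1 : C.d x.1.2 = 0 := congrArg (fun z => Prod.snd (Subtype.val z)) hdx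
      obtain ⟨w, hw, hdw⟩ := hPq.2 x.1.2 hx1 hd1
      refine ⟨⟨(0, w), (hmem (0, w)).2 ?_⟩, rfl, ?_⟩
      · change p 0 = P w
        rw [hw, map_zero]
      · apply Subtype.ext
        refine Prod.ext ?_ ?_
        · change X'.d 0 = x.1.1
          rw [hx2, map_zero]
        · exact hdw
  have hNZ := h _ e' _ hsnd hSQ Y γ hγ hgh e _ (hy.comp0' hfst)
  exact koss_descend hfst hSQ' hNZ

/-- the third module of an exact sequence -/
theorem koss_third {m : ℤ} {f : A} (hf : G.c m f = f) {X1 X2 X3 : DGM G} {e1 : ℤ}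
    {i : X1.X →ₗ[A] X2.X} {q : X2.X →ₗ[A] X3.X} (hi : IsMor X1 X2 e1 i) (hq : IsMor X2 X3 0 q)
    (h : IsSES X1 X2 X3 i q) {g g' : ℕ} (h1 : GP m f X1 g) (h2 : GP m f X2 g') :
    GP m f X3 (g' + g) := by
  have hi' : IsMor X1 (X2.regr e1) 0 i := hi.to_regr
  have hC : GP m f (X1.cone (X2.regr e1) i hi') (g' + g) :=
    GP_ses hf (isMor_cone_inl X1 (X2.regr e1) i hi') (isMor_cone_snd X1 (X2.regr e1) i hi')
      (isSES_cone X1 (X2.regr e1) i hi') (koss_regr_GP e1 h2) (koss_sh_GP h1)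
  refine koss_of_regr_GP e1 (koss_sq (C := X1.cone (X2.regr e1) i hi') (X := X3.regr e1)
    (P := q ∘ₗ LinearMap.fst A X2.X X1.X) ?_ ?_ hC)
  · constructor
    · intro j x
      have h3 := hq.pr (j + e1) x.1
      rw [add_zero] at h3 ⊢
      exact h3
    · intro x
      have h4 : q (i x.2) = 0 := (h.2.2 _).2 ⟨x.2, rfl⟩
      change X3.d (q x.1) = q (X2.d x.1 + i x.2)
      rw [map_add, h4, add_zero, hq.d]
  · constructor
    · intro x
      obtain ⟨z, hz⟩ := h.2.1 x
      exact ⟨(z, 0), hz⟩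
    · rintro ⟨a, b⟩ hx hdx
      have hx' : q a = 0 := hx
      obtain ⟨c, hc⟩ := (h.2.2 a).1 hx'
      have hd1 : X2.d a + i b = 0 := congrArg Prod.fst hdx
      have hb : X1.d c + b = 0 := by
        apply h.1
        rw [map_add, map_zero, ← hi.d, hc, hd1]
      refine ⟨(0, c), ?_, Prod.ext ?_ ?_⟩
      · change q 0 = 0
        rw [map_zero]
      · change X2.d 0 + i c = a
        rw [map_zero, zero_add, hc]
      · change -(X1.d c) = b
        rw [neg_eq_iff_add_eq_zero, hb]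

theorem koss_mapQ {M N : DGM G} {e : ℤ} {f : M.X →ₗ[A] N.X} (hf : IsMor M N e f)
    (U : Submodule A M.X) (h1 : ∀ i, ∀ x ∈ U, M.pr i x ∈ U) (h2 : ∀ x ∈ U, M.d x ∈ U)
    (U' : Submodule A N.X) (h1' : ∀ i, ∀ x ∈ U', N.pr i x ∈ U') (h2' : ∀ x ∈ U', N.d x ∈ U')
    (h : U ≤ U'.comap f) : IsMor (M.quo U h1 h2) (N.quo U' h1' h2') e (U.mapQ U' f h) := by
  constructor
  · intro i x
    obtain ⟨x, rfl⟩ := Submodule.Quotient.mk_surjective U x
    change (Submodule.Quotient.mk (N.pr (i + e) (f x)) : N.X ⧸ U') =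
      Submodule.Quotient.mk (f (M.pr i x))
    rw [hf.pr]
  · intro x
    obtain ⟨x, rfl⟩ := Submodule.Quotient.mk_surjective U x
    change (Submodule.Quotient.mk (N.d (f x)) : N.X ⧸ U') = Submodule.Quotient.mk (f (M.d x))
    rw [hf.d]

theorem koss_symm {M N : DGM G} (e : M.X ≃ₗ[A] N.X) (he : IsMor M N 0 e.toLinearMap) :
    IsMor N M 0 e.symm.toLinearMap := by
  constructor
  · intro j x
    apply e.injective
    have h1 := he.pr j (e.symm x)
    rw [add_zero] at h1 ⊢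
    change N.pr j (e (e.symm x)) = e (M.pr j (e.symm x)) at h1
    rw [e.apply_symm_apply] at h1
    change e (M.pr j (e.symm x)) = e (e.symm (N.pr j x))
    rw [e.apply_symm_apply, h1]
  · intro x
    apply e.injective
    have h1 := he.d (e.symm x)
    change N.d (e (e.symm x)) = e (M.d (e.symm x)) at h1
    rw [e.apply_symm_apply] at h1
    change e (M.d (e.symm x)) = e (e.symm (N.d x))
    rw [e.apply_symm_apply, h1]

end koss

variable {k : Type u} [Field k] {n : ℕ}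

attribute [local instance] kMod kTower

/-- induction on `s ⊗ v` with `s` homogeneous -/
theorem koss_ind (N : DGM (grS k n)) {P : (FT N).X → Prop} (h0 : P 0)
    (hadd : ∀ x y, P x → P y → P (x + y))
    (hh : ∀ (j : ℤ) (s : Sn k n) (v : N.X), (grS k n).c j s = s → P (s ⊗ₜ[k] v)) (x : (FT N).X) :
    P x := by
  induction x using TensorProduct.induction_on with
  | zero => exact h0
  | tmul s v =>
    refine (grS k n).ind (P := fun s => P (s ⊗ₜ[k] v)) ?_ ?_ ?_ s
    · rw [TensorProduct.zero_tmul]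
      exact h0
    · intro a b ha hb
      rw [TensorProduct.add_tmul]
      exact hadd _ _ ha hb
    · intro j s hs
      exact hh j s v hs
  | add x y hx hy => exact hadd _ _ hx hy

theorem koss_pr (N : DGM (grS k n)) (i : ℤ) {j : ℤ} {s : Sn k n} (hs : (grS k n).c j s = s)
    (v : N.X) : (FT N).pr i (s ⊗ₜ[k] v) = s ⊗ₜ[k] N.pr (i - j) v := prT_tmul_hom N i hs v

/-- `x_i ⊗ 1 - 1 ⊗ x_i` is homogeneous of degree `2` and commutes with `d`. -/
theorem isMor_DD (N : DGM (grS k n)) (i : Fin n) : IsMor (FT N) (FT N) 2 (DD (k := k) N.X i) := by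
  constructor
  · intro l x
    refine koss_ind N (P := fun x => (FT N).pr (l + 2) (DD (k := k) N.X i x) =
      DD (k := k) N.X i ((FT N).pr l x)) ?_ ?_ ?_ x
    · rw [map_zero, map_zero, map_zero, map_zero]
    · intro x y hx hy
      rw [map_add, map_add, map_add, map_add, hx, hy]
    · intro j s v hs
      have h2 : (grS k n).c (2 + j) (MvPolynomial.X i * s) = MvPolynomial.X i * s :=
        (grS k n).mul (grS_X i) hs
      rw [koss_pr N l hs v, DD_tmul, DD_tmul, map_sub, koss_pr N (l + 2) h2 v,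
        koss_pr N (l + 2) hs _, N.pr_smul' (grS_X i)]
      have h3 : l + 2 - (2 + j) = l - j := by ring
      have h4 : l + 2 - j - 2 = l - j := by ring
      rw [h3, h4]
  · intro x
    refine koss_ind N (P := fun x => (FT N).d (DD (k := k) N.X i x) =
      DD (k := k) N.X i ((FT N).d x)) ?_ ?_ ?_ x
    · rw [map_zero, map_zero, map_zero]
    · intro x y hx hy
      rw [map_add, map_add, map_add, map_add, hx, hy]
    · intro j s v _
      rw [FT_d_tmul, DD_tmul, DD_tmul, map_sub, FT_d_tmul, FT_d_tmul, map_smul]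

theorem UD_pr (N : DGM (grS k n)) (j : ℕ) : ∀ i, ∀ x ∈ UD (k := k) N.X j, (FT N).pr i x ∈ UD (k := k) N.X j := by
  intro l x hx
  unfold UD at hx ⊢
  refine Submodule.iSup_induction (p := fun i : {i : Fin n // (i : ℕ) < j} =>
    LinearMap.range (DD (k := k) N.X i.1)) (motive := fun x => (FT N).pr l x ∈
      ⨆ i : {i : Fin n // (i : ℕ) < j}, LinearMap.range (DD (k := k) N.X i.1)) hx ?_ ?_ ?_
  · intro i x hx
    exact Submodule.mem_iSup_of_mem i ((isMor_DD N i.1).range_pr l x hx)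
  · rw [map_zero]
    exact Submodule.zero_mem _
  · intro x y hx hy
    rw [map_add]
    exact Submodule.add_mem _ hx hy

theorem UD_d (N : DGM (grS k n)) (j : ℕ) : ∀ x ∈ UD (k := k) N.X j, (FT N).d x ∈ UD (k := k) N.X j := by
  intro x hx
  unfold UD at hx ⊢
  refine Submodule.iSup_induction (p := fun i : {i : Fin n // (i : ℕ) < j} =>
    LinearMap.range (DD (k := k) N.X i.1)) (motive := fun x => (FT N).d x ∈
      ⨆ i : {i : Fin n // (i : ℕ) < j}, LinearMap.range (DD (k := k) N.X i.1)) hx ?_ ?_ ?_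
  · intro i x hx
    exact Submodule.mem_iSup_of_mem i ((isMor_DD N i.1).range_d x hx)
  · rw [map_zero]
    exact Submodule.zero_mem _
  · intro x y hx hy
    rw [map_add]
    exact Submodule.add_mem _ hx hy

/-- `(S ⊗_k N)/(x_i ⊗ 1 - 1 ⊗ x_i : i < j)` -/
@[reducible] noncomputable def FQ (N : DGM (grS k n)) (j : ℕ) : DGM (grS k n) :=
  (FT N).quo (UD (k := k) N.X j) (UD_pr N j) (UD_d N j)

/-- The exact sequence `0 → FQ j → FQ j → FQ (j+1) → 0`; the first map is induced by `DD j` (`Submodule.mapQ`), injective by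
`DD_regular`, the second is the projection (`Submodule.mapQ` of the identity, or `Submodule.factor`); `UD_succ`. -/
theorem FQ_ses (N : DGM (grS k n)) (j : ℕ) (hj : j < n) : ∃ (i : (FQ N j).X →ₗ[Sn k n] (FQ N j).X)
    (q : (FQ N j).X →ₗ[Sn k n] (FQ N (j + 1)).X), IsMor (FQ N j) (FQ N j) 2 i ∧
      IsMor (FQ N j) (FQ N (j + 1)) 0 q ∧ IsSES (FQ N j) (FQ N j) (FQ N (j + 1)) i q := by
  have hle1 : UD (k := k) N.X j ≤ (UD (k := k) N.X j).comap (DD (k := k) N.X ⟨j, hj⟩) :=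
    fun z hz => DD_mem_UD N.X ⟨j, hj⟩ j z hz
  have hsucc := UD_succ (k := k) N.X j hj
  have hle2 : UD (k := k) N.X j ≤ (UD (k := k) N.X (j + 1)).comap
      (LinearMap.id : (FT N).X →ₗ[Sn k n] (FT N).X) := by
    intro z hz
    rw [Submodule.mem_comap, hsucc]
    exact Submodule.mem_sup_left hz
  refine ⟨(UD (k := k) N.X j).mapQ (UD (k := k) N.X j) (DD (k := k) N.X ⟨j, hj⟩) hle1,
    (UD (k := k) N.X j).mapQ (UD (k := k) N.X (j + 1)) LinearMap.id hle2,
    koss_mapQ (isMor_DD N ⟨j, hj⟩) _ _ _ _ _ _ hle1,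
    koss_mapQ (isMor_id (FT N)) _ _ _ _ _ _ hle2, ?_, ?_, ?_⟩
  · rw [injective_iff_map_eq_zero]
    intro x hx
    obtain ⟨x, rfl⟩ := Submodule.Quotient.mk_surjective _ x
    rw [Submodule.mapQ_apply, Submodule.Quotient.mk_eq_zero] at hx
    rw [Submodule.Quotient.mk_eq_zero]
    exact DD_regular N.X ⟨j, hj⟩ x hx
  · intro x
    obtain ⟨x, rfl⟩ := Submodule.Quotient.mk_surjective _ x
    exact ⟨Submodule.Quotient.mk x, rfl⟩
  · intro x
    obtain ⟨x, rfl⟩ := Submodule.Quotient.mk_surjective _ x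
    rw [Submodule.mapQ_apply, Submodule.Quotient.mk_eq_zero, hsucc, LinearMap.id_apply]
    constructor
    · intro h
      obtain ⟨a, ha, b, ⟨c, rfl⟩, hab⟩ := Submodule.mem_sup.1 h
      refine ⟨Submodule.Quotient.mk c, ?_⟩
      rw [Submodule.mapQ_apply, Submodule.Quotient.eq, ← hab, sub_add_cancel_right]
      exact Submodule.neg_mem _ ha
    · rintro ⟨y, hy⟩
      obtain ⟨y, rfl⟩ := Submodule.Quotient.mk_surjective _ y
      rw [Submodule.mapQ_apply, Submodule.Quotient.eq] at hy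
      refine Submodule.mem_sup.2 ⟨-(DD (k := k) N.X ⟨j, hj⟩ y - x), Submodule.neg_mem _ hy,
        DD (k := k) N.X ⟨j, hj⟩ y, ⟨y, rfl⟩, ?_⟩
      abel

/-- `FQ 0 = S ⊗_k N` -/
theorem FQ_zero (N : DGM (grS k n)) : ∃ e : (FQ N 0).X ≃ₗ[Sn k n] (FT N).X,
    IsMor (FQ N 0) (FT N) 0 e.toLinearMap := by
  refine ⟨Submodule.quotEquivOfEqBot (UD (k := k) N.X 0) (UD_zero (k := k) (n := n) N.X), ?_, ?_⟩
  · intro i x
    obtain ⟨x, rfl⟩ := Submodule.Quotient.mk_surjective _ x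
    rw [add_zero]
    rfl
  · intro x
    obtain ⟨x, rfl⟩ := Submodule.Quotient.mk_surjective _ x
    rfl

/-- `FQ n = N`, by `mulT` (`ker_mulT`; `mulT` is a morphism of degree `0` and surjective) -/
theorem FQ_last (N : DGM (grS k n)) : ∃ e : N.X ≃ₗ[Sn k n] (FQ N n).X,
    IsMor N (FQ N n) 0 e.toLinearMap := by
  have hm : IsMor (FT N) N 0 (mulT (k := k) N.X) := by
    constructor
    · intro l x
      refine koss_ind N (P := fun x => N.pr (l + 0) (mulT (k := k) N.X x) =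
        mulT (k := k) N.X ((FT N).pr l x)) ?_ ?_ ?_ x
      · rw [map_zero, map_zero, map_zero, map_zero]
      · intro x y hx hy
        rw [map_add, map_add, map_add, map_add, hx, hy]
      · intro j s v hs
        rw [koss_pr N l hs v, mulT_tmul, mulT_tmul, add_zero, N.pr_smul' hs]
    · intro x
      refine koss_ind N (P := fun x => N.d (mulT (k := k) N.X x) =
        mulT (k := k) N.X ((FT N).d x)) ?_ ?_ ?_ x
      · rw [map_zero, map_zero, map_zero, map_zero]
      · intro x y hx hy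
        rw [map_add, map_add, map_add, map_add, hx, hy]
      · intro j s v _
        rw [FT_d_tmul, mulT_tmul, mulT_tmul, map_smul]
  have hsurj : Function.Surjective (mulT (k := k) (n := n) N.X) := by
    intro v
    refine ⟨1 ⊗ₜ[k] v, ?_⟩
    rw [mulT_tmul, one_smul]
  have he : IsMor (FQ N n) N 0 ((Submodule.quotEquivOfEq _ _ (ker_mulT (k := k) (n := n) N.X).symm).trans
      ((mulT (k := k) (n := n) N.X).quotKerEquivOfSurjective hsurj)).toLinearMap := by
    constructor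
    · intro i x
      obtain ⟨x, rfl⟩ := Submodule.Quotient.mk_surjective _ x
      exact hm.pr i x
    · intro x
      obtain ⟨x, rfl⟩ := Submodule.Quotient.mk_surjective _ x
      exact hm.d x
  exact ⟨_, koss_symm _ he⟩

variable {R : Type u} [CommRing R] [Algebra R (Sn k n)] {GR : Gr R}

/-- PROOF. By induction on `j ≤ n`: `GP m f (restr hc (FQ N j)) (2 ^ j)` (`GP_ses`, `GP_iso`; restriction of scalars preserves
morphisms, exact sequences and isomorphisms: `restrMap`). -/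
theorem GP_kos (hc : Compat GR (grS k n)) {m : ℤ} {f : R} (hf : GR.c m f = f) (N : DGM (grS k n))
    (hF : GP m f (restr hc (FT N)) 1) : GP m f (restr hc N) (2 ^ n) := by
  have key : ∀ j, j ≤ n → GP m f (restr hc (FQ N j)) (2 ^ j) := by
    intro j
    induction j with
    | zero =>
      intro _
      obtain ⟨e, he⟩ := FQ_zero N
      exact GP_iso (restrEquiv hc e) (IsMor.restr hc he) hF
    | succ j ih =>
      intro hj
      obtain ⟨i, q, hi, hq, hs⟩ := FQ_ses N j (by omega)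
      have h1 := ih (by omega)
      have h2 := koss_third hf (IsMor.restr hc hi) (IsMor.restr hc hq) (IsSES.restr hc hs) h1 h1
      have h3 : 2 ^ j + 2 ^ j = 2 ^ (j + 1) := by ring
      rwa [h3] at h2
  obtain ⟨e, he⟩ := FQ_last N
  exact GP_iso (restrEquiv hc e) (IsMor.restr hc he) (key n le_rfl)

end MP8a
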