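import Pool.Agent.Lib_MP_8a48ad_gt.TensG

/-! # Piece CIHB: a homogeneous basis of the cohomology of a complex of vector spaces -/

set_option autoImplicit false

namespace MP8a

universe u

variable {k : Type u} [Field k] {n : ℕ}

attribute [local instance] kMod kTower

/-- the cycles of degree `i` -/
noncomputable def cihbZ (N : DGM (grS k n)) (i : ℤ) : Submodule k N.X where
  carrier := {v | prK N i v = v ∧ dK N v = 0}
  add_mem' := by
    rintro a b ⟨ha, ha'⟩ ⟨hb, hb'⟩
    exact ⟨by rw [map_add, ha, hb], by rw [map_add, ha', hb', add_zero]⟩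
  zero_mem' := ⟨map_zero _, map_zero _⟩
  smul_mem' := by
    rintro c a ⟨ha, ha'⟩
    exact ⟨by rw [map_smul, ha], by rw [map_smul, ha', smul_zero]⟩

/-- the boundaries among them -/
noncomputable def cihbB (N : DGM (grS k n)) (i : ℤ) : Submodule k (cihbZ N i) :=
  (LinearMap.range (dK N)).comap (cihbZ N i).subtype

/-- the index set in degree `i` -/
abbrev cihbI (N : DGM (grS k n)) (i : ℤ) : Type u :=
  Module.Basis.ofVectorSpaceIndex k (cihbZ N i ⧸ cihbB N i)

/-- the basis of the cohomology in degree `i` -/
noncomputable def cihbBas (N : DGM (grS k n)) (i : ℤ) :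
    Module.Basis (cihbI N i) k (cihbZ N i ⧸ cihbB N i) :=
  Module.Basis.ofVectorSpace k _

/-- representatives -/
noncomputable def cihbH (N : DGM (grS k n)) (i : ℤ) (a : cihbI N i) : cihbZ N i :=
  Function.surjInv (cihbB N i).mkQ_surjective (cihbBas N i a)

theorem cihbH_mk (N : DGM (grS k n)) (i : ℤ) (a : cihbI N i) :
    (cihbB N i).mkQ (cihbH N i a) = cihbBas N i a :=
  Function.surjInv_eq _ _

/-- all representatives -/
noncomputable def cihbAll (N : DGM (grS k n)) : (Σ i : ℤ, cihbI N i) → N.X :=
  fun x => (cihbH N x.1 x.2 : N.X)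

theorem cihb_span (N : DGM (grS k n)) (i : ℤ) (z : cihbZ N i) :
    (z : N.X) ∈ Submodule.span k (Set.range (cihbAll N)) ⊔ LinearMap.range (dK N) := by
  have h1 := (cihbBas N i).linearCombination_repr ((cihbB N i).mkQ z)
  obtain ⟨c, hc⟩ : ∃ c : cihbI N i →₀ k, c = (cihbBas N i).repr ((cihbB N i).mkQ z) := ⟨_, rfl⟩
  rw [← hc] at h1
  have h2 : (cihbB N i).mkQ (Finsupp.linearCombination k (cihbH N i) c) = (cihbB N i).mkQ z := by
    rw [← h1, Finsupp.linearCombination_apply, Finsupp.linearCombination_apply, Finsupp.sum,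
      Finsupp.sum, map_sum]
    refine Finset.sum_congr rfl fun a _ => ?_
    rw [map_smul, cihbH_mk]
  have h3 : z - Finsupp.linearCombination k (cihbH N i) c ∈ cihbB N i := by
    rw [← Submodule.ker_mkQ (cihbB N i), LinearMap.mem_ker, map_sub, h2, sub_self]
  have h4 : ((z - Finsupp.linearCombination k (cihbH N i) c : cihbZ N i) : N.X) ∈
      LinearMap.range (dK N) := h3
  have h5 : ((Finsupp.linearCombination k (cihbH N i) c : cihbZ N i) : N.X) ∈
      Submodule.span k (Set.range (cihbAll N)) := by
    rw [Finsupp.linearCombination_apply, Finsupp.sum, AddSubmonoidClass.coe_finsetSum]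
    refine Submodule.sum_mem _ fun a _ => ?_
    exact Submodule.smul_mem _ _ (Submodule.subset_span ⟨⟨i, a⟩, rfl⟩)
  have h6 : (z : N.X) = ((Finsupp.linearCombination k (cihbH N i) c : cihbZ N i) : N.X) +
      ((z - Finsupp.linearCombination k (cihbH N i) c : cihbZ N i) : N.X) := by
    rw [← Submodule.coe_add, add_sub_cancel]
  rw [h6]
  exact Submodule.add_mem_sup h5 h4

theorem cihb_comp (N : DGM (grS k n)) (j : ℤ) (c : (Σ i : ℤ, cihbI N i) →₀ k) :
    prK N j (Finsupp.linearCombination k (cihbAll N) c) =
      ((Finsupp.linearCombination k (cihbH N j)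
        (Finsupp.lcomapDomain (R := k) (M := k) (Sigma.mk j) sigma_mk_injective c) : cihbZ N j) : N.X) := by
  have key : (prK N j) ∘ₗ (Finsupp.linearCombination k (cihbAll N)) =
      (cihbZ N j).subtype ∘ₗ (Finsupp.linearCombination k (cihbH N j)) ∘ₗ
        (Finsupp.lcomapDomain (R := k) (M := k) (Sigma.mk j) sigma_mk_injective) := by
    refine Finsupp.lhom_ext' fun x => LinearMap.ext_ring ?_
    obtain ⟨i, a⟩ := x
    show prK N j (Finsupp.linearCombination k (cihbAll N) (Finsupp.single ⟨i, a⟩ 1)) =
      ((Finsupp.linearCombination k (cihbH N j)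
        (Finsupp.lcomapDomain (R := k) (M := k) (Sigma.mk j) sigma_mk_injective
          (Finsupp.single ⟨i, a⟩ 1)) : cihbZ N j) : N.X)
    rw [Finsupp.linearCombination_single, one_smul]
    by_cases hij : i = j
    · subst hij
      have h1 : Finsupp.lcomapDomain (R := k) (M := k) (Sigma.mk i) sigma_mk_injective
          (Finsupp.single (⟨i, a⟩ : Σ i : ℤ, cihbI N i) (1 : k)) = Finsupp.single a 1 := by
        classical
        ext b
        show (Finsupp.single (⟨i, a⟩ : Σ i : ℤ, cihbI N i) (1 : k)) ⟨i, b⟩ = Finsupp.single a 1 b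
        by_cases hab : a = b
        · subst hab
          rw [Finsupp.single_eq_same, Finsupp.single_eq_same]
        · rw [Finsupp.single_apply, Finsupp.single_apply, if_neg hab, if_neg]
          intro h
          exact hab (sigma_mk_injective h)
      rw [h1, Finsupp.linearCombination_single, one_smul]
      exact (cihbH N i a).2.1
    · have h1 : Finsupp.lcomapDomain (R := k) (M := k) (Sigma.mk j) sigma_mk_injective
          (Finsupp.single (⟨i, a⟩ : Σ i : ℤ, cihbI N i) (1 : k)) = 0 := by
        classical
        ext b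
        show (Finsupp.single (⟨i, a⟩ : Σ i : ℤ, cihbI N i) (1 : k)) ⟨j, b⟩ = 0
        rw [Finsupp.single_apply, if_neg]
        intro h
        exact hij (congrArg Sigma.fst h)
      rw [h1, map_zero]
      exact N.pr_ne (cihbH N i a).2.1 (Ne.symm hij)
  exact LinearMap.congr_fun key c

/-- A homogeneous basis of the cohomology of `N` over `k`.

PROOF. For every `i` let `Z_i` be the space of the cycles of degree `i` and `B_i` the space of boundaries of degree `i`, choose vectors of `Z_i`
whose classes are a basis of `Z_i / B_i` (`Module.Basis.ofVectorSpace` of the quotient and `Function.surjInv` of the projection); `I` is the disjoint union of the index sets. A cycle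
`v` is the sum of its components `N.pr i v`, which are cycles. Independence: take components of the relation `∑ c_i h_i = d w` (`N.pr_d`: the component of degree `j` of
`d w` is `d` of a component of `w`). -/
theorem exists_coh_basis (N : DGM (grS k n)) : ∃ (I : Type u) (h : I → N.X) (δ : I → ℤ),
    (∀ i, N.pr (δ i) (h i) = h i) ∧ (∀ i, N.d (h i) = 0) ∧
    (∀ v, N.d v = 0 → ∃ (c : I →₀ k) (w : N.X), v = c.sum (fun i a => a • h i) + N.d w) ∧
    ∀ (c : I →₀ k) (w : N.X), c.sum (fun i a => a • h i) = N.d w → c = 0 := by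
  refine ⟨Σ i : ℤ, cihbI N i, cihbAll N, fun x => x.1, fun x => (cihbH N x.1 x.2).2.1,
    fun x => (cihbH N x.1 x.2).2.2, ?_, ?_⟩
  · intro v hv
    have h1 : v ∈ Submodule.span k (Set.range (cihbAll N)) ⊔ LinearMap.range (dK N) := by
      obtain ⟨s, hs⟩ := N.fin v
      rw [← hs]
      refine Submodule.sum_mem _ fun i _ => ?_
      have h2 : N.pr i v ∈ cihbZ N i := by
        refine ⟨N.pr_self i v, ?_⟩
        show N.d (N.pr i v) = 0
        rw [← N.pr_d, hv, map_zero]
      exact cihb_span N i ⟨_, h2⟩
    obtain ⟨y, hy, z, ⟨w, hw⟩, hyz⟩ := Submodule.mem_sup.1 h1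
    obtain ⟨c, hc⟩ := (Finsupp.mem_span_range_iff_exists_finsupp).1 hy
    refine ⟨c, w, ?_⟩
    rw [hc, ← hyz, ← hw]
    rfl
  · intro c w hc
    have h1 : Finsupp.linearCombination k (cihbAll N) c = N.d w := hc
    ext ⟨j, a⟩
    have h2 := cihb_comp N j c
    obtain ⟨e, he⟩ : ∃ e : cihbI N j →₀ k, e =
      Finsupp.lcomapDomain (R := k) (M := k) (Sigma.mk j) sigma_mk_injective c := ⟨_, rfl⟩
    rw [← he, h1] at h2
    have h3 : prK N j (N.d w) = dK N (N.pr (j - 1) w) := by
      have h4 := N.pr_d (j - 1) w
      rw [sub_add_cancel] at h4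
      exact h4
    have h5 : Finsupp.linearCombination k (cihbH N j) e ∈ cihbB N j := by
      show ((Finsupp.linearCombination k (cihbH N j) e : cihbZ N j) : N.X) ∈ LinearMap.range (dK N)
      rw [← h2, h3]
      exact ⟨_, rfl⟩
    have h6 : Finsupp.linearCombination k (cihbBas N j) e = 0 := by
      have h7 : (cihbB N j).mkQ (Finsupp.linearCombination k (cihbH N j) e) = 0 := by
        rw [← LinearMap.mem_ker, Submodule.ker_mkQ]
        exact h5
      rw [Finsupp.linearCombination_apply, Finsupp.sum, map_sum] at h7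
      rw [Finsupp.linearCombination_apply, Finsupp.sum, ← h7]
      refine Finset.sum_congr rfl fun b _ => ?_
      rw [map_smul, cihbH_mk]
    have h8 : e = 0 := by
      have h9 := (cihbBas N j).linearIndependent
      exact (linearIndependent_iff.1 h9) e h6
    have h10 : e a = c ⟨j, a⟩ := by
      rw [he]
      rfl
    rw [← h10, h8]
    rfl

end MP8a
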