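import Pool.Agent.Lib_MP_8a48ad_gt.GrS

/-! # Piece TENS: the DG `S`-module `S ⊗_k N` -/

set_option autoImplicit false

namespace MP8a

open TensorProduct

universe u

variable {k : Type u} [Field k] {n : ℕ}

attribute [local instance] kMod

theorem kTower (N : DGM (grS k n)) : IsScalarTower k (Sn k n) N.X :=
  ⟨fun c s x => by
    change (c • s) • x = (algebraMap k (Sn k n) c) • (s • x)
    rw [Algebra.smul_def, mul_smul]⟩

attribute [local instance] kTower

/-- the projections as `k`-linear maps -/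
noncomputable def prK (N : DGM (grS k n)) (i : ℤ) : N.X →ₗ[k] N.X where
  toFun := N.pr i
  map_add' := (N.pr i).map_add
  map_smul' := by
    intro c x
    have h := N.pr_smul' (grS_C (n := n) c) i x
    rw [sub_zero] at h
    exact h

/-- the differential as a `k`-linear map -/
noncomputable def dK (N : DGM (grS k n)) : N.X →ₗ[k] N.X := N.d.restrictScalars k

/-- the projections of `S ⊗_k N`: `x^μ ⊗ v ↦ x^μ ⊗ pr (i - 2 |μ|) v` -/
noncomputable def prT (N : DGM (grS k n)) (i : ℤ) : (Sn k n ⊗[k] N.X) →ₗ[k] (Sn k n ⊗[k] N.X) :=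
  TensorProduct.lift ((MvPolynomial.basisMonomials (Fin n) k).constr k
    (fun μ => (TensorProduct.mk k (Sn k n) N.X (MvPolynomial.monomial μ 1)).comp
      (prK N (i - 2 * (μ.degree : ℤ)))))

theorem prT_tmul (N : DGM (grS k n)) (i : ℤ) (μ : Fin n →₀ ℕ) (c : k) (v : N.X) :
    prT N i (MvPolynomial.monomial μ c ⊗ₜ v) =
      MvPolynomial.monomial μ c ⊗ₜ N.pr (i - 2 * (μ.degree : ℤ)) v := by
  have h1 : (MvPolynomial.monomial μ c : Sn k n) = c • (MvPolynomial.basisMonomials (Fin n) k) μ := by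
    rw [MvPolynomial.coe_basisMonomials, MvPolynomial.smul_monomial, smul_eq_mul, mul_one]
  have h2 : (MvPolynomial.basisMonomials (Fin n) k) μ = (MvPolynomial.monomial μ 1 : Sn k n) := by
    rw [MvPolynomial.coe_basisMonomials]
  unfold prT
  rw [TensorProduct.lift.tmul, h1, map_smul, Module.Basis.constr_basis, h2, LinearMap.smul_apply,
    LinearMap.comp_apply, TensorProduct.mk_apply, ← TensorProduct.smul_tmul']
  rfl

/-- induction over monomials -/
private theorem tens_ind (N : DGM (grS k n)) {P : (Sn k n ⊗[k] N.X) → Prop} (h0 : P 0)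
    (hadd : ∀ x y, P x → P y → P (x + y))
    (hm : ∀ (μ : Fin n →₀ ℕ) (c : k) (v : N.X), P (MvPolynomial.monomial μ c ⊗ₜ v))
    (x : Sn k n ⊗[k] N.X) : P x := by
  refine TensorProduct.induction_on x h0 (fun s v => ?_) hadd
  rw [← MvPolynomial.support_sum_monomial_coeff s, TensorProduct.sum_tmul]
  exact Finset.sum_induction _ P hadd h0 fun μ _ => hm μ _ v

/-- more generally for a homogeneous polynomial of degree `j` -/
theorem prT_tmul_hom (N : DGM (grS k n)) (i : ℤ) {j : ℤ} {s : Sn k n} (hs : (grS k n).c j s = s) (v : N.X) :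
    prT N i (s ⊗ₜ v) = s ⊗ₜ N.pr (i - j) v := by
  by_cases h : Even j ∧ 0 ≤ j
  · obtain ⟨⟨m, hm⟩, hj⟩ := h
    obtain ⟨l, rfl⟩ : ∃ l : ℕ, j = 2 * (l : ℤ) := ⟨m.toNat, by omega⟩
    rw [grS_even] at hs
    have hdeg : ∀ μ ∈ s.support, μ.degree = l := by
      intro μ hμ
      by_contra hne
      have h1 : MvPolynomial.coeff μ s = 0 := by
        rw [← hs, MvPolynomial.coeff_homogeneousComponent, if_neg hne]
      exact (MvPolynomial.mem_support_iff.1 hμ) h1
    have h3 : ∀ t : Finset (Fin n →₀ ℕ), (∀ μ ∈ t, μ.degree = l) →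
        prT N i ((∑ μ ∈ t, MvPolynomial.monomial μ (MvPolynomial.coeff μ s)) ⊗ₜ v) =
          (∑ μ ∈ t, MvPolynomial.monomial μ (MvPolynomial.coeff μ s)) ⊗ₜ N.pr (i - 2 * (l : ℤ)) v := by
      intro t ht
      rw [TensorProduct.sum_tmul, TensorProduct.sum_tmul, map_sum]
      refine Finset.sum_congr rfl fun μ hμ => ?_
      rw [prT_tmul, ht μ hμ]
    have h4 := h3 s.support hdeg
    rw [MvPolynomial.support_sum_monomial_coeff] at h4
    exact h4
  · rw [grS_odd_neg h] at hs
    rw [← hs, TensorProduct.zero_tmul, TensorProduct.zero_tmul, map_zero]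

private theorem tens_pr_pr (N : DGM (grS k n)) (i j : ℤ) (x : Sn k n ⊗[k] N.X) :
    prT N i (prT N j x) = if i = j then prT N j x else 0 := by
  refine tens_ind N (P := fun x => prT N i (prT N j x) = if i = j then prT N j x else 0) ?_ ?_ ?_ x
  · rw [map_zero, map_zero]
    split_ifs <;> rfl
  · intro x y hx hy
    rw [map_add, map_add, hx, hy]
    split_ifs
    · rfl
    · rw [add_zero]
  · intro μ c v
    rw [prT_tmul, prT_tmul, N.pr_pr]
    by_cases h : i = j
    · rw [if_pos (by rw [h]), if_pos h]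
    · rw [if_neg (fun h' => h (sub_left_injective h')), if_neg h, TensorProduct.tmul_zero]

private theorem tens_fin (N : DGM (grS k n)) (x : Sn k n ⊗[k] N.X) :
    ∃ s : Finset ℤ, ∀ t : Finset ℤ, s ⊆ t → ∑ i ∈ t, prT N i x = x := by
  refine tens_ind N (P := fun x => ∃ s : Finset ℤ, ∀ t : Finset ℤ, s ⊆ t → ∑ i ∈ t, prT N i x = x)
    ?_ ?_ ?_ x
  · refine ⟨∅, fun t _ => ?_⟩
    refine Finset.sum_eq_zero fun i _ => ?_
    rw [map_zero]
  · rintro x y ⟨s, hs⟩ ⟨t, ht⟩
    refine ⟨s ∪ t, fun u hu => ?_⟩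
    have h1 : ∑ i ∈ u, prT N i (x + y) = ∑ i ∈ u, prT N i x + ∑ i ∈ u, prT N i y := by
      rw [← Finset.sum_add_distrib]
      exact Finset.sum_congr rfl fun i _ => map_add _ _ _
    rw [h1, hs u (Finset.union_subset_left hu), ht u (Finset.union_subset_right hu)]
  · intro μ c v
    obtain ⟨s, _, hs⟩ := N.exists_support v
    refine ⟨s.map (addRightEmbedding (2 * (μ.degree : ℤ))), fun t ht => ?_⟩
    have h1 : ∑ i ∈ t, prT N i (MvPolynomial.monomial μ c ⊗ₜ v) =
        ∑ i ∈ t, (MvPolynomial.monomial μ c : Sn k n) ⊗ₜ N.pr (i - 2 * (μ.degree : ℤ)) v :=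
      Finset.sum_congr rfl fun i _ => prT_tmul N i μ c v
    rw [h1, ← TensorProduct.tmul_sum]
    have h2 := hs (t.map (addRightEmbedding (-(2 * (μ.degree : ℤ))))) (by
      intro i hi
      rw [Finset.mem_map]
      refine ⟨i + 2 * (μ.degree : ℤ), ht (Finset.mem_map.2 ⟨i, hi, rfl⟩), ?_⟩
      rw [addRightEmbedding_apply]
      ring)
    rw [Finset.sum_map] at h2
    have h3 : ∑ i ∈ t, N.pr (i - 2 * (μ.degree : ℤ)) v = v := by
      conv_rhs => rw [← h2]
      refine Finset.sum_congr rfl fun i _ => ?_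
      rw [addRightEmbedding_apply, sub_eq_add_neg]
    rw [h3]

private theorem tens_smul (N : DGM (grS k n)) {i j : ℤ} {a : Sn k n} (ha : (grS k n).c i a = a)
    (x : Sn k n ⊗[k] N.X) : prT N (i + j) (a • x) = a • prT N j x := by
  refine tens_ind N (P := fun x => prT N (i + j) (a • x) = a • prT N j x) ?_ ?_ ?_ x
  · rw [smul_zero, map_zero, map_zero, smul_zero]
  · intro x y hx hy
    rw [smul_add, map_add, map_add, smul_add, hx, hy]
  · intro μ c v
    have h1 := (grS k n).mul ha (grS_monomial μ c)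
    rw [TensorProduct.smul_tmul', smul_eq_mul, prT_tmul_hom N (i + j) h1, prT_tmul,
      TensorProduct.smul_tmul', smul_eq_mul]
    have h2 : i + j - (i + 2 * (μ.degree : ℤ)) = j - 2 * (μ.degree : ℤ) := by ring
    rw [h2]

private theorem tens_d_pr (N : DGM (grS k n)) (i : ℤ) (x : Sn k n ⊗[k] N.X) :
    prT N (i + 1) ((dK N).baseChange (Sn k n) x) = (dK N).baseChange (Sn k n) (prT N i x) := by
  refine tens_ind N (P := fun x => prT N (i + 1) ((dK N).baseChange (Sn k n) x) =
    (dK N).baseChange (Sn k n) (prT N i x)) ?_ ?_ ?_ x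
  · rw [map_zero, map_zero, map_zero, map_zero]
  · intro x y hx hy
    rw [map_add, map_add, map_add, map_add, hx, hy]
  · intro μ c v
    rw [LinearMap.baseChange_tmul, prT_tmul, prT_tmul, LinearMap.baseChange_tmul]
    have h1 := N.pr_d (i - 2 * (μ.degree : ℤ)) v
    have h2 : i - 2 * (μ.degree : ℤ) + 1 = i + 1 - 2 * (μ.degree : ℤ) := by ring
    rw [h2] at h1
    exact congrArg (fun w => (MvPolynomial.monomial μ c : Sn k n) ⊗ₜ[k] w) h1

/-- `S ⊗_k N` with the total grading and the differential `id ⊗ d`. All fields: check on `x^μ ⊗ v`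
(`TensorProduct.induction_on`, `MvPolynomial.induction_on'` or the basis of monomials). -/
@[reducible] noncomputable def FT (N : DGM (grS k n)) : DGM (grS k n) where
  X := Sn k n ⊗[k] N.X
  pr i := (prT N i).toAddMonoidHom
  pr_pr := tens_pr_pr N
  fin := fun x => by
    obtain ⟨s, hs⟩ := tens_fin N x
    exact ⟨s, hs s (Finset.Subset.refl s)⟩
  smul := by
    intro i j a x ha hx
    change prT N (i + j) (a • x) = a • x
    rw [tens_smul N ha]
    exact congrArg (fun y => a • y) hx
  d := (dK N).baseChange (Sn k n)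
  d_hom := by
    intro i x hx
    change prT N (i + 1) ((dK N).baseChange (Sn k n) x) = _
    rw [tens_d_pr]
    exact congrArg (fun y => (dK N).baseChange (Sn k n) y) hx
  d_d := by
    intro x
    refine tens_ind N (P := fun x => (dK N).baseChange (Sn k n) ((dK N).baseChange (Sn k n) x) = 0)
      ?_ ?_ ?_ x
    · rw [map_zero, map_zero]
    · intro x y hx hy
      rw [map_add, map_add, hx, hy, add_zero]
    · intro μ c v
      rw [LinearMap.baseChange_tmul, LinearMap.baseChange_tmul]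
      have h1 : dK N (dK N v) = 0 := N.d_d v
      rw [h1, TensorProduct.tmul_zero]

theorem FT_d_tmul (N : DGM (grS k n)) (s : Sn k n) (v : N.X) : (FT N).d (s ⊗ₜ v) = s ⊗ₜ N.d v := rfl

end MP8a
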