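import Pool.Agent.Lib_MP_8a48ad_gt.ThickB
import Pool.Agent.Lib_MP_8a48ad_gt.NZ

/-! # Piece LEMA2: the retract argument -/

set_option autoImplicit false

namespace MP8a

universe u

variable {A : Type u} [CommRing A] {G : Gr A}

/-- a morphism of degree `e` (even) is a morphism of degree `0` to the shift -/
theorem IsMor.to_sh {M N : DGM G} {e : ℤ} (he : Even e) {f : M.X →ₗ[A] N.X} (hf : IsMor M N e f) :
    IsMor M (N.sh e) 0 f := by
  refine ⟨fun i x => ?_, fun x => ?_⟩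
  · rw [add_zero]
    exact hf.pr i x
  · rw [DGM.sh_d_even N he]
    exact hf.d x

/-- shift (by an even number) of a morphism of degree `0` -/
theorem IsMor.sh_sh {M N : DGM G} {e : ℤ} (he : Even e) {f : M.X →ₗ[A] N.X} (hf : IsMor M N 0 f) :
    IsMor (M.sh e) (N.sh e) 0 f := by
  refine ⟨fun i x => ?_, fun x => ?_⟩
  · rw [add_zero]
    have h := hf.pr (i + e) x
    rw [add_zero] at h
    exact h
  · rw [DGM.sh_d_even N he, DGM.sh_d_even M he]
    exact hf.d x

/-- THE RETRACT ARGUMENT. `c : M → N` injective with cokernel `L ∈ T`, `a` homogeneous of even degree `e` with `a • c` zero in the derived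
category, and the cone `K` of `a : M → M[e]` in `T`. Then `M ∈ T`.

PROOF. `a • c = v ∘ u`, `u : M → Z`, `v : Z → N` (degree `e`), `Z` acyclic. Let `M' = M.sh e`, `V = N.sh e`; `φ = a • id : M → M'`, `c : M' → V`, `v : Z → V`
have degree `0` and `c φ = v u`. Let `Y = M.cone (M'.prod Z) (φ.prod u)`. `Y ∈ T`: exact sequence `0 → Z → Y → K → 0`, `z ↦ ((0, z), 0)`,
`((m', z), m) ↦ (m', m)`, and `IsThick.acy`. Let `ψ : Y → V`, `((m', z), m) ↦ c m' - v z`, a morphism. Let `W = (Y.prod M').cone V (ψ.coprod (-c))`, i.e. triples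
`(w, (y, m'))` with `d = (d w + ψ y - c m', (-d y, -d m'))`. `M'.sh 1` is a retract of `W`: `m' ↦ (0, ((m', 0), 0), m')` and `(w, (y, m')) ↦ m'`. `W ∈ T`: exact sequence
`0 → M'.cone V (-c) → W → Y.sh 1 → 0`, `(w, m') ↦ (w, (0, m'))`, and `IsThick.cone_inj` (with `L.sh e`). So `M'.sh 1 ∈ T`, and `M ∈ T` by
`IsThick.of_sh` twice. -/
theorem retract_arg {T : DGM G → Prop} (hT : IsThick T) {M N L : DGM G} {c : M.X →ₗ[A] N.X}
    {κ : N.X →ₗ[A] L.X} (hc : IsMor M N 0 c) (hκ : IsMor N L 0 κ) (h : IsSES M N L c κ) (hL : T L)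
    {e : ℤ} {a : A} (ha : G.c e a = a) (he : Even e) (hN : NZ M N e (a • c))
    (hK : T (M.mc ha he)) : T M := by
  obtain ⟨Z, u, v, hZ, hu, hv, huv⟩ := hN
  have huv' : ∀ x : M.X, a • c x = v (u x) := fun x => LinearMap.congr_fun huv x
  -- the morphisms of degree `0` to the shifts
  have hφ : IsMor M (M.sh e) 0 (a • (LinearMap.id : M.X →ₗ[A] M.X)) := isMor_mul M ha he
  have hc' : IsMor (M.sh e) (N.sh e) 0 c := hc.sh_sh he
  have hκ' : IsMor (N.sh e) (L.sh e) 0 κ := hκ.sh_sh he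
  have hv' : IsMor Z (N.sh e) 0 v := hv.to_sh he
  have hφu : IsMor M ((M.sh e).prod Z) 0 ((a • (LinearMap.id : M.X →ₗ[A] M.X)).prod u) :=
    IsMor.prodMk (M := M.sh e) hφ hu
  -- `Y`
  let Y : DGM G := M.cone ((M.sh e).prod Z) ((a • (LinearMap.id : M.X →ₗ[A] M.X)).prod u) hφu
  have hY : T Y := by
    let f : Z.X →ₗ[A] Y.X := (LinearMap.inl A (M.X × Z.X) M.X) ∘ₗ (LinearMap.inr A M.X Z.X)
    let g : Y.X →ₗ[A] (M.mc ha he).X :=
      ((LinearMap.fst A M.X Z.X) ∘ₗ (LinearMap.fst A (M.X × Z.X) M.X)).prod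
        (LinearMap.snd A (M.X × Z.X) M.X)
    refine hT.ses2 Z Y (M.mc ha he) f g ?_ ?_ ?_ (hT.acy hK hZ) hK
    · exact (isMor_cone_inl M ((M.sh e).prod Z) _ hφu).comp0 (isMor_inr (M.sh e) Z)
    · refine ⟨fun i x => ?_, fun x => ?_⟩
      · rw [add_zero]
        rfl
      · rfl
    · refine ⟨?_, ?_, ?_⟩
      · intro x y hxy
        exact congrArg (fun t : (M.X × Z.X) × M.X => t.1.2) hxy
      · rintro ⟨m', m⟩
        exact ⟨((m', 0), m), rfl⟩
      · rintro ⟨⟨m', z⟩, m⟩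
        constructor
        · intro hx
          have h1 : m' = 0 := congrArg Prod.fst hx
          have h2 : m = 0 := congrArg Prod.snd hx
          subst h1 h2
          exact ⟨z, rfl⟩
        · rintro ⟨y, hy⟩
          rw [← hy]
          rfl
  -- `ψ`
  let ψ : Y.X →ₗ[A] (N.sh e).X := (c.coprod (-v)) ∘ₗ (LinearMap.fst A (M.X × Z.X) M.X)
  have hψ_apply : ∀ (m' : M.X) (z : Z.X) (m : M.X), ψ ((m', z), m) = c m' - v z := by
    intro m' z m
    change c m' + (-v) z = c m' - v z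
    rw [LinearMap.neg_apply, sub_eq_add_neg]
  have hψ : IsMor Y (N.sh e) 0 ψ := by
    refine ⟨fun i x => ?_, fun x => ?_⟩
    · exact (IsMor.coprod (L := M.sh e) (M := Z) (N := N.sh e) hc' hv'.neg).pr i x.1
    · obtain ⟨⟨m', z⟩, m⟩ := x
      have hd : Y.d ((m', z), m) = (((M.sh e).d m' + a • m, Z.d z + u m), -(M.d m)) := rfl
      rw [hd, hψ_apply, hψ_apply, map_sub, hc'.d, hv'.d, map_add, map_add, map_smul, huv']
      abel
  -- `W`
  have hψc : IsMor (Y.prod (M.sh e)) (N.sh e) 0 (ψ.coprod (-c)) :=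
    IsMor.coprod (L := Y) (M := M.sh e) (N := N.sh e) hψ hc'.neg
  let W : DGM G := (Y.prod (M.sh e)).cone (N.sh e) (ψ.coprod (-c)) hψc
  have hWd : ∀ (w : N.X) (y : Y.X) (m' : M.X),
      W.d (w, (y, m')) = ((N.sh e).d w + (ψ y + -(c m')), -(Y.d y, (M.sh e).d m')) := by
    intro w y m'
    rfl
  have hcn : IsMor (M.sh e) (N.sh e) 0 (-c) := hc'.neg
  have hW : T W := by
    have hses : IsSES (M.sh e) (N.sh e) (L.sh e) c κ := ⟨h.1, h.2.1, h.2.2⟩
    have hcone : T ((M.sh e).cone (N.sh e) (-c) hcn) :=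
      hT.cone_inj hc' hκ' hses (hT.sh L e hL) hcn
    let f : ((M.sh e).cone (N.sh e) (-c) hcn).X →ₗ[A] W.X :=
      (LinearMap.fst A N.X M.X).prod ((LinearMap.inr A Y.X M.X) ∘ₗ (LinearMap.snd A N.X M.X))
    let g : W.X →ₗ[A] (Y.sh 1).X :=
      (LinearMap.fst A Y.X M.X) ∘ₗ (LinearMap.snd A N.X (Y.X × M.X))
    refine hT.ses2 ((M.sh e).cone (N.sh e) (-c) hcn) W (Y.sh 1) f g ?_ ?_ ?_ hcone (hT.sh Y 1 hY)
    · refine ⟨fun i x => ?_, fun x => ?_⟩
      · rw [add_zero]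
        obtain ⟨w, m'⟩ := x
        change ((N.sh e).pr i w, (Y.pr (i + 1) 0, (M.sh e).pr (i + 1) m')) =
          ((N.sh e).pr i w, ((0 : Y.X), (M.sh e).pr (i + 1) m'))
        rw [map_zero]
      · obtain ⟨w, m'⟩ := x
        change W.d (w, ((0 : Y.X), m')) =
          ((N.sh e).d w + (-c) m', ((0 : Y.X), -((M.sh e).d m')))
        rw [hWd, map_zero, map_zero, zero_add, Prod.neg_mk, neg_zero]
        rfl
    · refine ⟨fun i x => ?_, fun x => ?_⟩
      · rw [add_zero]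
        rfl
      · rw [DGM.sh_d_one]
        rfl
    · refine ⟨?_, ?_, ?_⟩
      · rintro ⟨w, m⟩ ⟨w', m''⟩ hxy
        have h1 : w = w' := congrArg Prod.fst hxy
        have h2 : m = m'' := congrArg (fun t : N.X × (Y.X × M.X) => t.2.2) hxy
        rw [h1, h2]
      · intro y
        exact ⟨(0, (y, 0)), rfl⟩
      · rintro ⟨w, y, m'⟩
        constructor
        · intro hx
          have h1 : y = 0 := hx
          subst h1
          exact ⟨(w, m'), rfl⟩
        · rintro ⟨y, hy⟩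
          rw [← hy]
          rfl
  -- the retract
  have hMW : T ((M.sh e).sh 1) := by
    let i : ((M.sh e).sh 1).X →ₗ[A] W.X :=
      (0 : M.X →ₗ[A] N.X).prod
        (((LinearMap.inl A (M.X × Z.X) M.X) ∘ₗ (LinearMap.inl A M.X Z.X)).prod LinearMap.id)
    let r : W.X →ₗ[A] ((M.sh e).sh 1).X :=
      (LinearMap.snd A Y.X M.X) ∘ₗ (LinearMap.snd A N.X (Y.X × M.X))
    have hi_apply : ∀ m' : M.X, i m' = ((0 : N.X), ((((m', 0), 0) : (M.X × Z.X) × M.X), m')) :=
      fun m' => rfl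
    refine hT.retr ((M.sh e).sh 1) W i r ?_ ?_ (fun x => rfl) hW
    · refine ⟨fun j x => ?_, fun x => ?_⟩
      · rw [add_zero]
        change ((N.sh e).pr j 0, ((((M.sh e).pr (j + 1) x, Z.pr (j + 1) 0), M.pr (j + 1 + 1) 0),
            (M.sh e).pr (j + 1) x)) =
          ((0 : N.X), (((((M.sh e).pr (j + 1) x, 0), 0) : (M.X × Z.X) × M.X), (M.sh e).pr (j + 1) x))
        rw [map_zero, map_zero, map_zero]
      · rw [hi_apply, DGM.sh_d_one, hWd, hψ_apply, LinearMap.neg_apply, hi_apply]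
        have hd : Y.d (((x, 0), 0) : (M.X × Z.X) × M.X) =
            (((M.sh e).d x + a • (0 : M.X), Z.d 0 + u 0), -(M.d 0)) := rfl
        rw [hd]
        refine Prod.ext ?_ (Prod.ext (Prod.ext (Prod.ext ?_ ?_) ?_) rfl)
        · change (N.sh e).d 0 + (c x - v 0 + -(c x)) = 0
          rw [map_zero, map_zero, sub_zero, add_neg_cancel, add_zero]
        · change -((M.sh e).d x + a • (0 : M.X)) = -((M.sh e).d x)
          rw [smul_zero, add_zero]
        · change -(Z.d 0 + u 0) = 0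
          rw [map_zero, map_zero, add_zero, neg_zero]
        · change -(-(M.d 0)) = 0
          rw [map_zero, neg_zero, neg_zero]
    · refine ⟨fun j x => ?_, fun x => ?_⟩
      · rw [add_zero]
        rfl
      · rw [DGM.sh_d_one]
        rfl
  exact hT.of_sh (hT.of_sh hMW)

end MP8a
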