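import Pool.Agent.Lib_MP_8a48ad_gt.GrS
import Pool.Agent.Lib_MP_8a48ad_gt.Homg

/-! # Piece COIN: the DG `S`-module `Hom_R(S, M)` -/

set_option autoImplicit false

namespace MP8a

universe u

variable {k : Type u} [Field k] {n : ℕ} {R : Type u} [CommRing R] [Algebra k R]
  [Algebra R (Sn k n)] {GR : Gr R}

/-- `S` as a DG `R`-module with zero differential -/
@[reducible] noncomputable def SR (hc : Compat GR (grS k n)) : DGM GR where
  X := Sn k n
  pr := (grS k n).c
  pr_pr := (grS k n).c_c
  fin := (grS k n).fin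
  smul := by
    intro i j a s ha hs
    rw [Algebra.smul_def]
    exact (grS k n).mul (by rw [← hc, ha]) hs
  d := 0
  d_hom := fun _ => by simp
  d_d := fun _ => rfl

/-- The `S`-module structure on `Hom_R(S, M)`: `(s φ)(t) = φ(s t)`. -/
@[reducible] noncomputable def homMod (R : Type u) [CommRing R] [Algebra R (Sn k n)] (X : Type u)
    [AddCommGroup X] [Module R X] : Module (Sn k n) (Sn k n →ₗ[R] X) where
  smul s φ := φ ∘ₗ LinearMap.mulLeft R s
  one_smul := by
    intro φ
    ext t
    change φ (1 * t) = φ t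
    rw [one_mul]
  mul_smul := by
    intro s s' φ
    ext t
    change φ (s * s' * t) = φ (s' * (s * t))
    congr 1
    ring
  smul_zero := fun s => LinearMap.zero_comp _
  smul_add := fun s φ ψ => LinearMap.add_comp _ _ _
  add_smul := by
    intro s s' φ
    ext t
    change φ ((s + s') * t) = φ (s * t) + φ (s' * t)
    rw [add_mul, map_add]
  zero_smul := by
    intro φ
    ext t
    change φ (0 * t) = 0
    rw [zero_mul, map_zero]

/-- every element is recovered from finitely many components of `φ` -/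
private theorem coin_supp {A : Type u} [CommRing A] {G : Gr A} (M N : DGM G) (φ : M.X →ₗ[A] N.X)
    (x : M.X) : ∃ s : Finset ℤ, ∀ t : Finset ℤ, s ⊆ t → ∑ e ∈ t, hmL M N e φ x = φ x := by
  refine M.ind (P := fun x => ∃ s : Finset ℤ, ∀ t : Finset ℤ, s ⊆ t →
    ∑ e ∈ t, hmL M N e φ x = φ x) ⟨∅, fun t _ => by simp⟩ ?_ ?_ x
  · rintro x y ⟨s, hs⟩ ⟨s', hs'⟩
    refine ⟨s ∪ s', fun t ht => ?_⟩
    simp only [map_add, Finset.sum_add_distrib]
    rw [hs t (Finset.union_subset_left ht), hs' t (Finset.union_subset_right ht)]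
  · intro i x hx
    obtain ⟨s, _, hs⟩ := N.exists_support (φ x)
    refine ⟨s.map (addRightEmbedding (-i)), fun t ht => ?_⟩
    have h1 : ∀ e ∈ t, hmL M N e φ x = N.pr (i + e) (φ x) := fun e _ => hmL_hom M N e φ hx
    rw [Finset.sum_congr rfl h1]
    have h2 : ∑ e ∈ t, N.pr (i + e) (φ x) = ∑ e ∈ t.map (addLeftEmbedding i), N.pr e (φ x) := by
      rw [Finset.sum_map]
      rfl
    rw [h2]
    refine hs _ fun j hj => ?_
    rw [Finset.mem_map]
    refine ⟨-i + j, ht (Finset.mem_map.2 ⟨j, hj, ?_⟩), ?_⟩
    · change j + -i = -i + j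
      ring
    · change i + (-i + j) = j
      ring

omit [Algebra k R] in
/-- multiplication by a homogeneous element of `S` -/
private theorem coin_mul (hc : Compat GR (grS k n)) {i : ℤ} {a : Sn k n}
    (ha : (grS k n).c i a = a) (j : ℤ) (x : Sn k n) :
    (SR hc).pr (j + i) (LinearMap.mulLeft R a x) = LinearMap.mulLeft R a ((SR hc).pr j x) := by
  have h := (regM (grS k n)).pr_smul ha j x
  rw [add_comm j i]
  exact h

/-- `Hom_R(S, M)` with the grading by the degree of maps (`hmL`) and the differential `φ ↦ d ∘ φ`. `fin`: `S` is generated over `R` by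
finitely many homogeneous elements `s_1, …, s_r` of degrees `b_1, …, b_r` (components of arbitrary generators); the component of degree `j` of `φ` is
zero as soon as `pr (b_l + j) (φ s_l) = 0` for all `l` (a map which is zero on generators is zero). `smul`: `hmL_comp_right`. -/
noncomputable def coind (hS : Setup k n GR) (M : DGM GR) : DGM (grS k n) :=
  letI := homMod (k := k) (n := n) R M.X
  { X := Sn k n →ₗ[R] M.X
    instM := homMod (k := k) (n := n) R M.X
    pr := fun j =>
      { toFun := fun φ => hmL (SR hS.compat) M j φ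
        map_zero' := by
          refine hmL_ext (SR hS.compat) M fun i x hx => ?_
          rw [hmL_hom (SR hS.compat) M j _ hx, LinearMap.zero_apply, map_zero]
        map_add' := fun φ ψ => hmL_add _ _ _ _ _ }
    pr_pr := by
      intro i j φ
      change hmL (SR hS.compat) M i (hmL (SR hS.compat) M j φ) = _
      by_cases h : i = j
      · subst h
        rw [if_pos rfl, hmL_self (SR hS.compat) M fun l x => hmL_pr (SR hS.compat) M i φ l x]
        rfl
      · rw [if_neg h]
        exact hmL_ne (SR hS.compat) M (fun l x => hmL_pr (SR hS.compat) M j φ l x) h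
    fin := by
      classical
      intro φ
      obtain ⟨T, hT⟩ := hS.fin.fg_top
      choose s hs using coin_supp (SR hS.compat) M φ
      refine ⟨T.biUnion s, ?_⟩
      refine LinearMap.ext_on hT fun t ht => ?_
      have h1 := hs t (T.biUnion s) (Finset.subset_biUnion_of_mem s ht)
      rw [← h1, LinearMap.sum_apply]
      rfl
    smul := by
      intro i j a φ ha hφ
      change hmL (SR hS.compat) M (i + j) (φ ∘ₗ LinearMap.mulLeft R a) =
        φ ∘ₗ LinearMap.mulLeft R a
      rw [hmL_comp_right (SR hS.compat) (SR hS.compat) M φ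
        (fun l x => coin_mul hS.compat ha l x)]
      congr 1
    d :=
      { toFun := fun φ => M.d ∘ₗ φ
        map_add' := fun φ ψ => LinearMap.comp_add φ ψ M.d
        map_smul' := fun s φ => LinearMap.ext fun t => rfl }
    d_hom := by
      intro i φ hφ
      change hmL (SR hS.compat) M (i + 1) (M.d ∘ₗ φ) = M.d ∘ₗ φ
      rw [hmL_comp_left (SR hS.compat) M M φ (fun l x => M.pr_d l x)]
      congr 1
    d_d := by
      intro φ
      exact LinearMap.ext fun t => M.d_d (φ t) }

/-- `M` is a retract of `Hom_R(S, M)`: `m ↦ (s ↦ ρ(s) m)` and `φ ↦ φ(1)`. -/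
theorem coind_retract (hS : Setup k n GR) (M : DGM GR) :
    ∃ (i : M.X →ₗ[R] (restr hS.compat (coind hS M)).X) (r : (restr hS.compat (coind hS M)).X →ₗ[R] M.X),
      IsMor M (restr hS.compat (coind hS M)) 0 i ∧ IsMor (restr hS.compat (coind hS M)) M 0 r ∧
        ∀ x, r (i x) = x := by
  obtain ⟨ρ, hρ1, hρ2⟩ := hS.rho
  have hsm : ∀ (a : R) (φ : Sn k n →ₗ[R] M.X) (t : Sn k n),
      φ (algebraMap R (Sn k n) a * t) = a • φ t := by
    intro a φ t
    rw [← Algebra.smul_def, map_smul]
  let i : M.X →ₗ[R] (restr hS.compat (coind hS M)).X :=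
    { toFun := fun m => (LinearMap.toSpanSingleton R M.X m ∘ₗ ρ : Sn k n →ₗ[R] M.X)
      map_add' := by
        intro m m'
        refine LinearMap.ext fun t => ?_
        change ρ t • (m + m') = ρ t • m + ρ t • m'
        rw [smul_add]
      map_smul' := by
        intro a m
        refine LinearMap.ext fun t => ?_
        change ρ t • (a • m) = ρ (algebraMap R (Sn k n) a * t) • m
        rw [← Algebra.smul_def, map_smul, smul_smul, smul_eq_mul, mul_comm] }
  let r : (restr hS.compat (coind hS M)).X →ₗ[R] M.X :=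
    { toFun := fun φ => (show Sn k n →ₗ[R] M.X from φ) 1
      map_add' := fun φ ψ => rfl
      map_smul' := by
        intro a φ
        exact hsm a (show Sn k n →ₗ[R] M.X from φ) 1 }
  refine ⟨i, r, ⟨fun j x => ?_, fun x => ?_⟩, ⟨fun j φ => ?_, fun φ => rfl⟩, fun x => ?_⟩
  · rw [add_zero]
    change hmL (SR hS.compat) M j (LinearMap.toSpanSingleton R M.X x ∘ₗ ρ) =
      LinearMap.toSpanSingleton R M.X (M.pr j x) ∘ₗ ρ
    refine hmL_ext (SR hS.compat) M fun l s hs => ?_
    rw [hmL_hom (SR hS.compat) M j _ hs]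
    change M.pr (l + j) (ρ s • x) = ρ s • M.pr j x
    refine M.pr_smul ?_ j x
    rw [hρ2]
    exact congrArg ρ hs
  · refine LinearMap.ext fun t => ?_
    change M.d (ρ t • x) = ρ t • M.d x
    rw [map_smul]
  · rw [add_zero]
    change M.pr j ((show Sn k n →ₗ[R] M.X from φ) 1) =
      hmL (SR hS.compat) M j (show Sn k n →ₗ[R] M.X from φ) 1
    rw [hmL_hom (SR hS.compat) M j _ (i := 0) (grS k n).one, zero_add]
  · change ρ 1 • x = x
    rw [hρ1, one_smul]

end MP8a
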