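import Mathlib

/-! # Piece KLIN: differential vector spaces -/

set_option autoImplicit false

namespace MP8a

variable {k : Type*} [Field k]

/-- a linear section on the range, extended to the whole space -/
private theorem klin_section {V Y : Type*} [AddCommGroup V] [Module k V] [AddCommGroup Y] [Module k Y]
    (d : V →ₗ[k] Y) : ∃ g : Y →ₗ[k] V, ∀ x, d (g (d x)) = d x := by
  obtain ⟨s, hs⟩ := LinearMap.exists_rightInverse_of_surjective d.rangeRestrict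
    (LinearMap.range_rangeRestrict d)
  obtain ⟨g, hg⟩ := LinearMap.exists_extend s
  refine ⟨g, fun x => ?_⟩
  have h1 : g (d x) = s (d.rangeRestrict x) := LinearMap.congr_fun hg (d.rangeRestrict x)
  rw [h1]
  exact congrArg Subtype.val (LinearMap.congr_fun hs (d.rangeRestrict x))

private theorem klin_null {V Y : Type*} [AddCommGroup V] [Module k V] [AddCommGroup Y] [Module k Y]
    (dV : V →ₗ[k] V) (dY : Y →ₗ[k] Y) (hV : ∀ x, dV (dV x) = 0)
    (ψ : V →ₗ[k] Y) (hψ : ∀ x, dY (ψ x) = ψ (dV x)) (hg : ∀ x, dV x = 0 → ∃ y, dY y = ψ x) :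
    ∃ h : V →ₗ[k] Y, ∀ x, ψ x = dY (h x) + h (dV x) := by
  obtain ⟨g, hg1⟩ := klin_section dV
  obtain ⟨s, hs⟩ := klin_section dY
  let P : V →ₗ[k] V := LinearMap.id - dV ∘ₗ g - g ∘ₗ dV
  have hP : ∀ x, P x = x - dV (g x) - g (dV x) := fun _ => rfl
  have hPd : ∀ x, P (dV x) = 0 := fun x => by
    rw [hP, hg1, hV, map_zero, sub_self, sub_zero]
  have hdP : ∀ x, dV (P x) = 0 := fun x => by
    rw [hP, map_sub, map_sub, hV, hg1, sub_zero, sub_self]
  refine ⟨ψ ∘ₗ g + s ∘ₗ ψ ∘ₗ P, fun x => ?_⟩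
  simp only [LinearMap.add_apply, LinearMap.comp_apply, map_add, hPd, map_zero, add_zero]
  obtain ⟨y, hy⟩ := hg (P x) (hdP x)
  rw [← hy, hs, hy, hψ, hP, map_sub, map_sub]
  abel

/-- An acyclic differential vector space is contractible. PROOF. Let `C` be a complement of `ker d` (`Submodule.exists_isCompl`);
`d : C → ker d` is bijective; `κ` is its inverse on `ker d` and `0` on `C`. -/
theorem exists_contr {K : Type*} [AddCommGroup K] [Module k K] (d : K →ₗ[k] K)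
    (hd : ∀ x, d (d x) = 0) (h : ∀ x, d x = 0 → ∃ y, d y = x) :
    ∃ κ : K →ₗ[k] K, ∀ x, d (κ x) + κ (d x) = x := by
  obtain ⟨κ, hκ⟩ := klin_null d d hd LinearMap.id (fun _ => rfl) h
  exact ⟨κ, fun x => (hκ x).symm⟩

/-- Chain maps lift along trivial fibrations. PROOF. Let `ℓ = σ ∘ φ`, `σ` a linear section of `p`. `δ = d ∘ ℓ - ℓ ∘ d : V → ker p` satisfies
`d δ + δ d = 0`; take `κ` for `K = ker p` (`exists_contr`) and `λ = ℓ - κ ∘ δ`: `d κ δ - κ δ d = d κ δ + κ d δ = δ`. -/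
theorem exists_lift_chain {V X X' : Type*} [AddCommGroup V] [Module k V] [AddCommGroup X] [Module k X]
    [AddCommGroup X'] [Module k X'] (dV : V →ₗ[k] V) (dX : X →ₗ[k] X) (dX' : X' →ₗ[k] X')
    (hV : ∀ x, dV (dV x) = 0) (hX' : ∀ x, dX' (dX' x) = 0)
    (p : X' →ₗ[k] X) (hp : ∀ x, dX (p x) = p (dX' x)) (hs : Function.Surjective p)
    (hk : ∀ x, p x = 0 → dX' x = 0 → ∃ y, p y = 0 ∧ dX' y = x)
    (φ : V →ₗ[k] X) (hφ : ∀ x, dX (φ x) = φ (dV x)) :
    ∃ l : V →ₗ[k] X', (∀ x, dX' (l x) = l (dV x)) ∧ ∀ x, p (l x) = φ x := by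
  obtain ⟨σ, hσ⟩ := LinearMap.exists_rightInverse_of_surjective p (LinearMap.range_eq_top.2 hs)
  have hσ' : ∀ x, p (σ x) = x := fun x => LinearMap.congr_fun hσ x
  let K : Submodule k X' := LinearMap.ker p
  have hK : ∀ x ∈ K, dX' x ∈ K := by
    intro x hx
    have hx' : p x = 0 := hx
    show p (dX' x) = 0
    rw [← hp, hx', map_zero]
  let dK : K →ₗ[k] K := dX'.restrict hK
  obtain ⟨κ, hκ⟩ := exists_contr dK (fun x => Subtype.ext (hX' x.1)) (by
    intro x hx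
    obtain ⟨y, hy1, hy2⟩ := hk x.1 x.2 (congrArg Subtype.val hx)
    exact ⟨⟨y, hy1⟩, Subtype.ext hy2⟩)
  let ℓ : V →ₗ[k] X' := σ ∘ₗ φ
  have hℓ : ∀ v, p (ℓ v) = φ v := fun v => hσ' (φ v)
  let δ : V →ₗ[k] K := (dX' ∘ₗ ℓ - ℓ ∘ₗ dV).codRestrict K (by
    intro v
    show p (dX' (ℓ v) - ℓ (dV v)) = 0
    rw [map_sub, ← hp, hℓ, hℓ, hφ, sub_self])
  have hδ : ∀ v, (δ v : X') = dX' (ℓ v) - ℓ (dV v) := fun _ => rfl
  have hδd : ∀ v, δ (dV v) = - dK (δ v) := by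
    intro v
    apply Subtype.ext
    show (δ (dV v) : X') = - dX' (δ v : X')
    rw [hδ, hδ, hV, map_zero, sub_zero, map_sub, hX', zero_sub, neg_neg]
  refine ⟨ℓ - K.subtype ∘ₗ κ ∘ₗ δ, fun v => ?_, fun v => ?_⟩
  · show dX' (ℓ v - (κ (δ v) : X')) = ℓ (dV v) - (κ (δ (dV v)) : X')
    have h1 := congrArg Subtype.val (hκ (δ v))
    have h2 : dX' (κ (δ v) : X') + (κ (dK (δ v)) : X') = dX' (ℓ v) - ℓ (dV v) := h1
    rw [map_sub, hδd, map_neg, Submodule.coe_neg]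
    rw [sub_neg_eq_add, sub_eq_iff_eq_add]
    rw [eq_sub_iff_add_eq] at h2
    rw [← h2]
    abel
  · show p (ℓ v - (κ (δ v) : X')) = φ v
    have h3 : p (κ (δ v) : X') = 0 := (κ (δ v)).2
    rw [map_sub, hℓ, h3, sub_zero]

/-- A chain map which is zero in cohomology is null-homotopic. PROOF. Choose a linear `κ : V → V` with `d κ d = d` (a linear section of
`d : V → range d`, extended by `0` on a complement of `range d`), and `P = 1 - d κ - κ d`: `d P = 0` (as `d d = 0`, `d P = d - d κ d`), `P d = 0`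
if moreover `κ` is chosen so, in any case `P d = d - d κ d - κ d d = 0`. Choose a linear `σ : range dY → Y` with `dY σ = id`. For `v ∈ V`, `P v` is
a cycle, so `ψ (P v) ∈ range dY`; put `h v = ψ (κ v) + σ (ψ (P v))`. Then `d h + h d = ψ d κ + ψ P + ψ κ d = ψ`. -/
theorem exists_null {V Y : Type*} [AddCommGroup V] [Module k V] [AddCommGroup Y] [Module k Y]
    (dV : V →ₗ[k] V) (dY : Y →ₗ[k] Y) (hV : ∀ x, dV (dV x) = 0)
    (ψ : V →ₗ[k] Y) (hψ : ∀ x, dY (ψ x) = ψ (dV x)) (hg : ∀ x, dV x = 0 → ∃ y, dY y = ψ x) :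
    ∃ h : V →ₗ[k] Y, ∀ x, ψ x = dY (h x) + h (dV x) := by
  exact klin_null dV dY hV ψ hψ hg

end MP8a
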