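import Pool.Agent.Lib_MP_8a48ad_gt.TensG
import Pool.Agent.Lib_MP_8a48ad_gt.NZ
import Pool.Agent.Lib_MP_8a48ad_gt.Homg
import Pool.Agent.Lib_MP_8a48ad_gt.KLin

/-! # Piece BASE: the property `GP` for `S ⊗_k N` -/

set_option autoImplicit false

namespace MP8a

open TensorProduct

universe u

variable {k : Type u} [Field k] {n : ℕ} {R : Type u} [CommRing R] [Algebra k R]
  [Algebra R (Sn k n)] {GR : Gr R}

attribute [local instance] kMod kTower

/-- Linear maps `S ⊗_k N → Y`, `s ⊗ v ↦ τ(s) λ(v)`, for an `R`-linear `τ : S → R` and a `k`-linear `λ : N → Y`, `Y` an `R`-module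
(`TensorProduct.lift`; `R`-linearity on pure tensors). -/
theorem exists_tl (hS : Setup k n GR) (N : DGM (grS k n)) (Y : DGM GR) (τ : Sn k n →ₗ[R] R)
    (l : N.X → Y.X) (hl1 : ∀ x y, l (x + y) = l x + l y)
    (hl2 : ∀ (c : k) x, l ((algebraMap k (Sn k n) c) • x) = (algebraMap k R c) • l x) :
    ∃ Λ : (restr hS.compat (FT N)).X →ₗ[R] Y.X, ∀ (s : Sn k n) (v : N.X),
      Λ ((s ⊗ₜ v : Sn k n ⊗[k] N.X)) = τ s • l v := by
  let _ : Module k Y.X := Module.compHom Y.X (algebraMap k R)
  have hsm : ∀ (c : k) (y : Y.X), c • y = (algebraMap k R c) • y := fun _ _ => rfl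
  have hN : ∀ (c : k) (v : N.X), c • v = (algebraMap k (Sn k n) c) • v := fun _ _ => rfl
  have hτ : ∀ (c : k) (s : Sn k n), τ (c • s) = algebraMap k R c * τ s := by
    intro c s
    have := hS.tower
    have h1 : c • s = (algebraMap k R c) • s := (algebraMap_smul R c s).symm
    rw [h1, map_smul, smul_eq_mul]
  let B : Sn k n →ₗ[k] N.X →ₗ[k] Y.X := LinearMap.mk₂ k (fun s v => τ s • l v)
    (fun s s' v => by rw [map_add, add_smul])
    (fun c s v => by rw [hτ, mul_smul, hsm])
    (fun s v v' => by rw [hl1, smul_add])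
    (fun c s v => by rw [hN, hl2, hsm, smul_comm])
  have hB : ∀ s v, B s v = τ s • l v := fun s v => rfl
  refine ⟨{ toFun := fun t => TensorProduct.lift B t
            map_add' := fun a b => map_add (TensorProduct.lift B) a b
            map_smul' := ?_ }, ?_⟩
  · intro a t
    have key : ∀ t : Sn k n ⊗[k] N.X, TensorProduct.lift B ((algebraMap R (Sn k n) a) • t) =
        a • TensorProduct.lift B t := by
      intro t
      refine TensorProduct.induction_on t ?_ ?_ ?_
      · rw [smul_zero, map_zero, smul_zero]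
      · intro s v
        rw [TensorProduct.smul_tmul', TensorProduct.lift.tmul, TensorProduct.lift.tmul, hB, hB,
          smul_eq_mul, ← Algebra.smul_def, map_smul, smul_eq_mul, mul_smul]
      · intro t₁ t₂ h1 h2
        rw [smul_add, map_add, map_add, smul_add, h1, h2]
    exact key t
  · intro s v
    exact (TensorProduct.lift.tmul s v).trans (hB s v)

/-- pure tensors -/
private noncomputable def btm (hS : Setup k n GR) (N : DGM (grS k n)) (s : Sn k n) (v : N.X) :
    (restr hS.compat (FT N)).X := (s ⊗ₜ v : Sn k n ⊗[k] N.X)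

/-- induction over pure tensors -/
private theorem base_ind (hS : Setup k n GR) (N : DGM (grS k n))
    {P : (restr hS.compat (FT N)).X → Prop} (h0 : P 0)
    (h1 : ∀ (s : Sn k n) (v : N.X), P (btm hS N s v))
    (h2 : ∀ t t', P t → P t' → P (t + t')) (t : (restr hS.compat (FT N)).X) : P t :=
  TensorProduct.induction_on (motive := fun t : Sn k n ⊗[k] N.X => P t) t h0 h1 h2

private theorem base_smul (hS : Setup k n GR) (N : DGM (grS k n)) (a : R) (s : Sn k n) (v : N.X) :
    a • btm hS N s v = btm hS N (algebraMap R (Sn k n) a * s) v :=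
  TensorProduct.smul_tmul' (algebraMap R (Sn k n) a) s v

private theorem base_d (hS : Setup k n GR) (N : DGM (grS k n)) (s : Sn k n) (v : N.X) :
    (restr hS.compat (FT N)).d (btm hS N s v) = btm hS N s (N.d v) := rfl

private theorem base_add (hS : Setup k n GR) (N : DGM (grS k n)) (s s' : Sn k n) (v : N.X) :
    btm hS N (s + s') v = btm hS N s v + btm hS N s' v := TensorProduct.add_tmul s s' v

private theorem base_lift (hS : Setup k n GR) (N : DGM (grS k n)) {X' : DGM GR} {e' : ℤ}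
    {p : X'.X →ₗ[R] (restr hS.compat (FT N)).X} (hp : IsMor X' (restr hS.compat (FT N)) e' p)
    (hsq : SQ X' (restr hS.compat (FT N)) p) (x : Sn k n) :
    ∃ l : N.X → X'.X, (∀ u v, l (u + v) = l u + l v) ∧
      (∀ (c : k) v, l ((algebraMap k (Sn k n) c) • v) = (algebraMap k R c) • l v) ∧
      (∀ v, X'.d (l v) = l (N.d v)) ∧ ∀ v, p (l v) = btm hS N x v := by
  let _ : Module k X'.X := Module.compHom X'.X (algebraMap k R)
  let _ : Module k (restr hS.compat (FT N)).X := Module.compHom _ (algebraMap k R)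
  let pk : X'.X →ₗ[k] (restr hS.compat (FT N)).X :=
    { toFun := p, map_add' := map_add p, map_smul' := fun c v => p.map_smul (algebraMap k R c) v }
  let dk' : X'.X →ₗ[k] X'.X :=
    { toFun := X'.d, map_add' := map_add X'.d,
      map_smul' := fun c v => X'.d.map_smul (algebraMap k R c) v }
  let dk : (restr hS.compat (FT N)).X →ₗ[k] (restr hS.compat (FT N)).X :=
    { toFun := (restr hS.compat (FT N)).d, map_add' := map_add _,
      map_smul' := fun c v => (restr hS.compat (FT N)).d.map_smul (algebraMap k R c) v }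
  let φ : N.X →ₗ[k] (restr hS.compat (FT N)).X :=
    { toFun := fun v => btm hS N x v
      map_add' := fun u v => TensorProduct.tmul_add x u v
      map_smul' := by
        intro c v
        have h1 : (algebraMap k R c) • btm hS N x v =
            btm hS N (algebraMap R (Sn k n) (algebraMap k R c) * x) v :=
          base_smul hS N (algebraMap k R c) x v
        have := hS.tower
        rw [← IsScalarTower.algebraMap_apply, ← Algebra.smul_def] at h1
        exact (TensorProduct.smul_tmul c x v).symm.trans h1.symm }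
  obtain ⟨l, hl1, hl2⟩ := exists_lift_chain (k := k) (dK N) dk dk' N.d_d X'.d_d pk hp.d hsq.1 hsq.2 φ
    (fun v => rfl)
  exact ⟨l, map_add l, fun c v => l.map_smul c v, hl1, hl2⟩

omit [Algebra R (Sn k n)] in
private theorem base_null (N : DGM (grS k n)) (Y : DGM GR) (ψ : N.X → Y.X)
    (h1 : ∀ u v, ψ (u + v) = ψ u + ψ v)
    (h2 : ∀ (c : k) v, ψ ((algebraMap k (Sn k n) c) • v) = (algebraMap k R c) • ψ v)
    (h3 : ∀ v, Y.d (ψ v) = ψ (N.d v)) (h4 : ∀ v, N.d v = 0 → ∃ y, Y.d y = ψ v) :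
    ∃ h : N.X → Y.X, (∀ u v, h (u + v) = h u + h v) ∧
      (∀ (c : k) v, h ((algebraMap k (Sn k n) c) • v) = (algebraMap k R c) • h v) ∧
      ∀ v, ψ v = Y.d (h v) + h (N.d v) := by
  let _ : Module k Y.X := Module.compHom Y.X (algebraMap k R)
  let dk' : Y.X →ₗ[k] Y.X :=
    { toFun := Y.d, map_add' := map_add Y.d,
      map_smul' := fun c v => Y.d.map_smul (algebraMap k R c) v }
  let ψk : N.X →ₗ[k] Y.X := { toFun := ψ, map_add' := h1, map_smul' := fun c v => h2 c v }
  obtain ⟨h, hh⟩ := exists_null (k := k) (dK N) dk' N.d_d ψk h3 h4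
  exact ⟨h, map_add h, fun c v => h.map_smul c v, hh⟩

/-- THE BASE CASE. `f s = ∑ τ_i(s) x_i` for all `s ∈ S`.

PROOF. Let `p : X' → restr (FT N)` be a trivial fibration of degree `e'`, `Y`, `γ` ghosts, `y : X' → Y 0` of degree `e`. View `N.X`, `X'.X`, `(Y 1).X` as
`k`-vector spaces. For each `i` the `k`-linear chain map `N → S ⊗_k N`, `v ↦ x_i ⊗ v` lifts to a `k`-linear chain map `λ_i : N → X'` with
`p (λ_i v) = x_i ⊗ v` (`exists_lift_chain`). Put `Λ' (s ⊗ v) = ∑ τ_i(s) λ_i(v)` (`exists_tl`): `R`-linear, commutes with `d`, and `p ∘ Λ' = f • id`.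
Let `Λ` be its component of degree `m - e'` (`hmL`, `hmL_isMor`); then still `p ∘ Λ = f • id` (`hmL_comp_left`, `hmL_self`, `IsMor.smul`).
`δ = f • id - Λ ∘ p : X' → X'` is a morphism of degree `m` with `p ∘ δ = 0`: `NZ` (`NZ.of_ker`), so `γ 0 ∘ y ∘ δ` is `NZ`. The `k`-linear chain map
`γ 0 ∘ y ∘ λ_i : N → Y 1` is zero in cohomology, so `= d h_i + h_i d` (`exists_null`); `H' (s ⊗ v) = ∑ τ_i(s) h_i(v)` is `R`-linear and
`γ 0 ∘ y ∘ Λ' = d H' + H' d`; take components (`hmL_null`, `hmL_comp_left`): `γ 0 ∘ y ∘ Λ` is null-homotopic by a homogeneous homotopy, so `NZ`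
(`NZ.of_null`). Finally `f • (γ 0 ∘ y) = γ 0 ∘ y ∘ δ + (γ 0 ∘ y ∘ Λ) ∘ p` (`NZ.add`, `NZ.comp_left`, `NZ.comp_right`). -/
theorem GP_base (hS : Setup k n GR) {m : ℤ} {f : R} (hf : GR.c m f = f) (hJ : JJ k n f)
    (N : DGM (grS k n)) : GP m f (restr hS.compat (FT N)) 1 := by
  intro X' e' p hp hsq Y γ hγm hγg e y hy
  obtain ⟨ℓ, τ, x, hJ⟩ := hJ
  -- the lifts
  choose lam hlam1 hlam2 hlam3 hlam4 using fun i => base_lift hS N hp hsq (x i)
  choose Lam hLam using fun i => exists_tl hS N X' (τ i) (lam i) (hlam1 i) (hlam2 i)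
  have hLam' : ∀ i s v, Lam i (btm hS N s v) = τ i s • lam i v := hLam
  obtain ⟨Λ', hΛ'⟩ : ∃ Λ' : (restr hS.compat (FT N)).X →ₗ[R] X'.X, ∀ s v,
      Λ' (btm hS N s v) = ∑ i, τ i s • lam i v := by
    refine ⟨∑ i, Lam i, fun s v => ?_⟩
    rw [LinearMap.sum_apply]
    exact Finset.sum_congr rfl fun i _ => hLam' i s v
  have hΛd : ∀ t, X'.d (Λ' t) = Λ' ((restr hS.compat (FT N)).d t) := by
    refine base_ind hS N (by rw [map_zero, map_zero, map_zero, map_zero]) (fun s v => ?_)
      (fun t t' h1 h2 => by rw [map_add, map_add, map_add, map_add, h1, h2])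
    rw [hΛ', base_d, hΛ', map_sum]
    refine Finset.sum_congr rfl fun i _ => ?_
    rw [map_smul, hlam3]
  have hpΛ : ∀ t, p (Λ' t) = f • t := by
    refine base_ind hS N (by rw [map_zero, map_zero, smul_zero]) (fun s v => ?_)
      (fun t t' h1 h2 => by rw [map_add, map_add, smul_add, h1, h2])
    rw [hΛ', map_sum, base_smul, hJ]
    have key : ∀ F : Finset (Fin ℓ), ∑ i ∈ F, p (τ i s • lam i v) =
        btm hS N (∑ i ∈ F, algebraMap R (Sn k n) (τ i s) * x i) v := by
      intro F
      induction F using Finset.induction_on with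
      | empty =>
        rw [Finset.sum_empty, Finset.sum_empty]
        exact (TensorProduct.zero_tmul _ v).symm
      | insert a F ha ih =>
        rw [Finset.sum_insert ha, Finset.sum_insert ha, base_add, ih, map_smul, hlam4, base_smul]
    exact key Finset.univ
  -- the homogeneous component
  obtain ⟨Λ, hΛ⟩ : ∃ Λ, Λ = hmL (restr hS.compat (FT N)) X' (m - e') Λ' := ⟨_, rfl⟩
  have hΛm : IsMor (restr hS.compat (FT N)) X' (m - e') Λ := hΛ ▸ hmL_isMor _ _ _ hΛd
  have hfid : IsMor (restr hS.compat (FT N)) (restr hS.compat (FT N)) m (f • LinearMap.id) :=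
    (IsMor.smul hf (isMor_id _)).cast (zero_add m)
  have hpΛ2 : p ∘ₗ Λ = f • LinearMap.id := by
    have h1 : p ∘ₗ Λ' = f • LinearMap.id := LinearMap.ext fun t => hpΛ t
    have h2 := hmL_comp_left (restr hS.compat (FT N)) X' (restr hS.compat (FT N)) (e := m - e')
      (e' := e') Λ' hp.pr
    rw [h1, sub_add_cancel, hmL_self _ _ hfid.pr] at h2
    rw [hΛ]
    exact h2.symm
  -- the two parts
  have hyγ : IsMor X' (Y 1) e (γ 0 ∘ₗ y) := (hγm 0).comp0 hy
  have hδm : IsMor X' X' m (f • LinearMap.id - Λ ∘ₗ p) :=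
    ((IsMor.smul hf (isMor_id X')).cast (zero_add m)).sub
      ((hΛm.comp hp).cast (by ring))
  have hδ : NZ X' X' m (f • LinearMap.id - Λ ∘ₗ p) := by
    refine NZ.of_ker hp hsq hδm fun z => ?_
    have h1 : p (Λ (p z)) = f • p z := LinearMap.congr_fun hpΛ2 (p z)
    rw [LinearMap.sub_apply, map_sub, LinearMap.comp_apply, h1, LinearMap.smul_apply, map_smul]
    exact sub_self _
  have hA := (hδ.comp_left hyγ).cast (show m + e = e + (1 : ℕ) * m by push_cast; ring)
  -- the homotopies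
  choose hh hh1 hh2 hh3 using fun i => base_null N (Y 1) (fun v => γ 0 (y (lam i v)))
    (fun u v => by rw [hlam1, map_add, map_add]) (fun c v => by rw [hlam2, map_smul, map_smul])
    (fun v => by rw [(hγm 0).d, hy.d, hlam3]) (fun v hv => by
      refine hγg 0 (y (lam i v)) ?_
      have h0 : lam i 0 = 0 := by
        have := hlam1 i 0 0
        rw [add_zero] at this
        exact left_eq_add.1 this
      rw [hy.d, hlam3, hv, h0, map_zero])
  choose Hh hHh using fun i => exists_tl hS N (Y 1) (τ i) (hh i) (hh1 i) (hh2 i)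
  have hHh' : ∀ i s v, Hh i (btm hS N s v) = τ i s • hh i v := hHh
  obtain ⟨H', hH'⟩ : ∃ H' : (restr hS.compat (FT N)).X →ₗ[R] (Y 1).X, ∀ s v,
      H' (btm hS N s v) = ∑ i, τ i s • hh i v := by
    refine ⟨∑ i, Hh i, fun s v => ?_⟩
    rw [LinearMap.sum_apply]
    exact Finset.sum_congr rfl fun i _ => hHh' i s v
  have hnull : ∀ t, ((γ 0 ∘ₗ y) ∘ₗ Λ') t = (Y 1).d (H' t) + H' ((restr hS.compat (FT N)).d t) := by
    refine base_ind hS N (by simp) (fun s v => ?_) (fun t t' h1 h2 => ?_)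
    · rw [LinearMap.comp_apply, LinearMap.comp_apply, hΛ', hH', base_d, hH', map_sum, map_sum,
        map_sum, ← Finset.sum_add_distrib]
      refine Finset.sum_congr rfl fun i _ => ?_
      rw [map_smul, map_smul, map_smul, ← smul_add]
      exact congrArg (fun z => τ i s • z) (hh3 i v)
    · rw [map_add, map_add, map_add, map_add, map_add, h1, h2]
      abel
  have hB1 : NZ (restr hS.compat (FT N)) (Y 1) (m - e' + e) ((γ 0 ∘ₗ y) ∘ₗ Λ) := by
    have h1 := hmL_comp_left (restr hS.compat (FT N)) X' (Y 1) (e := m - e') (e' := e) Λ' hyγ.pr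
    rw [← hΛ] at h1
    refine NZ.of_null (hyγ.comp hΛm) (hmL (restr hS.compat (FT N)) (Y 1) (m - e' + e - 1) H')
      (fun i t => hmL_pr _ _ _ _ i t) (fun t => ?_)
    rw [← h1]
    exact hmL_null _ _ _ hnull t
  have hB := (NZ.comp_right hp hB1).cast (show e' + (m - e' + e) = e + (1 : ℕ) * m by push_cast; ring)
  have hsum := hA.add hB
  have heq : f ^ 1 • (cmp Y γ 1 ∘ₗ y) = (γ 0 ∘ₗ y) ∘ₗ (f • LinearMap.id - Λ ∘ₗ p) +
      ((γ 0 ∘ₗ y) ∘ₗ Λ) ∘ₗ p := by
    refine LinearMap.ext fun z => ?_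
    rw [pow_one]
    show f • γ 0 (y z) = γ 0 (y (f • z - Λ (p z))) + γ 0 (y (Λ (p z)))
    rw [map_sub, map_sub, sub_add_cancel, map_smul, map_smul]
  rw [heq]
  exact hsum

end MP8a
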