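import Pool.Agent.Lib_MP_8a48ad_gt.Defs

/-!
# Basic constructions with DG modules: submodules, quotients, sums, cones
-/

set_option autoImplicit false

namespace MP8a

universe u

section

variable {A : Type u} [CommRing A] {G : Gr A}

/-! ### components -/

theorem DGM.exists_support (M : DGM G) (x : M.X) :
    ∃ s : Finset ℤ, (∀ i, i ∉ s → M.pr i x = 0) ∧ ∀ t : Finset ℤ, s ⊆ t → ∑ i ∈ t, M.pr i x = x := by
  obtain ⟨s, hs⟩ := M.fin x
  have h0 : ∀ i, i ∉ s → M.pr i x = 0 := by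
    intro i hi
    rw [← hs, map_sum]
    refine Finset.sum_eq_zero fun j hj => ?_
    rw [M.pr_pr, if_neg]
    rintro rfl
    exact hi hj
  refine ⟨s, h0, fun t ht => ?_⟩
  rw [← Finset.sum_subset ht (fun i _ hi => h0 i hi), hs]

theorem DGM.pr_self (M : DGM G) (i : ℤ) (x : M.X) : M.pr i (M.pr i x) = M.pr i x := by
  rw [M.pr_pr, if_pos rfl]

theorem DGM.pr_ne (M : DGM G) {i j : ℤ} {x : M.X} (hx : M.pr j x = x) (h : i ≠ j) : M.pr i x = 0 := by
  rw [← hx, M.pr_pr, if_neg h]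

/-- induction over homogeneous elements -/
theorem DGM.ind (M : DGM G) {P : M.X → Prop} (h0 : P 0) (hadd : ∀ x y, P x → P y → P (x + y))
    (hh : ∀ i x, M.pr i x = x → P x) (x : M.X) : P x := by
  obtain ⟨s, hs⟩ := M.fin x
  rw [← hs]
  exact Finset.sum_induction _ P hadd h0 fun i _ => hh i _ (M.pr_self i x)

/-- equality can be checked on the components -/
theorem DGM.ext_pr (M : DGM G) {x y : M.X} (h : ∀ i, M.pr i x = M.pr i y) : x = y := by
  obtain ⟨s, _, hs⟩ := M.exists_support x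
  obtain ⟨t, _, ht⟩ := M.exists_support y
  rw [← hs (s ∪ t) Finset.subset_union_left, ← ht (s ∪ t) Finset.subset_union_right]
  exact Finset.sum_congr rfl fun i _ => h i

theorem DGM.pr_smul (M : DGM G) {i : ℤ} {a : A} (ha : G.c i a = a) (j : ℤ) (x : M.X) :
    M.pr (i + j) (a • x) = a • M.pr j x := by
  refine M.ind (P := fun x => M.pr (i + j) (a • x) = a • M.pr j x) (by simp) ?_ ?_ x
  · intro x y hx hy
    rw [smul_add, map_add, map_add, smul_add, hx, hy]
  · intro l x hx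
    by_cases h : j = l
    · subst h
      rw [hx]
      exact M.smul ha hx
    · rw [M.pr_ne hx h, smul_zero]
      exact M.pr_ne (M.smul ha hx) (fun h' => h (add_left_cancel h'))

theorem DGM.pr_smul' (M : DGM G) {i : ℤ} {a : A} (ha : G.c i a = a) (j : ℤ) (x : M.X) :
    M.pr j (a • x) = a • M.pr (j - i) x := by
  have h := M.pr_smul ha (j - i) x
  rw [add_sub_cancel] at h
  exact h

theorem DGM.pr_d (M : DGM G) (i : ℤ) (x : M.X) : M.pr (i + 1) (M.d x) = M.d (M.pr i x) := by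
  refine M.ind (P := fun x => M.pr (i + 1) (M.d x) = M.d (M.pr i x)) (by simp) ?_ ?_ x
  · intro x y hx hy
    rw [map_add, map_add, map_add, map_add, hx, hy]
  · intro l x hx
    by_cases h : i = l
    · subst h
      rw [hx]
      exact M.d_hom hx
    · rw [M.pr_ne hx h, map_zero]
      exact M.pr_ne (M.d_hom hx) (fun h' => h (add_right_cancel h'))

theorem Gr.c_self (G : Gr A) (i : ℤ) (a : A) : G.c i (G.c i a) = G.c i a := by
  rw [G.c_c, if_pos rfl]

/-- induction over homogeneous elements of the ring -/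
theorem Gr.ind (G : Gr A) {P : A → Prop} (h0 : P 0) (hadd : ∀ x y, P x → P y → P (x + y))
    (hh : ∀ i a, G.c i a = a → P a) (a : A) : P a := by
  obtain ⟨s, hs⟩ := G.fin a
  rw [← hs]
  exact Finset.sum_induction _ P hadd h0 fun i _ => hh i _ (G.c_self i a)

/-- the ring as a DG module over itself -/
@[reducible] def regM (G : Gr A) : DGM G where
  X := A
  pr := G.c
  pr_pr := G.c_c
  fin := G.fin
  smul := fun ha hx => G.mul ha hx
  d := 0
  d_hom := fun _ => by simp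
  d_d := fun _ => rfl

/-! ### morphisms -/

theorem IsMor.cast {M N : DGM G} {e e' : ℤ} {f : M.X →ₗ[A] N.X} (hf : IsMor M N e f) (h : e = e') :
    IsMor M N e' f := h ▸ hf

theorem isMor_id (M : DGM G) : IsMor M M 0 LinearMap.id :=
  ⟨fun i x => by rw [add_zero]; rfl, fun _ => rfl⟩

theorem isMor_zero (M N : DGM G) (e : ℤ) : IsMor M N e 0 :=
  ⟨fun i x => by simp, fun _ => by simp⟩

theorem IsMor.comp {L M N : DGM G} {e e' : ℤ} {f : L.X →ₗ[A] M.X} {g : M.X →ₗ[A] N.X}
    (hg : IsMor M N e' g) (hf : IsMor L M e f) : IsMor L N (e + e') (g ∘ₗ f) :=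
  ⟨fun i x => by
    rw [← add_assoc, LinearMap.comp_apply, LinearMap.comp_apply, hg.pr, hf.pr],
    fun x => by rw [LinearMap.comp_apply, LinearMap.comp_apply, hg.d, hf.d]⟩

theorem IsMor.comp0 {L M N : DGM G} {e : ℤ} {f : L.X →ₗ[A] M.X} {g : M.X →ₗ[A] N.X}
    (hg : IsMor M N 0 g) (hf : IsMor L M e f) : IsMor L N e (g ∘ₗ f) :=
  (hg.comp hf).cast (add_zero e)

theorem IsMor.comp0' {L M N : DGM G} {e : ℤ} {f : L.X →ₗ[A] M.X} {g : M.X →ₗ[A] N.X}
    (hg : IsMor M N e g) (hf : IsMor L M 0 f) : IsMor L N e (g ∘ₗ f) :=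
  (hg.comp hf).cast (zero_add e)

theorem IsMor.add {M N : DGM G} {e : ℤ} {f g : M.X →ₗ[A] N.X} (hf : IsMor M N e f)
    (hg : IsMor M N e g) : IsMor M N e (f + g) :=
  ⟨fun i x => by rw [LinearMap.add_apply, LinearMap.add_apply, map_add, hf.pr, hg.pr],
    fun x => by rw [LinearMap.add_apply, LinearMap.add_apply, map_add, hf.d, hg.d]⟩

theorem IsMor.neg {M N : DGM G} {e : ℤ} {f : M.X →ₗ[A] N.X} (hf : IsMor M N e f) :
    IsMor M N e (-f) :=
  ⟨fun i x => by rw [LinearMap.neg_apply, LinearMap.neg_apply, map_neg, hf.pr],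
    fun x => by rw [LinearMap.neg_apply, LinearMap.neg_apply, map_neg, hf.d]⟩

theorem IsMor.sub {M N : DGM G} {e : ℤ} {f g : M.X →ₗ[A] N.X} (hf : IsMor M N e f)
    (hg : IsMor M N e g) : IsMor M N e (f - g) := by
  rw [sub_eq_add_neg]
  exact hf.add hg.neg

/-- multiplication of a morphism by a homogeneous element of the ring -/
theorem IsMor.smul {M N : DGM G} {e i : ℤ} {a : A} (ha : G.c i a = a) {f : M.X →ₗ[A] N.X}
    (hf : IsMor M N e f) : IsMor M N (e + i) (a • f) :=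
  ⟨fun j x => by
    rw [LinearMap.smul_apply, LinearMap.smul_apply, ← hf.pr]
    have h := N.pr_smul ha (j + e) (f x)
    have h2 : j + (e + i) = i + (j + e) := by ring
    rw [h2]
    exact h,
    fun x => by rw [LinearMap.smul_apply, LinearMap.smul_apply, map_smul, hf.d]⟩

theorem Gr.pow_hom (G : Gr A) {i : ℤ} {a : A} (ha : G.c i a = a) (n : ℕ) :
    G.c (n * i) (a ^ n) = a ^ n := by
  induction n with
  | zero => simpa using G.one
  | succ n ih =>
    have h := G.mul ih ha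
    have h2 : ((n + 1 : ℕ) : ℤ) * i = n * i + i := by
      push_cast
      ring
    rw [pow_succ, h2]
    exact h

/-! ### submodules and quotients -/

/-- A homogeneous submodule stable under `d`, as a DG module. -/
@[reducible] def DGM.sub (M : DGM G) (U : Submodule A M.X) (h1 : ∀ i, ∀ x ∈ U, M.pr i x ∈ U)
    (h2 : ∀ x ∈ U, M.d x ∈ U) : DGM G where
  X := U
  pr i := ((M.pr i).comp U.toAddSubgroup.subtype).codRestrict U.toAddSubgroup (fun x => h1 i x.1 x.2)
  pr_pr i j x := by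
    apply Subtype.ext
    change M.pr i (M.pr j x.1) = _
    rw [M.pr_pr]
    by_cases h : i = j
    · rw [if_pos h, if_pos h]
      rfl
    · rw [if_neg h, if_neg h]
      rfl
  fin x := by
    obtain ⟨s, hs⟩ := M.fin x.1
    refine ⟨s, Subtype.ext ?_⟩
    rw [AddSubmonoidClass.coe_finsetSum]
    exact hs
  smul := by
    intro i j a x ha hx
    apply Subtype.ext
    exact M.smul ha (congrArg Subtype.val hx)
  d := (M.d.comp U.subtype).codRestrict U (fun x => h2 x.1 x.2)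
  d_hom := by
    intro i x hx
    apply Subtype.ext
    exact M.d_hom (congrArg Subtype.val hx)
  d_d x := Subtype.ext (M.d_d x.1)

theorem DGM.sub_pr (M : DGM G) (U : Submodule A M.X) (h1 : ∀ i, ∀ x ∈ U, M.pr i x ∈ U)
    (h2 : ∀ x ∈ U, M.d x ∈ U) (i : ℤ) (x : U) : (((M.sub U h1 h2).pr i x : U) : M.X) = M.pr i x.1 := rfl

theorem DGM.sub_d (M : DGM G) (U : Submodule A M.X) (h1 : ∀ i, ∀ x ∈ U, M.pr i x ∈ U)
    (h2 : ∀ x ∈ U, M.d x ∈ U) (x : U) : (((M.sub U h1 h2).d x : U) : M.X) = M.d x.1 := rfl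

theorem isMor_subtype (M : DGM G) (U : Submodule A M.X) (h1 : ∀ i, ∀ x ∈ U, M.pr i x ∈ U)
    (h2 : ∀ x ∈ U, M.d x ∈ U) : IsMor (M.sub U h1 h2) M 0 U.subtype :=
  ⟨fun i x => by rw [add_zero]; rfl, fun x => rfl⟩

/-- morphisms into a sub-DG-module -/
theorem IsMor.codRestrict {L M : DGM G} {e : ℤ} {f : L.X →ₗ[A] M.X} (hf : IsMor L M e f)
    (U : Submodule A M.X) (h1 : ∀ i, ∀ x ∈ U, M.pr i x ∈ U) (h2 : ∀ x ∈ U, M.d x ∈ U)
    (h : ∀ x, f x ∈ U) : IsMor L (M.sub U h1 h2) e (f.codRestrict U h) :=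
  ⟨fun i x => Subtype.ext (hf.pr i x), fun x => Subtype.ext (hf.d x)⟩

/-- the projections of a quotient -/
def quoPr (M : DGM G) (U : Submodule A M.X) (h1 : ∀ i, ∀ x ∈ U, M.pr i x ∈ U) (i : ℤ) :
    (M.X ⧸ U) →+ (M.X ⧸ U) where
  toFun q := Quotient.liftOn' q (fun x => (Submodule.Quotient.mk (M.pr i x) : M.X ⧸ U)) (by
    intro x y hxy
    rw [Submodule.quotientRel_def] at hxy
    rw [Submodule.Quotient.eq, ← map_sub]
    exact h1 i _ hxy)
  map_zero' := by
    change (Submodule.Quotient.mk (M.pr i 0) : M.X ⧸ U) = 0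
    rw [map_zero]
    rfl
  map_add' := by
    intro x y
    obtain ⟨x, rfl⟩ := Submodule.Quotient.mk_surjective U x
    obtain ⟨y, rfl⟩ := Submodule.Quotient.mk_surjective U y
    change (Submodule.Quotient.mk (M.pr i (x + y)) : M.X ⧸ U) =
      Submodule.Quotient.mk (M.pr i x) + Submodule.Quotient.mk (M.pr i y)
    rw [map_add]
    rfl

theorem quoPr_mk (M : DGM G) (U : Submodule A M.X) (h1 : ∀ i, ∀ x ∈ U, M.pr i x ∈ U) (i : ℤ) (x : M.X) :
    quoPr M U h1 i (Submodule.Quotient.mk x) = Submodule.Quotient.mk (M.pr i x) := rfl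

theorem DGM.quo_hom_lift {M : DGM G} {U : Submodule A M.X} (h1 : ∀ i, ∀ x ∈ U, M.pr i x ∈ U)
    {i : ℤ} {x : M.X ⧸ U} (hx : quoPr M U h1 i x = x) :
    ∃ y : M.X, M.pr i y = y ∧ (Submodule.Quotient.mk y : M.X ⧸ U) = x := by
  obtain ⟨y, rfl⟩ := Submodule.Quotient.mk_surjective U x
  exact ⟨M.pr i y, M.pr_self i y, hx⟩

/-- The quotient by a homogeneous submodule stable under `d`. -/
@[reducible] def DGM.quo (M : DGM G) (U : Submodule A M.X) (h1 : ∀ i, ∀ x ∈ U, M.pr i x ∈ U)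
    (h2 : ∀ x ∈ U, M.d x ∈ U) : DGM G where
  X := M.X ⧸ U
  pr := quoPr M U h1
  pr_pr i j x := by
    obtain ⟨x, rfl⟩ := Submodule.Quotient.mk_surjective U x
    rw [quoPr_mk, quoPr_mk, M.pr_pr]
    by_cases h : i = j
    · rw [if_pos h, if_pos h]
    · rw [if_neg h, if_neg h]
      rfl
  fin x := by
    obtain ⟨x, rfl⟩ := Submodule.Quotient.mk_surjective U x
    obtain ⟨s, hs⟩ := M.fin x
    refine ⟨s, ?_⟩
    have h : ∑ i ∈ s, quoPr M U h1 i (Submodule.Quotient.mk x) = U.mkQ (∑ i ∈ s, M.pr i x) := by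
      rw [map_sum]
      rfl
    rw [h, hs]
    rfl
  smul := by
    intro i j a x ha hx
    obtain ⟨y, hy, rfl⟩ := DGM.quo_hom_lift h1 hx
    rw [← Submodule.Quotient.mk_smul, quoPr_mk, M.smul ha hy]
  d := U.mapQ U M.d (fun x hx => h2 x hx)
  d_hom := by
    intro i x hx
    obtain ⟨y, hy, rfl⟩ := DGM.quo_hom_lift h1 hx
    rw [Submodule.mapQ_apply, quoPr_mk, M.d_hom hy]
  d_d x := by
    obtain ⟨x, rfl⟩ := Submodule.Quotient.mk_surjective U x
    rw [Submodule.mapQ_apply, Submodule.mapQ_apply, M.d_d]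
    rfl

theorem isMor_mkQ (M : DGM G) (U : Submodule A M.X) (h1 : ∀ i, ∀ x ∈ U, M.pr i x ∈ U)
    (h2 : ∀ x ∈ U, M.d x ∈ U) : IsMor M (M.quo U h1 h2) 0 U.mkQ :=
  ⟨fun i x => by rw [add_zero]; rfl, fun x => rfl⟩

/-- morphisms from a quotient -/
theorem IsMor.liftQ {M N : DGM G} {e : ℤ} {f : M.X →ₗ[A] N.X} (hf : IsMor M N e f)
    (U : Submodule A M.X) (h1 : ∀ i, ∀ x ∈ U, M.pr i x ∈ U) (h2 : ∀ x ∈ U, M.d x ∈ U)
    (h : U ≤ LinearMap.ker f) : IsMor (M.quo U h1 h2) N e (U.liftQ f h) := by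
  constructor
  · intro i x
    obtain ⟨x, rfl⟩ := Submodule.Quotient.mk_surjective U x
    exact hf.pr i x
  · intro x
    obtain ⟨x, rfl⟩ := Submodule.Quotient.mk_surjective U x
    exact hf.d x

theorem isSES_quo (M : DGM G) (U : Submodule A M.X) (h1 : ∀ i, ∀ x ∈ U, M.pr i x ∈ U)
    (h2 : ∀ x ∈ U, M.d x ∈ U) : IsSES (M.sub U h1 h2) M (M.quo U h1 h2) U.subtype U.mkQ := by
  refine ⟨Subtype.val_injective, Submodule.mkQ_surjective U, fun x => ?_⟩
  rw [← LinearMap.mem_ker, Submodule.ker_mkQ]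
  exact ⟨fun h => ⟨⟨x, h⟩, rfl⟩, fun ⟨y, hy⟩ => hy ▸ y.2⟩

/-! kernels and ranges are stable -/

theorem IsMor.ker_pr {M N : DGM G} {e : ℤ} {f : M.X →ₗ[A] N.X} (hf : IsMor M N e f) :
    ∀ i, ∀ x ∈ LinearMap.ker f, M.pr i x ∈ LinearMap.ker f := by
  intro i x hx
  rw [LinearMap.mem_ker] at hx ⊢
  rw [← hf.pr, hx, map_zero]

theorem IsMor.ker_d {M N : DGM G} {e : ℤ} {f : M.X →ₗ[A] N.X} (hf : IsMor M N e f) :
    ∀ x ∈ LinearMap.ker f, M.d x ∈ LinearMap.ker f := by
  intro x hx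
  rw [LinearMap.mem_ker] at hx ⊢
  rw [← hf.d, hx, map_zero]

theorem IsMor.range_pr {M N : DGM G} {e : ℤ} {f : M.X →ₗ[A] N.X} (hf : IsMor M N e f) :
    ∀ i, ∀ x ∈ LinearMap.range f, N.pr i x ∈ LinearMap.range f := by
  rintro i _ ⟨x, rfl⟩
  have h := hf.pr (i - e) x
  rw [sub_add_cancel] at h
  exact ⟨_, h.symm⟩

theorem IsMor.range_d {M N : DGM G} {e : ℤ} {f : M.X →ₗ[A] N.X} (hf : IsMor M N e f) :
    ∀ x ∈ LinearMap.range f, N.d x ∈ LinearMap.range f := by
  rintro _ ⟨x, rfl⟩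
  exact ⟨_, (hf.d x).symm⟩

/-! ### sums and cones -/

/-- direct sum of two DG modules -/
@[reducible] def DGM.prod (M N : DGM G) : DGM G where
  X := M.X × N.X
  pr i := (M.pr i).prodMap (N.pr i)
  pr_pr i j x := by
    have h1 := M.pr_pr i j x.1
    have h2 := N.pr_pr i j x.2
    by_cases h : i = j
    · rw [if_pos h] at h1 h2 ⊢
      exact Prod.ext h1 h2
    · rw [if_neg h] at h1 h2 ⊢
      exact Prod.ext h1 h2
  fin x := by
    obtain ⟨s, _, hs⟩ := M.exists_support x.1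
    obtain ⟨t, _, ht⟩ := N.exists_support x.2
    refine ⟨s ∪ t, Prod.ext ?_ ?_⟩
    · rw [Prod.fst_sum]
      exact hs _ Finset.subset_union_left
    · rw [Prod.snd_sum]
      exact ht _ Finset.subset_union_right
  smul := fun ha hx => Prod.ext (M.smul ha (congrArg Prod.fst hx)) (N.smul ha (congrArg Prod.snd hx))
  d := M.d.prodMap N.d
  d_hom := fun hx => Prod.ext (M.d_hom (congrArg Prod.fst hx)) (N.d_hom (congrArg Prod.snd hx))
  d_d x := Prod.ext (M.d_d x.1) (N.d_d x.2)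

theorem isMor_inl (M N : DGM G) : IsMor M (M.prod N) 0 (LinearMap.inl A M.X N.X) :=
  ⟨fun i x => by rw [add_zero]; exact Prod.ext rfl (N.pr i).map_zero,
    fun x => Prod.ext rfl N.d.map_zero⟩

theorem isMor_inr (M N : DGM G) : IsMor N (M.prod N) 0 (LinearMap.inr A M.X N.X) :=
  ⟨fun i x => by rw [add_zero]; exact Prod.ext (M.pr i).map_zero rfl,
    fun x => Prod.ext M.d.map_zero rfl⟩

theorem isMor_fst (M N : DGM G) : IsMor (M.prod N) M 0 (LinearMap.fst A M.X N.X) :=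
  ⟨fun i x => by rw [add_zero]; rfl, fun x => rfl⟩

theorem isMor_snd (M N : DGM G) : IsMor (M.prod N) N 0 (LinearMap.snd A M.X N.X) :=
  ⟨fun i x => by rw [add_zero]; rfl, fun x => rfl⟩

theorem IsMor.prodMk {L M N : DGM G} {e : ℤ} {f : L.X →ₗ[A] M.X} {g : L.X →ₗ[A] N.X}
    (hf : IsMor L M e f) (hg : IsMor L N e g) : IsMor L (M.prod N) e (f.prod g) :=
  ⟨fun i x => Prod.ext (hf.pr i x) (hg.pr i x), fun x => Prod.ext (hf.d x) (hg.d x)⟩

theorem IsMor.coprod {L M N : DGM G} {e : ℤ} {f : L.X →ₗ[A] N.X} {g : M.X →ₗ[A] N.X}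
    (hf : IsMor L N e f) (hg : IsMor M N e g) : IsMor (L.prod M) N e (f.coprod g) :=
  ⟨fun i x => by
    change N.pr (i + e) (f x.1 + g x.2) = f (L.pr i x.1) + g (M.pr i x.2)
    rw [map_add, hf.pr, hg.pr], fun x => by
    change N.d (f x.1 + g x.2) = f (L.d x.1) + g (M.d x.2)
    rw [map_add, hf.d, hg.d]⟩

/-- The cone of a morphism `f : M → N` of degree `0`: `N ⊕ M[1]` with `d (n, m) = (d n + f m, - d m)`. -/
@[reducible] def DGM.cone (M N : DGM G) (f : M.X →ₗ[A] N.X) (hf : IsMor M N 0 f) : DGM G where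
  X := N.X × M.X
  pr i := (N.pr i).prodMap (M.pr (i + 1))
  pr_pr i j x := by
    have h1 := N.pr_pr i j x.1
    have h2 := M.pr_pr (i + 1) (j + 1) x.2
    by_cases h : i = j
    · subst h
      rw [if_pos rfl] at h1 h2 ⊢
      exact Prod.ext h1 h2
    · rw [if_neg h] at h1 ⊢
      rw [if_neg (fun h' => h (add_right_cancel h'))] at h2
      exact Prod.ext h1 h2
  fin x := by
    obtain ⟨s, _, hs⟩ := N.exists_support x.1
    obtain ⟨t, _, ht⟩ := M.exists_support x.2
    refine ⟨s ∪ t.map (addRightEmbedding (-1)), Prod.ext ?_ ?_⟩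
    · rw [Prod.fst_sum]
      exact hs _ Finset.subset_union_left
    · rw [Prod.snd_sum]
      have h := ht ((s ∪ t.map (addRightEmbedding (-1))).map (addRightEmbedding 1)) (by
        intro i hi
        rw [Finset.mem_map]
        refine ⟨i + -1, Finset.mem_union_right _ (Finset.mem_map.2 ⟨i, hi, rfl⟩), ?_⟩
        simp)
      rw [Finset.sum_map] at h
      exact h
  smul := by
    intro i j a x ha hx
    have h2 := M.smul ha (congrArg Prod.snd hx)
    rw [← add_assoc] at h2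
    exact Prod.ext (N.smul ha (congrArg Prod.fst hx)) h2
  d := (N.d.coprod f).prod (-(M.d ∘ₗ LinearMap.snd A N.X M.X))
  d_hom := by
    intro i x hx
    have h1 : N.pr i x.1 = x.1 := congrArg Prod.fst hx
    have h2 : M.pr (i + 1) x.2 = x.2 := congrArg Prod.snd hx
    refine Prod.ext ?_ ?_
    · change N.pr (i + 1) (N.d x.1 + f x.2) = N.d x.1 + f x.2
      have h3 := hf.pr (i + 1) x.2
      rw [add_zero, h2] at h3
      rw [map_add, N.d_hom h1, h3]
    · change M.pr (i + 1 + 1) (-(M.d x.2)) = -(M.d x.2)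
      rw [map_neg, M.d_hom h2]
  d_d x := by
    refine Prod.ext ?_ ?_
    · change N.d (N.d x.1 + f x.2) + f (-(M.d x.2)) = 0
      rw [map_add, N.d_d, map_neg, hf.d, zero_add, add_neg_cancel]
    · change -(M.d (-(M.d x.2))) = 0
      rw [map_neg, M.d_d, neg_zero, neg_zero]

theorem DGM.cone_d (M N : DGM G) (f : M.X →ₗ[A] N.X) (hf : IsMor M N 0 f) (x : N.X × M.X) :
    (M.cone N f hf).d x = (N.d x.1 + f x.2, -(M.d x.2)) := rfl

theorem isMor_cone_inl (M N : DGM G) (f : M.X →ₗ[A] N.X) (hf : IsMor M N 0 f) :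
    IsMor N (M.cone N f hf) 0 (LinearMap.inl A N.X M.X) := by
  refine ⟨fun i x => by rw [add_zero]; exact Prod.ext rfl (M.pr (i + 1)).map_zero, fun x => ?_⟩
  rw [DGM.cone_d]
  refine Prod.ext ?_ ?_
  · change N.d x + f 0 = N.d x
    rw [map_zero, add_zero]
  · change -(M.d 0) = 0
    rw [map_zero, neg_zero]

theorem DGM.sh_d_one (M : DGM G) : (M.sh 1).d = -M.d := by
  change (if Even (1 : ℤ) then M.d else -M.d) = -M.d
  rw [if_neg (by decide)]

theorem DGM.sh_d_even (M : DGM G) {e : ℤ} (he : Even e) : (M.sh e).d = M.d := by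
  change (if Even e then M.d else -M.d) = M.d
  rw [if_pos he]

theorem isMor_cone_snd (M N : DGM G) (f : M.X →ₗ[A] N.X) (hf : IsMor M N 0 f) :
    IsMor (M.cone N f hf) (M.sh 1) 0 (LinearMap.snd A N.X M.X) := by
  refine ⟨fun i x => by rw [add_zero]; rfl, fun x => ?_⟩
  rw [DGM.sh_d_one]
  rfl

theorem isSES_cone (M N : DGM G) (f : M.X →ₗ[A] N.X) (hf : IsMor M N 0 f) :
    IsSES N (M.cone N f hf) (M.sh 1) (LinearMap.inl A N.X M.X) (LinearMap.snd A N.X M.X) := by
  refine ⟨LinearMap.inl_injective, LinearMap.snd_surjective, fun x => ?_⟩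
  constructor
  · intro h
    exact ⟨x.1, Prod.ext rfl h.symm⟩
  · rintro ⟨y, rfl⟩
    rfl

/-- The DG module `M` with the grading shifted by `e` and the same differential (no sign). -/
@[reducible] def DGM.regr (M : DGM G) (e : ℤ) : DGM G where
  X := M.X
  pr i := M.pr (i + e)
  pr_pr i j x := by
    rw [M.pr_pr]
    by_cases h : i = j
    · rw [if_pos h, if_pos (by rw [h])]
    · rw [if_neg h, if_neg (fun h' => h (add_right_cancel h'))]
  fin x := by
    obtain ⟨s, hs⟩ := M.fin x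
    refine ⟨s.map (addRightEmbedding (-e)), ?_⟩
    rw [Finset.sum_map]
    simpa using hs
  smul := by
    intro i j a x ha hx
    rw [add_assoc]
    exact M.smul ha hx
  d := M.d
  d_hom := by
    intro i x hx
    have h := M.d_hom hx
    rw [add_right_comm] at h
    exact h
  d_d x := M.d_d x

theorem IsMor.to_regr {M N : DGM G} {e : ℤ} {f : M.X →ₗ[A] N.X} (hf : IsMor M N e f) :
    IsMor M (N.regr e) 0 f :=
  ⟨fun i x => by rw [add_zero]; exact hf.pr i x, hf.d⟩

theorem IsMor.of_regr {M N : DGM G} {e e' : ℤ} {f : M.X →ₗ[A] N.X} (hf : IsMor M N e f) :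
    IsMor (M.regr e') N (e' + e) f :=
  ⟨fun i x => by rw [← add_assoc]; exact hf.pr (i + e') x, hf.d⟩

/-- the zero DG module -/
@[reducible] def zeroM (G : Gr A) : DGM G where
  X := PUnit.{u + 1}
  pr _ := 0
  pr_pr _ _ _ := Subsingleton.elim _ _
  fin _ := ⟨∅, Subsingleton.elim _ _⟩
  smul := fun _ _ => Subsingleton.elim _ _
  d := 0
  d_hom := fun _ => Subsingleton.elim _ _
  d_d _ := rfl

/-! ### acyclic modules, trivial fibrations, ghosts -/

/-- acyclic -/
def Acy (M : DGM G) : Prop := ∀ x, M.d x = 0 → ∃ y, M.d y = x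

/-- surjective with acyclic kernel -/
def SQ (M N : DGM G) (p : M.X →ₗ[A] N.X) : Prop :=
  Function.Surjective p ∧ ∀ x, p x = 0 → M.d x = 0 → ∃ y, p y = 0 ∧ M.d y = x

/-- zero in cohomology -/
def Ghost (M N : DGM G) (g : M.X →ₗ[A] N.X) : Prop := ∀ x, M.d x = 0 → ∃ y, N.d y = g x

/-- `h` factors through an acyclic DG module (`h = 0` in the derived category) -/
def NZ (M N : DGM G) (e : ℤ) (h : M.X →ₗ[A] N.X) : Prop :=
  ∃ (Z : DGM G) (u : M.X →ₗ[A] Z.X) (v : Z.X →ₗ[A] N.X), Acy Z ∧ IsMor M Z 0 u ∧ IsMor Z N e v ∧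
    h = v ∘ₗ u

/-- composition of a sequence of maps -/
def cmp (Y : ℕ → DGM G) (γ : ∀ j, (Y j).X →ₗ[A] (Y (j + 1)).X) : ∀ g, (Y 0).X →ₗ[A] (Y g).X
  | 0 => LinearMap.id
  | g + 1 => γ g ∘ₗ cmp Y γ g

/-- The property `G_g(X)` of the blueprint, for a homogeneous element `f` of degree `m`: for every
trivial fibration `p : X' → X`, every sequence of ghosts `Y 0 → Y 1 → …` and every morphism `y : X' → Y 0`, the map
`f^g · (X' → Y 0 → Y g)` is zero in the derived category. -/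
def GP (m : ℤ) (f : A) (X : DGM G) (g : ℕ) : Prop :=
  ∀ (X' : DGM G) (e' : ℤ) (p : X'.X →ₗ[A] X.X), IsMor X' X e' p → SQ X' X p →
    ∀ (Y : ℕ → DGM G) (γ : ∀ j, (Y j).X →ₗ[A] (Y (j + 1)).X),
      (∀ j, IsMor (Y j) (Y (j + 1)) 0 (γ j)) → (∀ j, Ghost (Y j) (Y (j + 1)) (γ j)) →
      ∀ (e : ℤ) (y : X'.X →ₗ[A] (Y 0).X), IsMor X' (Y 0) e y →
        NZ X' (Y g) (e + g * m) (f ^ g • (cmp Y γ g ∘ₗ y))

end

/-! ### restriction of scalars -/

section restr

variable {R S : Type u} [CommRing R] [CommRing S] [Algebra R S] {GR : Gr R} {GS : Gr S}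

/-- the gradings are compatible -/
def Compat (GR : Gr R) (GS : Gr S) : Prop := ∀ i a, algebraMap R S (GR.c i a) = GS.c i (algebraMap R S a)

/-- restriction of scalars of DG modules (not reducible, so that the module structure over `R` is found as
`DGM.instM`) -/
def restr (h : Compat GR GS) (N : DGM GS) : DGM GR :=
  letI : Module R N.X := Module.compHom N.X (algebraMap R S)
  { X := N.X
    pr := N.pr
    pr_pr := N.pr_pr
    fin := N.fin
    smul := by
      intro i j a x ha hx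
      have h1 : GS.c i (algebraMap R S a) = algebraMap R S a := by rw [← h, ha]
      exact N.smul h1 hx
    d :=
      { toFun := N.d
        map_add' := N.d.map_add
        map_smul' := fun a x => N.d.map_smul (algebraMap R S a) x }
    d_hom := N.d_hom
    d_d := N.d_d }

/-- restriction of scalars of a linear map -/
def restrMap (h : Compat GR GS) {N N' : DGM GS} (f : N.X →ₗ[S] N'.X) :
    (restr h N).X →ₗ[R] (restr h N').X where
  toFun := f
  map_add' := f.map_add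
  map_smul' := fun a x => f.map_smul (algebraMap R S a) x

theorem restr_pr (h : Compat GR GS) (N : DGM GS) (i : ℤ) (x : N.X) :
    (restr h N).pr i (show (restr h N).X from x) = (show (restr h N).X from N.pr i x) := rfl

theorem restr_d (h : Compat GR GS) (N : DGM GS) (x : N.X) :
    (restr h N).d (show (restr h N).X from x) = (show (restr h N).X from N.d x) := rfl

/-- restriction of scalars of an exact sequence -/
theorem IsSES.restr (h : Compat GR GS) {N N' N'' : DGM GS} {f : N.X →ₗ[S] N'.X} {g : N'.X →ₗ[S] N''.X}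
    (hs : IsSES N N' N'' f g) :
    IsSES (MP8a.restr h N) (MP8a.restr h N') (MP8a.restr h N'') (restrMap h f) (restrMap h g) :=
  ⟨hs.1, hs.2.1, hs.2.2⟩

/-- restriction of scalars of a linear equivalence -/
def restrEquiv (h : Compat GR GS) {N N' : DGM GS} (e : N.X ≃ₗ[S] N'.X) :
    (restr h N).X ≃ₗ[R] (restr h N').X :=
  { restrMap h e.toLinearMap with
    invFun := e.symm
    left_inv := e.left_inv
    right_inv := e.right_inv }

theorem restr_smul (h : Compat GR GS) (N : DGM GS) (a : R) (x : (restr h N).X) :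
    a • x = ((algebraMap R S a) • (show N.X from x) : N.X) := rfl

theorem IsMor.restr (h : Compat GR GS) {N N' : DGM GS} {e : ℤ} {f : N.X →ₗ[S] N'.X}
    (hf : IsMor N N' e f) : IsMor (restr h N) (restr h N') e (restrMap h f) :=
  ⟨hf.pr, hf.d⟩

end restr

end MP8a
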