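import Pool.Agent.Lib_MP_8a48ad_gt.CIDefs

/-! # Piece CINULL: null-homotopic maps -/

set_option autoImplicit false

namespace MP8a

universe u

variable {A : Type u} [CommRing A] {G : Gr A}

theorem Null.isMor {M N : DGM G} {e : ℤ} {h : M.X →ₗ[A] N.X} (hh : Null M N e h) : IsMor M N e h := by
  obtain ⟨H, hH, hd⟩ := hh
  constructor
  · intro i x
    have h1 := N.pr_d (i + (e - 1)) (H x)
    rw [hH] at h1
    have h2 : i + (e - 1) + 1 = i + e := by ring
    rw [h2] at h1
    have h3 := hH (i + 1) (M.d x)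
    have h4 : i + 1 + (e - 1) = i + e := by ring
    rw [h4, M.pr_d] at h3
    rw [hd x, hd (M.pr i x), map_add, h1, h3]
  · intro x
    rw [hd x, hd (M.d x), map_add, N.d_d, M.d_d, map_zero, zero_add, add_zero]

theorem Null.nz {M N : DGM G} {e : ℤ} {h : M.X →ₗ[A] N.X} (hh : Null M N e h) : NZ M N e h := by
  have hm := hh.isMor
  obtain ⟨H, hH, hd⟩ := hh
  exact NZ.of_null hm H hH hd

theorem null_zero (M N : DGM G) (e : ℤ) : Null M N e 0 :=
  ⟨0, fun i x => by rw [LinearMap.zero_apply, LinearMap.zero_apply, map_zero], fun x => by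
    rw [LinearMap.zero_apply, LinearMap.zero_apply, map_zero, add_zero]⟩

theorem Null.add {M N : DGM G} {e : ℤ} {h h' : M.X →ₗ[A] N.X} (hh : Null M N e h) (hh' : Null M N e h') :
    Null M N e (h + h') := by
  obtain ⟨H, hH, hd⟩ := hh
  obtain ⟨H', hH', hd'⟩ := hh'
  refine ⟨H + H', fun i x => ?_, fun x => ?_⟩
  · rw [LinearMap.add_apply, LinearMap.add_apply, map_add, hH, hH']
  · rw [LinearMap.add_apply, LinearMap.add_apply, LinearMap.add_apply, map_add, hd, hd']
    abel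

theorem Null.neg {M N : DGM G} {e : ℤ} {h : M.X →ₗ[A] N.X} (hh : Null M N e h) : Null M N e (-h) := by
  obtain ⟨H, hH, hd⟩ := hh
  refine ⟨-H, fun i x => ?_, fun x => ?_⟩
  · rw [LinearMap.neg_apply, LinearMap.neg_apply, map_neg, hH]
  · rw [LinearMap.neg_apply, LinearMap.neg_apply, LinearMap.neg_apply, map_neg, hd]
    abel

theorem Null.sum {M N : DGM G} {e : ℤ} {ι : Type*} (s : Finset ι) (h : ι → M.X →ₗ[A] N.X)
    (hh : ∀ i ∈ s, Null M N e (h i)) : Null M N e (∑ i ∈ s, h i) :=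
  Finset.sum_induction h (fun g => Null M N e g) (fun _ _ ha hb => ha.add hb) (null_zero M N e) hh

theorem Null.smul {M N : DGM G} {e i : ℤ} {a : A} (ha : G.c i a = a) {h : M.X →ₗ[A] N.X}
    (hh : Null M N e h) : Null M N (e + i) (a • h) := by
  obtain ⟨H, hH, hd⟩ := hh
  refine ⟨a • H, fun j x => ?_, fun x => ?_⟩
  · have h1 := N.pr_smul ha (j + (e - 1)) (H x)
    have h2 : i + (j + (e - 1)) = j + (e + i - 1) := by ring
    rw [h2, hH] at h1
    rw [LinearMap.smul_apply, LinearMap.smul_apply, h1]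
  · rw [LinearMap.smul_apply, LinearMap.smul_apply, LinearMap.smul_apply, map_smul, hd, smul_add]

theorem Null.comp_left {M N L : DGM G} {e e' : ℤ} {h : M.X →ₗ[A] N.X} {g : N.X →ₗ[A] L.X}
    (hh : Null M N e h) (hg : IsMor N L e' g) : Null M L (e + e') (g ∘ₗ h) := by
  obtain ⟨H, hH, hd⟩ := hh
  refine ⟨g ∘ₗ H, fun i x => ?_, fun x => ?_⟩
  · have h1 := hg.pr (i + (e - 1)) (H x)
    have h2 : i + (e - 1) + e' = i + (e + e' - 1) := by ring
    rw [h2, hH] at h1
    rw [LinearMap.comp_apply, LinearMap.comp_apply, h1]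
  · rw [LinearMap.comp_apply, LinearMap.comp_apply, LinearMap.comp_apply, hd, map_add, hg.d]

theorem Null.comp_right {M N L : DGM G} {e e' : ℤ} {h : M.X →ₗ[A] N.X} {g : L.X →ₗ[A] M.X}
    (hh : Null M N e h) (hg : IsMor L M e' g) : Null L N (e' + e) (h ∘ₗ g) := by
  obtain ⟨H, hH, hd⟩ := hh
  refine ⟨H ∘ₗ g, fun i x => ?_, fun x => ?_⟩
  · have h1 := hH (i + e') (g x)
    have h2 : i + e' + (e - 1) = i + (e' + e - 1) := by ring
    rw [h2, hg.pr] at h1
    rw [LinearMap.comp_apply, LinearMap.comp_apply, h1]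
  · rw [LinearMap.comp_apply, LinearMap.comp_apply, LinearMap.comp_apply, hd, hg.d]

theorem Null.cast {M N : DGM G} {e e' : ℤ} {h : M.X →ₗ[A] N.X} (hh : Null M N e h) (he : e = e') :
    Null M N e' h := he ▸ hh

/-- the path module of `Z`: pairs `(z, w)` with `d (z, w) = (d z, z - d w)` -/
@[reducible] def ciPath (Z : DGM G) : DGM G where
  X := Z.X × Z.X
  pr i := (Z.pr i).prodMap (Z.pr (i + -1))
  pr_pr i j x := by
    have h1 := Z.pr_pr i j x.1
    have h2 := Z.pr_pr (i + -1) (j + -1) x.2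
    by_cases h : i = j
    · subst h
      rw [if_pos rfl] at h1 h2 ⊢
      exact Prod.ext h1 h2
    · rw [if_neg h] at h1 ⊢
      rw [if_neg (fun h' => h (add_right_cancel h'))] at h2
      exact Prod.ext h1 h2
  fin x := by
    obtain ⟨s, _, hs⟩ := Z.exists_support x.1
    obtain ⟨t, _, ht⟩ := Z.exists_support x.2
    refine ⟨s ∪ t.map (addRightEmbedding 1), Prod.ext ?_ ?_⟩
    · rw [Prod.fst_sum]
      exact hs _ Finset.subset_union_left
    · rw [Prod.snd_sum]
      have h := ht ((s ∪ t.map (addRightEmbedding 1)).map (addRightEmbedding (-1))) (by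
        intro i hi
        rw [Finset.mem_map]
        refine ⟨i + 1, Finset.mem_union_right _ (Finset.mem_map.2 ⟨i, hi, rfl⟩), ?_⟩
        simp)
      rw [Finset.sum_map] at h
      exact h
  smul := by
    intro i j a x ha hx
    have h2 := Z.smul ha (congrArg Prod.snd hx)
    rw [← add_assoc] at h2
    exact Prod.ext (Z.smul ha (congrArg Prod.fst hx)) h2
  d := (Z.d ∘ₗ LinearMap.fst A Z.X Z.X).prod
    (LinearMap.fst A Z.X Z.X - Z.d ∘ₗ LinearMap.snd A Z.X Z.X)
  d_hom := by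
    intro i x hx
    have h1 : Z.pr i x.1 = x.1 := congrArg Prod.fst hx
    have h2 : Z.pr (i + -1) x.2 = x.2 := congrArg Prod.snd hx
    refine Prod.ext ?_ ?_
    · change Z.pr (i + 1) (Z.d x.1) = Z.d x.1
      exact Z.d_hom h1
    · change Z.pr (i + 1 + -1) (x.1 - Z.d x.2) = x.1 - Z.d x.2
      have h3 := Z.d_hom h2
      have h4 : i + -1 + 1 = i := by ring
      have h5 : i + 1 + -1 = i := by ring
      rw [h4] at h3
      rw [h5, map_sub, h1, h3]
  d_d x := by
    refine Prod.ext ?_ ?_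
    · change Z.d (Z.d x.1) = 0
      exact Z.d_d x.1
    · change Z.d x.1 - Z.d (x.1 - Z.d x.2) = 0
      rw [map_sub, Z.d_d, sub_zero, sub_self]

theorem ciPath_mor (Z : DGM G) : IsMor (ciPath Z) Z 0 (LinearMap.fst A Z.X Z.X) :=
  ⟨fun i x => by rw [add_zero]; rfl, fun _ => rfl⟩

theorem ciPath_sq {Z : DGM G} (hZ : Acy Z) : SQ (ciPath Z) Z (LinearMap.fst A Z.X Z.X) := by
  refine ⟨LinearMap.fst_surjective, ?_⟩
  rintro ⟨z, w⟩ hz hd
  have hz' : z = 0 := hz
  subst hz'
  have h1 : (0 : Z.X) - Z.d w = 0 := congrArg Prod.snd hd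
  rw [zero_sub, neg_eq_zero] at h1
  obtain ⟨y, hy⟩ := hZ w h1
  refine ⟨(0, -y), rfl, ?_⟩
  refine Prod.ext ?_ ?_
  · change Z.d 0 = 0
    exact map_zero _
  · change (0 : Z.X) - Z.d (-y) = w
    rw [map_neg, hy, zero_sub, neg_neg]

/-- Maps from a cofibrant module which are zero in the derived category are null-homotopic.

PROOF. `h = v ∘ u`, `u : B → Z`, `Z` acyclic. The DG module `P = Z.X × Z.X` with components `(Z.pr i, Z.pr (i - 1))` and
`d (z, w) = (d z, z - d w)` (for instance built from `DGM.cone` of the identity by `regr`, or directly) and `p (z, w) = z` is a trivial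
fibration `P → Z` of degree `0`: its kernel consists of the `(0, w)` with `d (0, w) = (0, - d w)`, acyclic. Lift `u` to `u' : B → P` (`Cof`),
`u' x = (u x, H x)`; then `H` is homogeneous of degree `-1` and `u x = d (H x) + H (d x)`. Take `v ∘ H`. -/
theorem Cof.null {B N : DGM G} (hB : Cof B) {e : ℤ} {h : B.X →ₗ[A] N.X} (hh : NZ B N e h) :
    Null B N e h := by
  obtain ⟨Z, u, v, hZ, hu, hv, rfl⟩ := hh
  obtain ⟨u', hu', hpu⟩ := hB Z (ciPath Z) 0 (LinearMap.fst A Z.X Z.X) (ciPath_mor Z) (ciPath_sq hZ) 0 u hu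
  have key : ∀ x, (u' x).1 = u x := hpu
  refine ⟨v ∘ₗ (LinearMap.snd A Z.X Z.X ∘ₗ u'), fun i x => ?_, fun x => ?_⟩
  · have h1 : Z.pr (i + (0 - 0) + -1) (u' x).2 = (u' (B.pr i x)).2 := congrArg Prod.snd (hu'.pr i x)
    have h2 : i + (0 - 0) + -1 = i + -1 := by ring
    rw [h2] at h1
    have h3 := hv.pr (i + -1) (u' x).2
    have h4 : i + -1 + e = i + (e - 1) := by ring
    rw [h4, h1] at h3
    exact h3
  · have h1 : (u' x).1 - Z.d (u' x).2 = (u' (B.d x)).2 := congrArg Prod.snd (hu'.d x)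
    rw [key] at h1
    have h2 : u x = Z.d (u' x).2 + (u' (B.d x)).2 := by
      rw [← h1]
      abel
    have h3 := hv.d (u' x).2
    change v (u x) = N.d (v (u' x).2) + v (u' (B.d x)).2
    rw [h2, map_add, h3]

end MP8a
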