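import Pool.Agent.Lib_MP_8a48ad_gt.CIDefs

/-! # Piece CIQIS: quasi-isomorphisms can be cancelled in the derived category -/

set_option autoImplicit false

namespace MP8a

universe u

variable {A : Type u} [CommRing A] {G : Gr A}

/-- If `h ∘ w` is zero in the derived category and `w` is a quasi-isomorphism, then `h` is zero.

PROOF. `h ∘ w = v ∘ u`, `u : M' → Z` of degree `0`, `v : Z → N` of degree `a + e`, `Z` acyclic. Put `M'' = M'.regr (-a)`,
`Z'' = Z.regr (-a)`: `w : M'' → M`, `u : M'' → Z''`, `v : Z'' → N` have the degrees `0`, `0`, `e`. Let `C = M''.cone (M.prod Z'') (w.prod u)`, elements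
`((m, z), x)`, `d ((m, z), x) = ((d m + w x, d z + u x), - d x)`. `C` is acyclic: let `((m, z), x)` be a cycle; `w x = d (-m)`, so `x = d x'` (`IsQis`, first part);
`m + w x'` is a cycle, so `m + w x' = w y + d t` with `d y = 0` (second part); put `x'' = y - x'`: `- d x'' = x`, `m = d t + w x''`, and
`z - u x''` is a cycle of `Z` (`d z - u (d x'') = d z + u x = 0`), so `= d s`: `((m, z), x) = d ((t, s), x'')`.
`h = (h.coprod (-v)).comp fst ∘ inl inl`: the map `C → N`, `((m, z), x) ↦ h m - v z` is a morphism of degree `e`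
(`h (d m + w x) - v (d z + u x) = d (h m - v z)`), and `M → C`, `m ↦ ((m, 0), 0)` is a morphism of degree `0`. -/
theorem NZ.of_qis {M' M N : DGM G} {a e : ℤ} {w : M'.X →ₗ[A] M.X} (hw : IsMor M' M a w)
    (hq : IsQis M' M w) {h : M.X →ₗ[A] N.X} (hh : IsMor M N e h) (hN : NZ M' N (a + e) (h ∘ₗ w)) :
    NZ M N e h := by
  obtain ⟨Z, u, v, hZ, hu, hv, huv⟩ := hN
  have hw' : IsMor (M'.regr (-a)) M 0 w := (hw.of_regr (e' := -a)).cast (by ring)
  have hu' : IsMor (M'.regr (-a)) (Z.regr (-a)) 0 u := by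
    refine ⟨fun i x => ?_, hu.d⟩
    change Z.pr (i + 0 + -a) (u x) = u (M'.pr (i + -a) x)
    have h := hu.pr (i + -a) x
    rw [add_zero] at h ⊢
    exact h
  have hv' : IsMor (Z.regr (-a)) N e v := (hv.of_regr (e' := -a)).cast (by ring)
  have hpr : IsMor (M'.regr (-a)) (M.prod (Z.regr (-a))) 0 (w.prod u) := hw'.prodMk hu'
  have hhw : ∀ x, h (w x) = v (u x) := fun x => by
    rw [← LinearMap.comp_apply, huv, LinearMap.comp_apply]
  have hc : IsMor ((M'.regr (-a)).cone (M.prod (Z.regr (-a))) (w.prod u) hpr) N e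
      ((h.coprod (-v)) ∘ₗ LinearMap.fst A (M.X × Z.X) M'.X) := by
    refine ⟨fun i x => ?_, fun x => ?_⟩
    · change N.pr (i + e) (h x.1.1 + (-v) x.1.2) = h (M.pr i x.1.1) + (-v) ((Z.regr (-a)).pr i x.1.2)
      rw [map_add, LinearMap.neg_apply, LinearMap.neg_apply, map_neg, hh.pr, hv'.pr]
    · change N.d (h x.1.1 + (-v) x.1.2) = h (M.d x.1.1 + w x.2) + (-v) (Z.d x.1.2 + u x.2)
      rw [map_add, LinearMap.neg_apply, LinearMap.neg_apply, map_neg, hh.d, map_add h, map_add v, hhw]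
      have h1 : N.d (v x.1.2) = v (Z.d x.1.2) := hv'.d x.1.2
      rw [h1]
      abel
  have hi : IsMor M ((M'.regr (-a)).cone (M.prod (Z.regr (-a))) (w.prod u) hpr) 0
      (LinearMap.inl A (M.X × Z.X) M'.X ∘ₗ LinearMap.inl A M.X Z.X) :=
    (isMor_cone_inl _ _ _ hpr).comp0 (isMor_inl M (Z.regr (-a)))
  refine ⟨(M'.regr (-a)).cone (M.prod (Z.regr (-a))) (w.prod u) hpr, _, _, ?_, hi, hc, ?_⟩
  · rintro ⟨⟨m, z⟩, x⟩ hx
    have e1 : M.d m + w x = 0 := congrArg (fun t : (M.X × Z.X) × M'.X => t.1.1) hx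
    have e2 : Z.d z + u x = 0 := congrArg (fun t : (M.X × Z.X) × M'.X => t.1.2) hx
    have e3 : -(M'.d x) = 0 := congrArg (fun t : (M.X × Z.X) × M'.X => t.2) hx
    rw [neg_eq_zero] at e3
    obtain ⟨x', hx'⟩ := hq.1 x e3 (-m) (by
      rw [map_neg]
      exact neg_eq_of_add_eq_zero_right e1)
    obtain ⟨y, t, hy, hyt⟩ := hq.2 (m + w x') (by rw [map_add, hw.d, hx', e1])
    have hd1 : M'.d (y - x') = -x := by rw [map_sub, hy, hx', zero_sub]
    obtain ⟨s, hs⟩ := hZ (z - u (y - x')) (by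
      rw [map_sub, hu.d, hd1, map_neg, sub_neg_eq_add, e2])
    refine ⟨((t, s), y - x'), ?_⟩
    change ((M.d t + w (y - x'), Z.d s + u (y - x')), -(M'.d (y - x'))) = ((m, z), x)
    have g1 : M.d t + w (y - x') = m := by
      rw [map_sub]
      have : m = w y + M.d t - w x' := by rw [← hyt, add_sub_cancel_right]
      rw [this]
      abel
    have g2 : Z.d s + u (y - x') = z := by rw [hs, sub_add_cancel]
    rw [g1, g2, hd1, neg_neg]
  · ext x
    change h x = h x + (-v) 0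
    rw [map_zero, add_zero]

/-- `b'` between two trivial fibrations over the same module is a quasi-isomorphism. -/
theorem isQis_of_SQ {B S' S : DGM G} {e e' : ℤ} {ε : B.X →ₗ[A] S.X} (hε : IsMor B S e ε) (hεq : SQ B S ε)
    {q : S'.X →ₗ[A] S.X} (hq : IsMor S' S e' q) (hqq : SQ S' S q) {b' : B.X →ₗ[A] S'.X}
    (hb : IsMor B S' (e - e') b') (h : ∀ x, q (b' x) = ε x) : IsQis B S' b' := by
  constructor
  · intro x hx y hy
    obtain ⟨y₀, hy₀⟩ := hεq.1 (q y)
    have h1 : ε (x - B.d y₀) = 0 := by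
      rw [map_sub, ← h x, ← hy, ← hε.d, hy₀, hq.d, sub_self]
    obtain ⟨z, _, hz⟩ := hεq.2 (x - B.d y₀) h1 (by rw [map_sub, hx, B.d_d, sub_zero])
    exact ⟨y₀ + z, by rw [map_add, hz, add_sub_cancel]⟩
  · intro y hy
    obtain ⟨x₀, hx₀⟩ := hεq.1 (q y)
    have h1 : ε (B.d x₀) = 0 := by
      rw [← hε.d, hx₀, hq.d, hy, map_zero]
    obtain ⟨x₁, hx₁, hd⟩ := hεq.2 (B.d x₀) h1 (B.d_d x₀)
    have hc : B.d (x₀ - x₁) = 0 := by rw [map_sub, hd, sub_self]
    have h2 : q (y - b' (x₀ - x₁)) = 0 := by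
      rw [map_sub, h, map_sub, hx₀, hx₁, sub_zero, sub_self]
    obtain ⟨z, _, hz⟩ := hqq.2 (y - b' (x₀ - x₁)) h2 (by rw [map_sub, hy, hb.d, hc, map_zero, sub_zero])
    exact ⟨x₀ - x₁, z, hc, by rw [hz, add_sub_cancel]⟩

end MP8a
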