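import Pool.Agent.Lib_MP_8a48ad_gt.CIDefs

/-! # Piece CITENS: the cohomology of `S ⊗_k N` -/

set_option autoImplicit false

namespace MP8a

open TensorProduct

universe u

variable {k : Type u} [Field k] {n : ℕ} {R : Type u} [CommRing R]
  [Algebra R (Sn k n)] {GR : Gr R}

attribute [local instance] kMod kTower

/-- `s ↦ s ⊗ v` for a homogeneous cycle `v` of `N` is a morphism from `S` to `S ⊗_k N` of degree `δ`. -/
theorem exists_tens (hc : Compat GR (grS k n)) (N : DGM (grS k n)) {v : N.X} {δ : ℤ}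
    (hv : N.pr δ v = v) (hd : N.d v = 0) :
    ∃ T : Sn k n →ₗ[R] (restr hc (FT N)).X, IsMor (SR hc) (restr hc (FT N)) δ T ∧
      ∀ s, T s = (show (restr hc (FT N)).X from (s ⊗ₜ[k] v : (FT N).X)) := by
  let T : Sn k n →ₗ[R] (restr hc (FT N)).X :=
    { toFun := fun s => (s ⊗ₜ[k] v : Sn k n ⊗[k] N.X)
      map_add' := fun s t => TensorProduct.add_tmul s t v
      map_smul' := by
        intro a s
        have h1 : (algebraMap R (Sn k n) a) • (s ⊗ₜ[k] v : Sn k n ⊗[k] N.X) =
            (algebraMap R (Sn k n) a * s) ⊗ₜ[k] v := TensorProduct.smul_tmul' (algebraMap R (Sn k n) a) s v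
        have h2 : a • s = algebraMap R (Sn k n) a * s := Algebra.smul_def a s
        rw [h2]
        exact h1.symm }
  refine ⟨T, ⟨?_, ?_⟩, fun s => rfl⟩
  · intro i s
    have key : prT N (i + δ) (s ⊗ₜ[k] v) = ((grS k n).c i s) ⊗ₜ[k] v := by
      refine (grS k n).ind (P := fun s => prT N (i + δ) (s ⊗ₜ[k] v) = ((grS k n).c i s) ⊗ₜ[k] v)
        ?_ ?_ ?_ s
      · rw [TensorProduct.zero_tmul, map_zero, map_zero, TensorProduct.zero_tmul]
      · intro x y hx hy
        rw [TensorProduct.add_tmul, map_add, map_add, TensorProduct.add_tmul, hx, hy]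
      · intro j x hx
        rw [prT_tmul_hom N (i + δ) hx]
        by_cases hij : i = j
        · subst hij
          have h3 : i + δ - i = δ := by ring
          rw [h3, hv, hx]
        · have h3 : i + δ - j ≠ δ := fun h => hij (by linarith)
          have h4 : (grS k n).c i x = 0 := by
            rw [← hx, (grS k n).c_c, if_neg hij]
          rw [N.pr_ne hv h3, h4, TensorProduct.tmul_zero, TensorProduct.zero_tmul]
    exact key
  · intro s
    have h1 : (FT N).d (s ⊗ₜ[k] v) = s ⊗ₜ[k] N.d v := FT_d_tmul N s v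
    rw [hd, TensorProduct.tmul_zero] at h1
    have h2 : T ((SR hc).d s) = 0 := map_zero T
    rw [h2]
    exact h1

/-- the decomposition of `S ⊗_k N` by monomials -/
private noncomputable def tE (N : DGM (grS k n)) : (Sn k n ⊗[k] N.X) ≃ₗ[k] ((Fin n →₀ ℕ) →₀ N.X) :=
  (TensorProduct.congr (MvPolynomial.basisMonomials (Fin n) k).repr (LinearEquiv.refl k N.X)).trans
    (TensorProduct.finsuppScalarLeft k N.X (Fin n →₀ ℕ))

private theorem tE_tmul (N : DGM (grS k n)) (s : Sn k n) (v : N.X) (μ : Fin n →₀ ℕ) :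
    tE N (s ⊗ₜ v) μ = MvPolynomial.coeff μ s • v := by
  unfold tE
  rw [LinearEquiv.trans_apply, TensorProduct.congr_tmul,
    TensorProduct.finsuppScalarLeft_apply_tmul_apply]
  rfl

private theorem tE_d (N : DGM (grS k n)) (x : Sn k n ⊗[k] N.X) (μ : Fin n →₀ ℕ) :
    tE N ((FT N).d x) μ = N.d (tE N x μ) := by
  refine TensorProduct.induction_on (motive := fun x : Sn k n ⊗[k] N.X =>
    tE N ((FT N).d x) μ = N.d (tE N x μ)) x ?_ ?_ ?_
  · rw [map_zero, map_zero, Finsupp.zero_apply, map_zero]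
  · intro s v
    have h1 : (FT N).d (s ⊗ₜ[k] v) = s ⊗ₜ[k] N.d v := FT_d_tmul N s v
    rw [h1, tE_tmul, tE_tmul]
    exact ((dK N).map_smul _ _).symm
  · intro x y hx hy
    rw [map_add, map_add, map_add, Finsupp.add_apply, Finsupp.add_apply, map_add, hx, hy]

private theorem tE_sum (N : DGM (grS k n)) {I : Type u} (h : I → N.X) (c : I →₀ Sn k n) (μ : Fin n →₀ ℕ) :
    tE N (c.sum (fun i s => (s ⊗ₜ[k] h i : Sn k n ⊗[k] N.X))) μ =
      c.sum (fun i s => MvPolynomial.coeff μ s • h i) := by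
  unfold Finsupp.sum
  rw [map_sum, Finsupp.finsetSum_apply]
  refine Finset.sum_congr rfl fun i _ => ?_
  rw [tE_tmul]

/-- The cohomology of `S ⊗_k N`: let `h_i`, `i ∈ I`, be as in `exists_coh_basis`. Every cycle of `S ⊗_k N` is `∑ s_i ⊗ h_i + d t`, and if
`∑ s_i ⊗ h_i = d t` then all `s_i = 0`. (`S` has the basis of monomials over `k`: `S ⊗_k N` is `(Fin n →₀ ℕ) →₀ N`, `d` acts on the components.) -/
theorem tens_coh (N : DGM (grS k n)) {I : Type u} (h : I → N.X)
    (h1 : ∀ v, N.d v = 0 → ∃ (c : I →₀ k) (w : N.X), v = c.sum (fun i a => a • h i) + N.d w)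
    (h0 : ∀ i, N.d (h i) = 0)
    (h2 : ∀ (c : I →₀ k) (w : N.X), c.sum (fun i a => a • h i) = N.d w → c = 0) :
    (∀ x : (FT N).X, (FT N).d x = 0 → ∃ (c : I →₀ Sn k n) (t : (FT N).X),
      x = c.sum (fun i s => (s ⊗ₜ[k] h i : (FT N).X)) + (FT N).d t) ∧
    ∀ (c : I →₀ Sn k n) (t : (FT N).X),
      c.sum (fun i s => (s ⊗ₜ[k] h i : (FT N).X)) = (FT N).d t → c = 0 := by
  have hmr : ∀ (c : I →₀ Sn k n) (μ : Fin n →₀ ℕ),
      tE N (c.sum (fun i s => (s ⊗ₜ[k] h i : Sn k n ⊗[k] N.X))) μ =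
        (Finsupp.mapRange (MvPolynomial.coeff μ) (MvPolynomial.coeff_zero μ) c).sum (fun i a => a • h i) := by
    intro c μ
    rw [tE_sum, Finsupp.sum_mapRange_index]
    intro i
    exact zero_smul k (h i)
  constructor
  · intro x hx
    have hcyc : ∀ μ, N.d (tE N x μ) = 0 := by
      intro μ
      rw [← tE_d, hx, map_zero, Finsupp.zero_apply]
    choose c w hcw using fun μ => h1 (tE N x μ) (hcyc μ)
    classical
    let U := (tE N x).support
    let C : I →₀ Sn k n := ∑ ν ∈ U, Finsupp.mapRange (MvPolynomial.monomial ν) (map_zero _) (c ν)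
    let t : Sn k n ⊗[k] N.X := ∑ ν ∈ U, (MvPolynomial.monomial ν (1 : k) : Sn k n) ⊗ₜ[k] w ν
    have hC : ∀ μ, Finsupp.mapRange (MvPolynomial.coeff μ) (MvPolynomial.coeff_zero μ) C =
        if μ ∈ U then c μ else 0 := by
      intro μ
      ext i
      rw [Finsupp.mapRange_apply]
      have h3 : C i = ∑ ν ∈ U, (MvPolynomial.monomial ν (c ν i) : Sn k n) := by
        change (∑ ν ∈ U, Finsupp.mapRange (MvPolynomial.monomial ν) (map_zero _) (c ν) : I →₀ Sn k n) i = _
        rw [Finsupp.finsetSum_apply]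
        refine Finset.sum_congr rfl fun ν _ => ?_
        rw [Finsupp.mapRange_apply]
      rw [h3, MvPolynomial.coeff_sum]
      simp only [MvPolynomial.coeff_monomial]
      rw [Finset.sum_ite_eq']
      split_ifs <;> rfl
    have ht : ∀ μ, tE N t μ = if μ ∈ U then w μ else 0 := by
      intro μ
      change tE N (∑ ν ∈ U, (MvPolynomial.monomial ν (1 : k) : Sn k n) ⊗ₜ[k] w ν) μ = _
      rw [map_sum, Finsupp.finsetSum_apply]
      have h4 : ∀ ν ∈ U, tE N ((MvPolynomial.monomial ν (1 : k) : Sn k n) ⊗ₜ[k] w ν) μ =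
          if ν = μ then w ν else 0 := by
        intro ν _
        rw [tE_tmul, MvPolynomial.coeff_monomial]
        split_ifs
        · exact one_smul k _
        · exact zero_smul k _
      rw [Finset.sum_congr rfl h4, Finset.sum_ite_eq']
    refine ⟨C, t, ?_⟩
    apply (tE N).injective
    ext μ
    rw [map_add, Finsupp.add_apply, hmr, tE_d, hC, ht]
    by_cases hμ : μ ∈ U
    · rw [if_pos hμ, if_pos hμ]
      exact hcw μ
    · rw [if_neg hμ, if_neg hμ, Finsupp.sum_zero_index, map_zero, add_zero]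
      exact Finsupp.notMem_support_iff.1 hμ
  · intro c t hct
    have h3 : ∀ μ, Finsupp.mapRange (MvPolynomial.coeff μ) (MvPolynomial.coeff_zero μ) c = 0 := by
      intro μ
      apply h2 _ (tE N t μ)
      rw [← hmr, ← tE_d]
      exact congrArg (fun y => tE N y μ) hct
    ext i μ
    have h4 := DFunLike.congr_fun (h3 μ) i
    rw [Finsupp.mapRange_apply] at h4
    exact h4

end MP8a
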