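import Pool.Agent.Lib_MP_8a48ad_gt.CIHB
import Pool.Agent.Lib_MP_8a48ad_gt.CITens
import Pool.Agent.Lib_MP_8a48ad_gt.CINull
import Pool.Agent.Lib_MP_8a48ad_gt.CIQis

/-! # Piece CIBASE: `S`-ghosts kill `S ⊗_k N` -/

set_option autoImplicit false

namespace MP8a

open TensorProduct

universe u

variable {k : Type u} [Field k] {n : ℕ} {R : Type u} [CommRing R] [Algebra k R]
  [Algebra R (Sn k n)] {GR : Gr R}

attribute [local instance] kMod kTower

section aux

variable {A : Type u} [CommRing A] {G : Gr A}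

/-- choice in finitely supported functions -/
theorem cib_choose {I M M' : Type*} [Zero M] [Zero M'] (φ : I →₀ M) (P : M → M' → Prop)
    (h0 : P 0 0) (h : ∀ i, ∃ y, P (φ i) y) : ∃ ψ : I →₀ M', ∀ i, P (φ i) (ψ i) := by
  classical
  choose g hg using h
  refine ⟨Finsupp.onFinset φ.support (fun i => if φ i = 0 then 0 else g i) ?_, fun i => ?_⟩
  · intro i hi
    rw [Finsupp.mem_support_iff]
    intro h
    exact hi (if_pos h)
  · rw [Finsupp.onFinset_apply]
    by_cases h : φ i = 0
    · rw [if_pos h, h]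
      exact h0
    · rw [if_neg h]
      exact hg i

theorem cib_single_pr (B : DGM G) (I : Type u) (δ : I → ℤ) (j : ℤ) (i : I) (b : B.X) :
    (B.fsum I δ).pr j (Finsupp.single i b) = Finsupp.single i (B.pr (j - δ i) b) := by
  classical
  refine Finsupp.ext fun l => ?_
  rw [DGM.fsum_pr]
  by_cases h : l = i
  · subst h
    rw [Finsupp.single_eq_same, Finsupp.single_eq_same]
  · rw [Finsupp.single_eq_of_ne h, Finsupp.single_eq_of_ne h, map_zero]

theorem cib_single_d (B : DGM G) (I : Type u) (δ : I → ℤ) (i : I) (b : B.X) :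
    (B.fsum I δ).d (Finsupp.single i b) = Finsupp.single i (B.d b) := by
  classical
  refine Finsupp.ext fun l => ?_
  rw [DGM.fsum_d]
  by_cases h : l = i
  · subst h
    rw [Finsupp.single_eq_same, Finsupp.single_eq_same]
  · rw [Finsupp.single_eq_of_ne h, Finsupp.single_eq_of_ne h, map_zero]

/-- homogeneous maps from `fsum` -/
theorem cib_pr (B M : DGM G) (I : Type u) (δ : I → ℤ) (L : I → (B.X →ₗ[A] M.X)) (e : ℤ)
    (hL : ∀ i j x, M.pr (j + (δ i + e)) (L i x) = L i (B.pr j x)) (j : ℤ) (φ : I →₀ B.X) :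
    M.pr (j + e) (Finsupp.lsum ℕ L φ) = Finsupp.lsum ℕ L ((B.fsum I δ).pr j φ : I →₀ B.X) := by
  induction φ using Finsupp.induction_linear with
  | zero => rw [map_zero, map_zero, map_zero, map_zero]
  | add f g hf hg => rw [map_add, map_add, map_add, map_add, hf, hg]
  | single i b =>
    rw [cib_single_pr, Finsupp.lsum_single, Finsupp.lsum_single, ← hL]
    congr 1
    ring_nf

theorem cib_mor (B M : DGM G) (I : Type u) (δ : I → ℤ) (L : I → (B.X →ₗ[A] M.X))
    (hL : ∀ i, IsMor B M (δ i) (L i)) : IsMor (B.fsum I δ) M 0 (Finsupp.lsum ℕ L) := by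
  constructor
  · intro j φ
    exact cib_pr B M I δ L 0 (fun i j x => by rw [add_zero]; exact (hL i).pr j x) j φ
  · intro φ
    induction φ using Finsupp.induction_linear with
    | zero => rw [map_zero, map_zero, map_zero, map_zero]
    | add f g hf hg => rw [map_add, map_add, map_add, map_add, hf, hg]
    | single i b => rw [cib_single_d, Finsupp.lsum_single, Finsupp.lsum_single, (hL i).d]

/-- null-homotopic on every summand -/
theorem cib_null (B M : DGM G) (I : Type u) (δ : I → ℤ) (e : ℤ) (h : (I →₀ B.X) →ₗ[A] M.X)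
    (hh : ∀ i, Null B M (δ i + e) (h ∘ₗ Finsupp.lsingle i)) : Null (B.fsum I δ) M e h := by
  choose H hH1 hH2 using hh
  refine ⟨Finsupp.lsum ℕ H, fun j φ => ?_, fun φ => ?_⟩
  · exact cib_pr B M I δ H (e - 1) (fun i j x => by
      rw [← hH1]
      congr 1
      ring_nf) j φ
  · induction φ using Finsupp.induction_linear with
    | zero => rw [map_zero, map_zero, map_zero, map_zero, map_zero, add_zero]
    | add f g hf hg =>
      rw [map_add, map_add, map_add, map_add, map_add, hf, hg]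
      abel
    | single i b =>
      rw [cib_single_d, Finsupp.lsum_single, Finsupp.lsum_single]
      exact hH2 i b

end aux

/-- `S`-ghosts kill `S ⊗_k N`.

PROOF. Let `p : X' → S ⊗_k N` be a trivial fibration of degree `e'`, `u : Y 0 → Y 1` an `S`-ghost, `y : X' → Y 0` of degree `e`. Let `h_i` be as in
`exists_coh_basis`, `T_i : S → S ⊗ N`, `s ↦ s ⊗ h_i`, of degree `δ_i`. Lift `T_i ∘ ε : B → S ⊗ N` (degree `0 + δ_i`) along `p` to `L_i : B → X'` of degree
`δ_i - e'` (`Cof`). Put `F = B.fsum I (fun i => δ_i - e')` and `w : F → X'`, `(b_i) ↦ ∑ L_i b_i` (`Finsupp.lsum`), a morphism of degree `0`. `w` is a quasi-isomorphism: first, if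
`(b_i)` is a cycle and `∑ L_i b_i = d x` then `∑ ε(b_i) ⊗ h_i = d (p x)`, so `ε(b_i) = 0` (`tens_coh`), every `b_i` is a cycle in `ker ε`, so a boundary, and `(b_i)` is a boundary.
Second, let `x` be a cycle of `X'`: `p x = ∑ s_i ⊗ h_i + d t`, `t = p x'`, `s_i = ε(b_i)` with cycles `b_i` (`SQ`: `b_i` can be changed by an element of
`ker ε` to be a cycle, because `d b_i` is a cycle in `ker ε`); then `x - w (b_i) - d x'` is a cycle in `ker p`, so a boundary. For every `i` the map `u ∘ y ∘ L_i : B → Y 1` is zero in the derived category, because `u` is an `S`-ghost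
(apply the definition to `B`, `ε`), so it is null-homotopic (`Cof.null`) with a homotopy `H_i`; `(b_i) ↦ ∑ H_i b_i` shows that `u ∘ y ∘ w` is null-homotopic. Conclude
with `Null.nz` and `NZ.of_qis`. -/
theorem GQ_base (hS : Setup k n GR) {B : DGM GR} (hB : Cof B) {ε : B.X →ₗ[R] Sn k n}
    (hε : IsMor B (SR hS.compat) 0 ε) (hq : SQ B (SR hS.compat) ε) (N : DGM (grS k n)) :
    GQ (SR hS.compat) (restr hS.compat (FT N)) 1 := by
  intro X' e' p hp hpq Y γ hγ hgh e y hy
  have hc := hS.compat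
  obtain ⟨I, h, δ, hpr, hd, hgen, hind⟩ := exists_coh_basis N
  obtain ⟨A1, A2⟩ := tens_coh N h hgen hd hind
  have hT := fun i => exists_tens (R := R) hS.compat N (hpr i) (hd i)
  choose T hT1 hT2 using hT
  -- the cohomology of `S ⊗ N` in terms of `T`
  have hTe : (fun (i : I) (s : Sn k n) => T i s) =
      fun i s => (show (restr hS.compat (FT N)).X from (s ⊗ₜ[k] h i : (FT N).X)) :=
    funext fun i => funext fun s => hT2 i s
  have A1' : ∀ x : (restr hS.compat (FT N)).X, (restr hS.compat (FT N)).d x = 0 →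
      ∃ (c : I →₀ Sn k n) (t : (restr hS.compat (FT N)).X),
        x = c.sum (fun i s => T i s) + (restr hS.compat (FT N)).d t := by
    intro x hx
    obtain ⟨c, t, ht⟩ := A1 x hx
    refine ⟨c, t, ?_⟩
    rw [hTe]
    exact ht
  have A2' : ∀ (c : I →₀ Sn k n) (t : (restr hS.compat (FT N)).X),
      c.sum (fun i s => T i s) = (restr hS.compat (FT N)).d t → c = 0 := by
    intro c t hct
    rw [hTe] at hct
    exact A2 c t hct
  -- the lifts
  have hL := fun i => hB _ X' e' p hp hpq _ _ ((hT1 i).comp hε)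
  choose L hL1 hL2 using hL
  have hL1' : ∀ i, IsMor B X' (δ i - e') (L i) := fun i => (hL1 i).cast (by ring)
  have hw := cib_mor B X' I (fun i => δ i - e') L hL1'
  -- `p ∘ w`
  have hpw : ∀ φ : I →₀ B.X, p (Finsupp.lsum ℕ L φ) =
      (φ.mapRange ε (map_zero ε)).sum (fun i s => T i s) := by
    intro φ
    rw [Finsupp.sum_mapRange_index (fun i => map_zero (T i)), Finsupp.lsum_apply, Finsupp.sum,
      Finsupp.sum, map_sum]
    exact Finset.sum_congr rfl fun i _ => hL2 i (φ i)
  have hq1 : ∀ φ : I →₀ B.X, (B.fsum I (fun i => δ i - e')).d φ = 0 → ∀ i, B.d (φ i) = 0 := by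
    intro φ hφ i
    rw [← DGM.fsum_d B I (fun i => δ i - e'), hφ]
    rfl
  have hqis : IsQis (B.fsum I (fun i => δ i - e')) X' (Finsupp.lsum ℕ L) := by
    constructor
    · intro φ hφ x hx
      have h1 : (φ.mapRange ε (map_zero ε)) = 0 := by
        refine A2' _ (p x) ?_
        rw [← hpw, ← hx, hp.d]
      have h2 : ∀ i, ∃ z, B.d z = φ i := by
        intro i
        have h3 : ε (φ i) = 0 := by
          have h4 := DFunLike.congr_fun h1 i
          rw [Finsupp.mapRange_apply] at h4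
          exact h4
        obtain ⟨z, _, hz⟩ := hq.2 (φ i) h3 (hq1 φ hφ i)
        exact ⟨z, hz⟩
      obtain ⟨ψ, hψ⟩ := cib_choose φ (fun b z => B.d z = b) (map_zero _) h2
      refine ⟨ψ, Finsupp.ext fun i => ?_⟩
      rw [DGM.fsum_d]
      exact hψ i
    · intro x hx
      have h1 : (restr hS.compat (FT N)).d (p x) = 0 := by rw [hp.d, hx, map_zero]
      obtain ⟨c, t, hct⟩ := A1' _ h1
      obtain ⟨x', rfl⟩ := hpq.1 t
      have h2 : ∀ i, ∃ b, ε b = c i ∧ B.d b = 0 := by
        intro i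
        obtain ⟨b, hb⟩ := hq.1 (c i)
        obtain ⟨b', hb1, hb2⟩ := hq.2 (B.d b) (by
          rw [← hε.d]
          rfl) (B.d_d b)
        refine ⟨b - b', ?_, ?_⟩
        · rw [map_sub, hb, hb1, sub_zero]
        · rw [map_sub, hb2, sub_self]
      obtain ⟨φ, hφ⟩ := cib_choose c (fun s b => ε b = s ∧ B.d b = 0)
        ⟨map_zero _, map_zero _⟩ h2
      have hφc : φ.mapRange ε (map_zero ε) = c := Finsupp.ext fun i => (hφ i).1
      have hφd : (B.fsum I (fun i => δ i - e')).d φ = 0 := by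
        refine Finsupp.ext fun i => ?_
        rw [DGM.fsum_d]
        exact (hφ i).2
      obtain ⟨z, _, hz⟩ := hpq.2 (x - Finsupp.lsum ℕ L φ - X'.d x') (by
        rw [map_sub, map_sub, hpw, hφc, hct, ← hp.d]
        abel) (by
        rw [map_sub, map_sub, hx, hw.d, hφd, map_zero, X'.d_d, sub_zero, sub_zero])
      refine ⟨φ, x' + z, hφd, ?_⟩
      rw [map_add, hz]
      abel
  -- the homotopies
  have hnull : Null (B.fsum I (fun i => δ i - e')) (Y 1) e ((γ 0 ∘ₗ y) ∘ₗ Finsupp.lsum ℕ L) := by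
    refine cib_null B (Y 1) I (fun i => δ i - e') e _ fun i => ?_
    have h1 : NZ B (Y 1) (δ i - e' + e) (γ 0 ∘ₗ (y ∘ₗ L i)) :=
      hgh 0 B 0 ε hε hq _ _ (hy.comp (hL1' i))
    have h2 : ((γ 0 ∘ₗ y) ∘ₗ Finsupp.lsum ℕ L) ∘ₗ Finsupp.lsingle i = γ 0 ∘ₗ (y ∘ₗ L i) := by
      refine LinearMap.ext fun b => ?_
      rw [LinearMap.comp_apply, LinearMap.comp_apply, Finsupp.lsingle_apply, Finsupp.lsum_single]
      rfl
    rw [h2]
    exact hB.null h1
  exact NZ.of_qis hw hqis ((hγ 0).comp0 hy) (hnull.nz.cast (zero_add e).symm)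

end MP8a
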