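import Pool.Agent.Lib_MP_8a48ad_gt.CIGQ1

/-! # Piece CIGQ2: the property `GQ`: shifts, third module, Koszul steps (same proofs as in `KosStep.lean`) -/

set_option autoImplicit false

namespace MP8a

universe u

section

variable {A : Type u} [CommRing A] {G : Gr A} {P : DGM G}

theorem cigq_neg_nz {M N : DGM G} {e : ℤ} {f : M.X →ₗ[A] N.X} (hf : NZ (kossNeg M) N e f) :
    NZ M (kossNeg N) e f := by
  obtain ⟨Z, u, v, hZ, hu, hv, huv⟩ := hf
  refine ⟨kossNeg Z, u, v, ?_, ⟨hu.pr, fun x => ?_⟩, koss_neg_mor hv, huv⟩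
  · intro x hx
    have h1 : Z.d x = 0 := neg_eq_zero.1 hx
    obtain ⟨y, hy⟩ := hZ x h1
    refine ⟨-y, ?_⟩
    change -(Z.d (-y)) = x
    rw [map_neg, neg_neg, hy]
  · have h1 : Z.d (u x) = u (-(M.d x)) := hu.d x
    change -(Z.d (u x)) = u (M.d x)
    rw [h1, map_neg, neg_neg]

theorem cigq_sq_aux {C X : DGM G} {Q : C.X →ₗ[A] X.X} (hP : IsMor C X 0 Q)
    (hPq : SQ C X Q) {g : ℕ} (h : GQ P C g) : GQ P X g := by
  intro X' e' p hp hq Y γ hγ hgh e y hy
  have hp0 : IsMor X' (X.regr e') 0 p := hp.to_regr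
  have hP0 : IsMor (C.regr e') (X.regr e') 0 Q :=
    ⟨fun j x => hP.pr (j + e') x |> fun h1 => by
      rw [add_zero] at h1 ⊢
      exact h1, hP.d⟩
  have hD : IsMor (X'.prod (C.regr e')) (X.regr e') 0 (p.coprod (-Q)) := hp0.coprod hP0.neg
  have hU1 := hD.ker_pr
  have hU2 := hD.ker_d
  have hmem : ∀ x : X'.X × C.X, x ∈ LinearMap.ker (p.coprod (-Q)) ↔ p x.1 = Q x.2 := by
    intro x
    rw [LinearMap.mem_ker]
    change p x.1 + -(Q x.2) = 0 ↔ p x.1 = Q x.2
    rw [← sub_eq_add_neg, sub_eq_zero]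
  set U : Submodule A (X'.X × C.X) := LinearMap.ker (p.coprod (-Q)) with hU
  have hsub : IsMor ((X'.prod (C.regr e')).sub U hU1 hU2) (X'.prod (C.regr e')) 0 U.subtype :=
    isMor_subtype (X'.prod (C.regr e')) U hU1 hU2
  have hfst : IsMor ((X'.prod (C.regr e')).sub U hU1 hU2) X' 0
      ((LinearMap.fst A X'.X C.X) ∘ₗ U.subtype) :=
    (isMor_fst X' (C.regr e')).comp0 hsub
  have hsnd : IsMor ((X'.prod (C.regr e')).sub U hU1 hU2) C e'
      ((LinearMap.snd A X'.X C.X) ∘ₗ U.subtype) :=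
    ⟨fun _ _ => rfl, fun _ => rfl⟩
  have hSQ : SQ ((X'.prod (C.regr e')).sub U hU1 hU2) C
      ((LinearMap.snd A X'.X C.X) ∘ₗ U.subtype) := by
    constructor
    · intro n
      obtain ⟨x, hx⟩ := hq.1 (Q n)
      exact ⟨⟨(x, n), (hmem (x, n)).2 hx⟩, rfl⟩
    · intro x hx hdx
      have hx2 : x.1.2 = 0 := hx
      have hx1 : p x.1.1 = 0 := by
        rw [(hmem x.1).1 x.2, hx2, map_zero]
      have hd1 : X'.d x.1.1 = 0 := congrArg (fun z => Prod.fst (Subtype.val z)) hdx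
      obtain ⟨w, hw, hdw⟩ := hq.2 x.1.1 hx1 hd1
      refine ⟨⟨(w, 0), (hmem (w, 0)).2 ?_⟩, rfl, ?_⟩
      · change p w = Q 0
        rw [hw, map_zero]
      · apply Subtype.ext
        refine Prod.ext ?_ ?_
        · exact hdw
        · change C.d 0 = x.1.2
          rw [hx2, map_zero]
  have hSQ' : SQ ((X'.prod (C.regr e')).sub U hU1 hU2) X'
      ((LinearMap.fst A X'.X C.X) ∘ₗ U.subtype) := by
    constructor
    · intro x
      obtain ⟨n, hn⟩ := hPq.1 (p x)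
      exact ⟨⟨(x, n), (hmem (x, n)).2 hn.symm⟩, rfl⟩
    · intro x hx hdx
      have hx2 : x.1.1 = 0 := hx
      have hx1 : Q x.1.2 = 0 := by
        rw [← (hmem x.1).1 x.2, hx2, map_zero]
      have hd1 : C.d x.1.2 = 0 := congrArg (fun z => Prod.snd (Subtype.val z)) hdx
      obtain ⟨w, hw, hdw⟩ := hPq.2 x.1.2 hx1 hd1
      refine ⟨⟨(0, w), (hmem (0, w)).2 ?_⟩, rfl, ?_⟩
      · change p 0 = Q w
        rw [hw, map_zero]
      · apply Subtype.ext
        refine Prod.ext ?_ ?_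
        · change X'.d 0 = x.1.1
          rw [hx2, map_zero]
        · exact hdw
  have hNZ := h _ e' _ hsnd hSQ Y γ hγ hgh e _ (hy.comp0' hfst)
  exact koss_descend hfst hSQ' hNZ

/-- `P`-ghosts are stable under change of the sign of the differentials, if `P` has zero differential: a trivial fibration
`P' → P` is one `kossNeg P' → P`; use `koss_neg_mor`, `koss_neg_nz`. -/
theorem SGh.neg (hP : P.d = 0) {M N : DGM G} {u : M.X →ₗ[A] N.X} (h : SGh P M N u) :
    SGh P (kossNeg M) (kossNeg N) u := by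
  intro P' e' q hq hsq e y hy
  have hq' : IsMor (kossNeg P') P e' q := ⟨hq.pr, fun x => by
    have h1 : P.d (q x) = q (P'.d x) := hq.d x
    have h2 : P.d (q x) = 0 := by rw [hP]; rfl
    change P.d (q x) = q (-(P'.d x))
    rw [map_neg, ← h1, h2, neg_zero]⟩
  have hsq' : SQ (kossNeg P') P q := by
    refine ⟨hsq.1, fun x hx hdx => ?_⟩
    obtain ⟨z, hz, hdz⟩ := hsq.2 x hx (neg_eq_zero.1 hdx)
    refine ⟨-z, ?_, ?_⟩
    · rw [map_neg, hz, neg_zero]
    · change -(P'.d (-z)) = x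
      rw [map_neg, neg_neg, hdz]
  have hy' : IsMor (kossNeg P') M e y := ⟨hy.pr, fun x => by
    have h1 : -(M.d (y x)) = y (P'.d x) := hy.d x
    change M.d (y x) = y (-(P'.d x))
    rw [map_neg, ← h1, neg_neg]⟩
  exact cigq_neg_nz (h (kossNeg P') e' q hq' hsq' e y hy')

/-- Same proof as `koss_neg_GP`. -/
theorem GQ_neg (hP : P.d = 0) {X : DGM G} {g : ℕ} (h : GQ P X g) : GQ P (kossNeg X) g := by
  intro X' e' p hp hq Y γ hγ hgh e y hy
  have hp' : IsMor (kossNeg X') X e' p := ⟨hp.pr, fun x => by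
    have h1 : -(X.d (p x)) = p (X'.d x) := hp.d x
    change X.d (p x) = p (-(X'.d x))
    rw [map_neg, ← h1, neg_neg]⟩
  have hq' : SQ (kossNeg X') X p := by
    refine ⟨hq.1, fun x hx hdx => ?_⟩
    obtain ⟨z, hz, hdz⟩ := hq.2 x hx (neg_eq_zero.1 hdx)
    refine ⟨-z, ?_, ?_⟩
    · rw [map_neg, hz, neg_zero]
    · change -(X'.d (-z)) = x
      rw [map_neg, neg_neg, hdz]
  have h1 := h (kossNeg X') e' p hp' hq' (fun j => kossNeg (Y j)) γ
    (fun j => koss_neg_mor (hγ j)) (fun j => (hgh j).neg hP) e y (koss_neg_mor hy)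
  rw [koss_neg_cmp] at h1
  exact koss_neg_nz h1

theorem GQ_regr {X : DGM G} {g : ℕ} (e0 : ℤ) (h : GQ P X g) : GQ P (X.regr e0) g := by
  intro X' e' p hp hq Y γ hγ hgh e y hy
  refine h X' (e' + e0) p ⟨fun i x => ?_, hp.d⟩ hq Y γ hγ hgh e y hy
  rw [← add_assoc]
  exact hp.pr i x

theorem GQ_of_regr {X : DGM G} {g : ℕ} (e0 : ℤ) (h : GQ P (X.regr e0) g) : GQ P X g := by
  intro X' e' p hp hq Y γ hγ hgh e y hy
  refine h X' (e' - e0) p ⟨fun i x => ?_, hp.d⟩ hq Y γ hγ hgh e y hy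
  have h1 := hp.pr i x
  have h2 : i + (e' - e0) + e0 = i + e' := by ring
  change X.pr (i + (e' - e0) + e0) (p x) = p (X'.pr i x)
  rw [h2, h1]

theorem GQ_sh (hP : P.d = 0) {X : DGM G} {g : ℕ} (h : GQ P X g) : GQ P (X.sh 1) g := by
  refine GQ_iso (M := X.sh 1) (N := kossNeg (X.regr 1)) (LinearEquiv.refl A X.X) ?_
    (GQ_neg hP (GQ_regr 1 h))
  refine ⟨fun i x => by rw [add_zero]; rfl, fun x => ?_⟩
  rw [DGM.sh_d_one]
  rfl

/-- Same proof as `koss_sq`. -/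
theorem GQ_sq {C X : DGM G} {p : C.X →ₗ[A] X.X} (hp : IsMor C X 0 p)
    (hq : SQ C X p) {g : ℕ} (h : GQ P C g) : GQ P X g := by
  exact cigq_sq_aux hp hq h

/-- Same proof as `koss_third`. -/
theorem GQ_third (hP : P.d = 0) {X1 X2 X3 : DGM G} {e1 : ℤ}
    {i : X1.X →ₗ[A] X2.X} {q : X2.X →ₗ[A] X3.X} (hi : IsMor X1 X2 e1 i) (hq : IsMor X2 X3 0 q)
    (h : IsSES X1 X2 X3 i q) {g g' : ℕ} (h1 : GQ P X1 g) (h2 : GQ P X2 g') :
    GQ P X3 (g' + g) := by
  have hi' : IsMor X1 (X2.regr e1) 0 i := hi.to_regr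
  have hC : GQ P (X1.cone (X2.regr e1) i hi') (g' + g) :=
    GQ_ses (isMor_cone_inl X1 (X2.regr e1) i hi') (isMor_cone_snd X1 (X2.regr e1) i hi')
      (isSES_cone X1 (X2.regr e1) i hi') (GQ_regr e1 h2) (GQ_sh hP h1)
  refine GQ_of_regr e1 (GQ_sq (C := X1.cone (X2.regr e1) i hi') (X := X3.regr e1)
    (p := q ∘ₗ LinearMap.fst A X2.X X1.X) ?_ ?_ hC)
  · constructor
    · intro j x
      have h3 := hq.pr (j + e1) x.1
      rw [add_zero] at h3 ⊢
      exact h3
    · intro x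
      have h4 : q (i x.2) = 0 := (h.2.2 _).2 ⟨x.2, rfl⟩
      change X3.d (q x.1) = q (X2.d x.1 + i x.2)
      rw [map_add, h4, add_zero, hq.d]
  · constructor
    · intro x
      obtain ⟨z, hz⟩ := h.2.1 x
      exact ⟨(z, 0), hz⟩
    · rintro ⟨a, b⟩ hx hdx
      have hx' : q a = 0 := hx
      obtain ⟨c, hc⟩ := (h.2.2 a).1 hx'
      have hd1 : X2.d a + i b = 0 := congrArg Prod.fst hdx
      have hb : X1.d c + b = 0 := by
        apply h.1
        rw [map_add, map_zero, ← hi.d, hc, hd1]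
      refine ⟨(0, c), ?_, Prod.ext ?_ ?_⟩
      · change q 0 = 0
        rw [map_zero]
      · change X2.d 0 + i c = a
        rw [map_zero, zero_add, hc]
      · change -(X1.d c) = b
        rw [neg_eq_iff_add_eq_zero, hb]

end

variable {k : Type u} [Field k] {n : ℕ} {R : Type u} [CommRing R] [Algebra R (Sn k n)] {GR : Gr R}

/-- Same proof as `GP_kos`. -/
theorem GQ_kos {P : DGM GR} (hP : P.d = 0) (hc : Compat GR (grS k n)) (N : DGM (grS k n))
    (hF : GQ P (restr hc (FT N)) 1) : GQ P (restr hc N) (2 ^ n) := by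
  have key : ∀ j, j ≤ n → GQ P (restr hc (FQ N j)) (2 ^ j) := by
    intro j
    induction j with
    | zero =>
      intro _
      obtain ⟨e, he⟩ := FQ_zero N
      exact GQ_iso (restrEquiv hc e) (IsMor.restr hc he) hF
    | succ j ih =>
      intro hj
      obtain ⟨i, q, hi, hq, hs⟩ := FQ_ses N j (by omega)
      have h1 := ih (by omega)
      have h2 := GQ_third hP (IsMor.restr hc hi) (IsMor.restr hc hq) (IsSES.restr hc hs) h1 h1
      have h3 : 2 ^ j + 2 ^ j = 2 ^ (j + 1) := by ring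
      rwa [h3] at h2
  obtain ⟨e, he⟩ := FQ_last N
  exact GQ_iso (restrEquiv hc e) (IsMor.restr hc he) (key n le_rfl)

end MP8a
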