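import Pool.Agent.Lib_MP_8a48ad_gt.Cover

/-! # Piece LEMA1: a sequence of covers -/

set_option autoImplicit false

namespace MP8a

universe u

variable {A : Type u} [CommRing A] {G : Gr A}

/-- the sequence of objects -/
noncomputable def lema1Seq (step : {N : DGM G // FG N} → {N : DGM G // FG N})
    (M : {N : DGM G // FG N}) : ℕ → {N : DGM G // FG N}
  | 0 => M
  | j + 1 => step (lema1Seq step M j)

/-- A sequence of covers. PROOF. Iterate `exists_cover` by recursion on `{N // FG N}`; the composite `M → Y g` is injective with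
cokernel in every thick `T` containing the ring (`IsThick.comp_ses`; for `g = 0` the identity with cokernel `zeroM`; the cokernel should be chosen
independently of `T`, e.g. as the quotient of `Y g` by the range). -/
theorem exists_ghost_seq [IsNoetherianRing A] (M : DGM G) (hM : FG M) :
    ∃ (Y : ℕ → DGM G) (γ : ∀ j, (Y j).X →ₗ[A] (Y (j + 1)).X) (h0 : Y 0 = M),
      (∀ j, IsMor (Y j) (Y (j + 1)) 0 (γ j)) ∧ (∀ j, Ghost (Y j) (Y (j + 1)) (γ j)) ∧
      ∀ g (T : DGM G → Prop), IsThick T → T (regM G) →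
        ∃ (L : DGM G) (κ : (Y g).X →ₗ[A] L.X), IsMor (Y g) L 0 κ ∧
          IsSES (Y 0) (Y g) L (cmp Y γ g) κ ∧ T L := by
  choose st L ι κ h using fun N : {N : DGM G // FG N} => exists_cover N.1 N.2
  let step : {N : DGM G // FG N} → {N : DGM G // FG N} := fun N =>
    ⟨st N, (h N).2.2.2.2.1⟩
  let Z : ℕ → {N : DGM G // FG N} := lema1Seq step ⟨M, hM⟩
  let Y : ℕ → DGM G := fun j => (Z j).1
  let γ : ∀ j, (Y j).X →ₗ[A] (Y (j + 1)).X := fun j => ι (Z j)
  have hγ : ∀ j, IsMor (Y j) (Y (j + 1)) 0 (γ j) := fun j => (h (Z j)).1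
  have hc : ∀ g, IsMor (Y 0) (Y g) 0 (cmp Y γ g) := by
    intro g
    induction g with
    | zero => exact isMor_id _
    | succ g ih => exact (hγ g).comp0 ih
  refine ⟨Y, γ, rfl, hγ, fun j => (h (Z j)).2.2.2.1, ?_⟩
  intro g T hT hreg
  induction g with
  | zero =>
    refine ⟨zeroM G, 0, isMor_zero _ _ _, ⟨fun x y hxy => hxy, ?_, ?_⟩, hT.zero hreg⟩
    · intro y
      exact ⟨0, Subsingleton.elim _ _⟩
    · intro x
      exact ⟨fun _ => ⟨x, rfl⟩, fun _ => rfl⟩
  | succ g ih =>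
    obtain ⟨L1, κ1, hκ1, hs1, hT1⟩ := ih
    exact hT.comp_ses (hc g) (hγ g) hκ1 (h (Z g)).2.1 hs1 (h (Z g)).2.2.1 hT1
      ((h (Z g)).2.2.2.2.2 T hT hreg)

end MP8a
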