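import Pool.Agent.Lib_MP_8a48ad_gt.CIApx
import Pool.Agent.Lib_MP_8a48ad_gt.CIBase
import Pool.Agent.Lib_MP_8a48ad_gt.CIGQ2
import Pool.Agent.Lib_MP_8a48ad_gt.LemA2
import Pool.Agent.Lib_MP_8a48ad_gt.LemA1

/-! # Stage CI: the abstract theorem (assembled) -/

set_option autoImplicit false

namespace MP8a

universe u

section

variable {A : Type u} [CommRing A] {G : Gr A}

/-- a sequence of approximations -/
theorem exists_sgh_seq {P : DGM G} (M : DGM G) (hM : FG M)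
    (hst : ∀ N : DGM G, FG N → ∃ (M1 L : DGM G) (ι : N.X →ₗ[A] M1.X) (κ : M1.X →ₗ[A] L.X),
      IsMor N M1 0 ι ∧ IsMor M1 L 0 κ ∧ IsSES N M1 L ι κ ∧ SGh P N M1 ι ∧ FG M1 ∧
      ∀ T : DGM G → Prop, IsThick T → T P → T L) :
    ∃ (Y : ℕ → DGM G) (γ : ∀ j, (Y j).X →ₗ[A] (Y (j + 1)).X) (_ : Y 0 = M),
      (∀ j, IsMor (Y j) (Y (j + 1)) 0 (γ j)) ∧ (∀ j, SGh P (Y j) (Y (j + 1)) (γ j)) ∧
      ∀ g (T : DGM G → Prop), IsThick T → T P →
        ∃ (L : DGM G) (κ : (Y g).X →ₗ[A] L.X), IsMor (Y g) L 0 κ ∧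
          IsSES (Y 0) (Y g) L (cmp Y γ g) κ ∧ T L := by
  choose st L ι κ h using fun N : {N : DGM G // FG N} => hst N.1 N.2
  let step : {N : DGM G // FG N} → {N : DGM G // FG N} := fun N =>
    ⟨st N, (h N).2.2.2.2.1⟩
  let Z : ℕ → {N : DGM G // FG N} := lema1Seq step ⟨M, hM⟩
  let Y : ℕ → DGM G := fun j => (Z j).1
  let γ : ∀ j, (Y j).X →ₗ[A] (Y (j + 1)).X := fun j => ι (Z j)
  have hγ : ∀ j, IsMor (Y j) (Y (j + 1)) 0 (γ j) := fun j => (h (Z j)).1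
  have hc : ∀ g, IsMor (Y 0) (Y g) 0 (cmp Y γ g) := by
    intro g
    induction g with
    | zero => exact isMor_id _
    | succ g ih => exact (hγ g).comp0 ih
  refine ⟨Y, γ, rfl, hγ, fun j => (h (Z j)).2.2.2.1, ?_⟩
  intro g T hT hreg
  induction g with
  | zero =>
    refine ⟨zeroM G, 0, isMor_zero _ _ _, ⟨fun x y hxy => hxy, ?_, ?_⟩, hT.zero hreg⟩
    · intro y
      exact ⟨0, Subsingleton.elim _ _⟩
    · intro x
      exact ⟨fun _ => ⟨x, rfl⟩, fun _ => rfl⟩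
  | succ g ih =>
    obtain ⟨L1, κ1, hκ1, hs1, hT1⟩ := ih
    exact hT.comp_ses (hc g) (hγ g) hκ1 (h (Z g)).2.1 hs1 (h (Z g)).2.2.1 hT1
      ((h (Z g)).2.2.2.2.2 T hT hreg)

/-- the retract argument for a sequence of `P`-ghosts -/
theorem thick_of_sgh [IsNoetherianRing A] {P : DGM G} {T : DGM G → Prop} (hT : IsThick T) (hTP : T P)
    (hst : ∀ N : DGM G, FG N → ∃ (M1 L : DGM G) (ι : N.X →ₗ[A] M1.X) (κ : M1.X →ₗ[A] L.X),
      IsMor N M1 0 ι ∧ IsMor M1 L 0 κ ∧ IsSES N M1 L ι κ ∧ SGh P N M1 ι ∧ FG M1 ∧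
      ∀ T : DGM G → Prop, IsThick T → T P → T L) {M : DGM G} (hM : FG M) {g : ℕ} (hg : GQ P M g) :
    T M := by
  obtain ⟨Y, γ, h0, hγ, hgh, hL⟩ := exists_sgh_seq M hM hst
  subst h0
  obtain ⟨L, κ, hκ, hses, hTL⟩ := hL g T hT hTP
  have h1 := hg (Y 0) 0 LinearMap.id (isMor_id _) ⟨fun x => ⟨x, rfl⟩, fun x hx hd =>
    ⟨0, map_zero _, by
      have hx' : x = 0 := hx
      rw [hx', map_zero]⟩⟩ Y γ hγ hgh 0 LinearMap.id (isMor_id _)
  rw [LinearMap.comp_id] at h1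
  have ha : G.c 0 (1 : A) = 1 := G.one
  refine retract_arg hT (isMor_cmp Y γ hγ g) hκ hses hTL ha Even.zero ?_ ?_
  · rw [one_smul]
    exact h1
  · refine hT.acy hTP ?_
    rintro ⟨x, y⟩ hxy
    have h2 : ((Y 0).sh 0).d x + (1 : A) • y = 0 := congrArg Prod.fst hxy
    have h3 : -((Y 0).d y) = 0 := congrArg Prod.snd hxy
    refine ⟨(0, x), Prod.ext ?_ ?_⟩
    · change ((Y 0).sh 0).d 0 + (1 : A) • x = x
      rw [map_zero, zero_add, one_smul]
    · change -((Y 0).d x) = y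
      rw [DGM.sh_d_even (Y 0) Even.zero, one_smul] at h2
      exact neg_eq_of_add_eq_zero_right h2

end

variable {k : Type u} [Field k] {n : ℕ} {R : Type u} [CommRing R] [Algebra k R]
  [Algebra R (Sn k n)] {GR : Gr R}

/-- `S`-ghosts: every DG `R`-module is killed by composites of `2^n` of them. -/
theorem GQ_all (hS : Setup k n GR) {B : DGM GR} (hB : Cof B) {ε : B.X →ₗ[R] Sn k n}
    (hε : IsMor B (SR hS.compat) 0 ε) (hq : SQ B (SR hS.compat) ε) (M : DGM GR) :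
    GQ (SR hS.compat) M (2 ^ n) := by
  obtain ⟨i, r, hi, hr, h⟩ := coind_retract hS M
  exact GQ_retract hi hr h (GQ_kos rfl hS.compat (coind hS M) (GQ_base hS hB hε hq (coind hS M)))

/-- THE ABSTRACT THEOREM: if `B` is a cofibrant resolution of `S` such that all groups of morphisms `[B, M]`, `M` with finitely generated
cohomology, are finitely generated over the endomorphisms of `B`, then all such `M` are in the thick subcategory of `S`. -/
theorem thick_of_gen (hS : Setup k n GR) {B : DGM GR} (hB : Cof B) {ε : B.X →ₗ[R] Sn k n}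
    (hε : IsMor B (SR hS.compat) 0 ε) (hq : SQ B (SR hS.compat) ε)
    (hgen : ∀ M : DGM GR, FG M → ∃ (r : ℕ) (z : Fin r → (B.X →ₗ[R] M.X)) (δ : Fin r → ℤ),
      (∀ l, IsMor B M (δ l) (z l)) ∧ ∀ (e : ℤ) (y : B.X →ₗ[R] M.X), IsMor B M e y →
        ∃ θ : Fin r → (B.X →ₗ[R] B.X), (∀ l, IsMor B B (e - δ l) (θ l)) ∧
          Null B M e (y - ∑ l, z l ∘ₗ θ l))
    {T : DGM GR → Prop} (hT : IsThick T) (h : T (SR hS.compat)) {M : DGM GR} (hM : FG M) : T M := by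
  have := hS.noeth
  have := hS.fin
  have hP : FG (SR hS.compat) := FG_of_finite (M := SR hS.compat) hS.fin rfl
  refine thick_of_sgh hT h ?_ hM (GQ_all hS hB hε hq M)
  intro N hN
  obtain ⟨r, z, δ, hz, hg⟩ := hgen N hN
  exact exists_approx hε hq hB hP hN z δ hz hg

end MP8a
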