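import Pool.Agent.Lib_MP_8a48ad_gt.FGT

/-! # Piece FGS: finitely generated cohomology in short exact sequences -/

set_option autoImplicit false

namespace MP8a

universe u

variable {A : Type u} [CommRing A] {G : Gr A}

/-- submodules of the cycles are finitely generated modulo boundaries (noetherian case) -/
theorem fgs_sub [IsNoetherianRing A] {M : DGM G} (h : FG M) (U : Submodule A M.X)
    (hU : ∀ x ∈ U, M.d x = 0) : ∃ s : Finset M.X, (∀ z ∈ s, z ∈ U) ∧
      ∀ x ∈ U, ∃ y, x - M.d y ∈ Submodule.span A (s : Set M.X) := by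
  have h1 : Module.Finite A M.H := h
  exact fgt_sub M U hU (IsNoetherian.noetherian _)

/-- Two out of three (long exact sequence, `A` noetherian). PROOF (all in terms of the elementary form, or with the cohomology
modules): let `ZL`, `ZM`, `ZN` be the cycles. (ses2) `H(L) → H(M) → H(N)` is exact in the middle: the image of `H(M)` in `H(N)` is
finitely generated (noetherian), and the kernel is a quotient of `H(L)`. (ses3) `H(M) → H(N) → H(L)`: the connecting map: for a cycle `z` of `N`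
choose `x ∈ M`, `g x = z`, `d x = f y`, `y` a cycle; the submodule of pairs. (ses1) `H(N) → H(L) → H(M)`. It is convenient to use the submodule
`P = {x ∈ M | d x ∈ range f} = g⁻¹(ZN)`, the linear map `P → ZL`, `x ↦ f⁻¹ (d x)`, and `isNoetherian` of the cohomology modules
(`isNoetherian_of_surjective`, `isNoetherian_of_range_eq_ker`, …; over a noetherian ring finite = noetherian). -/
theorem FG_ses [IsNoetherianRing A] {L M N : DGM G} {f : L.X →ₗ[A] M.X} {g : M.X →ₗ[A] N.X}
    (hf : IsMor L M 0 f) (hg : IsMor M N 0 g) (h : IsSES L M N f g) :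
    (FG M → FG N → FG L) ∧ (FG L → FG N → FG M) ∧ (FG L → FG M → FG N) := by
  classical
  obtain ⟨hinj, hsurj, hex⟩ := h
  have hgf : ∀ x, g (f x) = 0 := fun x => (hex _).2 ⟨x, rfl⟩
  have hleft : ∀ {X : Type u} [AddCommGroup X] [Module A X] (S T : Finset X),
      Submodule.span A (S : Set X) ≤ Submodule.span A ((S ∪ T : Finset X) : Set X) := by
    intro X _ _ S T
    exact Submodule.span_mono (Finset.coe_subset.2 Finset.subset_union_left)
  have hright : ∀ {X : Type u} [AddCommGroup X] [Module A X] (S T : Finset X),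
      Submodule.span A (T : Set X) ≤ Submodule.span A ((S ∪ T : Finset X) : Set X) := by
    intro X _ _ S T
    exact Submodule.span_mono (Finset.coe_subset.2 Finset.subset_union_right)
  refine ⟨?_, ?_, ?_⟩
  · -- ses1
    intro hM hN
    rw [FG_iff]
    obtain ⟨t, ht, ht'⟩ := fgs_sub hM ((LinearMap.ker L.d).map f) (by
      rintro _ ⟨x, hx, rfl⟩
      rw [hf.d, LinearMap.mem_ker.1 hx, map_zero])
    obtain ⟨s, hs, hs'⟩ := (FG_iff N).1 hN
    obtain ⟨t1, ht1, hR1⟩ := fgt_rel (A := A) (X := L.X) (Y := M.X)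
      (fun l m => L.d l = 0 ∧ f l = m) ⟨map_zero _, map_zero _⟩
      (by
        rintro l m l' m' ⟨h1, rfl⟩ ⟨h1', rfl⟩
        exact ⟨by rw [map_add, h1, h1', add_zero], map_add _ _ _⟩)
      (by
        rintro a l m ⟨h1, rfl⟩
        exact ⟨by rw [map_smul, h1, smul_zero], map_smul _ _ _⟩)
      t (by
        intro z hz
        obtain ⟨x, hx, he⟩ := ht z hz
        exact ⟨x, LinearMap.mem_ker.1 hx, he⟩)
    obtain ⟨t2, ht2, hR2⟩ := fgt_rel (A := A) (X := L.X) (Y := N.X)
      (fun l n => L.d l = 0 ∧ ∃ m, g m = n ∧ M.d m = f l)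
      ⟨map_zero _, 0, map_zero _, by rw [map_zero, map_zero]⟩
      (by
        rintro l n l' n' ⟨h1, m, rfl, h2⟩ ⟨h1', m', rfl, h2'⟩
        exact ⟨by rw [map_add, h1, h1', add_zero], m + m', map_add _ _ _, by
          rw [map_add, map_add, h2, h2']⟩)
      (by
        rintro a l n ⟨h1, m, rfl, h2⟩
        exact ⟨by rw [map_smul, h1, smul_zero], a • m, map_smul _ _ _, by
          rw [map_smul, map_smul, h2]⟩)
      s (by
        intro z hz
        obtain ⟨m, rfl⟩ := hsurj z
        obtain ⟨l, hl⟩ := (hex (M.d m)).1 (by rw [← hg.d, hs _ hz])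
        refine ⟨l, hinj ?_, m, rfl, hl.symm⟩
        rw [← hf.d, hl, M.d_d, map_zero])
    refine ⟨t1 ∪ t2, ?_, ?_⟩
    · intro z hz
      rcases Finset.mem_union.1 hz with hz | hz
      · obtain ⟨_, _, h1, _⟩ := ht1 z hz
        exact h1
      · obtain ⟨_, _, h1, _⟩ := ht2 z hz
        exact h1
    · intro l hl
      obtain ⟨y, hy⟩ := ht' (f l) ⟨l, LinearMap.mem_ker.2 hl, rfl⟩
      obtain ⟨w, hw, hw0, hwf⟩ := hR1 _ hy
      have e1 : M.d y = f (l - w) := by
        rw [map_sub, hwf]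
        abel
      obtain ⟨y', hy'⟩ := hs' (g y) (by rw [hg.d, e1, hgf])
      obtain ⟨y2, rfl⟩ := hsurj y'
      obtain ⟨l', hl', hl'0, m', hm', hdm'⟩ := hR2 _ hy'
      obtain ⟨l2, hl2⟩ := (hex (y - M.d y2 - m')).1 (by
        rw [map_sub, map_sub, ← hg.d, hm', sub_self])
      refine ⟨l2, ?_⟩
      have e2 : l - L.d l2 = w + l' := by
        apply hinj
        rw [map_sub, map_add, ← hf.d, hl2, map_sub, map_sub, M.d_d, hdm', e1, map_sub]
        abel
      rw [e2]
      exact Submodule.add_mem _ (hleft t1 t2 hw) (hright t1 t2 hl')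
  · -- ses2
    intro hL hN
    rw [FG_iff]
    obtain ⟨t, ht, ht'⟩ := fgs_sub hN ((LinearMap.ker M.d).map g) (by
      rintro _ ⟨x, hx, rfl⟩
      rw [hg.d, LinearMap.mem_ker.1 hx, map_zero])
    obtain ⟨s, hs, hs'⟩ := (FG_iff L).1 hL
    obtain ⟨t1, ht1, hR1⟩ := fgt_rel (A := A) (X := M.X) (Y := N.X)
      (fun l m => M.d l = 0 ∧ g l = m) ⟨map_zero _, map_zero _⟩
      (by
        rintro l m l' m' ⟨h1, rfl⟩ ⟨h1', rfl⟩
        exact ⟨by rw [map_add, h1, h1', add_zero], map_add _ _ _⟩)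
      (by
        rintro a l m ⟨h1, rfl⟩
        exact ⟨by rw [map_smul, h1, smul_zero], map_smul _ _ _⟩)
      t (by
        intro z hz
        obtain ⟨x, hx, he⟩ := ht z hz
        exact ⟨x, LinearMap.mem_ker.1 hx, he⟩)
    obtain ⟨t2, ht2, hR2⟩ := fgt_rel (A := A) (X := M.X) (Y := L.X) (fun m l => m = f l)
      (map_zero f).symm (fun n m n' m' h h' => by rw [h, h', map_add])
      (fun a n m h => by rw [h, map_smul]) s (fun z _ => ⟨f z, rfl⟩)
    refine ⟨t1 ∪ t2, ?_, ?_⟩
    · intro z hz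
      rcases Finset.mem_union.1 hz with hz | hz
      · obtain ⟨_, _, h1, _⟩ := ht1 z hz
        exact h1
      · obtain ⟨w, hw, rfl⟩ := ht2 z hz
        rw [hf.d, hs w hw, map_zero]
    · intro x hx
      obtain ⟨y, hy⟩ := ht' (g x) ⟨x, LinearMap.mem_ker.2 hx, rfl⟩
      obtain ⟨w, hw, hw0, hwg⟩ := hR1 _ hy
      obtain ⟨y2, rfl⟩ := hsurj y
      obtain ⟨l, hl⟩ := (hex (x - M.d y2 - w)).1 (by
        rw [map_sub, map_sub, ← hg.d, hwg, sub_self])
      obtain ⟨y3, hy3⟩ := hs' l (by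
        apply hinj
        rw [← hf.d, hl, map_sub, map_sub, M.d_d, hx, hw0, map_zero, sub_zero, sub_zero])
      obtain ⟨v, hv, hv2⟩ := hR2 _ hy3
      refine ⟨y2 + f y3, ?_⟩
      have e2 : x - M.d (y2 + f y3) = w + v := by
        rw [hv2, map_sub, hl, map_add, hf.d]
        abel
      rw [e2]
      exact Submodule.add_mem _ (hleft t1 t2 hw) (hright t1 t2 hv)
  · -- ses3
    intro hL hM
    rw [FG_iff]
    obtain ⟨t, ht, ht'⟩ := fgs_sub hL ((LinearMap.range M.d).comap f) (by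
      rintro x ⟨m, hm⟩
      apply hinj
      rw [← hf.d, ← hm, M.d_d, map_zero])
    obtain ⟨s, hs, hs'⟩ := (FG_iff M).1 hM
    obtain ⟨t1, ht1, hR1⟩ := fgt_rel (A := A) (X := N.X) (Y := L.X)
      (fun n l => ∃ m, M.d m = f l ∧ g m = n) ⟨0, by rw [map_zero, map_zero], map_zero _⟩
      (by
        rintro n l n' l' ⟨m, h1, rfl⟩ ⟨m', h1', rfl⟩
        exact ⟨m + m', by rw [map_add, map_add, h1, h1'], map_add _ _ _⟩)
      (by
        rintro a n l ⟨m, h1, rfl⟩
        exact ⟨a • m, by rw [map_smul, map_smul, h1], map_smul _ _ _⟩)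
      t (by
        intro z hz
        obtain ⟨m, hm⟩ := ht z hz
        exact ⟨g m, m, hm, rfl⟩)
    obtain ⟨t2, ht2, hR2⟩ := fgt_rel (A := A) (X := N.X) (Y := M.X) (fun n m => n = g m)
      (map_zero g).symm (fun n m n' m' h h' => by rw [h, h', map_add])
      (fun a n m h => by rw [h, map_smul]) s (fun z _ => ⟨g z, rfl⟩)
    refine ⟨t1 ∪ t2, ?_, ?_⟩
    · intro z hz
      rcases Finset.mem_union.1 hz with hz | hz
      · obtain ⟨l, _, m, h1, rfl⟩ := ht1 z hz
        rw [hg.d, h1, hgf]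
      · obtain ⟨w, hw, rfl⟩ := ht2 z hz
        rw [hg.d, hs w hw, map_zero]
    · intro n hn
      obtain ⟨m, rfl⟩ := hsurj n
      obtain ⟨l, hl⟩ := (hex (M.d m)).1 (by rw [← hg.d, hn])
      obtain ⟨y, hy⟩ := ht' l ⟨m, hl.symm⟩
      obtain ⟨w, hw, m2, hm2, rfl⟩ := hR1 _ hy
      obtain ⟨y2, hy2⟩ := hs' (m - f y - m2) (by
        rw [map_sub, map_sub, hm2, ← hl, hf.d, map_sub]
        abel)
      obtain ⟨v, hv, hv2⟩ := hR2 _ hy2
      refine ⟨g y2, ?_⟩
      have e2 : g m - N.d (g y2) = g m2 + v := by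
        rw [hv2, map_sub, map_sub, map_sub, hgf, ← hg.d]
        abel
      rw [e2]
      exact Submodule.add_mem _ (hleft t1 t2 hw) (hright t1 t2 hv)

theorem isThick_FG [IsNoetherianRing A] : IsThick (FG (G := G)) where
  qis := fun _ _ _ hf h => FG_qis hf h
  sh := fun _ e h => FG_sh h e
  ses1 := fun _ _ _ _ _ hf hg h => (FG_ses hf hg h).1
  ses2 := fun _ _ _ _ _ hf hg h => (FG_ses hf hg h).2.1
  ses3 := fun _ _ _ _ _ hf hg h => (FG_ses hf hg h).2.2
  retr := fun _ _ _ _ hi hr h => FG_retr hi hr h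

/-- a finitely generated module with zero differential -/
theorem FG_of_finite {M : DGM G} (h : Module.Finite A M.X) (hd : M.d = 0) : FG M := by
  obtain ⟨s, hs⟩ := h.fg_top
  rw [FG_iff]
  refine ⟨s, fun z _ => by rw [hd, LinearMap.zero_apply], fun x _ => ⟨0, ?_⟩⟩
  rw [map_zero, sub_zero, hs]
  trivial

end MP8a
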