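import Pool.Agent.Lib_MP_8a48ad_gt.CINull
import Pool.Agent.Lib_MP_8a48ad_gt.CIQis
import Pool.Agent.Lib_MP_8a48ad_gt.FGS

/-! # Piece CIAPX: finite approximations by `B` -/

set_option autoImplicit false

namespace MP8a

universe u

variable {A : Type u} [CommRing A] {G : Gr A}

/-- the sign of a degree -/
def apxS (i : ℤ) : ℤ := if Even i then 1 else -1

theorem apx_sq (i : ℤ) : apxS i * apxS i = 1 := by
  unfold apxS
  split_ifs <;> rfl

theorem apx_add_one (i : ℤ) : apxS (i + 1) = -apxS i := by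
  unfold apxS
  by_cases h : Even i
  · rw [if_pos h, if_neg (by rw [Int.even_add_one]; exact not_not.2 h)]
  · rw [if_neg h, if_pos (by rw [Int.even_add_one]; exact h), neg_neg]

theorem apx_even_add {i : ℤ} (h : Even i) (j : ℤ) : apxS (i + j) = apxS j := by
  unfold apxS
  by_cases hj : Even j
  · rw [if_pos (h.add hj), if_pos hj]
  · rw [if_neg (fun h' => hj ((Int.even_add.1 h').1 h)), if_neg hj]

theorem apx_finite (M : DGM G) (x : M.X) :
    (Function.support fun i : ℤ => apxS i • M.pr i x).Finite := by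
  obtain ⟨s, hs, _⟩ := M.exists_support x
  refine s.finite_toSet.subset fun i hi => ?_
  by_contra h
  apply hi
  change apxS i • M.pr i x = 0
  rw [hs i h, smul_zero]

/-- `x ↦ (-1)^i x` for `x` of degree `i`, as an additive map -/
noncomputable def apxA (M : DGM G) : M.X →+ M.X where
  toFun x := ∑ᶠ i : ℤ, apxS i • M.pr i x
  map_zero' := by simp
  map_add' x y := by
    rw [← finsum_add_distrib (apx_finite M x) (apx_finite M y)]
    refine finsum_congr fun i => ?_
    rw [map_add, smul_add]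

theorem apxA_hom (M : DGM G) {i : ℤ} {x : M.X} (hx : M.pr i x = x) : apxA M x = apxS i • x := by
  change ∑ᶠ j : ℤ, apxS j • M.pr j x = apxS i • x
  rw [finsum_eq_single _ i fun j hj => by rw [M.pr_ne hx hj, smul_zero], hx]

/-- `x ↦ (-1)^i x` for `x` of degree `i` -/
noncomputable def apxSgn (M : DGM G) : M.X →ₗ[A] M.X where
  toFun := apxA M
  map_add' := map_add (apxA M)
  map_smul' := by
    intro a x
    rw [RingHom.id_apply]
    refine G.ind (P := fun a => apxA M (a • x) = a • apxA M x) (by simp) ?_ ?_ a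
    · intro a b ha hb
      rw [add_smul, map_add, ha, hb, add_smul]
    · intro i a ha
      refine M.ind (P := fun x => apxA M (a • x) = a • apxA M x) (by simp) ?_ ?_ x
      · intro x y hx hy
        rw [smul_add, map_add, hx, hy, map_add, smul_add]
      · intro j x hx
        by_cases hi : Even i
        · rw [apxA_hom M (M.smul ha hx), apxA_hom M hx, apx_even_add hi, smul_comm]
        · have h0 : a = 0 := by
            rw [← ha]
            exact G.odd (Int.not_even_iff_odd.1 hi) a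
          rw [h0, zero_smul, zero_smul, map_zero]

theorem apx_hom (M : DGM G) {i : ℤ} {x : M.X} (hx : M.pr i x = x) : apxSgn M x = apxS i • x :=
  apxA_hom M hx

theorem apx_apx (M : DGM G) (x : M.X) : apxSgn M (apxSgn M x) = x := by
  refine M.ind (P := fun x => apxSgn M (apxSgn M x) = x) (by simp) ?_ ?_ x
  · intro x y hx hy
    rw [map_add, map_add, hx, hy]
  · intro i x hx
    rw [apx_hom M hx, map_zsmul, apx_hom M hx, smul_smul, apx_sq, one_smul]

theorem apx_pr (M : DGM G) (i : ℤ) (x : M.X) : M.pr i (apxSgn M x) = apxSgn M (M.pr i x) := by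
  refine M.ind (P := fun x => M.pr i (apxSgn M x) = apxSgn M (M.pr i x)) (by simp) ?_ ?_ x
  · intro x y hx hy
    rw [map_add, map_add, map_add, map_add, hx, hy]
  · intro j x hx
    rw [apx_hom M hx, map_zsmul]
    by_cases h : i = j
    · subst h
      rw [hx, apx_hom M hx]
    · rw [M.pr_ne hx h, smul_zero, map_zero]

theorem apx_d (M : DGM G) (x : M.X) : M.d (apxSgn M x) = -apxSgn M (M.d x) := by
  refine M.ind (P := fun x => M.d (apxSgn M x) = -apxSgn M (M.d x)) (by simp) ?_ ?_ x
  · intro x y hx hy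
    rw [map_add, map_add, map_add, map_add, hx, hy]
    abel
  · intro j x hx
    rw [apx_hom M hx, map_zsmul, apx_hom M (M.d_hom hx), apx_add_one, neg_smul, neg_neg]

/-- a thick class is closed under regrading -/
private theorem apx_regr {T : DGM G → Prop} (hT : IsThick T) {B : DGM G} (hB : T B) (e : ℤ) :
    T (B.regr e) := by
  by_cases he : Even e
  · refine (hT.iso (M := B.regr e) (N := B.sh e) (LinearEquiv.refl A B.X) ⟨fun i x => ?_, fun x => ?_⟩).2
      (hT.sh B e hB)
    · rw [add_zero]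
      rfl
    · rw [DGM.sh_d_even B he]
      rfl
  · let s : (B.regr e).X ≃ₗ[A] (B.sh e).X :=
      LinearEquiv.ofLinearMap (apxSgn B) (apxSgn B) (LinearMap.ext fun x => apx_apx B x)
        (LinearMap.ext fun x => apx_apx B x)
    refine (hT.iso (M := B.regr e) (N := B.sh e) s ⟨fun i x => ?_, fun x => ?_⟩).2 (hT.sh B e hB)
    · rw [add_zero]
      exact apx_pr B (i + e) x
    · change (if Even e then B.d else -B.d) (apxSgn B x) = apxSgn B (B.d x)
      rw [if_neg he, LinearMap.neg_apply, apx_d, neg_neg]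

/-- For a finite family of morphisms `z_l : B → M` of degrees `ε_l` there is a finite sum `F` of shifts of `B` and `f : F → M` of degree `0` through which all `z_l` factor.
PROOF. Induction on the number of maps, `F' = F.prod (B.regr (-ε))`, `f.coprod z` (see `exists_free_cover`). `T (B.regr e)`: if `e` is even it is `B.sh e`; if `e` is odd, `B.regr e` is
isomorphic to `B.sh e` by the map which is `(-1)^i` on the component of degree `i` (or: avoid signs by proving that `T` is stable under `regr` from `IsThick.sh` and this isomorphism). -/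
theorem exists_sum_cover (B M : DGM G) (r : ℕ) (z : Fin r → (B.X →ₗ[A] M.X)) (ε : Fin r → ℤ)
    (hz : ∀ l, IsMor B M (ε l) (z l)) : ∃ (F : DGM G) (f : F.X →ₗ[A] M.X) (j : Fin r → (B.X →ₗ[A] F.X)),
      IsMor F M 0 f ∧ (∀ l, IsMor B F (ε l) (j l)) ∧ (∀ l x, f (j l x) = z l x) ∧
      ∀ T : DGM G → Prop, IsThick T → T B → T F := by

  induction r with
  | zero =>
    exact ⟨zeroM G, 0, fun l => l.elim0, isMor_zero _ _ _, fun l => l.elim0, fun l => l.elim0,
      fun T hT hB => hT.zero hB⟩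
  | succ r ih =>
    obtain ⟨F, f, j, hf, hj, hfj, hT⟩ := ih (fun l => z l.castSucc) (fun l => ε l.castSucc)
      (fun l => hz l.castSucc)
    have hlast : IsMor (B.regr (-(ε (Fin.last r)))) M 0 (z (Fin.last r)) :=
      (hz (Fin.last r)).of_regr.cast (neg_add_cancel _)
    let j' : Fin (r + 1) → (B.X →ₗ[A] (F.X × B.X)) :=
      Fin.lastCases (motive := fun _ => B.X →ₗ[A] (F.X × B.X)) (LinearMap.inr A F.X B.X)
        (fun l => LinearMap.inl A F.X B.X ∘ₗ j l)
    have hj1 : j' (Fin.last r) = LinearMap.inr A F.X B.X := Fin.lastCases_last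
    have hj2 : ∀ l : Fin r, j' l.castSucc = LinearMap.inl A F.X B.X ∘ₗ j l :=
      fun l => Fin.lastCases_castSucc l
    refine ⟨F.prod (B.regr (-(ε (Fin.last r)))), f.coprod (z (Fin.last r)), j',
      hf.coprod hlast, ?_, ?_, ?_⟩
    · intro l
      induction l using Fin.lastCases with
      | last =>
        rw [hj1]
        refine ⟨fun i x => Prod.ext ?_ ?_, fun x => Prod.ext ?_ ?_⟩
        · change F.pr (i + ε (Fin.last r)) 0 = 0
          rw [map_zero]
        · change B.pr (i + ε (Fin.last r) + -(ε (Fin.last r))) x = B.pr i x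
          rw [add_neg_cancel_right]
        · change F.d 0 = 0
          rw [map_zero]
        · rfl
      | cast l =>
        rw [hj2]
        exact (isMor_inl F (B.regr (-(ε (Fin.last r))))).comp0 (hj l)
    · intro l x
      induction l using Fin.lastCases with
      | last =>
        rw [hj1]
        change f 0 + z (Fin.last r) x = z (Fin.last r) x
        rw [map_zero, zero_add]
      | cast l =>
        rw [hj2]
        change f (j l x) + z (Fin.last r) 0 = z l.castSucc x
        rw [map_zero, add_zero, hfj]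
    · intro T hT' hB
      exact hT'.prod (hT T hT' hB) (apx_regr hT' hB _)

/-- APPROXIMATION. Let `ε : B → P` be a trivial fibration, `B` cofibrant, and let finitely many `z_l : B → M` generate all morphisms `B → M` over the endomorphisms of `B`, up to
homotopy. Then there is a `P`-ghost `ι : M → M1` which is injective with cokernel in the thick subcategory of `P`.

PROOF. Let `F`, `f` be as in `exists_sum_cover`, `M1 = F.cone M f`, `ι = inl`, `L = F.sh 1` (see `exists_cover`); `T P → T B` because `ε` is a quasi-isomorphism (`SQ.isQis`).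
`ι` is a `P`-ghost: let `q : P' → P` be a trivial fibration of degree `e'` and `y : P' → M` of degree `e`. Lift `ε` along `q` to `b' : B → P'` of degree `0 - e'` (`Cof`). By hypothesis
`y ∘ b' = ∑ z_l θ_l + Null`. The map `ι ∘ f : F → M1` is `Null` (`x ↦ (0, x)`), so `ι ∘ z_l = ι ∘ f ∘ j_l` is `Null`, and `ι ∘ y ∘ b'` is `Null`. `b'` is a quasi-isomorphism
(`isQis_of_SQ`), so `ι ∘ y` is `NZ` by `NZ.of_qis`. -/
theorem exists_approx [IsNoetherianRing A] {P B M : DGM G} {ε : B.X →ₗ[A] P.X} (hε : IsMor B P 0 ε)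
    (hq : SQ B P ε) (hB : Cof B) (hP : FG P) (hM : FG M) {r : ℕ} (z : Fin r → (B.X →ₗ[A] M.X))
    (δ : Fin r → ℤ) (hz : ∀ l, IsMor B M (δ l) (z l))
    (hgen : ∀ (e : ℤ) (y : B.X →ₗ[A] M.X), IsMor B M e y → ∃ θ : Fin r → (B.X →ₗ[A] B.X),
      (∀ l, IsMor B B (e - δ l) (θ l)) ∧ Null B M e (y - ∑ l, z l ∘ₗ θ l)) :
    ∃ (M1 L : DGM G) (ι : M.X →ₗ[A] M1.X) (κ : M1.X →ₗ[A] L.X), IsMor M M1 0 ι ∧ IsMor M1 L 0 κ ∧
      IsSES M M1 L ι κ ∧ SGh P M M1 ι ∧ FG M1 ∧ ∀ T : DGM G → Prop, IsThick T → T P → T L := by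
  obtain ⟨F, f, j, hf, hj, hfj, hT⟩ := exists_sum_cover B M r z δ hz
  have hB' : FG B := (isThick_FG.qis _ _ _ hε (hq.isQis hε)).2 hP
  have hF : FG F := hT FG isThick_FG hB'
  refine ⟨F.cone M f hf, F.sh 1, LinearMap.inl A M.X F.X, LinearMap.snd A M.X F.X,
    isMor_cone_inl F M f hf, isMor_cone_snd F M f hf, isSES_cone F M f hf, ?_, ?_, ?_⟩
  · intro P' e' q hq1 hq2 e y hy
    obtain ⟨b', hb', hqb⟩ := hB P P' e' q hq1 hq2 0 ε hε
    have hqis : IsQis B P' b' := isQis_of_SQ hε hq hq1 hq2 hb' hqb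
    have hyb : IsMor B M (0 - e' + e) (y ∘ₗ b') := hy.comp hb'
    obtain ⟨θ, hθ, hN⟩ := hgen _ (y ∘ₗ b') hyb
    have h1 : Null B (F.cone M f hf) (0 - e' + e)
        (LinearMap.inl A M.X F.X ∘ₗ (y ∘ₗ b' - ∑ l, z l ∘ₗ θ l)) :=
      (Null.comp_left hN (isMor_cone_inl F M f hf)).cast (add_zero _)
    have h2 : Null B (F.cone M f hf) (0 - e' + e) (∑ l, LinearMap.inl A M.X F.X ∘ₗ (z l ∘ₗ θ l)) := by
      refine Null.sum _ _ fun l _ => ?_
      have hjθ : IsMor B F (0 - e' + e) (j l ∘ₗ θ l) := ((hj l).comp (hθ l)).cast (sub_add_cancel _ _)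
      refine ⟨LinearMap.inr A M.X F.X ∘ₗ (j l ∘ₗ θ l), fun i x => Prod.ext ?_ ?_, fun x => ?_⟩
      · change M.pr (i + ((0 - e' + e) - 1)) 0 = 0
        rw [map_zero]
      · change F.pr (i + ((0 - e' + e) - 1) + 1) ((j l ∘ₗ θ l) x) = (j l ∘ₗ θ l) (B.pr i x)
        have h3 : i + ((0 - e' + e) - 1) + 1 = i + (0 - e' + e) := by ring
        rw [h3, hjθ.pr]
      · rw [DGM.cone_d]
        refine Prod.ext ?_ ?_
        · change z l (θ l x) = M.d 0 + f (j l (θ l x)) + 0
          rw [map_zero, zero_add, add_zero, hfj]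
        · change 0 = -(F.d ((j l ∘ₗ θ l) x)) + (j l ∘ₗ θ l) (B.d x)
          rw [hjθ.d, neg_add_cancel]
    have h4 : LinearMap.inl A M.X F.X ∘ₗ (y ∘ₗ b') =
        LinearMap.inl A M.X F.X ∘ₗ (y ∘ₗ b' - ∑ l, z l ∘ₗ θ l) +
        ∑ l, LinearMap.inl A M.X F.X ∘ₗ (z l ∘ₗ θ l) := by
      have h5 : ∑ l, LinearMap.inl A M.X F.X ∘ₗ (z l ∘ₗ θ l) =
          LinearMap.inl A M.X F.X ∘ₗ ∑ l, z l ∘ₗ θ l := by
        refine LinearMap.ext fun x => ?_
        rw [LinearMap.sum_apply, LinearMap.comp_apply, LinearMap.sum_apply, map_sum]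
        rfl
      rw [h5, ← LinearMap.comp_add, sub_add_cancel]
    have h6 : NZ B (F.cone M f hf) (0 - e' + e) ((LinearMap.inl A M.X F.X ∘ₗ y) ∘ₗ b') := by
      rw [LinearMap.comp_assoc, h4]
      exact (h1.add h2).nz
    exact NZ.of_qis hb' hqis ((isMor_cone_inl F M f hf).comp0 hy) h6
  · exact (FG_ses (isMor_cone_inl F M f hf) (isMor_cone_snd F M f hf)
      (isSES_cone F M f hf)).2.1 hM (FG_sh hF 1)
  · intro T hT' hP'
    exact hT'.sh _ _ (hT T hT' ((hT'.qis _ _ _ hε (hq.isQis hε)).2 hP'))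

end MP8a
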