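import Pool.Agent.Lib_MP_8a48ad_gt.CIDefs

/-! # Piece CICOF: semifree modules are cofibrant -/

set_option autoImplicit false

namespace MP8a

universe u

variable {A : Type u} [CommRing A] {G : Gr A}

/-- Linear maps defined on a homogeneous basis: homogeneity can be checked on the basis. (`M.pr` of a linear combination of basis elements: `DGM.pr_smul'` after
decomposing the coefficients by `Gr.ind`.) -/
theorem SFree.hom_ext {B N : DGM G} (s : SFree B) {e : ℤ} {f : B.X →ₗ[A] N.X}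
    (h : ∀ i, N.pr (s.deg i + e) (f (s.b i)) = f (s.b i)) (i : ℤ) (x : B.X) :
    N.pr (i + e) (f x) = f (B.pr i x) := by
  have hx : x ∈ Submodule.span A (Set.range s.b) := s.b.mem_span x
  revert i
  induction hx using Submodule.span_induction with
  | mem x hx =>
    obtain ⟨j, rfl⟩ := hx
    intro i
    by_cases hij : i = s.deg j
    · subst hij
      rw [h j, s.pr j]
    · rw [B.pr_ne (s.pr j) hij, map_zero]
      exact N.pr_ne (h j) (fun h' => hij (add_right_cancel h'))
  | zero =>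
    intro i
    simp
  | add x y _ _ hx hy =>
    intro i
    rw [map_add, map_add, map_add, map_add, hx, hy]
  | smul a x _ hx =>
    intro i
    refine G.ind (P := fun a => N.pr (i + e) (f (a • x)) = f (B.pr i (a • x))) ?_ ?_ ?_ a
    · simp
    · intro a b ha hb
      rw [add_smul, map_add, map_add, map_add, map_add, ha, hb]
    · intro l a ha
      rw [map_smul, N.pr_smul' ha, B.pr_smul' ha, map_smul]
      have h2 : i + e - l = i - l + e := by ring
      rw [h2, hx]

private theorem cicof_start {B X X' : DGM G} (s : SFree B) {e e' : ℤ} {p : X'.X →ₗ[A] X.X}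
    (hp : IsMor X' X e' p) (hs : SQ X' X p) {b : B.X →ₗ[A] X.X} (hb : IsMor B X e b) :
    ∃ f : B.X →ₗ[A] X'.X, (∀ i, X'.pr (s.deg i + (e - e')) (f (s.b i)) = f (s.b i)) ∧
      (∀ i, p (f (s.b i)) = b (s.b i)) := by
  choose ξ hξ using fun i => hs.1 (b (s.b i))
  refine ⟨s.b.constr A (fun i => X'.pr (s.deg i + (e - e')) (ξ i)), fun i => ?_, fun i => ?_⟩
  · rw [Module.Basis.constr_basis, X'.pr_self]
  · rw [Module.Basis.constr_basis, ← hp.pr, hξ]
    have h2 : s.deg i + (e - e') + e' = s.deg i + e := by ring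
    rw [h2, hb.pr, s.pr]

private theorem cicof_eqOn {B N : DGM G} (s : SFree B) {f g : B.X →ₗ[A] N.X} {r : ℕ}
    (h : ∀ i, s.rk i < r → f (s.b i) = g (s.b i)) {x : B.X}
    (hx : x ∈ Submodule.span A (s.b '' {j | s.rk j < r})) : f x = g x := by
  induction hx using Submodule.span_induction with
  | mem x hx =>
    obtain ⟨j, hj, rfl⟩ := hx
    exact h j hj
  | zero => simp
  | add x y _ _ hx hy => rw [map_add, map_add, hx, hy]
  | smul a x _ hx => rw [map_smul, map_smul, hx]

private theorem cicof_span_mono {B : DGM G} (s : SFree B) {r t : ℕ} (h : r ≤ t) {x : B.X}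
    (hx : x ∈ Submodule.span A (s.b '' {j | s.rk j < r})) :
    x ∈ Submodule.span A (s.b '' {j | s.rk j < t}) :=
  Submodule.span_mono (Set.image_mono fun _ hj => lt_of_lt_of_le hj h) hx

private theorem cicof_dcomm {B N : DGM G} (s : SFree B) {f : B.X →ₗ[A] N.X} {r : ℕ}
    (h : ∀ i, s.rk i < r → N.d (f (s.b i)) = f (B.d (s.b i))) {x : B.X}
    (hx : x ∈ Submodule.span A (s.b '' {j | s.rk j < r})) : N.d (f x) = f (B.d x) :=
  cicof_eqOn s (f := N.d ∘ₗ f) (g := f ∘ₗ B.d) h hx

private theorem cicof_step {B X X' : DGM G} (s : SFree B) {e e' : ℤ} {p : X'.X →ₗ[A] X.X}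
    (hp : IsMor X' X e' p) (hs : SQ X' X p) {b : B.X →ₗ[A] X.X} (hb : IsMor B X e b) (r : ℕ)
    (f : B.X →ₗ[A] X'.X) (hf1 : ∀ i, X'.pr (s.deg i + (e - e')) (f (s.b i)) = f (s.b i))
    (hf2 : ∀ i, p (f (s.b i)) = b (s.b i))
    (hf3 : ∀ i, s.rk i < r → X'.d (f (s.b i)) = f (B.d (s.b i))) :
    ∃ g : B.X →ₗ[A] X'.X, ((∀ i, X'.pr (s.deg i + (e - e')) (g (s.b i)) = g (s.b i)) ∧
      (∀ i, p (g (s.b i)) = b (s.b i)) ∧
      (∀ i, s.rk i < r + 1 → X'.d (g (s.b i)) = g (B.d (s.b i)))) ∧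
      ∀ i, s.rk i < r → g (s.b i) = f (s.b i) := by
  classical
  have hpf : ∀ x, p (f x) = b x := by
    intro x
    have h : p ∘ₗ f = b := s.b.ext hf2
    exact LinearMap.congr_fun h x
  have hhom := s.hom_ext hf1
  have key : ∀ i, s.rk i = r → ∃ κ : X'.X, X'.pr (s.deg i + (e - e')) κ = κ ∧ p κ = 0 ∧
      X'.d κ = X'.d (f (s.b i)) - f (B.d (s.b i)) := by
    intro i hi
    have hdi : B.d (s.b i) ∈ Submodule.span A (s.b '' {j | s.rk j < r}) := by
      rw [← hi]
      exact s.d i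
    have h1 : p (X'.d (f (s.b i)) - f (B.d (s.b i))) = 0 := by
      rw [map_sub, ← hp.d, hpf, hpf, hb.d, sub_self]
    have h2 : X'.d (X'.d (f (s.b i)) - f (B.d (s.b i))) = 0 := by
      rw [map_sub, X'.d_d, cicof_dcomm s hf3 hdi, B.d_d, map_zero, sub_zero]
    obtain ⟨κ, hκ1, hκ2⟩ := hs.2 _ h1 h2
    refine ⟨X'.pr (s.deg i + (e - e')) κ, X'.pr_self _ _, ?_, ?_⟩
    · rw [← hp.pr, hκ1, map_zero]
    · rw [← X'.pr_d, hκ2, map_sub, X'.pr_d, hf1]
      have h3 : s.deg i + (e - e') + 1 = s.deg i + 1 + (e - e') := by ring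
      rw [h3, hhom, B.pr_d, s.pr]
  choose κ hκ1 hκ2 hκ3 using key
  have hg : ∀ i, s.b.constr A (fun i => if h : s.rk i = r then f (s.b i) - κ i h else f (s.b i))
      (s.b i) = if h : s.rk i = r then f (s.b i) - κ i h else f (s.b i) :=
    fun i => Module.Basis.constr_basis _ _ _ _
  generalize s.b.constr A (fun i => if h : s.rk i = r then f (s.b i) - κ i h else f (s.b i)) = g at hg
  have hgf : ∀ i, s.rk i < r → g (s.b i) = f (s.b i) := by
    intro i hi
    rw [hg, dif_neg hi.ne]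
  refine ⟨g, ⟨fun i => ?_, fun i => ?_, fun i hi => ?_⟩, hgf⟩
  · rw [hg]
    split_ifs with h
    · rw [map_sub, hf1, hκ1]
    · exact hf1 i
  · rw [hg]
    split_ifs with h
    · rw [map_sub, hf2, hκ2, sub_zero]
    · exact hf2 i
  · have hle : s.rk i ≤ r := Nat.lt_succ_iff.1 hi
    have hdg : g (B.d (s.b i)) = f (B.d (s.b i)) :=
      cicof_eqOn s hgf (cicof_span_mono s hle (s.d i))
    rw [hdg]
    rcases hle.eq_or_lt with h | h
    · rw [hg, dif_pos h, map_sub, hκ3, sub_sub_cancel]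
    · rw [hgf i h]
      exact hf3 i h

/-- Semifree modules are cofibrant.

PROOF. Let `p : X' → X` be a trivial fibration of degree `e'` and `b : B → X` a morphism of degree `e`. Construct by recursion on `r` linear maps
`f_r : B → X'` (`s.b.constr`) with `f_r (s.b i)` homogeneous of degree `deg i + e - e'`, `p (f_r (s.b i)) = b (s.b i)` for all `i` and
`d (f_r (s.b i)) = f_r (d (s.b i))` for `rk i < r`, and `f_(r+1) (s.b i) = f_r (s.b i)` for `rk i < r`. Start: `f_0 (s.b i)` = the component of degree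
`deg i + e - e'` of any preimage of `b (s.b i)`. Step: for `rk i = r` let `ξ = f_r (s.b i)`, `η = d ξ - f_r (d (s.b i))`; `η` is homogeneous, in `ker p` and
`d η = - d (f_r (d (s.b i))) = - f_r (d (d (s.b i))) = 0`, because `d (s.b i)` is a combination of basis elements of rank `< r`; so `η = d κ`,
`κ ∈ ker p`, which can be taken homogeneous of the right degree; put `f_(r+1) (s.b i) = ξ - κ`. The final map is `f (s.b i) = f_(rk i + 1) (s.b i)`; it agrees with
`f_r` on the span of the basis elements of rank `< r`. `d (f x) = f (d x)` is checked on the basis. -/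
theorem SFree.cof {B : DGM G} (s : SFree B) : Cof B := by
  intro X X' e' p hp hs e b hb
  let St : ℕ → Type u := fun r => { f : B.X →ₗ[A] X'.X //
    (∀ i, X'.pr (s.deg i + (e - e')) (f (s.b i)) = f (s.b i)) ∧ (∀ i, p (f (s.b i)) = b (s.b i)) ∧
      (∀ i, s.rk i < r → X'.d (f (s.b i)) = f (B.d (s.b i))) }
  have h0 : Nonempty (St 0) := by
    obtain ⟨f, h1, h2⟩ := cicof_start s hp hs hb
    exact ⟨⟨f, h1, h2, fun i hi => absurd hi (Nat.not_lt_zero _)⟩⟩
  have hstep : ∀ (r : ℕ) (f : St r), ∃ g : St (r + 1), ∀ i, s.rk i < r → g.1 (s.b i) = f.1 (s.b i) := by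
    intro r f
    obtain ⟨g, hg, hgf⟩ := cicof_step s hp hs hb r f.1 f.2.1 f.2.2.1 f.2.2.2
    exact ⟨⟨g, hg⟩, hgf⟩
  obtain ⟨f0⟩ := h0
  choose nx hnx using hstep
  let F : ∀ r, St r := fun r => Nat.rec f0 (fun r f => nx r f) r
  have hF : ∀ r, F (r + 1) = nx r (F r) := fun r => rfl
  have hF1 : ∀ r i, s.rk i < r → (F (r + 1)).1 (s.b i) = (F r).1 (s.b i) := by
    intro r i hi
    rw [hF]
    exact hnx r (F r) i hi
  have hF2 : ∀ r t, r ≤ t → ∀ i, s.rk i < r → (F t).1 (s.b i) = (F r).1 (s.b i) := by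
    intro r t hrt
    induction t, hrt using Nat.le_induction with
    | base => exact fun _ _ => rfl
    | succ t hrt ih =>
      intro i hi
      rw [hF1 t i (lt_of_lt_of_le hi hrt), ih i hi]
  have hf : ∀ i, s.b.constr A (fun i => (F (s.rk i + 1)).1 (s.b i)) (s.b i) =
      (F (s.rk i + 1)).1 (s.b i) := fun i => Module.Basis.constr_basis _ _ _ _
  generalize s.b.constr A (fun i => (F (s.rk i + 1)).1 (s.b i)) = f at hf
  have hfF : ∀ r i, s.rk i < r → f (s.b i) = (F r).1 (s.b i) := by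
    intro r i hi
    rw [hf, hF2 (s.rk i + 1) r hi i (Nat.lt_succ_self _)]
  refine ⟨f, ⟨?_, ?_⟩, ?_⟩
  · refine s.hom_ext fun i => ?_
    rw [hf]
    exact (F (s.rk i + 1)).2.1 i
  · intro x
    have h : X'.d ∘ₗ f = f ∘ₗ B.d := by
      refine s.b.ext fun i => ?_
      change X'.d (f (s.b i)) = f (B.d (s.b i))
      rw [hf, (F (s.rk i + 1)).2.2.2 i (Nat.lt_succ_self _)]
      exact (cicof_eqOn s (hfF (s.rk i + 1)) (cicof_span_mono s (Nat.le_succ _) (s.d i))).symm
    exact LinearMap.congr_fun h x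
  · intro x
    have h : p ∘ₗ f = b := by
      refine s.b.ext fun i => ?_
      change p (f (s.b i)) = b (s.b i)
      rw [hf]
      exact (F (s.rk i + 1)).2.2.1 i
    exact LinearMap.congr_fun h x

end MP8a
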