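import Pool.Agent.Lib_MP_8a48ad_gt.CITh
import Pool.Agent.Lib_MP_8a48ad_gt.CINull

/-! # Piece CICOMP: completeness -/

set_option autoImplicit false

namespace MP8a

open MvPolynomial

universe u

variable {R : Type u} [CommRing R] {GR : Gr R} {n N c : ℕ}

/-- the coefficient at `γ` of `∑ ζ_i θ_i + d H + H d` -/
private noncomputable def cfm (t : TData GR n N c) {M : DGM GR} {r : ℕ}
    (ζ : Fin r → ((TB t).X →ₗ[R] M.X)) (ρ : Fin r → (Fin c →₀ ℕ) → R)
    (H : (Fin c →₀ ℕ) → ((KB t).X →ₗ[R] M.X)) (γ : Fin c →₀ ℕ) (v : (KB t).X) : M.X :=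
  (∑ i, ∑ x ∈ Finset.HasAntidiagonal.antidiagonal γ, ρ i x.1 • ζ i (Finsupp.single x.2 v)) +
    (M.d (H γ v) + H γ ((KB t).d v) +
      ∑ j, if γ j = 0 then 0 else H (γ - Finsupp.single j 1) (KS (t.g j) v))

private theorem cfm_add (t : TData GR n N c) {M : DGM GR} {r : ℕ}
    (ζ : Fin r → ((TB t).X →ₗ[R] M.X)) (ρ ρ' : Fin r → (Fin c →₀ ℕ) → R)
    (H H' : (Fin c →₀ ℕ) → ((KB t).X →ₗ[R] M.X)) (γ : Fin c →₀ ℕ) (v : (KB t).X) :
    cfm t ζ (ρ + ρ') (H + H') γ v = cfm t ζ ρ H γ v + cfm t ζ ρ' H' γ v := by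
  unfold cfm
  have h1 : (∑ i, ∑ x ∈ Finset.HasAntidiagonal.antidiagonal γ,
      (ρ + ρ') i x.1 • ζ i (Finsupp.single x.2 v)) =
      (∑ i, ∑ x ∈ Finset.HasAntidiagonal.antidiagonal γ, ρ i x.1 • ζ i (Finsupp.single x.2 v)) +
      ∑ i, ∑ x ∈ Finset.HasAntidiagonal.antidiagonal γ, ρ' i x.1 • ζ i (Finsupp.single x.2 v) := by
    rw [← Finset.sum_add_distrib]
    refine Finset.sum_congr rfl fun i _ => ?_
    rw [← Finset.sum_add_distrib]
    refine Finset.sum_congr rfl fun x _ => ?_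
    rw [Pi.add_apply, Pi.add_apply, add_smul]
  have h2 : (∑ j, if γ j = 0 then 0 else (H + H') (γ - Finsupp.single j 1) (KS (t.g j) v)) =
      (∑ j, if γ j = 0 then 0 else H (γ - Finsupp.single j 1) (KS (t.g j) v)) +
      ∑ j, if γ j = 0 then 0 else H' (γ - Finsupp.single j 1) (KS (t.g j) v) := by
    rw [← Finset.sum_add_distrib]
    refine Finset.sum_congr rfl fun j _ => ?_
    by_cases h : γ j = 0
    · rw [if_pos h, if_pos h, if_pos h, add_zero]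
    · rw [if_neg h, if_neg h, if_neg h]
      rfl
  have h3 : (H + H') γ v = H γ v + H' γ v := rfl
  have h4 : (H + H') γ ((KB t).d v) = H γ ((KB t).d v) + H' γ ((KB t).d v) := rfl
  rw [h1, h2, h3, h4, map_add]
  abel

/-- the coefficients of the corrected map -/
private theorem coef (t : TData GR n N c) {M : DGM GR} {r : ℕ}
    (ζ : Fin r → ((TB t).X →ₗ[R] M.X)) (ρ : Fin r → (Fin c →₀ ℕ) → R)
    (H : (Fin c →₀ ℕ) → ((KB t).X →ₗ[R] M.X)) (z : (TB t).X →ₗ[R] M.X) (γ : Fin c →₀ ℕ)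
    (v : (KB t).X) :
    (z - ∑ i, ζ i ∘ₗ Th t (ρ i) - (M.d ∘ₗ Finsupp.lsum R H + Finsupp.lsum R H ∘ₗ (TB t).d))
      (Finsupp.single γ v) = z (Finsupp.single γ v) - cfm t ζ ρ H γ v := by
  have h1 : (∑ i, ζ i ∘ₗ Th t (ρ i)) (Finsupp.single γ v) =
      ∑ i, ∑ x ∈ Finset.HasAntidiagonal.antidiagonal γ,
        ρ i x.1 • ζ i (Finsupp.single x.2 v) := by
    rw [LinearMap.sum_apply]
    refine Finset.sum_congr rfl fun i _ => ?_
    rw [LinearMap.comp_apply, Th_single, map_sum]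
    refine Finset.sum_congr rfl fun x _ => ?_
    rw [map_smul]
  have h2 := lsum_d_single t H γ v
  rw [LinearMap.sub_apply, LinearMap.sub_apply, h1, LinearMap.add_apply, LinearMap.comp_apply,
    LinearMap.comp_apply, h2, sub_sub]
  rfl

private theorem degree_sub_single (γ : Fin c →₀ ℕ) (j : Fin c) (h : γ j ≠ 0) :
    (γ - Finsupp.single j 1).degree + 1 = γ.degree := by
  have h1 : γ - Finsupp.single j 1 + Finsupp.single j 1 = γ := by
    refine tsub_add_cancel_of_le ?_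
    rw [Finsupp.single_le_iff]
    exact Nat.one_le_iff_ne_zero.2 h
  conv_rhs => rw [← h1]
  rw [map_add, Finsupp.degree_single]

private theorem degree_antidiag {γ : Fin c →₀ ℕ} {x : (Fin c →₀ ℕ) × (Fin c →₀ ℕ)}
    (hx : x ∈ Finset.HasAntidiagonal.antidiagonal γ) : x.1.degree + x.2.degree = γ.degree := by
  rw [Finset.HasAntidiagonal.mem_antidiagonal] at hx
  rw [← hx, map_add]

/-- One step: `z` with `z_γ = 0` for `|γ| < q` is changed by `∑ ζ_i θ_i` and a boundary so that `z_γ = 0` for `|γ| < q + 1`. The `θ_i = Th t (ρ_i)` with `ρ_i(β) = 0` unless `|β| + p_i = q`, and the homotopy has the components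
`H_γ`, zero unless `|γ| = q`.

PROOF. `ρ` from the hypothesis `hlead`; `H_γ` the homotopies for `|γ| = q`, and `0` for the others. Let `z' = z - ∑ ζ_i ∘ Th t (ρ_i) - (d H + H d)`. For `|γ| = q`: `z'_γ = 0` by `comp_Th_single` and `lsum_d_single` (the terms `H (γ - δ_j)` vanish because
`|γ - δ_j| = q - 1`). For `|γ| < q`: `z_γ = 0`, `H_γ = 0`, `H_(γ - δ_j) = 0`, and `ρ_i(β) (ζ_i)_β'` with `β + β' = γ` vanishes: `ρ_i(β) = 0` unless `|β| = q - p_i`, and then `|β'| = |γ| - |β| < p_i`. -/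
theorem comp_step (t : TData GR n N c) {M : DGM GR} {r : ℕ} (p : Fin r → ℕ) (δ : Fin r → ℤ)
    (ζ : Fin r → ((TB t).X →ₗ[R] M.X)) (hζ : ∀ i, IsMor (TB t) M (δ i) (ζ i))
    (hp : ∀ i, ∀ γ : Fin c →₀ ℕ, γ.degree < p i → ζ i ∘ₗ Finsupp.lsingle γ = 0)
    (hlead : ∀ (q : ℕ) (e : ℤ) (z : (TB t).X →ₗ[R] M.X), IsMor (TB t) M e z →
        (∀ γ : Fin c →₀ ℕ, γ.degree < q → z ∘ₗ Finsupp.lsingle γ = 0) →
        ∃ ρ : Fin r → (Fin c →₀ ℕ) → R,
          (∀ i β, GR.c (e - δ i + t.dy β) (ρ i β) = ρ i β) ∧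
          (∀ i β, β.degree + p i ≠ q → ρ i β = 0) ∧
          ∀ γ : Fin c →₀ ℕ, γ.degree = q → Null (KB t) M (e + t.dy γ)
            (z ∘ₗ Finsupp.lsingle γ - ∑ i, ∑ x ∈ Finset.HasAntidiagonal.antidiagonal γ,
              ρ i x.1 • (ζ i ∘ₗ Finsupp.lsingle x.2)))
    (q : ℕ) (e : ℤ) (z : (TB t).X →ₗ[R] M.X) (hz : IsMor (TB t) M e z)
    (hq : ∀ γ : Fin c →₀ ℕ, γ.degree < q → z ∘ₗ Finsupp.lsingle γ = 0) :
    ∃ (ρ : Fin r → (Fin c →₀ ℕ) → R) (H : (Fin c →₀ ℕ) → ((KB t).X →ₗ[R] M.X)),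
      (∀ i β, GR.c (e - δ i + t.dy β) (ρ i β) = ρ i β) ∧ (∀ i β, β.degree + p i ≠ q → ρ i β = 0) ∧
      (∀ γ i x, M.pr (i + (e - 1 + t.dy γ)) (H γ x) = H γ ((KB t).pr i x)) ∧
      (∀ γ, γ.degree ≠ q → H γ = 0) ∧
      ∀ γ : Fin c →₀ ℕ, γ.degree < q + 1 →
        (z - ∑ i, ζ i ∘ₗ Th t (ρ i) - (M.d ∘ₗ Finsupp.lsum R H + Finsupp.lsum R H ∘ₗ (TB t).d)) ∘ₗ
          Finsupp.lsingle γ = 0 := by
  classical
  obtain ⟨ρ, hρ1, hρ2, hρ3⟩ := hlead q e z hz hq
  choose Hf hf1 hf2 using hρ3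
  obtain ⟨H, hHq, hHn⟩ : ∃ H : (Fin c →₀ ℕ) → ((KB t).X →ₗ[R] M.X),
      (∀ (γ : Fin c →₀ ℕ) (h : γ.degree = q), H γ = Hf γ h) ∧
        ∀ γ : Fin c →₀ ℕ, γ.degree ≠ q → H γ = 0 :=
    ⟨fun γ => if h : γ.degree = q then Hf γ h else 0, fun γ h => dif_pos h, fun γ h => dif_neg h⟩
  refine ⟨ρ, H, hρ1, hρ2, ?_, hHn, ?_⟩
  · intro γ i x
    by_cases h : γ.degree = q
    · rw [hHq γ h]
      have h1 := hf1 γ h i x
      have h2 : i + (e + t.dy γ - 1) = i + (e - 1 + t.dy γ) := by ring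
      rw [h2] at h1
      exact h1
    · rw [hHn γ h, LinearMap.zero_apply, LinearMap.zero_apply, map_zero]
  · intro γ hγ
    refine LinearMap.ext fun v => ?_
    rw [LinearMap.comp_apply, Finsupp.lsingle_apply, coef, LinearMap.zero_apply]
    have hj : (∑ j, if γ j = 0 then 0 else H (γ - Finsupp.single j 1) (KS (t.g j) v)) = 0 := by
      refine Finset.sum_eq_zero fun j _ => ?_
      by_cases h : γ j = 0
      · rw [if_pos h]
      · rw [if_neg h, hHn, LinearMap.zero_apply]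
        have h1 := degree_sub_single γ j h
        omega
    unfold cfm
    rw [hj, add_zero]
    by_cases h : γ.degree = q
    · have h1 := hf2 γ h v
      rw [← hHq γ h] at h1
      rw [← h1]
      rw [LinearMap.sub_apply, LinearMap.comp_apply, Finsupp.lsingle_apply, LinearMap.sum_apply]
      have h2 : (∑ i, (∑ x ∈ Finset.HasAntidiagonal.antidiagonal γ,
          ρ i x.1 • (ζ i ∘ₗ Finsupp.lsingle x.2)) v) =
          ∑ i, ∑ x ∈ Finset.HasAntidiagonal.antidiagonal γ,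
            ρ i x.1 • ζ i (Finsupp.single x.2 v) := by
        refine Finset.sum_congr rfl fun i _ => ?_
        rw [LinearMap.sum_apply]
        rfl
      rw [h2]
      abel
    · have hlt : γ.degree < q := by omega
      have h1 : z (Finsupp.single γ v) = 0 := LinearMap.congr_fun (hq γ hlt) v
      have h2 : (∑ i, ∑ x ∈ Finset.HasAntidiagonal.antidiagonal γ,
            ρ i x.1 • ζ i (Finsupp.single x.2 v)) = 0 := by
        refine Finset.sum_eq_zero fun i _ => Finset.sum_eq_zero fun x hx => ?_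
        by_cases h3 : x.1.degree + p i = q
        · have h4 := degree_antidiag hx
          have h5 : ζ i (Finsupp.single x.2 v) = 0 :=
            LinearMap.congr_fun (hp i x.2 (by omega)) v
          rw [h5, smul_zero]
        · rw [hρ2 i x.1 h3, zero_smul]
      rw [h1, h2, hHn γ h, LinearMap.zero_apply, LinearMap.zero_apply, map_zero, add_zero, add_zero,
        sub_zero]

/-- COMPLETENESS: every morphism `z : TB → M` is `∑ ζ_i θ_i` up to homotopy.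

PROOF. By recursion on `q` construct `ρ^q_i`, `H^q` (`∀ q, ∃ …` with the property of the pair, on a subtype, by `Nat.rec`): `ρ^0 = 0`, `H^0 = 0`; `z^q = z - ∑ ζ_i ∘ Th t (ρ^q_i) - (d H^q + H^q d)` is a morphism of degree `e` with
`z^q_γ = 0` for `|γ| < q`; `ρ^(q+1) = ρ^q + ρ`, `H^(q+1) = H^q + H` with `ρ`, `H` from `comp_step` for `z^q`. So `ρ^(q+1)_i(β) = ρ^q_i(β)` unless `|β| + p_i = q` and `H^(q+1)_γ = H^q_γ` unless `|γ| = q`.
Put `ρ_i(β) = ρ^(|β| + p_i + 1)_i(β)`, `H_γ = H^(|γ| + 1)_γ`, `θ_i = Th t (ρ_i)`. For every `γ` and all large `q` the coefficient at `γ` of `z - ∑ ζ_i ∘ θ_i - (d H + H d)` is that of `z^q` (`comp_Th_single`,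
`lsum_d_single`: only the `ρ_i(β)` with `|β| ≤ |γ|` and the `H_γ'` with `|γ'| ≤ |γ|` occur; for `q > |γ| + max p_i` they are `ρ^q_i(β)`, `H^q_γ'`), so it is `0`. -/
theorem exists_theta (t : TData GR n N c) {M : DGM GR} {r : ℕ} (p : Fin r → ℕ) (δ : Fin r → ℤ)
    (ζ : Fin r → ((TB t).X →ₗ[R] M.X)) (hζ : ∀ i, IsMor (TB t) M (δ i) (ζ i))
    (hp : ∀ i, ∀ γ : Fin c →₀ ℕ, γ.degree < p i → ζ i ∘ₗ Finsupp.lsingle γ = 0)
    (hlead : ∀ (q : ℕ) (e : ℤ) (z : (TB t).X →ₗ[R] M.X), IsMor (TB t) M e z →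
        (∀ γ : Fin c →₀ ℕ, γ.degree < q → z ∘ₗ Finsupp.lsingle γ = 0) →
        ∃ ρ : Fin r → (Fin c →₀ ℕ) → R,
          (∀ i β, GR.c (e - δ i + t.dy β) (ρ i β) = ρ i β) ∧
          (∀ i β, β.degree + p i ≠ q → ρ i β = 0) ∧
          ∀ γ : Fin c →₀ ℕ, γ.degree = q → Null (KB t) M (e + t.dy γ)
            (z ∘ₗ Finsupp.lsingle γ - ∑ i, ∑ x ∈ Finset.HasAntidiagonal.antidiagonal γ,
              ρ i x.1 • (ζ i ∘ₗ Finsupp.lsingle x.2)))
    (e : ℤ) (z : (TB t).X →ₗ[R] M.X) (hz : IsMor (TB t) M e z) :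
    ∃ θ : Fin r → ((TB t).X →ₗ[R] (TB t).X), (∀ i, IsMor (TB t) (TB t) (e - δ i) (θ i)) ∧
      Null (TB t) M e (z - ∑ i, ζ i ∘ₗ θ i) := by
  classical
  -- the properties of the approximations
  let S := (Fin r → (Fin c →₀ ℕ) → R) × ((Fin c →₀ ℕ) → ((KB t).X →ₗ[R] M.X))
  let P : ℕ → S → Prop := fun q s =>
    (∀ i β, GR.c (e - δ i + t.dy β) (s.1 i β) = s.1 i β) ∧
    (∀ γ i x, M.pr (i + (e - 1 + t.dy γ)) (s.2 γ x) = s.2 γ ((KB t).pr i x)) ∧
    ∀ γ : Fin c →₀ ℕ, γ.degree < q → ∀ v, z (Finsupp.single γ v) = cfm t ζ s.1 s.2 γ v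
  let Rel : ℕ → S → S → Prop := fun q s s' =>
    (∀ (i : Fin r) (β : Fin c →₀ ℕ), β.degree + p i ≠ q → s'.1 i β = s.1 i β) ∧
      ∀ γ : Fin c →₀ ℕ, γ.degree ≠ q → s'.2 γ = s.2 γ
  have hstep : ∀ (q : ℕ) (s : S), P q s → ∃ s' : S, P (q + 1) s' ∧ Rel q s s' := by
    rintro q ⟨ρ, H⟩ ⟨h1, h2, h3⟩
    have hzq : IsMor (TB t) M e (z - ∑ i, ζ i ∘ₗ Th t (ρ i) -
        (M.d ∘ₗ Finsupp.lsum R H + Finsupp.lsum R H ∘ₗ (TB t).d)) := by
      refine (hz.sub ?_).sub ?_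
      · have h4 : ∀ s : Finset (Fin r), IsMor (TB t) M e (∑ i ∈ s, ζ i ∘ₗ Th t (ρ i)) := by
          intro s
          refine Finset.sum_induction _ (fun f => IsMor (TB t) M e f) (fun _ _ ha hb => ha.add hb)
            (isMor_zero _ _ _) fun i _ => ?_
          exact ((hζ i).comp (isMor_Th t (ρ i) (e - δ i) (h1 i))).cast (by ring)
        exact h4 _
      · refine Null.isMor ⟨Finsupp.lsum R H, fun i x => lsum_hom t (e - 1) H h2 i x, fun x => rfl⟩
    obtain ⟨ρ', H', k1, k2, k3, k4, k5⟩ := comp_step t p δ ζ hζ hp hlead q e _ hzq (by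
      intro γ hγ
      refine LinearMap.ext fun v => ?_
      rw [LinearMap.comp_apply, Finsupp.lsingle_apply, coef, h3 γ hγ v, sub_self,
        LinearMap.zero_apply])
    refine ⟨(ρ + ρ', H + H'), ⟨?_, ?_, ?_⟩, ?_, ?_⟩
    · intro i β
      change GR.c (e - δ i + t.dy β) (ρ i β + ρ' i β) = ρ i β + ρ' i β
      rw [map_add, k1 i β]
      exact congrArg (fun z => z + ρ' i β) (h1 i β)
    · intro γ i x
      change M.pr (i + (e - 1 + t.dy γ)) (H γ x + H' γ x) = H γ ((KB t).pr i x) + H' γ ((KB t).pr i x)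
      rw [map_add, k3 γ i x]
      exact congrArg (fun z => z + H' γ ((KB t).pr i x)) (h2 γ i x)
    · intro γ hγ v
      have h6 := LinearMap.congr_fun (k5 γ hγ) v
      rw [LinearMap.comp_apply, Finsupp.lsingle_apply, coef, coef, LinearMap.zero_apply] at h6
      change z (Finsupp.single γ v) = cfm t ζ (ρ + ρ') (H + H') γ v
      rw [cfm_add]
      have h7 := sub_eq_zero.1 h6
      rw [← h7]
      abel
    · intro i β hβ
      change ρ i β + ρ' i β = ρ i β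
      rw [k2 i β hβ, add_zero]
    · intro γ hγ
      change H γ + H' γ = H γ
      rw [k4 γ hγ, add_zero]
  have h0 : P 0 ((fun _ _ => 0), fun _ => 0) := by
    refine ⟨fun i β => map_zero _, fun γ i x => ?_, fun γ hγ => absurd hγ (Nat.not_lt_zero _)⟩
    change M.pr (i + (e - 1 + t.dy γ)) 0 = 0
    rw [map_zero]
  choose f hf1 hf2 using hstep
  let F : ∀ q, {s : S // P q s} := fun q =>
    Nat.rec (motive := fun q => {s : S // P q s}) ⟨_, h0⟩
      (fun q s => ⟨f q s.1 s.2, hf1 q s.1 s.2⟩) q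
  have hF : ∀ q, Rel q (F q).1 (F (q + 1)).1 := fun q => hf2 q (F q).1 (F q).2
  have hF1 : ∀ (i : Fin r) (β : Fin c →₀ ℕ) (q : ℕ), (F (β.degree + p i + 1 + q)).1.1 i β = (F (β.degree + p i + 1)).1.1 i β := by
    intro i β q
    induction q with
    | zero => rfl
    | succ q ih =>
      rw [← ih, ← add_assoc]
      exact (hF (β.degree + p i + 1 + q)).1 i β (by omega)
  have hF2 : ∀ (γ : Fin c →₀ ℕ) (q : ℕ), (F (γ.degree + 1 + q)).1.2 γ = (F (γ.degree + 1)).1.2 γ := by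
    intro γ q
    induction q with
    | zero => rfl
    | succ q ih =>
      rw [← ih, ← add_assoc]
      exact (hF (γ.degree + 1 + q)).2 γ (by omega)
  obtain ⟨ρ, hρ⟩ : ∃ ρ : Fin r → (Fin c →₀ ℕ) → R,
      ∀ i β, ρ i β = (F (β.degree + p i + 1)).1.1 i β := ⟨_, fun _ _ => rfl⟩
  obtain ⟨H, hH⟩ : ∃ H : (Fin c →₀ ℕ) → ((KB t).X →ₗ[R] M.X),
      ∀ γ, H γ = (F (γ.degree + 1)).1.2 γ := ⟨_, fun _ => rfl⟩
  have hρd : ∀ i β, GR.c (e - δ i + t.dy β) (ρ i β) = ρ i β := by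
    intro i β
    rw [hρ]
    exact (F (β.degree + p i + 1)).2.1 i β
  have hHd : ∀ γ i x, M.pr (i + (e - 1 + t.dy γ)) (H γ x) = H γ ((KB t).pr i x) := by
    intro γ i x
    rw [hH]
    exact (F (γ.degree + 1)).2.2.1 γ i x
  refine ⟨fun i => Th t (ρ i), fun i => isMor_Th t (ρ i) (e - δ i) (hρd i), Finsupp.lsum R H,
    fun i x => lsum_hom t (e - 1) H hHd i x, ?_⟩
  have key : z - ∑ i, ζ i ∘ₗ Th t (ρ i) -
      (M.d ∘ₗ Finsupp.lsum R H + Finsupp.lsum R H ∘ₗ (TB t).d) = 0 := by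
    refine Finsupp.lhom_ext fun γ v => ?_
    rw [coef, LinearMap.zero_apply, sub_eq_zero]
    -- compare with a late approximation
    have hQ := (F (γ.degree + 1 + ∑ i, p i)).2.2.2 γ (by omega) v
    rw [hQ]
    unfold cfm
    have e1 : ∀ β : Fin c →₀ ℕ, β.degree ≤ γ.degree → ∀ i,
        (F (γ.degree + 1 + ∑ i, p i)).1.1 i β = ρ i β := by
      intro β hβ i
      have h1 : p i ≤ ∑ i, p i := Finset.single_le_sum (fun _ _ => Nat.zero_le _) (Finset.mem_univ i)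
      obtain ⟨q, hq⟩ := Nat.exists_eq_add_of_le (show β.degree + p i + 1 ≤ γ.degree + 1 + ∑ i, p i by omega)
      rw [hρ, hq]
      exact hF1 i β q
    have e2 : ∀ β : Fin c →₀ ℕ, β.degree ≤ γ.degree →
        (F (γ.degree + 1 + ∑ i, p i)).1.2 β = H β := by
      intro β hβ
      obtain ⟨q, hq⟩ := Nat.exists_eq_add_of_le (show β.degree + 1 ≤ γ.degree + 1 + ∑ i, p i by omega)
      rw [hH, hq]
      exact hF2 β q
    rw [e2 γ le_rfl]
    congr 1
    · refine Finset.sum_congr rfl fun i _ => Finset.sum_congr rfl fun x hx => ?_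
      rw [e1 x.1 (by have := degree_antidiag hx; omega)]
    · congr 1
      refine Finset.sum_congr rfl fun j _ => ?_
      by_cases h : γ j = 0
      · rw [if_pos h, if_pos h]
      · rw [if_neg h, if_neg h, e2]
        have := degree_sub_single γ j h
        omega
  intro x
  have h1 := LinearMap.congr_fun key x
  rw [LinearMap.sub_apply, LinearMap.zero_apply, sub_eq_zero] at h1
  exact h1

end MP8a
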