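import Pool.Agent.Lib_MP_8a48ad_gt.KosStep
import Pool.Agent.Lib_MP_8a48ad_gt.Coind
import Pool.Agent.Lib_MP_8a48ad_gt.ThickB

/-!
# Stage CI (complete intersections): definitions, part 1
-/

set_option autoImplicit false

namespace MP8a

universe u

section

variable {A : Type u} [CommRing A] {G : Gr A}

/-- null-homotopic (the homotopy is homogeneous) -/
def Null (M N : DGM G) (e : ℤ) (h : M.X →ₗ[A] N.X) : Prop :=
  ∃ H : M.X →ₗ[A] N.X, (∀ i x, N.pr (i + (e - 1)) (H x) = H (M.pr i x)) ∧
    ∀ x, h x = N.d (H x) + H (M.d x)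

/-- `u` is a `P`-ghost: in the derived category it kills all morphisms from `P`. -/
def SGh (P M N : DGM G) (u : M.X →ₗ[A] N.X) : Prop :=
  ∀ (P' : DGM G) (e' : ℤ) (q : P'.X →ₗ[A] P.X), IsMor P' P e' q → SQ P' P q →
    ∀ (e : ℤ) (y : P'.X →ₗ[A] M.X), IsMor P' M e y → NZ P' N e (u ∘ₗ y)

/-- Composites of `g` maps which are `P`-ghosts kill `X` in the derived category. -/
def GQ (P X : DGM G) (g : ℕ) : Prop :=
  ∀ (X' : DGM G) (e' : ℤ) (p : X'.X →ₗ[A] X.X), IsMor X' X e' p → SQ X' X p →
    ∀ (Y : ℕ → DGM G) (γ : ∀ j, (Y j).X →ₗ[A] (Y (j + 1)).X),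
      (∀ j, IsMor (Y j) (Y (j + 1)) 0 (γ j)) → (∀ j, SGh P (Y j) (Y (j + 1)) (γ j)) →
      ∀ (e : ℤ) (y : X'.X →ₗ[A] (Y 0).X), IsMor X' (Y 0) e y → NZ X' (Y g) e (cmp Y γ g ∘ₗ y)

/-- Cofibrant: morphisms lift along trivial fibrations. -/
def Cof (B : DGM G) : Prop :=
  ∀ (X X' : DGM G) (e' : ℤ) (p : X'.X →ₗ[A] X.X), IsMor X' X e' p → SQ X' X p →
    ∀ (e : ℤ) (b : B.X →ₗ[A] X.X), IsMor B X e b →
      ∃ b' : B.X →ₗ[A] X'.X, IsMor B X' (e - e') b' ∧ ∀ x, p (b' x) = b x

/-- `B` is semifree: it has a basis of homogeneous elements and a rank function which `d` decreases. -/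
structure SFree (B : DGM G) where
  /-- the index set of the basis -/
  ι : Type
  /-- the basis -/
  b : Module.Basis ι A B.X
  /-- the degrees of the basis elements -/
  deg : ι → ℤ
  pr : ∀ i, B.pr (deg i) (b i) = b i
  /-- the rank -/
  rk : ι → ℕ
  d : ∀ i, B.d (b i) ∈ Submodule.span A (b '' {j | rk j < rk i})

/-- The direct sum of copies of `B`, the copy with index `i` shifted in such a way that its inclusion has degree `δ i`. -/
@[reducible] noncomputable def DGM.fsum (B : DGM G) (I : Type u) (δ : I → ℤ) : DGM G where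
  X := I →₀ B.X
  pr j :=
    { toFun := fun φ => Finsupp.onFinset φ.support (fun i => B.pr (j - δ i) (φ i)) (by
        intro i hi
        rw [Finsupp.mem_support_iff]
        intro h
        apply hi
        rw [h, map_zero])
      map_zero' := by
        ext i
        simp
      map_add' := by
        intro φ ψ
        ext i
        simp }
  pr_pr i j φ := by
    ext a
    have h := B.pr_pr (i - δ a) (j - δ a) (φ a)
    by_cases hij : i = j
    · subst hij
      rw [if_pos rfl] at h ⊢
      exact h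
    · rw [if_neg hij]
      rw [if_neg (fun h' => hij (sub_left_injective h'))] at h
      exact h
  fin φ := by
    classical
    choose s hs using fun i => B.exists_support (φ i)
    refine ⟨φ.support.biUnion (fun i => (s i).map (addRightEmbedding (δ i))), ?_⟩
    ext a
    rw [Finsupp.finsetSum_apply]
    by_cases ha : a ∈ φ.support
    · have h1 := (hs a).2 ((φ.support.biUnion (fun i => (s i).map (addRightEmbedding (δ i)))).map
        (addRightEmbedding (-(δ a)))) (by
          intro i hi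
          rw [Finset.mem_map]
          refine ⟨i + δ a, Finset.mem_biUnion.2 ⟨a, ha, Finset.mem_map.2 ⟨i, hi, rfl⟩⟩, ?_⟩
          simp)
      rw [Finset.sum_map] at h1
      exact h1
    · rw [Finsupp.notMem_support_iff] at ha
      rw [ha]
      refine Finset.sum_eq_zero fun i _ => ?_
      change B.pr (i - δ a) (φ a) = 0
      rw [ha, map_zero]
  smul := by
    intro i j a φ ha hφ
    ext b
    have h1 : B.pr (j - δ b) (φ b) = φ b := DFunLike.congr_fun hφ b
    have h2 := B.smul ha h1
    have h3 : i + j - δ b = i + (j - δ b) := by ring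
    change B.pr (i + j - δ b) (a • φ b) = a • φ b
    rw [h3]
    exact h2
  d := Finsupp.mapRange.linearMap B.d
  d_hom := by
    intro i φ hφ
    ext b
    have h1 : B.pr (i - δ b) (φ b) = φ b := DFunLike.congr_fun hφ b
    have h2 := B.d_hom h1
    have h3 : i + 1 - δ b = i - δ b + 1 := by ring
    change B.pr (i + 1 - δ b) (B.d (φ b)) = B.d (φ b)
    rw [h3]
    exact h2
  d_d φ := by
    ext b
    exact B.d_d (φ b)

theorem DGM.fsum_pr (B : DGM G) (I : Type u) (δ : I → ℤ) (j : ℤ) (φ : I →₀ B.X) (i : I) :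
    ((B.fsum I δ).pr j φ : I →₀ B.X) i = B.pr (j - δ i) (φ i) := rfl

theorem DGM.fsum_d (B : DGM G) (I : Type u) (δ : I → ℤ) (φ : I →₀ B.X) (i : I) :
    ((B.fsum I δ).d φ : I →₀ B.X) i = B.d (φ i) := rfl

end

end MP8a
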