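import Pool.Agent.Lib_MP_8a48ad_gt.CIPres

/-! # Piece CIEPS: the augmentation `TB → S` -/

set_option autoImplicit false

namespace MP8a

open MvPolynomial

universe u

variable {k : Type u} [Field k] {n : ℕ} {R : Type u} [CommRing R] [Algebra k R] [Algebra R (Sn k n)]
  {GR : Gr R} {N c : ℕ}

/-- the multiplication `R[x] = R ⊗ S → S` -/
noncomputable def muR (k : Type u) [Field k] (n : ℕ) (R : Type u) [CommRing R] [Algebra R (Sn k n)] :
    MvPolynomial (Fin n) R →ₐ[R] Sn k n := aeval (X : Fin n → Sn k n)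

theorem ceps_C (a : R) : muR k n R (C a) = algebraMap R (Sn k n) a := by
  unfold muR
  exact aeval_C _ a

theorem ceps_X (j : Fin n) : muR k n R (X j) = X j := by
  unfold muR
  exact aeval_X _ j

/-- `Q[x] → R[x] → S` is the evaluation `muQ` (check on constants and on the variables; `Pres.aeval_x`). -/
theorem Pres.muR_map (hS : Setup k n GR) (P : Pres k GR N c)
    (p : MvPolynomial (Fin n) (MvPolynomial (Fin N) k)) :
    muR k n R (map P.π.toRingHom p) = muQ (P.x n) p := by
  induction p using MvPolynomial.induction_on with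
  | C a =>
    rw [map_C, muQ_C, P.aeval_x hS]
    exact ceps_C (P.π a)
  | add p q hp hq => rw [map_add, map_add, map_add, hp, hq]
  | mul_X p j hp => rw [map_mul, map_mul, map_mul, hp, map_X, ceps_X, muQ_X]

/-- `muR` is homogeneous (check on monomials) -/
theorem muR_hom (hS : Setup k n GR) (i : ℤ) (p : MvPolynomial (Fin n) R) :
    (grS k n).c i (muR k n R p) = muR k n R ((grA GR n).c i p) := by
  have h0 : ∀ (μ : Fin n →₀ ℕ) (a : R), muR k n R (monomial μ a) =
      monomial μ (1 : k) • algebraMap R (Sn k n) a := by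
    intro μ a
    rw [muR, aeval_monomial, smul_eq_mul, mul_comm]
    congr 1
    rw [monomial_eq, C_1, one_mul]
  induction p using MvPolynomial.induction_on' with
  | monomial μ a =>
    rw [grA_monomial, h0, h0, hS.compat]
    exact (regM (grS k n)).pr_smul' (grS_monomial μ 1) i _
  | add p q hp hq => rw [map_add, map_add, map_add, map_add, hp, hq]

/-- the augmentation `TB → S`: `b ↦ muR (b 0 ∅)` -/
noncomputable def epsT (t : TData GR n N c) (k : Type u) [Field k] [Algebra R (Sn k n)] :
    (TB t).X →ₗ[R] Sn k n :=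
  (muR k n R).toLinearMap ∘ₗ
    (LinearMap.proj (R := R) (φ := fun _ : Finset (Fin N) => MvPolynomial (Fin n) R) ∅) ∘ₗ
      (Finsupp.lapply (0 : Fin c →₀ ℕ) : (TB t).X →ₗ[R] (KB t).X)

theorem epsT_apply (t : TData GR n N c) (b : (TB t).X) : epsT t k b = muR k n R (b 0 ∅) := rfl

/-- PROOF. Homogeneous: `muR_hom`. `epsT (d b) = muR (∑ a_i (b 0) {i}) = 0` (`KD_empty`, `KS_empty`), because `muR a_i = muQ (aQ x i) = 0`. -/
theorem Pres.isMor_eps (hS : Setup k n GR) (P : Pres k GR N c) :
    IsMor (TB (P.tdata hS)) (SR hS.compat) 0 (epsT (P.tdata hS) k) := by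
  refine ⟨fun i b => ?_, fun b => ?_⟩
  · show (grS k n).c (i + 0) (muR k n R (b 0 ∅)) =
      muR k n R (cA GR n (i - (P.tdata hS).dy 0 - (P.tdata hS).dI ∅) (b 0 ∅))
    rw [muR_hom hS]
    have h1 : (P.tdata hS).dy 0 = 0 := by
      unfold TData.dy
      simp
    have h2 : (P.tdata hS).dI ∅ = 0 := Finset.sum_empty
    rw [h1, h2, add_zero, sub_zero, sub_zero]
    rfl
  · show (0 : Sn k n) = muR k n R ((TB (P.tdata hS)).d b 0 ∅)
    have h1 : (TB (P.tdata hS)).d b 0 ∅ = KD (P.tdata hS).a (b 0) ∅ +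
        (∑ j, KS ((P.tdata hS).g j) (b (0 + Finsupp.single j 1))) ∅ := by
      rw [TB_d_apply]
      rfl
    have h2 : (∑ j, KS ((P.tdata hS).g j) (b (0 + Finsupp.single j 1))) ∅ = 0 := by
      rw [Finset.sum_apply]
      refine Finset.sum_eq_zero fun j _ => ?_
      rw [KS_apply]
      refine Finset.sum_eq_zero fun l _ => ?_
      rw [wE_apply, if_neg (Finset.notMem_empty l), smul_zero]
    have h3 : ∀ l, muR k n R ((P.tdata hS).a l) = 0 := by
      intro l
      show muR k n R (map P.π.toRingHom (aQ (P.x n) l)) = 0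
      rw [P.muR_map hS]
      have h4 : aQ (P.x n) l ∈ RingHom.ker (muQ (P.x n)) := by
        rw [ker_muQ]
        exact Ideal.subset_span ⟨l, rfl⟩
      exact h4
    rw [h1, h2, add_zero, KD_apply, map_sum]
    refine (Finset.sum_eq_zero fun l _ => ?_).symm
    rw [smul_eq_mul, map_mul, h3, zero_mul]

end MP8a
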