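import Pool.Agent.Lib_MP_8a48ad_gt.CITate1

/-! # Piece CITATE2: adjoining several divided power variables -/

set_option autoImplicit false

namespace MP8a

universe v

variable {Q : Type*} [CommRing Q]

/-- A direct sum of copies of a module on which `f_1, …, f_c` is weakly regular: `f` is weakly regular. -/
theorem weaklyRegular_finsupp {V : Type*} [AddCommGroup V] [Module Q V] (rs : List Q)
    (h : RingTheory.Sequence.IsWeaklyRegular V rs) (ι : Type*) :
    RingTheory.Sequence.IsWeaklyRegular (ι →₀ V) rs := by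
  classical
  exact ((TensorProduct.finsuppScalarLeft Q V ι).isWeaklyRegular_congr rs).1
    (h.isWeaklyRegular_lTensor (M₂ := ι →₀ Q))

/-- Splitting off the first exponent. -/
noncomputable def consE (c : ℕ) : (Fin (c + 1) →₀ ℕ) ≃ (Fin c →₀ ℕ) × ℕ where
  toFun δ := (Finsupp.tail δ, δ 0)
  invFun p := Finsupp.cons p.2 p.1
  left_inv δ := Finsupp.cons_tail δ
  right_inv p := Prod.ext (Finsupp.tail_cons _ _) (Finsupp.cons_zero _ _)

/-- `(Fin (c + 1) →₀ ℕ) →₀ V` as `(Fin c →₀ ℕ) →₀ (ℕ →₀ V)` -/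
noncomputable def splitE (Q : Type*) [CommRing Q] (c : ℕ) (V : Type*) [AddCommGroup V] [Module Q V] :
    ((Fin (c + 1) →₀ ℕ) →₀ V) ≃ₗ[Q] ((Fin c →₀ ℕ) →₀ (ℕ →₀ V)) :=
  Finsupp.domLCongr (consE c) ≪≫ₗ Finsupp.curryLinearEquiv Q

theorem splitE_apply (c : ℕ) {V : Type*} [AddCommGroup V] [Module Q V]
    (b : (Fin (c + 1) →₀ ℕ) →₀ V) (γ : Fin c →₀ ℕ) (n : ℕ) :
    splitE Q c V b γ n = b (Finsupp.cons n γ) := by
  simp [splitE, consE]

theorem TD_single_zero {c : ℕ} {V : Type*} [AddCommGroup V] [Module Q V] (D : V →ₗ[Q] V)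
    (σ : Fin c → V →ₗ[Q] V) (v : V) :
    TD D σ (Finsupp.single 0 v) = Finsupp.single 0 (D v) := by
  classical
  ext γ
  rw [TD_apply, Finset.sum_eq_zero, add_zero]
  · by_cases h : γ = 0
    · subst h
      rw [Finsupp.single_eq_same, Finsupp.single_eq_same]
    · rw [Finsupp.single_eq_of_ne h, Finsupp.single_eq_of_ne h, map_zero]
  · intro j _
    rw [Finsupp.single_eq_of_ne, map_zero]
    intro h
    have h1 := DFunLike.congr_fun h j
    rw [Finsupp.add_apply, Finsupp.single_eq_same] at h1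
    exact Nat.succ_ne_zero _ h1

theorem splitE_single {c : ℕ} {V : Type*} [AddCommGroup V] [Module Q V] (v : V) :
    splitE Q c V (Finsupp.single 0 v) = Finsupp.single 0 (Finsupp.single 0 v) := by
  classical
  ext γ n
  rw [splitE_apply]
  by_cases hγ : γ = 0
  · subst hγ
    rw [Finsupp.single_eq_same]
    by_cases hn : n = 0
    · subst hn
      rw [Finsupp.cons_zero_zero, Finsupp.single_eq_same, Finsupp.single_eq_same]
    · rw [Finsupp.single_eq_of_ne hn, Finsupp.single_eq_of_ne]
      intro h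
      apply hn
      have h1 := DFunLike.congr_fun h 0
      rwa [Finsupp.cons_zero] at h1
  · rw [Finsupp.single_eq_of_ne hγ, Finsupp.single_eq_of_ne, Finsupp.zero_apply]
    intro h
    apply hγ
    rw [← Finsupp.tail_cons n γ, h]
    ext i
    rfl

theorem splitE_TD {c : ℕ} {V : Type*} [AddCommGroup V] [Module Q V] (D : V →ₗ[Q] V)
    (σ : Fin (c + 1) → V →ₗ[Q] V) (b : (Fin (c + 1) →₀ ℕ) →₀ V) :
    splitE Q c V (TD D σ b) =
      TD (TD1 D (σ 0)) (fun j => Finsupp.mapRange.linearMap (σ j.succ)) (splitE Q c V b) := by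
  ext γ n
  rw [splitE_apply, TD_apply, TD_apply, Fin.sum_univ_succ, Finsupp.add_apply, TD1_apply, splitE_apply,
    splitE_apply, Finsupp.finsetSum_apply, ← add_assoc]
  have h0 : Finsupp.cons n γ + Finsupp.single 0 1 = Finsupp.cons (n + 1) γ := by
    ext i
    refine Fin.cases ?_ (fun i => ?_) i
    · simp
    · simp
  have h1 : ∀ j : Fin c, Finsupp.cons n γ + Finsupp.single j.succ 1 =
      Finsupp.cons n (γ + Finsupp.single j 1) := by
    intro j
    ext i
    refine Fin.cases ?_ (fun i => ?_) i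
    · simp
    · simp [Finsupp.single_apply]
  rw [h0]
  congr 1
  refine Finset.sum_congr rfl fun j _ => ?_
  rw [h1]
  change _ = σ j.succ ((splitE Q c V b) (γ + Finsupp.single j 1) n)
  rw [splitE_apply]

/-- The kernel of the componentwise map. -/
theorem ker_mapRange {ι V W : Type*} [AddCommGroup V] [Module Q V] [AddCommGroup W] [Module Q W]
    (I : Ideal Q) (ρ : V →ₗ[Q] W) (h : LinearMap.ker ρ = I • (⊤ : Submodule Q V))
    (h2 : ∀ a ∈ I, ∀ w : W, a • w = 0) :
    LinearMap.ker (Finsupp.mapRange.linearMap ρ : (ι →₀ V) →ₗ[Q] (ι →₀ W)) =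
      I • (⊤ : Submodule Q (ι →₀ V)) := by
  classical
  apply le_antisymm
  · intro b hb
    rw [LinearMap.mem_ker] at hb
    rw [← Finsupp.sum_single b]
    refine Submodule.sum_mem _ fun i _ => ?_
    have h3 : b i ∈ I • (⊤ : Submodule Q V) := by
      rw [← h, LinearMap.mem_ker]
      exact DFunLike.congr_fun hb i
    have h4 : Finsupp.lsingle (R := Q) i (b i) ∈
        Submodule.map (Finsupp.lsingle (R := Q) (M := V) i) (I • (⊤ : Submodule Q V)) :=
      Submodule.mem_map_of_mem h3
    rw [Submodule.map_smul''] at h4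
    exact Submodule.smul_mono le_rfl le_top h4
  · rw [Submodule.smul_le]
    intro a ha b _
    rw [LinearMap.mem_ker, map_smul]
    ext i
    exact h2 a ha _

/-- TATE'S THEOREM: every cycle of `(T/(f)T)<y_1, …, y_c>`, with `d = D + ∑ σ_j ∂/∂y_j`, is, up to a boundary, the image of a cycle of `T`.

PROOF. Induction on `c` (generalizing everything). `c = 0`: `r` is bijective, `Fin 0 →₀ ℕ` has one element. `c + 1`: `List.ofFn f = f 0 :: List.ofFn (fun j => f j.succ)`,
`RingTheory.Sequence.isWeaklyRegular_cons_iff`. Let `V1 = T/f_0 T` (`QuotSMulTop (f 0) T`) with the induced `D1`, `σ1_j`, and `T1 = ℕ →₀ V1` with `TD1 D1 (σ1_0)` and the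
operators `σ1_j`, `j ≥ 1`, componentwise: they satisfy the hypotheses (`TD1 ∘ TD1 = 0` because `f_0 = 0` on `V1`), the sequence `f_1, …` is weakly regular on `T1`
(`weaklyRegular_finsupp`), and `T1 → (ℕ →₀ V)`, `V = T/(f)T`, is surjective with kernel `(f_1, …) T1`. The induction hypothesis for `c` applies to `T1`, with the module
`(Fin c →₀ ℕ) →₀ (ℕ →₀ V)`, which is identified with `(Fin (c + 1) →₀ ℕ) →₀ V` by `Finsupp.cons` and currying; the differentials correspond. Combine with `tate_one` for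
`T → V1<y_0> = T1`. -/
theorem tate_exact (c : ℕ) {T V : Type v} [AddCommGroup T] [Module Q T] [AddCommGroup V] [Module Q V]
    (D : T →ₗ[Q] T) (σ : Fin c → T →ₗ[Q] T) (f : Fin c → Q) (hD : ∀ v, D (D v) = 0)
    (hDσ : ∀ j v, D (σ j v) + σ j (D v) = f j • v) (hσσ : ∀ i j v, σ i (σ j v) = -σ j (σ i v))
    (hσ : ∀ j v, σ j (σ j v) = 0) (hreg : RingTheory.Sequence.IsWeaklyRegular T (List.ofFn f))
    (r : T →ₗ[Q] V) (hr : Function.Surjective r)
    (hker : LinearMap.ker r = Ideal.span (Set.range f) • (⊤ : Submodule Q T))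
    (D' : V →ₗ[Q] V) (σ' : Fin c → V →ₗ[Q] V) (hrD : ∀ v, r (D v) = D' (r v))
    (hrσ : ∀ j v, r (σ j v) = σ' j (r v)) (b : (Fin c →₀ ℕ) →₀ V) (hb : TD D' σ' b = 0) :
    ∃ (v : T) (b' : (Fin c →₀ ℕ) →₀ V), D v = 0 ∧ b = Finsupp.single 0 (r v) + TD D' σ' b' := by
  induction c generalizing T V with
  | zero =>
    have hinj : ∀ v, r v = 0 → v = 0 := by
      intro v hv
      have h1 : v ∈ LinearMap.ker r := hv
      rw [hker] at h1
      have h2 : (Set.range f) = ∅ := Set.range_eq_empty f
      rw [h2, Ideal.span_empty, Submodule.bot_smul, Submodule.mem_bot] at h1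
      exact h1
    obtain ⟨v, hv⟩ := hr (b 0)
    have h3 := DFunLike.congr_fun hb 0
    rw [TD_apply, Finset.univ_eq_empty, Finset.sum_empty, add_zero, Finsupp.zero_apply, ← hv, ← hrD] at h3
    refine ⟨v, 0, hinj _ h3, ?_⟩
    rw [map_zero, add_zero]
    refine Finsupp.ext fun γ => ?_
    rw [Subsingleton.elim γ 0, Finsupp.single_eq_same, hv]
  | succ c ih =>
    rw [List.ofFn_succ, RingTheory.Sequence.isWeaklyRegular_cons_iff] at hreg
    obtain ⟨hreg0, hreg1⟩ := hreg
    set V1 := QuotSMulTop (f 0) T with hV1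
    let π : T →ₗ[Q] V1 := Submodule.mkQ _
    have hπ : Function.Surjective π := Submodule.mkQ_surjective _
    let D1 : V1 →ₗ[Q] V1 := QuotSMulTop.map (f 0) D
    let σ1 : Fin (c + 1) → V1 →ₗ[Q] V1 := fun j => QuotSMulTop.map (f 0) (σ j)
    have hD1 : ∀ v, π (D v) = D1 (π v) := fun v => rfl
    have hσ1 : ∀ j v, π (σ j v) = σ1 j (π v) := fun j v => rfl
    have hπ0 : ∀ v, π v = 0 ↔ ∃ w, v = f 0 • w := by
      intro v
      rw [← LinearMap.mem_ker, Submodule.ker_mkQ, Submodule.mem_smul_pointwise_iff_exists]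
      constructor
      · rintro ⟨w, _, hw⟩
        exact ⟨w, hw.symm⟩
      · rintro ⟨w, hw⟩
        exact ⟨w, trivial, hw.symm⟩
    have hf0 : ∀ v : V1, f 0 • v = 0 := by
      intro v
      obtain ⟨t, rfl⟩ := hπ v
      rw [← map_smul]
      exact (hπ0 _).2 ⟨t, rfl⟩
    have hI : ∀ a ∈ Ideal.span (Set.range f), ∀ w : V, a • w = 0 := by
      intro a ha w
      obtain ⟨t, rfl⟩ := hr w
      rw [← map_smul, ← LinearMap.mem_ker, hker]
      exact Submodule.smul_mem_smul ha trivial
    let ρ : V1 →ₗ[Q] V := Submodule.liftQ _ r (by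
      intro v hv
      obtain ⟨w, rfl⟩ := (hπ0 v).1 (by rw [← LinearMap.mem_ker, Submodule.ker_mkQ]; exact hv)
      rw [LinearMap.mem_ker, map_smul]
      exact hI _ (Ideal.subset_span ⟨0, rfl⟩) _)
    have hρ : ∀ v, ρ (π v) = r v := fun v => rfl
    have hρs : Function.Surjective ρ := by
      intro w
      obtain ⟨t, rfl⟩ := hr w
      exact ⟨π t, rfl⟩
    have hspan : Ideal.span (Set.range f) =
        Ideal.span {f 0} ⊔ Ideal.span (Set.range fun j : Fin c => f j.succ) := by
      rw [← Ideal.span_union]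
      congr 1
      ext a
      constructor
      · rintro ⟨i, rfl⟩
        refine Fin.cases ?_ (fun i => ?_) i
        · exact Or.inl rfl
        · exact Or.inr ⟨i, rfl⟩
      · rintro (h | ⟨i, rfl⟩)
        · exact ⟨0, h.symm⟩
        · exact ⟨i.succ, rfl⟩
    have hρk : LinearMap.ker ρ = Ideal.span (Set.range fun j : Fin c => f j.succ) •
        (⊤ : Submodule Q V1) := by
      apply le_antisymm
      · intro v hv
        obtain ⟨t, rfl⟩ := hπ v
        have h1 : t ∈ LinearMap.ker r := hv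
        rw [hker, hspan, Submodule.sup_smul] at h1
        obtain ⟨x, hx, y, hy, rfl⟩ := Submodule.mem_sup.1 h1
        rw [map_add]
        have h2 : π x = 0 := by
          rw [Submodule.ideal_span_singleton_smul] at hx
          rw [hπ0]
          obtain ⟨w, _, hw⟩ := (Submodule.mem_smul_pointwise_iff_exists _ _ _).1 hx
          exact ⟨w, hw.symm⟩
        rw [h2, zero_add]
        have h3 : π y ∈ Submodule.map π (Ideal.span (Set.range fun j : Fin c => f j.succ) •
            (⊤ : Submodule Q T)) := Submodule.mem_map_of_mem hy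
        rw [Submodule.map_smul''] at h3
        exact Submodule.smul_mono le_rfl le_top h3
      · rw [Submodule.smul_le]
        intro a ha v _
        rw [LinearMap.mem_ker, map_smul]
        refine hI a ?_ _
        rw [hspan]
        exact Ideal.mem_sup_right ha
    have hDD : ∀ v : V1, D1 (D1 v) = 0 := by
      intro v
      obtain ⟨t, rfl⟩ := hπ v
      rw [← hD1, ← hD1, hD, map_zero]
    have hDσ1 : ∀ j (v : V1), D1 (σ1 j v) + σ1 j (D1 v) = f j • v := by
      intro j v
      obtain ⟨t, rfl⟩ := hπ v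
      rw [← hD1, ← hσ1, ← hσ1, ← hD1, ← map_add, hDσ, map_smul]
    have hσσ1 : ∀ i j (v : V1), σ1 i (σ1 j v) = -σ1 j (σ1 i v) := by
      intro i j v
      obtain ⟨t, rfl⟩ := hπ v
      rw [← hσ1, ← hσ1, ← hσ1, ← hσ1, hσσ, map_neg]
    have hσ01 : ∀ j (v : V1), σ1 j (σ1 j v) = 0 := by
      intro j v
      obtain ⟨t, rfl⟩ := hπ v
      rw [← hσ1, ← hσ1, hσ, map_zero]
    have hρD : ∀ v, ρ (D1 v) = D' (ρ v) := by
      intro v
      obtain ⟨t, rfl⟩ := hπ v
      exact hrD t
    have hρσ : ∀ j v, ρ (σ1 j v) = σ' j (ρ v) := by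
      intro j v
      obtain ⟨t, rfl⟩ := hπ v
      exact hrσ j t
    have key := ih (T := ℕ →₀ V1) (V := ℕ →₀ V) (TD1 D1 (σ1 0))
      (fun j => Finsupp.mapRange.linearMap (σ1 j.succ)) (fun j => f j.succ)
      (by
        intro v
        ext n
        rw [TD1_apply, TD1_apply, TD1_apply, LinearMap.map_add, LinearMap.map_add, hDD, zero_add,
          ← add_assoc, hDσ1, hf0, zero_add, hσ01, Finsupp.zero_apply])
      (by
        intro j v
        ext n
        rw [Finsupp.add_apply, TD1_apply]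
        change D1 (σ1 j.succ (v n)) + σ1 0 (σ1 j.succ (v (n + 1))) +
          σ1 j.succ (TD1 D1 (σ1 0) v n) = f j.succ • v n
        rw [TD1_apply, LinearMap.map_add, ← hDσ1, hσσ1 0 j.succ]
        abel)
      (by
        intro i j v
        ext n
        exact hσσ1 i.succ j.succ (v n))
      (by
        intro j v
        ext n
        exact hσ01 j.succ (v n))
      (weaklyRegular_finsupp _ hreg1 ℕ)
      (Finsupp.mapRange.linearMap ρ)
      (Finsupp.mapRange_surjective ρ (map_zero ρ) hρs)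
      (ker_mapRange _ ρ hρk (fun a ha w => hI a (by
        rw [hspan]
        exact Ideal.mem_sup_right ha) w))
      (TD1 D' (σ' 0)) (fun j => Finsupp.mapRange.linearMap (σ' j.succ))
      (by
        intro v
        ext n
        change ρ (TD1 D1 (σ1 0) v n) = TD1 D' (σ' 0) (Finsupp.mapRange.linearMap ρ v) n
        rw [TD1_apply, TD1_apply, LinearMap.map_add, hρD, hρσ]
        rfl)
      (by
        intro j v
        ext n
        exact hρσ j.succ (v n))
      (splitE Q c V b)
      (by rw [← splitE_TD, hb, map_zero])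
    obtain ⟨v1, b1, hv1, hb1⟩ := key
    obtain ⟨v, b2, hv, hb2⟩ := tate_one D (σ 0) (f 0) hD (hσ 0) (hDσ 0)
      (fun v hv => by
        have := hreg0 (a₁ := v) (a₂ := 0) (by
          change f 0 • v = f 0 • (0 : T)
          rw [hv, smul_zero])
        exact this) π hπ hπ0 D1 (σ1 0) hD1 (hσ1 0) v1 hv1
    have h5 : (Finsupp.mapRange.linearMap ρ : (ℕ →₀ V1) →ₗ[Q] (ℕ →₀ V)) v1 =
        Finsupp.single 0 (r v) + TD1 D' (σ' 0) (Finsupp.mapRange.linearMap ρ b2) := by
      conv_lhs => rw [hb2]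
      rw [map_add]
      congr 1
      · ext n
        change ρ (Finsupp.single 0 (π v) n) = _
        by_cases hn : n = 0
        · subst hn
          rw [Finsupp.single_eq_same, Finsupp.single_eq_same, hρ]
        · rw [Finsupp.single_eq_of_ne hn, Finsupp.single_eq_of_ne hn, map_zero]
      · ext n
        change ρ (TD1 D1 (σ1 0) b2 n) = TD1 D' (σ' 0) (Finsupp.mapRange.linearMap ρ b2) n
        rw [TD1_apply, TD1_apply, LinearMap.map_add, hρD, hρσ]
        rfl
    refine ⟨v, (splitE Q c V).symm (b1 + Finsupp.single 0 (Finsupp.mapRange.linearMap ρ b2)), hv, ?_⟩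
    apply (splitE Q c V).injective
    rw [map_add, splitE_TD, LinearEquiv.apply_symm_apply, splitE_single, map_add, TD_single_zero, hb1,
      h5, Finsupp.single_add]
    abel

end MP8a
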