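import Pool.Agent.Lib_MP_8a48ad_gt.CIPres
import Pool.Agent.Lib_MP_8a48ad_gt.CITate2

/-! # Piece CIEX: Tate's theorem applied to `TB` -/

set_option autoImplicit false

namespace MP8a

open MvPolynomial

universe u

variable {k : Type u} [Field k] {n : ℕ} {R : Type u} [CommRing R] [Algebra k R] [Algebra R (Sn k n)]
  {GR : Gr R} {N c : ℕ}

/-- `f_1, …, f_c` is weakly regular on the free `k[X]`-module `Finset (Fin N) → k[X][x]`.
PROOF. `RingTheory.Sequence.IsWeaklyRegular.isWeaklyRegular_lTensor` with the flat module `M₂ = (Finset (Fin N) → k[X][x])` and `M = k[X]`, and `TensorProduct.rid`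
(`LinearEquiv.isWeaklyRegular_congr`). -/
theorem Pres.weaklyRegular (P : Pres k GR N c) (n : ℕ) :
    RingTheory.Sequence.IsWeaklyRegular (Finset (Fin N) → MvPolynomial (Fin n) (MvPolynomial (Fin N) k))
      (List.ofFn P.f) := by
  have h := P.reg.isWeaklyRegular_lTensor
    (M₂ := (Finset (Fin N) → MvPolynomial (Fin n) (MvPolynomial (Fin N) k)))
  exact ((TensorProduct.rid (MvPolynomial (Fin N) k)
    (Finset (Fin N) → MvPolynomial (Fin n) (MvPolynomial (Fin N) k))).isWeaklyRegular_congr _).1 h

/-- Every cycle of `TB` is, up to a boundary, the image of a cycle of the Koszul complex over `Q[x]`.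

PROOF. `tate_exact` with `Q = k[X_1..X_N]`, `T = (Finset (Fin N) → Q[x])`, `V = (KB t).X = (Finset (Fin N) → R[x])`, a `Q`-module through `P.π` (`Module.compHom`), `D = KD (aQ x)`,
`σ_j = KS (P.g hS j)` (restricted to `Q`), `r v = fun I => map P.π (v I)` (kernel: `MvPolynomial.ker_map`, `P.ker`, entrywise), `hDσ` is `KD_KS` with `P.g_sum`; `D'`, `σ'_j` are the operators of `TB` as `Q`-linear maps;
the two differentials are equal as functions (`TD_apply`). -/
theorem Pres.tb_exact (hS : Setup k n GR) (P : Pres k GR N c) (b : (TB (P.tdata hS)).X)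
    (hb : (TB (P.tdata hS)).d b = 0) :
    ∃ (v : Finset (Fin N) → MvPolynomial (Fin n) (MvPolynomial (Fin N) k)) (b' : (TB (P.tdata hS)).X),
      KD (aQ (P.x n)) v = 0 ∧
        b = Finsupp.single 0 (fun I => map P.π.toRingHom (v I)) + (TB (P.tdata hS)).d b' := by
  classical
  let _ : Algebra (MvPolynomial (Fin N) k) R := P.π.toRingHom.toAlgebra
  have hsmul : ∀ (q : MvPolynomial (Fin N) k) (w : MvPolynomial (Fin n) R), q • w = C (P.π q) * w := by
    intro q w
    ext μ
    rw [coeff_smul, coeff_C_mul]
    rfl
  let r : (Finset (Fin N) → MvPolynomial (Fin n) (MvPolynomial (Fin N) k)) →ₗ[MvPolynomial (Fin N) k]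
      (Finset (Fin N) → MvPolynomial (Fin n) R) :=
    { toFun := fun v I => map P.π.toRingHom (v I)
      map_add' := by
        intro v w
        funext I
        exact map_add _ _ _
      map_smul' := by
        intro q v
        funext I
        change map P.π.toRingHom (q • v I) = q • map P.π.toRingHom (v I)
        rw [hsmul, MvPolynomial.smul_eq_C_mul, map_mul, map_C]
        rfl }
  have hr0 : ∀ v I, r v I = map P.π.toRingHom (v I) := fun v I => rfl
  have hdE : ∀ (i : Fin N) v, r (dE (MvPolynomial (Fin n) (MvPolynomial (Fin N) k)) i v) =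
      dE (MvPolynomial (Fin n) R) i (r v) := by
    intro i v
    funext I
    rw [hr0, dE_apply, dE_apply]
    by_cases h : i ∈ I
    · rw [if_pos h, if_pos h, map_zero]
    · rw [if_neg h, if_neg h, map_zsmul, hr0]
  have hwE : ∀ (i : Fin N) v, r (wE (MvPolynomial (Fin n) (MvPolynomial (Fin N) k)) i v) =
      wE (MvPolynomial (Fin n) R) i (r v) := by
    intro i v
    funext I
    rw [hr0, wE_apply, wE_apply]
    by_cases h : i ∈ I
    · rw [if_pos h, if_pos h, map_zsmul, hr0]
    · rw [if_neg h, if_neg h, map_zero]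
  have hKD : ∀ v, r (KD (aQ (P.x n)) v) = KD (P.tdata hS).a (r v) := by
    intro v
    funext I
    rw [hr0, KD_apply, KD_apply, map_sum]
    refine Finset.sum_congr rfl fun i _ => ?_
    rw [← hdE, smul_eq_mul, map_mul, hr0]
    rfl
  have hKS : ∀ j v, r (KS (P.g hS j) v) = KS ((P.tdata hS).g j) (r v) := by
    intro j v
    funext I
    rw [hr0, KS_apply, KS_apply, map_sum]
    refine Finset.sum_congr rfl fun i _ => ?_
    rw [← hwE, smul_eq_mul, map_mul, hr0]
    rfl
  have hsurj : Function.Surjective r := by
    intro w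
    choose v hv using fun I => MvPolynomial.map_surjective P.π.toRingHom P.surj (w I)
    exact ⟨v, funext hv⟩
  have hker : LinearMap.ker r = Ideal.span (Set.range P.f) •
      (⊤ : Submodule (MvPolynomial (Fin N) k)
        (Finset (Fin N) → MvPolynomial (Fin n) (MvPolynomial (Fin N) k))) := by
    apply le_antisymm
    · intro v hv
      have h1 : ∀ I μ, coeff μ (v I) ∈ Ideal.span (Set.range P.f) := by
        intro I μ
        rw [← P.ker]
        have h2 : map P.π.toRingHom (v I) = 0 := congrFun hv I
        have h3 := congrArg (coeff μ) h2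
        rw [coeff_map, coeff_zero] at h3
        exact h3
      have h2 : v = ∑ I, ∑ μ ∈ (v I).support, coeff μ (v I) •
          (Pi.single I (monomial μ 1) :
            Finset (Fin N) → MvPolynomial (Fin n) (MvPolynomial (Fin N) k)) := by
        funext J
        rw [Finset.sum_apply, Finset.sum_eq_single J]
        · rw [Finset.sum_apply]
          conv_lhs => rw [(v J).as_sum]
          refine Finset.sum_congr rfl fun μ _ => ?_
          rw [Pi.smul_apply, Pi.single_eq_same, smul_monomial, smul_eq_mul, mul_one]
        · intro I _ hIJ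
          rw [Finset.sum_apply]
          refine Finset.sum_eq_zero fun μ _ => ?_
          rw [Pi.smul_apply, Pi.single_eq_of_ne hIJ.symm, smul_zero]
        · intro h
          exact absurd (Finset.mem_univ J) h
      rw [h2]
      exact Submodule.sum_mem _ fun I _ => Submodule.sum_mem _ fun μ _ =>
        Submodule.smul_mem_smul (h1 I μ) trivial
    · rw [Submodule.smul_le]
      intro a ha v _
      rw [LinearMap.mem_ker, map_smul]
      funext I
      have h1 : P.π a = 0 := by
        rw [← P.ker] at ha
        exact ha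
      change a • (r v I) = 0
      rw [hsmul, h1, C_0, zero_mul]
  have hTD : ∀ b : (Fin c →₀ ℕ) →₀ (Finset (Fin N) → MvPolynomial (Fin n) R),
      TD ((KD (V := MvPolynomial (Fin n) R) (P.tdata hS).a).restrictScalars (MvPolynomial (Fin N) k))
        (fun j => (KS (V := MvPolynomial (Fin n) R) ((P.tdata hS).g j)).restrictScalars
          (MvPolynomial (Fin N) k)) b = (TB (P.tdata hS)).d b := by
    intro b
    refine Finsupp.ext fun γ => ?_
    rw [TD_apply, TB_d_apply]
    rfl
  obtain ⟨v, b', hv, hb'⟩ := tate_exact (Q := MvPolynomial (Fin N) k) c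
    (T := Finset (Fin N) → MvPolynomial (Fin n) (MvPolynomial (Fin N) k))
    (V := Finset (Fin N) → MvPolynomial (Fin n) R)
    ((KD (aQ (P.x n))).restrictScalars (MvPolynomial (Fin N) k))
    (fun j => (KS (P.g hS j)).restrictScalars (MvPolynomial (Fin N) k)) P.f
    (fun v => KD_KD _ v)
    (fun j v => by
      have h := KD_KS (aQ (P.x n)) (P.g hS j) v
      rw [P.g_sum hS j] at h
      refine h.trans ?_
      funext I
      rw [Pi.smul_apply, Pi.smul_apply, smul_eq_mul, MvPolynomial.smul_eq_C_mul])
    (fun i j v => KS_KS _ _ v)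
    (fun j v => KS_self _ v)
    (P.weaklyRegular n) r hsurj hker
    ((KD (P.tdata hS).a).restrictScalars (MvPolynomial (Fin N) k))
    (fun j => (KS ((P.tdata hS).g j)).restrictScalars (MvPolynomial (Fin N) k))
    hKD hKS b ((hTD b).trans hb)
  refine ⟨v, b', hv, ?_⟩
  rw [← hTD b']
  exact hb'

end MP8a
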