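import Pool.Agent.Lib_MP_8a48ad_gt.CINull
import Pool.Agent.Lib_MP_8a48ad_gt.FGS

/-! # Piece CIFG1: a finite free cover and extension of morphisms -/

set_option autoImplicit false

namespace MP8a

universe u

variable {A : Type u} [CommRing A] {G : Gr A}

/-- A finite set of homogeneous elements of a set of homogeneous elements of `H^r` spans (over a noetherian ring) the submodule spanned by it. Here: let `M` have finitely
generated cohomology, `r : ℕ`, and let `𝒲` be a set of pairs `(e, w)`, `w : Fin r → M.X` a tuple of cycles. Then finitely many members `(e_l, w_l)` of `𝒲` generate: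
every `w ∈ 𝒲` is `∑ a_l w_l` modulo boundaries, with `a_l ∈ A`.

PROOF. The classes of the tuples `w` in `(Fin r → M.H)`, a noetherian `A`-module; the submodule spanned by them is finitely generated, so it is spanned by a finite set of
them (`Submodule.fg_span_iff_fg_span_finset_subset`). -/
theorem exists_finite_span [IsNoetherianRing A] {M : DGM G} (hM : FG M) (r : ℕ) (W : Set (Fin r → M.X))
    (hW : ∀ w ∈ W, ∀ i, M.d (w i) = 0) : ∃ (s : ℕ) (v : Fin s → (Fin r → M.X)), (∀ l, v l ∈ W) ∧
      ∀ w ∈ W, ∃ (a : Fin s → A) (t : Fin r → M.X), ∀ i, w i = ∑ l, a l • v l i + M.d (t i) := by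
  classical
  haveI : Module.Finite A M.H := hM
  haveI : IsNoetherian A M.H := inferInstance
  haveI : IsNoetherian A (Fin r → M.H) := inferInstance
  let q : (LinearMap.ker M.d) →ₗ[A] M.H :=
    ((LinearMap.range M.d).submoduleOf (LinearMap.ker M.d)).mkQ
  let φ : W → (Fin r → M.H) := fun w i => q ⟨w.1 i, LinearMap.mem_ker.2 (hW w.1 w.2 i)⟩
  have hfg : (Submodule.span A (Set.range φ)).FG := IsNoetherian.noetherian _
  obtain ⟨S, hS, hspan⟩ := (Submodule.fg_span_iff_fg_span_finset_subset _).1 hfg
  choose p hp using fun x : S => hS x.2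
  refine ⟨S.card, fun l => (p (S.equivFin.symm l)).1, fun l => (p (S.equivFin.symm l)).2, ?_⟩
  intro w hw
  have hrange : Set.range (fun l : Fin S.card => φ (p (S.equivFin.symm l))) = (S : Set (Fin r → M.H)) := by
    ext x
    constructor
    · rintro ⟨l, rfl⟩
      change φ (p (S.equivFin.symm l)) ∈ (S : Set (Fin r → M.H))
      rw [hp]
      exact (S.equivFin.symm l).2
    · intro hx
      refine ⟨S.equivFin ⟨x, hx⟩, ?_⟩
      change φ (p (S.equivFin.symm (S.equivFin ⟨x, hx⟩))) = x
      rw [Equiv.symm_apply_apply, hp]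
  have h1 : φ ⟨w, hw⟩ ∈ Submodule.span A
      (Set.range (fun l : Fin S.card => φ (p (S.equivFin.symm l)))) := by
    rw [hrange, ← hspan]
    exact Submodule.subset_span ⟨⟨w, hw⟩, rfl⟩
  obtain ⟨a, ha⟩ := (Submodule.mem_span_range_iff_exists_fun A).1 h1
  have h2 : ∀ i, ∃ t, M.d t = w i - ∑ l, a l • (p (S.equivFin.symm l)).1 i := by
    intro i
    have h3 := congrFun ha i
    rw [Finset.sum_apply] at h3
    have h4 : q (∑ l, a l • ⟨(p (S.equivFin.symm l)).1 i,
        LinearMap.mem_ker.2 (hW _ (p (S.equivFin.symm l)).2 i)⟩) =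
        q ⟨w i, LinearMap.mem_ker.2 (hW w hw i)⟩ := by
      rw [map_sum]
      refine Eq.trans ?_ h3
      refine Finset.sum_congr rfl fun l _ => ?_
      rw [map_smul]
      rfl
    have h5 := (Submodule.Quotient.eq _).1 h4.symm
    have h6 : ((⟨w i, LinearMap.mem_ker.2 (hW w hw i)⟩ -
        ∑ l, a l • ⟨(p (S.equivFin.symm l)).1 i,
          LinearMap.mem_ker.2 (hW _ (p (S.equivFin.symm l)).2 i)⟩ : LinearMap.ker M.d) : M.X) ∈
        LinearMap.range M.d := h5
    obtain ⟨t, ht⟩ := h6
    refine ⟨t, ht.trans ?_⟩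
    rw [Submodule.coe_sub, Submodule.coe_sum]
    rfl
  choose t ht using h2
  refine ⟨a, t, fun i => ?_⟩
  rw [ht]
  abel

/-- `pr j (a z)` for `z` homogeneous -/
private theorem cifg1_pr_smul (M : DGM G) {i : ℤ} {z : M.X} (hz : M.pr i z = z) (j : ℤ) (a : A) :
    M.pr j (a • z) = (G.c (j - i) a) • z := by
  refine G.ind (P := fun a => M.pr j (a • z) = (G.c (j - i) a) • z) (by simp) ?_ ?_ a
  · intro x y hx hy
    rw [add_smul, map_add, map_add, add_smul, hx, hy]
  · intro l a ha
    rw [M.pr_smul' ha]
    by_cases h : j - i = l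
    · have h1 : j - l = i := by omega
      rw [h1, hz, h, ha]
    · have h1 : j - l ≠ i := fun h' => h (by omega)
      rw [M.pr_ne hz h1, smul_zero, ← ha, G.c_c, if_neg h, zero_smul]

/-- the free DG module with zero differential and generators of degrees `δ j` -/
@[reducible] private noncomputable def cifg1Free (G : Gr A) {r : ℕ} (δ : Fin r → ℤ) : DGM G where
  X := Fin r → A
  pr i :=
    { toFun := fun a j => G.c (i - δ j) (a j)
      map_zero' := by
        funext j
        exact map_zero _
      map_add' := fun a b => by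
        funext j
        exact map_add _ _ _ }
  pr_pr i j a := by
    funext l
    have h := G.c_c (i - δ l) (j - δ l) (a l)
    by_cases hij : i = j
    · subst hij
      rw [if_pos rfl] at h ⊢
      exact h
    · rw [if_neg hij]
      rw [if_neg (fun h' => hij (sub_left_injective h'))] at h
      exact h
  fin a := by
    classical
    choose s hs using fun l : Fin r => (regM G).exists_support (a l)
    refine ⟨Finset.univ.biUnion (fun l => (s l).map (addRightEmbedding (δ l))), ?_⟩
    funext l
    rw [Finset.sum_apply]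
    have h1 := (hs l).2 ((Finset.univ.biUnion (fun l => (s l).map (addRightEmbedding (δ l)))).map
      (addRightEmbedding (-(δ l)))) (by
        intro i hi
        rw [Finset.mem_map]
        refine ⟨i + δ l, Finset.mem_biUnion.2
          ⟨l, Finset.mem_univ l, Finset.mem_map.2 ⟨i, hi, rfl⟩⟩, ?_⟩
        simp)
    rw [Finset.sum_map] at h1
    exact h1
  smul := by
    intro i j a x ha hx
    funext l
    have h1 : G.c (j - δ l) (x l) = x l := congrFun hx l
    have h2 := G.mul ha h1
    have h3 : i + j - δ l = i + (j - δ l) := by ring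
    change G.c (i + j - δ l) (a * x l) = a * x l
    rw [h3]
    exact h2
  d := 0
  d_hom := by
    intro i x _
    rw [LinearMap.zero_apply, map_zero]
  d_d _ := rfl

private theorem cifg1_isMor_sum {M N : DGM G} {e : ℤ} {ι : Type*} (s : Finset ι)
    (h : ι → M.X →ₗ[A] N.X) (hh : ∀ i ∈ s, IsMor M N e (h i)) : IsMor M N e (∑ i ∈ s, h i) := by
  classical
  induction s using Finset.induction_on with
  | empty =>
    rw [Finset.sum_empty]
    exact isMor_zero _ _ _
  | insert i s hi ih =>
    rw [Finset.sum_insert hi]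
    exact (hh i (Finset.mem_insert_self i s)).add
      (ih (fun j hj => hh j (Finset.mem_insert_of_mem hj)))

/-- COVERS AND EXTENSIONS. Let `K'` and `M` have finitely generated cohomology. There is a ghost `c : K' → K''` of degree `0`, `FG K''`, and a finite family of morphisms
`w_l : K' → M` of degrees `ε_l` such that for every morphism `w : K' → M` of degree `e` there are homogeneous `a_l` (of degree `e - ε_l`) such that `w - ∑ a_l w_l` extends to `K''`.

PROOF. Let `z_1, …, z_r` be homogeneous cycles of `K'`, of degrees `δ_i`, which generate the cohomology (`FG.exists_hom`). `K''` has the underlying module `K'.X × (Fin r → A)`,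
`pr i (x, a) = (pr i x, fun j => G.c (i + 1 - δ_j) (a j))`, `d (x, a) = (d x + ∑ a_j z_j, 0)`; `c x = (x, 0)`. (It is also the cone of a finite free cover, see `exists_cover`.)
`c` is a ghost; `FG K''` by `FG_ses`. A morphism `w : K' → M` of degree `e` extends to `K''` if (and only if) every `w z_j` is a boundary:
`w z_j = d m_j`, `m_j` homogeneous of degree `δ_j + e - 1`, `(x, a) ↦ w x + ∑ a_j m_j`. Apply `exists_finite_span` to the set of all tuples `(w z_1, …, w z_r)` for all degrees `e` and all morphisms
`w : K' → M` of degree `e`. For a given `w` of degree `e` one has `w z_i = ∑ a_l w_l z_i + d t_i`; take the component of degree `δ_i + e`: the `a_l` can be replaced by their components of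
degree `e - ε_l`, and `t_i` by its component of degree `δ_i + e - 1`. -/
theorem exists_cover_ext [IsNoetherianRing A] {K' M : DGM G} (hK : FG K') (hM : FG M) :
    ∃ (K'' : DGM G) (c : K'.X →ₗ[A] K''.X) (s : ℕ) (w : Fin s → (K'.X →ₗ[A] M.X)) (ε : Fin s → ℤ),
      IsMor K' K'' 0 c ∧ Ghost K' K'' c ∧ FG K'' ∧ (∀ l, IsMor K' M (ε l) (w l)) ∧
      ∀ (e : ℤ) (v : K'.X →ₗ[A] M.X), IsMor K' M e v → ∃ (a : Fin s → A) (v' : K''.X →ₗ[A] M.X),
        (∀ l, G.c (e - ε l) (a l) = a l) ∧ IsMor K'' M e v' ∧ ∀ x, v x = ∑ l, a l • w l x + v' (c x) := by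
  classical
  obtain ⟨S, hS, hh, hgen⟩ := hK.exists_hom
  let r : ℕ := S.card
  let z : Fin r → K'.X := fun j => ((S.equivFin.symm j : S) : K'.X)
  have hzd : ∀ j, K'.d (z j) = 0 := fun j => hS _ (S.equivFin.symm j).2
  have hzh : ∀ j, ∃ i, K'.pr i (z j) = z j := fun j => hh _ (S.equivFin.symm j).2
  choose δ hδ using hzh
  have hzr : Set.range z = (S : Set K'.X) := by
    ext x
    constructor
    · rintro ⟨l, rfl⟩
      exact (S.equivFin.symm l).2
    · intro hx
      refine ⟨S.equivFin ⟨x, hx⟩, ?_⟩
      change ((S.equivFin.symm (S.equivFin ⟨x, hx⟩) : S) : K'.X) = x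
      rw [Equiv.symm_apply_apply]
  let F : DGM G := cifg1Free G δ
  let f : (Fin r → A) →ₗ[A] K'.X := Fintype.linearCombination A z
  have hf_apply : ∀ a : Fin r → A, f a = ∑ j, a j • z j := fun a => Fintype.linearCombination_apply A z a
  have hf : IsMor F K' 0 f := by
    constructor
    · intro i a
      change K'.pr (i + 0) (f a) = f (fun j => G.c (i - δ j) (a j))
      rw [add_zero, hf_apply, hf_apply, map_sum]
      exact Finset.sum_congr rfl fun j _ => cifg1_pr_smul K' (hδ j) i (a j)
    · intro a
      change K'.d (f a) = f 0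
      rw [map_zero, hf_apply, map_sum]
      refine Finset.sum_eq_zero fun j _ => ?_
      rw [map_smul, hzd, smul_zero]
  have hFG : FG F := FG_of_finite (M := F) (inferInstanceAs (Module.Finite A (Fin r → A))) rfl
  -- the family
  let W : Set (Fin r → M.X) :=
    {t | ∃ (e : ℤ) (v : K'.X →ₗ[A] M.X), IsMor K' M e v ∧ t = fun j => v (z j)}
  obtain ⟨s, V, hV, hgenV⟩ := exists_finite_span hM r W (by
    rintro t ⟨e, v, hv, rfl⟩ i
    change M.d (v (z i)) = 0
    rw [hv.d, hzd, map_zero])
  choose ε w hw hVw using hV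
  refine ⟨F.cone K' f hf, LinearMap.inl A K'.X F.X, s, w, ε, isMor_cone_inl F K' f hf, ?_, ?_, hw, ?_⟩
  · intro x hx
    obtain ⟨y, hy⟩ := hgen x hx
    rw [← hzr] at hy
    obtain ⟨φ, hφ⟩ := (Submodule.mem_span_range_iff_exists_fun A).1 hy
    refine ⟨(y, φ), ?_⟩
    rw [DGM.cone_d]
    refine Prod.ext ?_ ?_
    · change K'.d y + f φ = x
      rw [hf_apply, hφ]
      abel
    · change -(F.d φ) = 0
      change -((0 : (Fin r → A) →ₗ[A] (Fin r → A)) φ) = 0
      rw [LinearMap.zero_apply, neg_zero]
  · exact (FG_ses (isMor_cone_inl F K' f hf) (isMor_cone_snd F K' f hf)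
      (isSES_cone F K' f hf)).2.1 hK (FG_sh hFG 1)
  · intro e v hv
    obtain ⟨a, t, hat⟩ := hgenV (fun j => v (z j)) ⟨e, v, hv, rfl⟩
    let a' : Fin s → A := fun l => G.c (e - ε l) (a l)
    let t' : Fin r → M.X := fun j => M.pr (δ j + e - 1) (t j)
    have ha' : ∀ l, G.c (e - ε l) (a' l) = a' l := fun l => G.c_self _ _
    have ht' : ∀ j, M.pr (δ j + e - 1) (t' j) = t' j := fun j => M.pr_self _ _
    have hvz : ∀ j, v (z j) = ∑ l, a' l • w l (z j) + M.d (t' j) := by
      intro j
      have h1 : M.pr (δ j + e) (v (z j)) = v (z j) := by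
        rw [hv.pr, hδ]
      have h2 : ∀ l, M.pr (δ j + e) (a l • w l (z j)) = a' l • w l (z j) := by
        intro l
        have h3 : M.pr (δ j + ε l) (w l (z j)) = w l (z j) := by
          rw [(hw l).pr, hδ]
        have h4 := cifg1_pr_smul M h3 (δ j + e) (a l)
        have h5 : δ j + e - (δ j + ε l) = e - ε l := by ring
        rw [h5] at h4
        exact h4
      have h6 : M.pr (δ j + e) (M.d (t j)) = M.d (t' j) := by
        have h7 := M.pr_d (δ j + e - 1) (t j)
        rw [sub_add_cancel] at h7
        exact h7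
      have h8 : v (z j) = ∑ l, a l • w l (z j) + M.d (t j) := by
        have h9 := hat j
        refine h9.trans ?_
        congr 1
        refine Finset.sum_congr rfl fun l _ => ?_
        rw [hVw l]
      rw [← h1]
      rw [h8, map_add, map_sum, h6]
      congr 1
      exact Finset.sum_congr rfl fun l _ => h2 l
    let u : K'.X →ₗ[A] M.X := v - ∑ l, a' l • w l
    have hu_apply : ∀ x, u x = v x - ∑ l, a' l • w l x := by
      intro x
      change (v - ∑ l, a' l • w l) x = _
      rw [LinearMap.sub_apply, LinearMap.sum_apply]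
      rfl
    have hu : IsMor K' M e u := by
      refine hv.sub (cifg1_isMor_sum _ _ fun l _ => ?_)
      exact ((hw l).smul (ha' l)).cast (by ring)
    have huz : ∀ j, u (z j) = M.d (t' j) := by
      intro j
      rw [hu_apply, hvz]
      abel
    let g : (Fin r → A) →ₗ[A] M.X := Fintype.linearCombination A t'
    have hg_apply : ∀ b : Fin r → A, g b = ∑ j, b j • t' j :=
      fun b => Fintype.linearCombination_apply A t' b
    refine ⟨a', u.coprod g, ha', ⟨?_, ?_⟩, ?_⟩
    · intro i x
      change M.pr (i + e) (u x.1 + g x.2) = u (K'.pr i x.1) + g (fun j => G.c (i + 1 - δ j) (x.2 j))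
      rw [map_add, hu.pr]
      congr 1
      rw [hg_apply, hg_apply, map_sum]
      refine Finset.sum_congr rfl fun j _ => ?_
      have h4 := cifg1_pr_smul M (ht' j) (i + e) (x.2 j)
      have h5 : i + e - (δ j + e - 1) = i + 1 - δ j := by ring
      rw [h5] at h4
      exact h4
    · intro x
      rw [DGM.cone_d]
      change M.d (u x.1 + g x.2) = u (K'.d x.1 + f x.2) +
        g (-((0 : (Fin r → A) →ₗ[A] (Fin r → A)) x.2))
      rw [LinearMap.zero_apply, neg_zero, map_zero, add_zero, map_add, map_add, hu.d]
      congr 1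
      rw [hg_apply, hf_apply, map_sum, map_sum]
      refine Finset.sum_congr rfl fun j _ => ?_
      rw [map_smul, map_smul, huz]
    · intro x
      change v x = ∑ l, a' l • w l x + (u x + g 0)
      rw [map_zero, add_zero, hu_apply]
      abel

end MP8a
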