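import Pool.Agent.Lib_MP_8a48ad_gt.CICof

/-! # Piece CIGH: ghosts on semifree modules of bounded rank -/

set_option autoImplicit false

namespace MP8a

universe u

variable {A : Type u} [CommRing A] {G : Gr A}

theorem cmp_isMor (Y : ℕ → DGM G) (γ : ∀ j, (Y j).X →ₗ[A] (Y (j + 1)).X)
    (hγ : ∀ j, IsMor (Y j) (Y (j + 1)) 0 (γ j)) (r : ℕ) : IsMor (Y 0) (Y r) 0 (cmp Y γ r) := by
  induction r with
  | zero => exact isMor_id (Y 0)
  | succ r ih => exact (hγ r).comp0 ih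

/-- A linear map which vanishes on the basis elements of rank `< r` vanishes on `d (s.b i)` for `rk i ≤ r`. -/
theorem SFree.map_d_eq_zero {B : DGM G} (s : SFree B) {N : Type u} [AddCommGroup N] [Module A N]
    {r : ℕ} {f : B.X →ₗ[A] N} (hf : ∀ i, s.rk i < r → f (s.b i) = 0) {i : s.ι} (hi : s.rk i ≤ r) :
    f (B.d (s.b i)) = 0 := by
  have h : Submodule.span A (s.b '' {j | s.rk j < s.rk i}) ≤ LinearMap.ker f := by
    rw [Submodule.span_le]
    rintro _ ⟨j, hj, rfl⟩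
    exact hf j (lt_of_lt_of_le hj hi)
  exact h (s.d i)

/-- The induction in `SFree.ghost`. -/
theorem SFree.ghost_aux {B : DGM G} (s : SFree B) (Y : ℕ → DGM G)
    (γ : ∀ j, (Y j).X →ₗ[A] (Y (j + 1)).X) (hγ : ∀ j, IsMor (Y j) (Y (j + 1)) 0 (γ j))
    (hgh : ∀ j, Ghost (Y j) (Y (j + 1)) (γ j)) {e : ℤ} {y : B.X →ₗ[A] (Y 0).X} (hy : IsMor B (Y 0) e y)
    (r : ℕ) :
    ∃ K : B.X →ₗ[A] (Y r).X, (∀ i x, (Y r).pr (i + (e - 1)) (K x) = K (B.pr i x)) ∧
      ∀ i, s.rk i < r → cmp Y γ r (y (s.b i)) = (Y r).d (K (s.b i)) + K (B.d (s.b i)) := by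
  induction r with
  | zero =>
    refine ⟨0, fun i x => ?_, fun i hi => absurd hi (Nat.not_lt_zero _)⟩
    rw [LinearMap.zero_apply, LinearMap.zero_apply, map_zero]
  | succ r ih =>
    obtain ⟨K, hK1, hK2⟩ := ih
    have hc : IsMor B (Y r) e (cmp Y γ r ∘ₗ y) := (cmp_isMor Y γ hγ r).comp0 hy
    obtain ⟨z, hz⟩ : ∃ z : B.X →ₗ[A] (Y r).X, z = cmp Y γ r ∘ₗ y - ((Y r).d ∘ₗ K + K ∘ₗ B.d) := ⟨_, rfl⟩
    have hzx : ∀ x, z x = cmp Y γ r (y x) - ((Y r).d (K x) + K (B.d x)) := fun x => by rw [hz]; rfl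
    have hz0 : ∀ i, s.rk i < r → z (s.b i) = 0 := fun i hi => by
      rw [hzx, hK2 i hi, sub_self]
    have hzd : ∀ x, (Y r).d (z x) = z (B.d x) := fun x => by
      have h1 : (Y r).d (cmp Y γ r (y x)) = cmp Y γ r (y (B.d x)) := hc.d x
      rw [hzx, hzx, map_sub, map_add, h1, (Y r).d_d, B.d_d, map_zero, zero_add, add_zero]
    have hzp : ∀ i x, (Y r).pr (i + e) (z x) = z (B.pr i x) := fun i x => by
      have h1 : (Y r).pr (i + e) (cmp Y γ r (y x)) = cmp Y γ r (y (B.pr i x)) := hc.pr i x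
      have h2 : (Y r).pr (i + e) ((Y r).d (K x)) = (Y r).d (K (B.pr i x)) := by
        have h3 : i + e = i + (e - 1) + 1 := by ring
        rw [h3, (Y r).pr_d, hK1]
      have h4 : (Y r).pr (i + e) (K (B.d x)) = K (B.d (B.pr i x)) := by
        have h5 : i + e = i + 1 + (e - 1) := by ring
        rw [h5, hK1, B.pr_d]
      rw [hzx, hzx, map_sub, map_add, h1, h2, h4]
    have hex : ∀ i, ∃ t : (Y (r + 1)).X, (Y (r + 1)).pr (s.deg i + (e - 1)) t = t ∧
        (s.rk i < r → t = 0) ∧ (s.rk i ≤ r → (Y (r + 1)).d t = γ r (z (s.b i))) := by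
      intro i
      rcases lt_or_ge (s.rk i) r with hi | hi
      · refine ⟨0, map_zero _, fun _ => rfl, fun _ => ?_⟩
        rw [hz0 i hi, map_zero, map_zero]
      · by_cases hi' : s.rk i ≤ r
        · have hcyc : (Y r).d (z (s.b i)) = 0 := by
            rw [hzd]
            exact s.map_d_eq_zero hz0 hi'
          obtain ⟨t, ht⟩ := hgh r _ hcyc
          refine ⟨(Y (r + 1)).pr (s.deg i + (e - 1)) t, (Y (r + 1)).pr_self _ _,
            fun h => absurd h (not_lt.2 hi), fun _ => ?_⟩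
          have h3 : s.deg i + (e - 1) + 1 = s.deg i + e := by ring
          have h6 := (hγ r).pr (s.deg i + e) (z (s.b i))
          rw [add_zero] at h6
          rw [← (Y (r + 1)).pr_d, ht, h3, h6, hzp, s.pr]
        · exact ⟨0, map_zero _, fun _ => rfl, fun h => absurd h hi'⟩
    choose t ht1 ht2 ht3 using hex
    have hHb : ∀ i, s.b.constr A t (s.b i) = t i := fun i => s.b.constr_basis A t i
    obtain ⟨H, hH⟩ : ∃ H : B.X →ₗ[A] (Y (r + 1)).X, H = s.b.constr A t := ⟨_, rfl⟩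
    rw [← hH] at hHb
    have hHp : ∀ i x, (Y (r + 1)).pr (i + (e - 1)) (H x) = H (B.pr i x) :=
      s.hom_ext (fun i => by rw [hHb, ht1])
    have hH0 : ∀ i, s.rk i < r → H (s.b i) = 0 := fun i hi => by rw [hHb, ht2 i hi]
    refine ⟨γ r ∘ₗ K + H, fun i x => ?_, fun i hi => ?_⟩
    · have h6 := (hγ r).pr (i + (e - 1)) (K x)
      rw [add_zero] at h6
      rw [LinearMap.add_apply, LinearMap.add_apply, LinearMap.comp_apply, LinearMap.comp_apply, map_add,
        h6, hK1, hHp]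
    · have hi' : s.rk i ≤ r := Nat.lt_succ_iff.1 hi
      have h1 := ht3 i hi'
      rw [← hHb i, hzx, map_sub, map_add] at h1
      have h2 : H (B.d (s.b i)) = 0 := s.map_d_eq_zero hH0 hi'
      have h3 : cmp Y γ (r + 1) (y (s.b i)) = γ r (cmp Y γ r (y (s.b i))) := rfl
      rw [LinearMap.add_apply, LinearMap.add_apply, LinearMap.comp_apply, LinearMap.comp_apply, map_add,
        h3, h2, add_zero, h1, (hγ r).d]
      abel

/-- GHOSTS on semifree modules of bounded rank.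

PROOF. By induction on `r`: `(cmp Y γ r) ∘ y` is, up to a `Null` map, a morphism `y_r : B → Y r` (degree `e`) with `y_r (s.b i) = 0` for `rk i < r`. Step: for
`rk i = r`, `y_r (s.b i)` is a cycle, because `d (s.b i)` is a combination of basis elements of rank `< r`; so `γ_r (y_r (s.b i)) = d t_i` (`Ghost`), `t_i` can be taken homogeneous of degree
`deg i + e - 1`. Let `H (s.b i) = t_i` if `rk i = r` and `0` otherwise; `y_(r+1) = γ_r ∘ y_r - (d H + H d)` vanishes on the basis elements of rank `≤ r`. For `r = g` the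
morphism `y_g` vanishes on the basis. -/
theorem SFree.ghost {B : DGM G} (s : SFree B) {g : ℕ} (hg : ∀ i, s.rk i < g) (Y : ℕ → DGM G)
    (γ : ∀ j, (Y j).X →ₗ[A] (Y (j + 1)).X) (hγ : ∀ j, IsMor (Y j) (Y (j + 1)) 0 (γ j))
    (hgh : ∀ j, Ghost (Y j) (Y (j + 1)) (γ j)) {e : ℤ} {y : B.X →ₗ[A] (Y 0).X} (hy : IsMor B (Y 0) e y) :
    Null B (Y g) e (cmp Y γ g ∘ₗ y) := by
  obtain ⟨K, hK1, hK2⟩ := s.ghost_aux Y γ hγ hgh hy g
  refine ⟨K, hK1, fun x => ?_⟩
  have h : cmp Y γ g ∘ₗ y = (Y g).d ∘ₗ K + K ∘ₗ B.d := s.b.ext (fun i => hK2 i (hg i))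
  rw [h]
  rfl

end MP8a
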