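import Pool.Agent.Lib_MP_8a48ad_gt.CIFG1
import Pool.Agent.Lib_MP_8a48ad_gt.CIGh

/-! # Piece CIFG2: finite generation of the morphisms from a semifree module of bounded rank -/

set_option autoImplicit false

namespace MP8a

universe u

variable {A : Type u} [CommRing A] {G : Gr A}

/-- prepend a module to a sequence -/
private def cifg2Y (K' : DGM G) (Y : ℕ → DGM G) : ℕ → DGM G
  | 0 => K'
  | j + 1 => Y j

/-- prepend a map to a sequence of maps -/
private def cifg2g (K' : DGM G) (Y : ℕ → DGM G) (γ : ∀ j, (Y j).X →ₗ[A] (Y (j + 1)).X)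
    (f : K'.X →ₗ[A] (Y 0).X) : ∀ j, (cifg2Y K' Y j).X →ₗ[A] (cifg2Y K' Y (j + 1)).X
  | 0 => f
  | j + 1 => γ j

/-- the claim of the proof, for a finite index type -/
private theorem cifg2_aux [IsNoetherianRing A] {K M : DGM G} (hM : FG M) (g : ℕ) :
    ∀ (K' : DGM G) (c : K.X →ₗ[A] K'.X), IsMor K K' 0 c → FG K' →
      (∀ (Y : ℕ → DGM G) (γ : ∀ j, (Y j).X →ₗ[A] (Y (j + 1)).X)
        (_ : ∀ j, IsMor (Y j) (Y (j + 1)) 0 (γ j)) (_ : ∀ j, Ghost (Y j) (Y (j + 1)) (γ j))
        (y : K'.X →ₗ[A] (Y 0).X), IsMor K' (Y 0) 0 y → Null K (Y g) 0 (cmp Y γ g ∘ₗ (y ∘ₗ c))) →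
      ∃ (ι : Type) (_ : Fintype ι) (h : ι → (K'.X →ₗ[A] M.X)) (ε : ι → ℤ),
        (∀ l, IsMor K' M (ε l) (h l)) ∧ ∀ (e : ℤ) (v : K'.X →ₗ[A] M.X), IsMor K' M e v →
          ∃ a : ι → A, (∀ l, G.c (e - ε l) (a l) = a l) ∧ Null K M e ((v - ∑ l, a l • h l) ∘ₗ c) := by
  induction g with
  | zero =>
    intro K' c hc _ hN
    have h0 : Null K K' 0 c :=
      hN (fun _ => K') (fun _ => 0) (fun _ => isMor_zero _ _ _)
        (fun _ x _ => ⟨0, by rw [map_zero, LinearMap.zero_apply]⟩) LinearMap.id (isMor_id K')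
    refine ⟨Empty, inferInstance, fun l => l.elim, fun l => l.elim, fun l => l.elim, ?_⟩
    intro e v hv
    refine ⟨fun l => l.elim, fun l => l.elim, ?_⟩
    have h1 : (v - ∑ l : Empty, (l.elim : A) • (l.elim : K'.X →ₗ[A] M.X)) = v := by
      rw [Finset.univ_eq_empty, Finset.sum_empty, sub_zero]
    have h2 : Null K M e (v ∘ₗ c) := (h0.comp_left hv).cast (by ring)
    have h3 : ((v - ∑ l : Empty, (Empty.elim l : A) • (Empty.elim l : K'.X →ₗ[A] M.X)) ∘ₗ c) = v ∘ₗ c := by
      rw [Finset.univ_eq_empty, Finset.sum_empty, sub_zero]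
    rw [h3]
    exact h2
  | succ g ih =>
    intro K' c hc hK' hN
    obtain ⟨K'', c1, s, w, ε, hc1, hgh, hK'', hw, hext⟩ := exists_cover_ext hK' hM
    obtain ⟨ι, hι, h, ε', hh, hgen⟩ := ih K'' (c1 ∘ₗ c) (hc1.comp0 hc) hK'' (by
      intro Y γ hγ hγg y hy
      have hγ' : ∀ j, IsMor (cifg2Y K' Y j) (cifg2Y K' Y (j + 1)) 0 (cifg2g K' Y γ (y ∘ₗ c1) j) := by
        intro j
        cases j with
        | zero => exact hy.comp0 hc1
        | succ j => exact hγ j
      have hγg' : ∀ j, Ghost (cifg2Y K' Y j) (cifg2Y K' Y (j + 1)) (cifg2g K' Y γ (y ∘ₗ c1) j) := by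
        intro j
        cases j with
        | zero =>
          intro x hx
          obtain ⟨t, ht⟩ := hgh x hx
          refine ⟨y t, ?_⟩
          change (Y 0).d (y t) = y (c1 x)
          rw [hy.d, ht]
        | succ j => exact hγg j
      have hcmp : ∀ j, cmp (cifg2Y K' Y) (cifg2g K' Y γ (y ∘ₗ c1)) (j + 1) = cmp Y γ j ∘ₗ (y ∘ₗ c1) := by
        intro j
        induction j with
        | zero => rfl
        | succ j ihj =>
          change γ j ∘ₗ cmp (cifg2Y K' Y) (cifg2g K' Y γ (y ∘ₗ c1)) (j + 1) = (γ j ∘ₗ cmp Y γ j) ∘ₗ (y ∘ₗ c1)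
          rw [ihj]
          rfl
      have h1 := hN (cifg2Y K' Y) (cifg2g K' Y γ (y ∘ₗ c1)) hγ' hγg' LinearMap.id (isMor_id K')
      have h2 : cmp (cifg2Y K' Y) (cifg2g K' Y γ (y ∘ₗ c1)) (g + 1) ∘ₗ (LinearMap.id ∘ₗ c) = cmp Y γ g ∘ₗ (y ∘ₗ (c1 ∘ₗ c)) := by
        rw [hcmp g]
        rfl
      obtain ⟨H, hH, hd⟩ := h1
      exact ⟨H, hH, fun x => (LinearMap.congr_fun h2 x).symm.trans (hd x)⟩)
    refine ⟨Fin s ⊕ ι, inferInstance, Sum.elim w (fun l => h l ∘ₗ c1), Sum.elim ε ε', ?_, ?_⟩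
    · rintro (l | l)
      · exact hw l
      · exact (hh l).comp0' hc1
    · intro e v hv
      obtain ⟨a, v', ha, hv', hva⟩ := hext e v hv
      obtain ⟨a', ha', hn⟩ := hgen e v' hv'
      refine ⟨Sum.elim a a', ?_, ?_⟩
      · rintro (l | l)
        · exact ha l
        · exact ha' l
      · have h1 : ((v - ∑ l : Fin s ⊕ ι, (Sum.elim a a' l) •
            (Sum.elim w (fun l => h l ∘ₗ c1) l : K'.X →ₗ[A] M.X)) ∘ₗ c) =
            ((v' - ∑ l, a' l • h l) ∘ₗ (c1 ∘ₗ c)) := by
          rw [Fintype.sum_sum_type]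
          refine LinearMap.ext fun x => ?_
          simp only [LinearMap.comp_apply, LinearMap.sub_apply, LinearMap.add_apply,
            LinearMap.sum_apply, LinearMap.smul_apply, Sum.elim_inl, Sum.elim_inr, hva]
          abel
        rw [h1]
        exact hn

/-- `K` semifree of bounded rank with finitely generated cohomology, `M` with finitely generated cohomology: finitely many morphisms `h_l : K → M` generate all
morphisms over `A` up to homotopy.

PROOF. Claim for all `g`: let `c : K → K'` be a morphism of degree `0`, `FG K'`, such that for every sequence of ghosts `K' = Y 0 → Y 1 → …` the composite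
`K → K' → Y g` is `Null`. Then there is a finite family of morphisms `w_l : K' → M` of degrees `ε_l` such that for every morphism `w : K' → M` of degree `e` there are homogeneous
`a_l` of degree `e - ε_l` with `w ∘ c - ∑ a_l w_l ∘ c` `Null`. Induction on `g`. `g = 0`: `c` is `Null` (take the constant sequence
`Y j = K'` with zero maps, which are ghosts), so all `w ∘ c` are `Null`; empty family. Step: let `K' → K''` be as in `exists_cover_ext` with the family `w_l`; the claim for `g`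
applies to `K → K' → K''` (prepend the ghost `K' → K''` to a sequence of ghosts starting at `K''`) and gives a family `w''_m : K'' → M`; take the family of the `w_l` and the
`w''_m ∘ (K' → K'')`. Apply the claim to `c = id` (`SFree.ghost`). -/
theorem exists_generators [IsNoetherianRing A] {K M : DGM G} (sK : SFree K) {g : ℕ} (hg : ∀ i, sK.rk i < g)
    (hK : FG K) (hM : FG M) : ∃ (s : ℕ) (h : Fin s → (K.X →ₗ[A] M.X)) (ε : Fin s → ℤ),
      (∀ l, IsMor K M (ε l) (h l)) ∧ ∀ (e : ℤ) (v : K.X →ₗ[A] M.X), IsMor K M e v →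
        ∃ a : Fin s → A, (∀ l, G.c (e - ε l) (a l) = a l) ∧ Null K M e (v - ∑ l, a l • h l) := by
  obtain ⟨ι, hι, h, ε, hh, hgen⟩ := cifg2_aux (K := K) (M := M) hM g K LinearMap.id (isMor_id K) hK (by
    intro Y γ hγ hγg y hy
    exact sK.ghost hg Y γ hγ hγg hy)
  let f := Fintype.equivFin ι
  refine ⟨Fintype.card ι, fun l => h (f.symm l), fun l => ε (f.symm l), fun l => hh _, ?_⟩
  intro e v hv
  obtain ⟨a, ha, hn⟩ := hgen e v hv
  refine ⟨fun l => a (f.symm l), fun l => ha _, ?_⟩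
  have h1 : ∑ l, a (f.symm l) • h (f.symm l) = ∑ l, a l • h l :=
    Equiv.sum_comp f.symm (fun l => a l • h l)
  rw [h1]
  exact hn

end MP8a
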