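import Pool.Agent.Lib_MP_8a48ad_gt.CITB
import Pool.Agent.Lib_MP_8a48ad_gt.FGS

/-! # Piece CIFGK: the cohomology of `KB` is finitely generated -/

set_option autoImplicit false

namespace MP8a

open MvPolynomial

universe u

variable {R : Type u} [CommRing R] {GR : Gr R} {n N c : ℕ}

/-- `χ_j = ∂/∂y_j` is a morphism of degree `-(φ_j - 2)` -/
theorem isMor_chi (t : TData GR n N c) (j : Fin c) :
    IsMor (TB t) (TB t) (-(t.φ j - 2)) (chi R j : (TB t).X →ₗ[R] (TB t).X) := by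
  constructor
  · intro i b
    refine Finsupp.ext fun γ => ?_
    rw [TB_pr_apply, chi_apply, chi_apply, TB_pr_apply, TData.dy_add_single]
    have h : i + -(t.φ j - 2) - t.dy γ = i - (t.dy γ + (t.φ j - 2)) := by ring
    rw [h]
  · intro b
    refine Finsupp.ext fun γ => ?_
    rw [TB_d_apply, chi_apply, chi_apply, TB_d_apply]
    congr 1
    refine Finset.sum_congr rfl fun l _ => ?_
    rw [chi_apply, add_right_comm]

section

variable {A : Type u} [CommRing A] {G : Gr A}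

theorem FG_regr {M : DGM G} (h : FG M) (e : ℤ) : FG (M.regr e) := h

/-- A surjective endomorphism of `U` with kernel `U'`. -/
theorem fgk_gen [IsNoetherianRing A] {M : DGM G} {e : ℤ} {g : M.X →ₗ[A] M.X} (hg : IsMor M M e g)
    (U U' : Submodule A M.X) (h1 : ∀ i, ∀ x ∈ U, M.pr i x ∈ U) (h2 : ∀ x ∈ U, M.d x ∈ U)
    (h1' : ∀ i, ∀ x ∈ U', M.pr i x ∈ U') (h2' : ∀ x ∈ U', M.d x ∈ U') (hle : ∀ x, x ∈ U' → x ∈ U)
    (hgU : ∀ x ∈ U, g x ∈ U) (hs : ∀ x ∈ U, ∃ y, y ∈ U ∧ g y = x) (hk : ∀ x ∈ U, g x = 0 ↔ x ∈ U')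
    (h : FG (M.sub U h1 h2)) : FG (M.sub U' h1' h2') := by
  have hf := (isMor_subtype M U' h1' h2').codRestrict U h1 h2 (fun x => hle x.1 x.2)
  have hgg := ((hg.comp0' (isMor_subtype M U h1 h2)).codRestrict U h1 h2
    (fun x => hgU x.1 x.2)).to_regr
  refine (FG_ses hf hgg ⟨?_, ?_, ?_⟩).1 h (FG_regr h e)
  · intro x y hxy
    have h3 := congrArg Subtype.val hxy
    exact Subtype.ext h3
  · intro x
    obtain ⟨y, hy, hyx⟩ := hs x.1 x.2
    exact ⟨⟨y, hy⟩, Subtype.ext hyx⟩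
  · intro x
    constructor
    · intro hx
      exact ⟨⟨x.1, (hk x.1 x.2).1 (congrArg Subtype.val hx)⟩, rfl⟩
    · rintro ⟨y, rfl⟩
      exact Subtype.ext ((hk y.1 (hle y.1 y.2)).2 y.2)

end

/-- the `b` with `b γ = 0` if `γ_i ≠ 0` for some `i < m` -/
def fgkU (t : TData GR n N c) (m : ℕ) : Submodule R (TB t).X where
  carrier := {b | ∀ γ : Fin c →₀ ℕ, (∃ i : Fin c, (i : ℕ) < m ∧ γ i ≠ 0) → b γ = 0}
  zero_mem' := fun _ _ => rfl
  add_mem' := fun {a b} ha hb γ hγ => by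
    rw [Finsupp.add_apply, ha γ hγ, hb γ hγ, add_zero]
  smul_mem' := fun r b hb γ hγ => by
    rw [Finsupp.smul_apply, hb γ hγ, smul_zero]

theorem mem_fgkU (t : TData GR n N c) (m : ℕ) (b : (TB t).X) :
    b ∈ fgkU t m ↔ ∀ γ : Fin c →₀ ℕ, (∃ i : Fin c, (i : ℕ) < m ∧ γ i ≠ 0) → b γ = 0 := Iff.rfl

theorem fgk_ne {γ : Fin c →₀ ℕ} {m : ℕ} (h : ∃ i : Fin c, (i : ℕ) < m ∧ γ i ≠ 0) (j : Fin c) :
    ∃ i : Fin c, (i : ℕ) < m ∧ (γ + Finsupp.single j 1 : Fin c →₀ ℕ) i ≠ 0 := by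
  obtain ⟨i, hi, h0⟩ := h
  refine ⟨i, hi, ?_⟩
  rw [Finsupp.add_apply]
  omega

theorem fgkU_pr (t : TData GR n N c) (m : ℕ) : ∀ i, ∀ b ∈ fgkU t m, (TB t).pr i b ∈ fgkU t m := by
  intro i b hb γ hγ
  rw [TB_pr_apply, (mem_fgkU t m b).1 hb γ hγ, map_zero]

theorem fgkU_d (t : TData GR n N c) (m : ℕ) : ∀ b ∈ fgkU t m, (TB t).d b ∈ fgkU t m := by
  intro b hb γ hγ
  rw [TB_d_apply, (mem_fgkU t m b).1 hb γ hγ, map_zero, zero_add]
  refine Finset.sum_eq_zero fun j _ => ?_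
  rw [(mem_fgkU t m b).1 hb _ (fgk_ne hγ j), map_zero]

theorem fgkU_chi (t : TData GR n N c) (m : ℕ) (j : Fin c) :
    ∀ b ∈ fgkU t m, (chi R j : (TB t).X →ₗ[R] (TB t).X) b ∈ fgkU t m := by
  intro b hb γ hγ
  rw [chi_apply]
  exact (mem_fgkU t m b).1 hb _ (fgk_ne hγ j)

/-- The DG module `TB_m`. -/
@[reducible] noncomputable def fgkT (t : TData GR n N c) (m : ℕ) : DGM GR :=
  (TB t).sub (fgkU t m) (fgkU_pr t m) (fgkU_d t m)

theorem fgk_chi_map (j : Fin c) {V : Type u} [AddCommGroup V] [Module R V] (b : (Fin c →₀ ℕ) →₀ V) :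
    chi R j (Finsupp.mapDomain (fun γ => γ + Finsupp.single j 1) b) = b := by
  refine Finsupp.ext fun γ => ?_
  rw [chi_apply]
  exact Finsupp.mapDomain_apply (add_left_injective (Finsupp.single j 1 : Fin c →₀ ℕ)) b γ

theorem fgk_map_zero (j : Fin c) {V : Type u} [AddCommGroup V] (b : (Fin c →₀ ℕ) →₀ V) {m : ℕ}
    (hj : (j : ℕ) = m) (hb : ∀ γ : Fin c →₀ ℕ, (∃ i : Fin c, (i : ℕ) < m ∧ γ i ≠ 0) → b γ = 0)
    (γ : Fin c →₀ ℕ) (hγ : ∃ i : Fin c, (i : ℕ) < m ∧ γ i ≠ 0) :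
    (Finsupp.mapDomain (fun γ => γ + Finsupp.single j 1) b : (Fin c →₀ ℕ) →₀ V) γ = 0 := by
  classical
  obtain ⟨i, hi, h0⟩ := hγ
  by_cases hr : γ ∈ Set.range (fun γ : Fin c →₀ ℕ => γ + Finsupp.single j 1)
  · obtain ⟨δ, hδ⟩ := hr
    have hδ' : δ + Finsupp.single j 1 = γ := hδ
    subst hδ'
    have hij : j ≠ i := by
      rintro rfl
      omega
    have h2 : (δ + Finsupp.single j 1 : Fin c →₀ ℕ) i = δ i := by
      rw [Finsupp.add_apply, Finsupp.single_apply, if_neg hij, add_zero]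
    rw [h2] at h0
    have h3 := Finsupp.mapDomain_apply (add_left_injective (Finsupp.single j 1 : Fin c →₀ ℕ)) b δ
    exact h3.trans (hb δ ⟨i, hi, h0⟩)
  · exact Finsupp.mapDomain_of_notMem_range b γ hr

theorem fgk_ker (j : Fin c) {V : Type u} [AddCommGroup V] [Module R V] (b : (Fin c →₀ ℕ) →₀ V) {m : ℕ}
    (hj : (j : ℕ) = m) (hb : ∀ γ : Fin c →₀ ℕ, (∃ i : Fin c, (i : ℕ) < m ∧ γ i ≠ 0) → b γ = 0) :
    chi R j b = 0 ↔ ∀ γ : Fin c →₀ ℕ, (∃ i : Fin c, (i : ℕ) < m + 1 ∧ γ i ≠ 0) → b γ = 0 := by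
  classical
  constructor
  · intro hb' γ hγ
    obtain ⟨i, hi, h0⟩ := hγ
    by_cases him : (i : ℕ) < m
    · exact hb γ ⟨i, him, h0⟩
    · have hij : i = j := by
        apply Fin.ext
        omega
      subst hij
      have h1 : γ = (γ - Finsupp.single i 1) + Finsupp.single i 1 := by
        refine Finsupp.ext fun l => ?_
        rw [Finsupp.add_apply, Finsupp.tsub_apply, Finsupp.single_apply]
        by_cases hl : i = l
        · subst hl
          rw [if_pos rfl]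
          omega
        · rw [if_neg hl]
          omega
      have h2 : chi R i b (γ - Finsupp.single i 1) = 0 := by
        rw [hb']
        rfl
      rw [chi_apply, ← h1] at h2
      exact h2
  · intro hb'
    refine Finsupp.ext fun γ => ?_
    rw [chi_apply]
    refine hb' _ ⟨j, by omega, ?_⟩
    rw [Finsupp.add_apply, Finsupp.single_apply, if_pos rfl]
    omega

theorem fgk_step [IsNoetherianRing R] (t : TData GR n N c) {m : ℕ} (hm : m < c) (h : FG (fgkT t m)) :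
    FG (fgkT t (m + 1)) := by
  obtain ⟨j, hj⟩ : ∃ j : Fin c, (j : ℕ) = m := ⟨⟨m, hm⟩, rfl⟩
  have hle : ∀ b : (TB t).X, b ∈ fgkU t (m + 1) → b ∈ fgkU t m := by
    intro b hb γ hγ
    obtain ⟨i, hi, h0⟩ := hγ
    exact (mem_fgkU t (m + 1) b).1 hb γ ⟨i, by omega, h0⟩
  refine fgk_gen (isMor_chi t j) (fgkU t m) (fgkU t (m + 1)) (fgkU_pr t m) (fgkU_d t m)
    (fgkU_pr t (m + 1)) (fgkU_d t (m + 1)) hle (fgkU_chi t m j) ?_ ?_ h
  · intro b hb
    exact ⟨Finsupp.mapDomain (fun γ => γ + Finsupp.single j 1) b,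
      fgk_map_zero j b hj ((mem_fgkU t m b).1 hb), fgk_chi_map j b⟩
  · intro b hb
    exact fgk_ker j b hj ((mem_fgkU t m b).1 hb)

theorem fgk_all [IsNoetherianRing R] (t : TData GR n N c) (h : FG (TB t)) (m : ℕ) (hm : m ≤ c) :
    FG (fgkT t m) := by
  induction m with
  | zero =>
    have h0 : ∀ b : (TB t).X, b ∈ fgkU t 0 := by
      intro b γ hγ
      obtain ⟨i, hi, _⟩ := hγ
      exact absurd hi (Nat.not_lt_zero _)
    exact FG_retr (isMor_subtype (TB t) (fgkU t 0) (fgkU_pr t 0) (fgkU_d t 0))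
      ((isMor_id (TB t)).codRestrict (fgkU t 0) (fgkU_pr t 0) (fgkU_d t 0) h0) (fun x => rfl) h
  | succ m ih => exact fgk_step t (by omega) (ih (by omega))

theorem fgk_dy_zero (t : TData GR n N c) : t.dy 0 = 0 := by
  unfold TData.dy
  refine Finset.sum_eq_zero fun j _ => ?_
  rw [Finsupp.zero_apply, Nat.cast_zero, zero_mul]

theorem fgk_single_mem (t : TData GR n N c) (z : (KB t).X) :
    (Finsupp.lsingle (R := R) (0 : Fin c →₀ ℕ) z : (TB t).X) ∈ fgkU t c := by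
  classical
  intro γ hγ
  obtain ⟨i, _, h0⟩ := hγ
  have h1 : (0 : Fin c →₀ ℕ) ≠ γ := by
    rintro rfl
    exact h0 rfl
  rw [Finsupp.lsingle_apply, Finsupp.single_apply, if_neg h1]

/-- If the cohomology of `TB` is finitely generated, so is that of `KB`.

PROOF. For `j ≤ c` let `TB_j ⊆ TB` be the sub-DG-module of the `b` with `b γ = 0` unless `γ_i = 0` for all `i < j` (`DGM.sub`). `χ_j` maps `TB_j` onto itself (a preimage of `b`: `γ ↦ b (γ - δ_j)` if
`γ_j ≠ 0`, `0` otherwise) with kernel `TB_(j+1)`, and it is a morphism `TB_j → TB_j.regr (-(φ_j - 2))` of degree `0`; the cohomology of `M.regr e` is that of `M`. By `FG_ses` and induction on `j`,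
`FG TB_j` for all `j`. `TB_c` consists of the functions concentrated in `γ = 0`, and `b ↦ b 0` is an isomorphism to `KB` (`FG_retr` or `FG_qis`). -/
theorem FG_KB [IsNoetherianRing R] (t : TData GR n N c) (h : FG (TB t)) : FG (KB t) := by
  classical
  have h1 := fgk_all t h c le_rfl
  have hsub := isMor_subtype (TB t) (fgkU t c) (fgkU_pr t c) (fgkU_d t c)
  -- elements of `TB_c` vanish outside of `0`
  have hz : ∀ b ∈ fgkU t c, ∀ γ : Fin c →₀ ℕ, γ ≠ 0 → b γ = 0 := by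
    intro b hb γ hγ
    obtain ⟨i, hi⟩ := Finsupp.ne_iff.1 hγ
    exact (mem_fgkU t c b).1 hb γ ⟨i, i.2, hi⟩
  have hi : IsMor (KB t) (fgkT t c) 0
      ((Finsupp.lsingle (R := R) (0 : Fin c →₀ ℕ) : (KB t).X →ₗ[R] (TB t).X).codRestrict (fgkU t c)
        (fgk_single_mem t)) := by
    constructor
    · intro i z
      apply Subtype.ext
      refine Finsupp.ext fun γ => ?_
      change (TB t).pr (i + 0) (Finsupp.single (0 : Fin c →₀ ℕ) z) γ =
        (Finsupp.single (0 : Fin c →₀ ℕ) ((KB t).pr i z) : (TB t).X) γ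
      rw [TB_pr_apply, Finsupp.single_apply, Finsupp.single_apply, add_zero]
      by_cases hγ : (0 : Fin c →₀ ℕ) = γ
      · subst hγ
        rw [if_pos rfl, if_pos rfl, fgk_dy_zero, sub_zero]
      · rw [if_neg hγ, if_neg hγ, map_zero]
    · intro z
      apply Subtype.ext
      refine Finsupp.ext fun γ => ?_
      change (TB t).d (Finsupp.single (0 : Fin c →₀ ℕ) z) γ =
        (Finsupp.single (0 : Fin c →₀ ℕ) ((KB t).d z) : (TB t).X) γ
      have h2 : ∀ j : Fin c, (Finsupp.single (0 : Fin c →₀ ℕ) z : (TB t).X) (γ + Finsupp.single j 1) = 0 := by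
        intro j
        rw [Finsupp.single_apply, if_neg]
        intro h3
        have h4 := DFunLike.congr_fun h3 j
        rw [Finsupp.add_apply, Finsupp.single_apply, if_pos rfl, Finsupp.zero_apply] at h4
        omega
      rw [TB_d_apply]
      have h3 : ∑ j, KS (t.g j) ((Finsupp.single (0 : Fin c →₀ ℕ) z : (TB t).X) (γ + Finsupp.single j 1)) = 0 := by
        refine Finset.sum_eq_zero fun j _ => ?_
        rw [h2 j, map_zero]
      rw [h3, add_zero, Finsupp.single_apply, Finsupp.single_apply]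
      by_cases hγ : (0 : Fin c →₀ ℕ) = γ
      · rw [if_pos hγ, if_pos hγ]
      · rw [if_neg hγ, if_neg hγ, map_zero]
  have hr : IsMor (fgkT t c) (KB t) 0
      ((Finsupp.lapply (R := R) (0 : Fin c →₀ ℕ) : (TB t).X →ₗ[R] (KB t).X) ∘ₗ (fgkU t c).subtype) := by
    constructor
    · intro i b
      change (KB t).pr (i + 0) ((b.1 : (Fin c →₀ ℕ) →₀ (KB t).X) 0) = (TB t).pr i b.1 0
      rw [TB_pr_apply, add_zero, fgk_dy_zero, sub_zero]
    · intro b
      change (KB t).d ((b.1 : (Fin c →₀ ℕ) →₀ (KB t).X) 0) = (TB t).d b.1 0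
      rw [TB_d_apply]
      have h3 : ∑ j, KS (t.g j) ((b.1 : (Fin c →₀ ℕ) →₀ (KB t).X) (0 + Finsupp.single j 1)) = 0 := by
        refine Finset.sum_eq_zero fun j _ => ?_
        rw [hz b.1 b.2 _ (fun h3 => ?_), map_zero]
        have h4 := DFunLike.congr_fun h3 j
        rw [Finsupp.add_apply, Finsupp.single_apply, if_pos rfl, Finsupp.zero_apply] at h4
        omega
      rw [h3, add_zero]
  refine FG_retr hi hr (fun z => ?_) h1
  change (Finsupp.single (0 : Fin c →₀ ℕ) z : (Fin c →₀ ℕ) →₀ (KB t).X) 0 = z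
  rw [Finsupp.single_apply, if_pos rfl]

end MP8a
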