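import Pool.Agent.Lib_MP_8a48ad_gt.StDefs

/-! # Piece SETUP: rings of invariants satisfy the hypotheses of the general theorem -/

set_option autoImplicit false

namespace MP8a

universe u

variable {k : Type u} [Field k] {n : ℕ} {W : Type*} [Group W] [Finite W]

/-- the action of `W` on `S` -/
@[reducible] private noncomputable def setupAct (ρ : W →* GL (Fin n) k) :
    MulSemiringAction W (Sn k n) where
  smul w s := linAct (ρ w : Matrix (Fin n) (Fin n) k) s
  one_smul s := by
    change linAct ((ρ 1 : GL (Fin n) k) : Matrix (Fin n) (Fin n) k) s = s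
    rw [map_one, Units.val_one, linAct_one]
  mul_smul a b s := by
    change linAct ((ρ (a * b) : GL (Fin n) k) : Matrix (Fin n) (Fin n) k) s =
      linAct (ρ a : Matrix (Fin n) (Fin n) k) (linAct (ρ b : Matrix (Fin n) (Fin n) k) s)
    rw [map_mul, Units.val_mul, linAct_mul]
  smul_zero a := map_zero _
  smul_add a s t := map_add _ s t
  smul_one a := map_one _
  smul_mul a s t := map_mul _ s t

private theorem setup_integral (ρ : W →* GL (Fin n) k) : Algebra.IsIntegral (invA ρ) (Sn k n) := by
  letI := setupAct ρ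
  have : Algebra.IsInvariant (invA ρ) (Sn k n) W := ⟨fun b hb => ⟨⟨b, hb⟩, rfl⟩⟩
  exact Algebra.IsInvariant.isIntegral (invA ρ) (Sn k n) W

/-- `S` is integral over `R = S^W` (`s` is a root of `∏_w (X - w s)`, whose coefficients are invariant; one may use the `MulSemiringAction` of `W` on `S`
and `Algebra.IsInvariant.isIntegral`) and of finite type over `k`, hence finite over `R`. -/
theorem finite_inv (ρ : W →* GL (Fin n) k) : Module.Finite (invA ρ) (Sn k n) := by
  have h1 := setup_integral ρ
  have h2 : Algebra.FiniteType (invA ρ) (Sn k n) :=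
    Algebra.FiniteType.of_restrictScalars_finiteType k (invA ρ) (Sn k n)
  exact Algebra.IsIntegral.finite

/-- `R` is of finite type over `k` (Artin and Tate: `fg_of_fg_of_fg`), so noetherian. -/
theorem noeth_inv (ρ : W →* GL (Fin n) k) : IsNoetherianRing (invA ρ) := by
  have h1 := finite_inv ρ
  have h2 : (⊤ : Subalgebra k (invA ρ)).FG :=
    fg_of_fg_of_fg k (invA ρ) (Sn k n) (Algebra.FiniteType.out) (Module.Finite.fg_top)
      (Subtype.val_injective)
  have h3 : Algebra.FiniteType k (invA ρ) := ⟨h2⟩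
  exact Algebra.FiniteType.isNoetherianRing k (invA ρ)

/-- The Reynolds operator `s ↦ |W|⁻¹ ∑_w w s`; it commutes with the projections (`linAct_c`). -/
theorem reynolds (hW : (Nat.card W : k) ≠ 0) (ρ : W →* GL (Fin n) k) :
    ∃ r : Sn k n →ₗ[invA ρ] invA ρ, r 1 = 1 ∧ ∀ i s, (grR ρ).c i (r s) = r ((grS k n).c i s) := by
  classical
  cases nonempty_fintype W
  have hfix : ∀ (s : Sn k n) (v : W), linAct (ρ v : Matrix (Fin n) (Fin n) k)
      (∑ w, linAct (ρ w : Matrix (Fin n) (Fin n) k) s) =
      ∑ w, linAct (ρ w : Matrix (Fin n) (Fin n) k) s := by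
    intro s v
    rw [map_sum]
    have h1 : ∀ w, linAct (ρ v : Matrix (Fin n) (Fin n) k) (linAct (ρ w : Matrix (Fin n) (Fin n) k) s) =
        linAct (ρ (v * w) : Matrix (Fin n) (Fin n) k) s := by
      intro w
      rw [map_mul, Units.val_mul, linAct_mul]
    rw [Finset.sum_congr rfl fun w _ => h1 w]
    exact Fintype.sum_equiv (Equiv.mulLeft v) _ _ fun w => rfl
  let r : Sn k n →ₗ[invA ρ] invA ρ :=
    { toFun := fun s => ⟨(Nat.card W : k)⁻¹ • ∑ w, linAct (ρ w : Matrix (Fin n) (Fin n) k) s, by
        intro v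
        rw [map_smul, hfix]⟩
      map_add' := by
        intro s t
        apply Subtype.ext
        change (Nat.card W : k)⁻¹ • ∑ w, linAct (ρ w : Matrix (Fin n) (Fin n) k) (s + t) =
          (Nat.card W : k)⁻¹ • ∑ w, linAct (ρ w : Matrix (Fin n) (Fin n) k) s +
          (Nat.card W : k)⁻¹ • ∑ w, linAct (ρ w : Matrix (Fin n) (Fin n) k) t
        rw [← smul_add, ← Finset.sum_add_distrib]
        simp only [map_add]
      map_smul' := by
        intro a s
        apply Subtype.ext
        change (Nat.card W : k)⁻¹ • ∑ w, linAct (ρ w : Matrix (Fin n) (Fin n) k) ((a : Sn k n) * s) =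
          (a : Sn k n) * ((Nat.card W : k)⁻¹ • ∑ w, linAct (ρ w : Matrix (Fin n) (Fin n) k) s)
        rw [mul_smul_comm, Finset.mul_sum]
        congr 1
        refine Finset.sum_congr rfl fun w _ => ?_
        rw [map_mul, a.2 w] }
  refine ⟨r, ?_, ?_⟩
  · apply Subtype.ext
    change (Nat.card W : k)⁻¹ • ∑ w, linAct (ρ w : Matrix (Fin n) (Fin n) k) (1 : Sn k n) = 1
    simp only [map_one, Finset.sum_const, Finset.card_univ, ← Nat.card_eq_fintype_card]
    rw [← Nat.cast_smul_eq_nsmul k, smul_smul, inv_mul_cancel₀ hW, one_smul]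
  · intro i s
    apply Subtype.ext
    rw [grR_coe]
    change (grS k n).c i ((Nat.card W : k)⁻¹ • ∑ w, linAct (ρ w : Matrix (Fin n) (Fin n) k) s) =
      (Nat.card W : k)⁻¹ • ∑ w, linAct (ρ w : Matrix (Fin n) (Fin n) k) ((grS k n).c i s)
    rw [grS_smul, map_sum]
    congr 1
    exact Finset.sum_congr rfl fun w _ => linAct_c _ _ _

theorem setup_inv (hW : (Nat.card W : k) ≠ 0) (ρ : W →* GL (Fin n) k) : Setup k n (grR ρ) where
  tower := inferInstance
  compat := compat_inv ρ
  fin := finite_inv ρ
  noeth := noeth_inv ρ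
  rho := reynolds hW ρ

end MP8a
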