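import Pool.Agent.Lib_MP_8a48ad_gt.StDefs

/-! # Piece LATT: lattice representations -/

set_option autoImplicit false

namespace MP8a

universe u

variable {k : Type u} [Field k] {n : ℕ} {W : Type*} [Group W] [Finite W]

/-- PROOF. Let `A = ρ w` over `ℤ`, `m` the order of `w`, so `A^m = 1` and `m` divides `|W|`. As `det (A - 1) ≠ 0` and `(A - 1)(1 + A + … + A^(m-1)) = 0`, the sum
`1 + A + … + A^(m-1)` is zero. Hence `(A - 1) ∑_{j<m} j A^j = m · 1` (telescoping), so `det (A - 1)` divides `m^n`, which is invertible in `k`. -/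
theorem latt_det (hW : (Nat.card W : k) ≠ 0) (ρ : W →* GL (Fin n) ℤ) (w : W)
    (h : ((ρ w : Matrix (Fin n) (Fin n) ℤ) - 1).det ≠ 0) :
    ((latt k ρ w : Matrix (Fin n) (Fin n) k) - 1).det ≠ 0 := by
  intro h0
  set A : Matrix (Fin n) (Fin n) ℤ := (ρ w : Matrix (Fin n) (Fin n) ℤ) with hA
  have hm : A ^ orderOf w = 1 := by
    rw [hA, ← Units.val_pow_eq_pow_val, ← map_pow, pow_orderOf_eq_one, map_one, Units.val_one]
  have hN : ∑ j ∈ Finset.range (orderOf w), A ^ j = 0 := by
    have h1 : (A - 1) * ∑ j ∈ Finset.range (orderOf w), A ^ j = 0 := by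
      rw [mul_geom_sum, hm, sub_self]
    have h2 : (A - 1).adjugate * ((A - 1) * ∑ j ∈ Finset.range (orderOf w), A ^ j) = 0 := by
      rw [h1, mul_zero]
    rw [← mul_assoc, Matrix.adjugate_mul, Matrix.smul_mul, one_mul] at h2
    exact (smul_eq_zero.1 h2).resolve_left h
  set B : Matrix (Fin n) (Fin n) k := (latt k ρ w : Matrix (Fin n) (Fin n) k) with hB
  have hBA : B = (Int.castRingHom k).mapMatrix A := rfl
  obtain ⟨v, hv, hv0⟩ := Matrix.exists_mulVec_eq_zero_iff.2 h0
  have hBv : B.mulVec v = v := by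
    rw [Matrix.sub_mulVec, Matrix.one_mulVec, sub_eq_zero] at hv0
    exact hv0
  have hpow : ∀ j : ℕ, (B ^ j).mulVec v = v := by
    intro j
    induction j with
    | zero => rw [pow_zero, Matrix.one_mulVec]
    | succ j ih => rw [pow_succ, ← Matrix.mulVec_mulVec, hBv, ih]
  have hNB : ∑ j ∈ Finset.range (orderOf w), B ^ j = 0 := by
    have h1 := congrArg (Int.castRingHom k).mapMatrix hN
    rw [map_sum, map_zero] at h1
    rw [← h1]
    refine Finset.sum_congr rfl fun j _ => ?_
    rw [map_pow, hBA]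
  have hsum : (∑ j ∈ Finset.range (orderOf w), B ^ j).mulVec v =
      ∑ j ∈ Finset.range (orderOf w), (B ^ j).mulVec v := by
    induction Finset.range (orderOf w) using Finset.induction_on with
    | empty => rw [Finset.sum_empty, Finset.sum_empty, Matrix.zero_mulVec]
    | insert a s ha ih => rw [Finset.sum_insert ha, Finset.sum_insert ha, Matrix.add_mulVec, ih]
  rw [hNB, Matrix.zero_mulVec, Finset.sum_congr rfl (fun j _ => hpow j), Finset.sum_const,
    Finset.card_range, ← Nat.cast_smul_eq_nsmul k] at hsum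
  have hord : ((orderOf w : ℕ) : k) = 0 := (smul_eq_zero.1 hsum.symm).resolve_right hv
  apply hW
  obtain ⟨c, hc⟩ := orderOf_dvd_natCard w
  rw [hc, Nat.cast_mul, hord, zero_mul]

end MP8a
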