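import Pool.Agent.Lib_MP_8a48ad_gt.ThickB

/-! # Piece FGT: finitely generated cohomology is a thick condition -/

set_option autoImplicit false

namespace MP8a

universe u

variable {A : Type u} [CommRing A] {G : Gr A}

/-- lifting spans along an additive relation -/
theorem fgt_rel {X Y : Type u} [AddCommGroup X] [Module A X] [AddCommGroup Y] [Module A Y]
    (R : X → Y → Prop) (h0 : R 0 0) (hadd : ∀ x y x' y', R x y → R x' y' → R (x + x') (y + y'))
    (hsmul : ∀ (a : A) x y, R x y → R (a • x) (a • y)) (s : Finset Y) (h : ∀ z ∈ s, ∃ x, R x z) :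
    ∃ t : Finset X, (∀ x ∈ t, ∃ z ∈ s, R x z) ∧
      ∀ w ∈ Submodule.span A (s : Set Y), ∃ v ∈ Submodule.span A (t : Set X), R v w := by
  classical
  choose! g hg using h
  refine ⟨s.image g, ?_, ?_⟩
  · intro x hx
    obtain ⟨z, hz, rfl⟩ := Finset.mem_image.1 hx
    exact ⟨z, hz, hg z hz⟩
  · intro w hw
    induction hw using Submodule.span_induction with
    | mem z hz =>
      exact ⟨g z, Submodule.subset_span (Finset.mem_coe.2 (Finset.mem_image_of_mem g hz)),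
        hg z hz⟩
    | zero => exact ⟨0, Submodule.zero_mem _, h0⟩
    | add y y' _ _ hy hy' =>
      obtain ⟨v, hv, hR⟩ := hy
      obtain ⟨v', hv', hR'⟩ := hy'
      exact ⟨v + v', Submodule.add_mem _ hv hv', hadd _ _ _ _ hR hR'⟩
    | smul a y _ hy =>
      obtain ⟨v, hv, hR⟩ := hy
      exact ⟨a • v, Submodule.smul_mem _ a hv, hsmul _ _ _ hR⟩

/-- generators of a submodule of the cycles modulo boundaries -/
theorem fgt_sub (M : DGM G) (U : Submodule A M.X) (hU : ∀ x ∈ U, M.d x = 0)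
    (h : ((U.comap (LinearMap.ker M.d).subtype).map
      ((LinearMap.range M.d).submoduleOf (LinearMap.ker M.d)).mkQ).FG) :
    ∃ s : Finset M.X, (∀ z ∈ s, z ∈ U) ∧
      ∀ x ∈ U, ∃ y, x - M.d y ∈ Submodule.span A (s : Set M.X) := by
  obtain ⟨T, hT⟩ := h
  obtain ⟨t, ht, hR⟩ := fgt_rel (A := A) (X := M.X) (Y := M.H)
    (fun x q => ∃ hx : x ∈ LinearMap.ker M.d, x ∈ U ∧
      ((LinearMap.range M.d).submoduleOf (LinearMap.ker M.d)).mkQ ⟨x, hx⟩ = q)
    ⟨Submodule.zero_mem _, U.zero_mem, map_zero _⟩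
    (by
      rintro x y x' y' ⟨hx, hxU, rfl⟩ ⟨hx', hxU', rfl⟩
      exact ⟨Submodule.add_mem _ hx hx', U.add_mem hxU hxU', rfl⟩)
    (by
      rintro a x y ⟨hx, hxU, rfl⟩
      exact ⟨Submodule.smul_mem _ a hx, U.smul_mem a hxU, rfl⟩)
    T (by
      intro q hq
      have h1 : q ∈ (U.comap (LinearMap.ker M.d).subtype).map
          ((LinearMap.range M.d).submoduleOf (LinearMap.ker M.d)).mkQ := by
        rw [← hT]
        exact Submodule.subset_span hq
      obtain ⟨⟨x, hx⟩, hxU, rfl⟩ := h1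
      exact ⟨x, hx, hxU, rfl⟩)
  refine ⟨t, ?_, ?_⟩
  · intro z hz
    obtain ⟨_, _, _, hzU, _⟩ := ht z hz
    exact hzU
  · intro x hxU
    have hx : x ∈ LinearMap.ker M.d := hU x hxU
    have h1 : ((LinearMap.range M.d).submoduleOf (LinearMap.ker M.d)).mkQ ⟨x, hx⟩ ∈
        Submodule.span A (T : Set M.H) := by
      rw [hT]
      exact ⟨⟨x, hx⟩, hxU, rfl⟩
    obtain ⟨v, hv, hvx, _, he⟩ := hR _ h1
    rw [Submodule.mkQ_apply, Submodule.mkQ_apply] at he
    have h2 := (Submodule.Quotient.eq _).1 he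
    obtain ⟨y, hy⟩ := h2
    refine ⟨-y, ?_⟩
    have h3 : M.d y = v - x := hy
    rw [map_neg, h3]
    have h4 : x - -(v - x) = v := by abel
    rw [h4]
    exact hv

/-- In elementary terms. -/
theorem FG_iff (M : DGM G) : FG M ↔ ∃ s : Finset M.X, (∀ z ∈ s, M.d z = 0) ∧
    ∀ x, M.d x = 0 → ∃ y, x - M.d y ∈ Submodule.span A (s : Set M.X) := by
  constructor
  · intro h
    have h1 : (LinearMap.ker M.d).comap (LinearMap.ker M.d).subtype = ⊤ := by
      rw [Submodule.comap_subtype_self]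
    obtain ⟨s, hs, hs'⟩ := fgt_sub M (LinearMap.ker M.d) (fun x hx => hx) (by
      rw [h1, Submodule.map_top, Submodule.range_mkQ]
      exact h.fg_top)
    exact ⟨s, fun z hz => hs z hz, fun x hx => hs' x hx⟩
  · rintro ⟨s, hs, hs'⟩
    obtain ⟨t, ht, hR⟩ := fgt_rel (A := A) (X := M.H) (Y := M.X)
      (fun q x => ∃ hx : x ∈ LinearMap.ker M.d,
        ((LinearMap.range M.d).submoduleOf (LinearMap.ker M.d)).mkQ ⟨x, hx⟩ = q)
      ⟨Submodule.zero_mem _, map_zero _⟩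
      (by
        rintro q x q' x' ⟨hx, rfl⟩ ⟨hx', rfl⟩
        exact ⟨Submodule.add_mem _ hx hx', rfl⟩)
      (by
        rintro a q x ⟨hx, rfl⟩
        exact ⟨Submodule.smul_mem _ a hx, rfl⟩)
      s (fun z hz => ⟨_, hs z hz, rfl⟩)
    refine ⟨⟨t, ?_⟩⟩
    rw [eq_top_iff]
    intro q _
    obtain ⟨⟨x, hx⟩, rfl⟩ := Submodule.mkQ_surjective _ q
    obtain ⟨y, hy⟩ := hs' x hx
    obtain ⟨v, hv, hvx, he⟩ := hR _ hy
    have h1 : ((LinearMap.range M.d).submoduleOf (LinearMap.ker M.d)).mkQ ⟨x, hx⟩ = v := by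
      rw [← he, Submodule.mkQ_apply, Submodule.mkQ_apply]
      refine (Submodule.Quotient.eq _).2 ?_
      refine ⟨y, ?_⟩
      show M.d y = x - (x - M.d y)
      abel
    rw [h1]
    exact hv

/-- with homogeneous generators -/
theorem FG.exists_hom {M : DGM G} (h : FG M) : ∃ s : Finset M.X, (∀ z ∈ s, M.d z = 0) ∧
    (∀ z ∈ s, ∃ i, M.pr i z = z) ∧ ∀ x, M.d x = 0 → ∃ y, x - M.d y ∈ Submodule.span A (s : Set M.X) := by
  classical
  obtain ⟨s, hs, hs'⟩ := (FG_iff M).1 h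
  have hsup : ∀ z : M.X, ∃ t : Finset ℤ, ∑ i ∈ t, M.pr i z = z := M.fin
  choose t ht using hsup
  refine ⟨s.biUnion fun z => (t z).image fun i => M.pr i z, ?_, ?_, ?_⟩
  · intro w hw
    obtain ⟨z, hz, hw⟩ := Finset.mem_biUnion.1 hw
    obtain ⟨i, _, rfl⟩ := Finset.mem_image.1 hw
    rw [← M.pr_d, hs z hz, map_zero]
  · intro w hw
    obtain ⟨z, hz, hw⟩ := Finset.mem_biUnion.1 hw
    obtain ⟨i, _, rfl⟩ := Finset.mem_image.1 hw
    exact ⟨i, M.pr_self i z⟩
  · intro x hx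
    obtain ⟨y, hy⟩ := hs' x hx
    refine ⟨y, ?_⟩
    refine Submodule.span_le.2 ?_ hy
    intro z hz
    rw [SetLike.mem_coe, ← ht z]
    refine Submodule.sum_mem _ fun i hi => Submodule.subset_span ?_
    exact Finset.mem_coe.2 (Finset.mem_biUnion.2 ⟨z, hz, Finset.mem_image.2 ⟨i, hi, rfl⟩⟩)

theorem FG_qis {M N : DGM G} {f : M.X →ₗ[A] N.X} (hf : IsMor M N 0 f) (h : IsQis M N f) :
    FG M ↔ FG N := by
  rw [FG_iff, FG_iff]
  constructor
  · rintro ⟨s, hs, hs'⟩
    obtain ⟨t, ht, hR⟩ := fgt_rel (A := A) (X := N.X) (Y := M.X) (fun n m => n = f m)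
      (map_zero f).symm (fun n m n' m' h h' => by rw [h, h', map_add])
      (fun a n m h => by rw [h, map_smul]) s (fun z _ => ⟨f z, rfl⟩)
    refine ⟨t, ?_, ?_⟩
    · intro z hz
      obtain ⟨w, hw, rfl⟩ := ht z hz
      rw [hf.d, hs w hw, map_zero]
    · intro y hy
      obtain ⟨x, z, hx, rfl⟩ := h.2 y hy
      obtain ⟨w, hw⟩ := hs' x hx
      obtain ⟨v, hv, rfl⟩ := hR _ hw
      refine ⟨f w + z, ?_⟩
      have h1 : f x + N.d z - N.d (f w + z) = f (x - M.d w) := by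
        rw [map_add, hf.d, map_sub]
        abel
      rw [h1]
      exact hv
  · rintro ⟨s, hs, hs'⟩
    obtain ⟨t, ht, hR⟩ := fgt_rel (A := A) (X := M.X) (Y := N.X)
      (fun m n => M.d m = 0 ∧ ∃ w, n = f m + N.d w)
      ⟨map_zero _, 0, by rw [map_zero, map_zero, add_zero]⟩
      (by
        rintro m n m' n' ⟨h1, w, rfl⟩ ⟨h1', w', rfl⟩
        refine ⟨by rw [map_add, h1, h1', add_zero], w + w', ?_⟩
        rw [map_add, map_add]
        abel)
      (by
        rintro a m n ⟨h1, w, rfl⟩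
        exact ⟨by rw [map_smul, h1, smul_zero], a • w, by rw [map_smul, map_smul, smul_add]⟩)
      s (by
        intro z hz
        obtain ⟨x, w, hx, hz'⟩ := h.2 z (hs z hz)
        exact ⟨x, hx, w, hz'⟩)
    refine ⟨t, ?_, ?_⟩
    · intro z hz
      obtain ⟨_, _, h1, _⟩ := ht z hz
      exact h1
    · intro x hx
      obtain ⟨y, hy⟩ := hs' (f x) (by rw [hf.d, hx, map_zero])
      obtain ⟨v, hv, hv0, w, hw⟩ := hR _ hy
      obtain ⟨z, hz⟩ := h.1 (x - v) (by rw [map_sub, hx, hv0, sub_zero]) (y + w) (by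
        rw [map_add, map_sub]
        have h1 : N.d y = f x - (f v + N.d w) := by
          rw [← hw]
          abel
        rw [h1]
        abel)
      refine ⟨z, ?_⟩
      rw [hz]
      have h1 : x - (x - v) = v := by abel
      rw [h1]
      exact hv

theorem FG_sh {M : DGM G} (h : FG M) (e : ℤ) : FG (M.sh e) := by
  rw [FG_iff] at h ⊢
  obtain ⟨s, hs, hs'⟩ := h
  have hd : (M.sh e).d = if Even e then M.d else - M.d := rfl
  refine ⟨s, ?_, ?_⟩
  · intro z hz
    rw [hd]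
    by_cases he : Even e
    · rw [if_pos he]
      exact hs z hz
    · rw [if_neg he, LinearMap.neg_apply, hs z hz, neg_zero]
  · intro x hx
    rw [hd] at hx ⊢
    by_cases he : Even e
    · rw [if_pos he] at hx ⊢
      exact hs' x hx
    · rw [if_neg he] at hx ⊢
      rw [LinearMap.neg_apply, neg_eq_zero] at hx
      obtain ⟨y, hy⟩ := hs' x hx
      refine ⟨-y, ?_⟩
      rw [LinearMap.neg_apply, map_neg, neg_neg]
      exact hy

theorem FG_retr {M N : DGM G} {i : M.X →ₗ[A] N.X} {r : N.X →ₗ[A] M.X} (hi : IsMor M N 0 i)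
    (hr : IsMor N M 0 r) (h : ∀ x, r (i x) = x) (hN : FG N) : FG M := by
  rw [FG_iff] at hN ⊢
  obtain ⟨s, hs, hs'⟩ := hN
  obtain ⟨t, ht, hR⟩ := fgt_rel (A := A) (X := M.X) (Y := N.X) (fun m n => m = r n)
    (map_zero r).symm (fun n m n' m' h h' => by rw [h, h', map_add])
    (fun a n m h => by rw [h, map_smul]) s (fun z _ => ⟨r z, rfl⟩)
  refine ⟨t, ?_, ?_⟩
  · intro z hz
    obtain ⟨w, hw, rfl⟩ := ht z hz
    rw [hr.d, hs w hw, map_zero]
  · intro x hx
    obtain ⟨y, hy⟩ := hs' (i x) (by rw [hi.d, hx, map_zero])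
    obtain ⟨v, hv, rfl⟩ := hR _ hy
    refine ⟨r y, ?_⟩
    rw [map_sub, h, ← hr.d] at hv
    exact hv

end MP8a
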