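import Pool.Agent.Lib_MP_8a48ad_gt.Coind

/-! # Rings of invariants of linear actions of finite groups on `S = k[x_1, …, x_n]` -/

set_option autoImplicit false

namespace MP8a

universe u

variable {k : Type u} [Field k] {n : ℕ}

/-- The linear substitution `x_j ↦ ∑_i A_ij x_i` -/
noncomputable def linAct (A : Matrix (Fin n) (Fin n) k) : Sn k n →ₐ[k] Sn k n :=
  MvPolynomial.aeval (fun j => ∑ i, MvPolynomial.C (A i j) * MvPolynomial.X i)

theorem linAct_X (A : Matrix (Fin n) (Fin n) k) (j : Fin n) :
    linAct A (MvPolynomial.X j) = ∑ i, MvPolynomial.C (A i j) * MvPolynomial.X i :=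
  MvPolynomial.aeval_X _ _

theorem linAct_mul (A B : Matrix (Fin n) (Fin n) k) (s : Sn k n) :
    linAct (A * B) s = linAct A (linAct B s) := by
  have h : linAct (A * B) = (linAct A).comp (linAct B) := by
    refine MvPolynomial.algHom_ext fun j => ?_
    rw [AlgHom.comp_apply, linAct_X, linAct_X, map_sum]
    simp only [map_mul, linAct_X, MvPolynomial.algHom_C, Matrix.mul_apply, map_sum, Finset.sum_mul,
      Finset.mul_sum]
    rw [Finset.sum_comm]
    refine Finset.sum_congr rfl fun i _ => Finset.sum_congr rfl fun l _ => ?_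
    simp only [MvPolynomial.algebraMap_eq]
    ring
  rw [h, AlgHom.comp_apply]

theorem linAct_one (s : Sn k n) : linAct (1 : Matrix (Fin n) (Fin n) k) s = s := by
  have h : linAct (1 : Matrix (Fin n) (Fin n) k) = AlgHom.id k (Sn k n) := by
    refine MvPolynomial.algHom_ext fun j => ?_
    rw [linAct_X, Finset.sum_eq_single j]
    · simp
    · intro i _ hi
      rw [Matrix.one_apply_ne hi]
      simp
    · simp
  rw [h, AlgHom.id_apply]

theorem linAct_hom (A : Matrix (Fin n) (Fin n) k) {j : ℕ} {s : Sn k n} (hs : s.IsHomogeneous j) :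
    (linAct A s).IsHomogeneous j := by
  have hg : ∀ j : Fin n, (∑ i, MvPolynomial.C (A i j) * MvPolynomial.X i : Sn k n).IsHomogeneous 1 := by
    intro j
    refine MvPolynomial.IsHomogeneous.sum _ _ _ fun i _ => ?_
    simpa using (MvPolynomial.isHomogeneous_C (Fin n) (A i j)).mul (MvPolynomial.isHomogeneous_X k i)
  have h := hs.aeval (fun j : Fin n => (∑ i, MvPolynomial.C (A i j) * MvPolynomial.X i : Sn k n)) hg
  rw [one_mul] at h
  exact h

theorem linAct_comp (A : Matrix (Fin n) (Fin n) k) (j : ℕ) (s : Sn k n) :
    MvPolynomial.homogeneousComponent j (linAct A s) = linAct A (MvPolynomial.homogeneousComponent j s) := by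
  conv_lhs => rw [← MvPolynomial.sum_homogeneousComponent s]
  rw [map_sum, map_sum]
  have h : ∀ i ∈ Finset.range (s.totalDegree + 1),
      MvPolynomial.homogeneousComponent j (linAct A (MvPolynomial.homogeneousComponent i s)) =
        if i = j then linAct A (MvPolynomial.homogeneousComponent j s) else 0 := by
    intro i _
    rw [MvPolynomial.homogeneousComponent_of_mem (linAct_hom A
      (MvPolynomial.homogeneousComponent_isHomogeneous i s))]
    by_cases hij : j = i
    · subst hij
      simp
    · rw [if_neg hij, if_neg (Ne.symm hij)]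
  rw [Finset.sum_congr rfl h, Finset.sum_ite_eq']
  by_cases hj : j ∈ Finset.range (s.totalDegree + 1)
  · rw [if_pos hj]
  · rw [if_neg hj, MvPolynomial.homogeneousComponent_eq_zero, map_zero]
    simpa using hj

theorem linAct_c (A : Matrix (Fin n) (Fin n) k) (i : ℤ) (s : Sn k n) :
    (grS k n).c i (linAct A s) = linAct A ((grS k n).c i s) := by
  change cS k n i (linAct A s) = linAct A (cS k n i s)
  unfold cS
  by_cases h : Even i ∧ 0 ≤ i
  · rw [if_pos h]
    exact linAct_comp A _ s
  · rw [if_neg h]
    simp

variable {W : Type*} [Group W]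

/-- The ring of invariants. -/
noncomputable def invA (ρ : W →* GL (Fin n) k) : Subalgebra k (Sn k n) where
  carrier := {s | ∀ w, linAct (ρ w : Matrix (Fin n) (Fin n) k) s = s}
  mul_mem' := fun ha hb w => by rw [map_mul, ha w, hb w]
  add_mem' := fun ha hb w => by rw [map_add, ha w, hb w]
  algebraMap_mem' := fun c w => by rw [AlgHom.commutes]

theorem mem_invA (ρ : W →* GL (Fin n) k) (s : Sn k n) :
    s ∈ invA ρ ↔ ∀ w, linAct (ρ w : Matrix (Fin n) (Fin n) k) s = s := Iff.rfl

/-- The grading of the ring of invariants. -/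
noncomputable def grR (ρ : W →* GL (Fin n) k) : Gr (invA ρ) where
  c i := (((grS k n).c i).comp (invA ρ).toSubring.toAddSubgroup.subtype).codRestrict
    (invA ρ).toSubring.toAddSubgroup (fun a => by
      intro w
      change linAct _ ((grS k n).c i a.1) = (grS k n).c i a.1
      rw [← linAct_c, a.2 w])
  c_c i j a := by
    apply Subtype.ext
    have h := (grS k n).c_c i j a.1
    by_cases hij : i = j
    · rw [if_pos hij] at h ⊢
      exact h
    · rw [if_neg hij] at h ⊢
      exact h
  fin a := by
    obtain ⟨s, hs⟩ := (grS k n).fin a.1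
    refine ⟨s, Subtype.ext ?_⟩
    rw [AddSubmonoidClass.coe_finsetSum]
    exact hs
  mul := by
    intro i j a b ha hb
    exact Subtype.ext ((grS k n).mul (congrArg Subtype.val ha) (congrArg Subtype.val hb))
  one := Subtype.ext (grS k n).one
  odd := by
    intro i hi a
    exact Subtype.ext ((grS k n).odd hi a.1)

theorem grR_coe (ρ : W →* GL (Fin n) k) (i : ℤ) (a : invA ρ) :
    (((grR ρ).c i a : invA ρ) : Sn k n) = (grS k n).c i (a : Sn k n) := rfl

/-- `R → S` is compatible with the gradings. -/
theorem compat_inv (ρ : W →* GL (Fin n) k) : Compat (grR ρ) (grS k n) := fun _ _ => rfl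

/-- A representation over `ℤ` gives a representation over every field. -/
noncomputable def latt (k : Type u) [Field k] (ρ : W →* GL (Fin n) ℤ) : W →* GL (Fin n) k :=
  (Matrix.GeneralLinearGroup.map (Int.castRingHom k)).comp ρ

end MP8a
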