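import Pool.Agent.Lib_MP_8a48ad_gt.Stmt
import Pool.Agent.Lib_MP_8a48ad_gt.StDefs
import Pool.Agent.Lib_MP_8a48ad_gt.ThickB
import Pool.Agent.Lib_MP_8a48ad_gt.FGT

/-! # Transfer from `invA (latt k ρ)` to an arbitrary model of the ring of invariants -/

set_option autoImplicit false

namespace MP8a

universe u

section

variable {A B : Type u} [CommRing A] [CommRing B] [Algebra A B] [Algebra B A] {GA : Gr A} {GB : Gr B}

/-- the identity map, as an equivalence -/
def eqvId {M N : DGM GA} (f : M.X ≃+ N.X) (hs : ∀ (a : A) (x : M.X), f (a • x) = a • f x) :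
    M.X ≃ₗ[A] N.X := { f with map_smul' := hs }

omit [Algebra B A] in
theorem thick_restr {T : DGM GA → Prop} (hT : IsThick T) (c1 : Compat GA GB) :
    IsThick (fun N : DGM GB => T (restr c1 N)) where
  qis M N f hf hq := hT.qis _ _ (restrMap c1 f) (hf.restr c1) hq
  sh M e h := by
    have h1 := hT.sh (restr c1 M) e h
    let E : ((restr c1 M).sh e).X ≃ₗ[A] (restr c1 (M.sh e)).X :=
      { toFun := fun x => x
        invFun := fun x => x
        map_add' := fun _ _ => rfl
        map_smul' := fun _ _ => rfl
        left_inv := fun _ => rfl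
        right_inv := fun _ => rfl }
    refine (hT.iso E ⟨fun i x => ?_, fun x => ?_⟩).1 h1
    · change (M.sh e).pr (i + 0) x = M.pr (i + e) x
      rw [add_zero]
    · change (M.sh e).d x = ((restr c1 M).sh e).d x
      by_cases he : Even e
      · have h2 : (M.sh e).d = M.d := if_pos he
        have h3 : ((restr c1 M).sh e).d = (restr c1 M).d := if_pos he
        rw [h2, h3]
        rfl
      · have h2 : (M.sh e).d = - M.d := if_neg he
        have h3 : ((restr c1 M).sh e).d = - (restr c1 M).d := if_neg he
        rw [h2, h3]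
        rfl
  ses1 L M N f g hf hg hs h1 h2 :=
    hT.ses1 _ _ _ (restrMap c1 f) (restrMap c1 g) (hf.restr c1) (hg.restr c1) (hs.restr c1) h1 h2
  ses2 L M N f g hf hg hs h1 h2 :=
    hT.ses2 _ _ _ (restrMap c1 f) (restrMap c1 g) (hf.restr c1) (hg.restr c1) (hs.restr c1) h1 h2
  ses3 L M N f g hf hg hs h1 h2 :=
    hT.ses3 _ _ _ (restrMap c1 f) (restrMap c1 g) (hf.restr c1) (hg.restr c1) (hs.restr c1) h1 h2
  retr M N i r hi hr h h1 :=
    hT.retr _ _ (restrMap c1 i) (restrMap c1 r) (hi.restr c1) (hr.restr c1) h h1

/-- going back and forth -/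
def bf (c1 : Compat GA GB) (c2 : Compat GB GA) (h : ∀ a : A, algebraMap B A (algebraMap A B a) = a)
    (M : DGM GA) : (restr c1 (restr c2 M)).X ≃ₗ[A] M.X :=
  { toFun := fun x => x
    invFun := fun x => x
    map_add' := fun _ _ => rfl
    map_smul' := fun a x => by
      change (algebraMap B A (algebraMap A B a)) • (show M.X from x) = a • (show M.X from x)
      rw [h]
    left_inv := fun _ => rfl
    right_inv := fun _ => rfl }

theorem bf_isMor (c1 : Compat GA GB) (c2 : Compat GB GA)
    (h : ∀ a : A, algebraMap B A (algebraMap A B a) = a) (M : DGM GA) :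
    IsMor (restr c1 (restr c2 M)) M 0 (bf c1 c2 h M).toLinearMap :=
  ⟨fun i x => by
    change M.pr (i + 0) x = M.pr i x
    rw [add_zero], fun _ => rfl⟩

theorem FG_restr (c2 : Compat GB GA) (h : ∀ a : A, algebraMap B A (algebraMap A B a) = a)
    {M : DGM GA} (hM : FG M) : FG (restr c2 M) := by
  rw [FG_iff] at hM ⊢
  obtain ⟨s, hs, hs'⟩ := hM
  refine ⟨s, hs, fun x hx => ?_⟩
  obtain ⟨y, hy⟩ := hs' x hx
  refine ⟨y, ?_⟩
  have key : ∀ z ∈ Submodule.span A (s : Set M.X),
      (show (restr c2 M).X from z) ∈ Submodule.span B (show Set (restr c2 M).X from (s : Set M.X)) := by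
    intro z hz
    induction hz using Submodule.span_induction with
    | mem z hz => exact Submodule.subset_span hz
    | zero => exact Submodule.zero_mem _
    | add z z' _ _ h1 h2 => exact Submodule.add_mem _ h1 h2
    | smul a z _ h1 =>
      have h2 := Submodule.smul_mem _ (algebraMap A B a) h1
      have h3 : (algebraMap A B a) • (show (restr c2 M).X from z) =
          (show (restr c2 M).X from a • z) := by
        change (algebraMap B A (algebraMap A B a)) • z = a • z
        rw [h]
      rw [h3] at h2
      exact h2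
  exact key _ hy

end

variable {k : Type u} [Field k] {n : ℕ} {W : Type*} [Group W]

theorem act_eq (ρ : W →* Matrix.GeneralLinearGroup (Fin n) ℤ) (w : W) (s : Sn k n) :
    act k (ρ w : Matrix (Fin n) (Fin n) ℤ) s =
      linAct (latt k ρ w : Matrix (Fin n) (Fin n) k) s := rfl

/-- TRANSFER: a theorem about the subalgebra of invariants holds for every model `R` of the ring of invariants. -/
theorem transfer {ρ : W →* Matrix.GeneralLinearGroup (Fin n) ℤ}
    (main : ∀ M : DGM (grR (latt k ρ)), FG M ↔ Thick (SR (compat_inv (latt k ρ))) M)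
    {R : Type u} [CommRing R] [Algebra R (Sn k n)] {GR : Gr R} (hR : InvRing k ρ GR)
    (M : DGM GR) : FG M ↔ Thick hR.mod M := by
  let g0 : R →+* invA (latt k ρ) :=
    { toFun := fun r => ⟨algebraMap R (Sn k n) r, fun w => by
        rw [← act_eq]
        exact (hR.img _).1 ⟨r, rfl⟩ w⟩
      map_one' := Subtype.ext (map_one _)
      map_mul' := fun a b => Subtype.ext (map_mul _ a b)
      map_zero' := Subtype.ext (map_zero _)
      map_add' := fun a b => Subtype.ext (map_add _ a b) }
  have hg0 : ∀ r, ((g0 r : invA (latt k ρ)) : Sn k n) = algebraMap R (Sn k n) r := fun _ => rfl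
  have hbij : Function.Bijective g0 := by
    constructor
    · intro a b hab
      exact hR.inj (congrArg Subtype.val hab)
    · rintro ⟨s, hs⟩
      obtain ⟨r, hr⟩ := (hR.img s).2 (fun w => by
        rw [act_eq]
        exact hs w)
      exact ⟨r, Subtype.ext hr⟩
  let e : R ≃+* invA (latt k ρ) := RingEquiv.ofBijective g0 hbij
  let a1 : Algebra R (invA (latt k ρ)) := e.toRingHom.toAlgebra
  let a2 : Algebra (invA (latt k ρ)) R := e.symm.toRingHom.toAlgebra
  have h1 : ∀ r : R, algebraMap R (invA (latt k ρ)) r = e r := fun _ => rfl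
  have h2 : ∀ a : invA (latt k ρ), algebraMap (invA (latt k ρ)) R a = e.symm a := fun _ => rfl
  have h12 : ∀ r : R, algebraMap (invA (latt k ρ)) R (algebraMap R (invA (latt k ρ)) r) = r :=
    fun r => by rw [h1, h2, e.symm_apply_apply]
  have h21 : ∀ a : invA (latt k ρ), algebraMap R (invA (latt k ρ))
      (algebraMap (invA (latt k ρ)) R a) = a := fun a => by rw [h1, h2, e.apply_symm_apply]
  have hv : ∀ r : R, ((e r : invA (latt k ρ)) : Sn k n) = algebraMap R (Sn k n) r := fun _ => rfl
  have c1 : Compat GR (grR (latt k ρ)) := by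
    intro i r
    apply Subtype.ext
    rw [h1, h1, hv, hR.deg, grR_coe, hv]
  have c2 : Compat (grR (latt k ρ)) GR := by
    intro i a
    have h3 := c1 i (e.symm a)
    rw [h1, h1, e.apply_symm_apply] at h3
    rw [h2, h2, ← h3, e.symm_apply_apply]
  let S1 : DGM (grR (latt k ρ)) := SR (compat_inv (latt k ρ))
  have hS1 : ∀ T : DGM GR → Prop, IsThick T → (T (restr c1 S1) ↔ T hR.mod) := by
    intro T hT
    let E : (restr c1 S1).X ≃ₗ[R] hR.mod.X :=
      { toFun := fun x => x
        invFun := fun x => x
        map_add' := fun _ _ => rfl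
        map_smul' := fun r x => by
          change (algebraMap R (invA (latt k ρ)) r) • (show Sn k n from x) = r • (show Sn k n from x)
          rw [Algebra.smul_def r, ← hv, h1]
          rfl
        left_inv := fun _ => rfl
        right_inv := fun _ => rfl }
    refine hT.iso E ⟨fun i x => ?_, fun x => rfl⟩
    change (grS k n).c (i + 0) x = (grS k n).c i x
    rw [add_zero]
  have hS2 : ∀ T : DGM (grR (latt k ρ)) → Prop, IsThick T → (T (restr c2 hR.mod) ↔ T S1) := by
    intro T hT
    let E : (restr c2 hR.mod).X ≃ₗ[invA (latt k ρ)] S1.X :=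
      { toFun := fun x => x
        invFun := fun x => x
        map_add' := fun _ _ => rfl
        map_smul' := fun a x => by
          change (algebraMap (invA (latt k ρ)) R a) • (show Sn k n from x) = a • (show Sn k n from x)
          rw [Algebra.smul_def, ← hv, h2, e.apply_symm_apply]
          rfl
        left_inv := fun _ => rfl
        right_inv := fun _ => rfl }
    refine hT.iso E ⟨fun i x => ?_, fun x => rfl⟩
    change (grS k n).c (i + 0) x = (grS k n).c i x
    rw [add_zero]
  constructor
  · intro hM T hT hTS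
    have h3 := (main (restr c2 M)).1 (FG_restr c2 h12 hM) (fun N => T (restr c1 N))
      (thick_restr hT c1) ((hS1 T hT).2 hTS)
    exact (hT.iso (bf c1 c2 h12 M) (bf_isMor c1 c2 h12 M)).1 h3
  · intro hM
    have h3 : Thick S1 (restr c2 M) := by
      intro T hT hTS
      exact hM (fun N => T (restr c2 N)) (thick_restr hT c2) ((hS2 T hT).2 hTS)
    have h4 := FG_restr c1 h21 ((main (restr c2 M)).2 h3)
    exact (FG_qis (bf_isMor c1 c2 h12 M) (isQis_equiv _ (bf_isMor c1 c2 h12 M))).1 h4

end MP8a
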