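import Pool.Agent.Lib_MP_8a48ad_gt.CIMain
import Pool.Agent.Lib_MP_8a48ad_gt.Transfer
import Pool.Agent.Lib_MP_8a48ad_gt.InvSetup
import Pool.Agent.Lib_MP_8a48ad_gt.Latt

/-! # Stage CI: transfer of the presentation to the subalgebra of invariants -/

set_option autoImplicit false

namespace MP8a

universe u

variable {k : Type u} [Field k] {n : ℕ} {W : Type*} [Group W]

theorem isCI_inv {ρ : W →* Matrix.GeneralLinearGroup (Fin n) ℤ}
    {R : Type u} [CommRing R] [Algebra k R] [Algebra R (Sn k n)] [IsScalarTower k R (Sn k n)]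
    {GR : Gr R} (hR : InvRing k ρ GR) (h : IsCI k GR) : IsCI k (grR (latt k ρ)) := by
  obtain ⟨N, c, ⟨P⟩⟩ := h
  let g : R →ₐ[k] invA (latt k ρ) :=
    { toFun := fun r => ⟨algebraMap R (Sn k n) r, fun w => by
        rw [← act_eq]
        exact (hR.img _).1 ⟨r, rfl⟩ w⟩
      map_one' := Subtype.ext (map_one _)
      map_mul' := fun a b => Subtype.ext (map_mul _ a b)
      map_zero' := Subtype.ext (map_zero _)
      map_add' := fun a b => Subtype.ext (map_add _ a b)
      commutes' := fun a => Subtype.ext (IsScalarTower.algebraMap_apply k R (Sn k n) a).symm }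
  have hg : ∀ r, ((g r : invA (latt k ρ)) : Sn k n) = algebraMap R (Sn k n) r := fun _ => rfl
  have hinj : Function.Injective g := fun a b hab => hR.inj (congrArg Subtype.val hab)
  have hsurj : Function.Surjective g := by
    rintro ⟨s, hs⟩
    obtain ⟨r, hr⟩ := (hR.img s).2 (fun w => by
      rw [act_eq]
      exact hs w)
    exact ⟨r, Subtype.ext hr⟩
  refine ⟨N, c, ⟨{ m := P.m, π := g.comp P.π, f := P.f, φ := P.φ, hX := fun i => ?_, hf := P.hf, surj := hsurj.comp P.surj, ker := ?_, reg := P.reg }⟩⟩
  · apply Subtype.ext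
    have h1 := congrArg (algebraMap R (Sn k n)) (P.hX i)
    rw [hR.deg] at h1
    rw [grR_coe]
    exact h1
  · rw [← P.ker]
    ext x
    rw [RingHom.mem_ker, RingHom.mem_ker]
    constructor
    · intro hx
      apply hinj
      rw [map_zero]
      exact hx
    · intro hx
      change g (P.π x) = 0
      have hx' : P.π x = 0 := hx
      rw [hx', map_zero]

end MP8a
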