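import Pool.Agent.Lib_MP_8a48ad_gt.CIDefs

/-! # Piece CIGQ1: the property `GQ`: retracts and exact sequences (same proofs as for `GP`) -/

set_option autoImplicit false

namespace MP8a

universe u

variable {A : Type u} [CommRing A] {G : Gr A} {P : DGM G}

/-- Same proof as `GP_retract` (`GRet.lean`), without `f`. -/
theorem GQ_retract {M N : DGM G} {i : M.X →ₗ[A] N.X} {r : N.X →ₗ[A] M.X}
    (hi : IsMor M N 0 i) (hr : IsMor N M 0 r) (h : ∀ x, r (i x) = x) {g : ℕ} (hN : GQ P N g) :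
    GQ P M g := by
  intro M' e' p hp hq Y γ hγ hgh e y hy
  -- the difference map
  have hp0 : IsMor M' (M.regr e') 0 p := hp.to_regr
  have hr0 : IsMor (N.regr e') (M.regr e') 0 r :=
    ⟨fun j x => hr.pr (j + e') x |> fun h1 => by
      rw [add_zero] at h1 ⊢
      exact h1, hr.d⟩
  have hD : IsMor (M'.prod (N.regr e')) (M.regr e') 0 (p.coprod (-r)) := hp0.coprod hr0.neg
  have hU1 := hD.ker_pr
  have hU2 := hD.ker_d
  have hmem : ∀ x : M'.X × N.X, x ∈ LinearMap.ker (p.coprod (-r)) ↔ p x.1 = r x.2 := by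
    intro x
    rw [LinearMap.mem_ker]
    change p x.1 + -(r x.2) = 0 ↔ p x.1 = r x.2
    rw [← sub_eq_add_neg, sub_eq_zero]
  set U : Submodule A (M'.X × N.X) := LinearMap.ker (p.coprod (-r)) with hU
  have hsub : IsMor ((M'.prod (N.regr e')).sub U hU1 hU2) (M'.prod (N.regr e')) 0 U.subtype :=
    isMor_subtype (M'.prod (N.regr e')) U hU1 hU2
  have hfst : IsMor ((M'.prod (N.regr e')).sub U hU1 hU2) M' 0
      ((LinearMap.fst A M'.X N.X) ∘ₗ U.subtype) :=
    (isMor_fst M' (N.regr e')).comp0 hsub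
  have hsnd : IsMor ((M'.prod (N.regr e')).sub U hU1 hU2) N e'
      ((LinearMap.snd A M'.X N.X) ∘ₗ U.subtype) :=
    ⟨fun _ _ => rfl, fun _ => rfl⟩
  have hSQ : SQ ((M'.prod (N.regr e')).sub U hU1 hU2) N
      ((LinearMap.snd A M'.X N.X) ∘ₗ U.subtype) := by
    constructor
    · intro n
      obtain ⟨x, hx⟩ := hq.1 (r n)
      exact ⟨⟨(x, n), (hmem (x, n)).2 hx⟩, rfl⟩
    · intro x hx hdx
      have hx2 : x.1.2 = 0 := hx
      have hx1 : p x.1.1 = 0 := by
        rw [(hmem x.1).1 x.2, hx2, map_zero]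
      have hd1 : M'.d x.1.1 = 0 := congrArg (fun z => Prod.fst (Subtype.val z)) hdx
      obtain ⟨w, hw, hdw⟩ := hq.2 x.1.1 hx1 hd1
      refine ⟨⟨(w, 0), (hmem (w, 0)).2 ?_⟩, rfl, ?_⟩
      · change p w = r 0
        rw [hw, map_zero]
      · apply Subtype.ext
        refine Prod.ext ?_ ?_
        · exact hdw
        · change N.d 0 = x.1.2
          rw [hx2, map_zero]
  have hNZ := hN _ e' _ hsnd hSQ Y γ hγ hgh e _ (hy.comp0' hfst)
  -- the section
  have hip : IsMor M' (N.regr e') 0 (i ∘ₗ p) := (hi.comp0 hp).to_regr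
  have hj0 : IsMor M' (M'.prod (N.regr e')) 0 (LinearMap.id.prod (i ∘ₗ p)) :=
    (isMor_id M').prodMk hip
  have hjU : ∀ x, (LinearMap.id.prod (i ∘ₗ p) : M'.X →ₗ[A] M'.X × N.X) x ∈ U := by
    intro x
    rw [hmem]
    exact (h (p x)).symm
  have hj := IsMor.codRestrict (M := M'.prod (N.regr e')) hj0 U hU1 hU2 hjU
  have hfin := (NZ.comp_right hj hNZ).cast (zero_add _)
  exact hfin

/-- Same proof as `GP_iso`. -/
theorem GQ_iso {M N : DGM G} (e : M.X ≃ₗ[A] N.X) (he : IsMor M N 0 e.toLinearMap)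
    {g : ℕ} (hN : GQ P N g) : GQ P M g := by
  refine GQ_retract (i := e.toLinearMap) (r := e.symm.toLinearMap) he ?_ (fun x => ?_) hN
  · constructor
    · intro j x
      apply e.injective
      have h1 := he.pr j (e.symm x)
      rw [add_zero] at h1 ⊢
      change N.pr j (e (e.symm x)) = e (M.pr j (e.symm x)) at h1
      rw [e.apply_symm_apply] at h1
      change e (M.pr j (e.symm x)) = e (e.symm (N.pr j x))
      rw [e.apply_symm_apply, h1]
    · intro x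
      apply e.injective
      have h1 := he.d (e.symm x)
      change N.d (e (e.symm x)) = e (M.d (e.symm x)) at h1
      rw [e.apply_symm_apply] at h1
      change e (M.d (e.symm x)) = e (e.symm (N.d x))
      rw [e.apply_symm_apply, h1]
  · exact e.symm_apply_apply x

/-- Same proof as `GP_ses` (`SesStep.lean`), without `f`. -/
theorem GQ_ses {X1 X2 X3 : DGM G} {e1 e3 : ℤ}
    {i : X1.X →ₗ[A] X2.X} {q : X2.X →ₗ[A] X3.X} (hi : IsMor X1 X2 e1 i) (hq : IsMor X2 X3 e3 q)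
    (h : IsSES X1 X2 X3 i q) {g g' : ℕ} (h1 : GQ P X1 g) (h3 : GQ P X3 g') :
    GQ P X2 (g + g') := by
  obtain ⟨hinj, hqs, hex⟩ := h
  intro X' e' p hp hSQ Y γ hγ hγG e y hy
  -- the sub DG module `p⁻¹ (range i)`
  let U : Submodule A X'.X := (LinearMap.range i).comap p
  have hU1 : ∀ k, ∀ x ∈ U, X'.pr k x ∈ U := by
    intro k x hx
    change p (X'.pr k x) ∈ LinearMap.range i
    rw [← hp.pr]
    exact hi.range_pr _ _ hx
  have hU2 : ∀ x ∈ U, X'.d x ∈ U := by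
    intro x hx
    change p (X'.d x) ∈ LinearMap.range i
    rw [← hp.d]
    exact hi.range_d _ hx
  have hU0 : ∀ x, p x = 0 → x ∈ U := by
    intro x hx
    change p x ∈ LinearMap.range i
    rw [hx]
    exact Submodule.zero_mem _
  obtain ⟨p₁, hp₁⟩ : ∃ p₁ : (X'.sub U hU1 hU2).X →ₗ[A] X1.X, ∀ x : U, i (p₁ x) = p x.1 := by
    refine ⟨(LinearEquiv.ofInjective i hinj).symm.toLinearMap ∘ₗ
      ((p ∘ₗ U.subtype).codRestrict (LinearMap.range i) (fun x => x.2)), fun x => ?_⟩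
    exact LinearEquiv.ofInjective_symm_apply i (h := hinj) (⟨p x.1, x.2⟩ : LinearMap.range i)
  have hmp₁ : IsMor (X'.sub U hU1 hU2) X1 (e' - e1) p₁ := by
    constructor
    · intro k x
      apply hinj
      rw [← hi.pr, hp₁, hp₁, DGM.sub_pr, ← hp.pr]
      congr 2
      ring
    · intro x
      apply hinj
      rw [← hi.d, hp₁, hp₁, DGM.sub_d, ← hp.d]
  have hSQ₁ : SQ (X'.sub U hU1 hU2) X1 p₁ := by
    constructor
    · intro z
      obtain ⟨x, hx⟩ := hSQ.1 (i z)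
      have hxU : x ∈ U := ⟨z, hx.symm⟩
      refine ⟨⟨x, hxU⟩, hinj ?_⟩
      rw [hp₁]
      exact hx
    · intro x hx hdx
      have h2 : p x.1 = 0 := by
        rw [← hp₁, hx, map_zero]
      have h4 : X'.d x.1 = 0 := congrArg Subtype.val hdx
      obtain ⟨z, hz1, hz2⟩ := hSQ.2 x.1 h2 h4
      refine ⟨⟨z, hU0 z hz1⟩, hinj ?_, Subtype.ext hz2⟩
      rw [hp₁, map_zero]
      exact hz1
  -- the map `c`
  have hc : IsMor X' (Y g) e (cmp Y γ g ∘ₗ y) := (isMor_cmp Y γ hγ g).comp0 hy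
  obtain ⟨Z, u, v, hZ, hu, hv, huv⟩ := h1 (X'.sub U hU1 hU2) (e' - e1) p₁ hmp₁ hSQ₁ Y γ hγ hγG e
    (y ∘ₗ U.subtype) (hy.comp0' (isMor_subtype X' U hU1 hU2))
  have huv' : ∀ x : U, (cmp Y γ g ∘ₗ y) x.1 = v (u x) := fun x => LinearMap.congr_fun huv x
  -- the quotient `E`
  have hw : IsMor (X'.sub U hU1 hU2) (X'.prod Z) 0 (U.subtype.prod (-u)) :=
    (isMor_subtype X' U hU1 hU2).prodMk hu.neg
  let W : Submodule A (X'.prod Z).X := LinearMap.range (U.subtype.prod (-u))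
  have hW1 : ∀ k, ∀ x ∈ W, (X'.prod Z).pr k x ∈ W := hw.range_pr
  have hW2 : ∀ x ∈ W, (X'.prod Z).d x ∈ W := hw.range_d
  have hψW : W ≤ LinearMap.ker ((cmp Y γ g ∘ₗ y).coprod v) := by
    rintro _ ⟨x, rfl⟩
    rw [LinearMap.mem_ker]
    change (cmp Y γ g ∘ₗ y) x.1 + v (-(u x)) = 0
    rw [huv', map_neg, add_neg_cancel]
  have hψ : IsMor ((X'.prod Z).quo W hW1 hW2) (Y g) (e)
      (W.liftQ ((cmp Y γ g ∘ₗ y).coprod v) hψW) := (hc.coprod hv).liftQ W hW1 hW2 hψW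
  have hpW : W ≤ LinearMap.ker ((q ∘ₗ p).coprod (0 : Z.X →ₗ[A] X3.X)) := by
    rintro _ ⟨x, rfl⟩
    rw [LinearMap.mem_ker]
    change q (p x.1) + 0 = 0
    rw [add_zero]
    exact (hex _).2 x.2
  have hp' : IsMor ((X'.prod Z).quo W hW1 hW2) X3 (e' + e3)
      (W.liftQ ((q ∘ₗ p).coprod (0 : Z.X →ₗ[A] X3.X)) hpW) :=
    ((hq.comp hp).coprod (isMor_zero Z X3 _)).liftQ W hW1 hW2 hpW
  have hSQ' : SQ ((X'.prod Z).quo W hW1 hW2) X3 (W.liftQ ((q ∘ₗ p).coprod (0 : Z.X →ₗ[A] X3.X)) hpW) := by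
    constructor
    · intro z
      obtain ⟨a, ha⟩ := hqs z
      obtain ⟨b, hb⟩ := hSQ.1 a
      refine ⟨Submodule.Quotient.mk (b, 0), ?_⟩
      change q (p b) + 0 = z
      rw [hb, ha, add_zero]
    · intro x hx hdx
      obtain ⟨⟨a, b⟩, rfl⟩ := Submodule.Quotient.mk_surjective W x
      have hx' : q (p a) + 0 = 0 := hx
      rw [add_zero] at hx'
      have haU : a ∈ U := (hex _).1 hx'
      have hab : (Submodule.Quotient.mk (a, b) : (X'.prod Z).X ⧸ W) =
          Submodule.Quotient.mk (0, b + u ⟨a, haU⟩) := by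
        rw [Submodule.Quotient.eq]
        refine ⟨⟨a, haU⟩, ?_⟩
        refine Prod.ext ?_ ?_
        · change a = a - 0
          rw [sub_zero]
        · change -(u ⟨a, haU⟩) = b - (b + u ⟨a, haU⟩)
          abel
      rw [hab] at hdx
      have hd1 : (Submodule.Quotient.mk ((0 : X'.X), Z.d (b + u ⟨a, haU⟩)) : (X'.prod Z).X ⧸ W) = 0 := by
        have h5 : (Submodule.Quotient.mk (X'.d 0, Z.d (b + u ⟨a, haU⟩)) : (X'.prod Z).X ⧸ W) = 0 := hdx
        rw [map_zero] at h5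
        exact h5
      rw [Submodule.Quotient.mk_eq_zero] at hd1
      obtain ⟨x', hx'1⟩ := hd1
      have h6 : (x' : U) = 0 := Subtype.ext (congrArg Prod.fst hx'1)
      have h7 : -(u x') = Z.d (b + u ⟨a, haU⟩) := congrArg Prod.snd hx'1
      rw [h6, map_zero, neg_zero] at h7
      obtain ⟨w, hw⟩ := hZ _ h7.symm
      refine ⟨Submodule.Quotient.mk (0, w), ?_, ?_⟩
      · change q (p 0) + 0 = 0
        rw [map_zero, map_zero, add_zero]
      · rw [hab, ← hw]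
        change (Submodule.Quotient.mk (X'.d 0, Z.d w) : (X'.prod Z).X ⧸ W) = _
        rw [map_zero]
  have h5 := h3 ((X'.prod Z).quo W hW1 hW2) (e' + e3) _ hp' hSQ' (fun j => Y (g + j))
    (fun j => γ (g + j)) (fun j => hγ (g + j)) (fun j => hγG (g + j)) (e) _ hψ
  have h6 : IsMor X' ((X'.prod Z).quo W hW1 hW2) 0 (W.mkQ ∘ₗ LinearMap.inl A X'.X Z.X) :=
    (isMor_mkQ (X'.prod Z) W hW1 hW2).comp0 (isMor_inl X' Z)
  have h7 := NZ.comp_right h6 h5
  have h10 : cmp Y γ (g + g') ∘ₗ y =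
      (cmp (fun j => Y (g + j)) (fun j => γ (g + j)) g' ∘ₗ
        (W.liftQ ((cmp Y γ g ∘ₗ y).coprod v) hψW)) ∘ₗ (W.mkQ ∘ₗ LinearMap.inl A X'.X Z.X) := by
    refine LinearMap.ext fun x => ?_
    change (cmp Y γ (g + g') (y x)) =
      (cmp (fun j => Y (g + j)) (fun j => γ (g + j)) g' ((cmp Y γ g (y x)) + v 0))
    have h9 : cmp Y γ g (y x) + v 0 = cmp Y γ g (y x) := by
      rw [map_zero, add_zero]
    rw [h9, cmp_add]
  rw [h10]
  exact h7.cast (zero_add _)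

end MP8a
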