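import Pool.Agent.Lib_MP_8a48ad_gt.Basic

/-!
# Stage CI, definitions, part 2: the graded ring `R ⊗_k S = R[x_1, …, x_n]`, `|x_i| = 2`
-/

set_option autoImplicit false

namespace MP8a

universe u

open MvPolynomial

variable {R : Type u} [CommRing R]

/-- the component of degree `i`: the coefficient of `x^μ` is replaced by its component of degree `i - 2 |μ|` -/
noncomputable def cA (GR : Gr R) (n : ℕ) (i : ℤ) : MvPolynomial (Fin n) R →+ MvPolynomial (Fin n) R where
  toFun p := ∑ μ ∈ p.support, monomial μ (GR.c (i - 2 * (μ.degree : ℤ)) (coeff μ p))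
  map_zero' := by simp
  map_add' := by
    classical
    intro p q
    have h : ∀ (r : MvPolynomial (Fin n) R) (s : Finset (Fin n →₀ ℕ)), r.support ⊆ s →
        ∑ μ ∈ r.support, monomial μ (GR.c (i - 2 * (μ.degree : ℤ)) (coeff μ r)) =
          ∑ μ ∈ s, monomial μ (GR.c (i - 2 * (μ.degree : ℤ)) (coeff μ r)) := by
      intro r s hs
      refine Finset.sum_subset hs fun μ _ hμ => ?_
      rw [MvPolynomial.notMem_support_iff] at hμ
      rw [hμ, map_zero, map_zero]
    rw [h (p + q) (p.support ∪ q.support) MvPolynomial.support_add,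
      h p (p.support ∪ q.support) Finset.subset_union_left,
      h q (p.support ∪ q.support) Finset.subset_union_right, ← Finset.sum_add_distrib]
    refine Finset.sum_congr rfl fun μ _ => ?_
    rw [coeff_add, map_add, map_add]

theorem coeff_cA (GR : Gr R) (n : ℕ) (i : ℤ) (p : MvPolynomial (Fin n) R) (μ : Fin n →₀ ℕ) :
    coeff μ (cA GR n i p) = GR.c (i - 2 * (μ.degree : ℤ)) (coeff μ p) := by
  classical
  change coeff μ (∑ ν ∈ p.support, monomial ν (GR.c (i - 2 * (ν.degree : ℤ)) (coeff ν p))) = _
  rw [coeff_sum]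
  simp only [coeff_monomial]
  rw [Finset.sum_ite_eq']
  by_cases h : μ ∈ p.support
  · rw [if_pos h]
  · rw [if_neg h]
    rw [MvPolynomial.notMem_support_iff] at h
    rw [h, map_zero]

/-- The grading of `R[x_1, …, x_n]`. -/
noncomputable def grA (GR : Gr R) (n : ℕ) : Gr (MvPolynomial (Fin n) R) where
  c := cA GR n
  c_c i j p := by
    ext μ
    rw [coeff_cA, coeff_cA, GR.c_c]
    by_cases h : i = j
    · subst h
      rw [if_pos rfl, if_pos rfl, coeff_cA]
    · rw [if_neg h, if_neg (fun h' => h (sub_left_injective h')), coeff_zero]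
  fin p := by
    classical
    choose s hs using fun a : R => GR.fin a
    -- the components of `a ∈ R` outside of a finite set vanish
    have hs' : ∀ a : R, ∀ i, i ∉ s a → GR.c i a = 0 := by
      intro a i hi
      rw [← hs a, map_sum]
      refine Finset.sum_eq_zero fun j hj => ?_
      rw [GR.c_c, if_neg]
      rintro rfl
      exact hi hj
    refine ⟨p.support.biUnion (fun μ => (s (coeff μ p)).map (addRightEmbedding (2 * (μ.degree : ℤ)))), ?_⟩
    ext μ
    rw [coeff_sum]
    have h1 : ∀ i ∈ p.support.biUnion (fun μ => (s (coeff μ p)).map (addRightEmbedding (2 * (μ.degree : ℤ)))),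
        coeff μ (cA GR n i p) = GR.c (i - 2 * (μ.degree : ℤ)) (coeff μ p) := fun i _ => coeff_cA GR n i p μ
    rw [Finset.sum_congr rfl h1]
    by_cases hμ : μ ∈ p.support
    · have h2 : ∀ t : Finset ℤ, s (coeff μ p) ⊆ t → ∑ i ∈ t, GR.c i (coeff μ p) = coeff μ p := by
        intro t ht
        rw [← Finset.sum_subset ht (fun i _ hi => hs' _ i hi), hs]
      have h3 := h2 ((p.support.biUnion (fun μ => (s (coeff μ p)).map
        (addRightEmbedding (2 * (μ.degree : ℤ))))).map (addRightEmbedding (-(2 * (μ.degree : ℤ))))) (by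
          intro i hi
          rw [Finset.mem_map]
          refine ⟨i + 2 * (μ.degree : ℤ), Finset.mem_biUnion.2 ⟨μ, hμ, Finset.mem_map.2 ⟨i, hi, rfl⟩⟩, ?_⟩
          simp)
      rw [Finset.sum_map] at h3
      exact h3
    · rw [MvPolynomial.notMem_support_iff] at hμ
      rw [hμ]
      exact Finset.sum_eq_zero fun i _ => map_zero _
  mul := by
    classical
    intro i j p q hp hq
    ext μ
    rw [coeff_cA, coeff_mul, map_sum]
    refine Finset.sum_congr rfl fun x hx => ?_
    rw [Finset.HasAntidiagonal.mem_antidiagonal] at hx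
    have h1 : GR.c (i - 2 * (x.1.degree : ℤ)) (coeff x.1 p) = coeff x.1 p := by
      rw [← coeff_cA, hp]
    have h2 : GR.c (j - 2 * (x.2.degree : ℤ)) (coeff x.2 q) = coeff x.2 q := by
      rw [← coeff_cA, hq]
    have h3 := GR.mul h1 h2
    have h4 : i - 2 * (x.1.degree : ℤ) + (j - 2 * (x.2.degree : ℤ)) = i + j - 2 * (μ.degree : ℤ) := by
      rw [← hx, map_add]
      push_cast
      ring
    rw [h4] at h3
    exact h3
  one := by
    classical
    ext μ
    rw [coeff_cA, coeff_one]
    by_cases h : (0 : Fin n →₀ ℕ) = μ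
    · subst h
      rw [if_pos rfl]
      simpa using GR.one
    · rw [if_neg h, map_zero]
  odd := by
    intro i hi p
    ext μ
    rw [coeff_cA, coeff_zero]
    refine GR.odd ?_ _
    exact hi.sub_even (even_two_mul _)

theorem grA_c (GR : Gr R) (n : ℕ) (i : ℤ) (p : MvPolynomial (Fin n) R) : (grA GR n).c i p = cA GR n i p := rfl

/-- elements of `R` -/
theorem grA_C (GR : Gr R) (n : ℕ) (i : ℤ) (a : R) :
    (grA GR n).c i (C a) = C (GR.c i a) := by
  classical
  ext μ
  rw [grA_c, coeff_cA, coeff_C, coeff_C]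
  by_cases h : (0 : Fin n →₀ ℕ) = μ
  · subst h
    rw [if_pos rfl, if_pos rfl]
    simp
  · rw [if_neg h, if_neg h, map_zero]

/-- homogeneous monomials -/
theorem grA_monomial (GR : Gr R) (n : ℕ) (i : ℤ) (μ : Fin n →₀ ℕ) (a : R) :
    (grA GR n).c i (monomial μ a) = monomial μ (GR.c (i - 2 * (μ.degree : ℤ)) a) := by
  classical
  ext ν
  rw [grA_c, coeff_cA, coeff_monomial, coeff_monomial]
  by_cases h : μ = ν
  · subst h
    rw [if_pos rfl, if_pos rfl]
  · rw [if_neg h, if_neg h, map_zero]

end MP8a
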