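import Pool.Agent.Lib_MP_8a48ad_gt.CIGrA

/-! # Piece CIGRQ: the weighted grading of `k[X_1, …, X_N]`, `|X_i| = 2 m_i` -/

set_option autoImplicit false

namespace MP8a

open MvPolynomial

universe u

/-- The component of degree `i` of a polynomial in weighted variables, `|X_i| = 2 m_i`. -/
noncomputable def cQ (k : Type u) [Field k] {N : ℕ} (m : Fin N → ℕ) (i : ℤ) :
    MvPolynomial (Fin N) k →+ MvPolynomial (Fin N) k :=
  if Even i ∧ 0 ≤ i then (weightedHomogeneousComponent m (i / 2).toNat).toAddMonoidHom else 0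

/-- The coefficient of `X^μ` in the component of degree `i` is the coefficient of `X^μ` if `i = 2 ∑ m_i μ_i` and `0` otherwise. -/
theorem coeff_cQ (k : Type u) [Field k] {N : ℕ} (m : Fin N → ℕ) (i : ℤ) (p : MvPolynomial (Fin N) k)
    (μ : Fin N →₀ ℕ) : coeff μ (cQ k m i p) = if i = 2 * (Finsupp.weight m μ : ℤ) then coeff μ p else 0 := by
  classical
  unfold cQ
  by_cases h : Even i ∧ 0 ≤ i
  · rw [if_pos h]
    change coeff μ (weightedHomogeneousComponent m (i / 2).toNat p) = _
    rw [coeff_weightedHomogeneousComponent]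
    obtain ⟨⟨j, hj⟩, h0⟩ := h
    by_cases h1 : Finsupp.weight m μ = (i / 2).toNat
    · rw [if_pos h1, if_pos (by omega)]
    · rw [if_neg h1, if_neg (by omega)]
  · rw [if_neg h, if_neg]
    · rfl
    · intro h1
      exact h ⟨⟨(Finsupp.weight m μ : ℤ), by omega⟩, by omega⟩

/-- the grading -/
noncomputable def grQ (k : Type u) [Field k] {N : ℕ} (m : Fin N → ℕ) : Gr (MvPolynomial (Fin N) k) where
  c := cQ k m
  c_c := by
    intro i j a
    ext μ
    rw [coeff_cQ, coeff_cQ]
    by_cases h : i = j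
    · subst h
      rw [if_pos rfl, coeff_cQ]
      split_ifs <;> rfl
    · rw [if_neg h, coeff_zero]
      by_cases h1 : i = 2 * (Finsupp.weight m μ : ℤ)
      · rw [if_pos h1, if_neg (fun h2 => h (h1.trans h2.symm))]
      · rw [if_neg h1]
  fin := by
    intro a
    classical
    refine ⟨a.support.image (fun μ => 2 * (Finsupp.weight m μ : ℤ)), ?_⟩
    ext μ
    rw [coeff_sum, Finset.sum_congr rfl fun i _ => coeff_cQ k m i a μ, Finset.sum_ite_eq']
    by_cases h : μ ∈ a.support
    · rw [if_pos (Finset.mem_image_of_mem _ h)]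
    · rw [MvPolynomial.notMem_support_iff] at h
      rw [h, ite_self]
  mul := by
    intro i j a b ha hb
    classical
    ext μ
    rw [coeff_cQ]
    by_cases h : i + j = 2 * (Finsupp.weight m μ : ℤ)
    · rw [if_pos h]
    · rw [if_neg h, coeff_mul]
      symm
      refine Finset.sum_eq_zero fun x hx => ?_
      rw [Finset.HasAntidiagonal.mem_antidiagonal] at hx
      have h1 := coeff_cQ k m i a x.1
      have h2 := coeff_cQ k m j b x.2
      rw [ha] at h1
      rw [hb] at h2
      by_cases h3 : i = 2 * (Finsupp.weight m x.1 : ℤ)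
      · by_cases h4 : j = 2 * (Finsupp.weight m x.2 : ℤ)
        · exfalso
          apply h
          rw [← hx, map_add]
          push_cast
          rw [h3, h4]
          ring
        · rw [if_neg h4] at h2
          rw [h2, mul_zero]
      · rw [if_neg h3] at h1
        rw [h1, zero_mul]
  one := by
    classical
    ext μ
    rw [coeff_cQ, coeff_one]
    by_cases h : (0 : Fin N →₀ ℕ) = μ
    · subst h
      rw [if_pos rfl, if_pos]
      rw [map_zero]
      rfl
    · rw [if_neg h, ite_self]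
  odd := by
    intro i hi a
    ext μ
    rw [coeff_cQ, coeff_zero, if_neg]
    rintro rfl
    exact absurd (even_two_mul _) (Int.not_even_iff_odd.2 hi)

variable {k : Type u} [Field k] {N : ℕ} (m : Fin N → ℕ)

theorem grQ_X (i : Fin N) : (grQ k m).c (2 * (m i : ℤ)) (X i) = X i := by
  have h1 : (X i : MvPolynomial (Fin N) k).IsWeightedHomogeneous m (m i) :=
    isWeightedHomogeneous_X k m i
  ext μ
  change coeff μ (cQ k m _ _) = _
  rw [coeff_cQ]
  by_cases h : coeff μ (X i : MvPolynomial (Fin N) k) = 0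
  · rw [h, ite_self]
  · rw [if_pos (by rw [h1 h])]

theorem grQ_C (r : k) : (grQ k m).c 0 (C r) = C r := by
  have h1 : (C r : MvPolynomial (Fin N) k).IsWeightedHomogeneous m 0 :=
    isWeightedHomogeneous_C m r
  ext μ
  change coeff μ (cQ k m _ _) = _
  rw [coeff_cQ]
  by_cases h : coeff μ (C r : MvPolynomial (Fin N) k) = 0
  · rw [h, ite_self]
  · rw [if_pos (by rw [h1 h]; rfl)]

theorem grQ_hom {f : MvPolynomial (Fin N) k} {φ : ℕ} (hf : f.IsWeightedHomogeneous m φ) :
    (grQ k m).c (2 * (φ : ℤ)) f = f := by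
  ext μ
  change coeff μ (cQ k m _ _) = _
  rw [coeff_cQ]
  by_cases h : coeff μ f = 0
  · rw [h, ite_self]
  · rw [if_pos (by rw [hf h])]

private theorem cigrq_prod {R : Type u} [CommRing R] {GR : Gr R} {ι : Type*} (s : Finset ι)
    (f : ι → R) (d : ι → ℤ) (h : ∀ i ∈ s, GR.c (d i) (f i) = f i) :
    GR.c (∑ i ∈ s, d i) (∏ i ∈ s, f i) = ∏ i ∈ s, f i := by
  classical
  induction s using Finset.induction_on with
  | empty =>
    rw [Finset.sum_empty, Finset.prod_empty]
    exact GR.one
  | insert a s ha ih =>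
    rw [Finset.sum_insert ha, Finset.prod_insert ha]
    exact GR.mul (h a (Finset.mem_insert_self a s))
      (ih fun i hi => h i (Finset.mem_insert_of_mem hi))

private theorem cigrq_monomial {R : Type u} [CommRing R] [Algebra k R] {GR : Gr R}
    (h0 : ∀ r : k, GR.c 0 (algebraMap k R r) = algebraMap k R r) (π : MvPolynomial (Fin N) k →ₐ[k] R)
    (hX : ∀ i, GR.c (2 * (m i : ℤ)) (π (X i)) = π (X i)) (μ : Fin N →₀ ℕ) (r : k) :
    GR.c (2 * (Finsupp.weight m μ : ℤ)) (π (monomial μ r)) = π (monomial μ r) := by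
  have h1 : π (monomial μ r) = algebraMap k R r * ∏ i ∈ μ.support, π (X i) ^ μ i := by
    rw [monomial_eq, map_mul, Finsupp.prod, map_prod]
    congr 1
    · exact π.commutes r
    · exact Finset.prod_congr rfl fun i _ => map_pow _ _ _
  have h2 : GR.c (∑ i ∈ μ.support, (μ i : ℤ) * (2 * (m i : ℤ))) (∏ i ∈ μ.support, π (X i) ^ μ i) =
      ∏ i ∈ μ.support, π (X i) ^ μ i :=
    cigrq_prod μ.support _ _ fun i _ => GR.pow_hom (hX i) (μ i)
  have h3 := GR.mul (h0 r) h2
  have h4 : (0 : ℤ) + ∑ i ∈ μ.support, (μ i : ℤ) * (2 * (m i : ℤ)) =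
      2 * (Finsupp.weight m μ : ℤ) := by
    rw [Finsupp.weight_apply, Finsupp.sum, zero_add]
    push_cast
    rw [Finset.mul_sum]
    refine Finset.sum_congr rfl fun i _ => ?_
    rw [smul_eq_mul]
    push_cast
    ring
  rw [h4, ← h1] at h3
  exact h3

/-- A homomorphism of algebras which maps the `X_i` to homogeneous elements of degree `2 m_i` is homogeneous. (Check on monomials.) -/
theorem grQ_compat {R : Type u} [CommRing R] [Algebra k R] {GR : Gr R}
    (h0 : ∀ r : k, GR.c 0 (algebraMap k R r) = algebraMap k R r) (π : MvPolynomial (Fin N) k →ₐ[k] R)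
    (hX : ∀ i, GR.c (2 * (m i : ℤ)) (π (X i)) = π (X i)) (i : ℤ) (q : MvPolynomial (Fin N) k) :
    GR.c i (π q) = π ((grQ k m).c i q) := by
  have hc : ∀ (μ : Fin N →₀ ℕ) (r : k), (grQ k m).c (2 * (Finsupp.weight m μ : ℤ)) (monomial μ r) =
      monomial μ r := fun μ r => grQ_hom m (isWeightedHomogeneous_monomial m μ r rfl)
  induction q using MvPolynomial.induction_on' with
  | monomial μ r =>
    have h1 := cigrq_monomial m h0 π hX μ r
    have h2 := GR.c_c i (2 * (Finsupp.weight m μ : ℤ)) (π (monomial μ r))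
    have h3 := (grQ k m).c_c i (2 * (Finsupp.weight m μ : ℤ)) (monomial μ r)
    rw [h1] at h2
    rw [hc] at h3
    rw [h2, h3]
    split_ifs
    · rfl
    · rw [map_zero]
  | add p q hp hq =>
    rw [map_add, map_add, map_add, map_add, hp, hq]

/-- the induced homomorphism `Q[x] → R[x]` is homogeneous -/
theorem grA_map {Q R : Type u} [CommRing Q] [CommRing R] {GQ : Gr Q} {GR : Gr R} (π : Q →+* R)
    (h : ∀ i q, GR.c i (π q) = π (GQ.c i q)) (n : ℕ) (i : ℤ) (p : MvPolynomial (Fin n) Q) :
    (grA GR n).c i (map π p) = map π ((grA GQ n).c i p) := by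
  ext μ
  rw [grA_c, grA_c, coeff_cA, coeff_map, coeff_map, coeff_cA, h]

end MP8a
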