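import Pool.Agent.Lib_MP_8a48ad_gt.CIKos

/-! # Piece CIKEX: exactness of the Koszul complex of a regular sequence -/

set_option autoImplicit false

namespace MP8a

variable {A : Type*} [CommRing A] {V : Type*} [AddCommGroup V] [Module A V] {N : ℕ}

private theorem ke_single_dE (i : Fin N) (v : V) :
    dE A i (Pi.single ∅ v : Finset (Fin N) → V) = 0 := by
  funext I
  rw [dE_apply]
  by_cases hi : i ∈ I
  · rw [if_pos hi]
    rfl
  · rw [if_neg hi, Pi.single_eq_of_ne (Finset.insert_ne_empty i I), smul_zero]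
    rfl

private theorem ke_KD_single (a : Fin N → A) (v : V) :
    KD a (Pi.single ∅ v : Finset (Fin N) → V) = 0 := by
  rw [KD_def]
  exact Finset.sum_eq_zero fun i _ => by rw [ke_single_dE, smul_zero]

private theorem ke_dE_empty (i : Fin N) (z : Finset (Fin N) → V) : dE A i z ∅ = z {i} := by
  rw [dE_apply, if_neg (Finset.notMem_empty i)]
  simp [sg]

private theorem ke_KD_empty (a : Fin N → A) (z : Finset (Fin N) → V) :
    KD a z ∅ = ∑ i, a i • z {i} := by
  rw [KD_apply]
  exact Finset.sum_congr rfl fun i _ => by rw [ke_dE_empty]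

private theorem ke_KD_wE (a : Fin N → A) (j : Fin N) (z : Finset (Fin N) → V) :
    KD a (wE A j z) = a j • z - wE A j (KD a z) := by
  rw [KD_def, KD_def, map_sum, eq_sub_iff_add_eq, ← Finset.sum_add_distrib]
  have h : ∀ i, a i • dE A i (wE A j z) + wE A j (a i • dE A i z) =
      if i = j then a i • z else 0 := by
    intro i
    rw [map_smul, ← smul_add, dE_wE]
    by_cases h : i = j
    · rw [if_pos h, if_pos h]
    · rw [if_neg h, if_neg h, smul_zero]
  rw [Finset.sum_congr rfl fun i _ => h i, Finset.sum_ite_eq', if_pos (Finset.mem_univ j)]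

/-- supported on the subsets of the numbers below `j` -/
private def KeBel (A : Type*) [CommRing A] {V : Type*} [AddCommGroup V] [Module A V] {N : ℕ}
    (j : ℕ) (z : Finset (Fin N) → V) : Prop := ∀ i : Fin N, j ≤ i.val → dE A i z = 0

private theorem KeBel.mono {j k : ℕ} (h : j ≤ k) {z : Finset (Fin N) → V} (hz : KeBel A j z) :
    KeBel A k z := fun i hi => hz i (h.trans hi)

private theorem KeBel.add {j : ℕ} {z w : Finset (Fin N) → V} (hz : KeBel A j z)
    (hw : KeBel A j w) : KeBel A j (z + w) := fun i hi => by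
  rw [map_add, hz i hi, hw i hi, add_zero]

private theorem KeBel.neg {j : ℕ} {z : Finset (Fin N) → V} (hz : KeBel A j z) :
    KeBel A j (-z) := fun i hi => by
  rw [map_neg, hz i hi, neg_zero]

private theorem KeBel.sub {j : ℕ} {z w : Finset (Fin N) → V} (hz : KeBel A j z)
    (hw : KeBel A j w) : KeBel A j (z - w) := fun i hi => by
  rw [map_sub, hz i hi, hw i hi, sub_zero]

private theorem KeBel.smul {j : ℕ} {z : Finset (Fin N) → V} (b : A) (hz : KeBel A j z) :
    KeBel A j (b • z) := fun i hi => by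
  rw [map_smul, hz i hi, smul_zero]

private theorem KeBel.dE {j : ℕ} {z : Finset (Fin N) → V} (k : Fin N) (hz : KeBel A j z) :
    KeBel A j (dE A k z) := fun i hi => by
  rw [dE_dE, hz i hi, map_zero, neg_zero]

private theorem KeBel.wE {j : ℕ} {z : Finset (Fin N) → V} {k : Fin N} (hk : k.val < j)
    (hz : KeBel A j z) : KeBel A j (wE A k z) := fun i hi => by
  have h := dE_wE (A := A) i k z
  rw [hz i hi, map_zero, add_zero, if_neg (fun h => by subst h; omega)] at h
  exact h

private theorem KeBel.KD {j : ℕ} {z : Finset (Fin N) → V} (a : Fin N → A) (hz : KeBel A j z) :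
    KeBel A j (KD a z) := fun i hi => by
  rw [KD_def, map_sum]
  refine Finset.sum_eq_zero fun k _ => ?_
  rw [map_smul, dE_dE, hz i hi, map_zero, neg_zero, smul_zero]

private theorem keBel_single (j : ℕ) (v : V) :
    KeBel A j (Pi.single ∅ v : Finset (Fin N) → V) := fun i _ => ke_single_dE i v

/-- `u + e_j v = 0` only for `u = v = 0` -/
private theorem ke_uniq {j : Fin N} {u v : Finset (Fin N) → V} (hu : KeBel A j.val u)
    (hv : KeBel A j.val v) (h : u + wE A j v = 0) : u = 0 ∧ v = 0 := by
  have h1 := congrArg (fun x => dE A j x) h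
  beta_reduce at h1
  have h2 := dE_wE (A := A) j j v
  rw [hv j le_rfl, map_zero, add_zero, if_pos rfl] at h2
  rw [map_add, hu j le_rfl, zero_add, h2, map_zero] at h1
  rw [h1, map_zero, add_zero] at h
  exact ⟨h, h1⟩

private theorem ke_zero {z : Finset (Fin N) → V} (hz : KeBel A 0 z) : z = Pi.single ∅ (z ∅) := by
  funext I
  by_cases hI : I = ∅
  · subst hI
    rw [Pi.single_eq_same]
  · rw [Pi.single_eq_of_ne hI]
    obtain ⟨i, hi⟩ := Finset.nonempty_iff_ne_empty.2 hI
    have h := congrFun (hz i (Nat.zero_le _)) (I.erase i)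
    rw [dE_apply, if_neg (Finset.notMem_erase i I), Finset.insert_erase hi] at h
    have h2 := congrArg (fun x => sg i (I.erase i) • x) h
    beta_reduce at h2
    rw [smul_smul, sg_mul_self, one_smul] at h2
    rw [h2]
    simp

/-- the ideal generated by the first `j` elements -/
private def keJ (a : Fin N → A) (j : ℕ) : Ideal A :=
  Ideal.span {b | ∃ i : Fin N, i.val < j ∧ b = a i}

private theorem ke_two (a : Fin N → A) (j : ℕ) {w : Finset (Fin N) → V} {v : V}
    (hw : KeBel A j w) (h : KD a w = Pi.single ∅ v) : v ∈ keJ a j • (⊤ : Submodule A V) := by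
  have h1 := congrFun h ∅
  rw [Pi.single_eq_same, ke_KD_empty] at h1
  rw [← h1]
  refine Submodule.sum_mem _ fun i _ => ?_
  by_cases hi : i.val < j
  · exact Submodule.smul_mem_smul (Ideal.subset_span ⟨i, hi, rfl⟩) Submodule.mem_top
  · have h2 := congrFun (hw i (not_lt.1 hi)) ∅
    rw [ke_dE_empty] at h2
    rw [h2, Pi.zero_apply, smul_zero]
    exact Submodule.zero_mem _

private theorem ke_three (a : Fin N → A) (j : ℕ) (v : V)
    (hv : v ∈ keJ a j • (⊤ : Submodule A V)) :
    ∃ w : Finset (Fin N) → V, KeBel A j w ∧ KD a w = Pi.single ∅ v := by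
  let S : Submodule A V :=
    { carrier := {v | ∃ w : Finset (Fin N) → V, KeBel A j w ∧ KD a w = Pi.single ∅ v}
      zero_mem' := ⟨0, fun i _ => map_zero _, by rw [map_zero, Pi.single_zero]⟩
      add_mem' := by
        rintro x y ⟨w, hw, h⟩ ⟨w', hw', h'⟩
        exact ⟨w + w', hw.add hw', by rw [map_add, h, h', Pi.single_add]⟩
      smul_mem' := by
        rintro b x ⟨w, hw, h⟩
        exact ⟨b • w, hw.smul b, by rw [map_smul, h, Pi.single_smul]⟩ }
  have hle : keJ a j • (⊤ : Submodule A V) ≤ S := by
    rw [Submodule.smul_le]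
    intro r hr n _
    refine Submodule.span_induction (p := fun r _ => r • n ∈ S) ?_ ?_ ?_ ?_ hr
    · rintro _ ⟨i, hi, rfl⟩
      refine ⟨wE A i (Pi.single ∅ n), (keBel_single j n).wE hi, ?_⟩
      rw [ke_KD_wE, ke_KD_single, map_zero, sub_zero, Pi.single_smul]
    · rw [zero_smul]
      exact S.zero_mem
    · intro x y _ _ hx hy
      rw [add_smul]
      exact S.add_mem hx hy
    · intro b x _ hx
      rw [smul_eq_mul, mul_smul]
      exact S.smul_mem b hx
  exact hle hv

private theorem ke_one (a : Fin N → A) (hreg : ∀ (j : Fin N) (v : V),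
      a j • v ∈ keJ a j.val • (⊤ : Submodule A V) → v ∈ keJ a j.val • (⊤ : Submodule A V))
    (j : ℕ) (hj : j ≤ N) : ∀ z : Finset (Fin N) → V, KeBel A j z → KD a z = 0 →
      ∃ (v : V) (w : Finset (Fin N) → V), KeBel A j w ∧ z = Pi.single ∅ v + KD a w := by
  induction j with
  | zero =>
    intro z hz _
    refine ⟨z ∅, 0, fun i _ => map_zero _, ?_⟩
    rw [map_zero, add_zero]
    exact ke_zero hz
  | succ j ih =>
    intro z hz hKz
    have IH := ih (by omega)
    let J : Fin N := ⟨j, hj⟩
    have hz1 : KeBel A j (dE A J z) := by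
      intro i hi
      rcases Nat.eq_or_lt_of_le hi with h | h
      · have : i = J := Fin.ext h.symm
        rw [this]
        exact dE_self J z
      · exact (hz.dE J) i h
    have hz0 : KeBel A j (z - wE A J (dE A J z)) := by
      intro i hi
      rw [map_sub]
      have h := dE_wE (A := A) i J (dE A J z)
      rw [hz1 i hi, map_zero, add_zero] at h
      rw [h]
      by_cases hiJ : i = J
      · rw [if_pos hiJ, hiJ, sub_self]
      · rw [if_neg hiJ, sub_zero]
        refine hz i ?_
        rcases Nat.eq_or_lt_of_le hi with h | h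
        · exact absurd (Fin.ext h.symm) hiJ
        · exact h
    set z1 := dE A J z with hz1def
    set z0 := z - wE A J z1 with hz0def
    have hzz : z = z0 + wE A J z1 := by rw [hz0def, sub_add_cancel]
    have h1 : (KD a z0 + a J • z1) + wE A J (-KD a z1) = 0 := by
      rw [hzz, map_add, ke_KD_wE] at hKz
      rw [map_neg, ← hKz]
      abel
    obtain ⟨h2, h3⟩ := ke_uniq (j := J) ((hz0.KD a).add (hz1.smul (a J))) (hz1.KD a).neg h1
    rw [neg_eq_zero] at h3
    obtain ⟨v1, w1, hw1, hv1⟩ := IH z1 hz1 h3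
    have h4 : KD a (-(z0 + a J • w1)) = Pi.single ∅ (a J • v1) := by
      rw [map_neg, map_add, map_smul, Pi.single_smul]
      have h5 : a J • z1 = a J • (Pi.single ∅ v1 : Finset (Fin N) → V) + a J • KD a w1 := by
        rw [← smul_add, ← hv1]
      have h6 : KD a z0 = -(a J • z1) := eq_neg_of_add_eq_zero_left h2
      rw [h6, h5]
      abel
    have h5 : v1 ∈ keJ a J.val • (⊤ : Submodule A V) :=
      hreg J v1 (ke_two a j ((hz0.add (hw1.smul (a J))).neg) h4)
    obtain ⟨w2, hw2, hv2⟩ := ke_three a j v1 h5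
    have h6 : z1 = KD a (w2 + w1) := by
      rw [map_add, hv2]
      exact hv1
    have h7 : z = (z0 + a J • (w2 + w1)) - KD a (wE A J (w2 + w1)) := by
      rw [ke_KD_wE, ← h6]
      conv_lhs => rw [hzz]
      abel
    have h8 : KD a (z0 + a J • (w2 + w1)) = 0 := by
      have h9 : z0 + a J • (w2 + w1) = z + KD a (wE A J (w2 + w1)) := by
        conv_rhs => rw [h7]
        abel
      rw [h9, map_add, hKz, KD_KD, add_zero]
    obtain ⟨v, w4, hw4, hv4⟩ := IH _ (hz0.add ((hw2.add hw1).smul (a J))) h8
    refine ⟨v, w4 - wE A J (w2 + w1), ?_, ?_⟩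
    · exact (hw4.mono (Nat.le_succ j)).sub
        (((hw2.add hw1).mono (Nat.le_succ j)).wE (Nat.lt_succ_self j))
    · rw [map_sub]
      conv_lhs => rw [h7, hv4]
      abel

/-- Exactness of the Koszul complex of a regular sequence `a_1, …, a_N` on `V`.

PROOF. (The coefficient of `e_∅` in `KD a w` is `∑ a_i w {i}`, see `KD_empty`.) For `j ≤ N` consider the functions `z : Finset (Fin N) → V` with `z I = 0` unless all elements of `I` are `< j`; they are stable under the operators `dE i` for all `i` (all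
`dE i` with `i ≥ j` are zero on them), and under `wE i` for `i < j`. Every such function for `j + 1` is uniquely `z = z0 + wE j z1` with `z0`, `z1` supported on subsets of `{0..j-1}` (`z0` = restriction
to the `I` without `j`; `z1 I = ± z (insert j I)`), and `KD a z = (KD a z0 + a_j z1) - wE j (KD a z1)` (`dE_wE`). Prove by induction on `j`:
(1) if `z` is supported below `j` and `KD a z = 0` then `z = v e_∅ + KD a w` with `w` supported below `j`; (2) if `w` is supported below `j` and `KD a w = v e_∅` then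
`v ∈ (a_i : i < j) V`; (3) conversely (`KD a (v' e_i) = a_i v' e_∅`, `e_i` is the set `{i}`), with `w` supported below `j`.
Step for (1): `KD a z1 = 0`, `KD a z0 + a_j z1 = 0`; `z1 = v1 e_∅ + KD a w1`; replace `z` by `z + KD a (wE j w1) = (z0 + a_j w1) + wE j (z1 - KD a w1)`:
so let `z1 = v1 e_∅`; then `a_j v1 e_∅ = - KD a z0`, so `a_j v1 ∈ (a_i : i < j) V` by (2), so `v1 ∈ (a_i : i < j) V` by regularity, `z1 = KD a w2` by (3), and as before `z1` can be
made zero; use (1) for `j`. (2) follows from `v = ∑_{i < j} a_i w {i}`. -/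
theorem kos_exact (a : Fin N → A) (hreg : ∀ (j : Fin N) (v : V),
      a j • v ∈ Ideal.span {b | ∃ i : Fin N, i < j ∧ b = a i} • (⊤ : Submodule A V) →
        v ∈ Ideal.span {b | ∃ i : Fin N, i < j ∧ b = a i} • (⊤ : Submodule A V)) :
    (∀ z : Finset (Fin N) → V, KD a z = 0 → ∃ (v : V) (w : Finset (Fin N) → V),
      z = Pi.single ∅ v + KD a w) ∧
    ∀ v ∈ Ideal.span (Set.range a) • (⊤ : Submodule A V), ∃ w : Finset (Fin N) → V,
      KD a w = Pi.single ∅ v := by
  have hN : ∀ z : Finset (Fin N) → V, KeBel A N z := fun z i hi => absurd i.isLt (not_lt.2 hi)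
  refine ⟨fun z hz => ?_, fun v hv => ?_⟩
  · obtain ⟨v, w, -, h⟩ := ke_one a hreg N le_rfl z (hN z) hz
    exact ⟨v, w, h⟩
  · obtain ⟨w, -, hw⟩ := ke_three a N v (by
      have h : Set.range a = {b | ∃ i : Fin N, i.val < N ∧ b = a i} := by
        ext b
        constructor
        · rintro ⟨i, rfl⟩
          exact ⟨i, i.isLt, rfl⟩
        · rintro ⟨i, -, rfl⟩
          exact ⟨i, rfl⟩
      rw [h] at hv
      exact hv)
    exact ⟨w, hw⟩

/-- `v e_∅` is a cycle -/
theorem KD_single (a : Fin N → A) (v : V) : KD a (Pi.single ∅ v : Finset (Fin N) → V) = 0 := by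
  exact ke_KD_single a v

/-- the coefficient of `e_∅` in `KD a z` -/
theorem KD_empty (a : Fin N → A) (z : Finset (Fin N) → V) : KD a z ∅ = ∑ i, a i • z {i} := by
  exact ke_KD_empty a z

/-- the coefficient of `e_∅` in `KS g z` -/
theorem KS_empty (g : Fin N → A) (z : Finset (Fin N) → V) : KS g z ∅ = 0 := by
  rw [KS_apply]
  exact Finset.sum_eq_zero fun i _ => by
    rw [wE_apply, if_neg (Finset.notMem_empty i), smul_zero]

end MP8a
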