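import Mathlib

/-!
# Stage CI, piece CIKOS: operators of the Koszul and Tate complexes

`Finset (Fin N) → V` is the exterior algebra on `e_1, …, e_N` with coefficients in `V`: the function `z` is `∑_I z(I) e_I`,
`e_I = e_{i_1} ∧ … ∧ e_{i_r}`, `i_1 < … < i_r`. `dE i` is the contraction with `e_i` and `wE i` the left multiplication with `e_i`.
-/

set_option autoImplicit false

namespace MP8a

/-- `(-1)^(number of elements of I below i)` -/
def sg {N : ℕ} (i : Fin N) (I : Finset (Fin N)) : ℤ := (-1) ^ (I.filter (· < i)).card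

section

variable {A : Type*} [CommRing A] {V : Type*} [AddCommGroup V] [Module A V] {N : ℕ}

/-- contraction with `e_i` -/
def dE (A : Type*) [CommRing A] {V : Type*} [AddCommGroup V] [Module A V] {N : ℕ} (i : Fin N) :
    (Finset (Fin N) → V) →ₗ[A] (Finset (Fin N) → V) where
  toFun z I := if i ∈ I then 0 else sg i I • z (insert i I)
  map_add' z w := by
    funext I
    by_cases h : i ∈ I
    · simp [h]
    · simp [h, smul_add]
  map_smul' a z := by
    funext I
    by_cases h : i ∈ I
    · simp [h]
    · simp only [h, if_false, Pi.smul_apply, RingHom.id_apply]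
      rw [smul_comm]

/-- left multiplication with `e_i` -/
def wE (A : Type*) [CommRing A] {V : Type*} [AddCommGroup V] [Module A V] {N : ℕ} (i : Fin N) :
    (Finset (Fin N) → V) →ₗ[A] (Finset (Fin N) → V) where
  toFun z I := if i ∈ I then sg i I • z (I.erase i) else 0
  map_add' z w := by
    funext I
    by_cases h : i ∈ I
    · simp [h, smul_add]
    · simp [h]
  map_smul' a z := by
    funext I
    by_cases h : i ∈ I
    · simp only [h, if_true, Pi.smul_apply, RingHom.id_apply]
      rw [smul_comm]
    · simp [h]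

theorem dE_apply (i : Fin N) (z : Finset (Fin N) → V) (I : Finset (Fin N)) :
    dE A i z I = if i ∈ I then 0 else sg i I • z (insert i I) := rfl

theorem wE_apply (i : Fin N) (z : Finset (Fin N) → V) (I : Finset (Fin N)) :
    wE A i z I = if i ∈ I then sg i I • z (I.erase i) else 0 := rfl

theorem sg_insert {i j : Fin N} {I : Finset (Fin N)} (h : j ∉ I) :
    sg i (insert j I) = if j < i then -sg i I else sg i I := by
  unfold sg
  rw [Finset.filter_insert]
  by_cases hji : j < i
  · rw [if_pos hji, if_pos hji, Finset.card_insert_of_notMem (fun hh => h (Finset.mem_filter.1 hh).1), pow_succ]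
    ring
  · rw [if_neg hji, if_neg hji]

theorem sg_erase {i j : Fin N} {I : Finset (Fin N)} (h : j ∈ I) :
    sg i (I.erase j) = if j < i then -sg i I else sg i I := by
  have h1 : sg i (insert j (I.erase j)) = if j < i then -sg i (I.erase j) else sg i (I.erase j) :=
    sg_insert (Finset.notMem_erase j I)
  rw [Finset.insert_erase h] at h1
  by_cases hji : j < i
  · rw [if_pos hji] at h1 ⊢
    rw [h1, neg_neg]
  · rw [if_neg hji] at h1 ⊢
    exact h1.symm

theorem sg_mul_self (i : Fin N) (I : Finset (Fin N)) : sg i I * sg i I = 1 := by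
  unfold sg
  rw [← pow_add, ← two_mul, pow_mul]
  simp

theorem dE_dE (i j : Fin N) (z : Finset (Fin N) → V) : dE A i (dE A j z) = -dE A j (dE A i z) := by
  funext I
  rw [Pi.neg_apply, dE_apply i (dE A j z), dE_apply j (dE A i z)]
  by_cases hi : i ∈ I
  · rw [if_pos hi]
    by_cases hj : j ∈ I
    · rw [if_pos hj, neg_zero]
    · rw [if_neg hj, dE_apply i z, if_pos (Finset.mem_insert_of_mem hi), smul_zero, neg_zero]
  · rw [if_neg hi]
    by_cases hj : j ∈ I
    · rw [if_pos hj, dE_apply j z, if_pos (Finset.mem_insert_of_mem hj), smul_zero, neg_zero]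
    · rw [if_neg hj, dE_apply j z, dE_apply i z]
      by_cases hij : i = j
      · subst hij
        rw [if_pos (Finset.mem_insert_self i I), smul_zero, neg_zero]
      · have h1 : j ∉ insert i I := by
          simp only [Finset.mem_insert, not_or]
          exact ⟨fun h => hij h.symm, hj⟩
        have h2 : i ∉ insert j I := by
          simp only [Finset.mem_insert, not_or]
          exact ⟨hij, hi⟩
        rw [if_neg h1, if_neg h2, sg_insert hi, sg_insert hj, Finset.insert_comm j i I, smul_smul, smul_smul,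
          ← neg_smul]
        rcases lt_or_gt_of_ne hij with h | h
        · rw [if_pos h, if_neg (not_lt.2 h.le)]
          congr 1
          ring
        · rw [if_pos h, if_neg (not_lt.2 h.le)]
          congr 1
          ring

theorem dE_self (i : Fin N) (z : Finset (Fin N) → V) : dE A i (dE A i z) = 0 := by
  funext I
  rw [Pi.zero_apply, dE_apply]
  by_cases hi : i ∈ I
  · rw [if_pos hi]
  · rw [if_neg hi, dE_apply, if_pos (Finset.mem_insert_self i I), smul_zero]

theorem wE_wE (i j : Fin N) (z : Finset (Fin N) → V) : wE A i (wE A j z) = -wE A j (wE A i z) := by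
  funext I
  rw [Pi.neg_apply, wE_apply i (wE A j z), wE_apply j (wE A i z)]
  by_cases hi : i ∈ I
  · rw [if_pos hi]
    by_cases hj : j ∈ I
    · rw [if_pos hj, wE_apply j z, wE_apply i z]
      by_cases hij : i = j
      · subst hij
        rw [if_neg (Finset.notMem_erase i I), smul_zero, neg_zero]
      · have h1 : j ∈ I.erase i := Finset.mem_erase.2 ⟨fun h => hij h.symm, hj⟩
        have h2 : i ∈ I.erase j := Finset.mem_erase.2 ⟨hij, hi⟩
        rw [if_pos h1, if_pos h2, sg_erase hi, sg_erase hj, Finset.erase_right_comm, smul_smul, smul_smul,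
          ← neg_smul]
        rcases lt_or_gt_of_ne hij with h | h
        · rw [if_pos h, if_neg (not_lt.2 h.le)]
          congr 1
          ring
        · rw [if_pos h, if_neg (not_lt.2 h.le)]
          congr 1
          ring
    · rw [if_neg hj, wE_apply j z, if_neg (fun h => hj (Finset.mem_of_mem_erase h)), smul_zero, neg_zero]
  · rw [if_neg hi]
    by_cases hj : j ∈ I
    · rw [if_pos hj, wE_apply i z, if_neg (fun h => hi (Finset.mem_of_mem_erase h)), smul_zero, neg_zero]
    · rw [if_neg hj, neg_zero]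

theorem wE_self (i : Fin N) (z : Finset (Fin N) → V) : wE A i (wE A i z) = 0 := by
  funext I
  rw [Pi.zero_apply, wE_apply]
  by_cases hi : i ∈ I
  · rw [if_pos hi, wE_apply, if_neg (Finset.notMem_erase i I), smul_zero]
  · rw [if_neg hi]

/-- The canonical anticommutation relations. For `i = j`: exactly one of the two terms is `z I` (`sg i I ^ 2 = 1`). For `i ≠ j`: both terms vanish unless
`i ∉ I`, `j ∈ I`, and then the signs are opposite: inserting or erasing `i` changes `sg j` iff `i < j`, and conversely. -/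
theorem dE_wE (i j : Fin N) (z : Finset (Fin N) → V) :
    dE A i (wE A j z) + wE A j (dE A i z) = if i = j then z else 0 := by
  funext I
  rw [Pi.add_apply, dE_apply i (wE A j z) I, wE_apply j (dE A i z) I]
  by_cases hij : i = j
  · subst hij
    rw [if_pos rfl]
    by_cases hi : i ∈ I
    · rw [if_pos hi, if_pos hi, zero_add, dE_apply i z, if_neg (Finset.notMem_erase i I), Finset.insert_erase hi,
        smul_smul, sg_erase hi, if_neg (lt_irrefl i), sg_mul_self, one_smul]
    · rw [if_neg hi, if_neg hi, add_zero, wE_apply i z, if_pos (Finset.mem_insert_self i I), Finset.erase_insert hi,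
        smul_smul, sg_insert hi, if_neg (lt_irrefl i), sg_mul_self, one_smul]
  · rw [if_neg hij, Pi.zero_apply]
    by_cases hi : i ∈ I
    · rw [if_pos hi, zero_add]
      by_cases hj : j ∈ I
      · rw [if_pos hj, dE_apply i z, if_pos (Finset.mem_erase.2 ⟨hij, hi⟩), smul_zero]
      · rw [if_neg hj]
    · rw [if_neg hi]
      by_cases hj : j ∈ I
      · rw [if_pos hj, dE_apply i z, wE_apply j z, if_pos (Finset.mem_insert_of_mem hj),
          if_neg (fun h => hi (Finset.mem_of_mem_erase h)), sg_insert hi, sg_erase hj,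
          Finset.erase_insert_of_ne hij, smul_smul, smul_smul, ← add_smul]
        rcases lt_or_gt_of_ne hij with h | h
        · rw [if_pos h, if_neg (not_lt.2 h.le)]
          have : sg i I * -sg j I + sg j I * sg i I = 0 := by ring
          rw [this, zero_smul]
        · rw [if_pos h, if_neg (not_lt.2 h.le)]
          have : sg i I * sg j I + sg j I * -sg i I = 0 := by ring
          rw [this, zero_smul]
      · rw [if_neg hj, add_zero, wE_apply j z, if_neg, smul_zero]
        simp only [Finset.mem_insert, not_or]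
        exact ⟨fun h => hij h.symm, hj⟩

/-- the Koszul differential `∑ a_i ∂/∂e_i` -/
def KD (a : Fin N → A) : (Finset (Fin N) → V) →ₗ[A] (Finset (Fin N) → V) := ∑ i, a i • dE A i

/-- left multiplication with `∑ g_i e_i` -/
def KS (g : Fin N → A) : (Finset (Fin N) → V) →ₗ[A] (Finset (Fin N) → V) := ∑ i, g i • wE A i

/-- a sum over pairs of an antisymmetric function which vanishes on the diagonal -/
theorem sum_antisymm {ι W : Type*} [Fintype ι] [LinearOrder ι] [AddCommGroup W] (f : ι → ι → W)
    (h1 : ∀ i j, f i j = -f j i) (h2 : ∀ i, f i i = 0) : ∑ i, ∑ j, f i j = 0 := by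
  have hsplit : ∀ i j : ι, f i j = (if i < j then f i j else 0) + (if j < i then f i j else 0) := by
    intro i j
    rcases lt_trichotomy i j with h | h | h
    · rw [if_pos h, if_neg (not_lt.2 h.le), add_zero]
    · subst h
      rw [if_neg (lt_irrefl i), h2, add_zero]
    · rw [if_neg (not_lt.2 h.le), if_pos h, zero_add]
  have e1 : ∑ i, ∑ j, f i j = (∑ i, ∑ j, (if i < j then f i j else 0)) +
      ∑ i, ∑ j, (if j < i then f i j else 0) := by
    rw [← Finset.sum_add_distrib]
    refine Finset.sum_congr rfl fun i _ => ?_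
    rw [← Finset.sum_add_distrib]
    exact Finset.sum_congr rfl fun j _ => hsplit i j
  have e2 : ∑ i, ∑ j, (if j < i then f i j else 0) = -∑ i, ∑ j, (if i < j then f i j else 0) := by
    rw [Finset.sum_comm, ← Finset.sum_neg_distrib]
    refine Finset.sum_congr rfl fun i _ => ?_
    rw [← Finset.sum_neg_distrib]
    refine Finset.sum_congr rfl fun j _ => ?_
    by_cases h : i < j
    · rw [if_pos h, if_pos h]
      exact h1 j i
    · rw [if_neg h, if_neg h, neg_zero]
  rw [e1, e2, add_neg_cancel]

theorem KD_def (a : Fin N → A) (z : Finset (Fin N) → V) : KD a z = ∑ i, a i • dE A i z := by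
  simp only [KD, LinearMap.sum_apply, LinearMap.smul_apply]

theorem KS_def (g : Fin N → A) (z : Finset (Fin N) → V) : KS g z = ∑ i, g i • wE A i z := by
  simp only [KS, LinearMap.sum_apply, LinearMap.smul_apply]

theorem KD_KD (a : Fin N → A) (z : Finset (Fin N) → V) : KD a (KD a z) = 0 := by
  have h : KD a (KD a z) = ∑ i, ∑ j, (a i * a j) • dE A i (dE A j z) := by
    rw [KD_def a (KD a z)]
    refine Finset.sum_congr rfl fun i _ => ?_
    rw [KD_def a z, map_sum, Finset.smul_sum]
    refine Finset.sum_congr rfl fun j _ => ?_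
    rw [map_smul, smul_smul]
  rw [h]
  refine sum_antisymm _ (fun i j => ?_) (fun i => ?_)
  · rw [dE_dE i j, smul_neg, mul_comm]
  · rw [dE_self, smul_zero]

theorem KS_KS (g h : Fin N → A) (z : Finset (Fin N) → V) : KS g (KS h z) = -KS h (KS g z) := by
  have key : ∀ g h : Fin N → A, KS g (KS h z) = ∑ i, ∑ j, (g i * h j) • wE A i (wE A j z) := by
    intro g h
    rw [KS_def g (KS h z)]
    refine Finset.sum_congr rfl fun i _ => ?_
    rw [KS_def h z, map_sum, Finset.smul_sum]
    refine Finset.sum_congr rfl fun j _ => ?_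
    rw [map_smul, smul_smul]
  have e1 := key g h
  have e2 := key h g
  rw [e1, e2, Finset.sum_comm, ← Finset.sum_neg_distrib]
  refine Finset.sum_congr rfl fun i _ => ?_
  rw [← Finset.sum_neg_distrib]
  refine Finset.sum_congr rfl fun j _ => ?_
  rw [wE_wE j i, smul_neg, mul_comm]

theorem KS_self (g : Fin N → A) (z : Finset (Fin N) → V) : KS g (KS g z) = 0 := by
  have h : KS g (KS g z) = ∑ i, ∑ j, (g i * g j) • wE A i (wE A j z) := by
    rw [KS_def g (KS g z)]
    refine Finset.sum_congr rfl fun i _ => ?_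
    rw [KS_def g z, map_sum, Finset.smul_sum]
    refine Finset.sum_congr rfl fun j _ => ?_
    rw [map_smul, smul_smul]
  rw [h]
  refine sum_antisymm _ (fun i j => ?_) (fun i => ?_)
  · rw [wE_wE i j, smul_neg, mul_comm]
  · rw [wE_self, smul_zero]

theorem KD_KS (a g : Fin N → A) (z : Finset (Fin N) → V) :
    KD a (KS g z) + KS g (KD a z) = (∑ i, a i * g i) • z := by
  have e1 : KD a (KS g z) = ∑ i, ∑ j, (a i * g j) • dE A i (wE A j z) := by
    rw [KD_def a (KS g z)]
    refine Finset.sum_congr rfl fun i _ => ?_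
    rw [KS_def g z, map_sum, Finset.smul_sum]
    refine Finset.sum_congr rfl fun j _ => ?_
    rw [map_smul, smul_smul]
  have e2 : KS g (KD a z) = ∑ i, ∑ j, (a i * g j) • wE A j (dE A i z) := by
    have : KS g (KD a z) = ∑ j, ∑ i, (g j * a i) • wE A j (dE A i z) := by
      rw [KS_def g (KD a z)]
      refine Finset.sum_congr rfl fun j _ => ?_
      rw [KD_def a z, map_sum, Finset.smul_sum]
      refine Finset.sum_congr rfl fun i _ => ?_
      rw [map_smul, smul_smul]
    rw [this, Finset.sum_comm]
    refine Finset.sum_congr rfl fun i _ => Finset.sum_congr rfl fun j _ => ?_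
    rw [mul_comm]
  rw [e1, e2, ← Finset.sum_add_distrib, Finset.sum_smul]
  refine Finset.sum_congr rfl fun i _ => ?_
  rw [← Finset.sum_add_distrib]
  have e3 : ∀ j, (a i * g j) • dE A i (wE A j z) + (a i * g j) • wE A j (dE A i z) =
      if i = j then (a i * g j) • z else 0 := by
    intro j
    rw [← smul_add, dE_wE]
    by_cases h : i = j
    · rw [if_pos h, if_pos h]
    · rw [if_neg h, if_neg h, smul_zero]
  rw [Finset.sum_congr rfl fun j _ => e3 j, Finset.sum_ite_eq, if_pos (Finset.mem_univ i)]

theorem KD_apply (a : Fin N → A) (z : Finset (Fin N) → V) (I : Finset (Fin N)) :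
    KD a z I = ∑ i, a i • dE A i z I := by
  simp [KD, Finset.sum_apply]

theorem KS_apply (g : Fin N → A) (z : Finset (Fin N) → V) (I : Finset (Fin N)) :
    KS g z I = ∑ i, g i • wE A i z I := by
  simp [KS, Finset.sum_apply]

end

section

variable {A : Type*} [CommRing A] {V : Type*} [AddCommGroup V] [Module A V] {c : ℕ}

/-- `∂/∂y_j` on divided powers: `∑ b(γ) y^γ ↦ ∑ b(γ + δ_j) y^γ` -/
noncomputable def chi (A : Type*) [CommRing A] {V : Type*} [AddCommGroup V] [Module A V] {c : ℕ} (j : Fin c) :
    ((Fin c →₀ ℕ) →₀ V) →ₗ[A] ((Fin c →₀ ℕ) →₀ V) :=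
  Finsupp.lcomapDomain (fun γ => γ + Finsupp.single j 1) (add_left_injective _)

theorem chi_apply (j : Fin c) (b : (Fin c →₀ ℕ) →₀ V) (γ : Fin c →₀ ℕ) :
    chi A j b γ = b (γ + Finsupp.single j 1) := rfl

/-- the differential `D + ∑ σ_j ∂/∂y_j` -/
noncomputable def TD (D : V →ₗ[A] V) (σ : Fin c → V →ₗ[A] V) :
    ((Fin c →₀ ℕ) →₀ V) →ₗ[A] ((Fin c →₀ ℕ) →₀ V) :=
  Finsupp.mapRange.linearMap D + ∑ j, Finsupp.mapRange.linearMap (σ j) ∘ₗ chi A j

theorem TD_apply (D : V →ₗ[A] V) (σ : Fin c → V →ₗ[A] V) (b : (Fin c →₀ ℕ) →₀ V)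
    (γ : Fin c →₀ ℕ) : TD D σ b γ = D (b γ) + ∑ j, σ j (b (γ + Finsupp.single j 1)) := by
  simp only [TD, LinearMap.add_apply, LinearMap.sum_apply, Finsupp.add_apply, Finsupp.finsetSum_apply,
    LinearMap.comp_apply]
  rfl

/-- (also when the relations `D σ_j + σ_j D = 0` only hold) -/
theorem TD_TD (D : V →ₗ[A] V) (σ : Fin c → V →ₗ[A] V) (h1 : ∀ v, D (D v) = 0)
    (h2 : ∀ j v, D (σ j v) + σ j (D v) = 0) (h3 : ∀ i j v, σ i (σ j v) = -σ j (σ i v))
    (h4 : ∀ j v, σ j (σ j v) = 0) (b : (Fin c →₀ ℕ) →₀ V) : TD D σ (TD D σ b) = 0 := by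
  ext γ
  rw [Finsupp.zero_apply, TD_apply, TD_apply]
  have e1 : ∀ j, σ j (TD D σ b (γ + Finsupp.single j 1)) = σ j (D (b (γ + Finsupp.single j 1))) +
      ∑ k, σ j (σ k (b (γ + Finsupp.single j 1 + Finsupp.single k 1))) := by
    intro j
    rw [TD_apply, map_add, map_sum]
  rw [Finset.sum_congr rfl fun j _ => e1 j, Finset.sum_add_distrib, map_add, map_sum, h1, zero_add,
    ← add_assoc, ← Finset.sum_add_distrib]
  have e2 : ∑ j, (D (σ j (b (γ + Finsupp.single j 1))) + σ j (D (b (γ + Finsupp.single j 1)))) = 0 :=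
    Finset.sum_eq_zero fun j _ => h2 j _
  rw [e2, zero_add]
  refine sum_antisymm (fun j k => σ j (σ k (b (γ + Finsupp.single j 1 + Finsupp.single k 1)))) (fun j k => ?_)
    (fun j => h4 j _)
  show σ j (σ k (b (γ + Finsupp.single j 1 + Finsupp.single k 1))) =
    -σ k (σ j (b (γ + Finsupp.single k 1 + Finsupp.single j 1)))
  rw [h3 j k, add_right_comm]

end

end MP8a
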