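import Pool.Agent.Lib_MP_8a48ad_gt.CISF
import Pool.Agent.Lib_MP_8a48ad_gt.CINull

/-! # Piece CILEAD: leading forms -/

set_option autoImplicit false

namespace MP8a

open MvPolynomial

universe u

variable {R : Type u} [CommRing R] {GR : Gr R} {n N c : ℕ}

/-- The leading coefficients are morphisms: let `z : TB → M` be a morphism of degree `e` with `z_γ = 0` for `|γ| < q`, where `z_γ v = z (v y^γ)`. Then `z_γ : KB → M` is a morphism of degree
`e + dy γ` for `|γ| = q`. (`TB_d_lsingle`, `TB_pr_lsingle`.) -/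
theorem isMor_lead (t : TData GR n N c) {M : DGM GR} {e : ℤ} {z : (TB t).X →ₗ[R] M.X}
    (hz : IsMor (TB t) M e z) {q : ℕ} (hq : ∀ γ : Fin c →₀ ℕ, γ.degree < q → z ∘ₗ Finsupp.lsingle γ = 0)
    (γ : Fin c →₀ ℕ) (hγ : γ.degree = q) :
    IsMor (KB t) M (e + t.dy γ) (z ∘ₗ Finsupp.lsingle γ) := by
  constructor
  · intro i x
    rw [LinearMap.comp_apply, LinearMap.comp_apply, Finsupp.lsingle_apply, Finsupp.lsingle_apply]
    have h1 := hz.pr (i + t.dy γ) (Finsupp.single γ x)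
    rw [TB_pr_lsingle] at h1
    have h2 : i + t.dy γ + e = i + (e + t.dy γ) := by ring
    rw [h2] at h1
    exact h1
  · intro x
    rw [LinearMap.comp_apply, LinearMap.comp_apply, Finsupp.lsingle_apply, Finsupp.lsingle_apply]
    have h1 := hz.d (Finsupp.single γ x)
    rw [TB_d_lsingle, map_add, map_sum] at h1
    rw [h1]
    refine add_eq_left.2 (Finset.sum_eq_zero fun j _ => ?_)
    by_cases hj : γ j = 0
    · rw [if_pos hj, map_zero]
    · rw [if_neg hj]
      have h2 : (γ - Finsupp.single j 1).degree < q := by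
        have h3 : γ - Finsupp.single j 1 + Finsupp.single j 1 = γ :=
          tsub_add_cancel_of_le (by
            rw [Finsupp.single_le_iff]
            exact Nat.one_le_iff_ne_zero.2 hj)
        have h4 := congrArg Finsupp.degree h3
        rw [map_add, Finsupp.degree_single, hγ] at h4
        omega
      have h5 := hq _ h2
      exact DFunLike.congr_fun h5 (KS (t.g j) x)

private theorem cilead_dy_add (t : TData GR n N c) (β γ : Fin c →₀ ℕ) :
    t.dy (β + γ) = t.dy β + t.dy γ := by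
  unfold TData.dy
  rw [← Finset.sum_add_distrib]
  refine Finset.sum_congr rfl fun j _ => ?_
  rw [Finsupp.add_apply]
  push_cast
  ring

/-- component of a product with a homogeneous element -/
private theorem cilead_mul {m : ℤ} {b : R} (hb : GR.c m b = b) (j : ℤ) (g : R) :
    GR.c j (g * b) = GR.c (j - m) g * b := by
  have h := (regM GR).pr_smul' hb j g
  rw [smul_eq_mul, smul_eq_mul, mul_comm b g, mul_comm b] at h
  exact h

/-- `P` is realized by `ζ` -/
structure CIReal (t : TData GR n N c) (M : DGM GR) {s : ℕ} (h : Fin s → ((KB t).X →ₗ[R] M.X))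
    (ε : Fin s → ℤ) (P : Fin s → MvPolynomial (Fin c) R) (p : ℕ) (δ : ℤ)
    (ζ : (TB t).X →ₗ[R] M.X) : Prop where
  mor : IsMor (TB t) M δ ζ
  low : ∀ γ : Fin c →₀ ℕ, γ.degree < p → ζ ∘ₗ Finsupp.lsingle γ = 0
  zero : ∀ (γ : Fin c →₀ ℕ) (l : Fin s), γ.degree ≠ p → coeff γ (P l) = 0
  hom : ∀ (γ : Fin c →₀ ℕ) (l : Fin s), GR.c (δ + t.dy γ - ε l) (coeff γ (P l)) = coeff γ (P l)
  null : ∀ γ : Fin c →₀ ℕ, γ.degree = p →
    Null (KB t) M (δ + t.dy γ) (ζ ∘ₗ Finsupp.lsingle γ - ∑ l, coeff γ (P l) • h l)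

/-- every morphism realizes some `P` -/
private theorem cilead_exists (t : TData GR n N c) {M : DGM GR} {s : ℕ}
    (h : Fin s → ((KB t).X →ₗ[R] M.X)) (ε : Fin s → ℤ)
    (hgen : ∀ (e : ℤ) (v : (KB t).X →ₗ[R] M.X), IsMor (KB t) M e v →
      ∃ a : Fin s → R, (∀ l, GR.c (e - ε l) (a l) = a l) ∧ Null (KB t) M e (v - ∑ l, a l • h l))
    (q : ℕ) (e : ℤ) (z : (TB t).X →ₗ[R] M.X) (hz : IsMor (TB t) M e z)
    (hq : ∀ γ : Fin c →₀ ℕ, γ.degree < q → z ∘ₗ Finsupp.lsingle γ = 0) :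
    ∃ P : Fin s → MvPolynomial (Fin c) R, CIReal t M h ε P q e z := by
  classical
  have h1 : ∀ γ : Fin c →₀ ℕ, ∃ a : Fin s → R, (∀ l, GR.c (e + t.dy γ - ε l) (a l) = a l) ∧
      (γ.degree = q → Null (KB t) M (e + t.dy γ) (z ∘ₗ Finsupp.lsingle γ - ∑ l, a l • h l)) ∧
      (γ.degree ≠ q → a = 0) := by
    intro γ
    by_cases hγ : γ.degree = q
    · obtain ⟨a, ha, hn⟩ := hgen (e + t.dy γ) _ (isMor_lead t hz hq γ hγ)
      exact ⟨a, ha, fun _ => hn, fun h' => absurd hγ h'⟩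
    · exact ⟨0, fun l => map_zero _, fun h' => absurd h' hγ, fun _ => rfl⟩
  choose a ha1 ha2 ha3 using h1
  let F : Finset (Fin c →₀ ℕ) := Finset.finsuppAntidiag Finset.univ q
  have hF : ∀ γ : Fin c →₀ ℕ, γ ∈ F ↔ γ.degree = q := by
    intro γ
    change γ ∈ Finset.finsuppAntidiag Finset.univ q ↔ _
    rw [Finset.mem_finsuppAntidiag, Finsupp.degree_eq_sum]
    exact ⟨fun h => h.1, fun h => ⟨h, Finset.subset_univ _⟩⟩
  let P : Fin s → MvPolynomial (Fin c) R := fun l => ∑ γ ∈ F, monomial γ (a γ l)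
  have hP : ∀ (γ : Fin c →₀ ℕ) (l : Fin s), coeff γ (P l) = a γ l := by
    intro γ l
    change coeff γ (∑ γ ∈ F, monomial γ (a γ l)) = a γ l
    rw [coeff_sum]
    simp only [coeff_monomial]
    rw [Finset.sum_ite_eq' F γ]
    by_cases hγ : γ ∈ F
    · rw [if_pos hγ]
    · rw [if_neg hγ, ha3 γ (fun h' => hγ ((hF γ).2 h'))]
      rfl
  refine ⟨P, hz, hq, fun γ l hγ => ?_, fun γ l => ?_, fun γ hγ => ?_⟩
  · rw [hP, ha3 γ hγ]
    rfl
  · rw [hP, ha1]
  · simp only [hP]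
    exact ha2 γ hγ

/-- LEADING FORMS. Let the morphisms `KB → M` be generated by `h_1, …, h_s` over `R` up to homotopy (degrees `ε_l`). There are finitely many morphisms `ζ_i : TB → M` of degrees `δ_i`, with
`(ζ_i)_γ = 0` for `|γ| < p_i`, such that for every morphism `z : TB → M` of degree `e` with `z_γ = 0` for `|γ| < q` there are homogeneous `ρ_i(β) ∈ R`, zero unless `|β| + p_i = q`, of degree
`e - δ_i + dy β`, such that `z_γ - ∑_i ∑_(β + β' = γ) ρ_i(β) (ζ_i)_β'` is null-homotopic for all `|γ| = q`.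

PROOF. Let `𝒫 = MvPolynomial (Fin c) R` (noetherian). Call `P : Fin s → 𝒫` realizable if for some `q`, `e` and some morphism `z` of degree `e` with `z_γ = 0` for `|γ| < q`: `coeff γ (P l) = 0` for
`|γ| ≠ q`, `coeff γ (P l)` is homogeneous of degree `e + dy γ - ε_l`, and `z_γ - ∑_l coeff γ (P l) h_l` is `Null` for all `|γ| = q`. Every `z` as above realizes some `P` (`isMor_lead` and the hypothesis on the `h_l`, for each of the finitely many `γ` with
`|γ| = q`). The `𝒫`-submodule of `Fin s → 𝒫` spanned by the realizable `P` is finitely generated, so it is spanned by finitely many realizable `P_1, …, P_r`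
(`Submodule.fg_span_iff_fg_span_finset_subset`), realized by `ζ_i`, `p_i`, `δ_i`. Given `z`, `q`, `e`, let `P` be realized by it, `P = ∑ G_i P_i`, `G_i ∈ 𝒫`. Let `ρ_i(β)` be the component of degree
`e - δ_i + dy β` of `coeff β G_i` if `|β| + p_i = q`, and `0` otherwise. Comparing the coefficients of `χ^γ`, `|γ| = q` (`coeff_mul`), and then the components of degree `e + dy γ - ε_l`:
`coeff γ (P l) = ∑_i ∑_(β + β' = γ) ρ_i(β) coeff β' (P_i l)`. So `z_γ - ∑_i ∑ ρ_i(β) (ζ_i)_β'` is the sum of the `Null` maps `z_γ - ∑_l coeff γ (P l) h_l` and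
`- ρ_i(β) ((ζ_i)_β' - ∑_l coeff β' (P_i l) h_l)` (for `|β'| = p_i`; the other terms have `ρ_i(β) = 0`). -/
theorem exists_leading [IsNoetherianRing R] (t : TData GR n N c) {M : DGM GR} {s : ℕ}
    (h : Fin s → ((KB t).X →ₗ[R] M.X)) (ε : Fin s → ℤ) (hh : ∀ l, IsMor (KB t) M (ε l) (h l))
    (hgen : ∀ (e : ℤ) (v : (KB t).X →ₗ[R] M.X), IsMor (KB t) M e v →
      ∃ a : Fin s → R, (∀ l, GR.c (e - ε l) (a l) = a l) ∧ Null (KB t) M e (v - ∑ l, a l • h l)) :
    ∃ (r : ℕ) (p : Fin r → ℕ) (δ : Fin r → ℤ) (ζ : Fin r → ((TB t).X →ₗ[R] M.X)),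
      (∀ i, IsMor (TB t) M (δ i) (ζ i)) ∧
      (∀ i, ∀ γ : Fin c →₀ ℕ, γ.degree < p i → ζ i ∘ₗ Finsupp.lsingle γ = 0) ∧
      ∀ (q : ℕ) (e : ℤ) (z : (TB t).X →ₗ[R] M.X), IsMor (TB t) M e z →
        (∀ γ : Fin c →₀ ℕ, γ.degree < q → z ∘ₗ Finsupp.lsingle γ = 0) →
        ∃ ρ : Fin r → (Fin c →₀ ℕ) → R,
          (∀ i β, GR.c (e - δ i + t.dy β) (ρ i β) = ρ i β) ∧
          (∀ i β, β.degree + p i ≠ q → ρ i β = 0) ∧
          ∀ γ : Fin c →₀ ℕ, γ.degree = q → Null (KB t) M (e + t.dy γ)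
            (z ∘ₗ Finsupp.lsingle γ - ∑ i, ∑ x ∈ Finset.HasAntidiagonal.antidiagonal γ,
              ρ i x.1 • (ζ i ∘ₗ Finsupp.lsingle x.2)) := by
  classical
  let S : Set (Fin s → MvPolynomial (Fin c) R) := {P | ∃ p δ ζ, CIReal t M h ε P p δ ζ}
  obtain ⟨T, hTS, hT⟩ := (Submodule.fg_span_iff_fg_span_finset_subset (R := MvPolynomial (Fin c) R) S).1
    (IsNoetherian.noetherian _)
  have hT2 : ∀ i : Fin T.card, ∃ p δ ζ, CIReal t M h ε (T.equivFin.symm i).1 p δ ζ := fun i =>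
    hTS (T.equivFin.symm i).2
  choose p δ ζ hζ using hT2
  let Pi : Fin T.card → Fin s → MvPolynomial (Fin c) R := fun i => (T.equivFin.symm i).1
  have hrange : Set.range Pi = (T : Set (Fin s → MvPolynomial (Fin c) R)) := by
    ext x
    constructor
    · rintro ⟨i, rfl⟩
      exact (T.equivFin.symm i).2
    · intro hx
      refine ⟨T.equivFin ⟨x, hx⟩, ?_⟩
      change (T.equivFin.symm (T.equivFin ⟨x, hx⟩)).1 = x
      rw [Equiv.symm_apply_apply]
  refine ⟨T.card, p, δ, ζ, fun i => (hζ i).mor, fun i => (hζ i).low, fun q e z hz hq => ?_⟩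
  obtain ⟨P, hP⟩ := cilead_exists t h ε hgen q e z hz hq
  have hPm : P ∈ Submodule.span (MvPolynomial (Fin c) R) (Set.range Pi) := by
    rw [hrange, ← hT]
    exact Submodule.subset_span ⟨q, e, z, hP⟩
  obtain ⟨g, hg⟩ := (Submodule.mem_span_range_iff_exists_fun _).1 hPm
  let ρ : Fin T.card → (Fin c →₀ ℕ) → R := fun i β =>
    if β.degree + p i = q then GR.c (e - δ i + t.dy β) (coeff β (g i)) else 0
  have hρ : ∀ i β, ρ i β = if β.degree + p i = q then GR.c (e - δ i + t.dy β) (coeff β (g i)) else 0 :=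
    fun i β => rfl
  have hρ0 : ∀ i β, β.degree + p i ≠ q → ρ i β = 0 := fun i β h' => by rw [hρ, if_neg h']
  have hρh : ∀ i β, GR.c (e - δ i + t.dy β) (ρ i β) = ρ i β := by
    intro i β
    rw [hρ]
    split_ifs
    · rw [GR.c_self]
    · rw [map_zero]
  refine ⟨ρ, hρh, hρ0, fun γ hγ => ?_⟩
  -- degrees of antidiagonal elements
  have hdeg : ∀ x ∈ Finset.HasAntidiagonal.antidiagonal γ, x.1.degree + x.2.degree = q ∧
      t.dy γ = t.dy x.1 + t.dy x.2 := by
    intro x hx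
    rw [Finset.HasAntidiagonal.mem_antidiagonal] at hx
    rw [← hγ, ← hx, map_add, cilead_dy_add]
    exact ⟨rfl, rfl⟩
  -- the coefficient identity
  have key : ∀ l, coeff γ (P l) = ∑ i, ∑ x ∈ Finset.HasAntidiagonal.antidiagonal γ,
      ρ i x.1 * coeff x.2 (Pi i l) := by
    intro l
    have h1 : P l = ∑ i, g i * Pi i l := by
      rw [← hg, Finset.sum_apply]
      rfl
    have h2 : coeff γ (P l) = ∑ i, ∑ x ∈ Finset.HasAntidiagonal.antidiagonal γ,
        coeff x.1 (g i) * coeff x.2 (Pi i l) := by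
      rw [h1, coeff_sum]
      exact Finset.sum_congr rfl fun i _ => coeff_mul _ _ _
    rw [← hP.hom γ l, h2, map_sum]
    refine Finset.sum_congr rfl fun i _ => ?_
    rw [map_sum]
    refine Finset.sum_congr rfl fun x hx => ?_
    obtain ⟨hd1, hd2⟩ := hdeg x hx
    by_cases hx2 : x.2.degree = p i
    · rw [cilead_mul ((hζ i).hom x.2 l), hρ, if_pos (by rw [← hx2]; exact hd1)]
      have h3 : e + t.dy γ - ε l - (δ i + t.dy x.2 - ε l) = e - δ i + t.dy x.1 := by
        rw [hd2]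
        ring
      rw [h3]
    · have h3 : coeff x.2 (Pi i l) = 0 := (hζ i).zero x.2 l hx2
      rw [h3, mul_zero, mul_zero, map_zero]
  have h4 : z ∘ₗ Finsupp.lsingle γ - ∑ i, ∑ x ∈ Finset.HasAntidiagonal.antidiagonal γ,
      ρ i x.1 • (ζ i ∘ₗ Finsupp.lsingle x.2) =
      (z ∘ₗ Finsupp.lsingle γ - ∑ l, coeff γ (P l) • h l) +
        -∑ i, ∑ x ∈ Finset.HasAntidiagonal.antidiagonal γ,
          ρ i x.1 • (ζ i ∘ₗ Finsupp.lsingle x.2 - ∑ l, coeff x.2 (Pi i l) • h l) := by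
    have h5 : ∑ l, coeff γ (P l) • h l = ∑ i, ∑ x ∈ Finset.HasAntidiagonal.antidiagonal γ,
        ρ i x.1 • ∑ l, coeff x.2 (Pi i l) • h l := by
      simp only [key, Finset.sum_smul, Finset.smul_sum, mul_smul]
      rw [Finset.sum_comm]
      refine Finset.sum_congr rfl fun i _ => ?_
      rw [Finset.sum_comm]
    rw [h5]
    simp only [smul_sub, Finset.sum_sub_distrib]
    abel
  rw [h4]
  refine (hP.null γ hγ).add (Null.neg (Null.sum _ _ fun i _ => Null.sum _ _ fun x hx => ?_))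
  obtain ⟨hd1, hd2⟩ := hdeg x hx
  by_cases hx2 : x.2.degree = p i
  · exact (((hζ i).null x.2 hx2).smul (hρh i x.1)).cast (by rw [hd2]; ring)
  · rw [hρ0 i x.1 (by omega), zero_smul]
    exact null_zero _ _ _

end MP8a
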