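import Pool.Agent.Lib_MP_8a48ad_gt.CIEx
import Pool.Agent.Lib_MP_8a48ad_gt.CIEps
import Pool.Agent.Lib_MP_8a48ad_gt.CIKEx

/-! # Piece CISQ: `TB → S` is a trivial fibration -/

set_option autoImplicit false

namespace MP8a

open MvPolynomial

universe u

variable {k : Type u} [Field k] {n : ℕ} {R : Type u} [CommRing R] [Algebra k R] [Algebra R (Sn k n)]
  {GR : Gr R} {N c : ℕ}

/-- elements concentrated in `γ = 0`: `d (single 0 z) = single 0 (KD a z)` -/
theorem TB_d_single (t : TData GR n N c) (z : (KB t).X) :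
    (TB t).d (Finsupp.single 0 z) = Finsupp.single 0 (KD t.a z) := by
  ext1 γ
  rw [TB_d_apply]
  have h1 : ∀ j : Fin c, (Finsupp.single (0 : Fin c →₀ ℕ) z : (TB t).X) (γ + Finsupp.single j 1) = 0 := by
    intro j
    rw [Finsupp.single_apply, if_neg]
    intro h
    have h2 := DFunLike.congr_fun h j
    rw [Finsupp.add_apply, Finsupp.single_eq_same, Finsupp.zero_apply] at h2
    omega
  rw [Finset.sum_eq_zero (fun j _ => by rw [h1, map_zero]), add_zero]
  by_cases h : (0 : Fin c →₀ ℕ) = γ
  · subst h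
    rw [Finsupp.single_eq_same, Finsupp.single_eq_same]
    rfl
  · rw [Finsupp.single_apply, if_neg h, Finsupp.single_apply, if_neg h, map_zero]

/-- The Koszul differential commutes with `Q[x] → R[x]`. -/
theorem Pres.map_KD (hS : Setup k n GR) (P : Pres k GR N c)
    (v : Finset (Fin N) → MvPolynomial (Fin n) (MvPolynomial (Fin N) k)) :
    (fun I => map P.π.toRingHom (KD (aQ (P.x n)) v I)) =
      KD (P.tdata hS).a (fun I => map P.π.toRingHom (v I)) := by
  funext I
  rw [KD_apply, KD_apply, map_sum]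
  refine Finset.sum_congr rfl fun i _ => ?_
  rw [smul_eq_mul, smul_eq_mul, map_mul, dE_apply, dE_apply]
  by_cases h : i ∈ I
  · rw [if_pos h, if_pos h, map_zero]
    rfl
  · rw [if_neg h, if_neg h, map_zsmul]
    rfl

/-- the section `s ↦ s e_∅` of the augmentation -/
theorem muR_map_algebraMap (hS : Setup k n GR) (s : Sn k n) :
    muR k n R (map (algebraMap k R) s) = s := by
  have := hS.tower
  change aeval (X : Fin n → Sn k n) (map (algebraMap k R) s) = s
  rw [aeval_map_algebraMap, aeval_X_left_apply]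

/-- the augmentation of `s e_∅` -/
theorem epsT_single (t : TData GR n N c) (z : (KB t).X) :
    epsT t k (Finsupp.single 0 z : (TB t).X) = muR k n R (z ∅) := by
  rw [epsT_apply, Finsupp.single_eq_same]

/-- PROOF. Surjective: `single 0 (s e_∅) ↦ s`. Let `b` be a cycle with `eps b = 0`. By `tb_exact`, `b = single 0 (π v) + d b'`, `KD v = 0`; by `kos_exact` (with `V = Q[x]`, `aQ_regular`)
`v = s e_∅ + KD w`, so `b = single 0 (π (s e_∅)) + d (single 0 (π w) + b')` and `0 = eps b = muR (π s) = muQ s` (`eps ∘ d = 0`). So `s ∈ (a_i)` (`ker_muQ`) and `s e_∅ = KD w'`: `b = d b''`.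
Change `b''` by the cycle `single 0 (s' e_∅)`, `s' = map (algebraMap k R) (eps b'')`, so that `eps b'' = 0`. -/
theorem Pres.sq_eps (hS : Setup k n GR) (P : Pres k GR N c) :
    SQ (TB (P.tdata hS)) (SR hS.compat) (epsT (P.tdata hS) k) := by
  classical
  have hmor := P.isMor_eps hS
  have heps : ∀ x : (TB (P.tdata hS)).X, epsT (P.tdata hS) k ((TB (P.tdata hS)).d x) = 0 := by
    intro x
    rw [← hmor.d]
    rfl
  constructor
  · intro s
    refine ⟨(Finsupp.single 0 (Pi.single ∅ (map (algebraMap k R) s)) : (TB (P.tdata hS)).X), ?_⟩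
    rw [epsT_single, Pi.single_eq_same]
    exact muR_map_algebraMap hS s
  · intro b he hb
    obtain ⟨v, b', hv, hbv⟩ := P.tb_exact hS b hb
    have hreg : ∀ (j : Fin N) (v : MvPolynomial (Fin n) (MvPolynomial (Fin N) k)),
        aQ (P.x n) j • v ∈ Ideal.span {b | ∃ i : Fin N, i < j ∧ b = aQ (P.x n) i} •
          (⊤ : Submodule (MvPolynomial (Fin n) (MvPolynomial (Fin N) k))
            (MvPolynomial (Fin n) (MvPolynomial (Fin N) k))) →
        v ∈ Ideal.span {b | ∃ i : Fin N, i < j ∧ b = aQ (P.x n) i} •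
          (⊤ : Submodule (MvPolynomial (Fin n) (MvPolynomial (Fin N) k))
            (MvPolynomial (Fin n) (MvPolynomial (Fin N) k))) := by
      intro j v h
      rw [smul_eq_mul, Ideal.mul_top, smul_eq_mul] at h
      rw [smul_eq_mul, Ideal.mul_top]
      exact aQ_regular (P.x n) j v h
    obtain ⟨hk1, hk2⟩ := kos_exact (aQ (P.x n)) hreg
    obtain ⟨s, w, hw⟩ := hk1 v hv
    have hψ : ∀ u : Finset (Fin N) → MvPolynomial (Fin n) (MvPolynomial (Fin N) k),
        (TB (P.tdata hS)).d (Finsupp.single 0 (fun I => map P.π.toRingHom (u I))) =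
          (Finsupp.single 0 (fun I => map P.π.toRingHom (KD (aQ (P.x n)) u I)) : (TB (P.tdata hS)).X) := by
      intro u
      rw [TB_d_single, P.map_KD hS u]
    have hsplit : (fun I => map P.π.toRingHom (v I)) =
        (fun I => map P.π.toRingHom ((Pi.single ∅ s : Finset (Fin N) → _) I)) +
          fun I => map P.π.toRingHom (KD (aQ (P.x n)) w I) := by
      funext I
      rw [hw, Pi.add_apply, map_add]
      rfl
    have hb2 : b = Finsupp.single 0 (fun I => map P.π.toRingHom ((Pi.single ∅ s : Finset (Fin N) → _) I)) +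
        (TB (P.tdata hS)).d (Finsupp.single 0 (fun I => map P.π.toRingHom (w I)) + b') := by
      rw [hbv, hsplit, Finsupp.single_add, map_add, hψ w, add_assoc]
    have hs0 : muQ (P.x n) s = 0 := by
      have h1 := he
      rw [hb2, map_add, heps, add_zero, epsT_single, Pi.single_eq_same] at h1
      rw [← P.muR_map hS]
      exact h1
    have hs1 : s ∈ Ideal.span (Set.range (aQ (P.x n))) := by
      rw [← ker_muQ]
      exact hs0
    obtain ⟨w', hw'⟩ := hk2 s (by rw [smul_eq_mul, Ideal.mul_top]; exact hs1)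
    have hb3 : ∃ b'' : (TB (P.tdata hS)).X, (TB (P.tdata hS)).d b'' = b := by
      refine ⟨Finsupp.single 0 (fun I => map P.π.toRingHom (w' I)) +
        (Finsupp.single 0 (fun I => map P.π.toRingHom (w I)) + b'), ?_⟩
      rw [map_add, hψ w', hw', ← hb2]
    obtain ⟨b'', hb''⟩ := hb3
    refine ⟨b'' - Finsupp.single 0 (Pi.single ∅ (map (algebraMap k R) (epsT (P.tdata hS) k b''))), ?_, ?_⟩
    · rw [map_sub, epsT_single, Pi.single_eq_same, muR_map_algebraMap hS, sub_self]
    · rw [map_sub, hb'', TB_d_single, KD_single, Finsupp.single_zero, sub_zero]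

end MP8a
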