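import Pool.Agent.Lib_MP_8a48ad_gt.FDimK
import Pool.Agent.Lib_MP_8a48ad_gt.Coind

/-! # Piece KINS: `R` and `k` are built from `S` -/

set_option autoImplicit false

namespace MP8a

universe u

variable {k : Type u} [Field k] {n : ℕ} {R : Type u} [CommRing R] [Algebra k R]
  [Algebra R (Sn k n)] {GR : Gr R}

/-- `R` is a retract of `S`. -/
theorem thick_regM (hS : Setup k n GR) {T : DGM GR → Prop} (hT : IsThick T)
    (h : T (SR hS.compat)) : T (regM GR) := by
  obtain ⟨ρ, h1, h2⟩ := hS.rho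
  refine hT.retr (regM GR) (SR hS.compat) (Algebra.linearMap R (Sn k n)) ρ ⟨?_, ?_⟩ ⟨?_, ?_⟩ ?_ h
  · intro i x
    rw [add_zero]
    exact (hS.compat i x).symm
  · intro x
    exact (map_zero (algebraMap R (Sn k n))).symm
  · intro i s
    rw [add_zero]
    exact h2 i s
  · intro s
    exact (map_zero ρ).symm
  · intro a
    change ρ (algebraMap R (Sn k n) a) = a
    rw [Algebra.algebraMap_eq_smul_one, map_smul, h1, smul_eq_mul, mul_one]

/-- The ideal `(x_0, …, x_{j-1})` of `S` as an `R`-submodule. -/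
noncomputable def IX (R : Type u) [CommRing R] [Algebra R (Sn k n)] (j : ℕ) : Submodule R (Sn k n) :=
  (Ideal.span {s : Sn k n | ∃ i : Fin n, (i : ℕ) < j ∧ s = MvPolynomial.X i}).restrictScalars R

theorem mem_IX_iff (j : ℕ) (s : Sn k n) :
    s ∈ IX R (k := k) j ↔ ∀ m ∈ s.support, ∃ i : Fin n, (i : ℕ) < j ∧ m i ≠ 0 := by
  have h : {s : Sn k n | ∃ i : Fin n, (i : ℕ) < j ∧ s = MvPolynomial.X i} =
      MvPolynomial.X '' {i : Fin n | (i : ℕ) < j} := by
    ext s
    constructor
    · rintro ⟨i, hi, rfl⟩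
      exact ⟨i, hi, rfl⟩
    · rintro ⟨i, hi, rfl⟩
      exact ⟨i, hi, rfl⟩
  unfold IX
  rw [Submodule.restrictScalars_mem, h, MvPolynomial.mem_ideal_span_X_image]
  rfl

theorem IX_mul (j : ℕ) {s t : Sn k n} (h : s ∈ IX R (k := k) j) : t * s ∈ IX R (k := k) j :=
  Ideal.mul_mem_left _ t h

theorem mem_IX_succ (j : Fin n) (s : Sn k n) :
    s ∈ IX R (k := k) ((j : ℕ) + 1) ↔ ∃ t, s - MvPolynomial.X j * t ∈ IX R (k := k) (j : ℕ) := by
  have h : {s : Sn k n | ∃ i : Fin n, (i : ℕ) < (j : ℕ) + 1 ∧ s = MvPolynomial.X i} =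
      insert (MvPolynomial.X j) {s : Sn k n | ∃ i : Fin n, (i : ℕ) < j ∧ s = MvPolynomial.X i} := by
    ext s
    constructor
    · rintro ⟨i, hi, rfl⟩
      rcases Nat.lt_succ_iff_lt_or_eq.1 hi with h | h
      · exact Or.inr ⟨i, h, rfl⟩
      · exact Or.inl (congrArg MvPolynomial.X (Fin.ext h))
    · rintro (rfl | ⟨i, hi, rfl⟩)
      · exact ⟨j, Nat.lt_succ_self _, rfl⟩
      · exact ⟨i, Nat.lt_succ_of_lt hi, rfl⟩
  unfold IX
  rw [Submodule.restrictScalars_mem, h]
  constructor
  · intro hs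
    obtain ⟨a, z, hz, rfl⟩ := Submodule.mem_span_insert.1 hs
    refine ⟨a, ?_⟩
    rw [Submodule.restrictScalars_mem]
    have e : a • MvPolynomial.X j + z - MvPolynomial.X j * a = z := by
      rw [smul_eq_mul]
      ring
    rw [e]
    exact hz
  · rintro ⟨t, ht⟩
    rw [Submodule.restrictScalars_mem] at ht
    refine Submodule.mem_span_insert.2 ⟨t, _, ht, ?_⟩
    rw [smul_eq_mul]
    ring

/-- `x_j` is a nonzerodivisor modulo `(x_0, …, x_{j-1})` (membership in a monomial ideal:
`MvPolynomial.mem_ideal_span_X_image`). -/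
theorem IX_regular (j : Fin n) (s : Sn k n) (h : MvPolynomial.X j * s ∈ IX R (k := k) (j : ℕ)) :
    s ∈ IX R (k := k) (j : ℕ) := by
  rw [mem_IX_iff] at h ⊢
  intro m hm
  have h1 : m + Finsupp.single j 1 ∈ (MvPolynomial.X j * s).support := by
    rw [MvPolynomial.mem_support_iff, mul_comm, MvPolynomial.coeff_mul_X]
    exact MvPolynomial.mem_support_iff.1 hm
  obtain ⟨i, hi, h2⟩ := h _ h1
  refine ⟨i, hi, ?_⟩
  have hij : j ≠ i := by
    rintro rfl
    exact lt_irrefl _ hi
  rwa [Finsupp.add_apply, Finsupp.single_eq_of_ne hij.symm, add_zero] at h2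

theorem c_support (i : ℤ) (s : Sn k n) : ((grS k n).c i s).support ⊆ s.support := by
  change (cS k n i s).support ⊆ s.support
  unfold cS
  by_cases h : Even i ∧ 0 ≤ i
  · rw [if_pos h]
    intro m hm
    change m ∈ (MvPolynomial.homogeneousComponent (R := k) (i / 2).toNat s).support at hm
    rw [MvPolynomial.mem_support_iff, MvPolynomial.coeff_homogeneousComponent] at hm
    rw [MvPolynomial.mem_support_iff]
    intro h0
    apply hm
    split_ifs
    · exact h0
    · rfl
  · rw [if_neg h]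
    intro m hm
    change m ∈ (0 : Sn k n).support at hm
    simp at hm

theorem IX_pr (j : ℕ) (hc : Compat GR (grS k n)) :
    ∀ i, ∀ x ∈ IX R (k := k) j, (SR hc).pr i x ∈ IX R (k := k) j := by
  intro i x hx
  change (grS k n).c i x ∈ IX R (k := k) j
  rw [mem_IX_iff] at hx ⊢
  exact fun m hm => hx m (c_support i x hm)

theorem IX_d (j : ℕ) (hc : Compat GR (grS k n)) :
    ∀ x ∈ IX R (k := k) j, (SR hc).d x ∈ IX R (k := k) j := by
  intro x _
  exact (IX R (k := k) j).zero_mem

/-- `S/(x_0, …, x_{j-1})` -/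
@[reducible] noncomputable def QX (hc : Compat GR (grS k n)) (j : ℕ) : DGM GR :=
  (SR hc).quo (IX R (k := k) j) (IX_pr j hc) (IX_d j hc)

theorem QX_d (hc : Compat GR (grS k n)) (j : ℕ) (x : (QX hc j).X) : (QX hc j).d x = 0 := by
  obtain ⟨x, rfl⟩ := Submodule.Quotient.mk_surjective (IX R (k := k) j) x
  rfl

/-- multiplication by `x_j` -/
noncomputable def mX (hc : Compat GR (grS k n)) (j : Fin n) :
    ((QX hc (j : ℕ)).sh (-2)).X →ₗ[R] (QX hc (j : ℕ)).X :=
  (IX R (k := k) (j : ℕ)).mapQ (IX R (k := k) (j : ℕ))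
    (LinearMap.mulLeft R (MvPolynomial.X j : Sn k n)) (fun _ hs => IX_mul _ hs)

theorem mX_mk (hc : Compat GR (grS k n)) (j : Fin n) (s : Sn k n) :
    mX hc j (Submodule.Quotient.mk s : (SR hc).X ⧸ IX R (k := k) (j : ℕ)) =
      (Submodule.Quotient.mk (MvPolynomial.X j * s) : (SR hc).X ⧸ IX R (k := k) (j : ℕ)) := rfl

theorem isMor_mX (hc : Compat GR (grS k n)) (j : Fin n) :
    IsMor ((QX hc (j : ℕ)).sh (-2)) (QX hc (j : ℕ)) 0 (mX hc j) := by
  constructor
  · intro i x
    obtain ⟨x, rfl⟩ := Submodule.Quotient.mk_surjective (IX R (k := k) (j : ℕ)) x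
    rw [add_zero]
    change (Submodule.Quotient.mk ((grS k n).c i (MvPolynomial.X j * x)) :
      (SR hc).X ⧸ IX R (k := k) (j : ℕ)) =
      Submodule.Quotient.mk (MvPolynomial.X j * (grS k n).c (i + -2) x)
    congr 1
    have h := (regM (grS k n)).pr_smul' (grS_X (k := k) j) i x
    exact h
  · intro x
    rw [QX_d, DGM.sh_d_even _ (by decide), QX_d, map_zero]

theorem IX_mono {j j' : ℕ} (h : j ≤ j') : IX R (k := k) (n := n) j ≤ IX R (k := k) j' := by
  intro s hs
  rw [mem_IX_iff] at hs ⊢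
  intro m hm
  obtain ⟨i, hi, h'⟩ := hs m hm
  exact ⟨i, lt_of_lt_of_le hi h, h'⟩

theorem thick_QX_succ {T : DGM GR → Prop} (hT : IsThick T) (hc : Compat GR (grS k n)) (j : Fin n)
    (h : T (QX hc (j : ℕ))) : T (QX hc ((j : ℕ) + 1)) := by
  have hle : IX R (k := k) (n := n) (j : ℕ) ≤
      LinearMap.ker (IX R (k := k) (n := n) ((j : ℕ) + 1)).mkQ := by
    rw [Submodule.ker_mkQ]
    exact IX_mono (Nat.le_succ _)
  have hq := (isMor_mkQ (SR hc) (IX R (k := k) ((j : ℕ) + 1)) (IX_pr _ hc) (IX_d _ hc)).liftQ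
    (IX R (k := k) (j : ℕ)) (IX_pr _ hc) (IX_d _ hc) hle
  refine hT.ses3 _ _ _ (mX hc j) _ (isMor_mX hc j) hq ⟨?_, ?_, ?_⟩ (hT.sh _ (-2) h) h
  · rw [injective_iff_map_eq_zero]
    intro x hx
    obtain ⟨x, rfl⟩ := Submodule.Quotient.mk_surjective (IX R (k := k) (j : ℕ)) x
    rw [mX_mk, Submodule.Quotient.mk_eq_zero] at hx
    exact (Submodule.Quotient.mk_eq_zero _).2 (IX_regular j x hx)
  · intro y
    obtain ⟨y, rfl⟩ := Submodule.Quotient.mk_surjective (IX R (k := k) ((j : ℕ) + 1)) y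
    exact ⟨Submodule.Quotient.mk y, rfl⟩
  · intro x
    obtain ⟨x, rfl⟩ := Submodule.Quotient.mk_surjective (IX R (k := k) (j : ℕ)) x
    change (Submodule.Quotient.mk x : (SR hc).X ⧸ IX R (k := k) ((j : ℕ) + 1)) = 0 ↔ _
    rw [Submodule.Quotient.mk_eq_zero, mem_IX_succ]
    constructor
    · rintro ⟨t, ht⟩
      refine ⟨Submodule.Quotient.mk t, ?_⟩
      rw [mX_mk]
      exact ((Submodule.Quotient.eq _).2 ht).symm
    · rintro ⟨y, hy⟩
      obtain ⟨t, rfl⟩ := Submodule.Quotient.mk_surjective (IX R (k := k) (j : ℕ)) y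
      rw [mX_mk] at hy
      exact ⟨t, (Submodule.Quotient.eq _).1 hy.symm⟩

theorem thick_QX_zero {T : DGM GR → Prop} (hT : IsThick T) (hc : Compat GR (grS k n))
    (h : T (SR hc)) : T (QX hc 0) := by
  have hle : IX R (k := k) (n := n) 0 ≤ LinearMap.ker (LinearMap.id : (SR hc).X →ₗ[R] (SR hc).X) := by
    intro s hs
    rw [mem_IX_iff] at hs
    have : s = 0 := by
      by_contra h0
      obtain ⟨m, hm⟩ := Finset.nonempty_of_ne_empty (fun h' => h0 (MvPolynomial.support_eq_empty.1 h'))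
      obtain ⟨i, hi, _⟩ := hs m hm
      exact Nat.not_lt_zero _ hi
    rw [this]
    exact Submodule.zero_mem _
  refine hT.retr _ _ ((IX R (k := k) (n := n) 0).liftQ LinearMap.id hle) (IX R (k := k) (n := n) 0).mkQ
    ((isMor_id (SR hc)).liftQ _ (IX_pr _ hc) (IX_d _ hc) hle) (isMor_mkQ _ _ _ _) ?_ h
  intro x
  obtain ⟨x, rfl⟩ := Submodule.Quotient.mk_surjective (IX R (k := k) 0) x
  rfl

theorem sub_constantCoeff_mem (s : Sn k n) :
    s - MvPolynomial.C (MvPolynomial.constantCoeff s) ∈ IX R (k := k) n := by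
  rw [mem_IX_iff]
  intro m hm
  by_contra hcon
  push Not at hcon
  have hm0 : m = 0 := Finsupp.ext fun i => hcon i i.2
  rw [MvPolynomial.mem_support_iff, hm0, MvPolynomial.coeff_sub, MvPolynomial.coeff_C] at hm
  apply hm
  simp [MvPolynomial.constantCoeff_eq]

theorem constantCoeff_c (i : ℤ) (s : Sn k n) :
    MvPolynomial.constantCoeff ((grS k n).c i s) = if i = 0 then MvPolynomial.constantCoeff s else 0 := by
  by_cases h0 : i = 0
  · subst h0
    rw [if_pos rfl, grS_zero, MvPolynomial.constantCoeff_C]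
  · rw [if_neg h0]
    by_cases h : Even i ∧ 0 ≤ i
    · obtain ⟨⟨j, hj⟩, hi⟩ := h
      obtain ⟨l, rfl⟩ : ∃ l : ℕ, i = 2 * l := ⟨j.toNat, by omega⟩
      rw [grS_even, MvPolynomial.constantCoeff_eq, MvPolynomial.coeff_homogeneousComponent, if_neg]
      rw [map_zero]
      intro h
      apply h0
      rw [← h]
      rfl
    · rw [grS_odd_neg h, map_zero]

/-- `k` is built from `S` as a DG `R`-module. PROOF. Let `Q_j = S/(x_0, …, x_{j-1})` as a DG `R`-module with zero differential (`DGM.quo` of `SR`).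
`Q_0 = S`, and the multiplication by `x_j` gives an exact sequence `0 → Q_j.sh (-2) → Q_j → Q_{j+1} → 0` (`IX_regular`), so `Q_j ∈ T` for all `j`. `Q_n = k` (the kernel of
`constantCoeff` is `(x_0, …, x_{n-1})`). -/
theorem thick_kM (hS : Setup k n GR) {T : DGM GR → Prop} (hT : IsThick T)
    (h : T (SR hS.compat)) : T (kM hS) := by
  have h1 : ∀ j : ℕ, j ≤ n → T (QX hS.compat j) := by
    intro j
    induction j with
    | zero => exact fun _ => thick_QX_zero hT hS.compat h
    | succ j ih => exact fun hj => thick_QX_succ hT hS.compat ⟨j, hj⟩ (ih (Nat.le_of_succ_le hj))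
  let ρ : (SR hS.compat).X →ₗ[R] (kM hS).X :=
    { toFun := fun s => (MvPolynomial.constantCoeff (s : Sn k n) : k)
      map_add' := fun s t => map_add (MvPolynomial.constantCoeff (R := k) (σ := Fin n)) s t
      map_smul' := fun a s => by
        change MvPolynomial.constantCoeff (a • (s : Sn k n)) =
          aug k n R a * MvPolynomial.constantCoeff (s : Sn k n)
        rw [Algebra.smul_def, map_mul]
        rfl }
  have hρ : IsMor (SR hS.compat) (kM hS) 0 ρ := by
    constructor
    · intro i s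
      rw [add_zero]
      change (if i = 0 then AddMonoidHom.id k else 0) (MvPolynomial.constantCoeff (s : Sn k n)) =
        MvPolynomial.constantCoeff ((grS k n).c i s)
      rw [constantCoeff_c]
      by_cases h0 : i = 0
      · rw [if_pos h0, if_pos h0]
        rfl
      · rw [if_neg h0, if_neg h0]
        rfl
    · intro s
      exact (map_zero (MvPolynomial.constantCoeff (R := k) (σ := Fin n))).symm
  have hker : IX R (k := k) (n := n) n ≤ LinearMap.ker ρ := by
    intro s hs
    rw [mem_IX_iff] at hs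
    rw [LinearMap.mem_ker]
    change MvPolynomial.constantCoeff (s : Sn k n) = 0
    by_contra h0
    rw [MvPolynomial.constantCoeff_eq] at h0
    obtain ⟨i, _, hi⟩ := hs 0 (MvPolynomial.mem_support_iff.2 h0)
    exact hi rfl
  let emK : k → (QX hS.compat n).X := fun c => (Submodule.Quotient.mk (MvPolynomial.C c) :
        (SR hS.compat).X ⧸ IX R (k := k) n)
  have emK_add : ∀ c c' : k, emK (c + c') = emK c + emK c' := by
    intro c c'
    change (Submodule.Quotient.mk (MvPolynomial.C (c + c')) :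
          (SR hS.compat).X ⧸ IX R (k := k) n) = Submodule.Quotient.mk (MvPolynomial.C c) +
            Submodule.Quotient.mk (MvPolynomial.C c')
    rw [map_add]
    rfl
  have emK_smul : ∀ (a : R) (c : k), emK (aug k n R a * c) = a • emK c := by
    intro a c
    change (Submodule.Quotient.mk (MvPolynomial.C (aug k n R a * c)) :
          (SR hS.compat).X ⧸ IX R (k := k) n) =
            Submodule.Quotient.mk (a • (MvPolynomial.C c : Sn k n))
    refine ((Submodule.Quotient.eq _).2 ?_).symm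
    rw [Algebra.smul_def, map_mul, ← sub_mul, mul_comm]
    exact IX_mul _ (sub_constantCoeff_mem (algebraMap R (Sn k n) a))
  let ι : (kM hS).X →ₗ[R] (QX hS.compat n).X :=
    { toFun := fun c => emK c
      map_add' := emK_add
      map_smul' := emK_smul }
  have hι : IsMor (kM hS) (QX hS.compat n) 0 ι := by
    constructor
    · intro i c
      rw [add_zero]
      change (Submodule.Quotient.mk ((grS k n).c i (MvPolynomial.C (R := k) (σ := Fin n) c)) :
        (SR hS.compat).X ⧸ IX R (k := k) n) = Submodule.Quotient.mk (MvPolynomial.C (R := k)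
          (σ := Fin n) ((if i = 0 then AddMonoidHom.id k else 0) c))
      congr 1
      have h0 := (grS k n).c_c i 0 (MvPolynomial.C (R := k) (σ := Fin n) c)
      rw [grS_C] at h0
      rw [h0]
      by_cases hi : i = 0
      · rw [if_pos hi, if_pos hi]
        rfl
      · rw [if_neg hi, if_neg hi]
        exact (map_zero MvPolynomial.C).symm
    · intro c
      rw [QX_d]
      exact (map_zero ι).symm
  refine hT.retr (kM hS) (QX hS.compat n) ι ((IX R (k := k) n).liftQ ρ hker) hι
    (hρ.liftQ _ (IX_pr _ hS.compat) (IX_d _ hS.compat) hker) ?_ (h1 n le_rfl)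
  intro c
  exact MvPolynomial.constantCoeff_C (σ := Fin n) (R := k) c

end MP8a
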