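import Pool.Agent.Lib_MP_8a48ad_gt.LemA1
import Pool.Agent.Lib_MP_8a48ad_gt.LemA2

/-! # `M` is built from the ring and the cone of `f^g` (assembled) -/

set_option autoImplicit false

namespace MP8a

universe u

variable {A : Type u} [CommRing A] {G : Gr A}

/-- LEMMA A (assembled). -/
theorem lemA [IsNoetherianRing A] {T : DGM G → Prop} (hT : IsThick T) (hreg : T (regM G)) {m : ℤ}
    {f : A} (hf : G.c m f = f) (g : ℕ) {M : DGM G} (hM : FG M) (hGP : GP m f M g)
    (ha : G.c (g * m) (f ^ g) = f ^ g) (he : Even ((g : ℤ) * m)) (hK : T (M.mc ha he)) : T M := by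
  obtain ⟨Y, γ, h0, hγ, hgh, hL⟩ := exists_ghost_seq M hM
  subst h0
  obtain ⟨L, κ, hκ, hses, hTL⟩ := hL g T hT hreg
  have h1 := hGP (Y 0) 0 LinearMap.id (isMor_id _) ⟨fun x => ⟨x, rfl⟩, fun x hx hd =>
    ⟨0, map_zero _, by
      have hx' : x = 0 := hx
      rw [hx', map_zero]⟩⟩ Y γ hγ hgh 0 LinearMap.id (isMor_id _)
  rw [LinearMap.comp_id, zero_add] at h1
  exact retract_arg hT (isMor_cmp Y γ hγ g) hκ hses hTL ha he h1 hK

end MP8a
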