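import Pool.Agent.Lib_MP_8a48ad_gt.LemB
import Pool.Agent.Lib_MP_8a48ad_gt.LemA
import Pool.Agent.Lib_MP_8a48ad_gt.KinS

/-! # The theorem for abstract data (assembled) -/

set_option autoImplicit false

namespace MP8a

universe u

variable {k : Type u} [Field k] {n : ℕ} {R : Type u} [CommRing R] [Algebra k R]
  [Algebra R (Sn k n)] {GR : Gr R}

/-- `R` has an isolated singularity (relative to `S`): there are homogeneous elements `f_i` with `R/(f_1, …, f_l)` finite
over `k` such that `f_i · id_S` factors through a free `R`-module. -/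
def Isol (k : Type u) [Field k] (n : ℕ) {R : Type u} [CommRing R] [Algebra k R]
    [Algebra R (Sn k n)] (GR : Gr R) : Prop :=
  ∃ (l : ℕ) (f : Fin l → R) (m : Fin l → ℤ), (∀ i, Even (m i)) ∧ (∀ i, GR.c (m i) (f i) = f i) ∧
    (∀ i, JJ k n (f i)) ∧ Module.Finite k (R ⧸ Ideal.span (Set.range f))

/-- Reduction to DG modules on whose cohomology finitely many elements `f_i` with `JJ k n (f_i)` are nilpotent. -/
theorem thick_red (hS : Setup k n GR) {T : DGM GR → Prop} (hT : IsThick T)
    (h : T (SR hS.compat)) {l : ℕ} (f : Fin l → R) (m : Fin l → ℤ) (hm : ∀ i, Even (m i))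
    (hf : ∀ i, GR.c (m i) (f i) = f i) (hJ : ∀ i, JJ k n (f i))
    (hN : ∀ M : DGM GR, FG M → (∀ i, Nil (f i) M) → T M) {M : DGM GR} (hM : FG M) : T M := by
  have := hS.noeth
  have hreg := thick_regM hS hT h
  -- descending induction on the number of the `f i` that are known to be nilpotent
  have key : ∀ j : ℕ, j ≤ l → ∀ M : DGM GR, FG M → (∀ i : Fin l, (i : ℕ) < l - j → Nil (f i) M) → T M := by
    intro j
    induction j with
    | zero =>
      intro _ M hM hn
      exact hN M hM (fun i => hn i (by omega))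
    | succ j ih =>
      intro hj M hM hn
      have hlt : l - (j + 1) < l := by omega
      set i0 : Fin l := ⟨l - (j + 1), hlt⟩ with hi0
      have ha : GR.c (((2 ^ n : ℕ) : ℤ) * m i0) (f i0 ^ (2 ^ n)) = f i0 ^ (2 ^ n) :=
        GR.pow_hom (hf i0) _
      have he : Even (((2 ^ n : ℕ) : ℤ) * m i0) := (hm i0).mul_left _
      refine lemA hT hreg (hf i0) (2 ^ n) hM (GP_all hS (hf i0) (hJ i0) M) ha he ?_
      refine ih (by omega) _ (FG_mc hM ha he) ?_
      intro i hi
      by_cases h1 : (i : ℕ) < l - (j + 1)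
      · exact Nil_mc (hn i h1) ha he
      · have h2 : i = i0 := Fin.ext (by rw [hi0]; change (i : ℕ) = l - (j + 1); omega)
        subst h2
        exact Nil_mc_self (2 ^ n) ha he
  exact key l le_rfl M hM (fun i hi => by omega)

theorem thick_of_isol (hS : Setup k n GR) (hI : Isol k n GR) {T : DGM GR → Prop} (hT : IsThick T)
    (h : T (SR hS.compat)) {M : DGM GR} (hM : FG M) : T M := by
  have := hS.noeth
  obtain ⟨l, f, m, hm, hf, hJ, hfin⟩ := hI
  exact thick_red hS hT h f m hm hf hJ (fun M hM hn =>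
    thick_of_FDH hS hT (thick_kM hS hT h) (FDH_of_nil hM f hn hfin)) hM

/-- the converse inclusion -/
theorem FG_of_thick (hS : Setup k n GR) {M : DGM GR} (hM : Thick (SR hS.compat) M) : FG M := by
  have := hS.noeth
  have := hS.fin
  exact hM FG isThick_FG (FG_of_finite (M := SR hS.compat) hS.fin rfl)

/-- `D_fg(R) = thick(S)` -/
theorem main_isol (hS : Setup k n GR) (hI : Isol k n GR) (M : DGM GR) :
    FG M ↔ Thick (SR hS.compat) M :=
  ⟨fun hM _ hT h => thick_of_isol hS hI hT h hM, fun hM => FG_of_thick hS hM⟩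

end MP8a
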