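import Pool.Agent.Lib_MP_8a48ad_gt.CIAbs
import Pool.Agent.Lib_MP_8a48ad_gt.CIFG2
import Pool.Agent.Lib_MP_8a48ad_gt.CISQ
import Pool.Agent.Lib_MP_8a48ad_gt.CIFGK
import Pool.Agent.Lib_MP_8a48ad_gt.CILead
import Pool.Agent.Lib_MP_8a48ad_gt.CIComp
import Pool.Agent.Lib_MP_8a48ad_gt.Main0

/-! # Stage CI: complete intersections (assembled) -/

set_option autoImplicit false

namespace MP8a

universe u

variable {k : Type u} [Field k] {n : ℕ} {R : Type u} [CommRing R] [Algebra k R]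
  [Algebra R (Sn k n)] {GR : Gr R}

theorem thick_of_pres (hS : Setup k n GR) {N c : ℕ} (P : Pres k GR N c) {T : DGM GR → Prop}
    (hT : IsThick T) (h : T (SR hS.compat)) {M : DGM GR} (hM : FG M) : T M := by
  have := hS.noeth
  have := hS.fin
  have hP : FG (SR hS.compat) := FG_of_finite (M := SR hS.compat) hS.fin rfl
  have hq := P.sq_eps hS
  have hε := P.isMor_eps hS
  have hTB : FG (TB (P.tdata hS)) :=
    (isThick_FG.qis _ _ _ hε (hq.isQis hε)).2 hP
  have hKB := FG_KB _ hTB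
  refine thick_of_gen hS (sfTB _).cof hε hq ?_ hT h hM
  intro M hM
  obtain ⟨s, h, ε, hh, hgen⟩ := exists_generators (sfKB (P.tdata hS)) (sfKB_rk _) hKB hM
  obtain ⟨r, p, δ, ζ, hζ, hp, hlead⟩ := exists_leading _ h ε hh hgen
  exact ⟨r, ζ, δ, hζ, fun e y hy => exists_theta _ p δ ζ hζ hp hlead e y hy⟩

/-- Stage CI. -/
theorem main_CI (hS : Setup k n GR) (hCI : IsCI k GR) (M : DGM GR) :
    FG M ↔ Thick (SR hS.compat) M := by
  obtain ⟨N, c, ⟨P⟩⟩ := hCI
  exact ⟨fun hM _ hT h => thick_of_pres hS P hT h hM, fun hM => FG_of_thick hS hM⟩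

end MP8a
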