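import Mathlib

/-! # Piece CIREG: the sequence `X_i - x_i` is regular -/

set_option autoImplicit false

namespace MP8a

open MvPolynomial

variable {k : Type*} [Field k] {n N : ℕ}

/-- `a_i = X_i - x_i` in `k[X_1..X_N][x_1..x_n]`, where `x_i` is a polynomial in `x_1, …, x_n`. -/
noncomputable def aQ (x : Fin N → MvPolynomial (Fin n) k) (i : Fin N) :
    MvPolynomial (Fin n) (MvPolynomial (Fin N) k) :=
  C (X i) - map (C : k →+* MvPolynomial (Fin N) k) (x i)

/-- The evaluation `k[X][x] → k[x]`, `X_i ↦ x_i`. -/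
noncomputable def muQ (x : Fin N → MvPolynomial (Fin n) k) :
    MvPolynomial (Fin n) (MvPolynomial (Fin N) k) →+* MvPolynomial (Fin n) k :=
  eval₂Hom (aeval x : MvPolynomial (Fin N) k →ₐ[k] MvPolynomial (Fin n) k).toRingHom X

theorem muQ_C (x : Fin N → MvPolynomial (Fin n) k) (q : MvPolynomial (Fin N) k) :
    muQ x (C q) = aeval x q := by
  simp [muQ]

theorem muQ_X (x : Fin N → MvPolynomial (Fin n) k) (j : Fin n) : muQ x (X j) = X j := by
  simp [muQ]

/-- `k[x] → k[X][x] → k[x]` is the identity -/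
theorem muQ_map (x : Fin N → MvPolynomial (Fin n) k) (s : MvPolynomial (Fin n) k) :
    muQ x (map (C : k →+* MvPolynomial (Fin N) k) s) = s := by
  have h : (muQ x).comp (map (C : k →+* MvPolynomial (Fin N) k)) = RingHom.id _ := by
    refine MvPolynomial.ringHom_ext (fun r => ?_) (fun i => ?_)
    · rw [RingHom.comp_apply, map_C, muQ_C, RingHom.id_apply]
      simp [MvPolynomial.algebraMap_eq]
    · rw [RingHom.comp_apply, map_X, muQ_X, RingHom.id_apply]
  exact RingHom.congr_fun h s

/-- an endomorphism which is the identity modulo `I` on the generators is the identity modulo `I` -/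
theorem sub_mem_of_gen (τ : MvPolynomial (Fin n) (MvPolynomial (Fin N) k) →+*
    MvPolynomial (Fin n) (MvPolynomial (Fin N) k))
    (I : Ideal (MvPolynomial (Fin n) (MvPolynomial (Fin N) k)))
    (h1 : ∀ c : k, C (C c) - τ (C (C c)) ∈ I) (h2 : ∀ i, C (X i) - τ (C (X i)) ∈ I)
    (h3 : ∀ l, X l - τ (X l) ∈ I) (s : MvPolynomial (Fin n) (MvPolynomial (Fin N) k)) :
    s - τ s ∈ I := by
  have h : Ideal.Quotient.mk I = (Ideal.Quotient.mk I).comp τ := by
    refine MvPolynomial.ringHom_ext (fun r => ?_) (fun l => ?_)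
    · have h4 : (Ideal.Quotient.mk I).comp (C : MvPolynomial (Fin N) k →+* _) =
          ((Ideal.Quotient.mk I).comp τ).comp C := by
        refine MvPolynomial.ringHom_ext (fun c => ?_) (fun i => ?_)
        · exact Ideal.Quotient.eq.2 (h1 c)
        · exact Ideal.Quotient.eq.2 (h2 i)
      exact RingHom.congr_fun h4 r
    · exact Ideal.Quotient.eq.2 (h3 l)
  exact Ideal.Quotient.eq.1 (RingHom.congr_fun h s)

/-- The kernel of the evaluation is generated by the `a_i`. PROOF. The ring homomorphisms `id` and `map C ∘ muQ x` agree modulo the ideal `I` generated by the `a_i` (check on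
constants, on the `C (X i)` and on the `X j`; `MvPolynomial.ringHom_ext` twice after composition with `Ideal.Quotient.mk I`), so `s - map C (muQ x s) ∈ I`. -/
theorem ker_muQ (x : Fin N → MvPolynomial (Fin n) k) :
    RingHom.ker (muQ x) = Ideal.span (Set.range (aQ x)) := by
  apply le_antisymm
  · intro s hs
    rw [RingHom.mem_ker] at hs
    have h := sub_mem_of_gen ((map (C : k →+* MvPolynomial (Fin N) k)).comp (muQ x))
      (Ideal.span (Set.range (aQ x))) (fun c => ?_) (fun i => ?_) (fun l => ?_) s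
    · rw [RingHom.comp_apply, hs, map_zero, sub_zero] at h
      exact h
    · rw [RingHom.comp_apply, muQ_C]
      simp [MvPolynomial.algebraMap_eq]
    · rw [RingHom.comp_apply, muQ_C, aeval_X]
      exact Ideal.subset_span ⟨i, rfl⟩
    · rw [RingHom.comp_apply, muQ_X, map_X, sub_self]
      exact Ideal.zero_mem _
  · rw [Ideal.span_le]
    rintro _ ⟨i, rfl⟩
    change aQ x i ∈ RingHom.ker (muQ x)
    rw [RingHom.mem_ker, aQ, map_sub, muQ_C, aeval_X, muQ_map, sub_self]

/-- the endomorphism `τ` -/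
noncomputable def tauQ (x : Fin N → MvPolynomial (Fin n) k) (j : Fin N) :
    MvPolynomial (Fin n) (MvPolynomial (Fin N) k) →+*
      MvPolynomial (Fin n) (MvPolynomial (Fin N) k) :=
  eval₂Hom (eval₂Hom (C.comp C : k →+* MvPolynomial (Fin n) (MvPolynomial (Fin N) k))
    (fun i => if i < j then map (C : k →+* MvPolynomial (Fin N) k) (x i) else C (X i))) X

theorem tauQ_CC (x : Fin N → MvPolynomial (Fin n) k) (j : Fin N) (c : k) :
    tauQ x j (C (C c)) = C (C c) := by
  simp [tauQ]

theorem tauQ_CX (x : Fin N → MvPolynomial (Fin n) k) (j i : Fin N) :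
    tauQ x j (C (X i)) = if i < j then map (C : k →+* MvPolynomial (Fin N) k) (x i) else C (X i) := by
  simp [tauQ]

theorem tauQ_X (x : Fin N → MvPolynomial (Fin n) k) (j : Fin N) (l : Fin n) :
    tauQ x j (X l) = X l := by
  simp [tauQ]

theorem tauQ_map (x : Fin N → MvPolynomial (Fin n) k) (j : Fin N) (s : MvPolynomial (Fin n) k) :
    tauQ x j (map (C : k →+* MvPolynomial (Fin N) k) s) = map (C : k →+* MvPolynomial (Fin N) k) s := by
  have h : (tauQ x j).comp (map (C : k →+* MvPolynomial (Fin N) k)) =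
      map (C : k →+* MvPolynomial (Fin N) k) := by
    refine MvPolynomial.ringHom_ext (fun r => ?_) (fun i => ?_)
    · rw [RingHom.comp_apply, map_C, tauQ_CC]
    · rw [RingHom.comp_apply, map_X, tauQ_X]
  exact RingHom.congr_fun h s

theorem aQ_ne_zero (x : Fin N → MvPolynomial (Fin n) k) (j : Fin N) : aQ x j ≠ 0 := by
  intro h
  have h1 : eval₂Hom (RingHom.id (MvPolynomial (Fin N) k)) (fun _ : Fin n => 0) (aQ x j) = 0 := by
    rw [h, map_zero]
  rw [aQ, map_sub, coe_eval₂Hom, eval₂_C, RingHom.id_apply] at h1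
  have h2 : ∀ s : MvPolynomial (Fin n) k, ∃ c : k,
      eval₂ (RingHom.id (MvPolynomial (Fin N) k)) (fun _ : Fin n => 0)
        (map (C : k →+* MvPolynomial (Fin N) k) s) = C c := by
    intro s
    refine ⟨eval (fun _ => 0) s, ?_⟩
    have h3 : (eval₂Hom (RingHom.id (MvPolynomial (Fin N) k)) (fun _ : Fin n => 0)).comp
        (map (C : k →+* MvPolynomial (Fin N) k)) = (C : k →+* MvPolynomial (Fin N) k).comp
          (eval (fun _ : Fin n => 0)) := by
      refine MvPolynomial.ringHom_ext (fun r => ?_) (fun i => ?_)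
      · simp
      · simp
    exact RingHom.congr_fun h3 s
  obtain ⟨c, hc⟩ := h2 (x j)
  rw [hc, sub_eq_zero] at h1
  have h3 := congrArg (coeff (Finsupp.single j 1)) h1
  have h4 : ¬ ((0 : Fin N →₀ ℕ) = Finsupp.single j 1) := by
    intro h4
    have h5 := DFunLike.congr_fun h4 j
    simp at h5
  rw [coeff_X, coeff_C, if_neg h4, if_pos rfl] at h3
  exact one_ne_zero h3

/-- `a_1, …, a_N` is a regular sequence. PROOF. Let `I` be the ideal generated by the `a_i`, `i < j`, and `τ` the ring endomorphism of `k[X][x]` which maps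
`C (X i)` to `map C (x i)` for `i < j` and fixes `C (X i)` for `i ≥ j`, the constants and the `X l`. As in `ker_muQ`, `s - τ s ∈ I` for all `s`, and `τ` kills `I`
(for `i < j`, `τ (map C (x i)) = map C (x i)`). If `a_j s ∈ I` then `0 = τ (a_j s) = a_j τ s` (because `τ a_j = a_j`), `a_j ≠ 0` and `k[X][x]` is a domain, so `τ s = 0` and
`s = s - τ s ∈ I`. (`a_j ≠ 0`: its image under the homomorphism which maps `X_j` to `X_j` and all `x_l` to `0` is `X_j` minus a constant.) -/
theorem aQ_regular (x : Fin N → MvPolynomial (Fin n) k) (j : Fin N)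
    (s : MvPolynomial (Fin n) (MvPolynomial (Fin N) k))
    (h : aQ x j * s ∈ Ideal.span {b | ∃ i : Fin N, i < j ∧ b = aQ x i}) :
    s ∈ Ideal.span {b | ∃ i : Fin N, i < j ∧ b = aQ x i} := by
  have h1 : Ideal.span {b | ∃ i : Fin N, i < j ∧ b = aQ x i} ≤ RingHom.ker (tauQ x j) := by
    rw [Ideal.span_le]
    rintro _ ⟨i, hi, rfl⟩
    change aQ x i ∈ RingHom.ker (tauQ x j)
    rw [RingHom.mem_ker, aQ, map_sub, tauQ_CX, if_pos hi, tauQ_map, sub_self]
  have h2 : tauQ x j (aQ x j) = aQ x j := by
    rw [aQ, map_sub, tauQ_CX, if_neg (lt_irrefl j), tauQ_map]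
  have h3 : tauQ x j s = 0 := by
    have h4 := h1 h
    rw [RingHom.mem_ker, map_mul, h2] at h4
    exact (mul_eq_zero.1 h4).resolve_left (aQ_ne_zero x j)
  have h5 := sub_mem_of_gen (tauQ x j) (Ideal.span {b | ∃ i : Fin N, i < j ∧ b = aQ x i})
    (fun c => ?_) (fun i => ?_) (fun l => ?_) s
  · rw [h3, sub_zero] at h5
    exact h5
  · rw [tauQ_CC, sub_self]
    exact Ideal.zero_mem _
  · rw [tauQ_CX]
    by_cases hi : i < j
    · rw [if_pos hi]
      exact Ideal.subset_span ⟨i, hi, rfl⟩
    · rw [if_neg hi, sub_self]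
      exact Ideal.zero_mem _
  · rw [tauQ_X, sub_self]
    exact Ideal.zero_mem _

end MP8a
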