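import Pool.Agent.Lib_MP_8a48ad_gt.CIDefs
import Pool.Agent.Lib_MP_8a48ad_gt.CIGrA
import Pool.Agent.Lib_MP_8a48ad_gt.CIKos

/-!
# Stage CI, piece CITB: the DG modules `KB` (Koszul part) and `TB` (Tate resolution)
-/

set_option autoImplicit false

namespace MP8a

universe u

open MvPolynomial

variable {R : Type u} [CommRing R] {GR : Gr R}

/-- The data for the Tate resolution of `S` over the graded ring `R`. `R ⊗_k S` is the polynomial ring `R[x_1, …, x_n]`. -/
structure TData (GR : Gr R) (n N c : ℕ) where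
  /-- `a_i = X_i - x_i` -/
  a : Fin N → MvPolynomial (Fin n) R
  /-- the degree of `a_i` -/
  m : Fin N → ℤ
  /-- `f_j = ∑ a_i g_ji` before dividing by the `f_j` -/
  g : Fin c → Fin N → MvPolynomial (Fin n) R
  /-- the degree of `f_j` -/
  φ : Fin c → ℤ
  ha : ∀ i, (grA GR n).c (m i) (a i) = a i
  hg : ∀ j i, (grA GR n).c (φ j - m i) (g j i) = g j i
  hag : ∀ j, ∑ i, a i * g j i = 0

variable {n N c : ℕ}

/-- the degree of `e_I` -/
def TData.dI (t : TData GR n N c) (I : Finset (Fin N)) : ℤ := ∑ i ∈ I, (t.m i - 1)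

/-- the degree of `y^γ` -/
noncomputable def TData.dy (t : TData GR n N c) (γ : Fin c →₀ ℕ) : ℤ := ∑ j, (γ j : ℤ) * (t.φ j - 2)

/-- the component of degree `i` of `R[x] ⊗ Λ(e)` -/
noncomputable def TData.prK (t : TData GR n N c) (i : ℤ) :
    (Finset (Fin N) → MvPolynomial (Fin n) R) →+ (Finset (Fin N) → MvPolynomial (Fin n) R) where
  toFun z I := cA GR n (i - t.dI I) (z I)
  map_zero' := by
    funext I
    simp
  map_add' z w := by
    funext I
    simp

theorem TData.prK_apply (t : TData GR n N c) (i : ℤ) (z : Finset (Fin N) → MvPolynomial (Fin n) R)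
    (I : Finset (Fin N)) : t.prK i z I = cA GR n (i - t.dI I) (z I) := rfl

/-- a component of a product with a homogeneous element -/
theorem cA_smul_hom {m : ℤ} {a : MvPolynomial (Fin n) R} (ha : (grA GR n).c m a = a) (j : ℤ)
    (x : MvPolynomial (Fin n) R) : cA GR n j (a • x) = a • cA GR n (j - m) x :=
  (regM (grA GR n)).pr_smul' ha j x

theorem TData.dI_insert (t : TData GR n N c) {l : Fin N} {I : Finset (Fin N)} (h : l ∉ I) :
    t.dI (insert l I) = (t.m l - 1) + t.dI I := by
  unfold TData.dI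
  rw [Finset.sum_insert h]

theorem TData.dI_erase (t : TData GR n N c) {l : Fin N} {I : Finset (Fin N)} (h : l ∈ I) :
    (t.m l - 1) + t.dI (I.erase l) = t.dI I := by
  unfold TData.dI
  exact Finset.add_sum_erase I (fun i => t.m i - 1) h

/-- `∑ a_i ∂/∂e_i` is homogeneous of degree `1`. PROOF. Entrywise: `(KD a z) I = ∑_{l ∉ I} ± a_l z(I ∪ l)` and
`dI (I ∪ l) = dI I + m_l - 1`; use `(regM (grA GR n)).pr_smul'` (`cA` of a product with a homogeneous element). -/
theorem TData.prK_KD (t : TData GR n N c) (i : ℤ) (z : Finset (Fin N) → MvPolynomial (Fin n) R) :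
    t.prK (i + 1) (KD t.a z) = KD t.a (t.prK i z) := by
  funext I
  rw [TData.prK_apply, KD_apply, KD_apply, map_sum]
  refine Finset.sum_congr rfl fun l _ => ?_
  rw [cA_smul_hom (t.ha l), dE_apply, dE_apply]
  by_cases h : l ∈ I
  · rw [if_pos h, if_pos h, map_zero]
  · rw [if_neg h, if_neg h, map_zsmul, TData.prK_apply, t.dI_insert h]
    have h2 : i + 1 - t.dI I - t.m l = i - (t.m l - 1 + t.dI I) := by ring
    rw [h2]

/-- left multiplication with `∑ g_ji e_i` is homogeneous of degree `φ j - 1`. -/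
theorem TData.prK_KS (t : TData GR n N c) (j : Fin c) (i : ℤ) (z : Finset (Fin N) → MvPolynomial (Fin n) R) :
    t.prK (i + (t.φ j - 1)) (KS (t.g j) z) = KS (t.g j) (t.prK i z) := by
  funext I
  rw [TData.prK_apply, KS_apply, KS_apply, map_sum]
  refine Finset.sum_congr rfl fun l _ => ?_
  rw [cA_smul_hom (t.hg j l), wE_apply, wE_apply]
  by_cases h : l ∈ I
  · rw [if_pos h, if_pos h, map_zsmul, TData.prK_apply]
    have h1 := t.dI_erase h
    have h2 : i + (t.φ j - 1) - t.dI I - (t.φ j - t.m l) = i - t.dI (I.erase l) := by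
      rw [← h1]
      ring
    rw [h2]
  · rw [if_neg h, if_neg h, map_zero]

/-- `R[x] ⊗ Λ(e_1, …, e_N)` with `d = ∑ a_i ∂/∂e_i`. -/
@[reducible] noncomputable def KB (t : TData GR n N c) : DGM GR where
  X := Finset (Fin N) → MvPolynomial (Fin n) R
  pr := t.prK
  pr_pr := by
    intro i j z
    funext I
    have h := (grA GR n).c_c (i - t.dI I) (j - t.dI I) (z I)
    by_cases hij : i = j
    · subst hij
      rw [if_pos rfl] at h ⊢
      exact h
    · rw [if_neg hij]
      rw [if_neg (fun h' => hij (sub_left_injective h'))] at h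
      exact h
  fin := by
    intro z
    classical
    choose s hs using fun I => (regM (grA GR n)).exists_support (z I)
    refine ⟨Finset.univ.biUnion (fun I => (s I).map (addRightEmbedding (t.dI I))), ?_⟩
    funext I
    rw [Finset.sum_apply]
    have h1 := (hs I).2 ((Finset.univ.biUnion (fun I => (s I).map (addRightEmbedding (t.dI I)))).map
      (addRightEmbedding (-(t.dI I)))) (by
        intro i hi
        rw [Finset.mem_map]
        refine ⟨i + t.dI I, Finset.mem_biUnion.2 ⟨I, Finset.mem_univ I, Finset.mem_map.2 ⟨i, hi, rfl⟩⟩, ?_⟩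
        simp)
    rw [Finset.sum_map] at h1
    exact h1
  smul := by
    intro i j a z ha hz
    funext I
    have h1 : cA GR n (j - t.dI I) (z I) = z I := congrFun hz I
    have h2 := (grA GR n).mul (i := i) (j := j - t.dI I) (a := C a) (b := z I)
      (by rw [grA_C, ha]) h1
    have h3 : i + j - t.dI I = i + (j - t.dI I) := by ring
    change cA GR n (i + j - t.dI I) (a • z I) = a • z I
    rw [h3, MvPolynomial.smul_eq_C_mul]
    exact h2
  d := (KD t.a).restrictScalars R
  d_hom := by
    intro i z hz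
    have h := t.prK_KD i z
    rw [hz] at h
    exact h
  d_d z := KD_KD t.a z

/-- the component of degree `i` -/
noncomputable def TData.prT (t : TData GR n N c) (i : ℤ) :
    ((Fin c →₀ ℕ) →₀ (KB t).X) →+ ((Fin c →₀ ℕ) →₀ (KB t).X) where
  toFun b := Finsupp.onFinset b.support (fun γ => (KB t).pr (i - t.dy γ) (b γ)) (by
    intro γ hγ
    rw [Finsupp.mem_support_iff]
    intro h
    apply hγ
    rw [h, map_zero])
  map_zero' := by
    ext γ
    simp
  map_add' := by
    intro b b'
    ext γ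
    simp

theorem TData.prT_apply (t : TData GR n N c) (i : ℤ) (b : (Fin c →₀ ℕ) →₀ (KB t).X) (γ : Fin c →₀ ℕ) :
    t.prT i b γ = (KB t).pr (i - t.dy γ) (b γ) := rfl

/-- the differential of `TB` -/
noncomputable def TData.D (t : TData GR n N c) :
    ((Fin c →₀ ℕ) →₀ (KB t).X) →ₗ[R] ((Fin c →₀ ℕ) →₀ (KB t).X) :=
  TD ((KD t.a).restrictScalars R) (fun j => (KS (t.g j)).restrictScalars R)

theorem TData.D_apply (t : TData GR n N c) (b : (Fin c →₀ ℕ) →₀ (KB t).X) (γ : Fin c →₀ ℕ) :
    t.D b γ = KD t.a (b γ) + ∑ j, KS (t.g j) (b (γ + Finsupp.single j 1)) :=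
  TD_apply _ _ b γ

theorem TData.dy_add_single (t : TData GR n N c) (γ : Fin c →₀ ℕ) (j : Fin c) :
    t.dy (γ + Finsupp.single j 1) = t.dy γ + (t.φ j - 2) := by
  classical
  unfold TData.dy
  have h1 : ∀ l : Fin c, (((γ + Finsupp.single j 1 : Fin c →₀ ℕ) l : ℕ) : ℤ) * (t.φ l - 2) =
      (γ l : ℤ) * (t.φ l - 2) + (if l = j then t.φ l - 2 else 0) := by
    intro l
    rw [Finsupp.add_apply, Finsupp.single_apply]
    by_cases h : j = l
    · subst h
      rw [if_pos rfl, if_pos rfl]
      push_cast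
      ring
    · rw [if_neg h, if_neg (fun h' => h h'.symm)]
      push_cast
      ring
  rw [Finset.sum_congr rfl (fun l _ => h1 l), Finset.sum_add_distrib, Finset.sum_ite_eq' Finset.univ j,
    if_pos (Finset.mem_univ j)]

/-- `TD_TD`, `KD_KD`, `KD_KS` with `t.hag`, `KS_KS`, `KS_self` -/
theorem TData.D_D (t : TData GR n N c) (b : (Fin c →₀ ℕ) →₀ (KB t).X) : t.D (t.D b) = 0 := by
  refine TD_TD _ _ (fun v => KD_KD t.a v) (fun j v => ?_) (fun i j v => KS_KS (t.g i) (t.g j) v)
    (fun j v => KS_self (t.g j) v) b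
  have h := KD_KS t.a (t.g j) v
  rw [t.hag j, zero_smul] at h
  exact h

/-- The Tate resolution: `R[x] ⊗ Λ(e) ⊗ Γ(y)` with `d = ∑ a_i ∂/∂e_i + ∑_j (∑_i g_ji e_i) ∂/∂y_j`. -/
@[reducible] noncomputable def TB (t : TData GR n N c) : DGM GR where
  X := (Fin c →₀ ℕ) →₀ (KB t).X
  pr := t.prT
  pr_pr := by
    intro i j b
    ext1 γ
    have h := (KB t).pr_pr (i - t.dy γ) (j - t.dy γ) (b γ)
    by_cases hij : i = j
    · subst hij
      rw [if_pos rfl] at h ⊢
      exact h
    · rw [if_neg hij]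
      rw [if_neg (fun h' => hij (sub_left_injective h'))] at h
      exact h
  fin := by
    intro b
    classical
    choose s hs using fun γ => (KB t).exists_support (b γ)
    refine ⟨b.support.biUnion (fun γ => (s γ).map (addRightEmbedding (t.dy γ))), ?_⟩
    ext1 γ
    rw [Finsupp.finsetSum_apply]
    by_cases hγ : γ ∈ b.support
    · have h1 := (hs γ).2 ((b.support.biUnion (fun γ => (s γ).map (addRightEmbedding (t.dy γ)))).map
        (addRightEmbedding (-(t.dy γ)))) (by
          intro i hi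
          rw [Finset.mem_map]
          refine ⟨i + t.dy γ, Finset.mem_biUnion.2 ⟨γ, hγ, Finset.mem_map.2 ⟨i, hi, rfl⟩⟩, ?_⟩
          simp)
      rw [Finset.sum_map] at h1
      exact h1
    · rw [Finsupp.notMem_support_iff] at hγ
      rw [hγ]
      refine Finset.sum_eq_zero fun i _ => ?_
      change (KB t).pr (i - t.dy γ) (b γ) = 0
      rw [hγ, map_zero]
  smul := by
    intro i j a b ha hb
    ext1 γ
    have h1 : (KB t).pr (j - t.dy γ) (b γ) = b γ := DFunLike.congr_fun hb γ
    have h2 := (KB t).smul ha h1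
    have h3 : i + j - t.dy γ = i + (j - t.dy γ) := by ring
    change (KB t).pr (i + j - t.dy γ) (a • b γ) = a • b γ
    rw [h3]
    exact h2
  d := t.D
  d_hom := by
    intro i b hb
    ext1 γ
    have h0 : ∀ δ : Fin c →₀ ℕ, t.prK (i - t.dy δ) (b δ) = b δ := fun δ => DFunLike.congr_fun hb δ
    change t.prK (i + 1 - t.dy γ) (t.D b γ) = t.D b γ
    rw [TData.D_apply, map_add, map_sum]
    congr 1
    · have h1 := t.prK_KD (i - t.dy γ) (b γ)
      rw [h0] at h1
      have h2 : i + 1 - t.dy γ = i - t.dy γ + 1 := by ring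
      rw [h2]
      exact h1
    · refine Finset.sum_congr rfl fun j _ => ?_
      have h1 := t.prK_KS j (i - t.dy (γ + Finsupp.single j 1)) (b (γ + Finsupp.single j 1))
      rw [h0] at h1
      have h2 : i + 1 - t.dy γ = i - t.dy (γ + Finsupp.single j 1) + (t.φ j - 1) := by
        rw [TData.dy_add_single]
        ring
      rw [h2]
      exact h1
  d_d := t.D_D

theorem TB_d_apply (t : TData GR n N c) (b : (TB t).X) (γ : Fin c →₀ ℕ) :
    (TB t).d b γ = (KB t).d (b γ) + ∑ j, KS (t.g j) (b (γ + Finsupp.single j 1)) := t.D_apply b γ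

theorem TB_pr_apply (t : TData GR n N c) (i : ℤ) (b : (TB t).X) (γ : Fin c →₀ ℕ) :
    (TB t).pr i b γ = (KB t).pr (i - t.dy γ) (b γ) := rfl

end MP8a
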