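import Pool.Agent.Lib_MP_8a48ad_gt.CIGrQ
import Pool.Agent.Lib_MP_8a48ad_gt.CIReg
import Pool.Agent.Lib_MP_8a48ad_gt.CITB

/-! # Piece CIPRES: graded complete intersections, and the data of the Tate resolution -/

set_option autoImplicit false

namespace MP8a

open MvPolynomial

universe u

variable {k : Type u} [Field k] {n : ℕ} {R : Type u} [CommRing R] [Algebra k R]

/-- A presentation of the graded ring `R` as a complete intersection: `R = k[X_1, …, X_N]/(f_1, …, f_c)`, `X_i` homogeneous of degree `2 m_i`, `f_j`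
homogeneous of degree `2 φ_j`, `f_1, …, f_c` a regular sequence. -/
structure Pres (k : Type u) [Field k] {R : Type u} [CommRing R] [Algebra k R] (GR : Gr R) (N c : ℕ) where
  /-- half the degree of `X_i` -/
  m : Fin N → ℕ
  /-- the projection -/
  π : MvPolynomial (Fin N) k →ₐ[k] R
  /-- the equations -/
  f : Fin c → MvPolynomial (Fin N) k
  /-- half the degree of `f_j` -/
  φ : Fin c → ℕ
  hX : ∀ i, GR.c (2 * (m i : ℤ)) (π (X i)) = π (X i)
  hf : ∀ j, (f j).IsWeightedHomogeneous m (φ j)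
  surj : Function.Surjective π
  ker : RingHom.ker π = Ideal.span (Set.range f)
  reg : RingTheory.Sequence.IsWeaklyRegular (MvPolynomial (Fin N) k) (List.ofFn f)

/-- `R` is a graded complete intersection. -/
def IsCI (k : Type u) [Field k] {R : Type u} [CommRing R] [Algebra k R] (GR : Gr R) : Prop :=
  ∃ N c : ℕ, Nonempty (Pres k GR N c)

variable [Algebra R (Sn k n)] {GR : Gr R} {N c : ℕ}

/-- the image of `X_i` in `S` -/
noncomputable def Pres.x (P : Pres k GR N c) (n : ℕ) [Algebra R (Sn k n)] (i : Fin N) : Sn k n :=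
  algebraMap R (Sn k n) (P.π (X i))

theorem Pres.x_hom (hS : Setup k n GR) (P : Pres k GR N c) (i : Fin N) :
    (grS k n).c (2 * (P.m i : ℤ)) (P.x n i) = P.x n i := by
  rw [Pres.x, ← hS.compat, P.hX]

theorem Pres.aeval_x (hS : Setup k n GR) (P : Pres k GR N c) (q : MvPolynomial (Fin N) k) :
    aeval (P.x n) q = algebraMap R (Sn k n) (P.π q) := by
  have ht : IsScalarTower k R (Sn k n) := hS.tower
  have h : (aeval (P.x n) : MvPolynomial (Fin N) k →ₐ[k] Sn k n) =
      (IsScalarTower.toAlgHom k R (Sn k n)).comp P.π := by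
    apply MvPolynomial.algHom_ext
    intro i
    rw [aeval_X]
    rfl
  rw [h]
  rfl

/-- `X_i - x_i` is homogeneous of degree `2 m_i`. (Coefficients: the coefficient of `x^μ` in `x_i` is zero unless `|μ| = m_i`.) -/
theorem Pres.aQ_hom (hS : Setup k n GR) (P : Pres k GR N c) (i : Fin N) :
    (grA (grQ k P.m) n).c (2 * (P.m i : ℤ)) (aQ (P.x n) i) = aQ (P.x n) i := by
  classical
  unfold aQ
  rw [map_sub, grA_C, grQ_X]
  congr 1
  ext1 μ
  rw [grA_c, coeff_cA, coeff_map]
  have hx := P.x_hom hS i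
  have hc : (grS k n).c (2 * (P.m i : ℤ)) (P.x n i) =
      MvPolynomial.homogeneousComponent (P.m i) (P.x n i) := by
    change cS k n (2 * (P.m i : ℤ)) (P.x n i) = _
    unfold cS
    have h1 : Even (2 * (P.m i : ℤ)) ∧ 0 ≤ 2 * (P.m i : ℤ) := ⟨even_two_mul _, by positivity⟩
    rw [if_pos h1]
    have h2 : (2 * (P.m i : ℤ) / 2).toNat = P.m i := by omega
    rw [h2]
    rfl
  by_cases hμ : μ.degree = P.m i
  · have h0 : 2 * (P.m i : ℤ) - 2 * (μ.degree : ℤ) = 0 := by
      rw [hμ, sub_self]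
    rw [h0]
    exact grQ_C P.m _
  · have h0 : coeff μ (P.x n i) = 0 := by
      rw [← hx, hc, coeff_homogeneousComponent, if_neg hμ]
    rw [h0, map_zero, map_zero]

/-- The `g_ji`. PROOF. `muQ x (C f_j) = aeval x f_j = 0` (`aeval_x`, `P.ker`), so `C f_j` is in the ideal generated by the `a_i` (`ker_muQ`):
`C f_j = ∑ a_i g_i` (`Ideal.mem_span_range_iff_exists_fun`); take the component of degree `2 φ_j`: the `g_i` can be replaced by their components of degree
`2 φ_j - 2 m_i` (`(regM (grA (grQ k P.m) n)).pr_smul'`, `grA_C`, `grQ_hom`). -/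
theorem Pres.exists_g (hS : Setup k n GR) (P : Pres k GR N c) :
    ∃ g : Fin c → Fin N → MvPolynomial (Fin n) (MvPolynomial (Fin N) k),
      (∀ j i, (grA (grQ k P.m) n).c (2 * (P.φ j : ℤ) - 2 * (P.m i : ℤ)) (g j i) = g j i) ∧
      ∀ j, ∑ i, aQ (P.x n) i * g j i = C (P.f j) := by
  have h : ∀ j, ∃ c' : Fin N → MvPolynomial (Fin n) (MvPolynomial (Fin N) k),
      ∑ i, c' i * aQ (P.x n) i = C (P.f j) := by
    intro j
    have hm : (C (P.f j) : MvPolynomial (Fin n) (MvPolynomial (Fin N) k)) ∈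
        Ideal.span (Set.range (aQ (P.x n))) := by
      rw [← ker_muQ, RingHom.mem_ker, muQ_C, P.aeval_x hS]
      have h1 : P.f j ∈ RingHom.ker P.π := by
        rw [P.ker]
        exact Ideal.subset_span ⟨j, rfl⟩
      have h2 : P.π (P.f j) = 0 := h1
      rw [h2, map_zero]
    exact Ideal.mem_span_range_iff_exists_fun.1 hm
  choose c' hc' using h
  refine ⟨fun j i => (grA (grQ k P.m) n).c (2 * (P.φ j : ℤ) - 2 * (P.m i : ℤ)) (c' j i), ?_, ?_⟩
  · intro j i
    exact Gr.c_self _ _ _
  · intro j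
    have h3 : (grA (grQ k P.m) n).c (2 * (P.φ j : ℤ)) (C (P.f j)) = C (P.f j) := by
      rw [grA_C, grQ_hom P.m (P.hf j)]
    rw [← h3, ← hc' j, map_sum]
    refine Finset.sum_congr rfl fun i _ => ?_
    have h4 := (regM (grA (grQ k P.m) n)).pr_smul' (P.aQ_hom hS i) (2 * (P.φ j : ℤ)) (c' j i)
    rw [mul_comm (c' j i)]
    exact h4.symm

/-- the chosen `g_ji` -/
noncomputable def Pres.g (hS : Setup k n GR) (P : Pres k GR N c) :
    Fin c → Fin N → MvPolynomial (Fin n) (MvPolynomial (Fin N) k) := (P.exists_g hS).choose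

theorem Pres.g_hom (hS : Setup k n GR) (P : Pres k GR N c) (j : Fin c) (i : Fin N) :
    (grA (grQ k P.m) n).c (2 * (P.φ j : ℤ) - 2 * (P.m i : ℤ)) (P.g hS j i) = P.g hS j i :=
  (P.exists_g hS).choose_spec.1 j i

theorem Pres.g_sum (hS : Setup k n GR) (P : Pres k GR N c) (j : Fin c) :
    ∑ i, aQ (P.x n) i * P.g hS j i = C (P.f j) :=
  (P.exists_g hS).choose_spec.2 j

/-- The data of the Tate resolution of `S`: the images in `R[x]`. -/
noncomputable def Pres.tdata (hS : Setup k n GR) (P : Pres k GR N c) : TData GR n N c where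
  a i := map P.π.toRingHom (aQ (P.x n) i)
  m i := 2 * (P.m i : ℤ)
  g j i := map P.π.toRingHom (P.g hS j i)
  φ j := 2 * (P.φ j : ℤ)
  ha i := by
    rw [grA_map P.π.toRingHom (GQ := grQ k P.m) (fun i q => grQ_compat P.m hS.c_algebraMap P.π P.hX i q),
      P.aQ_hom hS]
  hg j i := by
    rw [grA_map P.π.toRingHom (GQ := grQ k P.m) (fun i q => grQ_compat P.m hS.c_algebraMap P.π P.hX i q),
      P.g_hom hS]
  hag j := by
    have h : P.π (P.f j) = 0 := by
      have h1 : P.f j ∈ RingHom.ker P.π := by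
        rw [P.ker]
        exact Ideal.subset_span ⟨j, rfl⟩
      exact h1
    have h2 : ∑ i, map P.π.toRingHom (aQ (P.x n) i) * map P.π.toRingHom (P.g hS j i) =
        map P.π.toRingHom (C (P.f j)) := by
      rw [← P.g_sum hS j, map_sum]
      exact Finset.sum_congr rfl fun i _ => (map_mul _ _ _).symm
    rw [h2, map_C]
    change C (P.π (P.f j)) = 0
    rw [h, map_zero]

end MP8a
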