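import Pool.Agent.Lib_MP_8a48ad_gt.CITB

/-! # Piece CISF: `KB` and `TB` are semifree -/

set_option autoImplicit false

namespace MP8a

open MvPolynomial

universe u

variable {R : Type u} [CommRing R] {GR : Gr R} {n N c : ℕ}

/-- `γ - δ_j + δ_j = γ` -/
private theorem cisf_sub_add {γ : Fin c →₀ ℕ} {j : Fin c} (h : γ j ≠ 0) :
    γ - Finsupp.single j 1 + Finsupp.single j 1 = γ := by
  refine tsub_add_cancel_of_le ?_
  rw [Finsupp.single_le_iff]
  exact Nat.one_le_iff_ne_zero.2 h

/-- The differential of `TB` on `v y^γ`: `(KD v) y^γ + ∑_j (KS_j v) y^(γ - δ_j)` (the sum over the `j` with `γ_j ≠ 0`). (Compare coefficients: `TB_d_apply`.) -/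
theorem TB_d_lsingle (t : TData GR n N c) (γ : Fin c →₀ ℕ) (v : (KB t).X) :
    (TB t).d (Finsupp.single γ v) = Finsupp.single γ ((KB t).d v) +
      ∑ j, if γ j = 0 then 0 else Finsupp.single (γ - Finsupp.single j 1) (KS (t.g j) v) := by
  classical
  ext1 δ
  rw [TB_d_apply, Finsupp.add_apply, Finsupp.finsetSum_apply]
  have e1 : (KB t).d (Finsupp.single γ v δ) = Finsupp.single γ ((KB t).d v) δ := by
    rw [Finsupp.single_apply, Finsupp.single_apply]
    by_cases h : γ = δ
    · rw [if_pos h, if_pos h]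
    · rw [if_neg h, if_neg h, map_zero]
  rw [e1]
  refine congrArg _ (Finset.sum_congr rfl fun j _ => ?_)
  rw [Finsupp.single_apply]
  by_cases h : γ = δ + Finsupp.single j 1
  · have h1 : γ j ≠ 0 := by
      rw [h, Finsupp.add_apply, Finsupp.single_eq_same]
      exact Nat.succ_ne_zero _
    have h2 : γ - Finsupp.single j 1 = δ := by
      rw [h, add_tsub_cancel_right]
    rw [if_pos h, if_neg h1, h2, Finsupp.single_eq_same]
  · rw [if_neg h, map_zero]
    by_cases h1 : γ j = 0
    · rw [if_pos h1, Finsupp.zero_apply]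
    · rw [if_neg h1, Finsupp.single_apply, if_neg]
      intro h2
      exact h (by rw [← h2, cisf_sub_add h1])

/-- `v ↦ v y^γ` is homogeneous of degree `dy γ`. -/
theorem TB_pr_lsingle (t : TData GR n N c) (γ : Fin c →₀ ℕ) (i : ℤ) (v : (KB t).X) :
    (TB t).pr (i + t.dy γ) (Finsupp.single γ v) = Finsupp.single γ ((KB t).pr i v) := by
  classical
  ext1 δ
  rw [TB_pr_apply, Finsupp.single_apply, Finsupp.single_apply]
  by_cases h : γ = δ
  · subst h
    rw [if_pos rfl, if_pos rfl, add_sub_cancel_right]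
  · rw [if_neg h, if_neg h, map_zero]

private theorem cisf_KD_zero (t : TData GR n N c) {I J : Finset (Fin N)} (p : MvPolynomial (Fin n) R)
    (h : I.card ≤ J.card) : KD t.a (Pi.single I p : Finset (Fin N) → MvPolynomial (Fin n) R) J = 0 := by
  rw [KD_apply]
  refine Finset.sum_eq_zero fun i _ => ?_
  rw [dE_apply]
  by_cases hi : i ∈ J
  · rw [if_pos hi, smul_zero]
  · rw [if_neg hi, Pi.single_eq_of_ne, smul_zero, smul_zero]
    intro h1
    have h2 := Finset.card_insert_of_notMem hi
    rw [h1] at h2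
    omega

private theorem cisf_KS_zero (g : Fin N → MvPolynomial (Fin n) R) {I J : Finset (Fin N)}
    (p : MvPolynomial (Fin n) R) (h : I.card + 2 ≤ J.card) :
    KS g (Pi.single I p : Finset (Fin N) → MvPolynomial (Fin n) R) J = 0 := by
  rw [KS_apply]
  refine Finset.sum_eq_zero fun i _ => ?_
  rw [wE_apply]
  by_cases hi : i ∈ J
  · rw [if_pos hi, Pi.single_eq_of_ne, smul_zero, smul_zero]
    intro h1
    have h2 := Finset.card_erase_add_one hi
    rw [h1] at h2
    omega
  · rw [if_neg hi, smul_zero]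

private theorem cisf_pr (t : TData GR n N c) (I : Finset (Fin N)) (μ : Fin n →₀ ℕ) :
    (KB t).pr (t.dI I + 2 * (μ.degree : ℤ)) (Pi.single I (monomial μ 1)) =
      Pi.single I (monomial μ 1) := by
  classical
  funext J
  change cA GR n (t.dI I + 2 * (μ.degree : ℤ) - t.dI J) ((Pi.single I (monomial μ (1 : R)) :
    Finset (Fin N) → MvPolynomial (Fin n) R) J) = _
  by_cases h : J = I
  · subst h
    rw [Pi.single_eq_same, add_sub_cancel_left]
    have h1 := grA_monomial GR n (2 * (μ.degree : ℤ)) μ 1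
    rw [sub_self, GR.one] at h1
    exact h1
  · rw [Pi.single_eq_of_ne h, map_zero]

/-- The basis `x^μ e_I` of `KB`. -/
noncomputable def sfKB (t : TData GR n N c) : SFree (KB t) where
  ι := Σ _ : Finset (Fin N), (Fin n →₀ ℕ)
  b := Pi.basis (fun _ : Finset (Fin N) => MvPolynomial.basisMonomials (Fin n) R)
  deg i := t.dI i.1 + 2 * (i.2.degree : ℤ)
  pr := by
    intro i
    rw [Pi.basis_apply, MvPolynomial.coe_basisMonomials]
    exact cisf_pr t i.1 i.2
  rk i := i.1.card
  d := by
    intro i
    rw [Module.Basis.mem_span_image]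
    intro j hj
    rw [Finset.mem_coe, Finsupp.mem_support_iff] at hj
    change j.1.card < i.1.card
    by_contra hlt
    apply hj
    rw [Pi.basis_repr, Pi.basis_apply, MvPolynomial.coe_basisMonomials]
    have h1 : (KB t).d (Pi.single i.1 (monomial i.2 1)) j.1 = 0 :=
      cisf_KD_zero t (monomial i.2 1) (not_lt.1 hlt)
    rw [h1, map_zero, Finsupp.zero_apply]

theorem sfKB_rk (t : TData GR n N c) (i : (sfKB t).ι) : (sfKB t).rk i < N + 1 := by
  have h := Finset.card_le_univ i.1
  rw [Fintype.card_fin] at h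
  exact Nat.lt_succ_of_le h

private theorem sfKB_b (t : TData GR n N c) (i : (sfKB t).ι) :
    (sfKB t).b i = Pi.single i.1 (monomial i.2 (1 : R)) := by
  have h := Pi.basis_apply (fun _ : Finset (Fin N) => MvPolynomial.basisMonomials (Fin n) R)
    (show (Σ _ : Finset (Fin N), (Fin n →₀ ℕ)) from i)
  rw [MvPolynomial.coe_basisMonomials] at h
  exact h

private theorem sfKB_repr (t : TData GR n N c) (z : (KB t).X) (j : (sfKB t).ι) (h : z j.1 = 0) :
    (sfKB t).b.repr z j = 0 := by
  have h1 := Pi.basis_repr (fun _ : Finset (Fin N) => MvPolynomial.basisMonomials (Fin n) R) z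
    (show (Σ _ : Finset (Fin N), (Fin n →₀ ℕ)) from j)
  have h2 : z (show (Σ _ : Finset (Fin N), (Fin n →₀ ℕ)) from j).1 = 0 := h
  rw [h2, map_zero, Finsupp.zero_apply] at h1
  exact h1

/-- The basis `x^μ e_I y^γ` of `TB`. -/
noncomputable def sfTB (t : TData GR n N c) : SFree (TB t) where
  ι := Σ _ : (Fin c →₀ ℕ), (sfKB t).ι
  b := Finsupp.basis (fun _ : (Fin c →₀ ℕ) => (sfKB t).b)
  deg i := t.dy i.1 + (sfKB t).deg i.2
  pr := by
    intro i
    rw [Finsupp.coe_basis, add_comm]
    change (TB t).pr ((sfKB t).deg i.2 + t.dy i.1) (Finsupp.single i.1 ((sfKB t).b i.2)) = _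
    rw [TB_pr_lsingle, (sfKB t).pr]
  rk i := 2 * i.1.degree + (sfKB t).rk i.2
  d := by
    classical
    intro i
    rw [Module.Basis.mem_span_image]
    intro j hj
    rw [Finset.mem_coe, Finsupp.mem_support_iff] at hj
    change 2 * j.1.degree + (sfKB t).rk j.2 < 2 * i.1.degree + (sfKB t).rk i.2
    by_contra hlt
    rw [not_lt] at hlt
    apply hj
    rw [Finsupp.basis_repr, Finsupp.coe_basis]
    refine sfKB_repr t _ j.2 ?_
    have hb := sfKB_b t i.2
    have hr1 : (sfKB t).rk i.2 = i.2.1.card := rfl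
    have hr2 : (sfKB t).rk j.2 = j.2.1.card := rfl
    rw [hr1, hr2] at hlt
    have h0 := TB_d_apply t (Finsupp.single i.1 ((sfKB t).b i.2)) j.1
    have h1 : (TB t).d (Finsupp.single i.1 ((sfKB t).b i.2)) j.1 j.2.1 = 0 := by
      rw [h0, Pi.add_apply, Finset.sum_apply]
      have e1 : (KB t).d (Finsupp.single i.1 ((sfKB t).b i.2) j.1) j.2.1 = 0 := by
        rw [Finsupp.single_apply]
        by_cases h : i.1 = j.1
        · rw [if_pos h, hb]
          refine cisf_KD_zero t (monomial i.2.2 1) ?_
          rw [h] at hlt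
          omega
        · rw [if_neg h, map_zero]
          rfl
      rw [e1, zero_add]
      refine Finset.sum_eq_zero fun l _ => ?_
      rw [Finsupp.single_apply]
      by_cases h : i.1 = j.1 + Finsupp.single l 1
      · rw [if_pos h, hb]
        refine cisf_KS_zero (t.g l) (monomial i.2.2 1) ?_
        rw [h, map_add, Finsupp.degree_single] at hlt
        omega
      · rw [if_neg h, map_zero]
        rfl
    exact h1

end MP8a
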