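import Pool.Agent.Lib_MP_8a48ad_gt.CIKos

/-! # Piece CITATE1: adjoining one divided power variable -/

set_option autoImplicit false

namespace MP8a

variable {Q : Type*} [CommRing Q] {T : Type*} [AddCommGroup T] [Module Q T]

/-- `ℕ →₀ V` with the operator `b ↦ (n ↦ D (b n) + S (b (n + 1)))` -/
noncomputable def TD1 {V : Type*} [AddCommGroup V] [Module Q V] (D S : V →ₗ[Q] V) : (ℕ →₀ V) →ₗ[Q] (ℕ →₀ V) :=
  Finsupp.mapRange.linearMap D +
    Finsupp.mapRange.linearMap S ∘ₗ Finsupp.lcomapDomain (fun n => n + 1) (add_left_injective 1)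

theorem TD1_apply {V : Type*} [AddCommGroup V] [Module Q V] (D S : V →ₗ[Q] V) (b : ℕ →₀ V) (n : ℕ) :
    TD1 D S b n = D (b n) + S (b (n + 1)) := rfl

private theorem tate1_single {V : Type*} [AddCommGroup V] [Module Q V] (D S : V →ₗ[Q] V) (n : ℕ) (z : V) :
    TD1 D S (Finsupp.single (n + 1) z) = Finsupp.single (n + 1) (D z) + Finsupp.single n (S z) := by
  ext i
  rw [TD1_apply, Finsupp.add_apply]
  congr 1
  · by_cases h : n + 1 = i
    · subst h
      rw [Finsupp.single_eq_same, Finsupp.single_eq_same]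
    · rw [Finsupp.single_eq_of_ne (Ne.symm h), Finsupp.single_eq_of_ne (Ne.symm h), map_zero]
  · by_cases h : n = i
    · subst h
      rw [Finsupp.single_eq_same, Finsupp.single_eq_same]
    · have h' : n + 1 ≠ i + 1 := fun e => h (Nat.succ_injective e)
      rw [Finsupp.single_eq_of_ne (Ne.symm h), Finsupp.single_eq_of_ne (Ne.symm h'), map_zero]

/-- Adjoining a divided power variable: `V = T/fT`, `D S + S D = f`, `S^2 = 0`, `f` regular on `T`. Every cycle of `(T/fT)<y>` is, up to a boundary, the image of a cycle of `T`.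

PROOF. Note first: (*) if `D v = f v'` in `T` then `f D v' = D D v = 0`, so `D v' = 0`, and `D (v - S v') = f v' - D S v' = S D v' = 0`.
Let `b = ∑ b_n y^n` (`b n = r (v_n)`, `v_n ∈ T`) be a cycle with `b_n = 0` for `n > M`. `D v_M = f v'`; subtract the boundary of `r(v') y^(M+1)` (which is `r(S v') y^M`, because
`D v' = 0`): `b_M` becomes `r (v_M - S v')`, so we may suppose `D v_M = 0` in `T`. If `M > 0`: `D v_(M-1) + S v_M = f v''`; applying `D`: `D S v_M = f v_M` (because
`D v_M = 0`), so `f v_M = f D v''`, `v_M = D v''`; subtract the boundary of `r(v'') y^M`, which is `r(v_M) y^M + r(S v'') y^(M-1)`: now `b_M = 0`. By induction on `M` we arrive at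
`M = 0`, `D v_0 = 0`. -/
theorem tate_one (D S : T →ₗ[Q] T) (f : Q) (hD : ∀ v, D (D v) = 0) (hS : ∀ v, S (S v) = 0)
    (hDS : ∀ v, D (S v) + S (D v) = f • v) (hreg : ∀ v : T, f • v = 0 → v = 0)
    {V : Type*} [AddCommGroup V] [Module Q V] (r : T →ₗ[Q] V) (hr : Function.Surjective r)
    (hker : ∀ v, r v = 0 ↔ ∃ w, v = f • w) (D' S' : V →ₗ[Q] V) (hrD : ∀ v, r (D v) = D' (r v))
    (hrS : ∀ v, r (S v) = S' (r v)) (b : ℕ →₀ V) (hb : TD1 D' S' b = 0) :
    ∃ (v : T) (b' : ℕ →₀ V), D v = 0 ∧ b = Finsupp.single 0 (r v) + TD1 D' S' b' := by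
  -- the operator squares to zero
  have hsq : ∀ c : ℕ →₀ V, TD1 D' S' (TD1 D' S' c) = 0 := by
    intro c
    ext n
    rw [TD1_apply, TD1_apply, TD1_apply, Finsupp.zero_apply, LinearMap.map_add, LinearMap.map_add]
    obtain ⟨x, hx⟩ := hr (c n)
    obtain ⟨y, hy⟩ := hr (c (n + 1))
    obtain ⟨z, hz⟩ := hr (c (n + 1 + 1))
    rw [← hx, ← hy, ← hz]
    simp only [← hrD, ← hrS, hD, hS, map_zero, zero_add, add_zero]
    rw [← map_add, hDS]
    exact (hker _).2 ⟨y, rfl⟩
  -- induction on the length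
  have key : ∀ (M : ℕ) (b : ℕ →₀ V), TD1 D' S' b = 0 → (∀ n, M < n → b n = 0) →
      ∃ (v : T) (b' : ℕ →₀ V), D v = 0 ∧ b = Finsupp.single 0 (r v) + TD1 D' S' b' := by
    intro M
    induction M with
    | zero =>
      intro b hb h0
      obtain ⟨v, hv⟩ := hr (b 0)
      have h1 : D' (b 0) + S' (b (0 + 1)) = 0 := by
        rw [← TD1_apply, hb, Finsupp.zero_apply]
      rw [h0 (0 + 1) (by omega), LinearMap.map_zero, add_zero, ← hv, ← hrD] at h1
      obtain ⟨v', hv'⟩ := (hker _).1 h1
      have h2 : D v' = 0 := by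
        apply hreg
        rw [← map_smul, ← hv', hD]
      have h3 : D (v - S v') = 0 := by
        have h4 := hDS v'
        rw [h2, map_zero, add_zero] at h4
        rw [map_sub, hv', h4, sub_self]
      refine ⟨v - S v', Finsupp.single (0 + 1) (r v'), h3, ?_⟩
      rw [tate1_single, ← hrD, h2, map_zero, Finsupp.single_zero, zero_add, ← Finsupp.single_add, ← hrS,
        ← map_add, sub_add_cancel, hv]
      ext n
      cases n with
      | zero => rw [Finsupp.single_eq_same]
      | succ n => rw [h0 (n + 1) (by omega), Finsupp.single_eq_of_ne (by omega)]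
    | succ m ih =>
      intro b hb h0
      obtain ⟨v, hv⟩ := hr (b (m + 1))
      have h1 : D' (b (m + 1)) + S' (b (m + 1 + 1)) = 0 := by
        rw [← TD1_apply, hb, Finsupp.zero_apply]
      rw [h0 (m + 1 + 1) (by omega), LinearMap.map_zero, add_zero, ← hv, ← hrD] at h1
      obtain ⟨v', hv'⟩ := (hker _).1 h1
      have h2 : D v' = 0 := by
        apply hreg
        rw [← map_smul, ← hv', hD]
      have h3 : D (v - S v') = 0 := by
        have h4 := hDS v'
        rw [h2, map_zero, add_zero] at h4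
        rw [map_sub, hv', h4, sub_self]
      -- first correction
      obtain ⟨b1, hb1⟩ : ∃ b1, b1 = b - TD1 D' S' (Finsupp.single (m + 1 + 1) (r v')) := ⟨_, rfl⟩
      have hb1c : TD1 D' S' b1 = 0 := by rw [hb1, map_sub, hb, hsq, sub_zero]
      have hT1 : TD1 D' S' (Finsupp.single (m + 1 + 1) (r v')) = Finsupp.single (m + 1) (r (S v')) := by
        rw [tate1_single, ← hrD, h2, map_zero, Finsupp.single_zero, zero_add, ← hrS]
      have hb1m : b1 (m + 1) = r (v - S v') := by
        rw [hb1, Finsupp.sub_apply, hT1, Finsupp.single_eq_same, ← hv, map_sub]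
      have hb1z : ∀ n, m + 1 < n → b1 n = 0 := by
        intro n hn
        rw [hb1, Finsupp.sub_apply, hT1, Finsupp.single_eq_of_ne (by omega), h0 n hn, sub_zero]
      -- second correction
      obtain ⟨u, hu⟩ := hr (b1 m)
      have h5 : D' (b1 m) + S' (b1 (m + 1)) = 0 := by
        rw [← TD1_apply, hb1c, Finsupp.zero_apply]
      rw [hb1m, ← hu, ← hrD, ← hrS, ← map_add] at h5
      obtain ⟨v2, hv2⟩ := (hker _).1 h5
      have h6 : v - S v' = D v2 := by
        rw [← sub_eq_zero]
        apply hreg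
        have h7 := congrArg D hv2
        rw [map_add, hD, zero_add, map_smul] at h7
        have h8 := hDS (v - S v')
        rw [h3, map_zero, add_zero] at h8
        rw [smul_sub, ← h8, h7, sub_self]
      obtain ⟨b2, hb2⟩ : ∃ b2, b2 = b1 - TD1 D' S' (Finsupp.single (m + 1) (r v2)) := ⟨_, rfl⟩
      have hb2c : TD1 D' S' b2 = 0 := by rw [hb2, map_sub, hb1c, hsq, sub_zero]
      have hb2z : ∀ n, m < n → b2 n = 0 := by
        intro n hn
        rw [hb2, Finsupp.sub_apply, tate1_single, Finsupp.add_apply, Finsupp.single_eq_of_ne (a := m) (by omega),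
          add_zero]
        by_cases hnm : n = m + 1
        · subst hnm
          rw [Finsupp.single_eq_same, hb1m, ← hrD, ← h6, sub_self]
        · rw [Finsupp.single_eq_of_ne hnm, hb1z n (by omega), sub_zero]
      obtain ⟨w, b', hw, hb'⟩ := ih b2 hb2c hb2z
      refine ⟨w, b' + Finsupp.single (m + 1) (r v2) + Finsupp.single (m + 1 + 1) (r v'), hw, ?_⟩
      rw [map_add, map_add, ← add_assoc, ← add_assoc, ← hb', hb2, sub_add_cancel, hb1, sub_add_cancel]
  obtain ⟨M, hM⟩ : ∃ M : ℕ, ∀ n, M < n → b n = 0 := by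
    refine ⟨b.support.sup id, fun n hn => ?_⟩
    by_contra h
    have h1 : n ≤ b.support.sup id := Finset.le_sup (f := id) (Finsupp.mem_support_iff.2 h)
    omega
  exact key M b hb hM

end MP8a
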