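import Pool.Agent.Lib_MP_8a48ad_gt.CISF

/-! # Piece CITH: the operators `∑ ρ(β) χ^β` and homotopies on `TB` -/

set_option autoImplicit false

namespace MP8a

open MvPolynomial

universe u

variable {R : Type u} [CommRing R] {GR : Gr R} {n N c : ℕ}

/-- the operator `∑_β ρ(β) χ^β` on `TB`: `v y^γ ↦ ∑_(β + β' = γ) ρ(β) v y^β'` -/
noncomputable def Th (t : TData GR n N c) (ρ : (Fin c →₀ ℕ) → R) : (TB t).X →ₗ[R] (TB t).X :=
  Finsupp.lsum R (fun γ => ∑ x ∈ Finset.HasAntidiagonal.antidiagonal γ,
    ρ x.1 • (Finsupp.lsingle x.2 : (KB t).X →ₗ[R] (TB t).X))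

/-- shifting the second index of an antidiagonal -/
private theorem cith_key {W : Type*} [AddCommMonoid W] (f : (Fin c →₀ ℕ) → (Fin c →₀ ℕ) → W)
    (γ : Fin c →₀ ℕ) (j : Fin c) :
    ∑ x ∈ Finset.HasAntidiagonal.antidiagonal γ,
        (if x.2 j = 0 then 0 else f x.1 (x.2 - Finsupp.single j 1)) =
      if γ j = 0 then 0 else
        ∑ x ∈ Finset.HasAntidiagonal.antidiagonal (γ - Finsupp.single j 1), f x.1 x.2 := by
  classical
  have hsub : ∀ {δ : Fin c →₀ ℕ}, δ j ≠ 0 → δ - Finsupp.single j 1 + Finsupp.single j 1 = δ := by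
    intro δ h
    refine tsub_add_cancel_of_le ?_
    rw [Finsupp.single_le_iff]
    exact Nat.one_le_iff_ne_zero.2 h
  by_cases hγ : γ j = 0
  · rw [if_pos hγ]
    refine Finset.sum_eq_zero fun x hx => ?_
    rw [Finset.HasAntidiagonal.mem_antidiagonal] at hx
    have h1 : x.1 j + x.2 j = γ j := by
      rw [← hx, Finsupp.add_apply]
    rw [if_pos (by omega)]
  · rw [if_neg hγ]
    have e1 : ∑ x ∈ Finset.HasAntidiagonal.antidiagonal γ,
        (if x.2 j = 0 then 0 else f x.1 (x.2 - Finsupp.single j 1)) =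
        ∑ x ∈ (Finset.HasAntidiagonal.antidiagonal γ).filter (fun x => x.2 j ≠ 0),
          f x.1 (x.2 - Finsupp.single j 1) := by
      rw [Finset.sum_filter]
      refine Finset.sum_congr rfl fun x _ => ?_
      by_cases h : x.2 j = 0
      · rw [if_pos h, if_neg (fun h' => h' h)]
      · rw [if_neg h, if_pos h]
    rw [e1]
    refine Finset.sum_nbij' (fun x => (x.1, x.2 - Finsupp.single j 1))
      (fun x => (x.1, x.2 + Finsupp.single j 1)) ?_ ?_ ?_ ?_ ?_
    · intro x hx
      rw [Finset.mem_filter, Finset.HasAntidiagonal.mem_antidiagonal] at hx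
      rw [Finset.HasAntidiagonal.mem_antidiagonal]
      have h2 := hsub hx.2
      have h3 : x.1 + (x.2 - Finsupp.single j 1) + Finsupp.single j 1 =
          γ - Finsupp.single j 1 + Finsupp.single j 1 := by
        rw [add_assoc, h2, hx.1, hsub hγ]
      exact add_right_cancel h3
    · intro x hx
      rw [Finset.HasAntidiagonal.mem_antidiagonal] at hx
      rw [Finset.mem_filter, Finset.HasAntidiagonal.mem_antidiagonal]
      refine ⟨?_, ?_⟩
      · change x.1 + (x.2 + Finsupp.single j 1) = γ
        rw [← add_assoc, hx, hsub hγ]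
      · change (x.2 + Finsupp.single j 1 : Fin c →₀ ℕ) j ≠ 0
        rw [Finsupp.add_apply, Finsupp.single_eq_same]
        exact Nat.succ_ne_zero _
    · intro x hx
      rw [Finset.mem_filter] at hx
      exact Prod.ext rfl (hsub hx.2)
    · intro x _
      exact Prod.ext rfl (add_tsub_cancel_right _ _)
    · intro x _
      rfl

private theorem cith_dy_add (t : TData GR n N c) (γ δ : Fin c →₀ ℕ) :
    t.dy (γ + δ) = t.dy γ + t.dy δ := by
  unfold TData.dy
  rw [← Finset.sum_add_distrib]
  refine Finset.sum_congr rfl fun j _ => ?_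
  rw [Finsupp.add_apply]
  push_cast
  ring

private theorem cith_pr_single (t : TData GR n N c) (γ : Fin c →₀ ℕ) (i : ℤ) (v : (KB t).X) :
    (TB t).pr i (Finsupp.single γ v) = Finsupp.single γ ((KB t).pr (i - t.dy γ) v) := by
  have h := TB_pr_lsingle t γ (i - t.dy γ) v
  rw [sub_add_cancel] at h
  exact h

theorem Th_single (t : TData GR n N c) (ρ : (Fin c →₀ ℕ) → R) (γ : Fin c →₀ ℕ) (v : (KB t).X) :
    Th t ρ (Finsupp.single γ v) =
      ∑ x ∈ Finset.HasAntidiagonal.antidiagonal γ, ρ x.1 • Finsupp.single x.2 v := by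
  unfold Th
  rw [Finsupp.lsum_single, LinearMap.sum_apply]
  rfl

/-- composition with a linear map -/
theorem comp_Th_single (t : TData GR n N c) {M : Type u} [AddCommGroup M] [Module R M]
    (z : (TB t).X →ₗ[R] M) (ρ : (Fin c →₀ ℕ) → R) (γ : Fin c →₀ ℕ) :
    (z ∘ₗ Th t ρ) ∘ₗ Finsupp.lsingle γ =
      ∑ x ∈ Finset.HasAntidiagonal.antidiagonal γ, ρ x.1 • (z ∘ₗ Finsupp.lsingle x.2) := by
  refine LinearMap.ext fun v => ?_
  rw [LinearMap.comp_apply, LinearMap.comp_apply, Finsupp.lsingle_apply, Th_single, map_sum,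
    LinearMap.sum_apply]
  refine Finset.sum_congr rfl fun x _ => ?_
  rw [map_smul]
  rfl

/-- PROOF. Check on `single γ v`. Homogeneity: `TB_pr_lsingle`, `dy` is additive. Differential: `TB_d_lsingle` (or: the coefficient of `y^γ` of `Th t ρ b` is `∑_β ρ(β) b(γ + β)`, and use
`TB_d_apply`). -/
theorem isMor_Th (t : TData GR n N c) (ρ : (Fin c →₀ ℕ) → R) (e : ℤ)
    (hρ : ∀ β, GR.c (e + t.dy β) (ρ β) = ρ β) : IsMor (TB t) (TB t) e (Th t ρ) := by
  constructor
  · intro i b
    induction b using Finsupp.induction_linear with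
    | zero => rw [map_zero, map_zero, map_zero, map_zero]
    | add b b' hb hb' => rw [map_add, map_add, map_add, map_add, hb, hb']
    | single γ v =>
      rw [Th_single, cith_pr_single, Th_single, map_sum]
      refine Finset.sum_congr rfl fun x hx => ?_
      rw [Finset.HasAntidiagonal.mem_antidiagonal] at hx
      rw [(TB t).pr_smul' (hρ x.1), cith_pr_single]
      have h2 : i + e - (e + t.dy x.1) - t.dy x.2 = i - t.dy γ := by
        rw [← hx, cith_dy_add]
        ring
      rw [h2]
  · intro b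
    induction b using Finsupp.induction_linear with
    | zero => rw [map_zero, map_zero, map_zero]
    | add b b' hb hb' => rw [map_add, map_add, map_add, map_add, hb, hb']
    | single γ v =>
      rw [Th_single, TB_d_lsingle, map_add, map_sum, map_sum, Th_single]
      have e1 : ∀ x ∈ Finset.HasAntidiagonal.antidiagonal γ,
          (TB t).d (ρ x.1 • (Finsupp.single x.2 v : (TB t).X)) =
            ρ x.1 • (Finsupp.single x.2 ((KB t).d v) : (TB t).X) +
            ∑ j, (if x.2 j = 0 then 0 else
              ρ x.1 • (Finsupp.single (x.2 - Finsupp.single j 1) (KS (t.g j) v) : (TB t).X)) := by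
        intro x _
        rw [map_smul, TB_d_lsingle, smul_add, Finset.smul_sum]
        congr 1
        refine Finset.sum_congr rfl fun j _ => ?_
        by_cases h : x.2 j = 0
        · rw [if_pos h, if_pos h, smul_zero]
        · rw [if_neg h, if_neg h]
      rw [Finset.sum_congr rfl e1, Finset.sum_add_distrib, Finset.sum_comm]
      congr 1
      refine Finset.sum_congr rfl fun j _ => ?_
      rw [cith_key (fun α β => ρ α • (Finsupp.single β (KS (t.g j) v) : (TB t).X)) γ j]
      by_cases h : γ j = 0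
      · rw [if_pos h, if_pos h, map_zero]
      · rw [if_neg h, if_neg h, Th_single]

/-- The homotopy with components `H_γ : KB → M`: homogeneity. -/
theorem lsum_hom (t : TData GR n N c) {M : DGM GR} (e : ℤ) (H : (Fin c →₀ ℕ) → ((KB t).X →ₗ[R] M.X))
    (hH : ∀ γ i x, M.pr (i + (e + t.dy γ)) (H γ x) = H γ ((KB t).pr i x)) (i : ℤ) (b : (TB t).X) :
    M.pr (i + e) (Finsupp.lsum R H b) = Finsupp.lsum R H ((TB t).pr i b) := by
  induction b using Finsupp.induction_linear with
  | zero => rw [map_zero, map_zero, map_zero, map_zero]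
  | add b b' hb hb' => rw [map_add, map_add, map_add, map_add, hb, hb']
  | single γ v =>
    rw [cith_pr_single, Finsupp.lsum_single, Finsupp.lsum_single]
    have h := hH γ (i - t.dy γ) v
    have h2 : i - t.dy γ + (e + t.dy γ) = i + e := by ring
    rw [h2] at h
    exact h

/-- The boundary of the homotopy with components `H_γ`, on `v y^γ`. -/
theorem lsum_d_single (t : TData GR n N c) {M : DGM GR} (H : (Fin c →₀ ℕ) → ((KB t).X →ₗ[R] M.X))
    (γ : Fin c →₀ ℕ) (v : (KB t).X) :
    M.d (Finsupp.lsum R H (Finsupp.single γ v)) + Finsupp.lsum R H ((TB t).d (Finsupp.single γ v)) =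
      M.d (H γ v) + H γ ((KB t).d v) +
        ∑ j, if γ j = 0 then 0 else H (γ - Finsupp.single j 1) (KS (t.g j) v) := by
  rw [TB_d_lsingle, map_add, map_sum, Finsupp.lsum_single, Finsupp.lsum_single, ← add_assoc]
  congr 1
  refine Finset.sum_congr rfl fun j _ => ?_
  by_cases h : γ j = 0
  · rw [if_pos h, if_pos h, map_zero]
  · rw [if_neg h, if_neg h, Finsupp.lsum_single]

end MP8a
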