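import Pool.Agent.Lib_MP_8a48ad_gt.Refl
import Pool.Agent.Lib_MP_8a48ad_gt.InvSetup

/-! # Piece CHEVA: the lemma of Chevalley on invariants of reflection groups -/

set_option autoImplicit false

namespace MP8a

universe u

variable {k : Type u} [Field k] {n : ℕ} {L : Type*} [Group L] [Finite L]

/-- `L` acts as a group generated by reflections. -/
def ReflGen (ρ : L →* GL (Fin n) k) : Prop :=
  ∀ w, ρ w ∈ Subgroup.closure {g : GL (Fin n) k | ∃ s, g = ρ s ∧ IsRefl (g : Matrix (Fin n) (Fin n) k)}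

/-- The ideal of `S` generated by the invariants of positive degree. -/
noncomputable def hilbI (ρ : L →* GL (Fin n) k) : Ideal (Sn k n) :=
  Ideal.span {s | s ∈ invA ρ ∧ MvPolynomial.constantCoeff s = 0}

omit [Finite L] in
private theorem chev_fix [Fintype L] (ρ : L →* GL (Fin n) k) (s : Sn k n) :
    (∑ w, linAct (ρ w : Matrix (Fin n) (Fin n) k) s) ∈ invA ρ := by
  intro v
  rw [map_sum]
  have h1 : ∀ w, linAct (ρ v : Matrix (Fin n) (Fin n) k) (linAct (ρ w : Matrix (Fin n) (Fin n) k) s) =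
      linAct (ρ (v * w) : Matrix (Fin n) (Fin n) k) s := by
    intro w
    rw [map_mul, Units.val_mul, linAct_mul]
  rw [Finset.sum_congr rfl fun w _ => h1 w]
  exact Fintype.sum_equiv (Equiv.mulLeft v) _ _ fun w => rfl

omit [Finite L] in
private theorem chev_stable (ρ : L →* GL (Fin n) k) (w : L) {x : Sn k n} (hx : x ∈ hilbI ρ) :
    linAct (ρ w : Matrix (Fin n) (Fin n) k) x ∈ hilbI ρ := by
  have h1 : hilbI ρ ≤ (hilbI ρ).comap (linAct (ρ w : Matrix (Fin n) (Fin n) k)).toRingHom := by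
    refine Ideal.span_le.2 ?_
    intro s hs
    have h2 : linAct (ρ w : Matrix (Fin n) (Fin n) k) s = s := hs.1 w
    change linAct (ρ w : Matrix (Fin n) (Fin n) k) s ∈ hilbI ρ
    rw [h2]
    exact Ideal.subset_span hs
  exact h1 hx

private theorem chev_scalar {N : k} (hN : N ≠ 0) (I : Ideal (Sn k n)) {x : Sn k n}
    (h : MvPolynomial.C N * x ∈ I) : x ∈ I := by
  have h1 := I.mul_mem_left (MvPolynomial.C N⁻¹) h
  rw [← mul_assoc, ← map_mul, inv_mul_cancel₀ hN, map_one, one_mul] at h1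
  exact h1

private theorem chev_ind (hL : (Nat.card L : k) ≠ 0) (ρ : L →* GL (Fin n) k) (hr : ReflGen ρ) (m : ℕ)
    (t : Fin (m + 1) → Sn k n)
    (ht : ∀ i, t i ∈ invA ρ)
    (h0 : ∀ c : Fin m → Sn k n, (∀ i, c i ∈ invA ρ) → t 0 ≠ ∑ i : Fin m, c i * t i.succ) (d : ℕ) :
    ∀ (y : Fin (m + 1) → Sn k n), (y 0).IsHomogeneous d →
    ∑ i, t i * y i = 0 → y 0 ∈ hilbI ρ := by
  induction d with
  | zero =>
    intro y hy h
    obtain ⟨r, hr1, _⟩ := reynolds hL ρ
    obtain ⟨c, hc⟩ : ∃ c : k, y 0 = MvPolynomial.C c := by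
      refine ⟨_, MvPolynomial.totalDegree_eq_zero_iff_eq_C.1 ?_⟩
      exact Nat.le_zero.1 hy.totalDegree_le
    by_cases hc0 : c = 0
    · rw [hc, hc0, map_zero]
      exact Ideal.zero_mem _
    · exfalso
      have h1 : ∀ i, r (t i * y i) = (⟨t i, ht i⟩ : invA ρ) * r (y i) := by
        intro i
        have h2 : t i * y i = (⟨t i, ht i⟩ : invA ρ) • y i := rfl
        rw [h2, map_smul, smul_eq_mul]
      have h2 : r (y 0) = algebraMap k (invA ρ) c := by
        have h3 : y 0 = (algebraMap k (invA ρ) c) • (1 : Sn k n) := by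
          rw [hc, Algebra.smul_def, mul_one]
          rfl
        rw [h3, map_smul, hr1, smul_eq_mul, mul_one]
      have h3 := congrArg r h
      rw [map_sum, map_zero, Finset.sum_congr rfl fun i _ => h1 i, Fin.sum_univ_succ, h2] at h3
      have h4 := congrArg (Subtype.val) h3
      rw [AddMemClass.coe_add, MulMemClass.coe_mul, AddSubmonoidClass.coe_finsetSum] at h4
      refine h0 (fun i => -(MvPolynomial.C c⁻¹ * (r (y i.succ) : Sn k n))) (fun i => ?_) ?_
      · exact (invA ρ).neg_mem ((invA ρ).mul_mem ((invA ρ).algebraMap_mem c⁻¹) (r (y i.succ)).2)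
      · have h5 : t 0 * MvPolynomial.C c + ∑ i : Fin m, t i.succ * (r (y i.succ) : Sn k n) = 0 := h4
        have h6 : MvPolynomial.C c⁻¹ * MvPolynomial.C c = (1 : Sn k n) := by
          rw [← map_mul, inv_mul_cancel₀ hc0, map_one]
        have h7 : ∑ i : Fin m, -(MvPolynomial.C c⁻¹ * (r (y i.succ) : Sn k n)) * t i.succ =
            -(MvPolynomial.C c⁻¹ * ∑ i : Fin m, t i.succ * (r (y i.succ) : Sn k n)) := by
          rw [Finset.mul_sum, ← Finset.sum_neg_distrib]
          exact Finset.sum_congr rfl fun i _ => by ring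
        rw [h7]
        linear_combination (-t 0) * h6 + MvPolynomial.C c⁻¹ * h5
  | succ d ih =>
    intro y hy h
    cases nonempty_fintype L
    have key : ∀ g : GL (Fin n) k, g ∈ Subgroup.closure {g : GL (Fin n) k | ∃ s, g = ρ s ∧
        IsRefl (g : Matrix (Fin n) (Fin n) k)} →
        (∃ w, g = ρ w) ∧ linAct (g : Matrix (Fin n) (Fin n) k) (y 0) - y 0 ∈ hilbI ρ := by
      intro g hg
      induction hg using Subgroup.closure_induction with
      | mem g hg =>
        obtain ⟨s, hs, hrefl⟩ := hg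
        refine ⟨⟨s, hs⟩, ?_⟩
        obtain ⟨α, Δ, h1, h2, h3, _⟩ := exists_Delta hrefl
        rw [h1]
        refine Ideal.mul_mem_left _ _ (ih (fun i => Δ (y i)) (h3 d (y 0) hy) ?_)
        have h4 : ∀ i, t i * Δ (y i) = Δ (t i * y i) := by
          intro i
          rw [h2]
          rw [hs]
          exact ht i s
        rw [Finset.sum_congr rfl fun i _ => h4 i, ← map_sum, h, map_zero]
      | one =>
        refine ⟨⟨1, (map_one ρ).symm⟩, ?_⟩
        rw [Units.val_one, linAct_one, sub_self]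
        exact Ideal.zero_mem _
      | mul a b _ _ ha hb =>
        obtain ⟨⟨wa, hwa⟩, ha2⟩ := ha
        obtain ⟨⟨wb, hwb⟩, hb2⟩ := hb
        refine ⟨⟨wa * wb, by rw [map_mul, hwa, hwb]⟩, ?_⟩
        have h1 : linAct ((a * b : GL (Fin n) k) : Matrix (Fin n) (Fin n) k) (y 0) - y 0 =
            linAct (a : Matrix (Fin n) (Fin n) k)
              (linAct (b : Matrix (Fin n) (Fin n) k) (y 0) - y 0) +
            (linAct (a : Matrix (Fin n) (Fin n) k) (y 0) - y 0) := by
          rw [Units.val_mul, linAct_mul, map_sub]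
          ring
        rw [h1]
        refine Ideal.add_mem _ ?_ ha2
        rw [hwa]
        exact chev_stable ρ wa hb2
      | inv a _ ha =>
        obtain ⟨⟨wa, hwa⟩, ha2⟩ := ha
        refine ⟨⟨wa⁻¹, by rw [map_inv, hwa]⟩, ?_⟩
        have h1 : linAct ((a⁻¹ : GL (Fin n) k) : Matrix (Fin n) (Fin n) k) (y 0) - y 0 =
            -linAct ((a⁻¹ : GL (Fin n) k) : Matrix (Fin n) (Fin n) k)
              (linAct (a : Matrix (Fin n) (Fin n) k) (y 0) - y 0) := by
          rw [map_sub, ← linAct_mul, ← Units.val_mul, inv_mul_cancel, Units.val_one, linAct_one]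
          ring
        rw [h1]
        refine (hilbI ρ).neg_mem ?_
        have h2 : a⁻¹ = ρ wa⁻¹ := by rw [map_inv, hwa]
        rw [h2]
        exact chev_stable ρ wa⁻¹ ha2
    have h1 : ∀ w, linAct (ρ w : Matrix (Fin n) (Fin n) k) (y 0) - y 0 ∈ hilbI ρ :=
      fun w => (key (ρ w) (hr w)).2
    have h2 : (∑ w, linAct (ρ w : Matrix (Fin n) (Fin n) k) (y 0)) ∈ hilbI ρ := by
      refine Ideal.subset_span ⟨chev_fix ρ (y 0), ?_⟩
      have h3 : (∑ w, linAct (ρ w : Matrix (Fin n) (Fin n) k) (y 0)).IsHomogeneous (d + 1) :=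
        MvPolynomial.IsHomogeneous.sum _ _ _ fun w _ => linAct_hom _ hy
      rw [MvPolynomial.constantCoeff_eq]
      by_contra hne
      have h4 := h3 hne
      simp at h4
    refine chev_scalar hL (hilbI ρ) ?_
    have h3 : MvPolynomial.C (Nat.card L : k) * y 0 =
        (∑ w, linAct (ρ w : Matrix (Fin n) (Fin n) k) (y 0)) -
          ∑ w, (linAct (ρ w : Matrix (Fin n) (Fin n) k) (y 0) - y 0) := by
      rw [Finset.sum_sub_distrib, Finset.sum_const, Finset.card_univ, nsmul_eq_mul,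
        Nat.card_eq_fintype_card, map_natCast]
      ring
    rw [h3]
    exact (hilbI ρ).sub_mem h2 (Ideal.sum_mem _ fun w _ => h1 w)

/-- PIECE CHEVA (Chevalley). If `t_0, …, t_m` are homogeneous invariants with `t_0 ∉ (t_1, …, t_m) T` (`T` the ring of invariants), `y_i` are homogeneous and `∑ t_i y_i = 0`, then `y_0 ∈ hilbI`.
PROOF. Induction on the degree `D` of `y_0` (all `t_i y_i` of the same degree: replace each `y_i` by its component of the right degree first; this is the hypothesis `deg`). `D = 0`: `y_0 = C c`; if `c ≠ 0` apply the averaging operator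
(`reynolds`; `T`-linear): `t_0 c + ∑_{i ≥ 1} t_i r(y_i) = 0`, contradiction. `D > 0`: for a reflection `s` apply `Δ_s` (`exists_Delta`): `∑ t_i Δ_s(y_i) = 0`, so `Δ_s y_0 ∈ hilbI` by induction, hence `s y_0 - y_0 ∈ hilbI`. As `hilbI` is stable under `L`,
the `w ∈ L` with `w y_0 - y_0 ∈ hilbI` form a subgroup, so it is all of `L`; so `y_0` is congruent to its average, an invariant of positive degree. -/
theorem chev_lemma (hL : (Nat.card L : k) ≠ 0) (ρ : L →* GL (Fin n) k) (hr : ReflGen ρ) (m : ℕ)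
    (t : Fin (m + 1) → Sn k n) (y : Fin (m + 1) → Sn k n) (dt dy : Fin (m + 1) → ℕ) (D : ℕ)
    (ht : ∀ i, t i ∈ invA ρ) (ht1 : ∀ i, (t i).IsHomogeneous (dt i)) (hy : ∀ i, (y i).IsHomogeneous (dy i))
    (deg : ∀ i, dt i + dy i = D ∨ t i = 0 ∨ y i = 0)
    (h0 : ∀ c : Fin m → Sn k n, (∀ i, c i ∈ invA ρ) → t 0 ≠ ∑ i : Fin m, c i * t i.succ)
    (h : ∑ i, t i * y i = 0) : y 0 ∈ hilbI ρ := by
  exact chev_ind hL ρ hr m t ht h0 (dy 0) y (hy 0) h

end MP8a
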