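import Pool.Agent.Lib_MP_8a48ad_gt.Chev

/-! # Piece CHEVB: `S` is free over the invariants of a reflection group (Chevalley) -/

set_option autoImplicit false

namespace MP8a

universe u

variable {k : Type u} [Field k] {n : ℕ} {L : Type*} [Group L] [Finite L]

omit [Finite L] in
private theorem cf_inv (ρ : L →* GL (Fin n) k) (d : ℕ) {t : Sn k n} (ht : t ∈ invA ρ) :
    MvPolynomial.homogeneousComponent d t ∈ invA ρ := by
  intro w
  rw [← linAct_comp, ht w]

private theorem cf_mul_hom (D q : ℕ) (t e : Sn k n) (he : e.IsHomogeneous q) :
    MvPolynomial.homogeneousComponent D (t * e) =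
      if q ≤ D then MvPolynomial.homogeneousComponent (D - q) t * e else 0 := by
  have h0 : t * e = ∑ p ∈ Finset.range (t.totalDegree + 1),
      MvPolynomial.homogeneousComponent p t * e := by
    rw [← Finset.sum_mul, MvPolynomial.sum_homogeneousComponent]
  rw [h0, map_sum]
  have h : ∀ p ∈ Finset.range (t.totalDegree + 1), MvPolynomial.homogeneousComponent D
      (MvPolynomial.homogeneousComponent p t * e) =
      if D = p + q then MvPolynomial.homogeneousComponent p t * e else 0 := by
    intro p _
    exact MvPolynomial.homogeneousComponent_of_mem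
      ((MvPolynomial.homogeneousComponent_isHomogeneous p t).mul he)
  rw [Finset.sum_congr rfl h]
  by_cases hq : q ≤ D
  · rw [if_pos hq]
    have h2 : ∀ p ∈ Finset.range (t.totalDegree + 1),
        (if D = p + q then MvPolynomial.homogeneousComponent p t * e else 0) =
        if p = D - q then MvPolynomial.homogeneousComponent (D - q) t * e else 0 := by
      intro p _
      by_cases hp : p = D - q
      · rw [if_pos hp, if_pos (by omega), hp]
      · rw [if_neg hp, if_neg (by omega)]
    rw [Finset.sum_congr rfl h2, Finset.sum_ite_eq']
    by_cases hD : D - q ∈ Finset.range (t.totalDegree + 1)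
    · rw [if_pos hD]
    · rw [if_neg hD, MvPolynomial.homogeneousComponent_eq_zero, zero_mul]
      rw [Finset.mem_range] at hD
      omega
  · rw [if_neg hq]
    refine Finset.sum_eq_zero fun p _ => ?_
    rw [if_neg (by omega)]

omit [Finite L] in
private theorem cf_pos (ρ : L →* GL (Fin n) k) {t : Sn k n} (ht : t ∈ invA ρ) :
    t - MvPolynomial.C (MvPolynomial.constantCoeff t) ∈ hilbI ρ := by
  refine Ideal.subset_span ⟨(invA ρ).sub_mem ht ((invA ρ).algebraMap_mem _), ?_⟩
  rw [map_sub, MvPolynomial.constantCoeff_C, sub_self]

/-- the projection on `S / hilbI`, as a `k`-linear map -/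
private noncomputable def cfPi (ρ : L →* GL (Fin n) k) :
    Sn k n →ₗ[k] (Sn k n ⧸ ((hilbI ρ).restrictScalars k)) :=
  ((hilbI ρ).restrictScalars k).mkQ

omit [Finite L] in
private theorem cf_pi_eq (ρ : L →* GL (Fin n) k) (x y : Sn k n) :
    cfPi ρ x = cfPi ρ y ↔ x - y ∈ hilbI ρ := by
  unfold cfPi
  rw [Submodule.mkQ_apply, Submodule.mkQ_apply, Submodule.Quotient.eq]
  exact Iff.rfl

private theorem cf_fin (ρ : L →* GL (Fin n) k) :
    Module.Finite k (Sn k n ⧸ ((hilbI ρ).restrictScalars k)) := by
  classical
  obtain ⟨F, hF⟩ := (finite_inv ρ).fg_top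
  refine ⟨⟨F.image (cfPi ρ), ?_⟩⟩
  rw [eq_top_iff]
  rintro q -
  obtain ⟨s, rfl⟩ := Submodule.mkQ_surjective _ q
  have hs : s ∈ Submodule.span (invA ρ) (F : Set (Sn k n)) := by
    rw [hF]
    trivial
  change cfPi ρ s ∈ _
  induction hs using Submodule.span_induction with
  | mem x hx =>
    refine Submodule.subset_span ?_
    rw [Finset.coe_image]
    exact ⟨x, hx, rfl⟩
  | zero =>
    rw [map_zero]
    exact Submodule.zero_mem _
  | add x y _ _ hx hy =>
    rw [map_add]
    exact Submodule.add_mem _ hx hy
  | smul a x _ hx =>
    have h1 : cfPi ρ (a • x) = (MvPolynomial.constantCoeff (a : Sn k n)) • cfPi ρ x := by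
      rw [← map_smul, cf_pi_eq]
      have h2 : a • x - MvPolynomial.constantCoeff (a : Sn k n) • x =
          ((a : Sn k n) - MvPolynomial.C (MvPolynomial.constantCoeff (a : Sn k n))) * x := by
        rw [sub_mul, MvPolynomial.C_mul']
        rfl
      rw [h2]
      exact Ideal.mul_mem_right _ _ (cf_pos ρ a.2)
    rw [h1]
    exact Submodule.smul_mem _ _ hx

omit [Finite L] in
private theorem cf_gen (ρ : L →* GL (Fin n) k) {κ : Type*} (e : κ → Sn k n)
    (he : ∀ i, ∃ q, (e i).IsHomogeneous q)
    (hsp : ∀ s : Sn k n, ∃ h ∈ hilbI ρ, s - h ∈ Submodule.span k (Set.range e)) :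
    Submodule.span (invA ρ) (Set.range e) = ⊤ := by
  set N := Submodule.span (invA ρ) (Set.range e) with hN
  have hmulT : ∀ t ∈ invA ρ, ∀ x ∈ N, t * x ∈ N := by
    intro t ht x hx
    exact N.smul_mem (⟨t, ht⟩ : invA ρ) hx
  have key : ∀ d, ∀ s : Sn k n, s.IsHomogeneous d → s ∈ N := by
    intro d
    induction d using Nat.strong_induction_on with
    | _ d ih =>
      intro s hs
      obtain ⟨h, hh, hs2⟩ := hsp s
      have h1 : ∀ x ∈ Submodule.span k (Set.range e),
          MvPolynomial.homogeneousComponent d x ∈ N := by
        intro x hx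
        induction hx using Submodule.span_induction with
        | mem x hx =>
          obtain ⟨i, rfl⟩ := hx
          obtain ⟨q, hq⟩ := he i
          rw [MvPolynomial.homogeneousComponent_of_mem hq]
          split_ifs
          · exact Submodule.subset_span ⟨i, rfl⟩
          · exact N.zero_mem
        | zero =>
          rw [map_zero]
          exact N.zero_mem
        | add x y _ _ hx hy =>
          rw [map_add]
          exact N.add_mem hx hy
        | smul c x _ hx =>
          rw [map_smul, ← MvPolynomial.C_mul']
          exact hmulT _ ((invA ρ).algebraMap_mem c) _ hx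
      have h2 : ∀ x ∈ hilbI ρ, ∀ a : Sn k n,
          MvPolynomial.homogeneousComponent d (a * x) ∈ N := by
        intro x hx
        unfold hilbI at hx
        induction hx using Submodule.span_induction with
        | mem t ht =>
          intro a
          obtain ⟨ht1, ht2⟩ := ht
          have h3 : a * t = ∑ p ∈ Finset.range (a.totalDegree + 1),
              t * MvPolynomial.homogeneousComponent p a := by
            rw [← Finset.mul_sum, MvPolynomial.sum_homogeneousComponent, mul_comm]
          rw [h3, map_sum]
          refine N.sum_mem fun p _ => ?_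
          rw [cf_mul_hom d p t _ (MvPolynomial.homogeneousComponent_isHomogeneous p a)]
          split_ifs with hp
          · rcases Nat.lt_or_eq_of_le hp with hp | hp
            · exact hmulT _ (cf_inv ρ _ ht1) _
                (ih p hp _ (MvPolynomial.homogeneousComponent_isHomogeneous p a))
            · rw [hp, Nat.sub_self, MvPolynomial.homogeneousComponent_zero,
                ← MvPolynomial.constantCoeff_eq, ht2, map_zero, zero_mul]
              exact N.zero_mem
          · exact N.zero_mem
        | zero =>
          intro a
          rw [mul_zero, map_zero]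
          exact N.zero_mem
        | add x y _ _ hx hy =>
          intro a
          rw [mul_add, map_add]
          exact N.add_mem (hx a) (hy a)
        | smul b x _ hx =>
          intro a
          rw [smul_eq_mul, ← mul_assoc]
          exact hx (a * b)
      have h3 := N.add_mem (h1 _ hs2) (h2 h hh 1)
      rw [one_mul, ← map_add, sub_add_cancel,
        MvPolynomial.homogeneousComponent_eq_self hs] at h3
      exact h3
  rw [eq_top_iff]
  intro s _
  rw [← MvPolynomial.sum_homogeneousComponent s]
  exact N.sum_mem fun d _ => key d _ (MvPolynomial.homogeneousComponent_isHomogeneous d s)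

private theorem cf_indep (hL : (Nat.card L : k) ≠ 0) (ρ : L →* GL (Fin n) k) (hr : ReflGen ρ)
    (m : ℕ) : ∀ (t e : Fin m → Sn k n) (dt de : Fin m → ℕ) (D : ℕ), (∀ i, t i ∈ invA ρ) →
      (∀ i, (t i).IsHomogeneous (dt i)) → (∀ i, (e i).IsHomogeneous (de i)) →
      (∀ i, t i ≠ 0 → dt i + de i = D) →
      (∀ c : Fin m → k, ∑ i, MvPolynomial.C (c i) * e i ∈ hilbI ρ → ∀ i, c i = 0) →
      ∑ i, t i * e i = 0 → ∀ i, t i = 0 := by
  induction m with
  | zero =>
    intro t e dt de D _ _ _ _ _ _ i
    exact i.elim0
  | succ m ih =>
    intro t e dt de D ht ht1 he hdeg hind hrel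
    by_cases h0 : t 0 = 0
    · have h1 := ih (fun i => t i.succ) (fun i => e i.succ) (fun i => dt i.succ)
        (fun i => de i.succ) D (fun i => ht _) (fun i => ht1 _) (fun i => he _)
        (fun i hi => hdeg _ hi) (fun c hc i => by
          have h2 := hind (Fin.cons 0 c) (by
            rw [Fin.sum_univ_succ]
            simpa using hc) i.succ
          simpa using h2) (by
          rw [Fin.sum_univ_succ, h0, zero_mul, zero_add] at hrel
          exact hrel)
      intro i
      refine Fin.cases h0 (fun i => h1 i) i
    · have hex : ∃ c : Fin m → Sn k n, (∀ i, c i ∈ invA ρ) ∧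
          t 0 = ∑ i : Fin m, c i * t i.succ := by
        by_contra hne
        push Not at hne
        have h1 := chev_lemma hL ρ hr m t e dt de D ht ht1 he (fun i => by
          by_cases hi : t i = 0
          · exact Or.inr (Or.inl hi)
          · exact Or.inl (hdeg i hi)) (fun c hc => hne c hc) hrel
        have h2 := hind (Fin.cons 1 0) (by
          rw [Fin.sum_univ_succ]
          simpa using h1) 0
        simp at h2
      obtain ⟨c, hc, hct⟩ := hex
      classical
      let c' : Fin m → Sn k n := fun i =>
        if t i.succ = 0 ∨ dt 0 < dt i.succ then 0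
        else MvPolynomial.homogeneousComponent (dt 0 - dt i.succ) (c i)
      have hc' : ∀ i, c' i ∈ invA ρ := by
        intro i
        simp only [c']
        split_ifs
        · exact (invA ρ).zero_mem
        · exact cf_inv ρ _ (hc i)
      have hct' : t 0 = ∑ i : Fin m, c' i * t i.succ := by
        have h1 := congrArg (MvPolynomial.homogeneousComponent (dt 0)) hct
        rw [MvPolynomial.homogeneousComponent_eq_self (ht1 0), map_sum] at h1
        rw [h1]
        refine Finset.sum_congr rfl fun i _ => ?_
        rw [cf_mul_hom _ _ _ _ (ht1 i.succ)]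
        simp only [c']
        by_cases hi : t i.succ = 0
        · simp [hi]
        · by_cases hlt : dt 0 < dt i.succ
          · rw [if_neg (by omega), if_pos (Or.inr hlt), zero_mul]
          · rw [if_pos (by omega), if_neg (by simp [hi, hlt])]
      have h1 := ih (fun i => t i.succ) (fun i => e i.succ + c' i * e 0) (fun i => dt i.succ)
        (fun i => de i.succ) D (fun i => ht _) (fun i => ht1 _) (fun i => by
          refine (he i.succ).add ?_
          simp only [c']
          split_ifs with hi
          · rw [zero_mul]
            exact MvPolynomial.isHomogeneous_zero _ _ _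
          · push Not at hi
            have h2 := (MvPolynomial.homogeneousComponent_isHomogeneous
              (dt 0 - dt i.succ) (c i)).mul (he 0)
            have h3 := hdeg 0 h0
            have h4 := hdeg i.succ hi.1
            have h5 : dt 0 - dt i.succ + de 0 = de i.succ := by omega
            rw [h5] at h2
            exact h2)
        (fun i hi => hdeg _ hi) (fun a ha i => by
          have h2 := hind (Fin.cons (∑ i, a i * MvPolynomial.constantCoeff (c' i)) a) (by
            rw [Fin.sum_univ_succ]
            simp only [Fin.cons_zero, Fin.cons_succ]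
            have h3 : MvPolynomial.C (∑ i, a i * MvPolynomial.constantCoeff (c' i)) * e 0 +
                ∑ i : Fin m, MvPolynomial.C (a i) * e i.succ =
                ∑ i : Fin m, MvPolynomial.C (a i) * (e i.succ + c' i * e 0) -
                ∑ i : Fin m, MvPolynomial.C (a i) * ((c' i -
                  MvPolynomial.C (MvPolynomial.constantCoeff (c' i))) * e 0) := by
              rw [map_sum, Finset.sum_mul, ← Finset.sum_add_distrib, ← Finset.sum_sub_distrib]
              refine Finset.sum_congr rfl fun i _ => ?_
              rw [map_mul]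
              ring
            rw [h3]
            refine (hilbI ρ).sub_mem ha ((hilbI ρ).sum_mem fun i _ => ?_)
            exact (hilbI ρ).mul_mem_left _ ((hilbI ρ).mul_mem_right _ (cf_pos ρ (hc' i))))
            i.succ
          simpa using h2) (by
          rw [Fin.sum_univ_succ] at hrel
          have h2 : ∑ i : Fin m, t i.succ * (e i.succ + c' i * e 0) =
              (∑ i : Fin m, c' i * t i.succ) * e 0 + ∑ i : Fin m, t i.succ * e i.succ := by
            rw [Finset.sum_mul, ← Finset.sum_add_distrib]
            exact Finset.sum_congr rfl fun i _ => by ring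
          rw [h2, ← hct']
          exact hrel)
      intro i
      refine Fin.cases ?_ (fun i => h1 i) i
      rw [hct']
      refine Finset.sum_eq_zero fun i _ => ?_
      have h2 : t i.succ = 0 := h1 i
      rw [h2, mul_zero]

/-- PIECE CHEVB. `S` is a free `T`-module of finite rank, in the form of a finite dual basis. PROOF. Choose homogeneous `e_1, …, e_l ∈ S` whose classes form a basis of the `k`-space `S / hilbI`
(finite dimensional because `S` is finite over `T`, `finite_inv`). They generate `S` over `T` (homogeneous induction on the degree: `s ∈ ∑ k e_j + hilbI`, and an element of `hilbI` of degree `d` is `∑ t_i s_i` with `deg t_i > 0`). They are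
linearly independent over `T`: a nontrivial relation may be taken homogeneous, `∑ t_j e_j = 0`; show by induction on `m`: if `e_1, …, e_m` are homogeneous, linearly independent modulo `hilbI`, and `∑ t_j e_j = 0` is homogeneous, then all `t_j = 0`:
by `chev_lemma` `t_1 = ∑_{j > 1} c_j t_j` with `c_j` (components) homogeneous invariants; then `∑_{j > 1} t_j (e_j + c_j e_1) = 0` and the `e_j + c_j e_1` are again independent modulo `hilbI`. So the coordinates
`e_j* : S → T` exist (`Basis`, `Basis.coord`). -/
theorem chev_free (hL : (Nat.card L : k) ≠ 0) (ρ : L →* GL (Fin n) k) (hr : ReflGen ρ) :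
    ∃ (l : ℕ) (e : Fin l → Sn k n) (es : Fin l → (Sn k n →ₗ[invA ρ] invA ρ)),
      ∀ s, s = ∑ j, (es j s : Sn k n) * e j := by
  have hfin := cf_fin ρ
  obtain ⟨κ, a, _, hspan, hli⟩ := exists_linearIndependent' (K := k)
    (fun s : {s : Sn k n // ∃ d, s.IsHomogeneous d} => cfPi ρ s.1)
  have hκ : Finite κ := hli.finite_of_isNoetherian
  cases nonempty_fintype κ
  let l := Fintype.card κ
  let φ : Fin l ≃ κ := (Fintype.equivFin κ).symm
  let e : Fin l → Sn k n := fun j => (a (φ j)).1
  have he : ∀ j, ∃ q, (e j).IsHomogeneous q := fun j => (a (φ j)).2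
  choose de hde using he
  have hli2 : LinearIndependent k (fun j => cfPi ρ (e j)) := by
    have := hli.comp φ φ.injective
    exact this
  have hgen : Submodule.span (invA ρ) (Set.range e) = ⊤ := by
    refine cf_gen ρ e (fun j => ⟨de j, hde j⟩) fun s => ?_
    have h1 : cfPi ρ s ∈ Submodule.span k (Set.range
        (fun s : {s : Sn k n // ∃ d, s.IsHomogeneous d} => cfPi ρ s.1)) := by
      rw [← MvPolynomial.sum_homogeneousComponent s, map_sum]
      refine Submodule.sum_mem _ fun d _ => Submodule.subset_span ?_
      exact ⟨⟨_, d, MvPolynomial.homogeneousComponent_isHomogeneous d s⟩, rfl⟩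
    rw [← hspan] at h1
    have h2 : Set.range ((fun s : {s : Sn k n // ∃ d, s.IsHomogeneous d} => cfPi ρ s.1) ∘ a) =
        cfPi ρ '' Set.range e := by
      ext x
      constructor
      · rintro ⟨i, rfl⟩
        refine ⟨_, ⟨φ.symm i, rfl⟩, ?_⟩
        simp [e]
      · rintro ⟨_, ⟨j, rfl⟩, rfl⟩
        exact ⟨φ j, rfl⟩
    rw [h2, Submodule.span_image] at h1
    obtain ⟨y, hy, hy2⟩ := h1
    refine ⟨s - y, (cf_pi_eq ρ s y).1 hy2.symm, ?_⟩
    rw [sub_sub_cancel]
    exact hy
  have hind : LinearIndependent (invA ρ) e := by
    rw [Fintype.linearIndependent_iff]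
    intro g hg j
    have h1 : ∀ c : Fin l → k, ∑ i, MvPolynomial.C (c i) * e i ∈ hilbI ρ → ∀ i, c i = 0 := by
      intro c hc
      refine Fintype.linearIndependent_iff.1 hli2 c ?_
      have h2 : ∑ i, c i • cfPi ρ (e i) = cfPi ρ (∑ i, MvPolynomial.C (c i) * e i) := by
        rw [map_sum]
        refine Finset.sum_congr rfl fun i _ => ?_
        rw [MvPolynomial.C_mul', map_smul]
      rw [h2, ← map_zero (cfPi ρ), cf_pi_eq, sub_zero]
      exact hc
    have h3 : ∀ p, MvPolynomial.homogeneousComponent p (g j : Sn k n) = 0 := by
      intro p
      have h4 := cf_indep hL ρ hr l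
        (fun i => if de i ≤ p + de j then
          MvPolynomial.homogeneousComponent (p + de j - de i) (g i : Sn k n) else 0) e
        (fun i => p + de j - de i) de (p + de j) (fun i => by
          split_ifs
          · exact cf_inv ρ _ (g i).2
          · exact (invA ρ).zero_mem) (fun i => by
          split_ifs
          · exact MvPolynomial.homogeneousComponent_isHomogeneous _ _
          · exact MvPolynomial.isHomogeneous_zero _ _ _) hde (fun i hi => by
          by_cases h5 : de i ≤ p + de j
          · omega
          · simp [h5] at hi) h1 (by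
          have h5 := congrArg (MvPolynomial.homogeneousComponent (p + de j)) hg
          rw [map_sum, map_zero] at h5
          refine Eq.trans ?_ h5
          refine Finset.sum_congr rfl fun i _ => ?_
          have h6 : g i • e i = (g i : Sn k n) * e i := rfl
          rw [h6, cf_mul_hom _ _ _ _ (hde i)]
          split_ifs
          · rfl
          · rw [zero_mul]) j
      simpa using h4
    apply Subtype.ext
    rw [← MvPolynomial.sum_homogeneousComponent (g j : Sn k n)]
    exact Finset.sum_eq_zero fun p _ => h3 p
  let B := Module.Basis.mk hind hgen.ge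
  refine ⟨l, e, fun j => B.coord j, fun s => ?_⟩
  have h1 := B.sum_repr s
  conv_lhs => rw [← h1]
  refine Finset.sum_congr rfl fun j _ => ?_
  rw [Module.Basis.mk_apply]
  rfl

end MP8a
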