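import Pool.Agent.Lib_MP_8a48ad_gt.FGS

/-! # Piece COVER: finite free covers -/

set_option autoImplicit false

namespace MP8a

universe u

variable {A : Type u} [CommRing A] {G : Gr A}

/-- `a ↦ a z` for a homogeneous cycle `z` -/
theorem isMor_toSpan (M : DGM G) {i : ℤ} {z : M.X} (hz : M.pr i z = z) (hd : M.d z = 0) :
    IsMor ((regM G).sh (-i)) M 0 (LinearMap.toSpanSingleton A M.X z) := by
  constructor
  · intro j a
    change M.pr (j + 0) (a • z) = (G.c (j + -i) a) • z
    rw [add_zero]
    refine G.ind (P := fun a => M.pr j (a • z) = (G.c (j + -i) a) • z) (by simp) ?_ ?_ a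
    · intro x y hx hy
      rw [add_smul, map_add, map_add, add_smul, hx, hy]
    · intro l a ha
      rw [M.pr_smul' ha]
      by_cases h : j + -i = l
      · have h1 : j - l = i := by omega
        rw [h1, hz, h, ha]
      · have h1 : j - l ≠ i := fun h' => h (by omega)
        rw [M.pr_ne hz h1, smul_zero, ← ha, G.c_c, if_neg h, zero_smul]
  · intro a
    change M.d (a • z) = (((regM G).sh (-i)).d a : A) • z
    have h0 : (((regM G).sh (-i)).d a : A) = 0 := by
      by_cases he : Even (-i)
      · rw [DGM.sh_d_even _ he]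
        rfl
      · change (if Even (-i) then (regM G).d else -(regM G).d) a = 0
        rw [if_neg he]
        change -((0 : A →ₗ[A] A) a) = 0
        simp
    rw [h0, zero_smul, map_smul, hd, smul_zero]

/-- For finitely many homogeneous cycles there is a finite free DG module `F` with zero differential and a morphism `F → M`
whose image contains them. Induction on `s`: `F' = F.prod ((regM G).sh (-i))` for a cycle `z` of degree `i`, `(x, a) ↦ f x + a z`. -/
theorem exists_free_cover (M : DGM G) (s : Finset M.X) (hs : ∀ z ∈ s, M.d z = 0)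
    (hh : ∀ z ∈ s, ∃ i, M.pr i z = z) : ∃ (F : DGM G) (f : F.X →ₗ[A] M.X), IsMor F M 0 f ∧
      F.d = 0 ∧ (∀ z ∈ s, z ∈ LinearMap.range f) ∧
      ∀ T : DGM G → Prop, IsThick T → T (regM G) → T F := by
  classical
  induction s using Finset.induction_on with
  | empty =>
    refine ⟨zeroM G, 0, isMor_zero _ _ _, rfl, fun z hz => absurd hz (Finset.notMem_empty z), ?_⟩
    intro T hT hr
    exact hT.zero hr
  | insert z s _ ih =>
    obtain ⟨F, f, hf, hd, hr, hT⟩ := ih (fun y hy => hs y (Finset.mem_insert_of_mem hy))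
      (fun y hy => hh y (Finset.mem_insert_of_mem hy))
    obtain ⟨i, hi⟩ := hh z (Finset.mem_insert_self z s)
    have hz := isMor_toSpan M hi (hs z (Finset.mem_insert_self z s))
    refine ⟨F.prod ((regM G).sh (-i)), f.coprod (LinearMap.toSpanSingleton A M.X z),
      hf.coprod hz, ?_, ?_, ?_⟩
    · refine LinearMap.ext (fun x => ?_)
      have h0 : ((regM G).sh (-i)).d x.2 = 0 := by
        by_cases he : Even (-i)
        · rw [DGM.sh_d_even _ he]
          rfl
        · change (if Even (-i) then (regM G).d else -(regM G).d) x.2 = 0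
          rw [if_neg he]
          change -((0 : A →ₗ[A] A) x.2) = 0
          simp
      refine Prod.ext ?_ h0
      change F.d x.1 = 0
      rw [hd]
      rfl
    · intro y hy
      rcases Finset.mem_insert.1 hy with rfl | hy
      · refine ⟨((0 : F.X), (1 : A)), ?_⟩
        change f 0 + (1 : A) • y = y
        rw [map_zero, zero_add, one_smul]
      · obtain ⟨x, hx⟩ := hr y hy
        refine ⟨(x, (0 : A)), ?_⟩
        change f x + (0 : A) • z = y
        rw [zero_smul, add_zero, hx]
    · intro T hT' hr'
      exact hT'.prod (hT T hT' hr') (hT'.sh _ _ hr')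

/-- THE COVER. `F → M` from `exists_free_cover` for homogeneous generators of the cohomology; `M1 = F.cone M f`, `ι = inl`,
`L = F.sh 1`, `κ = snd` (`isSES_cone`). `ι` is zero in cohomology: a cycle is `x = f φ + d y`, so `(x, 0) = d (y, φ)`.
`FG M1`: `FG_ses`, `FG F` by `isThick_FG` applied to `T F` and `FG_of_finite` for `regM G`. -/
theorem exists_cover [IsNoetherianRing A] (M : DGM G) (hM : FG M) : ∃ (M1 L : DGM G)
    (ι : M.X →ₗ[A] M1.X) (κ : M1.X →ₗ[A] L.X), IsMor M M1 0 ι ∧ IsMor M1 L 0 κ ∧
      IsSES M M1 L ι κ ∧ Ghost M M1 ι ∧ FG M1 ∧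
      ∀ T : DGM G → Prop, IsThick T → T (regM G) → T L := by
  obtain ⟨s, hs, hh, hgen⟩ := hM.exists_hom
  obtain ⟨F, f, hf, hd, hr, hT⟩ := exists_free_cover M s hs hh
  have hreg : FG (regM G) := FG_of_finite (M := regM G) (inferInstanceAs (Module.Finite A A)) rfl
  have hF : FG F := hT FG isThick_FG hreg
  refine ⟨F.cone M f hf, F.sh 1, LinearMap.inl A M.X F.X, LinearMap.snd A M.X F.X,
    isMor_cone_inl F M f hf, isMor_cone_snd F M f hf, isSES_cone F M f hf, ?_, ?_, ?_⟩
  · intro x hx
    obtain ⟨y, hy⟩ := hgen x hx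
    have hle : Submodule.span A (s : Set M.X) ≤ LinearMap.range f :=
      Submodule.span_le.2 (fun z hz => hr z hz)
    obtain ⟨φ, hφ⟩ := hle hy
    refine ⟨(y, φ), ?_⟩
    rw [DGM.cone_d]
    refine Prod.ext ?_ ?_
    · change M.d y + f φ = x
      rw [hφ]
      abel
    · change -(F.d φ) = 0
      rw [hd]
      simp
  · exact (FG_ses (isMor_cone_inl F M f hf) (isMor_cone_snd F M f hf)
      (isSES_cone F M f hf)).2.1 hM (FG_sh hF 1)
  · intro T hT' hr'
    exact hT'.sh _ _ (hT T hT' hr')

end MP8a
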