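import Mathlib

/-!
# MP_8a48ad_gt: DG modules over evenly graded commutative rings, thick subcategories

All rings are commutative and graded by even (cohomological) degrees, with zero differential. A grading
is given by its system of projections `c i` (resp. `pr i`): `c i a` is the component of degree `i`.
-/

set_option autoImplicit false

namespace MP8a

universe u

/-- A `ℤ`-grading of the commutative ring `A`, concentrated in even degrees: `A` is the direct sum of the
additive subgroups `A_i = {a | c i a = a}`, `c i` is the projection to `A_i`, `A_i A_j ⊆ A_{i+j}`,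
`1 ∈ A_0`. -/
structure Gr (A : Type u) [CommRing A] where
  /-- the component of degree `i` -/
  c : ℤ → A →+ A
  c_c : ∀ i j a, c i (c j a) = if i = j then c j a else 0
  fin : ∀ a, ∃ s : Finset ℤ, ∑ i ∈ s, c i a = a
  mul : ∀ {i j : ℤ} {a b : A}, c i a = a → c j b = b → c (i + j) (a * b) = a * b
  one : c 0 1 = 1
  odd : ∀ {i : ℤ}, Odd i → ∀ a, c i a = 0

/-- A DG module over the graded ring `A` (with zero differential): an `A`-module `X` which is the
direct sum of the subgroups `X_i = {x | pr i x = x}`, `i ∈ ℤ`, with `A_i X_j ⊆ X_{i+j}`, and a differential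
`d` with `d X_i ⊆ X_{i+1}`, `d ∘ d = 0`, `d (a x) = a (d x)` (`A` is concentrated in even degrees). -/
structure DGM {A : Type u} [CommRing A] (G : Gr A) where
  /-- the underlying module -/
  X : Type u
  [instG : AddCommGroup X]
  [instM : Module A X]
  /-- the component of degree `i` -/
  pr : ℤ → X →+ X
  pr_pr : ∀ i j x, pr i (pr j x) = if i = j then pr j x else 0
  fin : ∀ x, ∃ s : Finset ℤ, ∑ i ∈ s, pr i x = x
  smul : ∀ {i j : ℤ} {a : A} {x : X}, G.c i a = a → pr j x = x → pr (i + j) (a • x) = a • x
  /-- the differential -/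
  d : X →ₗ[A] X
  d_hom : ∀ {i : ℤ} {x : X}, pr i x = x → pr (i + 1) (d x) = d x
  d_d : ∀ x, d (d x) = 0

attribute [instance] DGM.instG DGM.instM

section

variable {A : Type u} [CommRing A] {G : Gr A}

/-- `f` is homogeneous of degree `e` and commutes with the differentials. -/
structure IsMor (M N : DGM G) (e : ℤ) (f : M.X →ₗ[A] N.X) : Prop where
  pr : ∀ i x, N.pr (i + e) (f x) = f (M.pr i x)
  d : ∀ x, N.d (f x) = f (M.d x)

/-- `f` is bijective in cohomology. -/
def IsQis (M N : DGM G) (f : M.X →ₗ[A] N.X) : Prop :=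
  (∀ x, M.d x = 0 → ∀ y, N.d y = f x → ∃ z, M.d z = x) ∧
    ∀ y, N.d y = 0 → ∃ x z, M.d x = 0 ∧ y = f x + N.d z

/-- `0 → L → M → N → 0` is exact. -/
def IsSES (L M N : DGM G) (f : L.X →ₗ[A] M.X) (g : M.X →ₗ[A] N.X) : Prop :=
  Function.Injective f ∧ Function.Surjective g ∧ ∀ x, g x = 0 ↔ ∃ y, f y = x

/-- The shift `M[e]`: `M[e]_i = M_{i+e}`, with the differential `(-1)^e d`. -/
@[reducible] def DGM.sh (M : DGM G) (e : ℤ) : DGM G where
  X := M.X
  pr i := M.pr (i + e)
  pr_pr i j x := by
    rw [M.pr_pr]
    by_cases h : i = j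
    · rw [if_pos h, if_pos (by rw [h])]
    · rw [if_neg h, if_neg (fun h' => h (add_right_cancel h'))]
  fin x := by
    obtain ⟨s, hs⟩ := M.fin x
    refine ⟨s.map (addRightEmbedding (-e)), ?_⟩
    rw [Finset.sum_map]
    simpa using hs
  smul := by
    intro i j a x ha hx
    rw [add_assoc]
    exact M.smul ha hx
  d := if Even e then M.d else - M.d
  d_hom := by
    intro i x hx
    have h := M.d_hom hx
    rw [add_right_comm] at h
    by_cases he : Even e
    · rw [if_pos he]
      exact h
    · rw [if_neg he]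
      simpa using h
  d_d x := by
    by_cases he : Even e
    · rw [if_pos he]
      exact M.d_d x
    · rw [if_neg he]
      simpa using M.d_d x

/-- A class of DG modules which is (the class of objects of) a thick subcategory of the derived category:
closed under quasi-isomorphisms in both directions, shifts, two out of three in short exact sequences,
and direct summands. -/
structure IsThick (T : DGM G → Prop) : Prop where
  qis : ∀ (M N : DGM G) (f : M.X →ₗ[A] N.X), IsMor M N 0 f → IsQis M N f → (T M ↔ T N)
  sh : ∀ (M : DGM G) (e : ℤ), T M → T (M.sh e)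
  ses1 : ∀ (L M N : DGM G) (f : L.X →ₗ[A] M.X) (g : M.X →ₗ[A] N.X), IsMor L M 0 f → IsMor M N 0 g →
    IsSES L M N f g → T M → T N → T L
  ses2 : ∀ (L M N : DGM G) (f : L.X →ₗ[A] M.X) (g : M.X →ₗ[A] N.X), IsMor L M 0 f → IsMor M N 0 g →
    IsSES L M N f g → T L → T N → T M
  ses3 : ∀ (L M N : DGM G) (f : L.X →ₗ[A] M.X) (g : M.X →ₗ[A] N.X), IsMor L M 0 f → IsMor M N 0 g →
    IsSES L M N f g → T L → T M → T N
  retr : ∀ (M N : DGM G) (i : M.X →ₗ[A] N.X) (r : N.X →ₗ[A] M.X), IsMor M N 0 i → IsMor N M 0 r →
    (∀ x, r (i x) = x) → T N → T M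

/-- `M` belongs to the smallest thick subcategory which contains `P`. -/
def Thick (P M : DGM G) : Prop := ∀ T : DGM G → Prop, IsThick T → T P → T M

/-- The cohomology `ker d / im d` of a DG module. -/
abbrev DGM.H (M : DGM G) : Type u :=
  (LinearMap.ker M.d) ⧸ (LinearMap.range M.d).submoduleOf (LinearMap.ker M.d)

/-- The cohomology is a finitely generated module. -/
def FG (M : DGM G) : Prop := Module.Finite A M.H

end

end MP8a
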