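import Pool.Agent.Lib_MP_8a48ad_gt.Basic

/-! # Piece GRS: the graded polynomial ring `S = H^*(BT; k)`, generators in degree 2 -/

set_option autoImplicit false

namespace MP8a

universe u

/-- `H^*(BT; k)` for a torus `T` of rank `n` -/
abbrev Sn (k : Type u) [Field k] (n : ℕ) : Type u := MvPolynomial (Fin n) k

/-- The component of (cohomological) degree `i` of a polynomial: the homogeneous component of degree `i / 2` if `i` is even
and nonnegative, and `0` otherwise. -/
noncomputable def cS (k : Type u) [Field k] (n : ℕ) (i : ℤ) : Sn k n →+ Sn k n :=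
  if Even i ∧ 0 ≤ i then (MvPolynomial.homogeneousComponent (R := k) (i / 2).toNat).toAddMonoidHom else 0

private theorem GRS_even (k : Type u) [Field k] (n : ℕ) (j : ℕ) (s : Sn k n) :
    cS k n (2 * (j : ℤ)) s = MvPolynomial.homogeneousComponent j s := by
  unfold cS
  have h1 : Even (2 * (j : ℤ)) ∧ 0 ≤ 2 * (j : ℤ) := ⟨even_two_mul _, by positivity⟩
  rw [if_pos h1]
  have h2 : (2 * (j : ℤ) / 2).toNat = j := by omega
  rw [h2]
  rfl

private theorem GRS_bad (k : Type u) [Field k] (n : ℕ) {i : ℤ} (h : ¬ (Even i ∧ 0 ≤ i))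
    (s : Sn k n) : cS k n i s = 0 := by
  unfold cS
  rw [if_neg h]
  rfl

private theorem GRS_cases (i : ℤ) : (¬ (Even i ∧ 0 ≤ i)) ∨ ∃ j : ℕ, i = 2 * (j : ℤ) := by
  by_cases h : Even i ∧ 0 ≤ i
  · right
    obtain ⟨⟨m, hm⟩, h0⟩ := h
    refine ⟨m.toNat, ?_⟩
    omega
  · exact Or.inl h

private theorem GRS_hom (k : Type u) [Field k] (n : ℕ) (m j : ℕ) {s : Sn k n}
    (hs : s.IsHomogeneous m) :
    MvPolynomial.homogeneousComponent j s = if j = m then s else 0 :=
  MvPolynomial.homogeneousComponent_of_mem ((MvPolynomial.mem_homogeneousSubmodule m s).2 hs)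

/-- The grading of the polynomial ring with generators in degree `2`. -/
noncomputable def grS (k : Type u) [Field k] (n : ℕ) : Gr (Sn k n) where
  c := cS k n
  c_c := by
    intro i j a
    rcases GRS_cases j with hj | ⟨j', rfl⟩
    · rw [GRS_bad k n hj, map_zero, ite_self]
    · rcases GRS_cases i with hi | ⟨i', rfl⟩
      · rw [GRS_bad k n hi, if_neg]
        rintro rfl
        exact hi ⟨even_two_mul _, by positivity⟩
      · rw [GRS_even, GRS_even,
          GRS_hom k n j' i' (MvPolynomial.homogeneousComponent_isHomogeneous j' a)]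
        by_cases h : i' = j'
        · rw [if_pos h, if_pos (by rw [h])]
        · rw [if_neg h, if_neg (by omega)]
  fin := by
    intro a
    refine ⟨(Finset.range (a.totalDegree + 1)).map
      ⟨fun j : ℕ => 2 * (j : ℤ), fun x y hxy => by
        have h : 2 * (x : ℤ) = 2 * (y : ℤ) := hxy
        omega⟩, ?_⟩
    rw [Finset.sum_map]
    have h1 : ∀ j ∈ Finset.range (a.totalDegree + 1),
        cS k n ((⟨fun j : ℕ => 2 * (j : ℤ), fun x y hxy => by
          have h : 2 * (x : ℤ) = 2 * (y : ℤ) := hxy
          omega⟩ : ℕ ↪ ℤ) j) a = MvPolynomial.homogeneousComponent j a :=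
      fun j _ => GRS_even k n j a
    rw [Finset.sum_congr rfl h1]
    exact MvPolynomial.sum_homogeneousComponent a
  mul := by
    intro i j a b ha hb
    rcases GRS_cases i with hi | ⟨i', rfl⟩
    · rw [GRS_bad k n hi] at ha
      rw [← ha, zero_mul, map_zero]
    · rcases GRS_cases j with hj | ⟨j', rfl⟩
      · rw [GRS_bad k n hj] at hb
        rw [← hb, mul_zero, map_zero]
      · rw [GRS_even] at ha hb
        have h1 : a.IsHomogeneous i' := by
          rw [← ha]
          exact MvPolynomial.homogeneousComponent_isHomogeneous i' a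
        have h2 : b.IsHomogeneous j' := by
          rw [← hb]
          exact MvPolynomial.homogeneousComponent_isHomogeneous j' b
        have h3 : 2 * (i' : ℤ) + 2 * (j' : ℤ) = 2 * ((i' + j' : ℕ) : ℤ) := by
          push_cast
          ring
        rw [h3, GRS_even, GRS_hom k n (i' + j') (i' + j') (h1.mul h2), if_pos rfl]
  one := by
    have h1 : (1 : Sn k n).IsHomogeneous 0 := MvPolynomial.isHomogeneous_one _ _
    have h2 := GRS_even k n 0 1
    rw [GRS_hom k n 0 0 h1, if_pos rfl] at h2
    simpa using h2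
  odd := by
    intro i hi a
    refine GRS_bad k n (fun h => ?_) a
    exact (Int.not_even_iff_odd.2 hi) h.1

variable {k : Type u} [Field k] {n : ℕ}

theorem grS_odd_neg {i : ℤ} (h : ¬ (Even i ∧ 0 ≤ i)) (s : Sn k n) : (grS k n).c i s = 0 := by
  exact GRS_bad k n h s

theorem grS_even (j : ℕ) (s : Sn k n) :
    (grS k n).c (2 * j) s = MvPolynomial.homogeneousComponent j s := by
  exact GRS_even k n j s

theorem grS_monomial (μ : Fin n →₀ ℕ) (c : k) :
    (grS k n).c (2 * (μ.degree : ℤ)) (MvPolynomial.monomial μ c) = MvPolynomial.monomial μ c := by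
  rw [grS_even, GRS_hom k n μ.degree μ.degree (MvPolynomial.isHomogeneous_monomial c rfl),
    if_pos rfl]

theorem grS_C (c : k) : (grS k n).c 0 (MvPolynomial.C c) = MvPolynomial.C c := by
  have h := grS_even (k := k) (n := n) 0 (MvPolynomial.C c)
  rw [GRS_hom k n 0 0 (MvPolynomial.isHomogeneous_C _ c), if_pos rfl] at h
  simpa using h

theorem grS_X (i : Fin n) : (grS k n).c 2 (MvPolynomial.X i) = MvPolynomial.X i := by
  have h := grS_even (k := k) (n := n) 1 (MvPolynomial.X i)
  rw [GRS_hom k n 1 1 (MvPolynomial.isHomogeneous_X k i), if_pos rfl] at h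
  simpa using h

theorem grS_zero (s : Sn k n) : (grS k n).c 0 s = MvPolynomial.C (MvPolynomial.constantCoeff s) := by
  have h := grS_even (k := k) (n := n) 0 s
  rw [MvPolynomial.homogeneousComponent_zero] at h
  have h0 : (2 * ((0 : ℕ) : ℤ)) = 0 := by norm_num
  rw [h0] at h
  exact h

theorem grS_smul (i : ℤ) (c : k) (s : Sn k n) : (grS k n).c i (c • s) = c • (grS k n).c i s := by
  rcases GRS_cases i with hi | ⟨i', rfl⟩
  · rw [grS_odd_neg hi, grS_odd_neg hi, smul_zero]
  · rw [grS_even, grS_even, map_smul]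

/-! ### the vector space underlying a DG `S`-module -/

/-- DG `S`-modules as `k`-vector spaces -/
@[reducible] noncomputable def kMod (N : DGM (grS k n)) : Module k N.X :=
  Module.compHom N.X (algebraMap k (Sn k n))

/-- the setting: `R` is a graded `k`-algebra with a map to `S = k[x_1..x_n]`, `S` is finite over `R`, `R` is noetherian,
and there is a homogeneous `R`-linear retraction `S → R` -/
structure Setup (k : Type u) [Field k] (n : ℕ) {R : Type u} [CommRing R] [Algebra k R]
    [Algebra R (Sn k n)] (GR : Gr R) : Prop where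
  tower : IsScalarTower k R (Sn k n)
  compat : Compat GR (grS k n)
  fin : Module.Finite R (Sn k n)
  noeth : IsNoetherianRing R
  rho : ∃ ρ : Sn k n →ₗ[R] R, ρ 1 = 1 ∧ ∀ i s, GR.c i (ρ s) = ρ ((grS k n).c i s)

/-- `f · id_S` factors through a free `R`-module of finite rank -/
def JJ (k : Type u) [Field k] (n : ℕ) {R : Type u} [CommRing R] [Algebra R (Sn k n)] (f : R) : Prop :=
  ∃ (l : ℕ) (τ : Fin l → (Sn k n →ₗ[R] R)) (x : Fin l → Sn k n),
    ∀ s, algebraMap R (Sn k n) f * s = ∑ i, algebraMap R (Sn k n) (τ i s) * x i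

section

variable {R : Type u} [CommRing R] [Algebra k R] [Algebra R (Sn k n)] {GR : Gr R}

theorem Setup.inj (h : Setup k n GR) : Function.Injective (algebraMap R (Sn k n)) := by
  obtain ⟨ρ, h1, _⟩ := h.rho
  intro a b hab
  have h2 : ∀ a : R, ρ (algebraMap R (Sn k n) a) = a := by
    intro a
    rw [Algebra.algebraMap_eq_smul_one, map_smul, h1, smul_eq_mul, mul_one]
  rw [← h2 a, hab, h2 b]

/-- the negative and odd components vanish -/
theorem Setup.c_neg (h : Setup k n GR) {i : ℤ} (hi : i < 0) (a : R) : GR.c i a = 0 := by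
  apply h.inj
  rw [h.compat, map_zero]
  exact grS_odd_neg (fun h' => absurd h'.2 (not_le.2 hi)) _

/-- `R_0 = k` -/
theorem Setup.c_zero (h : Setup k n GR) (a : R) : ∃ r : k, GR.c 0 a = algebraMap k R r := by
  have := h.tower
  refine ⟨MvPolynomial.constantCoeff (algebraMap R (Sn k n) a), ?_⟩
  apply h.inj
  rw [h.compat, grS_zero, ← IsScalarTower.algebraMap_apply k R (Sn k n)]
  rfl

theorem Setup.c_algebraMap (h : Setup k n GR) (r : k) : GR.c 0 (algebraMap k R r) = algebraMap k R r := by
  have := h.tower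
  apply h.inj
  rw [h.compat, ← IsScalarTower.algebraMap_apply k R (Sn k n)]
  exact grS_C r

end

end MP8a
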