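import Pool.Agent.Lib_MP_8a48ad_gt.NilK
import Pool.Agent.Lib_MP_8a48ad_gt.GrS

/-! # Piece FDA: finite dimensional cohomology -/

set_option autoImplicit false

namespace MP8a

universe u

variable {k : Type u} [Field k] {n : ℕ} {R : Type u} [CommRing R] [Algebra k R]
  [Algebra R (Sn k n)] {GR : Gr R}

/-- the cohomology is finite dimensional over `k`: finitely many cycles generate it over `k` -/
def FDH (k : Type u) [Field k] [Algebra k R] (M : DGM GR) : Prop :=
  ∃ (l : ℕ) (z : Fin l → M.X), (∀ i, M.d (z i) = 0) ∧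
    ∀ x, M.d x = 0 → ∃ (y : M.X) (c : Fin l → k), x = M.d y + ∑ i, algebraMap k R (c i) • z i

/-- `R / I ^ n` is finite over `k` if `R / I` is, and `I` is finitely generated -/
theorem FDA_quot {k R : Type u} [Field k] [CommRing R] [Algebra k R] (I : Ideal R) (hI : I.FG)
    (h : Module.Finite k (R ⧸ I)) (n : ℕ) : Module.Finite k (R ⧸ I ^ (n + 1)) := by
  have hle : I ^ (n + 1) ≤ I := Ideal.pow_le_self n.succ_ne_zero
  refine Module.finite_of_surjective_of_ker_le_nilradical (T := R ⧸ I)
    (Ideal.Quotient.factorₐ k hle) (Ideal.Quotient.factor_surjective hle) ?_ ?_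
  · intro x hx
    obtain ⟨a, rfl⟩ := Ideal.Quotient.mk_surjective x
    have ha : a ∈ I := by
      rw [RingHom.mem_ker] at hx
      exact Ideal.Quotient.eq_zero_iff_mem.mp hx
    refine ⟨n + 1, ?_⟩
    rw [← map_pow]
    exact Ideal.Quotient.eq_zero_iff_mem.mpr (Ideal.pow_mem_pow ha _)
  · have h1 : RingHom.ker (Ideal.Quotient.factorₐ k hle) = I.map (Ideal.Quotient.mk (I ^ (n + 1))) := by
      apply le_antisymm
      · intro x hx
        obtain ⟨a, rfl⟩ := Ideal.Quotient.mk_surjective x
        have ha : a ∈ I := by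
          rw [RingHom.mem_ker] at hx
          exact Ideal.Quotient.eq_zero_iff_mem.mp hx
        exact Ideal.mem_map_of_mem _ ha
      · rw [Ideal.map_le_iff_le_comap]
        intro a ha
        rw [Ideal.mem_comap, RingHom.mem_ker]
        exact Ideal.Quotient.eq_zero_iff_mem.mpr ha
    rw [h1]
    exact hI.map _

/-- a finite `R`-module killed by a power of `I` is finite over `k` -/
theorem FDA_fin {k R H : Type u} [Field k] [CommRing R] [Algebra k R] [AddCommGroup H] [Module R H]
    [Module k H] [IsScalarTower k R H] [Module.Finite R H] (J : Ideal R)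
    [Module.Finite k (R ⧸ J)] (hJ : Module.IsTorsionBySet R H J) : Module.Finite k H := by
  let _ : Module (R ⧸ J) H := hJ.module
  have _ : IsScalarTower R (R ⧸ J) H := hJ.isScalarTower
  have _ : IsScalarTower k (R ⧸ J) H := by
    constructor
    intro a b x
    obtain ⟨b, rfl⟩ := Ideal.Quotient.mk_surjective b
    have h1 : a • (Ideal.Quotient.mk J b) = Ideal.Quotient.mk J (a • b) := rfl
    rw [h1, Module.IsTorsionBySet.mk_smul hJ, Module.IsTorsionBySet.mk_smul hJ, smul_assoc]
  have _ : Module.Finite (R ⧸ J) H := Module.Finite.of_restrictScalars_finite R (R ⧸ J) H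
  exact Module.Finite.trans (R ⧸ J) H

/-- PIECE FDA. PROOF. Let `I = (f_1, …, f_l)`. `H(M)` is a finitely generated `R`-module (`FG`), each `f_i` is nilpotent on it, so `I^N H(M) = 0`
for some `N` (`Ideal.FG` nilpotent generators). The modules `I^j H / I^(j+1) H` are finitely generated over `R/I`, which is finite over `k`; so
`H(M)` is finite over `k`. (`Module.Finite` over `k` of successive extensions.) Translate to `FDH`. -/
theorem FDH_of_nil [IsNoetherianRing R] {M : DGM GR} (hM : FG M) {l : ℕ} (f : Fin l → R)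
    (hf : ∀ i, Nil (f i) M) (hfin : Module.Finite k (R ⧸ Ideal.span (Set.range f))) :
    FDH k M := by
  have hM' : Module.Finite R M.H := hM
  let _ : Module k M.H := Module.compHom M.H (algebraMap k R)
  have _ : IsScalarTower k R M.H := ⟨fun a b x => by
    change (a • b) • x = algebraMap k R a • (b • x)
    rw [Algebra.smul_def, mul_smul]⟩
  have hmk : ∀ (a : R) (x : LinearMap.ker M.d),
      a • (Submodule.Quotient.mk x : M.H) = Submodule.Quotient.mk (a • x) := fun a x => rfl
  have hzero : ∀ x : LinearMap.ker M.d, (Submodule.Quotient.mk x : M.H) = 0 ↔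
      ∃ y, M.d y = x.1 := by
    intro x
    rw [Submodule.Quotient.mk_eq_zero, Submodule.submoduleOf, Submodule.mem_comap,
      LinearMap.mem_range]
    rfl
  -- the ideal is nilpotent on the cohomology
  have hIr : Ideal.span (Set.range f) ≤ (Module.annihilator R M.H).radical := by
    rw [Ideal.span_le]
    rintro _ ⟨i, rfl⟩
    obtain ⟨N, hN⟩ := hf i
    refine ⟨N, ?_⟩
    rw [Module.mem_annihilator]
    intro h
    obtain ⟨x, rfl⟩ := Submodule.Quotient.mk_surjective _ h
    rw [hmk, hzero]
    exact hN x.1 x.2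
  have hIfg : (Ideal.span (Set.range f)).FG := IsNoetherian.noetherian _
  obtain ⟨N, hN⟩ := Ideal.exists_pow_le_of_le_radical_of_fg hIr hIfg
  have hN' : (Ideal.span (Set.range f)) ^ (N + 1) ≤ Module.annihilator R M.H :=
    (Ideal.pow_le_pow_right N.le_succ).trans hN
  have htor : Module.IsTorsionBySet R M.H ((Ideal.span (Set.range f)) ^ (N + 1) : Ideal R) := by
    intro x a
    exact Module.mem_annihilator.mp (hN' a.2) x
  have _ := FDA_quot (k := k) _ hIfg hfin N
  have hkf : Module.Finite k M.H := FDA_fin _ htor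
  obtain ⟨m, s, hs⟩ := Module.Finite.exists_fin (R := k) (M := M.H)
  choose z hz using fun i => Submodule.Quotient.mk_surjective _ (s i)
  refine ⟨m, fun i => (z i).1, fun i => (z i).2, fun x hx => ?_⟩
  have h1 : (Submodule.Quotient.mk ⟨x, hx⟩ : M.H) ∈ Submodule.span k (Set.range s) := by
    rw [hs]
    exact Submodule.mem_top
  rw [Submodule.mem_span_range_iff_exists_fun] at h1
  obtain ⟨c, hc⟩ := h1
  have h2 : (Submodule.Quotient.mk (⟨x, hx⟩ - ∑ i, algebraMap k R (c i) • z i) : M.H) = 0 := by
    have h3 : (Submodule.Quotient.mk (⟨x, hx⟩ - ∑ i, algebraMap k R (c i) • z i) : M.H) =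
        (Submodule.Quotient.mk ⟨x, hx⟩ : M.H) - ∑ i, c i • s i := by
      rw [Submodule.Quotient.mk_sub]
      congr 1
      have h4 : (Submodule.Quotient.mk (∑ i, algebraMap k R (c i) • z i) : M.H) =
          ∑ i, (Submodule.Quotient.mk (algebraMap k R (c i) • z i) : M.H) :=
        map_sum (Submodule.mkQ _) _ _
      rw [h4]
      refine Finset.sum_congr rfl fun i _ => ?_
      rw [← hmk, hz i]
      rfl
    rw [h3, hc, sub_self]
  rw [hzero] at h2
  obtain ⟨y, hy⟩ := h2
  refine ⟨y, c, ?_⟩
  have h5 : ((⟨x, hx⟩ - ∑ i, algebraMap k R (c i) • z i : LinearMap.ker M.d) : M.X) =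
      x - ∑ i, algebraMap k R (c i) • (z i).1 := by
    rw [AddSubgroupClass.coe_sub, AddSubmonoidClass.coe_finsetSum]
    rfl
  rw [hy, h5, sub_add_cancel]

end MP8a
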