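import Pool.Agent.Lib_MP_8a48ad_gt.FDim

/-! # Piece FDB: DG modules with finite dimensional cohomology are built from `k` -/

set_option autoImplicit false

namespace MP8a

universe u

variable {k : Type u} [Field k] {n : ℕ} {R : Type u} [CommRing R] [Algebra k R]
  [Algebra R (Sn k n)] {GR : Gr R}

/-- the augmentation `R → R_0 = k` -/
noncomputable def aug (k : Type u) [Field k] (n : ℕ) (R : Type u) [CommRing R] [Algebra R (Sn k n)] : R →+* k :=
  (MvPolynomial.constantCoeff (R := k) (σ := Fin n)).comp (algebraMap R (Sn k n))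

theorem aug_hom (hS : Setup k n GR) {i : ℤ} {a : R} (ha : GR.c i a = a) (hi : i ≠ 0) :
    aug k n R a = 0 := by
  have h1 : (grS k n).c i (algebraMap R (Sn k n) a) = algebraMap R (Sn k n) a := by
    rw [← hS.compat, ha]
  have h2 := grS_zero (algebraMap R (Sn k n) a)
  rw [← h1, (grS k n).c_c, if_neg (Ne.symm hi), h1] at h2
  have h3 : MvPolynomial.constantCoeff (algebraMap R (Sn k n) a) = 0 := by
    have h4 : (MvPolynomial.C (MvPolynomial.constantCoeff (algebraMap R (Sn k n) a)) : Sn k n) =
        MvPolynomial.C 0 := by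
      rw [← h2, MvPolynomial.C_0]
    exact MvPolynomial.C_injective _ _ h4
  exact h3

theorem aug_algebraMap (hS : Setup k n GR) (r : k) : aug k n R (algebraMap k R r) = r := by
  have := hS.tower
  show MvPolynomial.constantCoeff (algebraMap R (Sn k n) (algebraMap k R r)) = r
  rw [← IsScalarTower.algebraMap_apply k R (Sn k n) r]
  exact MvPolynomial.constantCoeff_C _ r

/-- `k` in degree `0` as a DG `R`-module (not reducible) -/
noncomputable def kM (hS : Setup k n GR) : DGM GR :=
  { X := k
    instM := Module.compHom k (aug k n R)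
    pr := fun i => if i = 0 then AddMonoidHom.id k else 0
    pr_pr := by
      intro i j x
      by_cases h : j = 0
      · by_cases h' : i = 0
        · simp [h, h']
        · simp [h, h']
      · simp [h]
    fin := fun x => ⟨{0}, by simp⟩
    smul := by
      intro i j a x ha hx
      by_cases hj : j = 0
      · subst hj
        by_cases hi : i = 0
        · subst hi
          simp
        · have h1 : (letI : Module R k := Module.compHom k (aug k n R); a • x) = 0 := by
            show aug k n R a • x = 0
            rw [aug_hom hS ha hi, zero_smul]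
          rw [h1, map_zero]
      · have hx0 : x = 0 := by
          rw [if_neg hj] at hx
          exact hx.symm
        rw [hx0]
        have h1 : (letI : Module R k := Module.compHom k (aug k n R); a • (0 : k)) = 0 := by
          show aug k n R a • (0 : k) = 0
          rw [smul_zero]
        rw [h1, map_zero]
    d := 0
    d_hom := by
      intro i x hx
      simp
    d_d := fun _ => rfl }

/-- `l` cycles generate the cohomology over `k` -/
def FDl (k : Type u) [Field k] [Algebra k R] (l : ℕ) (M : DGM GR) : Prop :=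
  ∃ z : Fin l → M.X, (∀ i, M.d (z i) = 0) ∧
    ∀ x, M.d x = 0 → ∃ (y : M.X) (c : Fin l → k), x = M.d y + ∑ i, algebraMap k R (c i) • z i

theorem FDl.qis {l : ℕ} {M N : DGM GR} {f : M.X →ₗ[R] N.X} (hf : IsMor M N 0 f)
    (h : IsQis M N f) (hN : FDl k l N) : FDl k l M := by
  obtain ⟨z, hz, hsp⟩ := hN
  choose x w hx hxw using fun i => h.2 (z i) (hz i)
  refine ⟨x, hx, fun v hv => ?_⟩
  have h1 : N.d (f v) = 0 := by rw [hf.d, hv, map_zero]
  obtain ⟨y, c, hyc⟩ := hsp (f v) h1
  have h2 : M.d (v - ∑ i, algebraMap k R (c i) • x i) = 0 := by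
    rw [map_sub, hv, map_sum]
    have h3 : ∑ i, M.d (algebraMap k R (c i) • x i) = 0 :=
      Finset.sum_eq_zero fun i _ => by rw [map_smul, hx, smul_zero]
    rw [h3, sub_zero]
  have h3 : N.d (y + ∑ i, algebraMap k R (c i) • w i) =
      f (v - ∑ i, algebraMap k R (c i) • x i) := by
    rw [map_sub, hyc, map_add, map_sum, map_sum]
    have h4 : ∑ i, algebraMap k R (c i) • z i = ∑ i, f (algebraMap k R (c i) • x i) +
        ∑ i, N.d (algebraMap k R (c i) • w i) := by
      rw [← Finset.sum_add_distrib]
      refine Finset.sum_congr rfl fun i _ => ?_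
      rw [hxw i, smul_add, map_smul, map_smul]
    rw [h4]
    abel
  obtain ⟨t, ht⟩ := h.1 _ h2 _ h3
  exact ⟨t, c, by rw [ht]; abel⟩

theorem exists_lam (M : DGM GR) (z : M.X) (hz : z ≠ 0) : ∃ lam : M.X → k,
    (∀ x y, lam (x + y) = lam x + lam y) ∧
    (∀ (c : k) x, lam (algebraMap k R c • x) = c * lam x) ∧ lam z = 1 := by
  let _ : Module k M.X := Module.compHom M.X (algebraMap k R)
  have h1 : ¬ ∀ φ : Module.Dual k M.X, φ z = 0 := fun h =>
    hz ((Module.forall_dual_apply_eq_zero_iff k z).1 h)
  push Not at h1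
  obtain ⟨φ, hφ⟩ := h1
  refine ⟨fun x => (φ z)⁻¹ * φ x, fun x y => ?_, fun c x => ?_, inv_mul_cancel₀ hφ⟩
  · show (φ z)⁻¹ * φ (x + y) = _
    rw [map_add, mul_add]
  · have h2 : φ (algebraMap k R c • x) = c * φ x := φ.map_smul c x
    show (φ z)⁻¹ * φ (algebraMap k R c • x) = c * ((φ z)⁻¹ * φ x)
    rw [h2]
    ring

theorem la_compl {V : Type u} [AddCommGroup V] [Module k V] (A B : Submodule k V) (h : B ≤ A) :
    ∃ D : Submodule k V, D ≤ A ∧ (∀ x ∈ D, x ∈ B → x = 0) ∧ ∀ x ∈ A, ∃ b ∈ B, x - b ∈ D := by
  obtain ⟨D, hD⟩ := Submodule.exists_isCompl B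
  refine ⟨D ⊓ A, inf_le_right, fun x hx hB => ?_, fun x hx => ?_⟩
  · exact Submodule.disjoint_def.1 hD.disjoint x hB hx.1
  · have h1 : x ∈ B ⊔ D := by
      rw [hD.sup_eq_top]
      exact Submodule.mem_top
    obtain ⟨b, hb, e, he, rfl⟩ := Submodule.mem_sup.1 h1
    refine ⟨b, hb, ?_⟩
    rw [add_sub_cancel_left]
    refine ⟨he, ?_⟩
    have h2 := A.sub_mem hx (h hb)
    rw [add_sub_cancel_left] at h2
    exact h2

theorem exists_cpl (hS : Setup k n GR) (M : DGM GR) (i : ℤ) : ∃ D : Set M.X, (0 : M.X) ∈ D ∧
    (∀ x ∈ D, ∀ y ∈ D, x + y ∈ D) ∧ (∀ x ∈ D, M.pr i x = x) ∧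
    (∀ (c : k), ∀ x ∈ D, algebraMap k R c • x ∈ D) ∧ (∀ x ∈ D, (∃ y, M.d y = x) → x = 0) ∧
    ∀ x, M.pr i x = x → ∃ y u, u ∈ D ∧ x = M.d y + u := by
  let _ : Module k M.X := Module.compHom M.X (algebraMap k R)
  have hsm : ∀ (c : k) (x : M.X), c • x = algebraMap k R c • x := fun _ _ => rfl
  have hpr : ∀ (c : k) (x : M.X), M.pr i x = x → M.pr i (c • x) = c • x := by
    intro c x hx
    have h1 := M.smul (hS.c_algebraMap c) hx
    rw [zero_add] at h1
    exact h1
  obtain ⟨D, hD1, hD2, hD3⟩ := la_compl (k := k)
    ({ carrier := {x | M.pr i x = x}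
       add_mem' := fun {a b} ha hb => by
        show M.pr i (a + b) = a + b
        rw [map_add]
        exact congrArg₂ (· + ·) ha hb
       zero_mem' := map_zero _
       smul_mem' := fun c x hx => hpr c x hx } : Submodule k M.X)
    ({ carrier := {x | M.pr i x = x ∧ ∃ y, M.d y = x}
       add_mem' := fun {a b} ha hb => by
        obtain ⟨y, hy⟩ := ha.2
        obtain ⟨y', hy'⟩ := hb.2
        refine ⟨?_, y + y', ?_⟩
        · rw [map_add]
          exact congrArg₂ (· + ·) ha.1 hb.1
        · rw [map_add, hy, hy']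
       zero_mem' := ⟨map_zero _, 0, map_zero _⟩
       smul_mem' := fun c x hx => by
        obtain ⟨y, hy⟩ := hx.2
        refine ⟨hpr c x hx.1, algebraMap k R c • y, ?_⟩
        rw [map_smul, hy]
        rfl } : Submodule k M.X) (fun x hx => hx.1)
  refine ⟨D, D.zero_mem, fun x hx y hy => D.add_mem hx hy, fun x hx => hD1 hx,
    fun c x hx => D.smul_mem c hx, fun x hx hy => hD2 x hx ⟨hD1 hx, hy⟩, fun x hx => ?_⟩
  obtain ⟨b, ⟨_, y, hy⟩, hb⟩ := hD3 x hx
  exact ⟨y, x - b, hb, by rw [hy]; abel⟩

/-- the second step: `M` starts in degree `i` with a cycle -/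
theorem fdl_step (hS : Setup k n GR) {T : DGM GR → Prop} (hT : IsThick T) (hk : T (kM hS))
    {l : ℕ} (ih : ∀ N : DGM GR, FDl k l N → T N) (M : DGM GR) (i : ℤ)
    (h0 : ∀ j, j < i → ∀ x, M.pr j x = 0) (z : M.X) (hz : M.pr i z = z) (hdz : M.d z = 0)
    (hz0 : z ≠ 0) (hl : FDl k (l + 1) M) : T M := by
  obtain ⟨lam, hl1, hl2, hl3⟩ := exists_lam (k := k) M z hz0
  have hl0 : lam 0 = 0 := by
    have h1 := hl1 0 0
    rw [add_zero] at h1
    exact left_eq_add.mp h1
  let Lam : M.X →ₗ[R] ((kM hS).sh (-i)).X :=
    { toFun := fun x => (lam (M.pr i x) : k)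
      map_add' := fun x y => by rw [map_add, hl1]; rfl
      map_smul' := fun a x => by
        show lam (M.pr i (a • x)) = aug k n R a * lam (M.pr i x)
        refine GR.ind (P := fun a => lam (M.pr i (a • x)) = aug k n R a * lam (M.pr i x))
          ?_ ?_ ?_ a
        · rw [zero_smul, map_zero, map_zero, zero_mul, hl0]
        · intro a b ha hb
          rw [add_smul, map_add, hl1, ha, hb, map_add, add_mul]
        · intro e a ha
          rw [M.pr_smul' ha]
          rcases lt_trichotomy e 0 with he | he | he
          · have ha0 : a = 0 := by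
              rw [← ha]
              exact hS.c_neg he a
            rw [ha0, zero_smul, map_zero, zero_mul, hl0]
          · subst he
            obtain ⟨r, hr⟩ := hS.c_zero a
            rw [ha] at hr
            rw [hr, hl2, aug_algebraMap hS, sub_zero]
          · rw [h0 (i - e) (by omega), smul_zero, hl0, aug_hom hS ha (by omega), zero_mul] }
  have hLam : ∀ x, Lam x = (lam (M.pr i x) : k) := fun _ => rfl
  have hmor : IsMor M ((kM hS).sh (-i)) 0 Lam := by
    constructor
    · intro j x
      show (if j + 0 + -i = 0 then AddMonoidHom.id k else 0) (lam (M.pr i x)) =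
        lam (M.pr i (M.pr j x))
      by_cases hj : j = i
      · subst hj
        rw [if_pos (by ring), M.pr_self]
        rfl
      · rw [if_neg (by omega), M.pr_pr, if_neg (Ne.symm hj), hl0]
        rfl
    · intro x
      have h1 : M.pr i (M.d x) = 0 := by
        have h2 := M.pr_d (i - 1) x
        rw [sub_add_cancel, h0 (i - 1) (by omega), map_zero] at h2
        exact h2
      have h2 : ((kM hS).sh (-i)).d (Lam x) = 0 := by
        show (if Even (-i) then (kM hS).d else -(kM hS).d) (Lam x) = 0
        have h3 : (kM hS).d = 0 := rfl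
        rw [h3]
        by_cases he : Even (-i)
        · rw [if_pos he]
          rfl
        · rw [if_neg he, neg_zero]
          rfl
      rw [h2, hLam, h1, hl0]
      rfl
  let φ : M.X →+ k := AddMonoidHom.mk' (fun x => lam (M.pr i x)) (fun x y => by rw [map_add, hl1])
  have hφ : ∀ x, φ x = lam (M.pr i x) := fun _ => rfl
  have hker : ∀ x, x ∈ LinearMap.ker Lam ↔ φ x = 0 := fun _ => Iff.rfl
  have hφz : φ z = 1 := by
    rw [hφ, hz]
    exact hl3
  have hφc : ∀ (c : k) (x : M.X), φ (algebraMap k R c • x) = c * φ x := by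
    intro c x
    have h1 := M.pr_smul' (hS.c_algebraMap c) i x
    rw [hφ, h1, hl2, hφ, sub_zero]
  have hφd : ∀ y, φ (M.d y) = 0 := by
    intro y
    have h2 := M.pr_d (i - 1) y
    rw [sub_add_cancel, h0 (i - 1) (by omega), map_zero] at h2
    rw [hφ, h2, hl0]
  have hsurj : ∀ c : k, φ (algebraMap k R c • z) = c := by
    intro c
    rw [hφc, hφz, mul_one]
  have hses' : IsSES (M.sub (LinearMap.ker Lam) hmor.ker_pr hmor.ker_d) M ((kM hS).sh (-i))
      (LinearMap.ker Lam).subtype Lam := by
    refine ⟨Subtype.val_injective, fun c => ⟨algebraMap k R c • z, hsurj c⟩, fun x => ?_⟩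
    exact ⟨fun h => ⟨⟨x, h⟩, rfl⟩, fun ⟨y, hy⟩ => hy ▸ y.2⟩
  refine hT.ses2 _ _ _ _ _ (isMor_subtype M _ hmor.ker_pr hmor.ker_d) hmor hses' (ih _ ?_)
    (hT.sh _ _ hk)
  obtain ⟨w, hw, hsp⟩ := hl
  have hex : ∃ j, φ (w j) ≠ 0 := by
    by_contra hcon
    push Not at hcon
    obtain ⟨y, c, hyc⟩ := hsp z hdz
    have h1 : φ z = 0 := by
      rw [hyc, map_add, map_sum, hφd, zero_add]
      refine Finset.sum_eq_zero fun j _ => ?_
      rw [hφc, hcon j, mul_zero]
    rw [hφz] at h1
    exact one_ne_zero h1
  obtain ⟨j0, hj0⟩ := hex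
  obtain ⟨q, hq⟩ : ∃ q : Fin l → k, q = fun j => φ (w (j0.succAbove j)) / φ (w j0) := ⟨_, rfl⟩
  have hmem : ∀ j, w (j0.succAbove j) - algebraMap k R (q j) • w j0 ∈ LinearMap.ker Lam := by
    intro j
    rw [hker, map_sub, hφc, hq]
    show φ (w (j0.succAbove j)) - φ (w (j0.succAbove j)) / φ (w j0) * φ (w j0) = 0
    rw [div_mul_cancel₀ _ hj0, sub_self]
  refine ⟨fun j => ⟨w (j0.succAbove j) - algebraMap k R (q j) • w j0, hmem j⟩, fun j => ?_,
    fun x hx => ?_⟩
  · refine Subtype.ext ?_
    show M.d (w (j0.succAbove j) - algebraMap k R (q j) • w j0) = 0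
    rw [map_sub, map_smul, hw, hw, smul_zero, sub_zero]
  · obtain ⟨y, c, hyc⟩ := hsp x.1 (congrArg Subtype.val hx)
    have hx0 : φ x.1 = 0 := (hker x.1).1 x.2
    have h1 : ∑ j, c j * φ (w j) = 0 := by
      rw [hyc, map_add, hφd, zero_add, map_sum] at hx0
      rw [← hx0]
      refine Finset.sum_congr rfl fun j _ => ?_
      rw [hφc]
    have hy' : y - algebraMap k R (φ y) • z ∈ LinearMap.ker Lam := by
      rw [hker, map_sub, hφc, hφz, mul_one, sub_self]
    refine ⟨⟨y - algebraMap k R (φ y) • z, hy'⟩, fun j => c (j0.succAbove j), ?_⟩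
    refine Subtype.ext ?_
    have h2 : (((M.sub (LinearMap.ker Lam) hmor.ker_pr hmor.ker_d).d
        ⟨y - algebraMap k R (φ y) • z, hy'⟩ + ∑ j, algebraMap k R (c (j0.succAbove j)) •
          (⟨w (j0.succAbove j) - algebraMap k R (q j) • w j0, hmem j⟩ : LinearMap.ker Lam) :
        LinearMap.ker Lam) : M.X) = M.d (y - algebraMap k R (φ y) • z) +
        ∑ j, algebraMap k R (c (j0.succAbove j)) • (w (j0.succAbove j) -
          algebraMap k R (q j) • w j0) := by
      rw [Submodule.coe_add, Submodule.coe_sum]
      rfl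
    refine Eq.trans ?_ h2.symm
    rw [map_sub, map_smul, hdz, smul_zero, sub_zero, hyc]
    congr 1
    rw [Fin.sum_univ_succAbove _ j0]
    rw [Fin.sum_univ_succAbove _ j0] at h1
    have h3 : c j0 = -∑ j, c (j0.succAbove j) * q j := by
      have h4 : c j0 * φ (w j0) = -∑ j, c (j0.succAbove j) * φ (w (j0.succAbove j)) :=
        eq_neg_of_add_eq_zero_left h1
      have h5 : c j0 = (-∑ j, c (j0.succAbove j) * φ (w (j0.succAbove j))) / φ (w j0) := by
        rw [← h4, mul_div_cancel_right₀ _ hj0]
      rw [h5, neg_div, Finset.sum_div, hq]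
      refine congrArg Neg.neg (Finset.sum_congr rfl fun j _ => ?_)
      rw [mul_div_assoc]
    have h6 : ∑ j, algebraMap k R (c (j0.succAbove j)) • (w (j0.succAbove j) -
        algebraMap k R (q j) • w j0) = ∑ j, algebraMap k R (c (j0.succAbove j)) •
        w (j0.succAbove j) - algebraMap k R (∑ j, c (j0.succAbove j) * q j) • w j0 := by
      rw [map_sum, Finset.sum_smul, ← Finset.sum_sub_distrib]
      refine Finset.sum_congr rfl fun j _ => ?_
      rw [smul_sub, smul_smul, map_mul]
    rw [h6, h3, map_neg, neg_smul]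
    abel

/-- homogeneous cycles are boundaries: acyclic -/
theorem acy_of_hom (M : DGM GR) (h : ∀ i x, M.pr i x = x → M.d x = 0 → ∃ y, M.d y = x) :
    Acy M := by
  intro x hx
  obtain ⟨s, hs⟩ := M.fin x
  choose! y hy using fun i (_ : i ∈ s) => h i (M.pr i x) (M.pr_self i x) (by
    rw [← M.pr_d, hx, map_zero])
  refine ⟨∑ i ∈ s, y i, ?_⟩
  rw [map_sum, ← hs]
  refine Finset.sum_congr rfl fun i hi => ?_
  exact hy i hi

theorem exists_trunc (M : DGM GR) (i : ℤ) (y : M.X) :
    ∃ y' : M.X, ∀ l, M.pr l y' = if i < l then M.pr l y else 0 := by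
  obtain ⟨s, hs0, hs⟩ := M.exists_support y
  refine ⟨∑ j ∈ s.filter (fun j => i < j), M.pr j y, fun l => ?_⟩
  rw [map_sum]
  by_cases hl : l ∈ s.filter (fun j => i < j)
  · rw [Finset.sum_eq_single_of_mem l hl (fun j _ hj => by rw [M.pr_pr, if_neg (Ne.symm hj)]),
      M.pr_self, if_pos (Finset.mem_filter.1 hl).2]
  · rw [Finset.sum_eq_zero (fun j hj => by
      rw [M.pr_pr, if_neg]
      rintro rfl
      exact hl hj)]
    by_cases h1 : i < l
    · rw [if_pos h1]
      have h2 : l ∉ s := fun h => hl (Finset.mem_filter.2 ⟨h, h1⟩)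
      exact (hs0 l h2).symm
    · rw [if_neg h1]

/-- PIECE FDB. PROOF. Induction on the number of degrees `i` with `H^i(M) ≠ 0` (finite). If it is `0`, `M` is acyclic. Otherwise let `i` be the smallest such degree.
Choose a complement `D` of the cycles in the `k`-space `M_i`, and let `N = {x | pr j x = 0 for j < i, pr i x ∈ D}`, a sub-DG-module (`R` has no elements of
negative degree, `R_0 = k`, and `D` is in degree `i`, so `a x ∈ N` for `x ∈ N`: `pr i (a x) = c_0(a) pr i x`). `H^j(N) = H^j(M)` for `j > i` and `H^j(N) = 0` for `j ≤ i`, so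
`N ∈ T` by induction. `Q = M/N` has cohomology only in degree `i`, `Q_j = 0` for `j > i`, and every element of `Q_i` is a cycle. Let `H' ⊆ Q_i` be a complement of `d Q_{i-1}`: a
sub-DG-module with zero differential, `R` acts through the augmentation, finite dimensional; the inclusion is a quasi-isomorphism. `H'` is a finite direct sum
of copies of `(kM hS).sh (-i)` (induction on the dimension, `IsThick.prod`, `IsThick.iso`). So `Q ∈ T`, `M ∈ T` (`ses2`). -/
theorem thick_of_FDH (hS : Setup k n GR) {T : DGM GR → Prop} (hT : IsThick T) (hk : T (kM hS))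
    {M : DGM GR} (hM : FDH k M) : T M := by
  obtain ⟨l, hM⟩ := hM
  have hM' : FDl k l M := hM
  clear hM
  induction l generalizing M with
  | zero =>
    refine hT.acy hk fun x hx => ?_
    obtain ⟨z, _, hsp⟩ := hM'
    obtain ⟨y, c, hyc⟩ := hsp x hx
    rw [Finset.univ_eq_empty, Finset.sum_empty, add_zero] at hyc
    exact ⟨y, hyc.symm⟩
  | succ l ih =>
    by_cases hacy : ∀ i x, M.pr i x = x → M.d x = 0 → ∃ y, M.d y = x
    · exact hT.acy hk (acy_of_hom M hacy)
    · push Not at hacy
      obtain ⟨i1, x1, hx1, hdx1, hnx1⟩ := hacy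
      -- bounded below
      obtain ⟨b, hb⟩ : ∃ b : ℤ, ∀ i x, M.pr i x = x → M.d x = 0 → (∀ y, M.d y ≠ x) → b ≤ i := by
        obtain ⟨z, _, hsp⟩ := hM'
        choose s hs0 hs using fun j => M.exists_support (z j)
        obtain ⟨b, hb⟩ : ∃ b : ℤ, ∀ j, ∀ i ∈ s j, b ≤ i := by
          obtain ⟨b, hb⟩ := (Finset.univ.biUnion s).bddBelow
          refine ⟨b, fun j i hi => hb ?_⟩
          exact Finset.mem_coe.2 (Finset.mem_biUnion.2 ⟨j, Finset.mem_univ _, hi⟩)
        refine ⟨b, fun i x hx hdx hnx => ?_⟩
        by_contra hcon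
        obtain ⟨y, c, hyc⟩ := hsp x hdx
        refine hnx (M.pr (i - 1) y) ?_
        have h1 : M.pr i x = M.d (M.pr (i - 1) y) + ∑ j, M.pr i (algebraMap k R (c j) • z j) := by
          rw [hyc, map_add, map_sum]
          congr 1
          have h2 := M.pr_d (i - 1) y
          rw [sub_add_cancel] at h2
          exact h2
        have h2 : ∑ j, M.pr i (algebraMap k R (c j) • z j) = 0 := by
          refine Finset.sum_eq_zero fun j _ => ?_
          rw [M.pr_smul' (hS.c_algebraMap (c j)), sub_zero,
            hs0 j i (fun h => hcon (hb j i h)), smul_zero]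
        rw [h2, add_zero, hx] at h1
        exact h1.symm
      obtain ⟨i, ⟨z, hz, hdz, hnz⟩, hmin⟩ := Int.exists_least_of_bdd
        (P := fun i => ∃ x, M.pr i x = x ∧ M.d x = 0 ∧ ∀ y, M.d y ≠ x)
        ⟨b, fun i ⟨x, h1, h2, h3⟩ => hb i x h1 h2 h3⟩ ⟨i1, x1, hx1, hdx1, hnx1⟩
      have hlow : ∀ j, j < i → ∀ x, M.pr j x = x → M.d x = 0 → ∃ y, M.d y = x := by
        intro j hj x hx hdx
        by_contra hcon
        push Not at hcon
        have := hmin j ⟨x, hx, hdx, hcon⟩
        omega
      obtain ⟨D, hD0, hDa, hDi, hDs, hDb, hDd⟩ := exists_cpl hS M i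
      -- the submodule
      let U : Submodule R M.X :=
        { carrier := {x | (∀ j, j < i → M.pr j x = 0) ∧ M.pr i x ∈ D}
          add_mem' := fun {x y} hx hy => by
            refine ⟨fun j hj => ?_, ?_⟩
            · rw [map_add, hx.1 j hj, hy.1 j hj, add_zero]
            · rw [map_add]
              exact hDa _ hx.2 _ hy.2
          zero_mem' := ⟨fun j _ => map_zero _, by rw [map_zero]; exact hD0⟩
          smul_mem' := fun a x hx => by
            refine GR.ind (P := fun a => (∀ j, j < i → M.pr j (a • x) = 0) ∧ M.pr i (a • x) ∈ D)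
              ?_ ?_ ?_ a
            · rw [zero_smul]
              exact ⟨fun j _ => map_zero _, by rw [map_zero]; exact hD0⟩
            · intro a b ha hb
              rw [add_smul]
              refine ⟨fun j hj => ?_, ?_⟩
              · rw [map_add, ha.1 j hj, hb.1 j hj, add_zero]
              · rw [map_add]
                exact hDa _ ha.2 _ hb.2
            · intro e a ha
              rcases lt_trichotomy e 0 with he | he | he
              · have ha0 : a = 0 := by
                  rw [← ha]
                  exact hS.c_neg he a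
                rw [ha0, zero_smul]
                exact ⟨fun j _ => map_zero _, by rw [map_zero]; exact hD0⟩
              · subst he
                refine ⟨fun j hj => ?_, ?_⟩
                · rw [M.pr_smul' ha, sub_zero, hx.1 j hj, smul_zero]
                · rw [M.pr_smul' ha, sub_zero]
                  obtain ⟨r, hr⟩ := hS.c_zero a
                  rw [ha] at hr
                  rw [hr]
                  exact hDs r _ hx.2
              · refine ⟨fun j hj => ?_, ?_⟩
                · rw [M.pr_smul' ha, hx.1 (j - e) (by omega), smul_zero]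
                · rw [M.pr_smul' ha, hx.1 (i - e) (by omega), smul_zero]
                  exact hD0 }
      have hUm : ∀ x, x ∈ U ↔ (∀ j, j < i → M.pr j x = 0) ∧ M.pr i x ∈ D := fun _ => Iff.rfl
      have hU1 : ∀ j, ∀ x ∈ U, M.pr j x ∈ U := by
        intro j x hx
        rw [hUm] at hx ⊢
        refine ⟨fun l hl => ?_, ?_⟩
        · rw [M.pr_pr]
          by_cases h : l = j
          · rw [if_pos h, ← h, hx.1 l hl]
          · rw [if_neg h]
        · rw [M.pr_pr]
          by_cases h : i = j
          · rw [if_pos h, ← h]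
            exact hx.2
          · rw [if_neg h]
            exact hD0
      have hprd : ∀ j x, M.pr j (M.d x) = M.d (M.pr (j - 1) x) := by
        intro j x
        have h2 := M.pr_d (j - 1) x
        rw [sub_add_cancel] at h2
        exact h2
      have hU2 : ∀ x ∈ U, M.d x ∈ U := by
        intro x hx
        rw [hUm] at hx ⊢
        refine ⟨fun l hl => ?_, ?_⟩
        · rw [hprd, hx.1 (l - 1) (by omega), map_zero]
        · rw [hprd, hx.1 (i - 1) (by omega), map_zero]
          exact hD0
      have hmor := isMor_subtype M U hU1 hU2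
      have hq : IsQis (M.sub U hU1 hU2) M U.subtype := by
        constructor
        · intro x hx y hy
          have hy' : M.d y = x.1 := hy
          have hxU := (hUm x.1).1 x.2
          have hxi : M.pr i x.1 = 0 := by
            refine hDb _ hxU.2 ⟨M.pr (i - 1) y, ?_⟩
            rw [← hprd, hy']
          obtain ⟨y1, hy1⟩ := exists_trunc M i y
          obtain ⟨y2, u, hu, hyu⟩ := hDd (M.pr i y) (M.pr_self i y)
          have hui := hDi u hu
          have hu' : ∀ l, M.pr l (y1 + u) = if i < l then M.pr l y else if l = i then u else 0 := by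
            intro l
            rw [map_add, hy1]
            rcases lt_trichotomy i l with h | h | h
            · rw [if_pos h, if_pos h, M.pr_ne hui (by omega), add_zero]
            · subst h
              rw [if_neg (lt_irrefl _), if_neg (lt_irrefl _), if_pos rfl, hui, zero_add]
            · rw [if_neg (by omega), if_neg (by omega), if_neg (by omega),
                M.pr_ne hui (by omega), add_zero]
          have hm : y1 + u ∈ U := by
            rw [hUm]
            refine ⟨fun j hj => ?_, ?_⟩
            · rw [hu', if_neg (by omega), if_neg (by omega)]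
            · rw [hu', if_neg (lt_irrefl _), if_pos rfl]
              exact hu
          refine ⟨⟨y1 + u, hm⟩, Subtype.ext ?_⟩
          show M.d (y1 + u) = x.1
          refine M.ext_pr fun l => ?_
          rw [hprd, hu']
          rcases lt_trichotomy i (l - 1) with h | h | h
          · rw [if_pos h, ← hprd, hy']
          · rw [if_neg (by omega), if_pos h.symm]
            have h3 : M.d u = M.d (M.pr i y) := by
              rw [hyu, map_add, M.d_d, zero_add]
            rw [h3, h, ← hprd, hy']
          · rw [if_neg (by omega), if_neg (by omega), map_zero]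
            rcases lt_or_eq_of_le (show l ≤ i by omega) with h4 | h4
            · exact (hxU.1 l h4).symm
            · rw [h4]
              exact hxi.symm
        · intro y hy
          obtain ⟨s, hs⟩ := M.fin y
          have key : ∀ j, ∃ x w, x ∈ U ∧ M.d x = 0 ∧ M.pr j y = x + M.d w := by
            intro j
            have hdj : M.d (M.pr j y) = 0 := by rw [← M.pr_d, hy, map_zero]
            have hjj := M.pr_self j y
            rcases lt_trichotomy j i with h | h | h
            · obtain ⟨w, hw⟩ := hlow j h _ hjj hdj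
              exact ⟨0, w, U.zero_mem, map_zero _, by rw [hw, zero_add]⟩
            · subst h
              obtain ⟨w, u, hu, hwu⟩ := hDd _ hjj
              have hui := hDi u hu
              refine ⟨u, w, ?_, ?_, ?_⟩
              · rw [hUm]
                refine ⟨fun l hl => M.pr_ne hui (by omega), ?_⟩
                rw [hui]
                exact hu
              · rw [hwu, map_add, M.d_d, zero_add] at hdj
                exact hdj
              · rw [hwu]
                abel
            · refine ⟨M.pr j y, 0, ?_, hdj, by rw [map_zero, add_zero]⟩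
              rw [hUm]
              refine ⟨fun l hl => M.pr_ne hjj (by omega), ?_⟩
              rw [M.pr_ne hjj (by omega)]
              exact hD0
          choose x w hx hdx hxw using key
          refine ⟨⟨∑ j ∈ s, x j, U.sum_mem fun j _ => hx j⟩, ∑ j ∈ s, w j, Subtype.ext ?_, ?_⟩
          · show M.d (∑ j ∈ s, x j) = 0
            rw [map_sum]
            exact Finset.sum_eq_zero fun j _ => hdx j
          · show y = (∑ j ∈ s, x j) + M.d (∑ j ∈ s, w j)
            rw [map_sum, ← Finset.sum_add_distrib]
            rw [← hs]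
            exact Finset.sum_congr rfl fun j _ => hxw j
      rw [← hT.qis _ _ _ hmor hq]
      obtain ⟨w, u, hu, hwu⟩ := hDd z hz
      have hui := hDi u hu
      have huU : u ∈ U := by
        rw [hUm]
        refine ⟨fun l hl => M.pr_ne hui (by omega), ?_⟩
        rw [hui]
        exact hu
      refine fdl_step hS hT hk (fun N hN => ih hN) (M.sub U hU1 hU2) i ?_ ⟨u, huU⟩
        (Subtype.ext hui) (Subtype.ext ?_) ?_ (hM'.qis hmor hq)
      · intro j hj x
        refine Subtype.ext ?_
        show M.pr j x.1 = 0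
        exact ((hUm x.1).1 x.2).1 j hj
      · show M.d u = 0
        rw [hwu, map_add, M.d_d, zero_add] at hdz
        exact hdz
      · intro h
        have h1 : u = 0 := congrArg Subtype.val h
        rw [h1, add_zero] at hwu
        exact hnz w hwu.symm

end MP8a
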