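import Pool.Agent.Lib_MP_8a48ad_gt.IntCl

/-! # Piece FLAT1: flatness in codimension one -/

set_option autoImplicit false

namespace MP8a

universe u

variable {k : Type u} [Field k] {n : ℕ} {W : Type*} [Group W] [Finite W]

/-- PROOF. `R_p` is an integrally closed noetherian domain of dimension `≤ 1`, so a Dedekind domain; `S_p` is torsion free, as `S` is a domain containing `R`
(`IsDedekindDomain.flat_iff_torsion_eq_bot`). -/
theorem flat_of_height_le_one (ρ : W →* GL (Fin n) k) (p : Ideal (invA ρ)) [p.IsPrime]
    (hp : p.height ≤ 1) : Module.Flat (Localization.AtPrime p)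
      (LocalizedModule p.primeCompl (Sn k n)) := by
  have h1 : IsIntegrallyClosed (invA ρ) := intCl_inv ρ
  have h2 : IsNoetherianRing (invA ρ) := noeth_inv ρ
  have hle : p.primeCompl ≤ nonZeroDivisors (invA ρ) := p.primeCompl_le_nonZeroDivisors
  have h3 : IsDomain (Localization.AtPrime p) := IsLocalization.isDomain_localization hle
  have h4 : IsNoetherianRing (Localization.AtPrime p) :=
    IsLocalization.isNoetherianRing p.primeCompl _ h2
  have h5 : IsIntegrallyClosed (Localization.AtPrime p) :=
    isIntegrallyClosed_of_isLocalization _ p.primeCompl hle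
  have h6 : ringKrullDim (Localization.AtPrime p) ≤ 1 := by
    rw [IsLocalization.AtPrime.ringKrullDim_eq_height p (Localization.AtPrime p)]
    exact_mod_cast hp
  have h7 : Ring.KrullDimLE 1 (Localization.AtPrime p) := by
    rw [Ring.krullDimLE_iff]
    exact_mod_cast h6
  have h8 : Ring.DimensionLEOne (Localization.AtPrime p) := by
    constructor
    intro q hq hq'
    exact (Ring.krullDimLE_one_iff_of_noZeroDivisors.mp h7) q hq hq'
  have h9 : IsDedekindDomain (Localization.AtPrime p) := {toIsDomain := h3, toIsDedekindRing := {}}
  have h10 : Module.IsTorsionFree (invA ρ) (Sn k n) := by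
    infer_instance
  have h11 : Module.IsTorsionFree (Localization.AtPrime p)
      (LocalizedModule p.primeCompl (Sn k n)) :=
    IsLocalizedModule.isTorsionFree (A := Localization.AtPrime p)
      (LocalizedModule.mkLinearMap p.primeCompl (Sn k n)) p.primeCompl
  exact (IsDedekindDomain.flat_iff_torsion_eq_bot (R := Localization.AtPrime p)
    (M := LocalizedModule p.primeCompl (Sn k n))).mpr
    ((Submodule.isTorsionFree_iff_torsion_eq_bot (R := Localization.AtPrime p)
      (M := LocalizedModule p.primeCompl (Sn k n))).mp h11)

end MP8a
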