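import Pool.Agent.Lib_MP_8a48ad_gt.InvSetup

/-! # Piece HEIGHT: heights of homogeneous primes -/

set_option autoImplicit false

namespace MP8a

universe u

variable {k : Type u} [Field k] {n : ℕ} {W : Type*} [Group W] [Finite W]

/-- the dimension does not increase from an integral extension to the base -/
private theorem ringKrullDim_le_of_integral {R S : Type*} [CommRing R] [CommRing S] [Algebra R S]
    [Algebra.IsIntegral R S] (hinj : Function.Injective (algebraMap R S)) :
    ringKrullDim R ≤ ringKrullDim S := by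
  refine iSup_le fun l => ?_
  obtain ⟨P, hP, hPo⟩ := Ideal.exists_ideal_over_prime_of_isIntegral (R := R) (S := S)
    (RelSeries.head l).asIdeal ⊥ (by
      intro x hx
      have h1 : algebraMap R S x = 0 := hx
      have h2 : x = 0 := hinj (by rw [h1, map_zero])
      rw [h2]
      exact Ideal.zero_mem _)
  have hPo' : P.LiesOver (RelSeries.head l).asIdeal := ⟨hPo.2.symm⟩
  have := hPo.1
  obtain ⟨L, hL, -, -⟩ := Ideal.exists_ltSeries_of_hasGoingUp (R := R) (S := S) l P
  rw [← hL]
  exact le_iSup (fun p : LTSeries (PrimeSpectrum S) => ((p.length : ℕ) : WithBot ℕ∞)) L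

/-- A homogeneous prime `p` different from `R_+` is strictly contained in the prime `R_+ = {a | c 0 a = 0}` (`R_0 = k`), so its height is at most `dim R - 1 ≤ n - 1`
(`dim R = dim S = n` as `S` is integral over `R`). -/
theorem height_add_one_le (ρ : W →* GL (Fin n) k) (p : Ideal (invA ρ)) [p.IsPrime]
    (hh : ∀ a ∈ p, ∀ i, (grR ρ).c i a ∈ p) (h : ∃ a, a ∉ p ∧ (grR ρ).c 0 a = 0) :
    p.height + 1 ≤ n := by
  have hfin := finite_inv ρ
  have hdim : ringKrullDim (invA ρ) ≤ n := by
    refine (ringKrullDim_le_of_integral (R := invA ρ) (S := Sn k n)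
      Subtype.val_injective).trans ?_
    rw [MvPolynomial.ringKrullDim_of_isNoetherianRing, ringKrullDim_eq_zero_of_field]
    simp
  let f : invA ρ →+* k := (MvPolynomial.constantCoeff).comp (invA ρ).val.toRingHom
  have hf : ∀ a : invA ρ, ((grR ρ).c 0 a : Sn k n) = MvPolynomial.C (f a) := fun a => by
    rw [grR_coe, grS_zero]
    rfl
  have hm : (RingHom.ker f).IsPrime := RingHom.ker_isPrime f
  have hle : p ≤ RingHom.ker f := by
    intro a ha
    by_contra hne
    have h1 : (grR ρ).c 0 a ∈ p := hh a ha 0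
    have hr : f a ≠ 0 := hne
    have h2 : (grR ρ).c 0 a = algebraMap k (invA ρ) (f a) := by
      apply Subtype.ext
      rw [hf]
      rfl
    rw [h2] at h1
    have h3 : IsUnit (algebraMap k (invA ρ) (f a)) :=
      (IsUnit.mk0 (f a) hr).map (algebraMap k (invA ρ))
    exact Ideal.IsPrime.ne_top' (Ideal.eq_top_of_isUnit_mem p h1 h3)
  have hlt : p < RingHom.ker f := by
    refine lt_of_le_of_ne hle ?_
    obtain ⟨a, ha, ha0⟩ := h
    intro he
    apply ha
    rw [he, RingHom.mem_ker]
    have h1 := hf a
    rw [ha0] at h1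
    have h2 : MvPolynomial.C (f a) = (0 : Sn k n) := h1.symm
    rwa [MvPolynomial.C_eq_zero] at h2
  have h1 : p.height + 1 ≤ (RingHom.ker f).height :=
    Ideal.height_add_one_le_of_lt_of_isPrime hlt
  have h2 : ((RingHom.ker f).height : WithBot ℕ∞) ≤ n :=
    (Ideal.height_le_ringKrullDim_of_isPrime (I := RingHom.ker f)).trans hdim
  have h3 : (RingHom.ker f).height ≤ (n : ℕ∞) := by exact_mod_cast h2
  exact h1.trans h3

end MP8a
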