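import Pool.Agent.Lib_MP_8a48ad_gt.Main0

/-! # Piece JHOM: the elements `f` with `JJ k n f` form a homogeneous ideal -/

set_option autoImplicit false

namespace MP8a

universe u

variable {k : Type u} [Field k] {n : ℕ} {R : Type u} [CommRing R] [Algebra R (Sn k n)] {GR : Gr R}

theorem JJ.zero : JJ k n (0 : R) :=
  ⟨0, fun i => i.elim0, fun i => i.elim0, fun s => by simp⟩

/-- finite sums over an arbitrary finite index type -/
theorem JJ.of_fintype {ι : Type*} [Fintype ι] {f : R} (τ : ι → (Sn k n →ₗ[R] R)) (x : ι → Sn k n)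
    (h : ∀ s, algebraMap R (Sn k n) f * s = ∑ i, algebraMap R (Sn k n) (τ i s) * x i) : JJ k n f := by
  refine ⟨Fintype.card ι, fun i => τ ((Fintype.equivFin ι).symm i),
    fun i => x ((Fintype.equivFin ι).symm i), fun s => ?_⟩
  rw [h s]
  exact (Equiv.sum_comp (Fintype.equivFin ι).symm
    (fun i => algebraMap R (Sn k n) (τ i s) * x i)).symm

/-- concatenate the families -/
theorem JJ.add {f g : R} (hf : JJ k n f) (hg : JJ k n g) : JJ k n (f + g) := by
  obtain ⟨l, τ, x, h⟩ := hf
  obtain ⟨l', τ', x', h'⟩ := hg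
  refine JJ.of_fintype (ι := Fin l ⊕ Fin l') (Sum.elim τ τ') (Sum.elim x x') fun s => ?_
  rw [map_add, add_mul, h s, h' s, Fintype.sum_sum_type]
  rfl

theorem JJ.mul (a : R) {f : R} (hf : JJ k n f) : JJ k n (a * f) := by
  obtain ⟨l, τ, x, h⟩ := hf
  refine ⟨l, τ, fun i => algebraMap R (Sn k n) a * x i, fun s => ?_⟩
  rw [map_mul, mul_assoc, h s, Finset.mul_sum]
  refine Finset.sum_congr rfl fun i _ => ?_
  ring

/-- components of products with a homogeneous polynomial -/
theorem JHOM_c_mul (hc : Compat GR (grS k n)) (a : R) {j : ℤ} {b : Sn k n}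
    (hb : (grS k n).c j b = b) (i : ℤ) :
    (grS k n).c i (algebraMap R (Sn k n) a * b) = algebraMap R (Sn k n) (GR.c (i - j) a) * b := by
  have h := (regM (grS k n)).pr_smul' hb i (algebraMap R (Sn k n) a)
  change (grS k n).c i (b * algebraMap R (Sn k n) a) =
    b * (grS k n).c (i - j) (algebraMap R (Sn k n) a) at h
  rw [mul_comm, h, hc, mul_comm]

/-- The components: if `f s = ∑ τ_i(s) x_i` then `c_m(f) s = ∑_i ∑_j (τ_i)_{m-j}(s) c_j(x_i)`, `j` in the (finite) union of the supports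
of the `x_i`, where `(τ_i)_e = hmL (SR hc) (regM GR) e τ_i` (check it for homogeneous `s`, both sides are linear in `s`;
`hmL_hom`; `Compat`: `algebraMap (GR.c i a) = c i (algebraMap a)`). -/
theorem JJ.comp (hc : Compat GR (grS k n)) {f : R} (hf : JJ k n f) (m : ℤ) : JJ k n (GR.c m f) := by
  classical
  obtain ⟨l, τ, x, h⟩ := hf
  have hsupp : ∀ i : Fin l, ∃ t : Finset ℤ, ∀ t' : Finset ℤ, t ⊆ t' →
      ∑ j ∈ t', (grS k n).c j (x i) = x i := by
    intro i
    obtain ⟨t, _, ht⟩ := (SR hc).exists_support (x i)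
    exact ⟨t, ht⟩
  choose t ht using hsupp
  let J : Finset ℤ := Finset.univ.biUnion t
  have hJ : ∀ i : Fin l, ∑ j ∈ J, (grS k n).c j (x i) = x i := fun i =>
    ht i J (Finset.subset_biUnion_of_mem t (Finset.mem_univ i))
  let τ' : Fin l × J → (Sn k n →ₗ[R] R) := fun p => hmL (SR hc) (regM GR) (m - (p.2 : ℤ)) (τ p.1)
  let x' : Fin l × J → Sn k n := fun p => (grS k n).c (p.2 : ℤ) (x p.1)
  refine JJ.of_fintype (ι := Fin l × J) τ' x' fun s => ?_
  refine (SR hc).ind (P := fun s => algebraMap R (Sn k n) (GR.c m f) * s =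
    ∑ p : Fin l × J, algebraMap R (Sn k n) (τ' p s) * x' p) ?_ ?_ ?_ s
  · simp
  · intro s s' hs hs'
    rw [mul_add, hs, hs', ← Finset.sum_add_distrib]
    refine Finset.sum_congr rfl fun p _ => ?_
    rw [map_add, map_add, add_mul]
  · intro d s hs
    have hs' : (grS k n).c d s = s := hs
    have h1 : algebraMap R (Sn k n) (GR.c m f) * s =
        (grS k n).c (m + d) (algebraMap R (Sn k n) f * s) := by
      rw [JHOM_c_mul hc f hs', add_sub_cancel_right]
    rw [h1, h s, map_sum, Fintype.sum_prod_type]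
    refine Finset.sum_congr rfl fun i _ => ?_
    have h2 : algebraMap R (Sn k n) (τ i s) * x i =
        ∑ j ∈ J, algebraMap R (Sn k n) (τ i s) * (grS k n).c j (x i) := by
      rw [← Finset.mul_sum, hJ i]
    rw [h2, map_sum, ← Finset.sum_coe_sort J]
    refine Finset.sum_congr rfl fun j _ => ?_
    rw [JHOM_c_mul hc (τ i s) ((grS k n).c_self (j : ℤ) (x i))]
    have h3 : τ' (i, j) s = GR.c (d + (m - (j : ℤ))) (τ i s) :=
      hmL_hom (SR hc) (regM GR) (m - (j : ℤ)) (τ i) hs
    change _ = algebraMap R (Sn k n) (τ' (i, j) s) * (grS k n).c (j : ℤ) (x i)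
    rw [h3]
    congr 3
    ring_nf

/-- the ideal -/
def JIdeal (k : Type u) [Field k] (n : ℕ) (R : Type u) [CommRing R] [Algebra R (Sn k n)] : Ideal R where
  carrier := {f | JJ k n f}
  zero_mem' := JJ.zero
  add_mem' := JJ.add
  smul_mem' := fun a _ h => JJ.mul a h

end MP8a
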