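import Pool.Agent.Lib_MP_8a48ad_gt.JS
import Pool.Agent.Lib_MP_8a48ad_gt.JIdeal

/-! # Piece JFREE: free actions -/

set_option autoImplicit false

namespace MP8a

universe u

variable {k : Type u} [Field k] {n : ℕ} {W : Type*} [Group W] [Finite W]

/-- Let `w ≠ 1` act without eigenvalue `1`: every linear form `x_j` is `a - w⁻¹ a` for a linear form `a`. -/
theorem exists_linform (A : Matrix (Fin n) (Fin n) k) (hA : (A - 1).det ≠ 0) (j : Fin n) :
    ∃ a : Sn k n, a.IsHomogeneous 1 ∧ a - linAct A a = MvPolynomial.X j := by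
  set c : Fin n → k := -((A - 1)⁻¹.mulVec (Pi.single j 1)) with hc
  have h1 : (A - 1).mulVec c = -(Pi.single j 1) := by
    rw [hc, Matrix.mulVec_neg, Matrix.mulVec_mulVec,
      Matrix.mul_nonsing_inv _ (isUnit_iff_ne_zero.2 hA), Matrix.one_mulVec]
  have h2 : ∀ l, c l - (A.mulVec c) l = (Pi.single j 1 : Fin n → k) l := by
    intro l
    have h := congrFun h1 l
    rw [Matrix.sub_mulVec, Matrix.one_mulVec] at h
    simp only [Pi.sub_apply, Pi.neg_apply] at h
    linear_combination -h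
  have h3 : linAct A (∑ i, MvPolynomial.C (c i) * MvPolynomial.X i) =
      ∑ l, MvPolynomial.C ((A.mulVec c) l) * MvPolynomial.X l := by
    rw [map_sum]
    simp only [map_mul, linAct_X, MvPolynomial.algHom_C, MvPolynomial.algebraMap_eq,
      Finset.mul_sum]
    rw [Finset.sum_comm]
    refine Finset.sum_congr rfl fun l _ => ?_
    rw [Matrix.mulVec, dotProduct, map_sum, Finset.sum_mul]
    refine Finset.sum_congr rfl fun i _ => ?_
    rw [map_mul]
    ring
  refine ⟨∑ i, MvPolynomial.C (c i) * MvPolynomial.X i, ?_, ?_⟩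
  · refine MvPolynomial.IsHomogeneous.sum _ _ _ fun i _ => ?_
    simpa using (MvPolynomial.isHomogeneous_C (Fin n) (c i)).mul (MvPolynomial.isHomogeneous_X k i)
  · rw [h3, ← Finset.sum_sub_distrib, Finset.sum_eq_single j]
    · rw [← sub_mul, ← map_sub, h2, Pi.single_eq_same, map_one, one_mul]
    · intro l _ hl
      rw [← sub_mul, ← map_sub, h2, Pi.single_eq_of_ne hl, map_zero, zero_mul]
    · intro hj
      exact absurd (Finset.mem_univ j) hj

theorem jfree_dvd {ι : Type*} [DecidableEq ι] (F : Finset ι) :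
    ∀ μ : Fin n →₀ ℕ, F.card ≤ μ.degree → ∃ p : ι → Sn k n,
      (∀ w ∈ F, ∃ j, p w = MvPolynomial.X j) ∧ ∏ w ∈ F, p w ∣ MvPolynomial.monomial μ (1 : k) := by
  induction F using Finset.induction_on with
  | empty =>
    intro μ _
    exact ⟨fun _ => 1, fun w hw => absurd hw (Finset.notMem_empty w), by simp⟩
  | insert w F hw ih =>
    intro μ hμ
    rw [Finset.card_insert_of_notMem hw] at hμ
    have hμ0 : μ ≠ 0 := by
      rintro rfl
      rw [map_zero] at hμ
      omega
    obtain ⟨j, hj⟩ := Finsupp.ne_iff.1 hμ0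
    rw [Finsupp.zero_apply] at hj
    have hle : Finsupp.single j 1 ≤ μ := by
      rw [Finsupp.single_le_iff]
      omega
    obtain ⟨μ', rfl⟩ := exists_add_of_le hle
    rw [map_add, Finsupp.degree_single] at hμ
    obtain ⟨p, hp1, hp2⟩ := ih μ' (by omega)
    refine ⟨Function.update p w (MvPolynomial.X j), ?_, ?_⟩
    · intro v hv
      by_cases hvw : v = w
      · subst hvw
        exact ⟨j, Function.update_self _ _ _⟩
      · rw [Function.update_of_ne hvw]
        exact hp1 v (Finset.mem_of_mem_insert_of_ne hv hvw)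
    · rw [Finset.prod_insert hw, Function.update_self]
      have h1 : ∏ v ∈ F, Function.update p w (MvPolynomial.X j) v = ∏ v ∈ F, p v := by
        refine Finset.prod_congr rfl fun v hv => ?_
        rw [Function.update_of_ne]
        rintro rfl
        exact hw hv
      have h2 : MvPolynomial.monomial (Finsupp.single j 1 + μ') (1 : k) =
          MvPolynomial.X j * MvPolynomial.monomial μ' (1 : k) := by
        rw [MvPolynomial.X, MvPolynomial.monomial_mul, one_mul]
      rw [h1, h2]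
      exact mul_dvd_mul_left _ hp2

theorem jfree_JS_zero (ρ : W →* GL (Fin n) k) : JS ρ (0 : Sn k n) :=
  ⟨0, fun i => i.elim0, fun i => i.elim0, fun t => by simp⟩

theorem jfree_JS_sum (ρ : W →* GL (Fin n) k) {ι : Type*} (F : Finset ι) (g : ι → Sn k n)
    (h : ∀ i ∈ F, JS ρ (g i)) : JS ρ (∑ i ∈ F, g i) := by
  classical
  induction F using Finset.induction_on with
  | empty =>
    rw [Finset.sum_empty]
    exact jfree_JS_zero ρ
  | insert i F hi ih =>
    rw [Finset.sum_insert hi]
    exact JS_add ρ (h i (Finset.mem_insert_self i F))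
      (ih fun l hl => h l (Finset.mem_insert_of_mem hl))

theorem jfree_JS (hW : (Nat.card W : k) ≠ 0) (ρ : W →* GL (Fin n) k)
    (h : ∀ w, ρ w ≠ 1 → ((ρ w : Matrix (Fin n) (Fin n) k) - 1).det ≠ 0)
    [Fintype {w : W // ρ w ≠ 1}] {f : Sn k n} {d : ℕ} (hf : f.IsHomogeneous d)
    (hd : Fintype.card {w : W // ρ w ≠ 1} ≤ d) : JS ρ f := by
  classical
  have key : ∀ μ : Fin n →₀ ℕ, Fintype.card {w : W // ρ w ≠ 1} ≤ μ.degree →
      JS ρ (MvPolynomial.monomial μ (1 : k)) := by
    intro μ hμ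
    obtain ⟨p, hp1, q, hq⟩ := jfree_dvd (k := k) (Finset.univ : Finset {w : W // ρ w ≠ 1}) μ hμ
    have h2 : ∀ w : {w : W // ρ w ≠ 1}, ∃ a : Sn k n,
        a - linAct (ρ (w.1)⁻¹ : Matrix (Fin n) (Fin n) k) a = p w := by
      intro w
      obtain ⟨j, hj⟩ := hp1 w (Finset.mem_univ w)
      have h3 : ρ (w.1)⁻¹ ≠ 1 := by
        rw [map_inv]
        exact inv_ne_one.2 w.2
      obtain ⟨a, -, ha⟩ := exists_linform (ρ (w.1)⁻¹ : Matrix (Fin n) (Fin n) k) (h _ h3) j
      exact ⟨a, ha.trans hj.symm⟩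
    choose a ha using h2
    have h4 := JS_prod hW ρ a
    rw [Finset.prod_congr rfl (fun w _ => ha w)] at h4
    rw [hq, mul_comm]
    exact JS_mul ρ q h4
  rw [f.as_sum]
  refine jfree_JS_sum ρ _ _ fun μ hμ => ?_
  have h5 : μ.degree = d := by
    by_contra hne
    exact (MvPolynomial.mem_support_iff.1 hμ) (hf.coeff_eq_zero hne)
  have h6 : MvPolynomial.monomial μ (MvPolynomial.coeff μ f) =
      MvPolynomial.C (MvPolynomial.coeff μ f) * MvPolynomial.monomial μ (1 : k) := by
    rw [MvPolynomial.C_mul_monomial, mul_one]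
  rw [h6]
  exact JS_mul ρ _ (key μ (by omega))

/-- PROOF. Let `N = |{w | ρ w ≠ 1}|`. By `exists_linform` and `JS_prod` every monomial of degree `N` satisfies `JS`, so every polynomial all of whose monomials have
degree `≥ N` does (`JS_add`, `JS_mul`), in particular the homogeneous invariants of degree `≥ 2 N`; for invariants `JS` is `JJ`. -/
theorem JJ_of_free (hW : (Nat.card W : k) ≠ 0) (ρ : W →* GL (Fin n) k)
    (h : ∀ w, ρ w ≠ 1 → ((ρ w : Matrix (Fin n) (Fin n) k) - 1).det ≠ 0) :
    ∃ N : ℤ, ∀ m, N ≤ m → ∀ f, (grR ρ).c m f = f → JJ k n f := by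
  haveI : Fintype {w : W // ρ w ≠ 1} := Fintype.ofFinite _
  refine ⟨2 * (Fintype.card {w : W // ρ w ≠ 1} : ℤ), fun m hm f hf => ?_⟩
  have hf' : (grS k n).c m (f : Sn k n) = (f : Sn k n) := by
    rw [← grR_coe, hf]
  have hJS : JS ρ (f : Sn k n) := by
    by_cases hm2 : Even m ∧ 0 ≤ m
    · obtain ⟨⟨e, he⟩, h0⟩ := hm2
      have hme : m = 2 * ((e.toNat : ℕ) : ℤ) := by omega
      rw [hme, grS_even] at hf'
      have h1 : (f : Sn k n).IsHomogeneous e.toNat := by
        rw [← hf']
        exact MvPolynomial.homogeneousComponent_isHomogeneous _ _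
      exact jfree_JS hW ρ h h1 (by omega)
    · rw [grS_odd_neg hm2] at hf'
      rw [← hf']
      exact jfree_JS_zero ρ
  obtain ⟨l, τ, x, hx⟩ := hJS
  exact ⟨l, τ, x, hx⟩

end MP8a
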