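import Pool.Agent.Lib_MP_8a48ad_gt.JIdeal

/-! # Piece JLOC: points where `S` is flat over `R` -/

set_option autoImplicit false

namespace MP8a

universe u

variable {k : Type u} [Field k] {n : ℕ} {R : Type u} [CommRing R] [Algebra k R]
  [Algebra R (Sn k n)] {GR : Gr R}

/-- PROOF. `S` is finitely presented over `R` (`R` noetherian). `S_p` is finite and flat over the local ring `R_p`, so free
(`Module.free_of_flat_of_isLocalRing`), with a finite basis `b_i` and dual basis `b_i*`, `id = ∑ b_i* (·) b_i`. `Hom_R(S, R)_p = Hom_{R_p}(S_p, R_p)` and `Hom_R(S, S)_p = Hom_{R_p}(S_p, S_p)` as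
`S` is finitely presented (`IsLocalizedModule.map`, or elementary: a map `S → R_p` from a finite module has a common denominator, and lifts to `S → R` after multiplication by a
further element of the complement of `p`, by finite presentation). Clearing denominators, `f s = ∑ τ_i(s) x_i` for all `s` (again up to a further factor). -/
theorem exists_JJ_of_flat (hS : Setup k n GR) (p : Ideal R) [p.IsPrime]
    (h : Module.Flat (Localization.AtPrime p) (LocalizedModule p.primeCompl (Sn k n))) :
    ∃ f, f ∉ p ∧ JJ k n f := by
  have hno := hS.noeth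
  have hfi := hS.fin
  have hfp : Module.FinitePresentation R (Sn k n) := Module.finitePresentation_of_finite R (Sn k n)
  obtain ⟨l, x, hx⟩ := Module.Finite.exists_fin (R := R) (M := Sn k n)
  have hfp' : Module.Finite (Localization.AtPrime p) (LocalizedModule p.primeCompl (Sn k n)) :=
    Module.Finite.of_isLocalizedModule p.primeCompl
      (LocalizedModule.mkLinearMap p.primeCompl (Sn k n))
  have hfree : Module.Free (Localization.AtPrime p) (LocalizedModule p.primeCompl (Sn k n)) :=
    Module.free_of_flat_of_isLocalRing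
  obtain ⟨mk, hmk⟩ : ∃ mk : Sn k n →ₗ[R] LocalizedModule p.primeCompl (Sn k n),
    mk = LocalizedModule.mkLinearMap p.primeCompl (Sn k n) := ⟨_, rfl⟩
  have hloc : IsLocalizedModule p.primeCompl mk := by
    rw [hmk]
    infer_instance
  obtain ⟨pp, hpp⟩ : ∃ pp : (Fin l → Localization.AtPrime p) →ₗ[Localization.AtPrime p]
    LocalizedModule p.primeCompl (Sn k n), ∀ v, pp v = ∑ i, v i • mk (x i) :=
    ⟨Fintype.linearCombination (Localization.AtPrime p) (fun i => mk (x i)), fun v => rfl⟩
  have hmem : ∀ s, mk s ∈ LinearMap.range pp := by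
    intro s
    have hs : s ∈ Submodule.span R (Set.range x) := by
      rw [hx]
      exact Submodule.mem_top
    induction hs using Submodule.span_induction with
    | mem y hy =>
      obtain ⟨i, rfl⟩ := hy
      refine ⟨Pi.single i 1, ?_⟩
      rw [hpp, Finset.sum_eq_single i]
      · rw [Pi.single_eq_same, one_smul]
      · intro j _ hj
        rw [Pi.single_eq_of_ne hj, zero_smul]
      · intro h1
        exact absurd (Finset.mem_univ i) h1
    | zero =>
      rw [map_zero]
      exact Submodule.zero_mem _
    | add y z _ _ hy hz =>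
      rw [map_add]
      exact Submodule.add_mem _ hy hz
    | smul a y _ hy =>
      rw [map_smul, ← algebraMap_smul (Localization.AtPrime p) a (mk y)]
      exact Submodule.smul_mem _ _ hy
  have hsurj : Function.Surjective pp := by
    intro z
    obtain ⟨⟨s, t⟩, hst⟩ := IsLocalizedModule.surj p.primeCompl mk z
    have h1 : (algebraMap R (Localization.AtPrime p) t) • z = mk s := by
      rw [algebraMap_smul]
      exact hst
    have h2 : (algebraMap R (Localization.AtPrime p) t) • z ∈ LinearMap.range pp := by
      rw [h1]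
      exact hmem s
    rw [Submodule.smul_mem_iff_of_isUnit _
      (IsLocalization.map_units (Localization.AtPrime p) t)] at h2
    exact h2
  obtain ⟨σ, hσ⟩ := Module.projective_lifting_property pp
    (LinearMap.id : LocalizedModule p.primeCompl (Sn k n) →ₗ[Localization.AtPrime p] _) hsurj
  obtain ⟨h', t, ht⟩ := Module.FinitePresentation.exists_lift_of_isLocalizedModule p.primeCompl
    (LinearMap.pi fun i => (Algebra.linearMap R (Localization.AtPrime p)) ∘ₗ
      LinearMap.proj i : (Fin l → R) →ₗ[R] (Fin l → Localization.AtPrime p))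
    ((σ.restrictScalars R) ∘ₗ mk)
  have ht' : ∀ s i, algebraMap R (Localization.AtPrime p) (h' s i) = (t : R) • σ (mk s) i := by
    intro s i
    exact congrFun (LinearMap.congr_fun ht s) i
  obtain ⟨π, hπ⟩ : ∃ π : (Fin l → R) →ₗ[R] Sn k n, ∀ v, π v = ∑ i, v i • x i :=
    ⟨Fintype.linearCombination R x, fun v => rfl⟩
  have hH : mk ∘ₗ (π ∘ₗ h') = mk ∘ₗ ((t : R) • (LinearMap.id : Sn k n →ₗ[R] Sn k n)) := by
    refine LinearMap.ext fun s => ?_
    show mk (π (h' s)) = mk ((t : R) • s)
    have h1 : pp (σ (mk s)) = mk s := LinearMap.congr_fun hσ (mk s)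
    rw [hπ, map_sum, map_smul, ← h1, hpp, Finset.smul_sum]
    refine Finset.sum_congr rfl fun i _ => ?_
    rw [map_smul, ← algebraMap_smul (Localization.AtPrime p) (h' s i) (mk (x i)), ht', smul_assoc]
  obtain ⟨u, hu⟩ := Module.Finite.exists_smul_of_comp_eq_of_isLocalizedModule p.primeCompl mk
    _ _ hH
  refine ⟨(u : R) * (t : R), p.primeCompl.mul_mem u.2 t.2, l,
    fun i => (u : R) • (LinearMap.proj i ∘ₗ h'), x, fun s => ?_⟩
  have h1 : (u : R) • π (h' s) = (u : R) • ((t : R) • s) := LinearMap.congr_fun hu s
  rw [hπ, smul_smul, Algebra.smul_def ((u : R) * (t : R)) s, Finset.smul_sum] at h1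
  rw [← h1]
  refine Finset.sum_congr rfl fun i _ => ?_
  rw [smul_smul, Algebra.smul_def]
  rfl

end MP8a
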