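import Pool.Agent.Lib_MP_8a48ad_gt.JPrimes
import Pool.Agent.Lib_MP_8a48ad_gt.JFree
import Pool.Agent.Lib_MP_8a48ad_gt.Latt
import Pool.Agent.Lib_MP_8a48ad_gt.JLoc
import Pool.Agent.Lib_MP_8a48ad_gt.Flat1
import Pool.Agent.Lib_MP_8a48ad_gt.Height

/-! # Stage 1, assembled -/

set_option autoImplicit false

namespace MP8a

universe u

variable {k : Type u} [Field k] {n : ℕ} {W : Type*} [Group W] [Finite W]

theorem isol_flat (hW : (Nat.card W : k) ≠ 0) (ρ : W →* GL (Fin n) k)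
    (h : ∀ (p : Ideal (invA ρ)) (_ : p.IsPrime), (∀ a ∈ p, ∀ i, (grR ρ).c i a ∈ p) →
      (∃ a, a ∉ p ∧ (grR ρ).c 0 a = 0) →
      Module.Flat (Localization.AtPrime p) (LocalizedModule p.primeCompl (Sn k n))) :
    Isol k n (grR ρ) :=
  isol_of_primes (setup_inv hW ρ) fun p hp hh ha =>
    haveI := hp
    exists_JJ_of_flat (setup_inv hW ρ) p (h p hp hh ha)

theorem isol_rank_two (hW : (Nat.card W : k) ≠ 0) (ρ : W →* GL (Fin n) k) (hn : n ≤ 2) :
    Isol k n (grR ρ) :=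
  isol_flat hW ρ fun p hp hh ha => by
    have h1 := height_add_one_le ρ p hh ha
    have h2 : p.height + 1 ≤ (1 : ℕ∞) + 1 := h1.trans (by
      have : (n : ℕ∞) ≤ ((2 : ℕ) : ℕ∞) := by exact_mod_cast hn
      refine this.trans ?_
      norm_num)
    have h3 : p.height ≤ 1 := by
      by_contra hc
      rw [not_le] at hc
      have h4 : (1 : ℕ∞) + 1 ≤ p.height := Order.add_one_le_of_lt hc
      have h5 : p.height ≤ (1 : ℕ∞) + 1 := le_self_add.trans h2
      have h6 : p.height = (1 : ℕ∞) + 1 := le_antisymm h5 h4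
      rw [h6] at h2
      revert h2
      decide
    exact flat_of_height_le_one ρ p h3

theorem isol_free (hW : (Nat.card W : k) ≠ 0) (ρ : W →* GL (Fin n) k)
    (h : ∀ w, ρ w ≠ 1 → ((ρ w : Matrix (Fin n) (Fin n) k) - 1).det ≠ 0) : Isol k n (grR ρ) := by
  obtain ⟨N, hN⟩ := JJ_of_free hW ρ h
  exact isol_of_large (setup_inv hW ρ) N hN

theorem latt_ne_one {ρ : W →* GL (Fin n) ℤ} {w : W} (h : latt k ρ w ≠ 1) : ρ w ≠ 1 := by
  intro h1
  apply h
  change Matrix.GeneralLinearGroup.map (Int.castRingHom k) (ρ w) = 1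
  rw [h1, map_one]

/-- Stage 1. -/
theorem stage1 (hW : (Nat.card W : k) ≠ 0) (ρ : W →* GL (Fin n) ℤ)
    (h : n ≤ 2 ∨ (∀ w, ρ w ≠ 1 → ((ρ w : Matrix (Fin n) (Fin n) ℤ) - 1).det ≠ 0) ∨
      ∀ (p : Ideal (invA (latt k ρ))) (_ : p.IsPrime), (∀ a ∈ p, ∀ i, (grR (latt k ρ)).c i a ∈ p) →
        (∃ a, a ∉ p ∧ (grR (latt k ρ)).c 0 a = 0) →
        Module.Flat (Localization.AtPrime p) (LocalizedModule p.primeCompl (Sn k n)))
    (M : DGM (grR (latt k ρ))) : FG M ↔ Thick (SR (compat_inv (latt k ρ))) M := by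
  have hI : Isol k n (grR (latt k ρ)) := by
    rcases h with h | h | h
    · exact isol_rank_two hW _ h
    · exact isol_free hW _ fun w hw => latt_det hW ρ w (h w (latt_ne_one hw))
    · exact isol_flat hW _ h
  exact main_isol (setup_inv hW _) hI M

end MP8a
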