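import Pool.Agent.Lib_MP_8a48ad_gt.Inert

/-! # Piece LOCJ: primes where `S` is free over the invariants of the inertia group -/

set_option autoImplicit false

namespace MP8a

universe u

variable {k : Type u} [Field k] {n : ℕ} {W : Type*} [Group W] [Finite W]

omit [Finite W] in
theorem locj_good (ρ : W →* GL (Fin n) k) (L : Subgroup W) (a c : {w : W // w ∉ L} → Sn k n)
    (hc : ∀ w, c w ∈ invA (ρ.comp L.subtype)) (F : Finset {w : W // w ∉ L}) :
    ∃ (ι : Type) (_ : Fintype ι) (x y : ι → Sn k n), (∀ i, y i ∈ invA (ρ.comp L.subtype)) ∧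
      ∀ v : W, ∑ i, x i * linAct (ρ v : Matrix (Fin n) (Fin n) k) (y i) =
        ∏ w ∈ F, (a w - linAct (ρ v : Matrix (Fin n) (Fin n) k) (c w)) := by
  classical
  induction F using Finset.induction_on with
  | empty =>
    refine ⟨Unit, inferInstance, fun _ => 1, fun _ => 1, fun _ => one_mem _, fun v => ?_⟩
    simp
  | insert w F hw ih =>
    obtain ⟨ι, hι, x, y, hy, h⟩ := ih
    refine ⟨ι ⊕ ι, inferInstance, Sum.elim (fun i => a w * x i) (fun i => - x i),
      Sum.elim y (fun i => c w * y i), ?_, fun v => ?_⟩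
    · rintro (i | i)
      · exact hy i
      · exact mul_mem (hc w) (hy i)
    · rw [Fintype.sum_sum_type, Finset.prod_insert hw, ← h v, Finset.mul_sum, ← Finset.sum_add_distrib]
      refine Finset.sum_congr rfl fun i _ => ?_
      simp only [Sum.elim_inl, Sum.elim_inr, map_mul]
      ring

omit [Finite W] in
theorem locj_sub (ρ : W →* GL (Fin n) k) (L : Subgroup W) {r : Sn k n} (hr : r ∈ invA ρ) :
    r ∈ invA (ρ.comp L.subtype) := fun w => hr w.1

/-- the functional `s ↦ tr (y f(s))` for a functional `f` over the larger ring of invariants -/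
noncomputable def locjTau (ρ : W →* GL (Fin n) k) (L : Subgroup W) (y : Sn k n)
    (f : Sn k n →ₗ[invA (ρ.comp L.subtype)] invA (ρ.comp L.subtype)) :
    Sn k n →ₗ[invA ρ] invA ρ where
  toFun s := trJ ρ (y * (f s : Sn k n))
  map_add' s t := by
    have h : y * ((f (s + t) : invA (ρ.comp L.subtype)) : Sn k n) =
        y * (f s : Sn k n) + y * (f t : Sn k n) := by
      rw [map_add]
      exact mul_add _ _ _
    rw [h, map_add]
  map_smul' r s := by
    have h : y * ((f (r • s) : invA (ρ.comp L.subtype)) : Sn k n) = r • (y * (f s : Sn k n)) := by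
      have h1 : r • s = (⟨(r : Sn k n), locj_sub ρ L r.2⟩ : invA (ρ.comp L.subtype)) • s := rfl
      rw [h1, map_smul]
      change y * ((r : Sn k n) * (f s : Sn k n)) = (r : Sn k n) * (y * (f s : Sn k n))
      ring
    rw [h, map_smul, RingHom.id_apply]

theorem locj_main (hW : (Nat.card W : k) ≠ 0) (ρ : W →* GL (Fin n) k) (P : Ideal (Sn k n)) [P.IsPrime]
    (L : Subgroup W) (hb : ∀ w : {w : W // w ∉ L}, ∃ b ∈ invA (ρ.comp L.subtype),
      linAct (ρ w.1 : Matrix (Fin n) (Fin n) k) b - b ∉ P)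
    (hfree : ∃ (l : ℕ) (e : Fin l → Sn k n) (es : Fin l → (Sn k n →ₗ[invA (ρ.comp L.subtype)]
      invA (ρ.comp L.subtype))), ∀ s, s = ∑ j, (es j s : Sn k n) * e j) :
    ∃ g, g ∉ P ∧ JS ρ g := by
  classical
  obtain ⟨l, e, es, hes⟩ := hfree
  let _ := Fintype.ofFinite W
  choose b hbT hbP using hb
  obtain ⟨ι, hι, x, y, hy, h⟩ := locj_good ρ L
    (fun w => linAct (ρ w.1 : Matrix (Fin n) (Fin n) k) (b w)) b hbT Finset.univ
  set g : Sn k n := ∏ w : {w : W // w ∉ L},
    (linAct (ρ w.1 : Matrix (Fin n) (Fin n) k) (b w) - b w) with hg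
  have hfix : ∀ v ∈ L, ∀ t ∈ invA (ρ.comp L.subtype),
      linAct (ρ v : Matrix (Fin n) (Fin n) k) t = t := fun v hv t ht => ht ⟨v, hv⟩
  have hv1 : ∀ v : W, v ∉ L → ∏ w : {w : W // w ∉ L},
      (linAct (ρ w.1 : Matrix (Fin n) (Fin n) k) (b w) -
        linAct (ρ v : Matrix (Fin n) (Fin n) k) (b w)) = 0 := by
    intro v hv
    refine Finset.prod_eq_zero (Finset.mem_univ ⟨v, hv⟩) ?_
    exact sub_self _
  have hv2 : ∀ v ∈ L, ∏ w : {w : W // w ∉ L},
      (linAct (ρ w.1 : Matrix (Fin n) (Fin n) k) (b w) -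
        linAct (ρ v : Matrix (Fin n) (Fin n) k) (b w)) = g := by
    intro v hv
    rw [hg]
    refine Finset.prod_congr rfl fun w _ => ?_
    rw [hfix v hv (b w) (hbT w)]
  have hgP : g ∉ P := by
    rw [hg]
    intro hmem
    obtain ⟨w, _, hw⟩ := (Ideal.IsPrime.prod_mem_iff (p := P)).1 hmem
    exact hbP w hw
  set N : ℕ := (Finset.univ.filter fun v : W => v ∈ L).card with hN
  have hNk : (N : k) ≠ 0 := by
    have h1 : N = Nat.card L := by
      rw [hN, Nat.card_eq_fintype_card, Fintype.card_subtype]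
    have h2 : N ∣ Nat.card W := by
      rw [h1]
      exact Subgroup.card_subgroup_dvd_card _
    obtain ⟨m, hm⟩ := h2
    intro h0
    apply hW
    rw [hm, Nat.cast_mul, h0, zero_mul]
  have key : ∀ t ∈ invA (ρ.comp L.subtype),
      ∑ i, (trJ ρ (y i * t) : Sn k n) * x i = (N : Sn k n) * (g * t) := by
    intro t ht
    have h1 : ∀ i, (trJ ρ (y i * t) : Sn k n) * x i = ∑ v : W, (x i * linAct (ρ v : Matrix (Fin n) (Fin n) k) (y i)) *
        linAct (ρ v : Matrix (Fin n) (Fin n) k) t := by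
      intro i
      rw [trJ_coe, Finset.sum_mul]
      refine Finset.sum_congr rfl fun v _ => ?_
      rw [map_mul]
      ring
    rw [Finset.sum_congr rfl fun i _ => h1 i, Finset.sum_comm]
    have h2 : ∀ v : W, ∑ i, (x i * linAct (ρ v : Matrix (Fin n) (Fin n) k) (y i)) *
        linAct (ρ v : Matrix (Fin n) (Fin n) k) t = if v ∈ L then g * t else 0 := by
      intro v
      rw [← Finset.sum_mul, h v]
      by_cases hv : v ∈ L
      · rw [if_pos hv, hv2 v hv, hfix v hv t ht]
      · rw [if_neg hv, hv1 v hv, zero_mul]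
    rw [Finset.sum_congr rfl fun v _ => h2 v, ← Finset.sum_filter, Finset.sum_const, nsmul_eq_mul, hN]
  have h4 : (MvPolynomial.C ((N : k)⁻¹) : Sn k n) * (N : Sn k n) = 1 := by
    have : (N : Sn k n) = MvPolynomial.C (N : k) := (map_natCast _ _).symm
    rw [this, ← MvPolynomial.C_mul, inv_mul_cancel₀ hNk, MvPolynomial.C_1]
  refine ⟨g, hgP, JS_of_fintype ρ g (ι × Fin l) (fun q => locjTau ρ L (y q.1) (es q.2))
    (fun q => MvPolynomial.C ((N : k)⁻¹) * (x q.1 * e q.2)) fun s => ?_⟩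
  rw [Fintype.sum_prod_type, Finset.sum_comm]
  have h5 : ∀ j : Fin l, ∑ i, (locjTau ρ L (y i) (es j) s : Sn k n) *
      (MvPolynomial.C ((N : k)⁻¹) * (x i * e j)) = g * ((es j s : Sn k n) * e j) := by
    intro j
    have h6 : ∀ i, (locjTau ρ L (y i) (es j) s : Sn k n) *
        (MvPolynomial.C ((N : k)⁻¹) * (x i * e j)) =
        (MvPolynomial.C ((N : k)⁻¹) * e j) * ((trJ ρ (y i * (es j s : Sn k n)) : Sn k n) * x i) := by
      intro i
      change (trJ ρ (y i * (es j s : Sn k n)) : Sn k n) * _ = _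
      ring
    rw [Finset.sum_congr rfl fun i _ => h6 i, ← Finset.mul_sum, key _ (es j s).2]
    have h7 : (MvPolynomial.C ((N : k)⁻¹) * e j) * ((N : Sn k n) * (g * (es j s : Sn k n))) =
        ((MvPolynomial.C ((N : k)⁻¹) : Sn k n) * (N : Sn k n)) * (g * ((es j s : Sn k n) * e j)) := by
      ring
    rw [h7, h4, one_mul]
  rw [Finset.sum_congr rfl fun j _ => h5 j, ← Finset.mul_sum, ← hes s]

/-- If `S` is free (or projective) over `T = S^L`, `L` the inertia group of the prime `P`, then there is `g ∉ P` with `JS ρ g`. PROOF. For `w ∉ L` choose `b_w ∈ T` with `w b_w - b_w ∉ P` (`exists_sep`); `g = ∏_{w ∉ L} (w b_w - b_w) ∉ P`.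
As in `JS_good` (by induction on a finite set `F` of elements of `W` not in `L`) there are `x_i ∈ S`, `y_i ∈ T` with `∑_i x_i v(y_i) = ∏_{w ∈ F} (w b_w - v b_w)` for all `v ∈ W`. For `F` = everything this is `0` if `v ∉ L` and `g` if `v ∈ L`.
So `∑_i x_i tr(y_i t) = |L| g t` for `t ∈ T` (`tr = trJ ρ`), and for `s ∈ S`, `|L| g s = ∑_{i,j} e_j x_i tr(y_i e_j*(s))`. The map `s ↦ tr(y_i e_j*(s))` is linear over `R = S^W`. `|L| ≠ 0` in `k`. -/
theorem exists_JS (hW : (Nat.card W : k) ≠ 0) (ρ : W →* GL (Fin n) k) (P : Ideal (Sn k n)) [P.IsPrime]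
    (hfree : ∃ (l : ℕ) (e : Fin l → Sn k n) (es : Fin l → (Sn k n →ₗ[invA (ρ.comp (inert ρ P).subtype)]
      invA (ρ.comp (inert ρ P).subtype))), ∀ s, s = ∑ j, (es j s : Sn k n) * e j) :
    ∃ g, g ∉ P ∧ JS ρ g := by
  exact locj_main hW ρ P (inert ρ P) (fun w => exists_sep hW ρ P w.2) hfree

end MP8a
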