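import Pool.Agent.Lib_MP_8a48ad_gt.Basic

/-! # Piece JCORE: the homogeneous core of a prime ideal -/

set_option autoImplicit false

namespace MP8a

universe u

variable {R : Type u} [CommRing R]

private theorem jcore_mul_hom (GR : Gr R) {i : ℤ} {a : R} (ha : GR.c i a = a) (m : ℤ) (b : R) :
    GR.c m (a * b) = a * GR.c (m - i) b :=
  (regM GR).pr_smul' ha m b

private theorem jcore_mul (GR : Gr R) {s : Finset ℤ} {a : R} (hs : ∑ i ∈ s, GR.c i a = a) (m : ℤ)
    (b : R) : GR.c m (a * b) = ∑ i ∈ s, GR.c i a * GR.c (m - i) b := by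
  conv_lhs => rw [← hs]
  rw [Finset.sum_mul, map_sum]
  exact Finset.sum_congr rfl fun i _ => jcore_mul_hom GR (GR.c_self i a) m b

/-- the largest degree of a component which is not in `p` -/
private theorem jcore_max (GR : Gr R) (p : Ideal R) {a : R} (ha : ¬ ∀ i, GR.c i a ∈ p) :
    ∃ i0, GR.c i0 a ∉ p ∧ ∀ i, i0 < i → GR.c i a ∈ p := by
  classical
  obtain ⟨s, h0, _⟩ := (regM GR).exists_support a
  have h0' : ∀ i, i ∉ s → GR.c i a = 0 := h0
  push Not at ha
  obtain ⟨j, hj⟩ := ha
  have hj' : j ∈ s.filter (fun i => GR.c i a ∉ p) := by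
    rw [Finset.mem_filter]
    refine ⟨?_, hj⟩
    by_contra hjs
    rw [h0' j hjs] at hj
    exact hj p.zero_mem
  obtain ⟨i0, hi0, hmax⟩ := (s.filter (fun i => GR.c i a ∉ p)).exists_max_image id ⟨j, hj'⟩
  refine ⟨i0, (Finset.mem_filter.1 hi0).2, fun i hi => ?_⟩
  by_contra hip
  have h1 : i ∈ s.filter (fun i => GR.c i a ∉ p) := by
    rw [Finset.mem_filter]
    refine ⟨?_, hip⟩
    by_contra his
    rw [h0' i his] at hip
    exact hip p.zero_mem
  have h2 := hmax i h1
  simp only [id] at h2
  omega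

/-- The core `{a | all components of a are in p}` of a prime ideal is a homogeneous prime ideal. -/
theorem exists_core (GR : Gr R) (p : Ideal R) (hp : p.IsPrime) : ∃ q : Ideal R, q.IsPrime ∧ q ≤ p ∧
    (∀ a ∈ q, ∀ i, GR.c i a ∈ q) ∧ ∀ a, (∀ i, GR.c i a ∈ p) → a ∈ q := by
  classical
  let q : Ideal R :=
    { carrier := {a | ∀ i, GR.c i a ∈ p}
      add_mem' := fun {a b} ha hb i => by
        change GR.c i (a + b) ∈ p
        rw [map_add]
        exact p.add_mem (ha i) (hb i)
      zero_mem' := fun i => by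
        rw [map_zero]
        exact p.zero_mem
      smul_mem' := fun b a ha i => by
        change GR.c i (b * a) ∈ p
        obtain ⟨s, hs⟩ := GR.fin b
        rw [jcore_mul GR hs]
        exact p.sum_mem fun j _ => p.mul_mem_left _ (ha _) }
  have hq : ∀ a, a ∈ q ↔ ∀ i, GR.c i a ∈ p := fun a => Iff.rfl
  refine ⟨q, ?_, ?_, ?_, fun a ha => ha⟩
  · refine ⟨?_, ?_⟩
    · intro htop
      have h1 : (1 : R) ∈ q := by
        rw [htop]
        trivial
      have h2 := (hq 1).1 h1 0
      rw [GR.one] at h2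
      exact hp.ne_top ((Ideal.eq_top_iff_one p).2 h2)
    · intro a b hab
      by_contra hne
      push Not at hne
      obtain ⟨i0, hi0, hi⟩ := jcore_max GR p (fun h => hne.1 ((hq a).2 h))
      obtain ⟨j0, hj0, hj⟩ := jcore_max GR p (fun h => hne.2 ((hq b).2 h))
      obtain ⟨s, h0, hs⟩ := (regM GR).exists_support a
      have h0' : ∀ i, i ∉ s → GR.c i a = 0 := h0
      have hs' : ∑ i ∈ s, GR.c i a = a := hs s (Finset.Subset.refl s)
      have h1 := (hq (a * b)).1 hab (i0 + j0)
      rw [jcore_mul GR hs'] at h1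
      have his : i0 ∈ s := by
        by_contra his
        rw [h0' i0 his] at hi0
        exact hi0 p.zero_mem
      rw [← Finset.add_sum_erase s _ his, add_sub_cancel_left] at h1
      have h2 : ∑ i ∈ s.erase i0, GR.c i a * GR.c (i0 + j0 - i) b ∈ p := by
        refine p.sum_mem fun i hi' => ?_
        have hne' : i ≠ i0 := Finset.ne_of_mem_erase hi'
        rcases lt_or_gt_of_ne hne' with hlt | hgt
        · exact p.mul_mem_left _ (hj _ (by omega))
        · exact p.mul_mem_right _ (hi _ hgt)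
      have h3 : GR.c i0 a * GR.c j0 b ∈ p := (p.add_mem_iff_left h2).1 h1
      rcases hp.mem_or_mem h3 with h4 | h4
      · exact hi0 h4
      · exact hj0 h4
  · intro a ha
    obtain ⟨s, hs⟩ := GR.fin a
    rw [← hs]
    exact p.sum_mem fun i _ => (hq a).1 ha i
  · intro a ha i
    rw [hq]
    intro j
    rw [GR.c_c]
    by_cases h : j = i
    · rw [if_pos h]
      exact (hq a).1 ha i
    · rw [if_neg h]
      exact p.zero_mem

end MP8a
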