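import Pool.Agent.Lib_MP_8a48ad_gt.JGen
import Pool.Agent.Lib_MP_8a48ad_gt.JCore

/-! # Piece JPRIMES: a criterion for isolated singularities by homogeneous primes -/

set_option autoImplicit false

namespace MP8a

universe u

variable {k : Type u} [Field k] {n : ℕ} {R : Type u} [CommRing R] [Algebra k R]
  [Algebra R (Sn k n)] {GR : Gr R}

/-- the ideal of elements of positive degree -/
private theorem jprimes_plus (hS : Setup k n GR) : ∃ P : Ideal R, ∀ a, a ∈ P ↔ GR.c 0 a = 0 := by
  refine ⟨{ carrier := {a | GR.c 0 a = 0}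
            zero_mem' := map_zero _
            add_mem' := fun {a b} ha hb => ?_
            smul_mem' := fun b a ha => ?_ }, fun a => Iff.rfl⟩
  · show GR.c 0 (a + b) = 0
    rw [map_add, show GR.c 0 a = 0 from ha, show GR.c 0 b = 0 from hb, add_zero]
  · show GR.c 0 (b * a) = 0
    have ha' : GR.c 0 a = 0 := ha
    refine GR.ind (P := fun b => GR.c 0 (b * a) = 0) ?_ ?_ ?_ b
    · rw [zero_mul, map_zero]
    · intro x y hx hy
      rw [add_mul, map_add, hx, hy, add_zero]
    · intro j b hb
      have h1 := (regM GR).pr_smul' (i := j) (a := b) hb 0 a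
      have h2 : GR.c 0 (b * a) = b * GR.c (0 - j) a := h1
      rw [h2]
      rcases lt_trichotomy j 0 with hj | hj | hj
      · rw [← hb, hS.c_neg hj, zero_mul]
      · rw [hj, sub_zero, ha', mul_zero]
      · rw [hS.c_neg (by omega), mul_zero]

/-- PROOF. Let `J = JIdeal k n R`. Every element of `R_+` is in the radical of `J`: otherwise there is a prime `p ⊇ J` not containing some `a` with `c 0 a = 0`; some
component of `a` is not in `p` (its degree is not `0`); the core `q` of `p` (`exists_core`) contains `J` (`JJ.comp`) and not that component, contradiction with `h`.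
As `R_+ = {a | c 0 a = 0}` is a finitely generated ideal, generated by homogeneous elements of positive degree, with nilpotent generators modulo `J`, all homogeneous elements of large degree are in `J` (an element of
`R_+` homogeneous of degree `m` is an `R`-linear combination of the generators with homogeneous coefficients of smaller degree; induction shows that it is in `R_+^r` if
`m ≥ r · max deg`). Use `isol_of_large`. -/
theorem isol_of_primes (hS : Setup k n GR)
    (h : ∀ p : Ideal R, p.IsPrime → (∀ a ∈ p, ∀ i, GR.c i a ∈ p) → (∃ a, a ∉ p ∧ GR.c 0 a = 0) →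
      ∃ f, f ∉ p ∧ JJ k n f) : Isol k n GR := by
  classical
  have := hS.noeth
  obtain ⟨P, hP⟩ := jprimes_plus hS
  -- every element of positive degree is nilpotent modulo `J`
  have hrad : P ≤ (JIdeal k n R).radical := by
    intro a ha
    rw [Ideal.radical_eq_sInf, Ideal.mem_sInf]
    rintro p ⟨hJp, hp⟩
    by_contra hap
    obtain ⟨q, hq, hqp, hqh, hqc⟩ := exists_core GR p hp
    obtain ⟨i, hi⟩ : ∃ i, GR.c i a ∉ p := by
      by_contra hcon
      push Not at hcon
      obtain ⟨s, hs⟩ := GR.fin a
      exact hap (hs ▸ p.sum_mem fun i _ => hcon i)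
    have hi0 : i ≠ 0 := by
      rintro rfl
      rw [(hP a).1 ha] at hi
      exact hi p.zero_mem
    obtain ⟨f, hf, hJf⟩ := h q hq hqh ⟨GR.c i a, fun h' => hi (hqp h'), by
      rw [GR.c_c, if_neg (Ne.symm hi0)]⟩
    refine hf (hqc f fun j => hJp ?_)
    exact JJ.comp hS.compat hJf j
  obtain ⟨r, hr⟩ := Ideal.exists_pow_le_of_le_radical_of_fg hrad (IsNoetherian.noetherian P)
  obtain ⟨s, hs⟩ := IsNoetherian.noetherian P
  choose t ht using GR.fin
  -- homogeneous generators
  obtain ⟨S, hSP, hSh, hSs⟩ : ∃ S : Finset R, (∀ g ∈ S, g ∈ P) ∧ (∀ g ∈ S, ∃ d, GR.c d g = g) ∧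
      P ≤ Ideal.span (S : Set R) := by
    refine ⟨s.biUnion fun z => (t z).image fun i => GR.c i z, ?_, ?_, ?_⟩
    · intro g hg
      obtain ⟨z, hz, hg⟩ := Finset.mem_biUnion.1 hg
      obtain ⟨i, _, rfl⟩ := Finset.mem_image.1 hg
      rw [hP, GR.c_c]
      split_ifs with h0
      · rw [← h0, ← hP, ← hs]
        exact Submodule.subset_span hz
      · rfl
    · intro g hg
      obtain ⟨z, hz, hg⟩ := Finset.mem_biUnion.1 hg
      obtain ⟨i, _, rfl⟩ := Finset.mem_image.1 hg
      exact ⟨i, GR.c_self i z⟩
    · rw [← hs]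
      refine Submodule.span_le.2 ?_
      intro z hz
      rw [SetLike.mem_coe, ← ht z]
      refine Ideal.sum_mem _ fun i hi => Ideal.subset_span ?_
      exact Finset.mem_coe.2 (Finset.mem_biUnion.2 ⟨z, hz, Finset.mem_image.2 ⟨i, hi, rfl⟩⟩)
  choose! deg hdeg using hSh
  obtain ⟨M, hM⟩ := (S.image deg).exists_le
  set D : ℤ := max 1 M with hD
  have hD1 : 1 ≤ D := le_max_left _ _
  have hDg : ∀ g ∈ S, deg g ≤ D := fun g hg =>
    (hM _ (Finset.mem_image_of_mem _ hg)).trans (le_max_right _ _)
  have key : ∀ (q : ℕ) (m : ℤ), q * D ≤ m → ∀ a, GR.c m a ∈ P ^ q := by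
    intro q
    induction q with
    | zero =>
      intro m _ a
      rw [pow_zero, Ideal.one_eq_top]
      trivial
    | succ q ih =>
      intro m hm a
      have hm0 : m ≠ 0 := by
        rintro rfl
        push_cast at hm
        nlinarith [(Nat.cast_nonneg q : (0 : ℤ) ≤ q)]
      have hmem : GR.c m a ∈ Ideal.span (S : Set R) := by
        apply hSs
        rw [hP, GR.c_c, if_neg (Ne.symm hm0)]
      obtain ⟨b, _, hb⟩ := Submodule.mem_span_finset.1 hmem
      have h1 : GR.c m a = ∑ g ∈ S, GR.c (m - deg g) (b g) * g := by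
        rw [← GR.c_self m a, ← hb, map_sum]
        refine Finset.sum_congr rfl fun g hg => ?_
        have h2 := (regM GR).pr_smul' (i := deg g) (a := g) (hdeg g hg) m (b g)
        have h3 : GR.c m (g * b g) = g * GR.c (m - deg g) (b g) := h2
        rw [smul_eq_mul, mul_comm (b g), h3, mul_comm]
      rw [h1, pow_succ]
      refine Ideal.sum_mem _ fun g hg => Ideal.mul_mem_mul (ih _ ?_ _) (hSP g hg)
      have h4 := hDg g hg
      push_cast at hm
      linarith
  refine isol_of_large hS (r * D) fun m hm f hf => ?_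
  have h1 := hr (key r m hm f)
  rw [hf] at h1
  exact h1

end MP8a
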