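import Pool.Agent.Lib_MP_8a48ad_gt.JS
import Pool.Agent.Lib_MP_8a48ad_gt.JPrimes

/-! # Piece ISOLP: isolated singularities and primes of `S` -/

set_option autoImplicit false

namespace MP8a

universe u

variable {k : Type u} [Field k] {n : ℕ} {W : Type*} [Group W] [Finite W]

/-- the ideal of the `s` with `JS ρ s` -/
def JSIdeal (ρ : W →* GL (Fin n) k) : Ideal (Sn k n) where
  carrier := {s | JS ρ s}
  zero_mem' := ⟨0, fun i => i.elim0, fun i => i.elim0, fun t => by simp⟩
  add_mem' := fun ha hb => JS_add ρ ha hb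
  smul_mem' := fun a _ h => JS_mul ρ a h

/-- PROOF. `isol_of_primes` (with `setup_inv`): let `p` be a homogeneous prime of `R = invA ρ` and `a ∉ p` with `c 0 a = 0`; suppose that `JJ k n f` implies `f ∈ p`. Then `JSIdeal ∩ R ≤ p` (for `f ∈ R`, `JS ρ f` is `JJ k n f`), so by lying over (`Ideal.exists_ideal_over_prime_of_isIntegral`, `S` is
integral over `R` by `finite_inv`) there is a prime `P ⊇ JSIdeal` of `S` with `P ∩ R = p`. Some variable is not in `P`, since otherwise `a ∈ P` (`grS_zero`: the constant coefficient of `a` is `0`). So by hypothesis there is `g ∉ P` with `JS ρ g`, contradiction. -/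
theorem isol_of_primesS (hW : (Nat.card W : k) ≠ 0) (ρ : W →* GL (Fin n) k)
    (h : ∀ P : Ideal (Sn k n), P.IsPrime → (∃ i, (MvPolynomial.X i : Sn k n) ∉ P) → ∃ g, g ∉ P ∧ JS ρ g) :
    Isol k n (grR ρ) := by
  refine isol_of_primes (setup_inv hW ρ) fun p hp _ ha => ?_
  obtain ⟨a, hap, ha0⟩ := ha
  by_contra hcon
  push Not at hcon
  have hfin := finite_inv ρ
  have hint : Algebra.IsIntegral (invA ρ) (Sn k n) := inferInstance
  have hle : (JSIdeal ρ).comap (algebraMap (invA ρ) (Sn k n)) ≤ p := by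
    intro f hf
    by_contra hfp
    exact hcon f hfp hf
  obtain ⟨Q, hQJ, hQp, hQ⟩ := Ideal.exists_ideal_over_prime_of_isIntegral p (JSIdeal ρ) hle
  by_cases hvar : ∃ i, (MvPolynomial.X i : Sn k n) ∉ Q
  · obtain ⟨g, hgQ, hg⟩ := h Q hQp hvar
    exact hgQ (hQJ hg)
  · push Not at hvar
    apply hap
    rw [← hQ, Ideal.mem_comap]
    have h1 : (grS k n).c 0 (a : Sn k n) = 0 := by
      rw [← grR_coe, ha0]
      rfl
    rw [grS_zero] at h1
    have h2 : MvPolynomial.constantCoeff (a : Sn k n) = 0 := by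
      have h3 := congrArg MvPolynomial.constantCoeff h1
      rwa [MvPolynomial.constantCoeff_C, map_zero] at h3
    have h4 : (a : Sn k n) ∈ Ideal.span (MvPolynomial.X '' (Set.univ : Set (Fin n)) : Set (Sn k n)) := by
      rw [MvPolynomial.mem_ideal_span_X_image]
      intro m hm
      by_contra hm0
      push Not at hm0
      have h5 : m = 0 := Finsupp.ext fun i => hm0 i (Set.mem_univ i)
      rw [MvPolynomial.mem_support_iff, h5] at hm
      exact hm h2
    have h6 : Ideal.span (MvPolynomial.X '' (Set.univ : Set (Fin n)) : Set (Sn k n)) ≤ Q := by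
      rw [Ideal.span_le]
      rintro x ⟨i, _, rfl⟩
      exact hvar i
    exact h6 h4

end MP8a
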