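import Pool.Agent.Lib_MP_8a48ad_gt.GenV2
import Pool.Agent.Lib_MP_8a48ad_gt.ChevF
import Pool.Agent.Lib_MP_8a48ad_gt.InertJ
import Pool.Agent.Lib_MP_8a48ad_gt.IsolP

/-! # Isolated singularities, assembled -/

set_option autoImplicit false

namespace MP8a

universe u

variable {k : Type u} [Field k] {n : ℕ} {W : Type*} [Group W] [Finite W]

theorem isol_refl (hW : (Nat.card W : k) ≠ 0) (ρ : W →* GL (Fin n) ℤ)
    (h : ∀ v : Fin n → ℤ, v ≠ 0 → ∀ w, (ρ w : Matrix (Fin n) (Fin n) ℤ).mulVec v = v →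
      ρ w ∈ Subgroup.closure {g : GL (Fin n) ℤ | ∃ s, g = ρ s ∧
        (g : Matrix (Fin n) (Fin n) ℤ).mulVec v = v ∧ IsRefl (g : Matrix (Fin n) (Fin n) ℤ)}) :
    Isol k n (grR (latt k ρ)) := by
  refine isol_of_primesS hW (latt k ρ) fun P hP hX => ?_
  have hr := reflGen_inert hW ρ h P hX
  have hc : (Nat.card (inert (latt k ρ) P) : k) ≠ 0 := by
    obtain ⟨m, hm⟩ := Subgroup.card_subgroup_dvd_card (inert (latt k ρ) P)
    intro h0
    apply hW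
    rw [hm, Nat.cast_mul, h0, zero_mul]
  exact exists_JS hW (latt k ρ) P (chev_free hc _ hr)

theorem main_refl (hW : (Nat.card W : k) ≠ 0) (ρ : W →* GL (Fin n) ℤ)
    (h : ∀ v : Fin n → ℤ, v ≠ 0 → ∀ w, (ρ w : Matrix (Fin n) (Fin n) ℤ).mulVec v = v →
      ρ w ∈ Subgroup.closure {g : GL (Fin n) ℤ | ∃ s, g = ρ s ∧
        (g : Matrix (Fin n) (Fin n) ℤ).mulVec v = v ∧ IsRefl (g : Matrix (Fin n) (Fin n) ℤ)})
    (M : DGM (grR (latt k ρ))) : FG M ↔ Thick (SR (compat_inv (latt k ρ))) M :=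
  main_isol (setup_inv hW _) (isol_refl hW ρ h) M

end MP8a
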