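import Mathlib

/-! # Piece GENV1: generic vectors -/

set_option autoImplicit false

namespace MP8a

variable {n : ℕ} {W : Type*} [Group W] [Finite W]

/-- The rational vectors fixed by the group element `w`. -/
private def fixQ (ρ : W →* GL (Fin n) ℤ) (w : W) : Submodule ℚ (Fin n → ℚ) where
  carrier := {v | ((ρ w : Matrix (Fin n) (Fin n) ℤ).map (Int.castRingHom ℚ)).mulVec v = v}
  zero_mem' := by simp
  add_mem' := by
    intro a b ha hb
    simp only [Set.mem_ofPred_eq] at *
    rw [Matrix.mulVec_add, ha, hb]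
  smul_mem' := by
    intro c a ha
    simp only [Set.mem_ofPred_eq] at *
    rw [Matrix.mulVec_smul, ha]

omit [Finite W] in
private lemma mem_fixQ_int (ρ : W →* GL (Fin n) ℤ) (w : W) (v : Fin n → ℤ) :
    (fun i => (v i : ℚ)) ∈ fixQ ρ w ↔ (ρ w : Matrix (Fin n) (Fin n) ℤ).mulVec v = v := by
  have h : ((ρ w : Matrix (Fin n) (Fin n) ℤ).map (Int.castRingHom ℚ)).mulVec
      (fun i => (v i : ℚ)) = fun i => (((ρ w : Matrix (Fin n) (Fin n) ℤ).mulVec v i : ℤ) : ℚ) := by
    funext i
    simp [Matrix.mulVec, dotProduct]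
  change ((ρ w : Matrix (Fin n) (Fin n) ℤ).map (Int.castRingHom ℚ)).mulVec
      (fun i => (v i : ℚ)) = (fun i => (v i : ℚ)) ↔ _
  rw [h]
  constructor
  · intro h1
    funext i
    have := congrFun h1 i
    exact_mod_cast this
  · intro h1
    rw [h1]

private lemma exists_int_vec (v : Fin n → ℚ) :
    ∃ (N : ℚ) (u : Fin n → ℤ), N ≠ 0 ∧ (fun i => (u i : ℚ)) = N • v := by
  classical
  refine ⟨((∏ i, (v i).den : ℕ) : ℚ), fun i => (v i).num * ((∏ j ∈ Finset.univ.erase i, (v j).den : ℕ) : ℤ), ?_, ?_⟩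
  · have : (∏ i, (v i).den : ℕ) ≠ 0 := Finset.prod_ne_zero_iff.mpr (fun i _ => (v i).den_ne_zero)
    exact_mod_cast this
  · funext i
    have h1 : (∏ j, (v j).den : ℕ) = (v i).den * ∏ j ∈ Finset.univ.erase i, (v j).den :=
      (Finset.mul_prod_erase Finset.univ (fun j => (v j).den) (Finset.mem_univ i)).symm
    have h2 : ((v i).den : ℚ) * v i = (v i).num := by
      rw [mul_comm]; exact Rat.mul_den_eq_num (v i)
    simp only [Pi.smul_apply, smul_eq_mul]
    rw [h1]
    push_cast
    rw [← h2]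
    ring

/-- PIECE GENV1. Let `L` be a subgroup of `W` with a nonzero common fixed vector in `ℤ^n`. There is a nonzero vector `v` fixed by `L` such that every `w` which fixes `v` satisfies `∑_{l ∈ L} ρ(l) (ρ(w) - 1) = 0`.
PROOF. Let `M = (ℚ^n)^L ≠ 0`. For `w ∈ W` which does not fix `M` pointwise, `M^w` is a proper subspace of `M`; a vector space over an infinite field is not a finite union of proper subspaces (`Subspace.biUnion_ne_univ_of_top_notMem` or similar), so there is a
nonzero `v ∈ M` outside all of them; clear denominators. Let `w` fix `v`; then `w` fixes `M` pointwise. Let `B = ∑_g ρ(g)ᵀ ρ(g)`, a positive definite symmetric matrix with `ρ(g)ᵀ B ρ(g) = B`, and `e = ∑_{l ∈ L} ρ(l)`, `eᵀ B = B e` (as `ρ(l)ᵀ B = B ρ(l⁻¹)`). For all `x, y`: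
`(e (w - 1) x)ᵀ B y = ((w - 1) x)ᵀ B (e y) = xᵀ B (w⁻¹ - 1) e y = 0` as `e y ∈ M`. So `e (w - 1) = 0`. -/
theorem exists_generic (ρ : W →* GL (Fin n) ℤ) (L : Subgroup W) [Fintype L]
    (hL : ∃ v : Fin n → ℤ, v ≠ 0 ∧ ∀ l ∈ L, (ρ l : Matrix (Fin n) (Fin n) ℤ).mulVec v = v) :
    ∃ v : Fin n → ℤ, v ≠ 0 ∧ (∀ l ∈ L, (ρ l : Matrix (Fin n) (Fin n) ℤ).mulVec v = v) ∧
      ∀ w, (ρ w : Matrix (Fin n) (Fin n) ℤ).mulVec v = v →
        (∑ l : L, (ρ l.1 : Matrix (Fin n) (Fin n) ℤ)) * ((ρ w : Matrix (Fin n) (Fin n) ℤ) - 1) = 0 := by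
  classical
  have : Fintype W := Fintype.ofFinite W
  -- the fixed space of `L`
  let M : Submodule ℚ (Fin n → ℚ) := ⨅ l : L, fixQ ρ l.1
  have hMmem : ∀ x : Fin n → ℚ, x ∈ M ↔ ∀ l ∈ L, x ∈ fixQ ρ l := by
    intro x
    simp only [M, Submodule.mem_iInf, Subtype.forall]
  obtain ⟨v0, hv0, hv0L⟩ := hL
  have hv0M : (fun i => (v0 i : ℚ)) ∈ M := by
    rw [hMmem]; intro l hl; exact (mem_fixQ_int ρ l v0).mpr (hv0L l hl)
  -- the family of proper subspaces
  let S : Finset (Submodule ℚ M) :=
    insert ⊥ ((Finset.univ.image (fun w : W => (fixQ ρ w).comap M.subtype)).filter (fun P => P ≠ ⊤))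
  have htop : (⊤ : Submodule ℚ M) ∉ S := by
    simp only [S, Finset.mem_insert, Finset.mem_filter, not_or, not_and, not_not]
    refine ⟨?_, fun _ => trivial⟩
    intro h
    have h1 : (⟨_, hv0M⟩ : M) ∈ (⊥ : Submodule ℚ M) := by rw [← h]; exact Submodule.mem_top
    rw [Submodule.mem_bot] at h1
    apply hv0
    funext i
    have := congrFun (congrArg Subtype.val h1) i
    simpa using this
  have hne := Subspace.biUnion_ne_univ_of_top_notMem (s := S) htop
  obtain ⟨m, hm⟩ := (Set.ne_univ_iff_exists_notMem _).mp hne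
  simp only [Set.mem_iUnion, not_exists] at hm
  obtain ⟨N, u, hN, hu⟩ := exists_int_vec m.1
  have hm0 : m ≠ 0 := by
    intro h
    exact hm ⊥ (by simp [S]) (by simp [h])
  have huM : (fun i => (u i : ℚ)) ∈ M := by
    rw [hu]; exact M.smul_mem _ m.2
  refine ⟨u, ?_, ?_, ?_⟩
  · intro h
    apply hm0
    have h1 : N • m.1 = 0 := by
      rw [← hu, h]; funext i; simp
    have h2 : m.1 = 0 := by
      rcases smul_eq_zero.mp h1 with h | h
      · exact absurd h hN
      · exact h
    exact Subtype.ext h2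
  · intro l hl
    exact (mem_fixQ_int ρ l u).mp ((hMmem _).mp huM l hl)
  · intro w hw
    -- `w` fixes `M` pointwise
    have hwM : ∀ x ∈ M, x ∈ fixQ ρ w := by
      by_contra hcon
      push Not at hcon
      obtain ⟨x, hx, hxw⟩ := hcon
      have hP : (fixQ ρ w).comap M.subtype ∈ S := by
        simp only [S, Finset.mem_insert, Finset.mem_filter, Finset.mem_image, Finset.mem_univ,
          true_and]
        right
        refine ⟨⟨w, rfl⟩, ?_⟩
        intro h
        have h1 : (⟨x, hx⟩ : M) ∈ (fixQ ρ w).comap M.subtype := by rw [h]; exact Submodule.mem_top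
        exact hxw h1
      apply hm _ hP
      have h1 : (fun i => (u i : ℚ)) ∈ fixQ ρ w := (mem_fixQ_int ρ w u).mpr hw
      rw [hu] at h1
      have h2 : m.1 ∈ fixQ ρ w := by
        have h3 := (fixQ ρ w).smul_mem N⁻¹ h1
        rwa [smul_smul, inv_mul_cancel₀ hN, one_smul] at h3
      exact h2
    -- integral version
    have hwI : ∀ x : Fin n → ℤ, (∀ l ∈ L, (ρ l : Matrix (Fin n) (Fin n) ℤ).mulVec x = x) →
        (ρ w : Matrix (Fin n) (Fin n) ℤ).mulVec x = x := by
      intro x hx
      apply (mem_fixQ_int ρ w x).mp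
      apply hwM
      rw [hMmem]
      intro l hl
      exact (mem_fixQ_int ρ l x).mpr (hx l hl)
    -- the invariant form
    let R : W → (Fin n → ℤ) → (Fin n → ℤ) := fun g x => (ρ g : Matrix (Fin n) (Fin n) ℤ).mulVec x
    have hRmul : ∀ g h x, R (g * h) x = R g (R h x) := by
      intro g h x
      simp only [R, map_mul, Units.val_mul, Matrix.mulVec_mulVec]
    have hRone : ∀ x, R 1 x = x := by
      intro x
      simp only [R, map_one, Units.val_one, Matrix.one_mulVec]
    have hRsub : ∀ g x y, R g (x - y) = R g x - R g y := by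
      intro g x y
      simp only [R, Matrix.mulVec_sub]
    let b : (Fin n → ℤ) → (Fin n → ℤ) → ℤ := fun x y => ∑ g : W, dotProduct (R g x) (R g y)
    have hbinv : ∀ h x y, b (R h x) (R h y) = b x y := by
      intro h x y
      simp only [b, ← hRmul]
      exact Fintype.sum_equiv (Equiv.mulRight h) _ _ (fun g => rfl)
    have hbadj : ∀ h x y, b (R h x) y = b x (R h⁻¹ y) := by
      intro h x y
      rw [← hbinv h x (R h⁻¹ y), ← hRmul, mul_inv_cancel, hRone]
    have hbsub : ∀ x y z, b (x - y) z = b x z - b y z := by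
      intro x y z
      simp only [b, hRsub, sub_dotProduct, Finset.sum_sub_distrib]
    have hbsumL : ∀ (x : L → (Fin n → ℤ)) z, b (∑ l, x l) z = ∑ l, b (x l) z := by
      intro x z
      simp only [b, R, Matrix.mulVec_sum, sum_dotProduct]
      rw [Finset.sum_comm]
    have hbsumR : ∀ (x : L → (Fin n → ℤ)) z, b z (∑ l, x l) = ∑ l, b z (x l) := by
      intro x z
      simp only [b, R, Matrix.mulVec_sum, dotProduct_sum]
      rw [Finset.sum_comm]
    have hbpos : ∀ z, b z z = 0 → z = 0 := by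
      intro z hz
      have h1 : ∀ g ∈ (Finset.univ : Finset W), 0 ≤ dotProduct (R g z) (R g z) := by
        intro g _
        exact Finset.sum_nonneg (fun i _ => mul_self_nonneg _)
      have h2 := (Finset.sum_eq_zero_iff_of_nonneg h1).mp hz 1 (Finset.mem_univ _)
      rw [hRone] at h2
      exact dotProduct_self_eq_zero.mp h2
    let e : (Fin n → ℤ) → (Fin n → ℤ) := fun x => ∑ l : L, R l.1 x
    have heL : ∀ x, ∀ l ∈ L, R l (e x) = e x := by
      intro x l hl
      simp only [e]
      have h1 : R l (∑ k : L, R k.1 x) = ∑ k : L, R l (R k.1 x) := by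
        simp only [R, Matrix.mulVec_sum]
      rw [h1]
      simp only [← hRmul]
      exact Fintype.sum_equiv (Equiv.mulLeft (⟨l, hl⟩ : L)) _ _ (fun k => rfl)
    have headj : ∀ x y, b (e x) y = b x (e y) := by
      intro x y
      simp only [e]
      rw [hbsumL, hbsumR]
      simp only [hbadj]
      exact Fintype.sum_equiv (Equiv.inv L) _ _ (fun k => rfl)
    have hwe : ∀ y, R w (e y) = e y := fun y => hwI (e y) (heL y)
    have hwinv : ∀ y, R w⁻¹ (e y) = e y := by
      intro y
      conv_lhs => rw [← hwe y]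
      rw [← hRmul, inv_mul_cancel, hRone]
    have hzero : ∀ x, e (R w x - x) = 0 := by
      intro x
      apply hbpos
      rw [headj, hbsub, hbadj, hwinv, sub_self]
    -- conclusion
    ext i j
    have h1 := congrFun (hzero (Pi.single j 1)) i
    have h2 : e (R w (Pi.single j 1) - Pi.single j 1) =
        ((∑ l : L, (ρ l.1 : Matrix (Fin n) (Fin n) ℤ)) * ((ρ w : Matrix (Fin n) (Fin n) ℤ) - 1)).mulVec
          (Pi.single j 1) := by
      rw [← Matrix.mulVec_mulVec, Matrix.sub_mulVec, Matrix.one_mulVec, Matrix.sum_mulVec]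
    rw [h2, Matrix.mulVec_single_one] at h1
    simpa using h1

end MP8a
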