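import Pool.Agent.Lib_MP_8a48ad_gt.JS

/-! # Piece SEP: inertia groups -/

set_option autoImplicit false

namespace MP8a

universe u

variable {k : Type u} [Field k] {n : ℕ} {W : Type*} [Group W] [Finite W]

/-- The inertia group of an ideal `P` of `S`. -/
def inert (ρ : W →* GL (Fin n) k) (P : Ideal (Sn k n)) : Subgroup W where
  carrier := {w | (∀ s, linAct (ρ w : Matrix (Fin n) (Fin n) k) s - s ∈ P) ∧
    ∀ s, linAct (ρ w⁻¹ : Matrix (Fin n) (Fin n) k) s - s ∈ P}
  mul_mem' := by
    rintro a b ⟨ha, ha'⟩ ⟨hb, hb'⟩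
    refine ⟨fun s => ?_, fun s => ?_⟩
    · rw [map_mul, Units.val_mul, linAct_mul]
      have h := P.add_mem (ha (linAct (ρ b : Matrix (Fin n) (Fin n) k) s)) (hb s)
      rwa [sub_add_sub_cancel] at h
    · rw [mul_inv_rev, map_mul, Units.val_mul, linAct_mul]
      have h := P.add_mem (hb' (linAct (ρ a⁻¹ : Matrix (Fin n) (Fin n) k) s)) (ha' s)
      rwa [sub_add_sub_cancel] at h
  one_mem' := by
    refine ⟨fun s => ?_, fun s => ?_⟩
    · rw [map_one, Units.val_one, linAct_one, sub_self]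
      exact P.zero_mem
    · rw [inv_one, map_one, Units.val_one, linAct_one, sub_self]
      exact P.zero_mem
  inv_mem' := by
    rintro a ⟨ha, ha'⟩
    refine ⟨ha', fun s => ?_⟩
    rw [inv_inv]
    exact ha s

/-- The first condition suffices. PROOF. `w⁻¹` is a power of `w`. -/
theorem mem_inert (ρ : W →* GL (Fin n) k) (P : Ideal (Sn k n)) (w : W) :
    w ∈ inert ρ P ↔ ∀ s, linAct (ρ w : Matrix (Fin n) (Fin n) k) s - s ∈ P := by
  constructor
  · exact fun h => h.1
  · intro h
    refine ⟨h, ?_⟩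
    have hp : ∀ m : ℕ, ∀ s, linAct (ρ (w ^ m) : Matrix (Fin n) (Fin n) k) s - s ∈ P := by
      intro m
      induction m with
      | zero =>
        intro s
        rw [pow_zero, map_one, Units.val_one, linAct_one, sub_self]
        exact P.zero_mem
      | succ m ih =>
        intro s
        rw [pow_succ', map_mul, Units.val_mul, linAct_mul]
        have h1 := P.add_mem (h (linAct (ρ (w ^ m) : Matrix (Fin n) (Fin n) k) s)) (ih s)
        rwa [sub_add_sub_cancel] at h1
    have hw : w⁻¹ = w ^ (orderOf w - 1) := by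
      refine inv_eq_of_mul_eq_one_left ?_
      rw [← pow_succ, Nat.sub_add_cancel (orderOf_pos w), pow_orderOf_eq_one]
    rw [hw]
    exact hp _

/-- PROOF. Suppose `w b - b ∈ P` for all `b ∈ T = S^L`, `L = inert ρ P`. For `x ∈ P` the product `N = ∏_{l ∈ L} l x` is in `T ∩ P`, so `w N ∈ P` and `w l x ∈ P` for some `l ∈ L`. So `P` is contained in the union of the primes
`(w l)⁻¹ P` (comap by `linAct (ρ (w l))`), `l ∈ L`; by prime avoidance (`Ideal.subset_union_prime`) `P ≤ (w l)⁻¹ P` for one `l`, i.e. `w l P ⊆ P`; as `l P ⊆ P` and `w l` has finite order, `w P ⊆ P` (`w x = w l (l⁻¹ x)`). For `a ∈ S` let `b = |L|⁻¹ ∑_{l ∈ L} l a ∈ T`, so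
`a - b ∈ P`. Then `w a - a = w (a - b) + (w b - b) + (b - a) ∈ P`, so `w ∈ L`. -/
theorem exists_sep (hW : (Nat.card W : k) ≠ 0) (ρ : W →* GL (Fin n) k) (P : Ideal (Sn k n)) [P.IsPrime]
    {w : W} (hw : w ∉ inert ρ P) : ∃ b ∈ invA (ρ.comp (inert ρ P).subtype),
      linAct (ρ w : Matrix (Fin n) (Fin n) k) b - b ∉ P := by
  classical
  by_contra hcon
  push Not at hcon
  apply hw
  let _ : Fintype (inert ρ P) := Fintype.ofFinite _
  -- invariance of sums and products over the inertia group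
  have hshift : ∀ (l' l : inert ρ P) (s : Sn k n),
      linAct ((ρ.comp (inert ρ P).subtype) l' : Matrix (Fin n) (Fin n) k)
        (linAct (ρ (l : W) : Matrix (Fin n) (Fin n) k) s) =
        linAct (ρ ((l' * l : inert ρ P) : W) : Matrix (Fin n) (Fin n) k) s := by
    intro l' l s
    rw [Subgroup.coe_mul, map_mul, Units.val_mul, linAct_mul]
    rfl
  -- elements of the inertia group preserve `P`
  have hL : ∀ l ∈ inert ρ P, ∀ x ∈ P, linAct (ρ l : Matrix (Fin n) (Fin n) k) x ∈ P := by
    intro l hl x hx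
    have h := P.add_mem (hl.1 x) hx
    rwa [sub_add_cancel] at h
  -- claim A
  have hA : ∀ x ∈ P, ∃ l : inert ρ P, linAct (ρ (w * l) : Matrix (Fin n) (Fin n) k) x ∈ P := by
    intro x hx
    have hN : (∏ l : inert ρ P, linAct (ρ (l : W) : Matrix (Fin n) (Fin n) k) x) ∈
        invA (ρ.comp (inert ρ P).subtype) := by
      rw [mem_invA]
      intro l'
      rw [map_prod, Finset.prod_congr rfl fun l _ => hshift l' l x]
      exact Equiv.prod_comp (Equiv.mulLeft l')
        (fun l : inert ρ P => linAct (ρ (l : W) : Matrix (Fin n) (Fin n) k) x)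
    have hNP : (∏ l : inert ρ P, linAct (ρ (l : W) : Matrix (Fin n) (Fin n) k) x) ∈ P := by
      refine Ideal.mem_of_dvd P (Finset.dvd_prod_of_mem _ (Finset.mem_univ (1 : inert ρ P))) ?_
      rw [Subgroup.coe_one, map_one, Units.val_one, linAct_one]
      exact hx
    have h1 := P.add_mem (hcon _ hN) hNP
    rw [sub_add_cancel, map_prod] at h1
    obtain ⟨l, _, hl⟩ := Ideal.IsPrime.prod_mem_iff.1 h1
    refine ⟨l, ?_⟩
    rw [map_mul, Units.val_mul, linAct_mul]
    exact hl
  -- claim B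
  have hB : ∃ l : inert ρ P, ∀ x ∈ P, linAct (ρ (w * l) : Matrix (Fin n) (Fin n) k) x ∈ P := by
    have h2 := (Ideal.subset_union_prime (R := Sn k n) (s := (Finset.univ : Finset (inert ρ P)))
      (f := fun l : inert ρ P => P.comap (linAct (ρ (w * l) : Matrix (Fin n) (Fin n) k))) 1 1
      (fun i _ _ _ => Ideal.comap_isPrime _ _) (I := P)).1 (by
        intro x hx
        obtain ⟨l, hl⟩ := hA x hx
        simp only [Set.mem_iUnion]
        exact ⟨l, Finset.mem_coe.2 (Finset.mem_univ _), hl⟩)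
    obtain ⟨l, _, hl⟩ := h2
    exact ⟨l, fun x hx => hl hx⟩
  obtain ⟨l, hl⟩ := hB
  have hwP : ∀ x ∈ P, linAct (ρ w : Matrix (Fin n) (Fin n) k) x ∈ P := by
    intro x hx
    have h3 := hl _ (hL ((l : W)⁻¹) ((inert ρ P).inv_mem l.2) x hx)
    rw [← linAct_mul, ← Units.val_mul, ← map_mul, mul_assoc, mul_inv_cancel, mul_one] at h3
    exact h3
  -- the average
  rw [mem_inert]
  intro a
  have hLk : ((Fintype.card (inert ρ P) : ℕ) : k) ≠ 0 := by
    have h2 : Nat.card (inert ρ P) ∣ Nat.card W := Subgroup.card_subgroup_dvd_card _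
    obtain ⟨m, hm⟩ := h2
    intro h0
    apply hW
    rw [hm, Nat.card_eq_fintype_card, Nat.cast_mul, h0, zero_mul]
  set c : k := ((Fintype.card (inert ρ P) : ℕ) : k)⁻¹ with hc
  set b : Sn k n := MvPolynomial.C c * ∑ l : inert ρ P, linAct (ρ (l : W) : Matrix (Fin n) (Fin n) k) a with hb
  have hbI : b ∈ invA (ρ.comp (inert ρ P).subtype) := by
    rw [mem_invA]
    intro l'
    rw [hb, map_mul, MvPolynomial.algHom_C, MvPolynomial.algebraMap_eq, map_sum,
      Finset.sum_congr rfl fun l _ => hshift l' l a]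
    exact congrArg (fun z : Sn k n => MvPolynomial.C c * z) (Equiv.sum_comp (Equiv.mulLeft l')
      (fun l : inert ρ P => linAct (ρ (l : W) : Matrix (Fin n) (Fin n) k) a))
  have hba : b - a ∈ P := by
    have h4 : b - a = MvPolynomial.C c * ∑ l : inert ρ P, (linAct (ρ (l : W) : Matrix (Fin n) (Fin n) k) a - a) := by
      rw [Finset.sum_sub_distrib, mul_sub, ← hb, Finset.sum_const, Finset.card_univ, nsmul_eq_mul,
        ← mul_assoc]
      have h5 : (MvPolynomial.C c : Sn k n) * ((Fintype.card (inert ρ P) : ℕ) : Sn k n) = 1 := by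
        have : ((Fintype.card (inert ρ P) : ℕ) : Sn k n) =
          MvPolynomial.C ((Fintype.card (inert ρ P) : ℕ) : k) := (map_natCast _ _).symm
        rw [this, ← MvPolynomial.C_mul, hc, inv_mul_cancel₀ hLk, MvPolynomial.C_1]
      rw [h5, one_mul]
    rw [h4]
    exact P.mul_mem_left _ (P.sum_mem fun l _ => l.2.1 a)
  have h6 : linAct (ρ w : Matrix (Fin n) (Fin n) k) a - a =
      (linAct (ρ w : Matrix (Fin n) (Fin n) k) b - b) + (b - a) -
        linAct (ρ w : Matrix (Fin n) (Fin n) k) (b - a) := by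
    rw [map_sub]
    ring
  rw [h6]
  exact P.sub_mem (P.add_mem (hcon b hbI) hba) (hwP _ hba)

end MP8a
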