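import Pool.Agent.Lib_MP_8a48ad_gt.Chev
import Pool.Agent.Lib_MP_8a48ad_gt.Inert
import Pool.Agent.Lib_MP_8a48ad_gt.GenV1

/-! # Piece GENV2: stabilisers of vectors and inertia groups -/

set_option autoImplicit false

namespace MP8a

universe u

variable {n : ℕ} {W : Type*} [Group W] [Finite W]

variable {k : Type u} [Field k]

/-- reflections over `ℤ` give reflections over `k` -/
theorem gv2_isRefl_map {A : Matrix (Fin n) (Fin n) ℤ} (hA : IsRefl A) :
    IsRefl (A.map (Int.castRingHom k)) := by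
  obtain ⟨u, v, rfl⟩ := hA
  refine ⟨fun i => Int.castRingHom k (u i), fun i => Int.castRingHom k (v i), ?_⟩
  ext i j
  rw [Matrix.map_apply, Matrix.add_apply, Matrix.add_apply, Matrix.vecMulVec_apply,
    Matrix.vecMulVec_apply, map_add, map_mul, Matrix.one_apply, Matrix.one_apply]
  split <;> simp

omit [Finite W] in
theorem gv2_latt_coe (ρ : W →* GL (Fin n) ℤ) (w : W) :
    (latt k ρ w : Matrix (Fin n) (Fin n) k) =
      (ρ w : Matrix (Fin n) (Fin n) ℤ).map (Int.castRingHom k) := rfl

/-- sums of linear substitutions of variables -/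
theorem gv2_sum_linAct_X {ι : Type*} (s : Finset ι) (A : ι → Matrix (Fin n) (Fin n) k) (j : Fin n) :
    ∑ l ∈ s, linAct (A l) (MvPolynomial.X j) =
      ∑ i, MvPolynomial.C ((∑ l ∈ s, A l) i j) * MvPolynomial.X i := by
  simp only [linAct_X]
  rw [Finset.sum_comm]
  refine Finset.sum_congr rfl fun i _ => ?_
  rw [Matrix.sum_apply, map_sum, Finset.sum_mul]

/-- a multiple by an invertible number -/
theorem gv2_mem_of_natCast_mul {N : ℕ} (hN : (N : k) ≠ 0) {P : Ideal (Sn k n)} {z : Sn k n}
    (h : (N : Sn k n) * z ∈ P) : z ∈ P := by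
  have h1 := P.mul_mem_left (MvPolynomial.C ((N : k)⁻¹)) h
  have h2 : (MvPolynomial.C ((N : k)⁻¹) : Sn k n) * ((N : Sn k n) * z) = z := by
    have h3 : (N : Sn k n) = MvPolynomial.C (N : k) := (map_natCast _ _).symm
    rw [← mul_assoc, h3, ← MvPolynomial.C_mul, inv_mul_cancel₀ hN, MvPolynomial.C_1, one_mul]
  rwa [h2] at h1

/-- PIECE GENV2. The stabilisers of nonzero vectors of `ℤ^n` are generated by reflections, `P` is a prime of `S` which does not contain all variables. Then the inertia group `L` of `P` acts on `k^n` as a group generated by reflections.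
PROOF. Let `L = inert (latt k ρ) P`, `e = ∑_{l ∈ L} ρ(l)` over `ℤ`. If `e = 0` then over `k` `|L| x_j = ∑_l (x_j - l x_j) ∈ P` for all `j`, so `x_j ∈ P`, contradiction; so some `e y ≠ 0` is a nonzero vector fixed by `L`. Take `v` from `exists_generic`.
For `w` fixing `v`: `e (w - 1) = 0` over `ℤ`, so over `k`; for every `j`, `z = w x_j - x_j` satisfies `∑_l l z = 0`, so `|L| z = ∑_l (z - l z) ∈ P`, `z ∈ P`; so `w s - s ∈ P` for all `s` and `w ∈ L`. Now let `w ∈ L`: it fixes `v`, so `ρ w` is in the closure of the reflections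
`ρ s` fixing `v`; these `s` are in `L`, and `latt k` maps reflections over `ℤ` to reflections over `k`. -/
theorem reflGen_inert (hW : (Nat.card W : k) ≠ 0) (ρ : W →* GL (Fin n) ℤ)
    (h : ∀ v : Fin n → ℤ, v ≠ 0 → ∀ w, (ρ w : Matrix (Fin n) (Fin n) ℤ).mulVec v = v →
      ρ w ∈ Subgroup.closure {g : GL (Fin n) ℤ | ∃ s, g = ρ s ∧
        (g : Matrix (Fin n) (Fin n) ℤ).mulVec v = v ∧ IsRefl (g : Matrix (Fin n) (Fin n) ℤ)})
    (P : Ideal (Sn k n)) [P.IsPrime] (hP : ∃ i, (MvPolynomial.X i : Sn k n) ∉ P) :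
    ReflGen ((latt k ρ).comp (inert (latt k ρ) P).subtype) := by
  classical
  obtain ⟨L, hLdef⟩ : ∃ L, L = inert (latt k ρ) P := ⟨_, rfl⟩
  have hfL : Fintype L := Fintype.ofFinite L
  have hLmem : ∀ l ∈ L, ∀ s, linAct (latt k ρ l : Matrix (Fin n) (Fin n) k) s - s ∈ P := by
    intro l hl
    rw [hLdef] at hl
    exact (mem_inert _ _ _).1 hl
  have hNk : ((Fintype.card L : ℕ) : k) ≠ 0 := by
    have h2 : Fintype.card L ∣ Nat.card W := by
      rw [← Nat.card_eq_fintype_card]
      exact Subgroup.card_subgroup_dvd_card _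
    obtain ⟨m, hm⟩ := h2
    intro h0
    apply hW
    rw [hm, Nat.cast_mul, h0, zero_mul]
  -- averaging
  have havg : ∀ z : Sn k n, ∑ l : L, linAct (latt k ρ l.1 : Matrix (Fin n) (Fin n) k) z = 0 → z ∈ P := by
    intro z hz
    refine gv2_mem_of_natCast_mul hNk ?_
    have h1 : ((Fintype.card L : ℕ) : Sn k n) * z =
        -∑ l : L, (linAct (latt k ρ l.1 : Matrix (Fin n) (Fin n) k) z - z) := by
      rw [Finset.sum_sub_distrib, hz, zero_sub, neg_neg, Finset.sum_const, Finset.card_univ,
        nsmul_eq_mul]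
    rw [h1]
    exact P.neg_mem (P.sum_mem fun l _ => hLmem l.1 l.2 z)
  -- the sum over `L`, over `k`
  have hmapsum : (∑ l : L, (latt k ρ l.1 : Matrix (Fin n) (Fin n) k)) =
      (∑ l : L, (ρ l.1 : Matrix (Fin n) (Fin n) ℤ)).map (Int.castRingHom k) := by
    ext i j
    rw [Matrix.map_apply, Matrix.sum_apply, Matrix.sum_apply, map_sum]
    rfl
  -- a fixed vector
  have hfix : ∃ v : Fin n → ℤ, v ≠ 0 ∧ ∀ l ∈ L, (ρ l : Matrix (Fin n) (Fin n) ℤ).mulVec v = v := by
    by_cases he : (∑ l : L, (ρ l.1 : Matrix (Fin n) (Fin n) ℤ)) = 0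
    · exfalso
      obtain ⟨j, hj⟩ := hP
      apply hj
      apply havg
      rw [gv2_sum_linAct_X, hmapsum, he]
      simp
    · have h1 : ∃ y : Fin n → ℤ, (∑ l : L, (ρ l.1 : Matrix (Fin n) (Fin n) ℤ)).mulVec y ≠ 0 := by
        by_contra hcon
        push Not at hcon
        apply he
        apply Matrix.ext_of_mulVec_single
        intro i
        rw [hcon, Matrix.zero_mulVec]
      obtain ⟨y, hy⟩ := h1
      refine ⟨_, hy, fun l hl => ?_⟩
      rw [Matrix.mulVec_mulVec, Finset.mul_sum]
      congr 1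
      have h2 : ∀ m : L, (ρ l : Matrix (Fin n) (Fin n) ℤ) * (ρ m.1 : Matrix (Fin n) (Fin n) ℤ) =
          (ρ ((⟨l, hl⟩ : L) * m).1 : Matrix (Fin n) (Fin n) ℤ) := by
        intro m
        rw [Subgroup.coe_mul, map_mul, Units.val_mul]
      rw [Finset.sum_congr rfl fun m _ => h2 m]
      exact Equiv.sum_comp (Equiv.mulLeft (⟨l, hl⟩ : L))
        (fun m : L => (ρ m.1 : Matrix (Fin n) (Fin n) ℤ))
  obtain ⟨v, hv0, hvL, hv⟩ := exists_generic ρ L hfix
  -- the stabiliser of `v` is contained in `L`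
  have hstab : ∀ w, (ρ w : Matrix (Fin n) (Fin n) ℤ).mulVec v = v → w ∈ L := by
    intro w hw
    have h1 := hv w hw
    have hX : ∀ j : Fin n, linAct (latt k ρ w : Matrix (Fin n) (Fin n) k) (MvPolynomial.X j) -
        MvPolynomial.X j ∈ P := by
      intro j
      apply havg
      have h2 : ∀ l : L, linAct (latt k ρ l.1 : Matrix (Fin n) (Fin n) k)
          (linAct (latt k ρ w : Matrix (Fin n) (Fin n) k) (MvPolynomial.X j) - MvPolynomial.X j) =
          linAct ((latt k ρ l.1 : Matrix (Fin n) (Fin n) k) *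
            (latt k ρ w : Matrix (Fin n) (Fin n) k)) (MvPolynomial.X j) -
          linAct (latt k ρ l.1 : Matrix (Fin n) (Fin n) k) (MvPolynomial.X j) := by
        intro l
        rw [map_sub, linAct_mul]
      rw [Finset.sum_congr rfl fun l _ => h2 l, Finset.sum_sub_distrib, gv2_sum_linAct_X, gv2_sum_linAct_X,
        ← Finset.sum_sub_distrib]
      have h3 : (∑ l : L, (latt k ρ l.1 : Matrix (Fin n) (Fin n) k) *
          (latt k ρ w : Matrix (Fin n) (Fin n) k)) =
          ∑ l : L, (latt k ρ l.1 : Matrix (Fin n) (Fin n) k) := by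
        rw [← Finset.sum_mul, ← sub_eq_zero, ← mul_sub_one, hmapsum, gv2_latt_coe]
        have h4 : ((ρ w : Matrix (Fin n) (Fin n) ℤ).map (Int.castRingHom k) - 1 :
            Matrix (Fin n) (Fin n) k) =
            ((ρ w : Matrix (Fin n) (Fin n) ℤ) - 1).map (Int.castRingHom k) := by
          rw [Matrix.map_sub _ (fun a b => map_sub (Int.castRingHom k) a b),
            Matrix.map_one _ (map_zero _) (map_one _)]
        rw [h4, ← Matrix.map_mul, h1]
        exact Matrix.map_zero _ (map_zero _)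
      rw [h3]
      simp
    have hall : ∀ s, linAct (latt k ρ w : Matrix (Fin n) (Fin n) k) s - s ∈ P := by
      intro s
      induction s using MvPolynomial.induction_on with
      | C c =>
        have h2 : linAct (latt k ρ w : Matrix (Fin n) (Fin n) k) (MvPolynomial.C c) =
            MvPolynomial.C c := (linAct _).commutes c
        rw [h2, sub_self]
        exact P.zero_mem
      | add p q hp hq =>
        rw [map_add, add_sub_add_comm]
        exact P.add_mem hp hq
      | mul_X p j hp =>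
        have h2 : linAct (latt k ρ w : Matrix (Fin n) (Fin n) k) (p * MvPolynomial.X j) -
            p * MvPolynomial.X j = linAct (latt k ρ w : Matrix (Fin n) (Fin n) k) p *
              (linAct (latt k ρ w : Matrix (Fin n) (Fin n) k) (MvPolynomial.X j) -
                MvPolynomial.X j) +
            (linAct (latt k ρ w : Matrix (Fin n) (Fin n) k) p - p) * MvPolynomial.X j := by
          rw [map_mul]
          ring
        rw [h2]
        exact P.add_mem (P.mul_mem_left _ (hX j)) (P.mul_mem_right _ hp)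
    rw [hLdef]
    exact (mem_inert _ _ _).2 hall
  intro w
  have hwL : w.1 ∈ L := by
    rw [hLdef]
    exact w.2
  have h1 := h v hv0 w.1 (hvL _ hwL)
  have h2 := Subgroup.mem_map_of_mem (Matrix.GeneralLinearGroup.map (Int.castRingHom k)) h1
  rw [MonoidHom.map_closure] at h2
  refine Subgroup.closure_mono ?_ h2
  rintro _ ⟨g, ⟨s, rfl, hs, hrefl⟩, rfl⟩
  have hsL : s ∈ inert (latt k ρ) P := by
    rw [← hLdef]
    exact hstab s hs
  exact ⟨⟨s, hsL⟩, rfl, gv2_isRefl_map hrefl⟩

end MP8a
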