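import Pool.Agent.Lib_MP_8a48ad_gt.InvSetup

/-! # Piece INTCL: rings of invariants are normal -/

set_option autoImplicit false

namespace MP8a

universe u

variable {k : Type u} [Field k] {n : ℕ} {W : Type*} [Group W] [Finite W]

/-- PROOF. `S` is a unique factorization domain, so integrally closed. If `a, b ∈ R`, `b ≠ 0` and `a / b` is integral over `R`, then `a = b s` with `s ∈ S`
(the fraction field of `R` maps to the one of `S`), and `b (w s) = a = b s` shows that `s` is invariant. -/
theorem intCl_inv (ρ : W →* GL (Fin n) k) : IsIntegrallyClosed (invA ρ) := by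
  have : IsDomain (Sn k n) := inferInstanceAs (IsDomain (MvPolynomial (Fin n) k))
  have : IsIntegrallyClosed (Sn k n) := inferInstanceAs (IsIntegrallyClosed (MvPolynomial (Fin n) k))
  rw [isIntegrallyClosed_iff (FractionRing (invA ρ))]
  intro x hx
  -- the embedding of fraction fields
  have hinj : Function.Injective
      ((algebraMap (Sn k n) (FractionRing (Sn k n))).comp (invA ρ).val.toRingHom) :=
    (IsFractionRing.injective (Sn k n) (FractionRing (Sn k n))).comp Subtype.val_injective
  let φ : FractionRing (invA ρ) →+* FractionRing (Sn k n) := IsFractionRing.lift hinj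
  have hφ : ∀ r : invA ρ, φ (algebraMap (invA ρ) (FractionRing (invA ρ)) r) =
      algebraMap (Sn k n) (FractionRing (Sn k n)) (r : Sn k n) := fun r =>
    IsFractionRing.lift_algebraMap hinj r
  -- φ x is integral over S
  have hint : IsIntegral (Sn k n) (φ x) := by
    obtain ⟨p, hp, hp0⟩ := hx
    refine ⟨p.map (invA ρ).val.toRingHom, hp.map _, ?_⟩
    rw [Polynomial.eval₂_map]
    have h1 : (algebraMap (Sn k n) (FractionRing (Sn k n))).comp (invA ρ).val.toRingHom =
        φ.comp (algebraMap (invA ρ) (FractionRing (invA ρ))) := by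
      ext r
      exact (hφ r).symm
    rw [h1, ← Polynomial.hom_eval₂, hp0, map_zero]
  obtain ⟨s, hs⟩ := (isIntegrallyClosed_iff (FractionRing (Sn k n))).1 inferInstance hint
  obtain ⟨a, b, hb, hab⟩ := IsFractionRing.div_surjective (A := invA ρ) x
  have hb0 : b ≠ 0 := nonZeroDivisors.ne_zero hb
  have hb0' : (b : Sn k n) ≠ 0 := fun h => hb0 (Subtype.ext h)
  have hbK : algebraMap (invA ρ) (FractionRing (invA ρ)) b ≠ 0 := by
    intro h
    exact hb0 ((IsFractionRing.injective (invA ρ) (FractionRing (invA ρ))) (by rw [h, map_zero]))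
  have hmul : (b : Sn k n) * s = a := by
    apply IsFractionRing.injective (Sn k n) (FractionRing (Sn k n))
    rw [map_mul, hs, ← hφ, ← hφ, ← map_mul, ← hab, mul_div_cancel₀]
    · exact hbK
  have hinv : s ∈ invA ρ := by
    rw [mem_invA]
    intro w
    have h1 : linAct (ρ w : Matrix (Fin n) (Fin n) k) ((b : Sn k n) * s) = (a : Sn k n) := by
      rw [hmul]
      exact a.2 w
    rw [map_mul, b.2 w, ← hmul] at h1
    exact mul_left_cancel₀ hb0' h1
  refine ⟨⟨s, hinv⟩, ?_⟩
  have hR : b * ⟨s, hinv⟩ = a := Subtype.ext hmul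
  rw [← hab, eq_div_iff hbK, ← map_mul, mul_comm, hR]

end MP8a
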