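import Pool.Agent.Lib_MP_8a48ad_gt.JIdeal

/-! # Piece JGEN: a criterion for isolated singularities -/

set_option autoImplicit false

namespace MP8a

universe u

variable {k : Type u} [Field k] {n : ℕ} {R : Type u} [CommRing R] [Algebra k R]
  [Algebra R (Sn k n)] {GR : Gr R}

/-- the `k`-subspace of `R` of the elements which are homogeneous of degree `j` in `S` -/
private noncomputable def JGENW (hS : Setup k n GR) (j : ℕ) : Submodule k R :=
  have := hS.tower
  Submodule.comap (IsScalarTower.toAlgHom k R (Sn k n)).toLinearMap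
    (MvPolynomial.homogeneousSubmodule (Fin n) k j)

private theorem JGENW_mem (hS : Setup k n GR) (j : ℕ) (a : R) :
    a ∈ JGENW hS j ↔ (algebraMap R (Sn k n) a).IsHomogeneous j := Iff.rfl

private theorem JGENW_fin (hS : Setup k n GR) (j : ℕ) : Module.Finite k (JGENW hS j) := by
  have ht := hS.tower
  have h1 : Module.Finite k (MvPolynomial.homogeneousSubmodule (Fin n) k j) :=
    Module.Finite.iff_fg.2 (MvPolynomial.homogeneousSubmodule_fg (Fin n) k j)
  let φ : JGENW hS j →ₗ[k] MvPolynomial.homogeneousSubmodule (Fin n) k j :=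
    ((IsScalarTower.toAlgHom k R (Sn k n)).toLinearMap.comp (JGENW hS j).subtype).codRestrict _
      (fun x => x.2)
  refine Module.Finite.of_injective φ ?_
  intro x y hxy
  apply Subtype.ext
  apply hS.inj
  exact congrArg Subtype.val hxy

/-- If the ideal `JIdeal` contains all homogeneous elements of large degree then `Isol`. PROOF. `J = JIdeal k n R` is finitely generated (`R` is noetherian)
and homogeneous (`JJ.comp`), so it is generated by finitely many homogeneous elements of even degree (the components of generators; components of odd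
degree are zero). `R/J` is finite over `k`: it is spanned by the classes of the components `R_i`, `0 ≤ i < N` (`Setup.c_neg`), and each `R_i` is finite dimensional
over `k`, because it embeds in the space of homogeneous polynomials of degree `i / 2` (`Setup.inj`). -/
theorem isol_of_large (hS : Setup k n GR) (N : ℤ)
    (h : ∀ m, N ≤ m → ∀ f, GR.c m f = f → JJ k n f) : Isol k n GR := by
  classical
  have := hS.noeth
  obtain ⟨t, ht⟩ := IsNoetherian.noetherian (JIdeal k n R)
  have htJ : ∀ g ∈ t, JJ k n g := by
    intro g hg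
    have h1 : g ∈ JIdeal k n R := by
      rw [← ht]
      exact Submodule.subset_span hg
    exact h1
  choose σ hσ using GR.fin
  set P : Finset (R × ℤ) := (t ×ˢ (t.biUnion σ)).filter (fun p => Even p.2) with hP
  set e : Fin P.card ≃ P := P.equivFin.symm with he
  refine ⟨P.card, fun j => GR.c (e j).1.2 (e j).1.1, fun j => (e j).1.2, ?_, ?_, ?_, ?_⟩
  · intro j
    exact (Finset.mem_filter.1 (e j).2).2
  · intro j
    exact GR.c_self _ _
  · intro j
    have h1 := (Finset.mem_filter.1 (e j).2).1
    exact JJ.comp hS.compat (htJ _ (Finset.mem_product.1 h1).1) _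
  · set I : Ideal R := Ideal.span (Set.range fun j => GR.c (e j).1.2 (e j).1.1) with hI
    have hcomp : ∀ g ∈ t, ∀ i ∈ σ g, GR.c i g ∈ I := by
      intro g hg i hi
      by_cases hev : Even i
      · have hmem : (g, i) ∈ P := by
          rw [hP]
          exact Finset.mem_filter.2
            ⟨Finset.mem_product.2 ⟨hg, Finset.mem_biUnion.2 ⟨g, hg, hi⟩⟩, hev⟩
        refine Ideal.subset_span ⟨e.symm ⟨(g, i), hmem⟩, ?_⟩
        simp
      · rw [GR.odd (Int.not_even_iff_odd.1 hev)]
        exact I.zero_mem
    have hJI : JIdeal k n R ≤ I := by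
      rw [← ht]
      refine Submodule.span_le.2 fun g hg => ?_
      rw [SetLike.mem_coe, ← hσ g]
      exact I.sum_mem fun i hi => hcomp g hg i hi
    set V : Submodule k R := ⨆ j : Fin (N.toNat + 1), JGENW hS (j : ℕ) with hV
    have hVf : Module.Finite k V := by
      have : ∀ j : Fin (N.toNat + 1), Module.Finite k (JGENW hS (j : ℕ)) :=
        fun j => JGENW_fin hS _
      rw [hV]
      infer_instance
    have hdec : ∀ a : R, ∃ v ∈ V, a - v ∈ I := by
      intro a
      refine GR.ind (P := fun a => ∃ v ∈ V, a - v ∈ I) ⟨0, V.zero_mem, by simp⟩ ?_ ?_ a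
      · rintro x y ⟨v, hv, hxv⟩ ⟨w, hw, hyw⟩
        refine ⟨v + w, V.add_mem hv hw, ?_⟩
        rw [add_sub_add_comm]
        exact I.add_mem hxv hyw
      · intro i x hx
        by_cases hneg : i < 0
        · rw [hS.c_neg hneg] at hx
          exact ⟨0, V.zero_mem, by rw [← hx]; simp⟩
        · by_cases hev : Even i
          · by_cases hN : N ≤ i
            · refine ⟨0, V.zero_mem, ?_⟩
              rw [sub_zero]
              exact hJI (h i hN x hx)
            · obtain ⟨m, hm⟩ := hev
              obtain ⟨j, hj⟩ : ∃ j : ℕ, i = 2 * (j : ℤ) := ⟨m.toNat, by omega⟩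
              have hjN : j < N.toNat + 1 := by omega
              refine ⟨x, ?_, by rw [sub_self]; exact I.zero_mem⟩
              have h1 : x ∈ JGENW hS j := by
                rw [JGENW_mem, ← hx, hS.compat, hj, grS_even]
                exact MvPolynomial.homogeneousComponent_isHomogeneous _ _
              exact (le_iSup (fun j : Fin (N.toNat + 1) => JGENW hS (j : ℕ)) ⟨j, hjN⟩) h1
          · rw [GR.odd (Int.not_even_iff_odd.1 hev)] at hx
            exact ⟨0, V.zero_mem, by rw [← hx]; simp⟩
    let φ : V →ₗ[k] (R ⧸ I) := (Ideal.Quotient.mkₐ k I).toLinearMap.comp V.subtype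
    refine Module.Finite.of_surjective φ ?_
    intro y
    obtain ⟨a, rfl⟩ := Ideal.Quotient.mk_surjective y
    obtain ⟨v, hv, hav⟩ := hdec a
    refine ⟨⟨v, hv⟩, ?_⟩
    change Ideal.Quotient.mk I v = Ideal.Quotient.mk I a
    exact ((Ideal.Quotient.mk_eq_mk_iff_sub_mem _ _).2 hav).symm

end MP8a
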