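import Pool.Agent.Lib_MP_8a48ad_gt.InvSetup

/-! # Piece JS: the ideal of `S` of elements which factor through free `R`-modules -/

set_option autoImplicit false

namespace MP8a

universe u

variable {k : Type u} [Field k] {n : ℕ} {W : Type*} [Group W] [Finite W]

/-- `s · id = ∑ x_i τ_i` for `s ∈ S` -/
def JS (ρ : W →* GL (Fin n) k) (s : Sn k n) : Prop :=
  ∃ (l : ℕ) (τ : Fin l → (Sn k n →ₗ[invA ρ] invA ρ)) (x : Fin l → Sn k n),
    ∀ t, s * t = ∑ i, (τ i t : Sn k n) * x i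

omit [Finite W] in
theorem JS_of_fintype (ρ : W →* GL (Fin n) k) (s : Sn k n) (ι : Type) [Fintype ι]
    (τ : ι → (Sn k n →ₗ[invA ρ] invA ρ)) (x : ι → Sn k n)
    (h : ∀ t, s * t = ∑ i, (τ i t : Sn k n) * x i) : JS ρ s := by
  classical
  have e : ι ≃ Fin (Fintype.card ι) := Fintype.equivFin ι
  refine ⟨Fintype.card ι, fun i => τ (e.symm i), fun i => x (e.symm i), fun t => ?_⟩
  rw [h t]
  exact (Equiv.sum_comp e.symm (fun i => (τ i t : Sn k n) * x i)).symm

/-- the transfer -/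
noncomputable def trJ (ρ : W →* GL (Fin n) k) : Sn k n →ₗ[invA ρ] invA ρ :=
  letI := Fintype.ofFinite W
  { toFun := fun t => ⟨∑ v : W, linAct (ρ v : Matrix (Fin n) (Fin n) k) t, fun w => by
      rw [map_sum]
      have h : ∀ v : W, linAct (ρ w : Matrix (Fin n) (Fin n) k) (linAct (ρ v : Matrix (Fin n) (Fin n) k) t) =
          linAct (ρ (w * v) : Matrix (Fin n) (Fin n) k) t := by
        intro v
        rw [map_mul, Units.val_mul, linAct_mul]
      rw [Finset.sum_congr rfl fun v _ => h v]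
      exact Equiv.sum_comp (Equiv.mulLeft w) (fun v => linAct (ρ v : Matrix (Fin n) (Fin n) k) t)⟩
    map_add' := fun a b => by
      apply Subtype.ext
      simp only [map_add, Finset.sum_add_distrib]
      rfl
    map_smul' := fun r t => by
      apply Subtype.ext
      rw [RingHom.id_apply]
      change ∑ v : W, linAct (ρ v : Matrix (Fin n) (Fin n) k) ((r : Sn k n) * t) =
        (r : Sn k n) * ∑ v : W, linAct (ρ v : Matrix (Fin n) (Fin n) k) t
      rw [Finset.mul_sum]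
      refine Finset.sum_congr rfl fun v _ => ?_
      rw [map_mul, r.2 v] }

theorem trJ_coe [Fintype W] (ρ : W →* GL (Fin n) k) (t : Sn k n) :
    (trJ ρ t : Sn k n) = ∑ v : W, linAct (ρ v : Matrix (Fin n) (Fin n) k) t := by
  have : Fintype.ofFinite W = (inferInstance : Fintype W) := Subsingleton.elim _ _
  change (letI := Fintype.ofFinite W; ∑ v : W, linAct (ρ v : Matrix (Fin n) (Fin n) k) t) = _
  rw [this]

omit [Finite W] in
theorem JS_good (ρ : W →* GL (Fin n) k) (b c : {w : W // ρ w ≠ 1} → Sn k n) (F : Finset {w : W // ρ w ≠ 1}) :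
    ∃ (ι : Type) (_ : Fintype ι) (x y : ι → Sn k n), ∀ v : W,
      ∑ i, x i * linAct (ρ v : Matrix (Fin n) (Fin n) k) (y i) =
        ∏ w ∈ F, (b w - linAct (ρ v : Matrix (Fin n) (Fin n) k) (c w)) := by
  classical
  induction F using Finset.induction_on with
  | empty =>
    refine ⟨Unit, inferInstance, fun _ => 1, fun _ => 1, fun v => ?_⟩
    simp
  | insert w F hw ih =>
    obtain ⟨ι, hι, x, y, h⟩ := ih
    refine ⟨ι ⊕ ι, inferInstance, Sum.elim (fun i => b w * x i) (fun i => - x i),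
      Sum.elim y (fun i => c w * y i), fun v => ?_⟩
    rw [Fintype.sum_sum_type, Finset.prod_insert hw, ← h v, Finset.mul_sum, ← Finset.sum_add_distrib]
    refine Finset.sum_congr rfl fun i _ => ?_
    simp only [Sum.elim_inl, Sum.elim_inr, map_mul]
    ring

/-- PROOF. Let `E = {w | ρ w ≠ 1}` and let `a_w` (`w ∈ E`) be polynomials. Expand the product `∏_{w ∈ E} (a_w ⊗ 1 - 1 ⊗ w⁻¹ a_w) = ∑_i x_i ⊗ y_i` in `S ⊗_k S`.
For every `v ∈ W` the homomorphism `x ⊗ y ↦ x · v(y)` maps it to `∏_{w ∈ E} (a_w - v w⁻¹ a_w)`, which is `0` if `v ∈ E` (factor `w = v`) and `Π = ∏_{w ∈ E} (a_w - w⁻¹ a_w)` if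
`ρ v = 1`. Let `τ_i(t) = ∑_{v ∈ W} v(y_i t)` (invariant). Then `∑_i x_i τ_i(t) = ∑_v (∑_i x_i v(y_i)) v(t) = |ker ρ| Π t`, and `|ker ρ|` divides `|W|`, so it is invertible in `k`.
(Instead of the tensor product: call a family `(x_i, y_i)` of pairs good for a set `F ⊆ E` if `∑_i x_i v(y_i) = ∏_{w ∈ F} (a_w - v w⁻¹ a_w)` for all `v ∈ W`, and construct it by induction on the finite set `F`.) -/
theorem JS_prod (hW : (Nat.card W : k) ≠ 0) (ρ : W →* GL (Fin n) k) [Fintype {w : W // ρ w ≠ 1}]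
    (a : {w : W // ρ w ≠ 1} → Sn k n) :
    JS ρ (∏ w, (a w - linAct (ρ (w.1)⁻¹ : Matrix (Fin n) (Fin n) k) (a w))) := by
  classical
  let _ := Fintype.ofFinite W
  set Pi : Sn k n := ∏ w, (a w - linAct (ρ (w.1)⁻¹ : Matrix (Fin n) (Fin n) k) (a w)) with hPi
  obtain ⟨ι, hι, x, y, h⟩ := JS_good ρ a (fun w => linAct (ρ (w.1)⁻¹ : Matrix (Fin n) (Fin n) k) (a w)) Finset.univ
  -- values
  have hv1 : ∀ v : W, ρ v ≠ 1 → ∏ w : {w : W // ρ w ≠ 1}, (a w - linAct (ρ v : Matrix (Fin n) (Fin n) k)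
      (linAct (ρ (w.1)⁻¹ : Matrix (Fin n) (Fin n) k) (a w))) = 0 := by
    intro v hv
    refine Finset.prod_eq_zero (Finset.mem_univ ⟨v, hv⟩) ?_
    rw [← linAct_mul, ← Units.val_mul, ← map_mul]
    simp only [mul_inv_cancel, map_one, Units.val_one, linAct_one, sub_self]
  have hv2 : ∀ v : W, ρ v = 1 → ∏ w : {w : W // ρ w ≠ 1}, (a w - linAct (ρ v : Matrix (Fin n) (Fin n) k)
      (linAct (ρ (w.1)⁻¹ : Matrix (Fin n) (Fin n) k) (a w))) = Pi := by
    intro v hv
    rw [hv, hPi]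
    simp only [Units.val_one, linAct_one]
  -- the order of the kernel
  set N : ℕ := (Finset.univ.filter fun v : W => ρ v = 1).card with hN
  have hNk : (N : k) ≠ 0 := by
    have h1 : N = Nat.card ρ.ker := by
      rw [hN, Nat.card_eq_fintype_card, Fintype.card_subtype]
      congr 1
      ext v
      simp [MonoidHom.mem_ker]
    have h2 : N ∣ Nat.card W := by
      rw [h1]
      exact Subgroup.card_subgroup_dvd_card _
    obtain ⟨m, hm⟩ := h2
    intro h0
    apply hW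
    rw [hm, Nat.cast_mul, h0, zero_mul]
  have key : ∀ t : Sn k n, ∑ i, (trJ ρ (y i * t) : Sn k n) * x i = (N : Sn k n) * (Pi * t) := by
    intro t
    have h1 : ∀ i, (trJ ρ (y i * t) : Sn k n) * x i = ∑ v : W, (x i * linAct (ρ v : Matrix (Fin n) (Fin n) k) (y i)) *
        linAct (ρ v : Matrix (Fin n) (Fin n) k) t := by
      intro i
      rw [trJ_coe, Finset.sum_mul]
      refine Finset.sum_congr rfl fun v _ => ?_
      rw [map_mul]
      ring
    rw [Finset.sum_congr rfl fun i _ => h1 i, Finset.sum_comm]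
    have h2 : ∀ v : W, ∑ i, (x i * linAct (ρ v : Matrix (Fin n) (Fin n) k) (y i)) *
        linAct (ρ v : Matrix (Fin n) (Fin n) k) t = if ρ v = 1 then Pi * t else 0 := by
      intro v
      rw [← Finset.sum_mul, h v]
      by_cases hv : ρ v = 1
      · rw [if_pos hv, hv2 v hv, hv, Units.val_one, linAct_one]
      · rw [if_neg hv, hv1 v hv, zero_mul]
    rw [Finset.sum_congr rfl fun v _ => h2 v, ← Finset.sum_filter, Finset.sum_const, nsmul_eq_mul, hN]
  refine JS_of_fintype ρ _ ι (fun i => (trJ ρ).comp (LinearMap.mulLeft (invA ρ) (y i)))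
    (fun i => MvPolynomial.C ((N : k)⁻¹) * x i) fun t => ?_
  have h3 : ∀ i, (((trJ ρ).comp (LinearMap.mulLeft (invA ρ) (y i))) t : Sn k n) * (MvPolynomial.C ((N : k)⁻¹) * x i) =
      MvPolynomial.C ((N : k)⁻¹) * ((trJ ρ (y i * t) : Sn k n) * x i) := by
    intro i
    rw [LinearMap.comp_apply, LinearMap.mulLeft_apply]
    ring
  rw [Finset.sum_congr rfl fun i _ => h3 i, ← Finset.mul_sum, key t, ← mul_assoc]
  have h4 : (MvPolynomial.C ((N : k)⁻¹) : Sn k n) * (N : Sn k n) = 1 := by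
    have : (N : Sn k n) = MvPolynomial.C (N : k) := (map_natCast _ _).symm
    rw [this, ← MvPolynomial.C_mul, inv_mul_cancel₀ hNk, MvPolynomial.C_1]
  rw [h4, one_mul]

/-- The elements `s` with `JS ρ s` form an ideal of `S`. -/
theorem JS_add (ρ : W →* GL (Fin n) k) {s t : Sn k n} (hs : JS ρ s) (ht : JS ρ t) : JS ρ (s + t) := by
  obtain ⟨l, τ, x, h⟩ := hs
  obtain ⟨l', τ', x', h'⟩ := ht
  refine JS_of_fintype ρ _ (Fin l ⊕ Fin l') (Sum.elim τ τ') (Sum.elim x x') fun u => ?_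
  rw [Fintype.sum_sum_type, add_mul, h, h']
  rfl

theorem JS_mul (ρ : W →* GL (Fin n) k) (a : Sn k n) {s : Sn k n} (hs : JS ρ s) : JS ρ (a * s) := by
  obtain ⟨l, τ, x, h⟩ := hs
  refine ⟨l, τ, fun i => a * x i, fun t => ?_⟩
  rw [mul_assoc, h, Finset.mul_sum]
  refine Finset.sum_congr rfl fun i _ => ?_
  ring

end MP8a
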