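import Pool.Agent.Lib_MP_8a48ad_gt.KosStep
import Pool.Agent.Lib_MP_8a48ad_gt.Base
import Pool.Agent.Lib_MP_8a48ad_gt.Coind

/-! # Lemma B: the property `GP` holds for every DG `R`-module (assembled) -/

set_option autoImplicit false

namespace MP8a

universe u

variable {k : Type u} [Field k] {n : ℕ} {R : Type u} [CommRing R] [Algebra k R]
  [Algebra R (Sn k n)] {GR : Gr R}

theorem GP_all (hS : Setup k n GR) {m : ℤ} {f : R} (hf : GR.c m f = f) (hJ : JJ k n f)
    (M : DGM GR) : GP m f M (2 ^ n) := by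
  obtain ⟨i, r, hi, hr, h⟩ := coind_retract hS M
  exact GP_retract hi hr h (GP_kos hS.compat hf (coind hS M) (GP_base hS hf hJ (coind hS M)))

end MP8a
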