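import Pool.Agent.Lib_MP_8a48ad_gt.FGS

/-! # Piece NILK: nilpotent elements on the cohomology of cones -/

set_option autoImplicit false

namespace MP8a

universe u

variable {A : Type u} [CommRing A] {G : Gr A}

/-- `a` is nilpotent on the cohomology of `M` -/
def Nil (a : A) (M : DGM G) : Prop := ∃ N : ℕ, ∀ x, M.d x = 0 → ∃ y, M.d y = a ^ N • x

theorem FG_mc [IsNoetherianRing A] {M : DGM G} (hM : FG M) {e : ℤ} {a : A} (ha : G.c e a = a)
    (he : Even e) : FG (M.mc ha he) := by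
  exact (isThick_FG (G := G)).cone hM (FG_sh hM e) _ _

/-- `a` is zero on the cohomology of its cone: `a (x', x) = d (0, x') + (0, d x' + a x)`, and for a cycle the last term
vanishes. So `f` is nilpotent on the cohomology of the cone of `f^g`. -/
theorem Nil_mc_self {M : DGM G} {e : ℤ} {f : A} (g : ℕ) (ha : G.c e (f ^ g) = f ^ g)
    (he : Even e) : Nil f (M.mc ha he) := by
  refine ⟨g, fun x hx => ?_⟩
  have h1 : (M.sh e).d x.1 + (f ^ g) • x.2 = 0 := congrArg Prod.fst hx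
  have he' : (M.sh e).d = M.d := if_pos he
  rw [he'] at h1
  refine ⟨((0 : M.X), x.1), Prod.ext ?_ ?_⟩
  · change (M.sh e).d (0 : M.X) + (f ^ g) • x.1 = (f ^ g) • x.1
    rw [he', map_zero, zero_add]
  · change -(M.d x.1) = (f ^ g) • x.2
    rw [neg_eq_iff_eq_neg, eq_neg_iff_add_eq_zero]
    exact h1

/-- PROOF. If `b^N` is zero on the cohomology of `M`, then `b^(2N)` is zero on that of the cone (exact sequence
`0 → M[e] → K → M[1] → 0`). -/
theorem Nil_mc {M : DGM G} {b : A} (hb : Nil b M) {e : ℤ} {a : A} (ha : G.c e a = a)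
    (he : Even e) : Nil b (M.mc ha he) := by
  obtain ⟨N, hN⟩ := hb
  refine ⟨2 * N, fun x hx => ?_⟩
  have he' : (M.sh e).d = M.d := if_pos he
  have h1 : (M.sh e).d x.1 + a • x.2 = 0 := congrArg Prod.fst hx
  have h2 : -(M.d x.2) = 0 := congrArg Prod.snd hx
  rw [he'] at h1
  obtain ⟨y2, hy2⟩ := hN x.2 (neg_eq_zero.1 h2)
  have h3 : M.d (b ^ N • x.1 + a • y2) = 0 := by
    rw [map_add, map_smul, map_smul, hy2, smul_comm a (b ^ N) x.2, ← smul_add, h1, smul_zero]
  obtain ⟨y1, hy1⟩ := hN _ h3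
  refine ⟨(y1, -(b ^ N • y2)), Prod.ext ?_ ?_⟩
  · change (M.sh e).d y1 + a • (-(b ^ N • y2)) = b ^ (2 * N) • x.1
    rw [he', hy1, smul_add, smul_smul, ← pow_add, ← two_mul, smul_neg, smul_comm a (b ^ N) y2,
      add_neg_cancel_right]
  · change -(M.d (-(b ^ N • y2))) = b ^ (2 * N) • x.2
    rw [map_neg, neg_neg, map_smul, hy2, smul_smul, ← pow_add, ← two_mul]

end MP8a
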