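import Pool.Agent.Lib_MP_8a48ad_gt.JPrimes
import Pool.Agent.Lib_MP_8a48ad_gt.FDim

/-! # Piece R3RAD: homogeneous primes and radicals -/

set_option autoImplicit false

namespace MP8a

universe u

variable {k : Type u} [Field k] {n : ℕ} {R : Type u} [CommRing R] [Algebra k R]
  [Algebra R (Sn k n)] {GR : Gr R}

/-- a homogeneous prime which does not contain all elements of positive degree -/
structure HPr (GR : Gr R) (p : Ideal R) : Prop where
  prime : p.IsPrime
  hom : ∀ a ∈ p, ∀ i, GR.c i a ∈ p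
  plus : ∃ a, a ∉ p ∧ GR.c 0 a = 0

/-- PROOF. `Ideal.radical_eq_sInf`: let `q ⊇ I` be a prime; its homogeneous core (`exists_core`) contains `I` (homogeneous). If the core contains all elements `b` with `c 0 b = 0` then it contains `a`; otherwise it is `HPr` and `h` applies. -/
theorem mem_radical_of_hpr (I : Ideal R) (hI : ∀ a ∈ I, ∀ i, GR.c i a ∈ I) {a : R}
    (ha : GR.c 0 a = 0) (h : ∀ p, HPr GR p → I ≤ p → a ∈ p) : a ∈ I.radical := by
  classical
  rw [Ideal.radical_eq_sInf, Ideal.mem_sInf]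
  rintro p ⟨hIp, hp⟩
  obtain ⟨q, hq, hqp, hqh, hqc⟩ := exists_core GR p hp
  have hIq : I ≤ q := fun b hb => hqc b fun i => hIp (hI b hb i)
  by_cases hplus : ∃ b, b ∉ q ∧ GR.c 0 b = 0
  · exact hqp (h q ⟨hq, hqh, hplus⟩ hIq)
  · push Not at hplus
    by_contra hap
    exact hplus a (fun h' => hap (hqp h')) ha

/-- PROOF. By `mem_radical_of_hpr` the ideal `P = {a | c 0 a = 0}` (see `jprimes_plus` in `JPrimes.lean`) is contained in the radical of `I`; it is finitely generated (`hS.noeth`), so `P^r ≤ I`. `R / P = k` (`Setup.c_zero`), and `R / P^r` is finite over `k` (`FDA_quot` in `FDim.lean`). -/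
theorem finite_of_hpr (hS : Setup k n GR) (I : Ideal R) (hI : ∀ a ∈ I, ∀ i, GR.c i a ∈ I)
    (h : ∀ p, HPr GR p → ¬ I ≤ p) : Module.Finite k (R ⧸ I) := by
  classical
  have := hS.noeth
  obtain ⟨P, hP⟩ : ∃ P : Ideal R, ∀ a, a ∈ P ↔ GR.c 0 a = 0 := by
    refine ⟨{ carrier := {a | GR.c 0 a = 0}
              zero_mem' := map_zero _
              add_mem' := fun {a b} ha hb => ?_
              smul_mem' := fun b a ha => ?_ }, fun a => Iff.rfl⟩
    · show GR.c 0 (a + b) = 0
      rw [map_add, show GR.c 0 a = 0 from ha, show GR.c 0 b = 0 from hb, add_zero]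
    · show GR.c 0 (b * a) = 0
      have ha' : GR.c 0 a = 0 := ha
      refine GR.ind (P := fun b => GR.c 0 (b * a) = 0) ?_ ?_ ?_ b
      · rw [zero_mul, map_zero]
      · intro x y hx hy
        rw [add_mul, map_add, hx, hy, add_zero]
      · intro j b hb
        have h1 := (regM GR).pr_smul' (i := j) (a := b) hb 0 a
        have h2 : GR.c 0 (b * a) = b * GR.c (0 - j) a := h1
        rw [h2]
        rcases lt_trichotomy j 0 with hj | hj | hj
        · rw [← hb, hS.c_neg hj, zero_mul]
        · rw [hj, sub_zero, ha', mul_zero]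
        · rw [hS.c_neg (by omega), mul_zero]
  have hrad : P ≤ I.radical := fun a ha =>
    mem_radical_of_hpr I hI ((hP a).1 ha) fun p hp hIp => absurd hIp (h p hp)
  obtain ⟨r, hr⟩ := Ideal.exists_pow_le_of_le_radical_of_fg hrad (IsNoetherian.noetherian P)
  have hle : P ^ (r + 1) ≤ I := (Ideal.pow_le_pow_right r.le_succ).trans hr
  have hfin : Module.Finite k (R ⧸ P) := by
    refine Module.Finite.of_surjective (Algebra.linearMap k (R ⧸ P)) ?_
    intro x
    obtain ⟨a, rfl⟩ := Ideal.Quotient.mk_surjective x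
    obtain ⟨c, hc⟩ := hS.c_zero a
    refine ⟨c, ?_⟩
    rw [Algebra.linearMap_apply]
    change Ideal.Quotient.mk P (algebraMap k R c) = _
    rw [Ideal.Quotient.eq, hP, ← hc, map_sub, GR.c_c, if_pos rfl, sub_self]
  have := FDA_quot (k := k) P (IsNoetherian.noetherian P) hfin r
  exact Module.Finite.of_surjective (Ideal.Quotient.factorₐ k hle).toLinearMap
    (Ideal.Quotient.factor_surjective hle)

end MP8a
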