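import Pool.Agent.Lib_MP_8a48ad_gt.JS
import Pool.Agent.Lib_MP_8a48ad_gt.R3Rad

/-! # Stage 3, commutative algebra: linear forms, inertia groups, stabilisers (basic lemmas) -/

set_option autoImplicit false

namespace MP8a

universe u

section

variable {k : Type u} [Field k] {n : ℕ}

/-- the linear form with coefficients `c` -/
noncomputable def lin (c : Fin n → k) : Sn k n := ∑ j, MvPolynomial.C (c j) * MvPolynomial.X j

theorem lin_add (c c' : Fin n → k) : lin (c + c') = lin c + lin c' := by
  simp only [lin, Pi.add_apply, map_add, add_mul, Finset.sum_add_distrib]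

theorem lin_smul (a : k) (c : Fin n → k) : lin (a • c) = MvPolynomial.C a * lin c := by
  simp only [lin, Pi.smul_apply, smul_eq_mul, map_mul, Finset.mul_sum, mul_assoc]

theorem lin_zero : lin (0 : Fin n → k) = 0 := by
  simp [lin]

theorem lin_sub (c c' : Fin n → k) : lin (c - c') = lin c - lin c' := by
  simp only [lin, Pi.sub_apply, map_sub, sub_mul, Finset.sum_sub_distrib]

theorem lin_hom (c : Fin n → k) : (lin c).IsHomogeneous 1 := by
  unfold lin
  refine MvPolynomial.IsHomogeneous.sum _ _ _ fun i _ => ?_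
  simpa using (MvPolynomial.isHomogeneous_C (Fin n) (c i)).mul (MvPolynomial.isHomogeneous_X k i)

theorem lin_single (j : Fin n) : lin (Pi.single j 1 : Fin n → k) = MvPolynomial.X j := by
  unfold lin
  rw [Finset.sum_eq_single j]
  · simp
  · intro i _ hi
    rw [Pi.single_eq_of_ne hi]
    simp
  · simp

theorem lin_coeff (c : Fin n → k) (j : Fin n) :
    MvPolynomial.coeff (Finsupp.single j 1) (lin c) = c j := by
  classical
  unfold lin
  rw [MvPolynomial.coeff_sum, Finset.sum_eq_single j]
  · rw [MvPolynomial.coeff_C_mul, MvPolynomial.coeff_X, if_pos rfl, mul_one]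
  · intro i _ hi
    rw [MvPolynomial.coeff_C_mul, MvPolynomial.coeff_X, if_neg, mul_zero]
    intro h
    exact hi ((Finsupp.single_left_inj one_ne_zero).1 h)
  · simp

theorem lin_inj {c : Fin n → k} (h : lin c = 0) : c = 0 := by
  funext j
  rw [← lin_coeff c j, h]
  simp

theorem linAct_lin (A : Matrix (Fin n) (Fin n) k) (c : Fin n → k) :
    linAct A (lin c) = lin (A.mulVec c) := by
  unfold lin
  rw [map_sum]
  simp only [map_mul, linAct_X, MvPolynomial.algHom_C, MvPolynomial.algebraMap_eq, Matrix.mulVec,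
    dotProduct, map_sum, Finset.sum_mul, Finset.mul_sum]
  rw [Finset.sum_comm]
  refine Finset.sum_congr rfl fun i _ => Finset.sum_congr rfl fun l _ => ?_
  ring

/-- a homogeneous polynomial of degree `d` has cohomological degree `2 d` -/
theorem c_of_hom {s : Sn k n} {d : ℕ} (hs : s.IsHomogeneous d) : (grS k n).c (2 * (d : ℤ)) s = s := by
  rw [grS_even]
  exact (MvPolynomial.homogeneousComponent_of_mem
    ((MvPolynomial.mem_homogeneousSubmodule d s).2 hs)).trans (if_pos rfl)

theorem c_zero_of_hom {s : Sn k n} {d : ℕ} (hs : s.IsHomogeneous d) (hd : d ≠ 0) :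
    (grS k n).c 0 s = 0 := by
  rw [← c_of_hom hs, (grS k n).c_c, if_neg]
  omega

end

section

variable {k : Type u} [Field k] {n : ℕ} {W : Type*} [Group W]

/-- the action of `w` on `S` -/
noncomputable abbrev wact (ρ : W →* GL (Fin n) k) (w : W) : Sn k n →ₐ[k] Sn k n :=
  linAct (ρ w : Matrix (Fin n) (Fin n) k)

theorem act_one (ρ : W →* GL (Fin n) k) (s : Sn k n) : wact ρ 1 s = s := by
  rw [wact, map_one, Units.val_one, linAct_one]

theorem act_mul (ρ : W →* GL (Fin n) k) (v w : W) (s : Sn k n) :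
    wact ρ (v * w) s = wact ρ v (wact ρ w s) := by
  rw [wact, map_mul, Units.val_mul, linAct_mul]

theorem act_inv_act (ρ : W →* GL (Fin n) k) (w : W) (s : Sn k n) : wact ρ w⁻¹ (wact ρ w s) = s := by
  rw [← act_mul, inv_mul_cancel, act_one]

theorem act_act_inv (ρ : W →* GL (Fin n) k) (w : W) (s : Sn k n) : wact ρ w (wact ρ w⁻¹ s) = s := by
  rw [← act_mul, mul_inv_cancel, act_one]

/-- the inertia group of an ideal of `S` -/
def inert (ρ : W →* GL (Fin n) k) (q : Ideal (Sn k n)) : Subgroup W where
  carrier := {w | ∀ s, wact ρ w s - s ∈ q}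
  one_mem' := fun s => by rw [act_one, sub_self]; exact q.zero_mem
  mul_mem' := fun {v w} hv hw s => by
    rw [act_mul]
    have h := q.add_mem (hv (wact ρ w s)) (hw s)
    rwa [sub_add_sub_cancel] at h
  inv_mem' := fun {w} hw s => by
    have h := q.neg_mem (hw (wact ρ w⁻¹ s))
    rw [act_act_inv, neg_sub] at h
    exact h

/-- the stabiliser of an ideal of `S` -/
def stabi (ρ : W →* GL (Fin n) k) (q : Ideal (Sn k n)) : Subgroup W where
  carrier := {w | ∀ s, wact ρ w s ∈ q ↔ s ∈ q}
  one_mem' := fun s => by rw [act_one]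
  mul_mem' := fun {v w} hv hw s => by
    rw [act_mul]
    exact (hv _).trans (hw s)
  inv_mem' := fun {w} hw s => by
    have h := hw (wact ρ w⁻¹ s)
    rw [act_act_inv] at h
    exact h.symm

theorem inert_le_stabi (ρ : W →* GL (Fin n) k) (q : Ideal (Sn k n)) : inert ρ q ≤ stabi ρ q := by
  intro w hw s
  have h : wact ρ w s - s ∈ q := hw s
  exact ⟨fun h1 => by
    have h2 := q.sub_mem h1 h
    rwa [sub_sub_cancel] at h2, fun h1 => by
    have h2 := q.add_mem h h1
    rwa [sub_add_cancel] at h2⟩

/-- the inertia group is normalised by the stabiliser -/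
theorem inert_conj (ρ : W →* GL (Fin n) k) (q : Ideal (Sn k n)) {w v : W} (hw : w ∈ stabi ρ q)
    (hv : v ∈ inert ρ q) : w * v * w⁻¹ ∈ inert ρ q := by
  intro s
  have h : wact ρ v (wact ρ w⁻¹ s) - wact ρ w⁻¹ s ∈ q := hv (wact ρ w⁻¹ s)
  have h2 := (hw _).2 h
  rw [map_sub, act_act_inv] at h2
  rw [act_mul, act_mul]
  exact h2

end

end MP8a
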