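import Pool.Agent.Lib_MP_8a48ad_gt.R3Fdh2

/-! # Piece R3CMP: the cohomology of cones, degree by degree -/

set_option autoImplicit false

namespace MP8a

universe u

variable {k : Type u} [Field k] {R : Type u} [CommRing R] [Algebra k R] {GR : Gr R}

/-- the homogeneous cycles of degree `j` -/
private def r3cmpZ (hk : ∀ c : k, GR.c 0 (algebraMap k R c) = algebraMap k R c) (M : DGM GR) (j : ℤ) :
    letI := kV k M
    Submodule k M.X :=
  letI := kV k M
  { carrier := {x | M.pr j x = x ∧ M.d x = 0}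
    zero_mem' := ⟨map_zero _, map_zero _⟩
    add_mem' := fun {a b} ha hb => ⟨by rw [map_add, ha.1, hb.1], by rw [map_add, ha.2, hb.2, add_zero]⟩
    smul_mem' := fun c x hx => by
      change M.pr j (algebraMap k R c • x) = algebraMap k R c • x ∧
        M.d (algebraMap k R c • x) = 0
      rw [M.pr_smul' (hk c), sub_zero, hx.1, map_smul, hx.2, smul_zero]
      exact ⟨rfl, rfl⟩ }

/-- the boundaries -/
private def r3cmpB (k : Type u) [Field k] [Algebra k R] (M : DGM GR) :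
    letI := kV k M
    Submodule k M.X :=
  letI := kV k M
  { carrier := {x | ∃ y, M.d y = x}
    zero_mem' := ⟨0, map_zero _⟩
    add_mem' := by
      rintro _ _ ⟨a, rfl⟩ ⟨b, rfl⟩
      exact ⟨a + b, map_add _ _ _⟩
    smul_mem' := by
      rintro c _ ⟨a, rfl⟩
      exact ⟨algebraMap k R c • a, map_smul _ _ _⟩ }

omit [Algebra k R] in
private theorem r3cmp_w {M N : DGM GR} {f : M.X →ₗ[R] N.X} (hf : IsMor M N 0 f) {j : ℤ}
    {v : N.X × M.X} (hv : (M.cone N f hf).pr j v = v) (hd : (M.cone N f hf).d v = 0)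
    {z : M.X} (hz : M.d z = v.2) : M.d (M.pr j z) = v.2 ∧ N.pr j (v.1 + f (M.pr j z)) =
      v.1 + f (M.pr j z) ∧ N.d (v.1 + f (M.pr j z)) = 0 := by
  have h1 : N.pr j v.1 = v.1 := congrArg Prod.fst hv
  have h2 : M.pr (j + 1) v.2 = v.2 := congrArg Prod.snd hv
  have h3 : N.d v.1 + f v.2 = 0 := congrArg Prod.fst hd
  have h4 : M.d (M.pr j z) = v.2 := by rw [← M.pr_d, hz, h2]
  refine ⟨h4, ?_, ?_⟩
  · have h5 := hf.pr j (M.pr j z)
    rw [add_zero, M.pr_self] at h5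
    rw [map_add, h1, h5]
  · rw [map_add, hf.d, h4, h3]

/-- `H^j(N) → H^j(cone f) → H^{j+1}(M)` is exact in the middle (`hk`: the elements of `k` have degree `0`; this is needed). PROOF. `la_fd` with `P = N.X × M.X`, `φ = snd`, `V` = the homogeneous cycles of degree `j` of the cone (`(y, x)` with `x` a cycle of
degree `j + 1` and `d y + f x = 0`), `C` = boundaries of `M`, `B` = boundaries of the cone: if `x = d x'` then `(y, x) + D (0, x') = (y + f x', 0)` (one may replace `x'` by its component of degree `j`), and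
`y + f x'` is a homogeneous cycle of degree `j` of `N`. -/
theorem FDj_cone (hk : ∀ c : k, GR.c 0 (algebraMap k R c) = algebraMap k R c) {M N : DGM GR} {f : M.X →ₗ[R] N.X} (hf : IsMor M N 0 f) {j : ℤ}
    (hM : FDj k M (j + 1)) (hN : FDj k N j) : FDj k (M.cone N f hf) j := by
  rw [FDj_iff] at hM hN ⊢
  obtain ⟨F, hF, hFM⟩ := hM
  obtain ⟨F', hF', hFN⟩ := hN
  let iM := kV k M
  let iN := kV k N
  let iC := kV k (M.cone N f hf)
  let φ : (M.cone N f hf).X →ₗ[k] M.X :=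
    { toFun := fun x => x.2
      map_add' := fun _ _ => rfl
      map_smul' := fun _ _ => rfl }
  let ψ : N.X →ₗ[k] (M.cone N f hf).X :=
    { toFun := fun x => (x, 0)
      map_add' := fun x y => Prod.ext rfl (add_zero (0 : M.X)).symm
      map_smul' := fun c x => Prod.ext rfl (smul_zero (algebraMap k R c)).symm }
  have e1 : ∀ v ∈ r3cmpZ hk (M.cone N f hf) j, φ v ∈ F ⊔ r3cmpB k M := by
    rintro v ⟨hv, hdv⟩
    have h5 : M.pr (j + 1) v.2 = v.2 := congrArg Prod.snd hv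
    have h6 : M.d v.2 = 0 := neg_eq_zero.1 (congrArg Prod.snd hdv)
    obtain ⟨y, hy⟩ := hFM v.2 h5 h6
    refine Submodule.mem_sup.2 ⟨v.2 - M.d y, hy, M.d y, ⟨y, rfl⟩, ?_⟩
    exact sub_add_cancel v.2 (M.d y)
  have e2 : ∀ v ∈ r3cmpZ hk (M.cone N f hf) j, φ v ∈ r3cmpB k M →
      v ∈ F'.map ψ ⊔ r3cmpB k (M.cone N f hf) := by
    rintro v ⟨hv, hdv⟩ ⟨z, hz⟩
    obtain ⟨h3, h4, h5⟩ := r3cmp_w hf hv hdv hz
    obtain ⟨y, hy⟩ := hFN _ h4 h5
    refine Submodule.mem_sup.2 ⟨ψ (v.1 + f (M.pr j z) - N.d y), ⟨_, hy, rfl⟩,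
      (M.cone N f hf).d (y, -(M.pr j z)), ⟨_, rfl⟩, ?_⟩
    refine Prod.ext ?_ ?_
    · change v.1 + f (M.pr j z) - N.d y + (N.d y + f (-(M.pr j z))) = v.1
      rw [map_neg]
      abel
    · change 0 + -(M.d (-(M.pr j z))) = v.2
      rw [map_neg, neg_neg, h3, zero_add]
  obtain ⟨F'', h1, h2⟩ := la_fd (k := k) (P := (M.cone N f hf).X) (M := M.X)
    (r3cmpZ hk (M.cone N f hf) j) (r3cmpB k (M.cone N f hf)) φ (r3cmpB k M) F hF (F'.map ψ)
    (hF'.map ψ) e1 e2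
  refine ⟨F'', h1, fun x hx hdx => ?_⟩
  have h3 : x ∈ F'' ⊔ r3cmpB k (M.cone N f hf) := h2 ⟨hx, hdx⟩
  obtain ⟨a, ha, b, ⟨y, hy⟩, hab⟩ := Submodule.mem_sup.1 h3
  refine ⟨y, ?_⟩
  rw [hy, ← hab, add_sub_cancel_right]
  exact ha

/-- PROOF. `(y, x)` a cycle of degree `j ≥ m`: `x` is a cycle of degree `j + 1` and `f x = d (- y)`, so `x = d x'` (with `x'` homogeneous of degree `j`); `y + f x'` is a cycle of degree `j`, so it is `f x'' + d z`,
`d x'' = 0`; then `(y, x) = D (z, x'' - x')`. -/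
theorem HV_cone {M N : DGM GR} {f : M.X →ₗ[R] N.X} (hf : IsMor M N 0 f) {m : ℤ}
    (h : HIs M N f m) {j : ℤ} (hj : m ≤ j) : HV (M.cone N f hf) j := by
  intro v hv hdv
  have h5 : M.pr (j + 1) v.2 = v.2 := congrArg Prod.snd hv
  have h6 : M.d v.2 = 0 := neg_eq_zero.1 (congrArg Prod.snd hdv)
  have h7 : N.d v.1 + f v.2 = 0 := congrArg Prod.fst hdv
  obtain ⟨z, hz⟩ := (h (j + 1) (by omega)).1 v.2 h5 h6 (-v.1) (by
    rw [map_neg, neg_eq_iff_add_eq_zero, h7])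
  obtain ⟨h1, h2, h3⟩ := r3cmp_w hf hv hdv hz
  obtain ⟨x, z', _, hdx, hxz⟩ := (h j hj).2 _ h2 h3
  refine ⟨(z', x - M.pr j z), Prod.ext ?_ ?_⟩
  · change N.d z' + f (x - M.pr j z) = v.1
    rw [map_sub, ← add_sub_cancel_right v.1 (f (M.pr j z)), hxz]
    abel
  · change -(M.d (x - M.pr j z)) = v.2
    rw [map_sub, hdx, h1, zero_sub, neg_neg]

/-- PROOF. As in `HV_cone`. -/
theorem HV_cone' {M N : DGM GR} {f : M.X →ₗ[R] N.X} (hf : IsMor M N 0 f) {j : ℤ}
    (hM : HV M (j + 1)) (hN : HV N j) : HV (M.cone N f hf) j := by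
  intro v hv hdv
  have h5 : M.pr (j + 1) v.2 = v.2 := congrArg Prod.snd hv
  have h6 : M.d v.2 = 0 := neg_eq_zero.1 (congrArg Prod.snd hdv)
  obtain ⟨z, hz⟩ := hM v.2 h5 h6
  obtain ⟨h1, h2, h3⟩ := r3cmp_w hf hv hdv hz
  obtain ⟨z', hz'⟩ := hN _ h2 h3
  refine ⟨(z', -(M.pr j z)), Prod.ext ?_ ?_⟩
  · change N.d z' + f (-(M.pr j z)) = v.1
    rw [hz', map_neg, add_neg_cancel_right]
  · change -(M.d (-(M.pr j z))) = v.2
    rw [map_neg, neg_neg, h1]

end MP8a
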