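import Pool.Agent.Lib_MP_8a48ad_gt.R3Loc

/-! # Piece R3COMPL: graded complements -/

set_option autoImplicit false

namespace MP8a

universe u

variable {A : Type u} [CommRing A] {G : Gr A}

/-- graded submodules which are saturated with respect to `t` -/
structure Sat (M : DGM G) (t : A) (U : Submodule A M.X) : Prop where
  pr : ∀ i, ∀ x ∈ U, M.pr i x ∈ U
  sat : ∀ x, t • x ∈ U → x ∈ U

theorem r3compl_pow {M : DGM G} {t : A} {U : Submodule A M.X} (hU : Sat M t U) (m : ℕ) {x : M.X}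
    (h : t ^ m • x ∈ U) : x ∈ U := by
  induction m with
  | zero => simpa using h
  | succ m ih =>
    refine ih (hU.sat _ ?_)
    rw [smul_smul, mul_comm, ← pow_succ]
    exact h

theorem r3compl_pr_smul (M : DGM G) {j : ℤ} {b : M.X} (hb : M.pr j b = b) (i : ℤ) (r : A) :
    M.pr i (r • b) = G.c (i - j) r • b := by
  refine G.ind (P := fun r => M.pr i (r • b) = G.c (i - j) r • b) (by simp) ?_ ?_ r
  · intro x y hx hy
    rw [add_smul, map_add, map_add, add_smul, hx, hy]
  · intro l a ha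
    by_cases h : i = l + j
    · subst h
      rw [add_sub_cancel_right, ha]
      exact M.smul ha hb
    · rw [M.pr_ne (M.smul ha hb) h, (regM G).pr_ne (i := i - j) ha (fun h' => h (by rw [← h']; ring)),
        zero_smul]

theorem r3compl_inj {M : DGM G} {t : A} (hinj : ∀ x : M.X, t • x = 0 → x = 0) (m : ℕ) {x : M.X}
    (h : t ^ m • x = 0) : x = 0 := by
  induction m with
  | zero => simpa using h
  | succ m ih =>
    refine ih (hinj _ ?_)
    rw [smul_smul, mul_comm, ← pow_succ]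
    exact h

theorem r3compl_surj {M : DGM G} {t : A} (hsurj : ∀ x : M.X, ∃ y, t • y = x) (m : ℕ) (x : M.X) :
    ∃ y, t ^ m • y = x := by
  induction m with
  | zero => exact ⟨x, by simp⟩
  | succ m ih =>
    obtain ⟨y, hy⟩ := ih
    obtain ⟨z, hz⟩ := hsurj y
    exact ⟨z, by rw [pow_succ, ← smul_smul, hz, hy]⟩

/-- the submodule `{x ∈ B | ∃ m, t ^ m • x ∈ E}` -/
def r3complC (M : DGM G) (t : A) (B E : Submodule A M.X) : Submodule A M.X where
  carrier := {x | x ∈ B ∧ ∃ m : ℕ, t ^ m • x ∈ E}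
  zero_mem' := ⟨B.zero_mem, 0, by rw [smul_zero]; exact E.zero_mem⟩
  add_mem' := by
    rintro x y ⟨hx, m, hm⟩ ⟨hy, l, hl⟩
    refine ⟨B.add_mem hx hy, m + l, ?_⟩
    rw [smul_add]
    refine E.add_mem ?_ ?_
    · rw [add_comm m l, pow_add, ← smul_smul]
      exact E.smul_mem _ hm
    · rw [pow_add, ← smul_smul]
      exact E.smul_mem _ hl
  smul_mem' := by
    rintro a x ⟨hx, m, hm⟩
    refine ⟨B.smul_mem a hx, m, ?_⟩
    rw [smul_comm]
    exact E.smul_mem _ hm

theorem r3compl_mem {M : DGM G} {t : A} {B E : Submodule A M.X} {x : M.X} :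
    x ∈ r3complC M t B E ↔ x ∈ B ∧ ∃ m : ℕ, t ^ m • x ∈ E := Iff.rfl

/-- GRADED COMPLEMENTS. `t` is bijective on `M.X`, `D ≤ A₀ ≤ B` are graded and saturated, `p B ≤ D`, and every homogeneous `r ∉ p` divides a power of `t` modulo `p`. Then there is a graded saturated `C` with
`D ≤ C ≤ B`, `A₀ ∩ C = D`, `A₀ + C = B`. PROOF. Zorn: let `C` be maximal among the graded saturated submodules with `D ≤ C ≤ B`, `A₀ ⊓ C ≤ D` (unions of chains have the same properties; `D` is one of them).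
Suppose that `A₀ ⊔ C ≠ B`; as `B` is graded there is a homogeneous `b ∈ B`, not in `A₀ ⊔ C`. Let `C' = {x ∈ B | ∃ m, t^m x ∈ C ⊔ span b}`; it is graded (`C ⊔ span b` is) and saturated, and `C < C'`. Let `x ∈ A₀ ⊓ C'`, to show: `x ∈ D`; as `A₀ ⊓ C'` is graded we may assume that `x` is
homogeneous. `t^m x = c + r b`, and taking components we may assume that `c ∈ C` and `r` are homogeneous. If `r ∈ p` then `r b ∈ D ≤ C`, so `t^m x ∈ C`, `x ∈ C`, `x ∈ A₀ ⊓ C ≤ D`. If `r ∉ p` then `r b = t^m x - c ∈ A₀ ⊔ C`,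
`r' r = t^{m'} + π`, `π ∈ p`, so `t^{m'} b = r' r b - π b ∈ A₀ ⊔ C`, and as `t` is bijective and `A₀`, `C` are saturated, `b ∈ A₀ ⊔ C`: contradiction. (`t` homogeneous: `ht`.) -/
theorem exists_graded_compl (M : DGM G) {e : ℤ} {t : A} (ht : G.c e t = t)
    (hinj : ∀ x : M.X, t • x = 0 → x = 0) (hsurj : ∀ x : M.X, ∃ y, t • y = x) (p : Ideal A)
    (hp : ∀ (i : ℤ) (r : A), G.c i r = r → r ∉ p → ∃ (m : ℕ) (r' : A), r' * r - t ^ m ∈ p)
    (D A₀ B : Submodule A M.X) (hD : Sat M t D) (hA : Sat M t A₀) (hB : Sat M t B) (h1 : D ≤ A₀)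
    (h2 : A₀ ≤ B) (hpB : ∀ a ∈ p, ∀ x ∈ B, a • x ∈ D) :
    ∃ C : Submodule A M.X, Sat M t C ∧ D ≤ C ∧ C ≤ B ∧ A₀ ⊓ C = D ∧ A₀ ⊔ C = B := by
  have hD0 : D ≤ B := h1.trans h2
  obtain ⟨C, hDC, hmax⟩ := zorn_le_nonempty₀
    {C : Submodule A M.X | Sat M t C ∧ D ≤ C ∧ C ≤ B ∧ A₀ ⊓ C ≤ D} (by
      intro c hc hchain y hy
      have hdir : DirectedOn (· ≤ ·) c := hchain.directedOn
      have hne : c.Nonempty := ⟨y, hy⟩
      refine ⟨sSup c, ⟨⟨?_, ?_⟩, ?_, ?_, ?_⟩, fun z hz => le_sSup hz⟩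
      · intro i x hx
        rw [Submodule.mem_sSup_of_directed hne hdir] at hx ⊢
        obtain ⟨U, hU, hxU⟩ := hx
        exact ⟨U, hU, (hc hU).1.pr i x hxU⟩
      · intro x hx
        rw [Submodule.mem_sSup_of_directed hne hdir] at hx ⊢
        obtain ⟨U, hU, hxU⟩ := hx
        exact ⟨U, hU, (hc hU).1.sat x hxU⟩
      · exact (hc hy).2.1.trans (le_sSup hy)
      · exact sSup_le fun U hU => (hc hU).2.2.1
      · intro x hx
        have hx1 := (Submodule.mem_inf.1 hx).1
        have hx2 := (Submodule.mem_inf.1 hx).2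
        rw [Submodule.mem_sSup_of_directed hne hdir] at hx2
        obtain ⟨U, hU, hxU⟩ := hx2
        exact (hc hU).2.2.2 (Submodule.mem_inf.2 ⟨hx1, hxU⟩)) D
    ⟨hD, le_refl D, hD0, inf_le_right⟩
  obtain ⟨hCS, hDC', hCB, hCA⟩ := hmax.prop
  refine ⟨C, hCS, hDC, hCB, le_antisymm hCA (le_inf h1 hDC), le_antisymm (sup_le h2 hCB) ?_⟩
  -- it suffices to treat homogeneous elements
  have key : ∀ (j : ℤ) (b : M.X), b ∈ B → M.pr j b = b → b ∈ A₀ ⊔ C := by
    intro j b hbB hb
    by_contra hbn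
    have hsat : Sat M t (r3complC M t B (C ⊔ Submodule.span A {b})) := by
      constructor
      · intro i x hx
        obtain ⟨hxB, m, hm⟩ := r3compl_mem.1 hx
        refine r3compl_mem.2 ⟨hB.pr i x hxB, m, ?_⟩
        obtain ⟨c, hc, y, hy, hcy⟩ := Submodule.mem_sup.1 hm
        obtain ⟨r, rfl⟩ := Submodule.mem_span_singleton.1 hy
        rw [← r3loc_pr_pow M ht, ← hcy, map_add, r3compl_pr_smul M hb]
        exact Submodule.add_mem_sup (hCS.pr _ _ hc)
          (Submodule.smul_mem _ _ (Submodule.mem_span_singleton_self b))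
      · intro x hx
        obtain ⟨hxB, m, hm⟩ := r3compl_mem.1 hx
        refine r3compl_mem.2 ⟨hB.sat x hxB, m + 1, ?_⟩
        rw [pow_succ, ← smul_smul]
        exact hm
    have hCC : C ≤ r3complC M t B (C ⊔ Submodule.span A {b}) := by
      intro x hx
      refine r3compl_mem.2 ⟨hCB hx, 0, ?_⟩
      rw [pow_zero, one_smul]
      exact Submodule.mem_sup_left hx
    have hbC : b ∈ r3complC M t B (C ⊔ Submodule.span A {b}) := by
      refine r3compl_mem.2 ⟨hbB, 0, ?_⟩
      rw [pow_zero, one_smul]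
      exact Submodule.mem_sup_right (Submodule.mem_span_singleton_self b)
    have hhom : ∀ (i : ℤ) (x : M.X), M.pr i x = x → x ∈ A₀ →
        x ∈ r3complC M t B (C ⊔ Submodule.span A {b}) → x ∈ D := by
      intro i x hx hxA hxC
      obtain ⟨hxB, m, hm⟩ := r3compl_mem.1 hxC
      obtain ⟨c, hc, y, hy, hcy⟩ := Submodule.mem_sup.1 hm
      obtain ⟨r, rfl⟩ := Submodule.mem_span_singleton.1 hy
      have h3 : t ^ m • x = M.pr (i + m * e) c + G.c (i + m * e - j) r • b := by
        rw [← r3compl_pr_smul M hb, ← map_add, hcy, r3loc_pr_pow M ht, hx]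
      have h4 := hCS.pr (i + m * e) c hc
      by_cases hr : G.c (i + m * e - j) r ∈ p
      · refine hCA (Submodule.mem_inf.2 ⟨hxA, r3compl_pow hCS m ?_⟩)
        rw [h3]
        exact C.add_mem h4 (hDC (hpB _ hr _ hbB))
      · exfalso
        obtain ⟨m', r', hr'⟩ := hp _ _ (G.c_self _ r) hr
        have h5 : G.c (i + m * e - j) r • b ∈ A₀ ⊔ C := by
          have h6 : G.c (i + m * e - j) r • b = t ^ m • x - M.pr (i + m * e) c := by
            rw [h3, add_sub_cancel_left]
          rw [h6]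
          exact Submodule.sub_mem _ (Submodule.mem_sup_left (A₀.smul_mem _ hxA))
            (Submodule.mem_sup_right h4)
        have h7 : t ^ m' • b ∈ A₀ ⊔ C := by
          have h8 : t ^ m' • b = r' • (G.c (i + m * e - j) r • b) -
              (r' * G.c (i + m * e - j) r - t ^ m') • b := by
            rw [sub_smul, smul_smul, sub_sub_cancel]
          rw [h8]
          exact Submodule.sub_mem _ (Submodule.smul_mem _ _ h5)
            (Submodule.mem_sup_right (hDC (hpB _ hr' _ hbB)))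
        obtain ⟨a, ha, c', hc', hac⟩ := Submodule.mem_sup.1 h7
        obtain ⟨a', rfl⟩ := r3compl_surj hsurj m' a
        obtain ⟨c'', rfl⟩ := r3compl_surj hsurj m' c'
        have h9 : b = a' + c'' := by
          have h10 : t ^ m' • (b - (a' + c'')) = 0 := by
            rw [smul_sub, smul_add, hac, sub_self]
          exact sub_eq_zero.1 (r3compl_inj hinj m' h10)
        apply hbn
        rw [h9]
        exact Submodule.add_mem_sup (r3compl_pow hA m' ha) (r3compl_pow hCS m' hc')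
    have hin : A₀ ⊓ r3complC M t B (C ⊔ Submodule.span A {b}) ≤ D := by
      intro x hx
      obtain ⟨hx1, hx2⟩ := Submodule.mem_inf.1 hx
      obtain ⟨s, hs⟩ := M.fin x
      rw [← hs]
      exact Submodule.sum_mem _ fun i _ => hhom i _ (M.pr_self i x) (hA.pr i x hx1) (hsat.pr i x hx2)
    have hle := hmax.le_of_ge (y := r3complC M t B (C ⊔ Submodule.span A {b}))
      ⟨hsat, hDC.trans hCC, fun x hx => (r3compl_mem.1 hx).1, hin⟩ hCC
    exact hbn (Submodule.mem_sup_right (hle hbC))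
  intro x hx
  obtain ⟨s, hs⟩ := M.fin x
  rw [← hs]
  exact Submodule.sum_mem _ fun i _ => key i _ (hB.pr i x hx) (M.pr_self i x)

end MP8a
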