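import Pool.Agent.Lib_MP_8a48ad_gt.R3Defs

/-! # Piece R3CONE: cones of composites and of products -/

set_option autoImplicit false

namespace MP8a

universe u

variable {A : Type u} [CommRing A] {G : Gr A} {T : DGM G → Prop}

/-- PROOF. Let `φ : cone f → cone (g ∘ f)`, `(y, x) ↦ (g y, x)`: a morphism of degree `0` (`cone f = N ⊕ M[1]`, `D (y, x) = (d y + f x, - d x)`).
`ψ : cone φ → cone g`, `((z, x), (y, x')) ↦ (z, y + f x)` is a trivial fibration: it commutes with the differentials, and an element `((0, x), (- f x, x'))` of its kernel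
which is a cycle has `x' = d x`, `d x' = 0`, and is the differential of `((0, 0), (0, x))`. So `T (cone φ)` (`SQ.isQis`, `hT.qis`), and the exact sequence
`0 → cone (g ∘ f) → cone φ → (cone f)[1] → 0` (`isSES_cone`) gives `T (cone (g ∘ f))` (`hT.ses1`, `hT.sh`). -/
theorem IsThick.cone_comp (hT : IsThick T) {M N P : DGM G} {f : M.X →ₗ[A] N.X} {g : N.X →ₗ[A] P.X}
    (hf : IsMor M N 0 f) (hg : IsMor N P 0 g) (h1 : T (M.cone N f hf)) (h2 : T (N.cone P g hg))
    (h : IsMor M P 0 (g ∘ₗ f)) : T (M.cone P (g ∘ₗ f) h) := by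
  let φ : (M.cone N f hf).X →ₗ[A] (M.cone P (g ∘ₗ f) h).X := g.prodMap LinearMap.id
  have hφ : IsMor (M.cone N f hf) (M.cone P (g ∘ₗ f) h) 0 φ := by
    constructor
    · intro i x
      have e1 := hg.pr i x.1
      refine Prod.ext e1 ?_
      change M.pr (i + 0 + 1) x.2 = M.pr (i + 1) x.2
      rw [add_zero]
    · intro x
      refine Prod.ext ?_ rfl
      change P.d (g x.1) + g (f x.2) = g (N.d x.1 + f x.2)
      rw [hg.d, map_add]
  let C : DGM G := (M.cone N f hf).cone (M.cone P (g ∘ₗ f) h) φ hφ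
  let ψ : C.X →ₗ[A] (N.cone P g hg).X :=
    (LinearMap.fst A P.X M.X ∘ₗ LinearMap.fst A (P.X × M.X) (N.X × M.X)).prod
      (LinearMap.fst A N.X M.X ∘ₗ LinearMap.snd A (P.X × M.X) (N.X × M.X) +
        f ∘ₗ LinearMap.snd A P.X M.X ∘ₗ LinearMap.fst A (P.X × M.X) (N.X × M.X))
  have hψ : IsMor C (N.cone P g hg) 0 ψ := by
    constructor
    · intro i x
      refine Prod.ext ?_ ?_
      · change P.pr (i + 0) x.1.1 = P.pr i x.1.1
        rw [add_zero]
      · change N.pr (i + 0 + 1) (x.2.1 + f x.1.2) = N.pr (i + 1) x.2.1 + f (M.pr (i + 1) x.1.2)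
        have e1 := hf.pr (i + 1) x.1.2
        rw [add_zero] at e1
        rw [add_zero, map_add, e1]
    · intro x
      refine Prod.ext ?_ ?_
      · change P.d x.1.1 + g (x.2.1 + f x.1.2) = P.d x.1.1 + g (f x.1.2) + g x.2.1
        rw [map_add]
        abel
      · change -(N.d (x.2.1 + f x.1.2)) = -(N.d x.2.1 + f x.2.2) + f (-(M.d x.1.2) + x.2.2)
        rw [map_add, map_add, map_neg, hf.d]
        abel
  have hC : T C := by
    refine (hT.qis C (N.cone P g hg) ψ hψ (SQ.isQis hψ ⟨?_, ?_⟩)).2 h2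
    · intro y
      refine ⟨((y.1, 0), (y.2, 0)), Prod.ext rfl ?_⟩
      change y.2 + f 0 = y.2
      rw [map_zero, add_zero]
    · intro x hx hd
      have a1 : x.1.1 = 0 := congrArg Prod.fst hx
      have a2 : x.2.1 + f x.1.2 = 0 := congrArg Prod.snd hx
      have a3 : -(M.d x.1.2) + x.2.2 = 0 := congrArg (fun w : (P.X × M.X) × (N.X × M.X) => w.1.2) hd
      have a4 : x.2.2 = M.d x.1.2 := by
        rw [neg_add_eq_zero] at a3
        exact a3.symm
      refine ⟨((0, 0), (0, x.1.2)), Prod.ext rfl ?_, ?_⟩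
      · change 0 + f 0 = 0
        rw [map_zero, add_zero]
      · refine Prod.ext (Prod.ext ?_ ?_) (Prod.ext ?_ ?_)
        · change P.d 0 + g (f 0) + g 0 = x.1.1
          rw [map_zero, map_zero, map_zero, a1, add_zero, add_zero]
        · change -(M.d 0) + x.1.2 = x.1.2
          rw [map_zero, neg_zero, zero_add]
        · change -(N.d 0 + f x.1.2) = x.2.1
          rw [map_zero, zero_add]
          exact (eq_neg_of_add_eq_zero_left a2).symm
        · change -(-(M.d x.1.2)) = x.2.2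
          rw [neg_neg, a4]
  exact hT.ses1 _ C _ _ _ (isMor_cone_inl _ _ φ hφ) (isMor_cone_snd _ _ φ hφ)
    (isSES_cone _ _ φ hφ) hC (hT.sh _ 1 h1)

/-- PROOF. `cone (a b : M → M[ea + eb])`: `M → M[ea] → (M[ea])[eb]` with the cones `M.mc a` and `(M[ea]).mc b ≅ (M.mc b)[ea]` (`ea` even: the identity map; `hT.sh`, `hT.iso`);
`(M[ea])[eb]` is `M[ea + eb]` up to the identity map (`LinearEquiv.refl`). Use `IsThick.cone_comp` and transport along isomorphisms of cones (`hT.iso`). -/
theorem mc_mul (hT : IsThick T) {M : DGM G} {ea eb : ℤ} {a b : A} (ha : G.c ea a = a) (hea : Even ea)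
    (hb : G.c eb b = b) (heb : Even eb) (h1 : T (M.mc ha hea)) (h2 : T (M.mc hb heb)) {e : ℤ}
    (hab : G.c e (a * b) = a * b) (he : Even e) (hee : e = ea + eb) : T (M.mc hab he) := by
  have d1 : (M.sh ea).d = M.d := DGM.sh_d_even M hea
  have d2 : (M.sh eb).d = M.d := DGM.sh_d_even M heb
  have d3 : ((M.sh ea).sh eb).d = M.d := by
    rw [DGM.sh_d_even (M.sh ea) heb, d1]
  have d4 : (M.sh e).d = M.d := DGM.sh_d_even M he
  -- the second cone
  have h3 : T ((M.sh ea).mc hb heb) := by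
    have h4 : T ((M.mc hb heb).sh ea) := hT.sh _ ea h2
    refine (hT.iso (M := (M.mc hb heb).sh ea) (N := (M.sh ea).mc hb heb)
      (LinearEquiv.refl A (M.X × M.X)) ⟨?_, ?_⟩).1 h4
    · intro i x
      refine Prod.ext ?_ ?_
      · change M.pr (i + 0 + eb + ea) x.1 = M.pr (i + ea + eb) x.1
        rw [add_zero, add_right_comm]
      · change M.pr (i + 0 + 1 + ea) x.2 = M.pr (i + ea + 1) x.2
        rw [add_zero, add_right_comm]
    · intro x
      rw [DGM.sh_d_even (M.mc hb heb) hea]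
      refine Prod.ext ?_ ?_
      · change ((M.sh ea).sh eb).d x.1 + b • x.2 = (M.sh eb).d x.1 + b • x.2
        rw [d3, d2]
      · change -((M.sh ea).d x.2) = -(M.d x.2)
        rw [d1]
  have hm : IsMor M ((M.sh ea).sh eb) 0 ((b • (LinearMap.id : (M.sh ea).X →ₗ[A] (M.sh ea).X)) ∘ₗ
      (a • (LinearMap.id : M.X →ₗ[A] M.X))) :=
    (isMor_mul (M.sh ea) hb heb).comp0 (isMor_mul M ha hea)
  have h5 := hT.cone_comp (isMor_mul M ha hea) (isMor_mul (M.sh ea) hb heb) h1 h3 hm
  refine (hT.iso (M := M.cone ((M.sh ea).sh eb) _ hm) (N := M.mc hab he)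
    (LinearEquiv.refl A (M.X × M.X)) ⟨?_, ?_⟩).1 h5
  · intro i x
    refine Prod.ext ?_ ?_
    · change M.pr (i + 0 + e) x.1 = M.pr (i + eb + ea) x.1
      rw [add_zero, hee, add_assoc, add_comm eb ea]
    · change M.pr (i + 0 + 1) x.2 = M.pr (i + 1) x.2
      rw [add_zero]
  · intro x
    refine Prod.ext ?_ rfl
    change (M.sh e).d x.1 + (a * b) • x.2 = ((M.sh ea).sh eb).d x.1 + b • a • x.2
    rw [d4, d3, smul_smul, mul_comm b a]

end MP8a
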