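import Pool.Agent.Lib_MP_8a48ad_gt.R3Cone

/-! # Piece R3CONE2: cones of powers, splitting by two elements -/

set_option autoImplicit false

namespace MP8a

universe u

variable {A : Type u} [CommRing A] {G : Gr A} {T : DGM G → Prop}

/-- the cone of the identity `M → M[0]` is acyclic -/
theorem acy_mc_one (M : DGM G) {e : ℤ} {a : A} (ha : G.c e a = a) (he : Even e) (h1 : a = 1) :
    Acy (M.mc ha he) := by
  subst h1
  intro x hx
  have h1 : (M.sh e).d x.1 + (1 : A) • x.2 = 0 := congrArg Prod.fst hx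
  rw [DGM.sh_d_even M he, one_smul] at h1
  refine ⟨(0, x.1), ?_⟩
  rw [DGM.cone_d]
  refine Prod.ext ?_ ?_
  · change (M.sh e).d 0 + (1 : A) • x.1 = x.1
    rw [map_zero, zero_add, one_smul]
  · change -(M.d x.1) = x.2
    exact neg_eq_of_add_eq_zero_right h1

/-- PROOF. Induction on `N` with `mc_mul`; for `N = 0` the cone of `1 : M → M[0]` is acyclic (`hT.acy h`). -/
theorem mc_pow (hT : IsThick T) {M : DGM G} {e : ℤ} {a : A} (ha : G.c e a = a) (he : Even e)
    (h : T (M.mc ha he)) (N : ℕ) {e' : ℤ} (hN : G.c e' (a ^ N) = a ^ N) (he' : Even e')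
    (hee : e' = N * e) : T (M.mc hN he') := by
  induction N generalizing e' with
  | zero => exact hT.acy h (acy_mc_one M hN he' (pow_zero a))
  | succ n ih =>
    have h1 : G.c (n * e) (a ^ n) = a ^ n := G.pow_hom ha n
    have h2 : Even ((n : ℤ) * e) := he.mul_left _
    have h3 : T (M.mc h1 h2) := ih h1 h2 rfl
    have h4 : G.c e' (a ^ n * a) = a ^ n * a := by
      rw [← pow_succ]
      exact hN
    have h5 : T (M.mc h4 he') := mc_mul hT h1 h2 ha he h3 h h4 he' (by
      rw [hee]
      push_cast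
      ring)
    have h6 : ∀ b : A, b = a ^ n * a → ∀ hb : G.c e' b = b, T (M.mc hb he') := by
      intro b hb
      subst hb
      intro _
      exact h5
    exact h6 (a ^ (n + 1)) (pow_succ a n) hN

/-- If a power of `a b` is zero on `M` in the derived category, then `M` is built from the cones of (a power of) `a` and `b`.
PROOF. `T (M.mc (b^N))` by `mc_pow`, `T (M.mc (a^N b^N))` by `mc_mul`, and `retract_arg` with `N = M`, `c = id`, `L = zeroM` (`hT.zero`). -/
theorem thick_of_NZ_mul (hT : IsThick T) {M : DGM G} {ea eb : ℤ} {a b : A} (ha : G.c ea a = a)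
    (hea : Even ea) (hb : G.c eb b = b) (heb : Even eb) {N : ℕ} {E : ℤ}
    (hNZ : NZ M M E ((a * b) ^ N • LinearMap.id)) (hE : E = N * (ea + eb)) {e' : ℤ}
    (haN : G.c e' (a ^ N) = a ^ N) (he' : Even e') (hee : e' = N * ea) (h1 : T (M.mc haN he'))
    (h2 : T (M.mc hb heb)) : T M := by
  have hbN : G.c (N * eb) (b ^ N) = b ^ N := G.pow_hom hb N
  have hebN : Even ((N : ℤ) * eb) := heb.mul_left _
  have h3 : T (M.mc hbN hebN) := mc_pow hT hb heb h2 N hbN hebN rfl
  have hE' : E = e' + N * eb := by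
    rw [hE, hee]
    ring
  have hEe : Even E := by
    rw [hE']
    exact he'.add hebN
  have hab : G.c E (a ^ N * b ^ N) = a ^ N * b ^ N := by
    rw [hE']
    exact G.mul haN hbN
  have h4 : T (M.mc hab hEe) := mc_mul hT haN he' hbN hebN h1 h3 hab hEe hE'
  rw [mul_pow] at hNZ
  refine retract_arg hT (N := M) (L := zeroM G) (c := LinearMap.id) (κ := 0) (isMor_id M)
    (isMor_zero _ _ _) ⟨fun x y h => h, fun y => ⟨0, Subsingleton.elim _ _⟩, fun x => ?_⟩ (hT.zero h1)
    hab hEe hNZ h4
  exact ⟨fun _ => ⟨x, rfl⟩, fun _ => Subsingleton.elim _ _⟩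

end MP8a
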