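import Pool.Agent.Lib_MP_8a48ad_gt.R3Defs
import Pool.Agent.Lib_MP_8a48ad_gt.CIDefs

/-! # Piece R3COV: acyclic free covers -/

set_option autoImplicit false

namespace MP8a

universe u

variable {A : Type u} [CommRing A] {G : Gr A}

/-- components of a multiple of a homogeneous element -/
theorem DGM.pr_smul_hom (M : DGM G) {i : ℤ} {y : M.X} (hy : M.pr i y = y) (j : ℤ) (a : A) :
    M.pr j (a • y) = (G.c (j - i) a) • y := by
  refine G.ind (P := fun a => M.pr j (a • y) = (G.c (j - i) a) • y) (by simp) ?_ ?_ a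
  · intro a b ha hb
    rw [add_smul, map_add, ha, hb, map_add, add_smul]
  · intro l a ha
    have h := M.smul ha hy
    by_cases hj : j = l + i
    · subst hj
      rw [h, add_sub_cancel_right, ha]
    · rw [M.pr_ne h hj, ← ha, G.c_c, if_neg (by omega), zero_smul]

/-- the cone of the identity of the ring -/
@[reducible] noncomputable def covD (G : Gr A) : DGM G :=
  (regM G).cone (regM G) LinearMap.id (isMor_id _)

/-- the cover -/
@[reducible] noncomputable def covC (M : DGM G) : DGM G :=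
  (covD G).fsum (ℤ × M.X) (fun p => p.1 + 1)

/-- one component of the map `C → M` -/
noncomputable def covg (M : DGM G) (p : ℤ × M.X) : (A × A) →ₗ[A] M.X :=
  (LinearMap.toSpanSingleton A M.X (M.d (M.pr p.1 p.2))).coprod
    (LinearMap.toSpanSingleton A M.X (M.pr p.1 p.2))

theorem covg_apply (M : DGM G) (p : ℤ × M.X) (v : A × A) :
    covg M p v = v.1 • M.d (M.pr p.1 p.2) + v.2 • M.pr p.1 p.2 := rfl

/-- the map `C → M` -/
noncomputable def covf (M : DGM G) : (covC M).X →ₗ[A] M.X :=
  Finsupp.lsum A (covg M)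

theorem covf_single (M : DGM G) (p : ℤ × M.X) (v : A × A) :
    covf M (Finsupp.single p v) = covg M p v := by
  unfold covf
  rw [Finsupp.lsum_single]

theorem covC_pr_single (M : DGM G) (j : ℤ) (p : ℤ × M.X) (v : A × A) :
    (covC M).pr j (Finsupp.single p v) =
      Finsupp.single p (G.c (j - (p.1 + 1)) v.1, G.c (j - (p.1 + 1) + 1) v.2) := by
  ext q : 1
  change (covD G).pr (j - (q.1 + 1)) ((Finsupp.single p v : (ℤ × M.X) →₀ A × A) q) = _
  by_cases h : p = q
  · subst h
    rw [Finsupp.single_eq_same, Finsupp.single_eq_same]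
    rfl
  · rw [Finsupp.single_eq_of_ne (Ne.symm h), Finsupp.single_eq_of_ne (Ne.symm h), map_zero]

theorem covC_d_single (M : DGM G) (p : ℤ × M.X) (v : A × A) :
    (covC M).d (Finsupp.single p v) = Finsupp.single p ((v.2, 0) : A × A) := by
  ext q : 1
  change (covD G).d ((Finsupp.single p v : (ℤ × M.X) →₀ A × A) q) = _
  by_cases h : p = q
  · subst h
    rw [Finsupp.single_eq_same, Finsupp.single_eq_same]
    refine Prod.ext ?_ ?_
    · change 0 + v.2 = v.2
      rw [zero_add]
    · change -(0 : A) = 0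
      rw [neg_zero]
  · rw [Finsupp.single_eq_of_ne (Ne.symm h), Finsupp.single_eq_of_ne (Ne.symm h), map_zero]

theorem covf_mor (M : DGM G) : IsMor (covC M) M 0 (covf M) := by
  constructor
  · intro i x
    rw [add_zero]
    induction x using Finsupp.induction_linear with
    | zero => rw [map_zero, map_zero, map_zero, map_zero]
    | add x y hx hy => rw [map_add, map_add, map_add, map_add, hx, hy]
    | single p v =>
      have h1 : M.pr p.1 (M.pr p.1 p.2) = M.pr p.1 p.2 := M.pr_self _ _
      rw [covC_pr_single, covf_single, covf_single, covg_apply, covg_apply, map_add,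
        M.pr_smul_hom h1, M.pr_smul_hom (M.d_hom h1)]
      have h2 : i - (p.1 + 1) + 1 = i - p.1 := by ring
      rw [h2]
  · intro x
    induction x using Finsupp.induction_linear with
    | zero => rw [map_zero, map_zero, map_zero, map_zero]
    | add x y hx hy => rw [map_add, map_add, map_add, map_add, hx, hy]
    | single p v =>
      rw [covC_d_single, covf_single, covf_single, covg_apply, covg_apply, map_add, map_smul,
        map_smul, M.d_d, smul_zero, zero_add, zero_smul, add_zero]

theorem covC_acy (M : DGM G) : Acy (covC M) := by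
  intro x hx
  refine ⟨Finsupp.mapRange (fun v : A × A => ((0, v.1) : A × A)) rfl x, ?_⟩
  ext q : 1
  have h1 : (covD G).d (x q) = 0 := DFunLike.congr_fun hx q
  have h2 : 0 + (x q).2 = 0 := congrArg Prod.fst h1
  rw [zero_add] at h2
  change (covD G).d ((0, (x q).1) : A × A) = x q
  refine Prod.ext ?_ ?_
  · change 0 + (x q).1 = (x q).1
    rw [zero_add]
  · change -(0 : A) = (x q).2
    rw [h2, neg_zero]

/-- PROOF. `C.X = (ℤ × M.X) →₀ (A × A)`, `f (single (i, x) (a, b)) = a • pr i x + b • d (pr i x)`, `d (single (i, x) (a, b)) = single (i, x) (0, a)`, the basis element `(1, 0)` at `(i, x)` has degree `i` and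
`(0, 1)` has degree `i + 1`: `pr j (single (i, x) (a, b)) = single (i, x) (G.c (j - i) a, G.c (j - i - 1) b)`. (All maps are `Finsupp.mapRange`, `Finsupp.lsum` etc.) `f` is surjective because `x = ∑ pr i x`.
Cycles have `a = 0` everywhere, so they are boundaries. `C.X` is free with basis indexed by `(ℤ × M.X) ⊕ (ℤ × M.X)`. -/
theorem exists_acy_cover (M : DGM G) : ∃ (C : DGM G) (f : C.X →ₗ[A] M.X), IsMor C M 0 f ∧
    Function.Surjective f ∧ Acy C ∧ ∃ ι : Type u, Nonempty (C.X ≃ₗ[A] (ι →₀ A)) := by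
  refine ⟨covC M, covf M, covf_mor M, ?_, covC_acy M, ?_⟩
  · intro x
    obtain ⟨s, hs⟩ := M.fin x
    refine ⟨∑ i ∈ s, Finsupp.single (i, x) ((0, 1) : A × A), ?_⟩
    rw [map_sum]
    rw [← hs]
    refine Finset.sum_congr rfl fun i _ => ?_
    rw [covf_single, covg_apply, hs]
    simp
  · have : Module.Free A ((ℤ × M.X) →₀ (A × A)) := inferInstance
    exact ⟨Module.Free.ChooseBasisIndex A ((ℤ × M.X) →₀ (A × A)),
      ⟨(Module.Free.chooseBasis A ((ℤ × M.X) →₀ (A × A))).repr⟩⟩

/-- PROOF. `N = ker f` for `exists_acy_cover` (`DGM.sub`, `IsMor.ker_pr`, `IsMor.ker_d`). -/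
theorem exists_syz (M : DGM G) : ∃ (N C : DGM G) (i : N.X →ₗ[A] C.X) (f : C.X →ₗ[A] M.X),
    IsMor N C 0 i ∧ IsMor C M 0 f ∧ IsSES N C M i f ∧ Acy C ∧
      ∃ ι : Type u, Nonempty (C.X ≃ₗ[A] (ι →₀ A)) := by
  obtain ⟨C, f, hf, hs, hacy, hι⟩ := exists_acy_cover M
  refine ⟨C.sub (LinearMap.ker f) hf.ker_pr hf.ker_d, C, (LinearMap.ker f).subtype, f,
    isMor_subtype _ _ _ _, hf, ⟨Subtype.val_injective, hs, fun x => ?_⟩, hacy, hι⟩
  exact ⟨fun h => ⟨⟨x, h⟩, rfl⟩, fun ⟨y, hy⟩ => hy ▸ y.2⟩

end MP8a
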