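import Pool.Agent.Lib_MP_8a48ad_gt.Main0

/-!
# Stage 3 (rank 3): definitions for the truncation arguments

`HV M j`: the cohomology of `M` in degree `j` is zero. `FDj k M j`: it is finite dimensional over `k`. `CFD k M`: all `H^j` are finite dimensional
and `H^j = 0` for `j ≪ 0`. `HIs M N f m`: `H^j(f)` is bijective for all `j ≥ m`.
`annH M`: the ideal of elements which annihilate the cohomology.
-/

set_option autoImplicit false

namespace MP8a

universe u

section

variable {A : Type u} [CommRing A] {G : Gr A}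

/-- `H^j(M) = 0` -/
def HV (M : DGM G) (j : ℤ) : Prop := ∀ x, M.pr j x = x → M.d x = 0 → ∃ y, M.d y = x

/-- `H^j(f)` is bijective for `j ≥ m` (`f` of degree `0`). -/
def HIs (M N : DGM G) (f : M.X →ₗ[A] N.X) (m : ℤ) : Prop :=
  ∀ j, m ≤ j → (∀ x, M.pr j x = x → M.d x = 0 → ∀ y, N.d y = f x → ∃ z, M.d z = x) ∧
    ∀ y, N.pr j y = y → N.d y = 0 → ∃ x z, M.pr j x = x ∧ M.d x = 0 ∧ y = f x + N.d z

/-- the annihilator of the cohomology -/
def annH (M : DGM G) : Ideal A where
  carrier := {a | ∀ x, M.d x = 0 → ∃ y, M.d y = a • x}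
  zero_mem' := fun x _ => ⟨0, by rw [map_zero, zero_smul]⟩
  add_mem' := fun {a b} ha hb x hx => by
    obtain ⟨y, hy⟩ := ha x hx
    obtain ⟨z, hz⟩ := hb x hx
    exact ⟨y + z, by rw [map_add, hy, hz, add_smul]⟩
  smul_mem' := fun a b hb x hx => by
    obtain ⟨y, hy⟩ := hb x hx
    exact ⟨a • y, by rw [map_smul, hy, smul_smul, smul_eq_mul]⟩

theorem Nil_iff (a : A) (M : DGM G) : Nil a M ↔ a ∈ (annH M).radical := Iff.rfl

end

section

variable {k : Type u} [Field k] {R : Type u} [CommRing R] [Algebra k R] {GR : Gr R}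

/-- `H^j(M)` is finite dimensional over `k` (the `z i` are arbitrary elements). -/
def FDj (k : Type u) [Field k] [Algebra k R] (M : DGM GR) (j : ℤ) : Prop :=
  ∃ (l : ℕ) (z : Fin l → M.X), ∀ x, M.pr j x = x → M.d x = 0 →
    ∃ (y : M.X) (c : Fin l → k), x = M.d y + ∑ i, algebraMap k R (c i) • z i

/-- all `H^j(M)` are finite dimensional and `H^j(M) = 0` for `j ≪ 0` -/
def CFD (k : Type u) [Field k] [Algebra k R] (M : DGM GR) : Prop :=
  (∃ a : ℤ, ∀ j, j < a → HV M j) ∧ ∀ j, FDj k M j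

end

end MP8a
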