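import Pool.Agent.Lib_MP_8a48ad_gt.R3Act

/-! # Piece R3STAB: stable ideals and invariants; primes lying over homogeneous primes -/

set_option autoImplicit false

namespace MP8a

universe u

variable {k : Type u} [Field k] {n : ℕ} {W : Type*} [Group W] [Finite W]

/-- Let `I` be a `W`-stable ideal of `S` which is not contained in the prime `q`. Then some invariant `t ∈ I` is not in `q`.
PROOF. Otherwise `I ∩ R ⊆ q ∩ R`, and as `S` is integral over `R` there is a prime `Q ⊇ I` with `Q ∩ R = q ∩ R` (`Ideal.exists_ideal_over_prime_of_isIntegral`; integrality: `finite_inv`). `W` permutes the primes over `q ∩ R` transitively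
(`Algebra.IsInvariant.exists_smul_of_under_eq`, with the `MulSemiringAction` of `W` on `S` as in `InvSetup.lean`): `Q = w q`. So `I = w⁻¹ I ⊆ w⁻¹ Q = q`, contradiction. -/
theorem exists_inv_not_mem (ρ : W →* GL (Fin n) k) (q : Ideal (Sn k n)) [q.IsPrime]
    (I : Ideal (Sn k n)) (hI : ∀ w, ∀ s ∈ I, wact ρ w s ∈ I) {g : Sn k n} (hg : g ∈ I) (hgq : g ∉ q) :
    ∃ t : invA ρ, (t : Sn k n) ∈ I ∧ (t : Sn k n) ∉ q := by
  classical
  cases nonempty_fintype W
  -- `P = ∏_w (X - w g)`: all lower coefficients are invariant and in `I`, `g` is a root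
  set P : Polynomial (Sn k n) := ∏ w : W, (Polynomial.X - Polynomial.C (wact ρ w g)) with hP
  have hinv : ∀ i, ∀ w : W, wact ρ w (P.coeff i) = P.coeff i := by
    intro i w
    have h1 : Polynomial.map (wact ρ w).toRingHom P = P := by
      rw [hP, Polynomial.map_prod]
      have h2 : ∀ v : W, Polynomial.map (wact ρ w).toRingHom (Polynomial.X - Polynomial.C (wact ρ v g)) =
          Polynomial.X - Polynomial.C (wact ρ (w * v) g) := by
        intro v
        rw [Polynomial.map_sub, Polynomial.map_X, Polynomial.map_C, act_mul]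
        rfl
      rw [Finset.prod_congr rfl fun v _ => h2 v]
      exact Equiv.prod_comp (Equiv.mulLeft w)
        (fun v => Polynomial.X - Polynomial.C (wact ρ v g))
    have h3 := congrArg (fun p => Polynomial.coeff p i) h1
    simp only [Polynomial.coeff_map] at h3
    exact h3
  have hmod : ∀ J : Ideal (Sn k n), (∀ w : W, wact ρ w g ∈ J) →
      Polynomial.map (Ideal.Quotient.mk J) P = Polynomial.X ^ Fintype.card W := by
    intro J hJ
    rw [hP, Polynomial.map_prod]
    have h2 : ∀ v : W, Polynomial.map (Ideal.Quotient.mk J) (Polynomial.X - Polynomial.C (wact ρ v g)) =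
        Polynomial.X := by
      intro v
      rw [Polynomial.map_sub, Polynomial.map_X, Polynomial.map_C,
        Ideal.Quotient.eq_zero_iff_mem.2 (hJ v), Polynomial.C_0, sub_zero]
    rw [Finset.prod_congr rfl fun v _ => h2 v, Finset.prod_const, Finset.card_univ]
  have hcI : ∀ i, i < Fintype.card W → P.coeff i ∈ I := by
    intro i hi
    have h1 := congrArg (fun p => Polynomial.coeff p i) (hmod I (fun w => hI w g hg))
    simp only [Polynomial.coeff_map, Polynomial.coeff_X_pow] at h1
    rw [if_neg hi.ne] at h1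
    exact Ideal.Quotient.eq_zero_iff_mem.1 h1
  have hmonic : P.Monic := Polynomial.monic_prod_of_monic _ _ fun w _ => Polynomial.monic_X_sub_C _
  have hdeg : P.natDegree = Fintype.card W := by
    rw [hP, Polynomial.natDegree_prod_of_monic _ _ fun w _ => Polynomial.monic_X_sub_C _]
    simp
  have hroot : P.eval g = 0 := by
    rw [hP, Polynomial.eval_prod]
    refine Finset.prod_eq_zero (Finset.mem_univ (1 : W)) ?_
    rw [act_one]
    simp
  by_contra hcon
  push Not at hcon
  have hcq : ∀ i, i < Fintype.card W → P.coeff i ∈ q := by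
    intro i hi
    exact hcon ⟨P.coeff i, fun w => hinv i w⟩ (hcI i hi)
  have hpow : g ^ Fintype.card W ∈ q := by
    have h1 : P.eval g = ∑ i ∈ Finset.range (P.natDegree + 1), P.coeff i * g ^ i :=
      Polynomial.eval_eq_sum_range g
    rw [hroot, Finset.sum_range_succ, hmonic.coeff_natDegree, one_mul, hdeg] at h1
    have h2 : ∑ i ∈ Finset.range (Fintype.card W), P.coeff i * g ^ i ∈ q :=
      q.sum_mem fun i hi => q.mul_mem_right _ (hcq i (Finset.mem_range.1 hi))
    have h3 : g ^ Fintype.card W = -(∑ i ∈ Finset.range (Fintype.card W), P.coeff i * g ^ i) := by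
      rw [eq_neg_iff_add_eq_zero, add_comm]
      exact h1.symm
    rw [h3]
    exact q.neg_mem h2
  exact hgq (Ideal.IsPrime.mem_of_pow_mem inferInstance _ hpow)

/-- PROOF. `I` = the ideal of `S` of all `s` with `JS ρ s` (`JS_add`, `JS_mul`); it is `W`-stable: from `s t = ∑ τ_i(t) x_i` we get `(w s) t = w (s (w⁻¹ t)) = ∑ τ_i(w⁻¹ t) (w x_i)` and `t ↦ τ_i(w⁻¹ t)` is `R`-linear. `JS ρ t` for an invariant `t` is `JJ k n t`. -/
theorem exists_JJ_of_JS (ρ : W →* GL (Fin n) k) (q : Ideal (Sn k n)) [q.IsPrime] {f : Sn k n}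
    (hf : JS ρ f) (hfq : f ∉ q) : ∃ t : invA ρ, JJ k n t ∧ (t : Sn k n) ∉ q := by
  classical
  let I : Ideal (Sn k n) :=
    { carrier := {s | JS ρ s}
      add_mem' := fun {a b} ha hb => JS_add ρ ha hb
      zero_mem' := ⟨0, Fin.elim0, Fin.elim0, fun t => by simp⟩
      smul_mem' := fun a s hs => JS_mul ρ a hs }
  have hI : ∀ w, ∀ s ∈ I, wact ρ w s ∈ I := by
    intro w s hs
    obtain ⟨l, τ, x, h⟩ : JS ρ s := hs
    let α : Sn k n →ₗ[invA ρ] Sn k n :=
      { toFun := fun t => wact ρ w⁻¹ t
        map_add' := fun a b => map_add _ a b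
        map_smul' := fun r t => by
          change wact ρ w⁻¹ ((r : Sn k n) * t) = (r : Sn k n) * wact ρ w⁻¹ t
          rw [map_mul]
          congr 1
          exact r.2 w⁻¹ }
    refine ⟨l, fun i => (τ i).comp α, fun i => wact ρ w (x i), fun t => ?_⟩
    have h1 : wact ρ w s * t = wact ρ w (s * wact ρ w⁻¹ t) := by
      rw [map_mul, act_act_inv]
    rw [h1, h, map_sum]
    refine Finset.sum_congr rfl fun i _ => ?_
    rw [map_mul]
    congr 1
    exact (τ i (wact ρ w⁻¹ t)).2 w
  obtain ⟨t, ht, htq⟩ := exists_inv_not_mem ρ q I hI (g := f) hf hfq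
  exact ⟨t, ht, htq⟩

/-- Let `q` be a homogeneous prime or `0` and `p'` a homogeneous prime of `R` containing `q ∩ R`. There is a homogeneous prime `q' ⊇ q` over `p'`. PROOF. `Ideal.exists_ideal_over_prime_of_isIntegral` gives a prime `Q ⊇ q` over `p'`; take its homogeneous core (`exists_core`): it contains `q`, and it lies over `p'` as `p'` is
homogeneous. `plus`: the element `a` of `HPr.plus` for `p'`. -/
theorem exists_hpr_over (ρ : W →* GL (Fin n) k) (q : Ideal (Sn k n))
    (hq : ∀ s ∈ q, ∀ i, (grS k n).c i s ∈ q) (p' : Ideal (invA ρ)) (hp' : HPr (grR ρ) p')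
    (h : q.comap (algebraMap (invA ρ) (Sn k n)) ≤ p') :
    ∃ q', HPr (grS k n) q' ∧ q ≤ q' ∧ q'.comap (algebraMap (invA ρ) (Sn k n)) = p' := by
  have hfin : Module.Finite (invA ρ) (Sn k n) := finite_inv ρ
  have hint : Algebra.IsIntegral (invA ρ) (Sn k n) := inferInstance
  have hprime := hp'.prime
  obtain ⟨Q, hqQ, hQ, hQp⟩ := Ideal.exists_ideal_over_prime_of_isIntegral p' q h
  obtain ⟨q', hq', hq'Q, hom, hcore⟩ := exists_core (grS k n) Q hQ
  have hcomap : q'.comap (algebraMap (invA ρ) (Sn k n)) = p' := by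
    apply le_antisymm
    · rw [← hQp]
      exact Ideal.comap_mono hq'Q
    · intro a ha
      rw [Ideal.mem_comap]
      refine hcore _ fun i => ?_
      have h1 : (grR ρ).c i a ∈ Q.comap (algebraMap (invA ρ) (Sn k n)) := by
        rw [hQp]
        exact hp'.hom a ha i
      exact h1
  refine ⟨q', ⟨hq', hom, ?_⟩, ?_, hcomap⟩
  · obtain ⟨a, ha, ha0⟩ := hp'.plus
    refine ⟨algebraMap (invA ρ) (Sn k n) a, ?_, ?_⟩
    · intro h1
      apply ha
      rw [← hcomap]
      exact h1
    · have h1 := compat_inv ρ 0 a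
      rw [ha0, map_zero] at h1
      exact h1.symm
  · intro s hs
    exact hcore s fun i => hqQ (hq s hs i)

/-- PROOF. `prime`, `hom` are clear. `plus`: the ideal of all `s` with constant coefficient `0` is `W`-stable and not contained in `q` (`HPr.plus`, `grS_zero`); use `exists_inv_not_mem`. -/
theorem hpr_comap (ρ : W →* GL (Fin n) k) (q : Ideal (Sn k n)) (hq : HPr (grS k n) q) :
    HPr (grR ρ) (q.comap (algebraMap (invA ρ) (Sn k n))) := by
  have hprime := hq.prime
  refine ⟨Ideal.comap_isPrime _ q, ?_, ?_⟩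
  · intro a ha i
    exact hq.hom _ ha i
  · obtain ⟨g, hgq, hg0⟩ := hq.plus
    obtain ⟨t, ht, htq⟩ := exists_inv_not_mem ρ q
      (RingHom.ker (MvPolynomial.constantCoeff : Sn k n →+* k)) (by
        intro w s hs
        rw [RingHom.mem_ker] at hs ⊢
        have h1 := linAct_c (ρ w : Matrix (Fin n) (Fin n) k) 0 s
        rw [grS_zero, grS_zero, hs, map_zero, map_zero] at h1
        exact MvPolynomial.C_injective _ _ (h1.trans (map_zero _).symm)) (g := g) (by
        rw [RingHom.mem_ker]
        rw [grS_zero] at hg0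
        exact MvPolynomial.C_injective _ _ (hg0.trans (map_zero _).symm)) hgq
    refine ⟨t, htq, ?_⟩
    apply Subtype.ext
    rw [grR_coe, grS_zero, (RingHom.mem_ker).1 ht, map_zero]
    rfl

end MP8a
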