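import Pool.Agent.Lib_MP_8a48ad_gt.R3Pln

/-! # Piece R3TRACE: invariants with given leading term at a line -/

set_option autoImplicit false

namespace MP8a

universe u

variable {k : Type u} [Field k] {W : Type*} [Group W] [Finite W]

/-- an element of finite order which maps the ideal into itself stabilises it -/
private theorem tr_stab {n : ℕ} (ρ : W →* GL (Fin n) k) (q : Ideal (Sn k n)) (v : W)
    (h : ∀ s ∈ q, wact ρ v s ∈ q) : v ∈ stabi ρ q := by
  have hpow : ∀ (j : ℕ), ∀ s ∈ q, wact ρ (v ^ j) s ∈ q := by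
    intro j
    induction j with
    | zero =>
      intro s hs
      rw [pow_zero, act_one]
      exact hs
    | succ j ih =>
      intro s hs
      rw [pow_succ, act_mul]
      exact ih _ (h s hs)
  intro s
  refine ⟨fun hs => ?_, fun hs => h s hs⟩
  have h1 : v ^ (orderOf v - 1) * v = 1 := by
    rw [← pow_succ, Nat.sub_add_cancel (orderOf_pos v), pow_orderOf_eq_one]
  have h2 := hpow (orderOf v - 1) _ hs
  rw [← act_mul, h1, act_one] at h2
  exact h2

omit [Finite W] in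
private theorem tr_span (ρ : W →* GL (Fin 3) k) (q : Ideal (Sn k 3)) {a b : Sn k 3}
    (hq : q = Ideal.span {a, b}) (v : W) (ha : wact ρ v a ∈ q) (hb : wact ρ v b ∈ q) :
    ∀ s ∈ q, wact ρ v s ∈ q := by
  intro s hs
  rw [hq, Ideal.mem_span_pair] at hs
  obtain ⟨x, y, rfl⟩ := hs
  rw [map_add, map_mul, map_mul]
  exact q.add_mem (q.mul_mem_left _ ha) (q.mul_mem_left _ hb)

/-- PROOF. Let `N = stabi q`. If `w ∉ N` then `w⁻¹ q ⊄ q` (otherwise `w⁻¹ q = q`, as `w` has finite order), so `w⁻¹ (lin c₁)` or `w⁻¹ (lin c₂)` is not in `q` (`prime_eq`); call this linear form `ℓ_w`; `w ℓ_w ∈ q`. Let `e = ∏_{w ∉ N} ℓ_w^{2 M}`: homogeneous of even degree, `e ∉ q`, and `w(e) ∈ q^M` for `w ∉ N`. `g = ∑_{w ∈ N} w(e)`.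
For `y` invariant under `N`: `∑_{w ∈ W} w(e y) - g y = ∑_{w ∉ N} w(e) w(y) ∈ q^M`. `g ∉ q`: `e ≡ a (lin t₀)^D` modulo `q` with `D` even (`hom_congr`), so for `w ∈ N`, `w(e) ≡ a (± lin t₀)^D` and `w(e) - e ∈ q` (`stabi_sign`); so `g - |N| e ∈ q` and `|N|` is invertible in `k`. -/
theorem exists_trace (hW : (Nat.card W : k) ≠ 0) (ρ₀ : W →* GL (Fin 3) ℤ) (q : Ideal (Sn k 3))
    (hq : HPr (grS k 3) q) {t₀ c₁ c₂ : Fin 3 → ℤ} (h : LD k ρ₀ (inert (latt k ρ₀) q) t₀ c₁ c₂)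
    (M : ℕ) : ∃ (D : ℕ) (e g : Sn k 3), e.IsHomogeneous D ∧ g ∉ q ∧
      ∀ y, (∀ w ∈ stabi (latt k ρ₀) q, wact (latt k ρ₀) w y = y) →
        (trJ (latt k ρ₀) (e * y) : Sn k 3) - g * y ∈ q ^ M := by
  classical
  have _ : Fintype W := Fintype.ofFinite W
  have hprime := hq.prime
  have hc1 : lin (cv k c₁) ∈ q := lin_mem_of_esum hW ρ₀ q le_rfl h.sum1
  have hc2 : lin (cv k c₂) ∈ q := lin_mem_of_esum hW ρ₀ q le_rfl h.sum2
  have hqe := prime_eq h.det hq hc1 hc2
  -- the linear forms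
  have hl : ∀ w : W, ∃ l : Sn k 3, l.IsHomogeneous 1 ∧
      (w ∉ stabi (latt k ρ₀) q → l ∉ q ∧ wact (latt k ρ₀) w l ∈ q) := by
    intro w
    by_cases hw : w ∈ stabi (latt k ρ₀) q
    · exact ⟨0, MvPolynomial.isHomogeneous_zero _ _ _, fun h1 => absurd hw h1⟩
    · have h1 : ¬ (wact (latt k ρ₀) w⁻¹ (lin (cv k c₁)) ∈ q ∧
          wact (latt k ρ₀) w⁻¹ (lin (cv k c₂)) ∈ q) := by
        rintro ⟨h2, h3⟩
        have h4 := tr_stab (latt k ρ₀) q w⁻¹ (tr_span (latt k ρ₀) q hqe w⁻¹ h2 h3)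
        have h5 := inv_mem h4
        rw [inv_inv] at h5
        exact hw h5
      by_cases h2 : wact (latt k ρ₀) w⁻¹ (lin (cv k c₁)) ∈ q
      · refine ⟨wact (latt k ρ₀) w⁻¹ (lin (cv k c₂)), linAct_hom _ (lin_hom _), fun _ =>
          ⟨fun h3 => h1 ⟨h2, h3⟩, ?_⟩⟩
        rw [act_act_inv]
        exact hc2
      · refine ⟨wact (latt k ρ₀) w⁻¹ (lin (cv k c₁)), linAct_hom _ (lin_hom _), fun _ =>
          ⟨h2, ?_⟩⟩
        rw [act_act_inv]
        exact hc1
  choose l hlh hl using hl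
  obtain ⟨F, hF⟩ : ∃ F : Finset W, ∀ w, w ∈ F ↔ w ∉ stabi (latt k ρ₀) q :=
    ⟨Finset.univ.filter fun w => w ∉ stabi (latt k ρ₀) q, fun w => by simp⟩
  obtain ⟨G, hG⟩ : ∃ G : Finset W, ∀ w, w ∈ G ↔ w ∈ stabi (latt k ρ₀) q :=
    ⟨Finset.univ.filter fun w => w ∈ stabi (latt k ρ₀) q, fun w => by simp⟩
  have hFG : ∀ f : W → Sn k 3, ∑ w, f w = ∑ w ∈ G, f w + ∑ w ∈ F, f w := by
    intro f
    rw [← Finset.sum_union]
    · refine Finset.sum_congr ?_ fun _ _ => rfl
      ext w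
      rw [Finset.mem_union, hG, hF]
      simp only [Finset.mem_univ, true_iff]
      exact em _
    · rw [Finset.disjoint_left]
      intro w h1 h2
      exact (hF w).1 h2 ((hG w).1 h1)
  obtain ⟨e, he⟩ : ∃ e : Sn k 3, e = ∏ w ∈ F, l w ^ (2 * M) := ⟨_, rfl⟩
  have hehom : e.IsHomogeneous (F.card * (2 * M)) := by
    rw [he]
    have h1 := MvPolynomial.IsHomogeneous.prod F (fun w => l w ^ (2 * M)) (fun _ => 1 * (2 * M))
      (fun w _ => (hlh w).pow (2 * M))
    rw [Finset.sum_const, smul_eq_mul, one_mul] at h1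
    exact h1
  have heq : e ∉ q := by
    rw [he]
    intro h1
    obtain ⟨w, hw, h2⟩ := (hprime.prod_mem_iff).1 h1
    exact (hl w ((hF w).1 hw)).1 (hprime.mem_of_pow_mem _ h2)
  have heF : ∀ w ∈ F, wact (latt k ρ₀) w e ∈ q ^ M := by
    intro w hw
    rw [he, map_prod]
    refine Ideal.mem_of_dvd _ (Finset.dvd_prod_of_mem _ hw) ?_
    rw [map_pow]
    exact Ideal.pow_le_pow_right (by omega) (Ideal.pow_mem_pow (hl w ((hF w).1 hw)).2 (2 * M))
  have heG : ∀ w ∈ G, wact (latt k ρ₀) w e - e ∈ q := by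
    intro w hw
    have hws := (hG w).1 hw
    have hst : ∀ s, wact (latt k ρ₀) w s ∈ q ↔ s ∈ q := hws
    obtain ⟨a, ha⟩ := hom_congr h.det hehom
    rw [← hqe] at ha
    have h1 := (hst _).2 ha
    have h2 : wact (latt k ρ₀) w (lin (cv k t₀)) ^ (F.card * (2 * M)) =
        lin (cv k t₀) ^ (F.card * (2 * M)) := by
      rw [wact, linAct_lin, latt_mulVec]
      rcases (stabi_sign hW ρ₀ q h).1 w hws with h3 | h3
      · rw [h3]
      · rw [h3]
        have h4 : lin (cv k (-t₀)) = -lin (cv k t₀) := by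
          have h5 : cv k (-t₀) = (-1 : k) • cv k t₀ := by
            funext i
            simp [cv]
          rw [h5, lin_smul, map_neg, map_one, neg_one_mul]
        rw [h4, Even.neg_pow]
        exact ⟨F.card * M, by ring⟩
    rw [map_sub, map_mul, map_pow, h2, MvPolynomial.algHom_C, MvPolynomial.algebraMap_eq] at h1
    have h3 := q.sub_mem h1 ha
    rwa [sub_sub_sub_cancel_right] at h3
  refine ⟨F.card * (2 * M), e, ∑ w ∈ G, wact (latt k ρ₀) w e, hehom, ?_, ?_⟩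
  · intro h1
    have h2 : ∑ w ∈ G, (wact (latt k ρ₀) w e - e) ∈ q := q.sum_mem heG
    rw [Finset.sum_sub_distrib, Finset.sum_const] at h2
    have h3 := q.sub_mem h1 h2
    rw [sub_sub_cancel, nsmul_eq_mul] at h3
    have hcard : (G.card : k) ≠ 0 := by
      intro h0
      apply hW
      have h4 : G.card = Nat.card (stabi (latt k ρ₀) q) := by
        rw [Nat.card_eq_fintype_card, Fintype.card_subtype]
        congr 1
        ext w
        rw [hG]
        simp
      obtain ⟨m, hm⟩ := Subgroup.card_subgroup_dvd_card (stabi (latt k ρ₀) q)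
      rw [hm, Nat.cast_mul, ← h4, h0, zero_mul]
    have h5 := q.mul_mem_left (MvPolynomial.C (G.card : k)⁻¹) h3
    have h6 : (G.card : Sn k 3) = MvPolynomial.C (G.card : k) := (map_natCast _ _).symm
    rw [h6, ← mul_assoc, ← map_mul, inv_mul_cancel₀ hcard, map_one, one_mul] at h5
    exact heq h5
  · intro y hy
    rw [trJ_coe]
    have h1 : ∑ v : W, linAct (latt k ρ₀ v : Matrix (Fin 3) (Fin 3) k) (e * y) =
        (∑ w ∈ G, wact (latt k ρ₀) w e) * y +
          ∑ w ∈ F, wact (latt k ρ₀) w e * wact (latt k ρ₀) w y := by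
      rw [hFG, Finset.sum_mul]
      congr 1
      · refine Finset.sum_congr rfl fun w hw => ?_
        rw [map_mul, hy w ((hG w).1 hw)]
      · refine Finset.sum_congr rfl fun w _ => ?_
        rw [map_mul]
    rw [h1, add_sub_cancel_left]
    exact (q ^ M).sum_mem fun w hw => (q ^ M).mul_mem_right _ (heF w hw)

/-- The transfer of a homogeneous polynomial is homogeneous. PROOF. `trJ_coe`, `linAct_hom`. -/
theorem trJ_hom (ρ₀ : W →* GL (Fin 3) ℤ) {s : Sn k 3} {d : ℕ} (hs : s.IsHomogeneous d) :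
    ((trJ (latt k ρ₀) s : invA (latt k ρ₀)) : Sn k 3).IsHomogeneous d := by
  have _ : Fintype W := Fintype.ofFinite W
  rw [trJ_coe]
  exact MvPolynomial.IsHomogeneous.sum _ _ _ fun w _ => linAct_hom _ hs

end MP8a
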