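import Pool.Agent.Lib_MP_8a48ad_gt.R3Sgn

/-! # Piece R3TWIST: twisting by a power of the coordinate of the line -/

set_option autoImplicit false

namespace MP8a

universe u

variable {k : Type u} [Field k] {W : Type*} [Group W] [Finite W]

/-- `y₂` can be made invariant under the stabiliser by a power of `lin t₀`. PROOF. If all `w ∈ stabi q` fix `y₂`: `j = 0`. Otherwise some `w₁` maps `y₂` to `- y₂ ≠ y₂`, so `w₁ ∉ inert q`, `w₁ t₀ = - t₀` (`stabi_sign`); for every `w ∈ stabi q`: if `w ∈ inert q` it fixes `t₀` (`LD.fix`) and `y₂`; if not, `w w₁ ∈ inert q` (it fixes `t₀`) and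
so `w y₂ = - y₂`, `w t₀ = - t₀`: `j = 1`. -/
theorem exists_twist (hW : (Nat.card W : k) ≠ 0) (ρ₀ : W →* GL (Fin 3) ℤ) (q : Ideal (Sn k 3))
    {t₀ c₁ c₂ : Fin 3 → ℤ} (h : LD k ρ₀ (inert (latt k ρ₀) q) t₀ c₁ c₂) {y : Sn k 3}
    (h1 : ∀ w ∈ stabi (latt k ρ₀) q, wact (latt k ρ₀) w y = y ∨ wact (latt k ρ₀) w y = -y)
    (h2 : ∀ w ∈ inert (latt k ρ₀) q, wact (latt k ρ₀) w y = y) :
    ∃ j : ℕ, ∀ w ∈ stabi (latt k ρ₀) q,
      wact (latt k ρ₀) w (lin (cv k t₀) ^ j * y) = lin (cv k t₀) ^ j * y := by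
  obtain ⟨hs1, hs2⟩ := stabi_sign hW ρ₀ q h
  by_cases hall : ∀ w ∈ stabi (latt k ρ₀) q, wact (latt k ρ₀) w y = y
  · exact ⟨0, fun w hw => by rw [pow_zero, one_mul]; exact hall w hw⟩
  · simp only [not_forall] at hall
    obtain ⟨w₁, hw₁, hy₁⟩ := hall
    have hy₁' : wact (latt k ρ₀) w₁ y = -y := (h1 w₁ hw₁).resolve_left hy₁
    have hw₁i : w₁ ∉ inert (latt k ρ₀) q := fun hh => hy₁ (h2 w₁ hh)
    have ht₁ : (ρ₀ w₁ : Matrix (Fin 3) (Fin 3) ℤ).mulVec t₀ = -t₀ :=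
      (hs1 w₁ hw₁).resolve_left fun hh => hw₁i (hs2 w₁ hw₁ hh)
    have hlin : ∀ w, wact (latt k ρ₀) w (lin (cv k t₀)) =
        lin (cv k ((ρ₀ w : Matrix (Fin 3) (Fin 3) ℤ).mulVec t₀)) := by
      intro w
      rw [wact, linAct_lin, latt_mulVec]
    refine ⟨1, fun w hw => ?_⟩
    rw [pow_one, map_mul]
    by_cases hwi : w ∈ inert (latt k ρ₀) q
    · rw [h2 w hwi, hlin, h.fix w hwi]
    · have ht : (ρ₀ w : Matrix (Fin 3) (Fin 3) ℤ).mulVec t₀ = -t₀ :=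
        (hs1 w hw).resolve_left fun hh => hwi (hs2 w hw hh)
      have hm : (ρ₀ (w * w₁) : Matrix (Fin 3) (Fin 3) ℤ).mulVec t₀ = t₀ := by
        rw [map_mul, Units.val_mul, ← Matrix.mulVec_mulVec, ht₁, Matrix.mulVec_neg, ht, neg_neg]
      have hi : w * w₁ ∈ inert (latt k ρ₀) q := hs2 _ (mul_mem hw hw₁) hm
      have hy : wact (latt k ρ₀) w y = -y := by
        have h3 := h2 _ hi
        rw [act_mul, hy₁', map_neg] at h3
        rw [← h3, neg_neg, h3]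
      have hc : cv k (-t₀) = -cv k t₀ := by
        funext i
        simp [cv]
      have hl : lin (-cv k t₀) = -lin (cv k t₀) := by
        have h3 := lin_sub 0 (cv k t₀)
        rw [lin_zero, zero_sub, zero_sub] at h3
        exact h3
      rw [hy, hlin, ht, hc, hl, neg_mul_neg]

end MP8a
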