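import Pool.Agent.Lib_MP_8a48ad_gt.R3YY
import Pool.Agent.Lib_MP_8a48ad_gt.R3Twist
import Pool.Agent.Lib_MP_8a48ad_gt.R3Trace
import Pool.Agent.Lib_MP_8a48ad_gt.R3Stab

/-! # Piece R3DET: two invariants at a line -/

set_option autoImplicit false

namespace MP8a

universe u

variable {k : Type u} [Field k] {W : Type*} [Group W] [Finite W]

/-- elements of `q (y₁, y₂)` -/
theorem r3det_mem_mul {R : Type*} [CommRing R] {q : Ideal R} {y₁ y₂ z : R}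
    (h : z ∈ q * Ideal.span {y₁, y₂}) : ∃ α ∈ q, ∃ β ∈ q, z = α * y₁ + β * y₂ := by
  rw [Ideal.span_insert, Ideal.mul_sup, Submodule.mem_sup] at h
  obtain ⟨a, ha, b, hb, hab⟩ := h
  obtain ⟨α, hα, hα'⟩ := Ideal.mem_mul_span_singleton.1 ha
  obtain ⟨β, hβ, hβ'⟩ := Ideal.mem_mul_span_singleton.1 hb
  exact ⟨α, hα, β, hβ, by rw [hα', hβ', hab]⟩

/-- PIECE R3DET. PROOF. `m`, `y₁`, `y₂` from `exists_yy`, `j` from `exists_twist`, `τ = lin t₀`, `D`, `e`, `g` from `exists_trace` for `M = m + 2`. `s₁ = trJ (e y₁)`, `s₂ = trJ (e τ^j y₂)` (homogeneous by `trJ_hom`). `q^{m+2} = q q^{m+1} ≤ q (y₁, y₂)`, so `s₁ - g y₁ = α₁ y₁ + β₁ y₂`, `s₂ - g τ^j y₂ = α₂ y₁ + β₂ y₂` with `α_i, β_i ∈ q`.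
`g' = (g + α₁)(g τ^j + β₂) - β₁ α₂ ≡ g² τ^j` modulo `q`, so `g' ∉ q` (`lin_not_mem`). `g' y₁ = (g τ^j + β₂) s₁ - β₁ s₂`, `g' y₂ = (g + α₁) s₂ - α₂ s₁`. -/
theorem exists_s₁s₂ (hW : (Nat.card W : k) ≠ 0) (ρ₀ : W →* GL (Fin 3) ℤ) (q : Ideal (Sn k 3))
    (hq : HPr (grS k 3) q) {t₀ c₁ c₂ : Fin 3 → ℤ} (h : LD k ρ₀ (inert (latt k ρ₀) q) t₀ c₁ c₂) :
    ∃ (s₁ s₂ : invA (latt k ρ₀)) (d₁ d₂ : ℕ) (g' : Sn k 3), (s₁ : Sn k 3).IsHomogeneous d₁ ∧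
      (s₂ : Sn k 3).IsHomogeneous d₂ ∧ (s₁ : Sn k 3) ∈ q ∧ (s₂ : Sn k 3) ∈ q ∧ g' ∉ q ∧
      ∀ a b : invA (latt k ρ₀), (a : Sn k 3) ∈ q → (b : Sn k 3) ∈ q →
        g' * ((a : Sn k 3) * (b : Sn k 3)) ∈ Ideal.span {(s₁ : Sn k 3), (s₂ : Sn k 3)} := by
  obtain ⟨m, y₁, y₂, hm, hy1h, hy2h, hy1q, hy2q, hi1, hi2, hi3, hpow, hsq⟩ :=
    exists_yy hW ρ₀ q hq h
  obtain ⟨j, hj⟩ := exists_twist hW ρ₀ q h hi2 hi3
  obtain ⟨D, e, g, heh, hgq, hg⟩ := exists_trace hW ρ₀ q hq h (m + 2)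
  set τ : Sn k 3 := lin (cv k t₀) with hτ
  have hprime : q.IsPrime := hq.prime
  have hτq : τ ∉ q := lin_not_mem h.det hq (lin_mem_of_esum hW ρ₀ q le_rfl h.sum1)
    (lin_mem_of_esum hW ρ₀ q le_rfl h.sum2)
  have hq2 : q ^ (m + 2) ≤ q * Ideal.span {y₁, y₂} := by
    rw [pow_succ']
    exact Ideal.mul_mono_right hpow
  have hq2' : q ^ (m + 2) ≤ q := Ideal.pow_le_self (by omega)
  have e1 := hg y₁ hi1
  have e2 := hg (τ ^ j * y₂) hj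
  obtain ⟨α₁, hα₁, β₁, hβ₁, e3⟩ := r3det_mem_mul (hq2 e1)
  obtain ⟨α₂, hα₂, β₂, hβ₂, e4⟩ := r3det_mem_mul (hq2 e2)
  set s₁ : invA (latt k ρ₀) := trJ (latt k ρ₀) (e * y₁) with hs₁
  set s₂ : invA (latt k ρ₀) := trJ (latt k ρ₀) (e * (τ ^ j * y₂)) with hs₂
  have f1 : (s₁ : Sn k 3) = (g + α₁) * y₁ + β₁ * y₂ := by
    linear_combination e3
  have f2 : (s₂ : Sn k 3) = α₂ * y₁ + (g * τ ^ j + β₂) * y₂ := by
    linear_combination e4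
  refine ⟨s₁, s₂, D + 2, D + (1 * j + m), (g + α₁) * (g * τ ^ j + β₂) - β₁ * α₂,
    trJ_hom ρ₀ (heh.mul hy1h), trJ_hom ρ₀ (heh.mul (((lin_hom _).pow j).mul hy2h)), ?_, ?_, ?_, ?_⟩
  · rw [f1]
    exact q.add_mem (q.mul_mem_left _ hy1q) (q.mul_mem_left _ hy2q)
  · rw [f2]
    exact q.add_mem (q.mul_mem_left _ hy1q) (q.mul_mem_left _ hy2q)
  · intro hmem
    have h1 : α₁ * (g * τ ^ j + β₂) + g * β₂ - β₁ * α₂ ∈ q :=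
      q.sub_mem (q.add_mem (q.mul_mem_right _ hα₁) (q.mul_mem_left _ hβ₂)) (q.mul_mem_left _ hα₂)
    have h2 : g * (g * τ ^ j) ∈ q := by
      have h3 := q.sub_mem hmem h1
      have h4 : (g + α₁) * (g * τ ^ j + β₂) - β₁ * α₂ -
          (α₁ * (g * τ ^ j + β₂) + g * β₂ - β₁ * α₂) = g * (g * τ ^ j) := by ring
      rwa [h4] at h3
    rcases hprime.mem_or_mem h2 with h3 | h3
    · exact hgq h3
    · rcases hprime.mem_or_mem h3 with h4 | h4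
      · exact hgq h4
      · exact hτq (hprime.mem_of_pow_mem j h4)
  · intro a b ha hb
    have h1 := hsq a ha b hb (fun w _ => a.2 w) (fun w _ => b.2 w)
    obtain ⟨c, d, hcd⟩ := Ideal.mem_span_pair.1 h1
    rw [Ideal.mem_span_pair]
    refine ⟨c * (g * τ ^ j + β₂) - d * α₂, d * (g + α₁) - c * β₁, ?_⟩
    rw [← hcd, f1, f2]
    ring

end MP8a
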