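import Pool.Agent.Lib_MP_8a48ad_gt.R3Int

/-! # Piece R3DIM: inertia groups in rank three -/

set_option autoImplicit false

namespace MP8a

universe u

variable {k : Type u} [Field k] {W : Type*} [Group W] [Finite W]

private noncomputable def rd_linHom : (Fin 3 → k) →+ Sn k 3 where
  toFun := lin
  map_zero' := lin_zero
  map_add' := lin_add

private theorem rd_cv_mulVec (M : Matrix (Fin 3) (Fin 3) ℤ) (c : Fin 3 → ℤ) :
    cv k (M.mulVec c) = ((Int.castRingHom k).mapMatrix M).mulVec (cv k c) := by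
  funext i
  simp [cv, Matrix.mulVec, dotProduct]

private theorem rd_cv_single (j : Fin 3) : cv k (Pi.single j (1 : ℤ)) = Pi.single j (1 : k) := by
  funext i
  by_cases h : i = j
  · subst h
    simp [cv]
  · simp [cv, h]

/-- the ideal of all polynomials without constant term -/
private theorem rd_plus {q : Ideal (Sn k 3)} (hX : ∀ j, (MvPolynomial.X j : Sn k 3) ∈ q) {a : Sn k 3}
    (ha : (grS k 3).c 0 a = 0) : a ∈ q := by
  have h1 : a ∈ Ideal.span (MvPolynomial.X '' (Set.univ : Set (Fin 3)) : Set (Sn k 3)) := by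
    rw [MvPolynomial.mem_ideal_span_X_image]
    intro m hm
    by_contra hcon
    push Not at hcon
    have hm0 : m = 0 := by
      ext i
      exact hcon i (Set.mem_univ i)
    rw [grS_zero] at ha
    have h2 : MvPolynomial.constantCoeff a = 0 := by
      have h3 := MvPolynomial.C_injective (Fin 3) k (ha.trans (MvPolynomial.C_0).symm)
      exact h3
    rw [MvPolynomial.mem_support_iff, hm0] at hm
    exact hm h2
  refine (Ideal.span_le.2 ?_) h1
  rintro _ ⟨j, -, rfl⟩
  exact hX j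

/-- linear relation from a vanishing determinant -/
private theorem rd_rel {t α w : Fin 3 → k} (h : (Matrix.of ![t, α, w]).det = 0) :
    ∃ a b c : k, ¬ (a = 0 ∧ b = 0 ∧ c = 0) ∧ a • t + b • α + c • w = 0 := by
  obtain ⟨v, hv, h1⟩ := Matrix.exists_vecMul_eq_zero_iff.2 h
  refine ⟨v 0, v 1, v 2, ?_, ?_⟩
  · rintro ⟨h2, h3, h4⟩
    apply hv
    funext i
    fin_cases i
    · exact h2
    · exact h3
    · exact h4
  · funext i
    have h2 := congrFun h1 i
    simp only [Matrix.vecMul, dotProduct, Fin.sum_univ_three, Matrix.of_apply, Matrix.cons_val_zero,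
      Matrix.cons_val_one, Matrix.cons_val_two, Matrix.head_cons, Matrix.tail_cons, Pi.zero_apply,
      Matrix.cons_val] at h2
    simp only [Pi.add_apply, Pi.smul_apply, smul_eq_mul, Pi.zero_apply]
    exact h2

/-- The inertia group `Γ` of a homogeneous prime `q` which does not contain all polynomials without constant term: either `Γ` acts through (at most) one reflection (`α`), or `Γ` has a line.
PROOF. `e = esum ρ₀ Γ`, `f = |Γ| - e` (integral matrices), `e² = |Γ| e`, `e f = f e = 0`, `γ e = e γ = e`; bars denote images in matrices over `k`. `ē ≠ 0`: otherwise `|Γ| lin c = ∑_γ (lin c - γ lin c) ∈ q` for all `c`, so all linear forms and all polynomials without constant term are in `q`.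
If for some `j₀, j₁, j₂` the determinant of the images of `t₀ = e e_{j₀}`, `c₁ = f e_{j₁}`, `c₂ = f e_{j₂}` (`e_j` the standard basis) is not zero in `k`, we have `LD`. Otherwise `det (ē x, f̄ y, f̄ z) = 0` for all `x, y, z ∈ k³` (multilinearity). Choose `x` with `ē x ≠ 0`. If `f̄ = 0` take `α = 0`; otherwise `α = f̄ y ≠ 0` for some `y`, and
for every `z` there is a linear relation `a ē x + b α + c f̄ z = 0`; applying `ē` gives `a = 0`, so `c ≠ 0` and `f̄ z ∈ k α`. Finally `|Γ| (γ c - c) = (γ - 1)(ē c + f̄ c) = f̄ (γ c - c) ∈ k α`. -/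
theorem dim_cases (hW : (Nat.card W : k) ≠ 0) (ρ₀ : W →* GL (Fin 3) ℤ) (q : Ideal (Sn k 3))
    (hq : HPr (grS k 3) q) :
    (∃ α : Fin 3 → k, ∀ γ ∈ inert (latt k ρ₀) q, ∀ c, ∃ x : k,
      (latt k ρ₀ γ : Matrix (Fin 3) (Fin 3) k).mulVec c - c = x • α) ∨
    ∃ t₀ c₁ c₂ : Fin 3 → ℤ, LD k ρ₀ (inert (latt k ρ₀) q) t₀ c₁ c₂ := by
  classical
  obtain ⟨Γ, hΓ⟩ : ∃ Γ, Γ = inert (latt k ρ₀) q := ⟨_, rfl⟩
  rw [← hΓ]
  obtain ⟨N, hN⟩ : ∃ N : ℕ, N = Nat.card Γ := ⟨_, rfl⟩
  have hNk : (N : k) ≠ 0 := by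
    obtain ⟨m, hm⟩ := Subgroup.card_subgroup_dvd_card Γ
    intro h0
    apply hW
    rw [hm, Nat.cast_mul, ← hN, h0, zero_mul]
  let φ : Matrix (Fin 3) (Fin 3) ℤ →+* Matrix (Fin 3) (Fin 3) k := (Int.castRingHom k).mapMatrix
  have hG : ∀ γ : W, (latt k ρ₀ γ : Matrix (Fin 3) (Fin 3) k) = φ (ρ₀ γ : Matrix (Fin 3) (Fin 3) ℤ) :=
    fun γ => rfl
  obtain ⟨e, he⟩ : ∃ e, e = esum ρ₀ Γ := ⟨_, rfl⟩
  obtain ⟨f, hf⟩ : ∃ f : Matrix (Fin 3) (Fin 3) ℤ, f = (N : ℤ) • (1 : Matrix (Fin 3) (Fin 3) ℤ) - e := ⟨_, rfl⟩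
  obtain ⟨E, hE⟩ : ∃ E, E = φ e := ⟨_, rfl⟩
  obtain ⟨F, hF⟩ : ∃ F, F = φ f := ⟨_, rfl⟩
  have hee : e * e = (N : ℤ) • e := by rw [he, esum_sq, hN]
  have hef : e * f = 0 := by
    rw [hf, mul_sub, hee, mul_smul_comm, mul_one, sub_self]
  have hFE : F = (N : k) • (1 : Matrix (Fin 3) (Fin 3) k) - E := by
    rw [hF, hf, map_sub, map_zsmul, map_one, hE, ← Int.cast_smul_eq_zsmul k, Int.cast_natCast]
  have hEE : E * E = (N : k) • E := by
    rw [hE, ← map_mul, hee, map_zsmul, ← Int.cast_smul_eq_zsmul k, Int.cast_natCast]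
  have hEF : E * F = 0 := by
    rw [hE, hF, ← map_mul, hef, map_zero]
  have hEG : ∀ γ ∈ Γ, E * (latt k ρ₀ γ : Matrix (Fin 3) (Fin 3) k) = E := by
    intro γ hγ
    rw [hG, hE, ← map_mul, he, (esum_mul ρ₀ Γ hγ).2]
  have hEsum : E = ∑ γ ∈ (Set.toFinite (Γ : Set W)).toFinset, (latt k ρ₀ γ : Matrix (Fin 3) (Fin 3) k) := by
    rw [hE, he, esum, map_sum]
    rfl
  -- `E ≠ 0`
  have hE0 : E ≠ 0 := by
    intro h0
    have hlin : ∀ c : Fin 3 → k, lin c ∈ q := by
      intro c
      have h1 : ∑ γ ∈ (Set.toFinite (Γ : Set W)).toFinset, (wact (latt k ρ₀) γ (lin c) - lin c) ∈ q := by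
        refine Ideal.sum_mem _ fun γ hγ => ?_
        rw [Set.Finite.mem_toFinset] at hγ
        have h2 : γ ∈ inert (latt k ρ₀) q := by
          rw [← hΓ]
          exact hγ
        exact h2 (lin c)
      have h3 : ∑ γ ∈ (Set.toFinite (Γ : Set W)).toFinset, wact (latt k ρ₀) γ (lin c) = 0 := by
        have h4 : ∀ γ ∈ (Set.toFinite (Γ : Set W)).toFinset, wact (latt k ρ₀) γ (lin c) =
            rd_linHom ((latt k ρ₀ γ : Matrix (Fin 3) (Fin 3) k).mulVec c) := fun γ _ => linAct_lin _ c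
        rw [Finset.sum_congr rfl h4, ← map_sum, ← Matrix.sum_mulVec, ← hEsum, h0, Matrix.zero_mulVec, map_zero]
      have hcard : (Set.toFinite (Γ : Set W)).toFinset.card = N := by
        rw [hN]
        exact (Nat.card_eq_card_finite_toFinset _).symm
      rw [Finset.sum_sub_distrib, h3, zero_sub, Finset.sum_const, hcard, neg_mem_iff] at h1
      have h5 : lin c = MvPolynomial.C ((N : k)⁻¹) * (N • lin c) := by
        rw [nsmul_eq_mul, ← mul_assoc, ← map_natCast (MvPolynomial.C : k →+* Sn k 3), ← map_mul,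
          inv_mul_cancel₀ hNk, map_one, one_mul]
      rw [h5]
      exact q.mul_mem_left _ h1
    obtain ⟨a, ha, ha0⟩ := hq.plus
    refine ha (rd_plus (fun j => ?_) ha0)
    rw [← lin_single]
    exact hlin _
  by_cases hcase : ∃ j₀ j₁ j₂ : Fin 3, (Matrix.of ![E.mulVec (Pi.single j₀ 1), F.mulVec (Pi.single j₁ 1),
      F.mulVec (Pi.single j₂ 1)]).det ≠ 0
  · right
    obtain ⟨j₀, j₁, j₂, hdet⟩ := hcase
    refine ⟨e.mulVec (Pi.single j₀ 1), f.mulVec (Pi.single j₁ 1), f.mulVec (Pi.single j₂ 1), ?_, ?_, ?_, ?_⟩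
    · intro γ hγ
      rw [Matrix.mulVec_mulVec, he, (esum_mul ρ₀ Γ hγ).1]
    · rw [← he, Matrix.mulVec_mulVec, hef, Matrix.zero_mulVec]
    · rw [← he, Matrix.mulVec_mulVec, hef, Matrix.zero_mulVec]
    · rw [rd_cv_mulVec, rd_cv_mulVec, rd_cv_mulVec, rd_cv_single, rd_cv_single, rd_cv_single]
      rw [hE, hF] at hdet
      exact hdet
  · left
    push Not at hcase
    -- a column of `E` which is not zero
    obtain ⟨j₀, hj₀⟩ : ∃ j₀, E.mulVec (Pi.single j₀ 1) ≠ 0 := by
      by_contra hcon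
      push Not at hcon
      apply hE0
      ext i j
      have h1 := congrFun (hcon j) i
      rw [Matrix.mulVec_single_one] at h1
      exact h1
    have hcol : ∃ α : Fin 3 → k, ∀ j, ∃ x : k, F.mulVec (Pi.single j 1) = x • α := by
      by_cases hF0 : ∀ j, F.mulVec (Pi.single j 1) = 0
      · exact ⟨0, fun j => ⟨0, by rw [hF0 j, smul_zero]⟩⟩
      · push Not at hF0
        obtain ⟨j₁, hj₁⟩ := hF0
        refine ⟨F.mulVec (Pi.single j₁ 1), fun j => ?_⟩
        obtain ⟨a, b, c, habc, hrel⟩ := rd_rel (hcase j₀ j₁ j)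
        have h1 := congrArg E.mulVec hrel
        rw [Matrix.mulVec_add, Matrix.mulVec_add, Matrix.mulVec_smul, Matrix.mulVec_smul, Matrix.mulVec_smul,
          Matrix.mulVec_mulVec, Matrix.mulVec_mulVec, Matrix.mulVec_mulVec, hEE, hEF, Matrix.zero_mulVec,
          Matrix.zero_mulVec, smul_zero, smul_zero, add_zero, add_zero, Matrix.mulVec_zero,
          Matrix.smul_mulVec] at h1
        have ha : a = 0 := by
          rw [smul_eq_zero, smul_eq_zero] at h1
          rcases h1 with h1 | h1 | h1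
          · exact h1
          · exact absurd h1 hNk
          · exact absurd h1 hj₀
        rw [ha, zero_smul, zero_add] at hrel
        have hc : c ≠ 0 := by
          rintro rfl
          rw [zero_smul, add_zero, smul_eq_zero] at hrel
          rcases hrel with hb | hb
          · exact habc ⟨ha, hb, rfl⟩
          · exact hj₁ hb
        refine ⟨-(c⁻¹ * b), ?_⟩
        have h2 : c • F.mulVec (Pi.single j 1) = -(b • F.mulVec (Pi.single j₁ 1)) :=
          eq_neg_of_add_eq_zero_right hrel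
        have h3 := congrArg (fun v => c⁻¹ • v) h2
        simp only [smul_smul, inv_mul_cancel₀ hc, one_smul, smul_neg] at h3
        rw [h3, neg_smul]
    obtain ⟨α, hα⟩ := hcol
    refine ⟨α, fun γ hγ c => ?_⟩
    obtain ⟨v, hv⟩ : ∃ v, v = (latt k ρ₀ γ : Matrix (Fin 3) (Fin 3) k).mulVec c - c := ⟨_, rfl⟩
    rw [← hv]
    have hEv : E.mulVec v = 0 := by
      rw [hv, Matrix.mulVec_sub, Matrix.mulVec_mulVec, hEG γ hγ, sub_self]
    have hFv : F.mulVec v = (N : k) • v := by
      rw [hFE, Matrix.sub_mulVec, hEv, sub_zero, Matrix.smul_mulVec, Matrix.one_mulVec]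
    choose x hx using hα
    have hsum : F.mulVec v = (∑ j, v j * x j) • α := by
      have h1 : v = ∑ j, v j • (Pi.single j (1 : k) : Fin 3 → k) := by
        funext i
        simp [Finset.sum_apply, Pi.single_apply]
      conv_lhs => rw [h1]
      rw [Matrix.mulVec_sum, Finset.sum_smul]
      refine Finset.sum_congr rfl fun j _ => ?_
      rw [Matrix.mulVec_smul, hx, smul_smul]
    refine ⟨(N : k)⁻¹ * ∑ j, v j * x j, ?_⟩
    rw [mul_smul, ← hsum, hFv, smul_smul, inv_mul_cancel₀ hNk, one_smul]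

end MP8a
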