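import Pool.Agent.Lib_MP_8a48ad_gt.R3Defs

/-! # Piece R3FDH: finite dimensional cohomology, degree by degree -/

set_option autoImplicit false

namespace MP8a

universe u

/-- LINEAR ALGEBRA. `V ≤ P`, `φ : P → M`, `φ(V) ≤ F + C` with `F` finite dimensional, and the elements `v ∈ V` with `φ v ∈ C` are in `F' + B` with `F'` finite dimensional.
Then `V ≤ F'' + B` with `F''` finite dimensional. PROOF. The image of `V` in `M / C` is finite dimensional (it is contained in `(F + C) / C`); choose finitely many elements of `V` whose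
images form a basis; `F'' = F' +` their span. -/
theorem la_fd {k P M : Type u} [Field k] [AddCommGroup P] [Module k P] [AddCommGroup M] [Module k M]
    (V B : Submodule k P) (φ : P →ₗ[k] M) (C F : Submodule k M) (hF : F.FG) (F' : Submodule k P)
    (hF' : F'.FG) (h1 : ∀ v ∈ V, φ v ∈ F ⊔ C) (h2 : ∀ v ∈ V, φ v ∈ C → v ∈ F' ⊔ B) :
    ∃ F'' : Submodule k P, F''.FG ∧ V ≤ F'' ⊔ B := by
  have hWle : V.map (C.mkQ ∘ₗ φ) ≤ F.map C.mkQ := by
    rintro _ ⟨v, hv, rfl⟩
    obtain ⟨f, hf, c, hc, hfc⟩ := Submodule.mem_sup.1 (h1 v hv)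
    refine ⟨f, hf, ?_⟩
    rw [LinearMap.comp_apply, ← hfc, map_add]
    have h0 : C.mkQ c = 0 := by
      rw [Submodule.mkQ_apply, Submodule.Quotient.mk_eq_zero]
      exact hc
    rw [h0, add_zero]
  have hFM : (F.map C.mkQ).FG := hF.map C.mkQ
  have : Module.Finite k (F.map C.mkQ) := Module.Finite.iff_fg.2 hFM
  have : Module.Finite k (V.map (C.mkQ ∘ₗ φ)) := by
    refine Module.Finite.of_injective (Submodule.inclusion hWle) (Submodule.inclusion_injective hWle)
  let T : V →ₗ[k] (V.map (C.mkQ ∘ₗ φ)) :=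
    ((C.mkQ ∘ₗ φ) ∘ₗ V.subtype).codRestrict _ (fun v => Submodule.mem_map_of_mem v.2)
  have hT : LinearMap.range T = ⊤ := by
    rw [LinearMap.range_eq_top]
    rintro ⟨_, v, hv, rfl⟩
    exact ⟨⟨v, hv⟩, rfl⟩
  obtain ⟨s, hs⟩ := LinearMap.exists_rightInverse_of_surjective T hT
  refine ⟨F' ⊔ LinearMap.range (V.subtype ∘ₗ s), ?_, ?_⟩
  · exact hF'.sup (Module.Finite.iff_fg.1 inferInstance)
  · intro v hv
    have h3 : T (⟨v, hv⟩ - s (T ⟨v, hv⟩)) = 0 := by
      rw [map_sub]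
      have h4 : T (s (T ⟨v, hv⟩)) = T ⟨v, hv⟩ := LinearMap.congr_fun hs (T ⟨v, hv⟩)
      rw [h4, sub_self]
    have h5 : φ (v - (s (T ⟨v, hv⟩) : V).1) ∈ C := by
      have h6 := congrArg Subtype.val h3
      change C.mkQ (φ (v - (s (T ⟨v, hv⟩) : V).1)) = 0 at h6
      rw [Submodule.mkQ_apply, Submodule.Quotient.mk_eq_zero] at h6
      exact h6
    have h7 := h2 _ (V.sub_mem hv (s (T ⟨v, hv⟩)).2) h5
    have h8 : v = (v - (s (T ⟨v, hv⟩) : V).1) + (s (T ⟨v, hv⟩) : V).1 := by abel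
    rw [h8]
    refine Submodule.add_mem _ ?_ ?_
    · exact sup_le_sup_right le_sup_left B h7
    · exact Submodule.mem_sup_left (Submodule.mem_sup_right ⟨T ⟨v, hv⟩, rfl⟩)

variable {k : Type u} [Field k] {R : Type u} [CommRing R] [Algebra k R] {GR : Gr R}

/-- the vector space underlying a DG `R`-module -/
@[reducible] def kV (k : Type u) [Field k] [Algebra k R] (M : DGM GR) : Module k M.X :=
  Module.compHom M.X (algebraMap k R)

/-- `FDj` with subspaces. -/
theorem FDj_iff (M : DGM GR) (j : ℤ) : FDj k M j ↔ letI := kV k M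
    ∃ F : Submodule k M.X, F.FG ∧ ∀ x, M.pr j x = x → M.d x = 0 → ∃ y, x - M.d y ∈ F := by
  let _ := kV k M
  constructor
  · rintro ⟨l, z, hz⟩
    refine ⟨Submodule.span k (Set.range z), Submodule.fg_span (Set.finite_range z), fun x hx hdx => ?_⟩
    obtain ⟨y, c, hc⟩ := hz x hx hdx
    refine ⟨y, ?_⟩
    rw [Submodule.mem_span_range_iff_exists_fun]
    refine ⟨c, ?_⟩
    rw [hc, add_sub_cancel_left]
    rfl
  · rintro ⟨F, hF, h⟩
    obtain ⟨l, z, hz⟩ := Submodule.fg_iff_exists_fin_generating_family.1 hF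
    refine ⟨l, z, fun x hx hdx => ?_⟩
    obtain ⟨y, hy⟩ := h x hx hdx
    rw [← hz, Submodule.mem_span_range_iff_exists_fun] at hy
    obtain ⟨c, hc⟩ := hy
    refine ⟨y, c, ?_⟩
    rw [← add_sub_cancel (M.d y) x, ← hc]
    rfl

end MP8a
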