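import Pool.Agent.Lib_MP_8a48ad_gt.R3Fdh

/-! # Piece R3FDH2: finite dimensional cohomology and finite dimensional cohomology in each degree -/

set_option autoImplicit false

namespace MP8a

universe u

/-- A subspace `Z` contained in the sum of `B` and a finite dimensional space is contained in the sum of `B` and the span of
finitely many elements of `Z`. -/
theorem fdh2_choose {k V : Type u} [Field k] [AddCommGroup V] [Module k V] (Z B : Submodule k V) {l : ℕ}
    (z : Fin l → V) (h : ∀ x ∈ Z, ∃ b ∈ B, ∃ c : Fin l → k, x = b + ∑ i, c i • z i) :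
    ∃ (m : ℕ) (w : Fin m → V), (∀ i, w i ∈ Z) ∧
      ∀ x ∈ Z, ∃ b ∈ B, ∃ c : Fin m → k, x = b + ∑ i, c i • w i := by
  have hS : (Submodule.span k (Set.range fun i => B.mkQ (z i))).FG :=
    Submodule.fg_span (Set.finite_range _)
  have hno : IsNoetherian k (Submodule.span k (Set.range fun i => B.mkQ (z i))) :=
    isNoetherian_of_fg_of_noetherian _ hS
  have hle : Z.map B.mkQ ≤ Submodule.span k (Set.range fun i => B.mkQ (z i)) := by
    rintro _ ⟨x, hx, rfl⟩
    obtain ⟨b, hb, c, rfl⟩ := h x hx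
    rw [map_add, map_sum]
    have hb0 : B.mkQ b = 0 := by
      rw [Submodule.mkQ_apply, Submodule.Quotient.mk_eq_zero]
      exact hb
    rw [hb0, zero_add]
    refine Submodule.sum_mem _ fun i _ => ?_
    rw [map_smul]
    exact Submodule.smul_mem _ _ (Submodule.subset_span ⟨i, rfl⟩)
  have hfg : (Z.map B.mkQ).FG := isNoetherian_submodule.1 hno _ hle
  obtain ⟨m, s, hs⟩ := Submodule.fg_iff_exists_fin_generating_family.1 hfg
  have hmem : ∀ i, ∃ x ∈ Z, B.mkQ x = s i := by
    intro i
    have h1 : s i ∈ Z.map B.mkQ := by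
      rw [← hs]
      exact Submodule.subset_span ⟨i, rfl⟩
    obtain ⟨x, hx, hxs⟩ := h1
    exact ⟨x, hx, hxs⟩
  choose w hw hws using hmem
  refine ⟨m, w, hw, fun x hx => ?_⟩
  have h2 : B.mkQ x ∈ Submodule.span k (Set.range s) := by
    rw [hs]
    exact ⟨x, hx, rfl⟩
  rw [Submodule.mem_span_range_iff_exists_fun] at h2
  obtain ⟨c, hc⟩ := h2
  refine ⟨x - ∑ i, c i • w i, ?_, c, ?_⟩
  · rw [← Submodule.Quotient.mk_eq_zero B, ← Submodule.mkQ_apply, map_sub, map_sum, ← hc, sub_eq_zero]
    refine Finset.sum_congr rfl fun i _ => ?_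
    rw [map_smul, hws]
  · rw [sub_add_cancel]

variable {k : Type u} [Field k] {R : Type u} [CommRing R] [Algebra k R] {GR : Gr R}

theorem fdh2_pr_k (hk : ∀ c : k, GR.c 0 (algebraMap k R c) = algebraMap k R c) (M : DGM GR) (j : ℤ)
    (c : k) (x : M.X) : M.pr j (algebraMap k R c • x) = algebraMap k R c • M.pr j x := by
  have h := M.pr_smul' (hk c) j x
  rw [sub_zero] at h
  exact h

/-- the range of the differential as a subspace -/
def fdh2B (k : Type u) [Field k] [Algebra k R] (M : DGM GR) : letI := kV k M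
    Submodule k M.X :=
  letI := kV k M
  { carrier := {x | ∃ y, M.d y = x}
    add_mem' := by
      rintro _ _ ⟨y, rfl⟩ ⟨z, rfl⟩
      exact ⟨y + z, map_add _ _ _⟩
    zero_mem' := ⟨0, map_zero _⟩
    smul_mem' := by
      rintro c _ ⟨y, rfl⟩
      exact ⟨algebraMap k R c • y, map_smul _ _ _⟩ }

/-- the cycles as a subspace -/
def fdh2Z (k : Type u) [Field k] [Algebra k R] (M : DGM GR) : letI := kV k M
    Submodule k M.X :=
  letI := kV k M
  { carrier := {x | M.d x = 0}
    add_mem' := by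
      intro x y hx hy
      change M.d (x + y) = 0
      rw [map_add, (show M.d x = 0 from hx), (show M.d y = 0 from hy), add_zero]
    zero_mem' := map_zero _
    smul_mem' := by
      intro c x hx
      change M.d (algebraMap k R c • x) = 0
      rw [map_smul, (show M.d x = 0 from hx), smul_zero] }

/-- the homogeneous elements as a subspace -/
def fdh2P (hk : ∀ c : k, GR.c 0 (algebraMap k R c) = algebraMap k R c) (M : DGM GR) (j : ℤ) :
    letI := kV k M
    Submodule k M.X :=
  letI := kV k M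
  { carrier := {x | M.pr j x = x}
    add_mem' := by
      intro x y hx hy
      change M.pr j (x + y) = x + y
      rw [map_add, (show M.pr j x = x from hx), (show M.pr j y = y from hy)]
    zero_mem' := map_zero _
    smul_mem' := by
      intro c x hx
      change M.pr j (algebraMap k R c • x) = algebraMap k R c • x
      rw [fdh2_pr_k hk, (show M.pr j x = x from hx)] }

/-- The `z i` in `FDj` can be chosen homogeneous cycles of degree `j`. `hk`: the elements of `k` have degree `0`. PROOF. The space `Z` of homogeneous cycles of degree `j` satisfies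
`Z ≤ F + B`, `B = range d`, so `Z / (Z ∩ B)` is finite dimensional; choose representatives of a basis. -/
theorem FDj.hom (hk : ∀ c : k, GR.c 0 (algebraMap k R c) = algebraMap k R c) {M : DGM GR} {j : ℤ}
    (h : FDj k M j) :
    ∃ (l : ℕ) (z : Fin l → M.X), (∀ i, M.pr j (z i) = z i) ∧ (∀ i, M.d (z i) = 0) ∧
      ∀ x, M.pr j x = x → M.d x = 0 →
        ∃ (y : M.X) (c : Fin l → k), x = M.d y + ∑ i, algebraMap k R (c i) • z i := by
  letI := kV k M
  obtain ⟨l, z, hz⟩ := h
  obtain ⟨m, w, hw, hc⟩ := fdh2_choose (fdh2P hk M j ⊓ fdh2Z k M) (fdh2B k M) z (by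
    intro x hx
    obtain ⟨y, c, hy⟩ := hz x hx.1 hx.2
    exact ⟨M.d y, ⟨y, rfl⟩, c, hy⟩)
  refine ⟨m, w, fun i => (hw i).1, fun i => (hw i).2, fun x hx hdx => ?_⟩
  obtain ⟨b, ⟨y, rfl⟩, c, hy⟩ := hc x ⟨hx, hdx⟩
  exact ⟨y, c, hy⟩

/-- PROOF. Take all the `z i` of `FDj.hom` for `a ≤ j < b`; a cycle is the sum of its components, which are cycles (`DGM.pr_d`). -/
theorem FDH_of_FDj (hk : ∀ c : k, GR.c 0 (algebraMap k R c) = algebraMap k R c) {M : DGM GR}
    (h : ∀ j, FDj k M j) {a b : ℤ} (h0 : ∀ j, (j < a ∨ b ≤ j) → HV M j) : FDH k M := by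
  letI := kV k M
  choose l z hzp hzd hz using fun j => (h j).hom hk
  have hfin : (⋃ j ∈ Finset.Ico a b, Set.range (z j)).Finite :=
    Set.Finite.biUnion (Finset.finite_toSet _) fun j _ => Set.finite_range _
  have hF : (Submodule.span k (⋃ j ∈ Finset.Ico a b, Set.range (z j))).FG := Submodule.fg_span hfin
  have hFZ : Submodule.span k (⋃ j ∈ Finset.Ico a b, Set.range (z j)) ≤ fdh2Z k M := by
    rw [Submodule.span_le]
    intro x hx
    rw [Set.mem_iUnion₂] at hx
    obtain ⟨j, _, i, rfl⟩ := hx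
    exact hzd j i
  have key : ∀ j x, M.pr j x = x → M.d x = 0 →
      x ∈ fdh2B k M ⊔ Submodule.span k (⋃ j ∈ Finset.Ico a b, Set.range (z j)) := by
    intro j x hx hdx
    by_cases hj : j < a ∨ b ≤ j
    · exact Submodule.mem_sup_left (h0 j hj x hx hdx)
    · obtain ⟨y, c, hy⟩ := hz j x hx hdx
      rw [hy]
      refine Submodule.add_mem_sup ⟨y, rfl⟩ ?_
      refine Submodule.sum_mem _ fun i _ => ?_
      refine Submodule.smul_mem _ (c i) (Submodule.subset_span ?_)
      rw [Set.mem_iUnion₂]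
      exact ⟨j, Finset.mem_Ico.2 (by omega), i, rfl⟩
  obtain ⟨m, s, hs⟩ := Submodule.fg_iff_exists_fin_generating_family.1 hF
  refine ⟨m, s, fun i => ?_, fun x hx => ?_⟩
  · have h1 : s i ∈ fdh2Z k M := by
      apply hFZ
      rw [← hs]
      exact Submodule.subset_span ⟨i, rfl⟩
    exact h1
  · have h2 : x ∈ fdh2B k M ⊔ Submodule.span k (⋃ j ∈ Finset.Ico a b, Set.range (z j)) := by
      obtain ⟨t, ht⟩ := M.fin x
      rw [← ht]
      refine Submodule.sum_mem _ fun j _ => key j _ (M.pr_self j x) ?_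
      rw [← M.pr_d, hx, map_zero]
    rw [← hs, Submodule.mem_sup] at h2
    obtain ⟨_, ⟨y, rfl⟩, f, hf, hyf⟩ := h2
    rw [Submodule.mem_span_range_iff_exists_fun] at hf
    obtain ⟨c, hc⟩ := hf
    refine ⟨y, c, ?_⟩
    rw [← hyf, ← hc]
    rfl

/-- PROOF. The components of the finitely many cycles `z i` vanish in large degrees. (`k` is in degree `0`: `DGM.pr_smul'`.) -/
theorem HV_of_FDH (hk : ∀ c : k, GR.c 0 (algebraMap k R c) = algebraMap k R c) {M : DGM GR}
    (h : FDH k M) : ∃ b : ℤ, ∀ j, b ≤ j → HV M j := by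
  classical
  obtain ⟨l, z, _, hz⟩ := h
  choose s hs _ using fun i => M.exists_support (z i)
  obtain ⟨b, hb⟩ := (Finset.univ.biUnion s).bddAbove
  refine ⟨b + 1, fun j hj x hx hdx => ?_⟩
  obtain ⟨y, c, hy⟩ := hz x hdx
  refine ⟨M.pr (j - 1) y, ?_⟩
  have h1 : M.pr j x = M.pr j (M.d y) + ∑ i, M.pr j (algebraMap k R (c i) • z i) := by
    rw [← map_sum, ← map_add, ← hy]
  have h2 : ∑ i, M.pr j (algebraMap k R (c i) • z i) = 0 := by
    refine Finset.sum_eq_zero fun i _ => ?_
    rw [fdh2_pr_k hk, hs i j, smul_zero]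
    intro hji
    have h3 := hb (Finset.mem_coe.2 (Finset.mem_biUnion.2 ⟨i, Finset.mem_univ i, hji⟩))
    omega
  have h4 := M.pr_d (j - 1) y
  rw [sub_add_cancel] at h4
  rw [hx, h2, add_zero, h4] at h1
  exact h1.symm

end MP8a
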