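import Pool.Agent.Lib_MP_8a48ad_gt.R3Cmp

/-! # Piece R3FGC: comparison of DG modules with the same cohomology in large degrees; finitely generated cohomology -/

set_option autoImplicit false

namespace MP8a

universe u

variable {k : Type u} [Field k] {n : ℕ} {R : Type u} [CommRing R] [Algebra k R]
  [Algebra R (Sn k n)] {GR : Gr R}

/-- PROOF. The cone of `f` has finite dimensional cohomology (`FDj_cone`, `HV_cone`, `HV_cone'`, `FDH_of_FDj`), so it is in `T` (`thick_of_FDH`); exact sequence
`0 → N → cone f → M[1] → 0` (`isSES_cone`), `hT.ses1`, `hT.ses3`, `hT.sh`, `IsThick.of_sh`. -/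
theorem thick_iff_of_HIs (hS : Setup k n GR) {T : DGM GR → Prop} (hT : IsThick T)
    (hk : T (kM hS)) {M N : DGM GR} {f : M.X →ₗ[R] N.X} (hf : IsMor M N 0 f) (hM : CFD k M)
    (hN : CFD k N) {m : ℤ} (h : HIs M N f m) : T M ↔ T N := by
  obtain ⟨⟨a, ha⟩, hM⟩ := hM
  obtain ⟨⟨b, hb⟩, hN⟩ := hN
  have hC : T (M.cone N f hf) := by
    refine thick_of_FDH hS hT hk ?_
    refine FDH_of_FDj hS.c_algebraMap (fun j => FDj_cone hS.c_algebraMap hf (hM (j + 1)) (hN j))
      (a := min (a - 1) b) (b := m) ?_
    rintro j (hj | hj)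
    · exact HV_cone' hf (ha _ (by omega)) (hb _ (by omega))
    · exact HV_cone hf h hj
  constructor
  · intro h1
    exact hT.ses1 N (M.cone N f hf) (M.sh 1) _ _ (isMor_cone_inl M N f hf)
      (isMor_cone_snd M N f hf) (isSES_cone M N f hf) hC (hT.sh M 1 h1)
  · intro h1
    exact hT.of_sh (hT.ses3 N (M.cone N f hf) (M.sh 1) _ _ (isMor_cone_inl M N f hf)
      (isMor_cone_snd M N f hf) (isSES_cone M N f hf) h1 hC)

/-- a subspace of `R_m` is finite dimensional -/
private theorem r3fgc_fin (hS : Setup k n GR) (m : ℤ) (W : Submodule k R)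
    (hW : ∀ a ∈ W, GR.c m a = a) : W.FG := by
  by_cases hm : Even m ∧ 0 ≤ m
  · obtain ⟨⟨m', hm'⟩, hm0⟩ := hm
    obtain ⟨j, rfl⟩ : ∃ j : ℕ, m = 2 * (j : ℤ) := ⟨m'.toNat, by omega⟩
    have ht := hS.tower
    have h1 : Module.Finite k (MvPolynomial.homogeneousSubmodule (Fin n) k j) :=
      Module.Finite.iff_fg.2 (MvPolynomial.homogeneousSubmodule_fg (Fin n) k j)
    have h2 : ∀ x : W, ((IsScalarTower.toAlgHom k R (Sn k n)).toLinearMap.comp W.subtype) x ∈
        MvPolynomial.homogeneousSubmodule (Fin n) k j := by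
      intro x
      change (algebraMap R (Sn k n) x.1).IsHomogeneous j
      rw [← hW x.1 x.2, hS.compat, grS_even]
      exact MvPolynomial.homogeneousComponent_isHomogeneous _ _
    rw [← Module.Finite.iff_fg]
    refine Module.Finite.of_injective (((IsScalarTower.toAlgHom k R
      (Sn k n)).toLinearMap.comp W.subtype).codRestrict _ h2) ?_
    intro x y hxy
    apply Subtype.ext
    apply hS.inj
    exact congrArg Subtype.val hxy
  · have h0 : W = ⊥ := by
      rw [eq_bot_iff]
      intro a ha
      rw [Submodule.mem_bot, ← hW a ha]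
      by_cases h1 : Even m
      · exact hS.c_neg (by by_contra h2; exact hm ⟨h1, by omega⟩) a
      · exact GR.odd (Int.not_even_iff_odd.1 h1) a
    rw [h0]
    exact Submodule.fg_bot

omit [Algebra k R] [Algebra R (Sn k n)] in
private theorem r3fgc_pr (M : DGM GR) {i : ℤ} {z : M.X} (hz : M.pr i z = z) (j : ℤ) (a : R) :
    M.pr j (a • z) = GR.c (j - i) a • z := by
  refine GR.ind (P := fun a => M.pr j (a • z) = GR.c (j - i) a • z) ?_ ?_ ?_ a
  · rw [zero_smul, map_zero, map_zero, zero_smul]
  · intro a b ha hb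
    rw [add_smul, map_add, map_add, add_smul, ha, hb]
  · intro e a ha
    rw [M.pr_smul' ha]
    by_cases he : e = j - i
    · have h1 : j - e = i := by omega
      rw [h1, hz, ← he, ha]
    · rw [M.pr_ne hz (fun h => he (by omega)), smul_zero]
      have h2 := GR.c_c (j - i) e a
      rw [if_neg (fun h => he h.symm), ha] at h2
      rw [h2, zero_smul]

/-- PROOF. `H(M)` is generated over `R` by finitely many homogeneous cycles `z_i` of degrees `d_i` (`FG.exists_hom`). A homogeneous cycle `x` of degree `j` is `d y + ∑ a_i z_i`; take the components of degree `j`: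
`a_i` may be replaced by `c (j - d_i) a_i`. `R_m` is finite dimensional over `k` for every `m` (`R → S` is injective, homogeneous (`hS.inj`, `hS.compat`), and the homogeneous polynomials of a given degree form a finite dimensional space; compare `JGENW_fin` in `JGen.lean`)
and `R_m = 0` for `m < 0` (`Setup.c_neg`). -/
theorem CFD_of_FG (hS : Setup k n GR) {M : DGM GR} (hM : FG M) : CFD k M := by
  classical
  obtain ⟨s, hs, hs1, hgen⟩ := hM.exists_hom
  have hs2 : ∀ z : M.X, ∃ i, z ∈ s → M.pr i z = z := by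
    intro z
    by_cases hz : z ∈ s
    · obtain ⟨i, hi⟩ := hs1 z hz
      exact ⟨i, fun _ => hi⟩
    · exact ⟨0, fun h => absurd h hz⟩
  choose δ hδ using hs2
  -- the key decomposition
  have key : ∀ j x, M.pr j x = x → M.d x = 0 → ∃ (y : M.X) (a : M.X → R),
      (∀ z, GR.c (j - δ z) (a z) = a z) ∧ x = M.d y + ∑ z ∈ s, a z • z := by
    intro j x hx hdx
    obtain ⟨y, hy⟩ := hgen x hdx
    obtain ⟨a, ha⟩ := Submodule.mem_span_finset'.1 hy
    have ha' : ∃ b : M.X → R, ∑ z ∈ s, b z • z = x - M.d y := by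
      refine ⟨fun z => if h : z ∈ s then a ⟨z, h⟩ else 0, ?_⟩
      rw [← ha, ← Finset.sum_attach s]
      refine Finset.sum_congr rfl fun z _ => ?_
      exact congrArg (· • (z : M.X)) (dif_pos z.2)
    obtain ⟨b, hb⟩ := ha'
    refine ⟨M.pr (j - 1) y, fun z => GR.c (j - δ z) (b z), fun z => GR.c_self _ _, ?_⟩
    have h1 : x = M.d y + ∑ z ∈ s, b z • z := by
      rw [hb]
      abel
    have h2 := congrArg (M.pr j) h1
    rw [hx, map_add, map_sum] at h2
    have h3 := M.pr_d (j - 1) y
    rw [sub_add_cancel] at h3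
    rw [h3] at h2
    refine h2.trans ?_
    congr 1
    exact Finset.sum_congr rfl fun z hz => r3fgc_pr M (hδ z hz) j (b z)
  constructor
  · obtain ⟨a, ha⟩ := (s.image δ).bddBelow
    refine ⟨a, fun j hj x hx hdx => ?_⟩
    obtain ⟨y, b, hb, hxy⟩ := key j x hx hdx
    refine ⟨y, ?_⟩
    rw [hxy, Finset.sum_eq_zero, add_zero]
    intro z hz
    have h1 : a ≤ δ z := ha (Finset.mem_coe.2 (Finset.mem_image.2 ⟨z, hz, rfl⟩))
    rw [← hb z, hS.c_neg (by omega), zero_smul]
  · intro j
    rw [FDj_iff]
    let _ := kV k M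
    have hsm : ∀ (c : k) (y : M.X), c • y = (algebraMap k R c) • y := fun _ _ => rfl
    let W : M.X → Submodule k R := fun z =>
      { carrier := {a | GR.c (j - δ z) a = a}
        add_mem' := fun {a b} ha hb => by
          change GR.c _ _ = _
          rw [map_add]
          exact congrArg₂ (· + ·) ha hb
        zero_mem' := map_zero _
        smul_mem' := fun c a ha => by
          change GR.c _ _ = _
          rw [Algebra.smul_def]
          have h1 := GR.mul (hS.c_algebraMap c) (show GR.c (j - δ z) a = a from ha)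
          rwa [zero_add] at h1 }
    let μ : M.X → R →ₗ[k] M.X := fun z =>
      { toFun := fun a => a • z
        map_add' := fun a b => add_smul a b z
        map_smul' := fun c a => by
          change (c • a) • z = c • (a • z)
          rw [hsm, Algebra.smul_def, mul_smul] }
    refine ⟨⨆ z ∈ s, (W z).map (μ z), ?_, ?_⟩
    · refine Submodule.fg_biSup s _ fun z _ => ?_
      exact (r3fgc_fin hS (j - δ z) (W z) (fun a ha => ha)).map (μ z)
    · intro x hx hdx
      obtain ⟨y, b, hb, hxy⟩ := key j x hx hdx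
      refine ⟨y, ?_⟩
      rw [hxy, add_sub_cancel_left]
      refine Submodule.sum_mem _ fun z hz => ?_
      refine Submodule.mem_iSup_of_mem z (Submodule.mem_iSup_of_mem hz ?_)
      exact ⟨b z, hb z, rfl⟩

end MP8a
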