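import Pool.Agent.Lib_MP_8a48ad_gt.R3Geo
import Pool.Agent.Lib_MP_8a48ad_gt.Final1

/-! # Stage 3, assembled: torus rank at most three -/

set_option autoImplicit false

namespace MP8a

universe u

variable {k : Type u} [Field k] {W : Type*} [Group W] [Finite W]

theorem rank_three (hW : (Nat.card W : k) ≠ 0) (ρ : W →* GL (Fin 3) ℤ)
    (M : DGM (grR (latt k ρ))) : FG M ↔ Thick (SR (compat_inv (latt k ρ))) M := by
  obtain ⟨B, hB⟩ := exists_lines (k := k) hW ρ
  exact main_lines (setup_inv hW _) hB M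

/-- Stage 3. -/
theorem rank_le_three {n : ℕ} (hn : n ≤ 3) (hW : (Nat.card W : k) ≠ 0) (ρ : W →* GL (Fin n) ℤ)
    (M : DGM (grR (latt k ρ))) : FG M ↔ Thick (SR (compat_inv (latt k ρ))) M := by
  rcases Nat.lt_or_ge n 3 with h | h
  · exact stage1 hW ρ (Or.inl (Nat.lt_succ_iff.1 h)) M
  · have h3 : n = 3 := le_antisymm hn h
    subst h3
    exact rank_three hW ρ M

end MP8a
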