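import Pool.Agent.Lib_MP_8a48ad_gt.R3Act

/-! # Piece R3PRIME: homogeneous primes generated by two linear forms -/

set_option autoImplicit false

namespace MP8a

universe u

variable {k : Type u} [Field k]

/-- the variables are linear combinations of the three linear forms -/
private theorem r3p_var {v₀ v₁ v₂ : Fin 3 → k} (hdet : (Matrix.of ![v₀, v₁, v₂]).det ≠ 0) (j : Fin 3) :
    ∃ a b c : k, (MvPolynomial.X j : Sn k 3) =
      MvPolynomial.C a * lin v₀ + MvPolynomial.C b * lin v₁ + MvPolynomial.C c * lin v₂ := by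
  set M : Matrix (Fin 3) (Fin 3) k := Matrix.of ![v₀, v₁, v₂] with hM
  have hinv : M⁻¹ * M = 1 := Matrix.nonsing_inv_mul M (isUnit_iff_ne_zero.2 hdet)
  refine ⟨M⁻¹ j 0, M⁻¹ j 1, M⁻¹ j 2, ?_⟩
  rw [← lin_smul, ← lin_smul, ← lin_smul, ← lin_add, ← lin_add, ← lin_single]
  congr 1
  funext i
  have h := congrFun (congrFun hinv j) i
  rw [Matrix.mul_apply, Fin.sum_univ_three, Matrix.one_apply] at h
  simp only [Pi.add_apply, Pi.smul_apply, smul_eq_mul]
  have h0 : M 0 i = v₀ i := rfl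
  have h1 : M 1 i = v₁ i := rfl
  have h2 : M 2 i = v₂ i := rfl
  rw [h0, h1, h2] at h
  rw [h, Pi.single_apply]
  simp only [eq_comm]

/-- PROOF. The `v_i` are a basis of `k³`, so the variables are linear combinations of the `lin v_i`; if `lin v₀ ∈ q` then all variables, and all polynomials without constant term, are in `q`, contradiction to `HPr.plus` (`grS_zero`). -/
theorem lin_not_mem {v₀ v₁ v₂ : Fin 3 → k} (hdet : (Matrix.of ![v₀, v₁, v₂]).det ≠ 0)
    {q : Ideal (Sn k 3)} (hq : HPr (grS k 3) q) (h1 : lin v₁ ∈ q) (h2 : lin v₂ ∈ q) : lin v₀ ∉ q := by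
  intro h0
  obtain ⟨a, ha, ha0⟩ := hq.plus
  apply ha
  rw [grS_zero] at ha0
  have hc : MvPolynomial.constantCoeff a = 0 := by
    have h := congrArg MvPolynomial.constantCoeff ha0
    simpa using h
  have hX : ∀ j : Fin 3, (MvPolynomial.X j : Sn k 3) ∈ q := by
    intro j
    obtain ⟨x, y, z, h⟩ := r3p_var hdet j
    rw [h]
    exact q.add_mem (q.add_mem (q.mul_mem_left _ h0) (q.mul_mem_left _ h1)) (q.mul_mem_left _ h2)
  have hun := MvPolynomial.aeval_unique (Ideal.Quotient.mkₐ k q)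
  have h3 : (Ideal.Quotient.mkₐ k q : Sn k 3 → Sn k 3 ⧸ q) ∘ MvPolynomial.X = 0 := by
    funext j
    exact Ideal.Quotient.eq_zero_iff_mem.2 (hX j)
  have h4 : Ideal.Quotient.mkₐ k q a = 0 := by
    rw [hun, h3, MvPolynomial.aeval_zero, hc, map_zero]
  exact Ideal.Quotient.eq_zero_iff_mem.1 h4

/-- PROOF. `S` is generated by `lin v₀, lin v₁, lin v₂` as a `k`-algebra, so a homogeneous polynomial of degree `m` is congruent to `a (lin v₀)^m` modulo `(lin v₁, lin v₂)`, `a ∈ k`. -/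
theorem hom_congr {v₀ v₁ v₂ : Fin 3 → k} (hdet : (Matrix.of ![v₀, v₁, v₂]).det ≠ 0) {s : Sn k 3}
    {m : ℕ} (hs : s.IsHomogeneous m) :
    ∃ a : k, s - MvPolynomial.C a * lin v₀ ^ m ∈ Ideal.span {lin v₁, lin v₂} := by
  choose a b c hX using r3p_var hdet
  set I : Ideal (Sn k 3) := Ideal.span {lin v₁, lin v₂} with hI
  have hv1 : lin v₁ ∈ I := Ideal.subset_span (by simp)
  have hv2 : lin v₂ ∈ I := Ideal.subset_span (by simp)
  refine ⟨∑ d ∈ s.support, MvPolynomial.coeff d s * ∏ j, a j ^ d j, ?_⟩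
  set π := Ideal.Quotient.mkₐ k I with hπ
  have hm : ∀ x, π x = 0 ↔ x ∈ I := fun x => Ideal.Quotient.eq_zero_iff_mem
  rw [← hm, map_sub, sub_eq_zero]
  have hun := MvPolynomial.aeval_unique π
  have h3 : (π : Sn k 3 → Sn k 3 ⧸ I) ∘ MvPolynomial.X = fun j => algebraMap k _ (a j) * π (lin v₀) := by
    funext j
    change π (MvPolynomial.X j) = _
    rw [hX j, map_add, map_add, map_mul, map_mul, map_mul, (hm _).2 hv1, (hm _).2 hv2, mul_zero,
      mul_zero, add_zero, add_zero]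
    exact congrArg (· * π (lin v₀)) (π.commutes (a j))
  have h4 : π s = ∑ d ∈ s.support, algebraMap k _ (MvPolynomial.coeff d s) *
      ∏ j, (algebraMap k (Sn k 3 ⧸ I) (a j) * π (lin v₀)) ^ d j := by
    conv_lhs => rw [hun]
    rw [h3, MvPolynomial.aeval_def, MvPolynomial.eval₂_eq']
  rw [h4, map_mul, map_pow]
  have h5 : π (MvPolynomial.C (∑ d ∈ s.support, MvPolynomial.coeff d s * ∏ j, a j ^ d j)) =
      algebraMap k _ (∑ d ∈ s.support, MvPolynomial.coeff d s * ∏ j, a j ^ d j) := π.commutes _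
  rw [h5, map_sum, Finset.sum_mul]
  refine Finset.sum_congr rfl fun d hd => ?_
  have hd' : ∑ j, d j = m := by
    have h := hs (MvPolynomial.mem_support_iff.1 hd)
    rw [← h, Finsupp.weight_apply, Finsupp.sum_fintype]
    · simp
    · simp
  rw [map_mul, map_prod, mul_assoc]
  congr 1
  simp only [mul_pow, Finset.prod_mul_distrib, map_pow]
  congr 1
  rw [Finset.prod_pow_eq_pow_sum, hd']

/-- PROOF. `⊇` is clear. Let `s ∈ q` be homogeneous of degree `m` (components: `HPr.hom`, `grS_even`, `grS_odd_neg`), `s ≡ a (lin v₀)^m` (`hom_congr`). If `a ≠ 0` then `(lin v₀)^m ∈ q`, so `lin v₀ ∈ q` (or `1 ∈ q` if `m = 0`), contradiction to `lin_not_mem`. -/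
theorem prime_eq {v₀ v₁ v₂ : Fin 3 → k} (hdet : (Matrix.of ![v₀, v₁, v₂]).det ≠ 0)
    {q : Ideal (Sn k 3)} (hq : HPr (grS k 3) q) (h1 : lin v₁ ∈ q) (h2 : lin v₂ ∈ q) :
    q = Ideal.span {lin v₁, lin v₂} := by
  have hle : Ideal.span {lin v₁, lin v₂} ≤ q := by
    rw [Ideal.span_le]
    intro x hx
    rcases hx with rfl | hx
    · exact h1
    · rw [Set.mem_singleton_iff] at hx
      rw [hx]
      exact h2
  have h0 := lin_not_mem hdet hq h1 h2
  have hprime := hq.prime
  refine le_antisymm (fun s hs => ?_) hle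
  -- homogeneous components
  rw [← MvPolynomial.sum_homogeneousComponent s]
  refine Ideal.sum_mem _ fun m _ => ?_
  have hsm : MvPolynomial.homogeneousComponent m s ∈ q := by
    rw [← grS_even]
    exact hq.hom s hs _
  obtain ⟨a, ha⟩ := hom_congr hdet (MvPolynomial.homogeneousComponent_isHomogeneous m s)
  have h3 : MvPolynomial.C a * lin v₀ ^ m ∈ q := by
    have h := q.sub_mem hsm (hle ha)
    rwa [sub_sub_cancel] at h
  have ha0 : a = 0 := by
    by_contra hne
    have h4 : lin v₀ ^ m ∈ q := by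
      have h := q.mul_mem_left (MvPolynomial.C a⁻¹) h3
      rwa [← mul_assoc, ← MvPolynomial.C_mul, inv_mul_cancel₀ hne, MvPolynomial.C_1, one_mul] at h
    exact h0 (hprime.mem_of_pow_mem m h4)
  rw [ha0, MvPolynomial.C_0, zero_mul, sub_zero] at ha
  exact ha

end MP8a
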