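import Pool.Agent.Lib_MP_8a48ad_gt.R3Int
import Pool.Agent.Lib_MP_8a48ad_gt.R3Prime
import Pool.Agent.Lib_MP_8a48ad_gt.R3Stab

/-! # Piece R3GCD: regularity of `s₁, s₂` -/

set_option autoImplicit false

namespace MP8a

universe u

variable {k : Type u} [Field k] {W : Type*} [Group W] [Finite W]

/-- two linear forms divisible by the same prime are proportional -/
private theorem prime_dvd_lin {v₁ v₂ : Fin 3 → k} {π : Sn k 3} (hπ : Prime π) (h1 : v₁ ≠ 0)
    (d1 : π ∣ lin v₁) (d2 : π ∣ lin v₂) : ∃ a : k, v₂ = a • v₁ := by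
  have hl1 : (lin v₁ : Sn k 3) ≠ 0 := fun h => h1 (lin_inj h)
  have hdeg1 : (lin v₁ : Sn k 3).totalDegree = 1 := (lin_hom v₁).totalDegree hl1
  have hπ1 : π.totalDegree ≠ 0 := by
    intro h0
    have h2 := MvPolynomial.totalDegree_eq_zero_iff_eq_C.1 h0
    apply hπ.not_isUnit
    rw [h2]
    have h3 : MvPolynomial.coeff 0 π ≠ 0 := by
      intro h4
      rw [h4, map_zero] at h2
      exact hπ.ne_zero h2
    exact (IsUnit.mk0 _ h3).map (MvPolynomial.C : k →+* Sn k 3)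
  obtain ⟨u, hu⟩ := d1
  obtain ⟨u', hu'⟩ := d2
  have hu0 : u ≠ 0 := by
    rintro rfl
    rw [mul_zero] at hu
    exact hl1 hu
  have hud : u.totalDegree = 0 := by
    have h3 := MvPolynomial.totalDegree_mul_of_isDomain hπ.ne_zero hu0
    rw [← hu, hdeg1] at h3
    omega
  have hu1 := MvPolynomial.totalDegree_eq_zero_iff_eq_C.1 hud
  have hu'1 : ∃ b : k, u' = MvPolynomial.C b := by
    by_cases hu'0 : u' = 0
    · exact ⟨0, by rw [hu'0, map_zero]⟩
    · refine ⟨_, MvPolynomial.totalDegree_eq_zero_iff_eq_C.1 ?_⟩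
      have hl2 : (lin v₂ : Sn k 3) ≠ 0 := by
        rw [hu']
        exact mul_ne_zero hπ.ne_zero hu'0
      have h3 := MvPolynomial.totalDegree_mul_of_isDomain hπ.ne_zero hu'0
      rw [← hu', (lin_hom v₂).totalDegree hl2] at h3
      omega
  obtain ⟨b', hb'⟩ := hu'1
  set b := MvPolynomial.coeff 0 u with hb
  have hb0 : b ≠ 0 := by
    intro h0
    rw [h0, map_zero] at hu1
    exact hu0 hu1
  refine ⟨b' / b, ?_⟩
  have h4 : lin (b • v₂ - b' • v₁) = (0 : Sn k 3) := by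
    rw [lin_sub, lin_smul, lin_smul, hu, hu', hu1, hb']
    ring
  have h5 := lin_inj h4
  have h6 : b • v₂ = b' • v₁ := sub_eq_zero.1 h5
  rw [div_eq_inv_mul, mul_smul, ← h6, smul_smul, inv_mul_cancel₀ hb0, one_smul]

private theorem exists_regular_aux (ρ : W →* GL (Fin 3) k) (q : Ideal (Sn k 3))
    (hq : q.IsPrime) {v₁ v₂ : Fin 3 → k} (hv1 : v₁ ≠ 0) (hv12 : ∀ a : k, v₂ ≠ a • v₁)
    (hl1q : lin v₁ ∈ q) (hl2q : lin v₂ ∈ q)
    {s₁ s₂ : invA ρ} (h2 : (s₂ : Sn k 3) ∈ q) {g' : Sn k 3}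
    (hg : g' ∉ q) (hs : ∀ a b : invA ρ, (a : Sn k 3) ∈ q → (b : Sn k 3) ∈ q →
      g' * ((a : Sn k 3) * (b : Sn k 3)) ∈ Ideal.span {(s₁ : Sn k 3), (s₂ : Sn k 3)}) :
    s₁ ≠ 0 ∧ ∃ η : Sn k 3, η ∉ q ∧ ∀ x y : Sn k 3, (s₂ : Sn k 3) * x = (s₁ : Sn k 3) * y →
      ∃ z, η * x = (s₁ : Sn k 3) * z := by
  classical
  have := hq
  have : Fintype W := Fintype.ofFinite W
  have hg0 : g' ≠ 0 := by
    rintro rfl
    exact hg q.zero_mem
  -- the norm of the first form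
  have hl1 : (lin v₁ : Sn k 3) ≠ 0 := fun h => hv1 (lin_inj h)
  set N : Sn k 3 := ∏ w : W, wact ρ w (lin v₁) with hN
  have hNinv : N ∈ invA ρ := by
    intro v
    change wact ρ v N = N
    rw [hN, map_prod]
    refine Fintype.prod_equiv (Equiv.mulLeft v) _ _ fun w => ?_
    rw [Equiv.coe_mulLeft, act_mul]
  have hN0 : N ≠ 0 := by
    rw [hN]
    refine Finset.prod_ne_zero_iff.2 fun w _ h0 => ?_
    apply hl1
    rw [← act_inv_act ρ w (lin v₁), h0, map_zero]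
  have hNq : N ∈ q := by
    rw [hN]
    refine Ideal.mem_of_dvd _ (Finset.dvd_prod_of_mem _ (Finset.mem_univ (1 : W))) ?_
    rw [act_one]
    exact hl1q
  have hne : ¬ ((s₁ : Sn k 3) = 0 ∧ (s₂ : Sn k 3) = 0) := by
    rintro ⟨e1, e2⟩
    have h3 := hs ⟨N, hNinv⟩ ⟨N, hNinv⟩ hNq hNq
    rw [e1, e2, Set.pair_eq_singleton, Ideal.mem_span_singleton, zero_dvd_iff] at h3
    exact mul_ne_zero hg0 (mul_ne_zero hN0 hN0) h3
  -- reduced factors
  obtain ⟨a, b, η, hab, ha, hb⟩ : ∃ a b η : Sn k 3, IsRelPrime a b ∧ η * a = (s₁ : Sn k 3) ∧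
      η * b = (s₂ : Sn k 3) := by
    by_cases e1 : (s₁ : Sn k 3) = 0
    · exact UniqueFactorizationMonoid.exists_reduced_factors' _ _ (fun e2 => hne ⟨e1, e2⟩)
    · exact UniqueFactorizationMonoid.exists_reduced_factors _ e1 _
  have hη0 : η ≠ 0 := by
    rintro rfl
    rw [zero_mul] at ha hb
    exact hne ⟨ha.symm, hb.symm⟩
  have hηq : η ∉ q := by
    intro hη
    obtain ⟨f, hf, hfa⟩ := UniqueFactorizationMonoid.exists_prime_factors η hη0
    have hfq : f.prod ∈ q := Ideal.mem_of_dvd _ hfa.symm.dvd hη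
    obtain ⟨π, hπf, hπq⟩ := (Ideal.IsPrime.multiset_prod_mem_iff_exists_mem hq f).1 hfq
    have hπ := hf π hπf
    have hπη : π ∣ η := (Multiset.dvd_prod hπf).trans hfa.dvd
    have hsp : Ideal.span {(s₁ : Sn k 3), (s₂ : Sn k 3)} ≤ Ideal.span {π} := by
      rw [Ideal.span_le]
      intro x hx
      rcases hx with rfl | hx
      · rw [SetLike.mem_coe, Ideal.mem_span_singleton, ← ha]
        exact hπη.mul_right _
      · rw [Set.mem_singleton_iff] at hx
        subst hx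
        rw [SetLike.mem_coe, Ideal.mem_span_singleton, ← hb]
        exact hπη.mul_right _
    have hle : Ideal.span {π} ≤ q := (Ideal.span_singleton_le_iff_mem q).2 hπq
    haveI hprime : (Ideal.span {π} : Ideal (Sn k 3)).IsPrime :=
      (Ideal.span_singleton_prime hπ.ne_zero).2 hπ
    have hcomap : q.comap (algebraMap (invA ρ) (Sn k 3)) ≤
        (Ideal.span {π}).comap (algebraMap (invA ρ) (Sn k 3)) := by
      intro x hx
      have hx' : (x : Sn k 3) ∈ q := hx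
      have h3 := hsp (hs x x hx' hx')
      rw [Ideal.mem_span_singleton] at h3
      rcases hπ.dvd_or_dvd h3 with h4 | h4
      · exact absurd (Ideal.mem_of_dvd _ h4 hπq) hg
      · change (x : Sn k 3) ∈ Ideal.span {π}
        rw [Ideal.mem_span_singleton]
        rcases hπ.dvd_or_dvd h4 with h5 | h5 <;> exact h5
    obtain ⟨l, hlq, hlπ⟩ : ∃ l : Sn k 3, l ∈ q ∧ ¬ π ∣ l := by
      by_contra hcon
      push Not at hcon
      obtain ⟨c, hc⟩ := prime_dvd_lin hπ hv1 (hcon _ hl1q) (hcon _ hl2q)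
      exact hv12 c hc
    haveI : Module.Finite (invA ρ) (Sn k 3) := finite_inv ρ
    haveI : Algebra.IsIntegral (invA ρ) (Sn k 3) := Algebra.IsIntegral.of_finite _ _
    have hlt := Ideal.comap_lt_comap_of_integral_mem_sdiff (R := invA ρ) hle (x := l)
      ⟨hlq, fun h3 => hlπ (Ideal.mem_span_singleton.1 h3)⟩ (Algebra.IsIntegral.isIntegral l)
    exact absurd hcomap (not_le_of_gt hlt)
  refine ⟨?_, η, hηq, ?_⟩
  · rintro rfl
    rw [ZeroMemClass.coe_zero] at ha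
    have ha0 : a = 0 := (mul_eq_zero.1 ha).resolve_left hη0
    rw [ha0] at hab
    have hbu : IsUnit b := isRelPrime_zero_left.1 hab
    rw [← hb] at h2
    rcases hq.mem_or_mem h2 with h3 | h3
    · exact hηq h3
    · exact hq.ne_top (Ideal.eq_top_of_isUnit_mem _ h3 hbu)
  · intro x y hxy
    rw [← ha, ← hb, mul_assoc, mul_assoc] at hxy
    have h3 : b * x = a * y := mul_left_cancel₀ hη0 hxy
    have h4 : a ∣ b * x := ⟨y, h3⟩
    obtain ⟨z, hz⟩ := hab.dvd_of_dvd_mul_left h4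
    exact ⟨z, by rw [← ha, hz, mul_assoc]⟩

/-- PROOF. The norm `n₁ = ∏_w w(lin c₁)` is an invariant in `q` (factor `w = 1`; `lin_mem_of_esum`), `n₁ ≠ 0`; so `s₁, s₂` are not both `0`, because `g' n₁² ∈ (s₁, s₂)` is not `0`. `S` is a unique factorisation domain: `s₁ = η a`, `s₂ = η b` with `a, b` relatively prime (`UniqueFactorizationMonoid.exists_reduced_factors'` or similar).
Claim `η ∉ q`. Otherwise some prime `π` divides `η` and is in `q`. For `x ∈ q ∩ R`: `g' x² ∈ (s₁, s₂) ⊆ (π)`, and `π ∤ g'` because `g' ∉ q`, so `π ∣ x`. Hence `q ∩ R ⊆ (π) ∩ R`. But `(π) ⊊ q` are primes of `S` (if `q = (π)` then `π ∣ lin c₁, lin c₂`, which are linearly independent linear forms: degrees), and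
`S` is integral over `R`, so `(π) ∩ R ≠ q ∩ R` (`Ideal.comap_lt_comap_of_integral_mem_sdiff`): contradiction. If `s₁ = 0` then `a = 0`, `b` is a unit, and `η ∈ q` as `s₂ ∈ q`: contradiction. If `s₂ x = s₁ y` then `b x = a y`, `a ∣ x`, `x = a z`, `η x = s₁ z`. -/
theorem exists_regular (hW : (Nat.card W : k) ≠ 0) (ρ₀ : W →* GL (Fin 3) ℤ) (q : Ideal (Sn k 3))
    (hq : HPr (grS k 3) q) {t₀ c₁ c₂ : Fin 3 → ℤ} (h : LD k ρ₀ (inert (latt k ρ₀) q) t₀ c₁ c₂)
    {s₁ s₂ : invA (latt k ρ₀)} (h1 : (s₁ : Sn k 3) ∈ q) (h2 : (s₂ : Sn k 3) ∈ q) {g' : Sn k 3}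
    (hg : g' ∉ q) (hs : ∀ a b : invA (latt k ρ₀), (a : Sn k 3) ∈ q → (b : Sn k 3) ∈ q →
      g' * ((a : Sn k 3) * (b : Sn k 3)) ∈ Ideal.span {(s₁ : Sn k 3), (s₂ : Sn k 3)}) :
    s₁ ≠ 0 ∧ ∃ η : Sn k 3, η ∉ q ∧ ∀ x y : Sn k 3, (s₂ : Sn k 3) * x = (s₁ : Sn k 3) * y →
      ∃ z, η * x = (s₁ : Sn k 3) * z := by
  have hv1 : cv k c₁ ≠ 0 := by
    intro h0
    apply h.det
    rw [h0]
    exact Matrix.det_eq_zero_of_row_eq_zero 1 (fun j => rfl)
  have hv12 : ∀ a : k, cv k c₂ ≠ a • cv k c₁ := by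
    intro a ha
    apply h.det
    rw [ha, Matrix.det_fin_three]
    simp only [Matrix.of_apply, Matrix.cons_val_zero, Matrix.cons_val_one, Matrix.cons_val,
      Pi.smul_apply, smul_eq_mul]
    ring
  exact exists_regular_aux (latt k ρ₀) q hq.prime hv1 hv12
    (lin_mem_of_esum hW ρ₀ q le_rfl h.sum1) (lin_mem_of_esum hW ρ₀ q le_rfl h.sum2) h2 hg hs

end MP8a
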