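import Pool.Agent.Lib_MP_8a48ad_gt.R3Act

/-! # Piece R3JIN: points at which `S` is locally free over `R`, by inertia groups -/

set_option autoImplicit false

namespace MP8a

universe u

variable {k : Type u} [Field k] {n : ℕ} {W : Type*} [Group W] [Finite W]

omit [Finite W] in
/-- Expansion of products (as `JS_good`). -/
theorem JS_goodW (ρ : W →* GL (Fin n) k) (b c : W → Sn k n) (F : Finset W) :
    ∃ (ι : Type) (_ : Fintype ι) (x y : ι → Sn k n), ∀ v : W,
      ∑ i, x i * wact ρ v (y i) = ∏ w ∈ F, (b w - wact ρ v (c w)) := by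
  classical
  induction F using Finset.induction_on with
  | empty =>
    refine ⟨Unit, inferInstance, fun _ => 1, fun _ => 1, fun v => ?_⟩
    simp
  | insert w F hw ih =>
    obtain ⟨ι, hι, x, y, h⟩ := ih
    refine ⟨ι ⊕ ι, inferInstance, Sum.elim (fun i => b w * x i) (fun i => - x i),
      Sum.elim y (fun i => c w * y i), fun v => ?_⟩
    rw [Fintype.sum_sum_type, Finset.prod_insert hw, ← h v, Finset.mul_sum, ← Finset.sum_add_distrib]
    refine Finset.sum_congr rfl fun i _ => ?_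
    simp only [Sum.elim_inl, Sum.elim_inr, map_mul]
    ring

/-- Let `Γ` be the inertia group of the prime `q`, and suppose that `id_S = ∑ β_j θ_j` with `R`-linear maps `θ_j` from `S` to the `Γ`-invariants of `S`. Then there is `f ∉ q` with `JS ρ f`.
PROOF. For every coset `C` of `Γ` in `W`, `C ≠ Γ`, choose `b_C ∈ S` with `b_C - w⁻¹ b_C ∉ q` for one, hence for all `w ∈ C` (`w ∉ Γ` so `w⁻¹ ∉ Γ`; `(w γ)⁻¹ b = γ⁻¹ (w⁻¹ b) ≡ w⁻¹ b` modulo `q`). Put `b_w = b_C` for `w ∈ C`, `F = W \ Γ`, `f = ∏_{w ∈ F} (b_w - w⁻¹ b_w) ∉ q`.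
As in `JS_good` (the same induction, for an arbitrary finite index set) there are finitely many `x_i, y_i ∈ S` with `∑ x_i v(y_i) = P(v) := ∏_{w ∈ F} (b_w - v w⁻¹ b_w)` for all `v ∈ W`. If `v ∉ Γ` then `P(v) = 0` (factor `w = v`). If `v ∈ Γ` then `b_w = b_{w v⁻¹}`, so `P(v) = ∏ (b_{w v⁻¹} - (w v⁻¹)⁻¹ b_{w v⁻¹}) = f`
(`w ↦ w v⁻¹` permutes `F`). So for a `Γ`-invariant `u`, with the transfer `Tr = trJ ρ`: `∑ x_i Tr(y_i u) = ∑_v P(v) v(u) = |Γ| f u`. Hence `f t = ∑_j β_j f θ_j(t) = |Γ|⁻¹ ∑_{i,j} β_j x_i Tr(y_i θ_j(t))` (`|Γ|` divides `|W|`), and `t ↦ |Γ|⁻¹ Tr(y_i θ_j t)` is `R`-linear (`JS_of_fintype`). -/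
theorem JS_inert (hW : (Nat.card W : k) ≠ 0) (ρ : W →* GL (Fin n) k) (q : Ideal (Sn k n))
    [q.IsPrime] {m : ℕ} (β : Fin m → Sn k n) (θ : Fin m → (Sn k n →ₗ[invA ρ] Sn k n))
    (hθ : ∀ j t, ∀ γ ∈ inert ρ q, wact ρ γ (θ j t) = θ j t) (hβ : ∀ t, t = ∑ j, β j * θ j t) :
    ∃ f, f ∉ q ∧ JS ρ f := by
  classical
  let _ := Fintype.ofFinite W
  set Γ := inert ρ q with hΓ
  have hB : ∀ C : W ⧸ Γ, ∃ b : Sn k n, C ≠ QuotientGroup.mk 1 → ∀ w : W,
      (QuotientGroup.mk w : W ⧸ Γ) = C → b - wact ρ w⁻¹ b ∉ q := by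
    intro C
    by_cases hC : C = QuotientGroup.mk 1
    · exact ⟨0, fun h => absurd hC h⟩
    · obtain ⟨w₀, rfl⟩ := QuotientGroup.mk_surjective C
      have h1 : w₀⁻¹ ∉ Γ := by
        intro h2
        apply hC
        rw [QuotientGroup.eq]
        simpa using h2
      have h2 : ∃ s, wact ρ w₀⁻¹ s - s ∉ q := by
        by_contra h3
        push Not at h3
        exact h1 h3
      obtain ⟨s, hs⟩ := h2
      refine ⟨s, fun _ w hw => ?_⟩
      have h3 : w⁻¹ * w₀ ∈ Γ := QuotientGroup.eq.1 hw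
      have h4 : wact ρ (w⁻¹ * w₀) (wact ρ w₀⁻¹ s) - wact ρ w₀⁻¹ s ∈ q := h3 _
      rw [← act_mul, mul_assoc, mul_inv_cancel, mul_one] at h4
      intro h5
      apply hs
      have h6 := q.add_mem h4 h5
      have h7 : wact ρ w₀⁻¹ s - s = -(wact ρ w⁻¹ s - wact ρ w₀⁻¹ s + (s - wact ρ w⁻¹ s)) := by ring
      rw [h7]
      exact q.neg_mem h6
  choose B hB using hB
  let b : W → Sn k n := fun w => B (QuotientGroup.mk w)
  let F : Finset W := Finset.univ.filter fun w => w ∉ Γ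
  let g : W → Sn k n := fun w => b w - wact ρ w⁻¹ (b w)
  set f : Sn k n := ∏ w ∈ F, g w with hf
  have hfq : f ∉ q := by
    intro h
    rw [hf] at h
    obtain ⟨w, hw, h1⟩ := (Ideal.IsPrime.prod_mem_iff (p := q)).1 h
    have hw' : w ∉ Γ := (Finset.mem_filter.1 hw).2
    refine hB (QuotientGroup.mk w) ?_ w rfl h1
    intro h2
    apply hw'
    have h3 := QuotientGroup.eq.1 h2.symm
    simpa using h3
  obtain ⟨ι, hι, x, y, h⟩ := JS_goodW ρ b (fun w => wact ρ w⁻¹ (b w)) F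
  have hv1 : ∀ v : W, v ∉ Γ → ∏ w ∈ F, (b w - wact ρ v (wact ρ w⁻¹ (b w))) = 0 := by
    intro v hv
    refine Finset.prod_eq_zero (i := v) (Finset.mem_filter.2 ⟨Finset.mem_univ _, hv⟩) ?_
    rw [act_act_inv, sub_self]
  have hv2 : ∀ v : W, v ∈ Γ → ∏ w ∈ F, (b w - wact ρ v (wact ρ w⁻¹ (b w))) = f := by
    intro v hv
    rw [hf]
    refine Finset.prod_bij (fun w _ => w * v⁻¹) ?_ ?_ ?_ ?_
    · intro w hw
      refine Finset.mem_filter.2 ⟨Finset.mem_univ _, fun h1 => (Finset.mem_filter.1 hw).2 ?_⟩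
      have h2 := Γ.mul_mem h1 hv
      rwa [inv_mul_cancel_right] at h2
    · intro w _ w' _ h1
      exact mul_right_cancel h1
    · intro w hw
      refine ⟨w * v, Finset.mem_filter.2 ⟨Finset.mem_univ _, fun h1 => (Finset.mem_filter.1 hw).2 ?_⟩, ?_⟩
      · have h2 := Γ.mul_mem h1 (Γ.inv_mem hv)
        rwa [mul_inv_cancel_right] at h2
      · rw [mul_inv_cancel_right]
    · intro w _
      have h1 : b (w * v⁻¹) = b w := by
        change B _ = B _
        congr 1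
        rw [QuotientGroup.eq]
        simpa using hv
      change _ = b (w * v⁻¹) - wact ρ (w * v⁻¹)⁻¹ (b (w * v⁻¹))
      rw [h1, mul_inv_rev, inv_inv, act_mul]
  set N : ℕ := (Finset.univ.filter fun v : W => v ∈ Γ).card with hN
  have hNk : (N : k) ≠ 0 := by
    have h1 : N = Nat.card Γ := by
      rw [hN, Nat.card_eq_fintype_card, Fintype.card_subtype]
    have h2 : N ∣ Nat.card W := by
      rw [h1]
      exact Subgroup.card_subgroup_dvd_card _
    obtain ⟨m', hm⟩ := h2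
    intro h0
    apply hW
    rw [hm, Nat.cast_mul, h0, zero_mul]
  have key : ∀ u : Sn k n, (∀ γ ∈ Γ, wact ρ γ u = u) →
      ∑ i, (trJ ρ (y i * u) : Sn k n) * x i = (N : Sn k n) * (f * u) := by
    intro u hu
    have h1 : ∀ i, (trJ ρ (y i * u) : Sn k n) * x i = ∑ v : W, (x i * wact ρ v (y i)) * wact ρ v u := by
      intro i
      rw [trJ_coe, Finset.sum_mul]
      refine Finset.sum_congr rfl fun v _ => ?_
      rw [map_mul]
      ring
    rw [Finset.sum_congr rfl fun i _ => h1 i, Finset.sum_comm]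
    have h2 : ∀ v : W, ∑ i, (x i * wact ρ v (y i)) * wact ρ v u = if v ∈ Γ then f * u else 0 := by
      intro v
      rw [← Finset.sum_mul, h v]
      by_cases hv : v ∈ Γ
      · rw [if_pos hv, hv2 v hv, hu v hv]
      · rw [if_neg hv, hv1 v hv, zero_mul]
    rw [Finset.sum_congr rfl fun v _ => h2 v, ← Finset.sum_filter, Finset.sum_const, nsmul_eq_mul, hN]
  refine ⟨f, hfq, ?_⟩
  refine JS_of_fintype ρ _ (Fin m × ι)
    (fun p => ((trJ ρ).comp (LinearMap.mulLeft (invA ρ) (y p.2))).comp (θ p.1))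
    (fun p => MvPolynomial.C ((N : k)⁻¹) * (β p.1 * x p.2)) fun t => ?_
  have h4 : (MvPolynomial.C ((N : k)⁻¹) : Sn k n) * (N : Sn k n) = 1 := by
    have : (N : Sn k n) = MvPolynomial.C (N : k) := (map_natCast _ _).symm
    rw [this, ← MvPolynomial.C_mul, inv_mul_cancel₀ hNk, MvPolynomial.C_1]
  rw [Fintype.sum_prod_type]
  have h5 : ∀ j : Fin m, ∑ i, ((((trJ ρ).comp (LinearMap.mulLeft (invA ρ) (y i))).comp (θ j)) t : Sn k n) *
      (MvPolynomial.C ((N : k)⁻¹) * (β j * x i)) = f * (β j * θ j t) := by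
    intro j
    have h6 : ∀ i, ((((trJ ρ).comp (LinearMap.mulLeft (invA ρ) (y i))).comp (θ j)) t : Sn k n) *
        (MvPolynomial.C ((N : k)⁻¹) * (β j * x i)) =
        (MvPolynomial.C ((N : k)⁻¹) * β j) * ((trJ ρ (y i * θ j t) : Sn k n) * x i) := by
      intro i
      rw [LinearMap.comp_apply, LinearMap.comp_apply, LinearMap.mulLeft_apply]
      ring
    rw [Finset.sum_congr rfl fun i _ => h6 i, ← Finset.mul_sum, key _ (hθ j t)]
    calc (MvPolynomial.C ((N : k)⁻¹) * β j) * ((N : Sn k n) * (f * θ j t))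
        = (MvPolynomial.C ((N : k)⁻¹) * (N : Sn k n)) * (f * (β j * θ j t)) := by ring
      _ = f * (β j * θ j t) := by rw [h4, one_mul]
  rw [Finset.sum_congr rfl fun j _ => h5 j, ← Finset.mul_sum, ← hβ t]

end MP8a
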