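import Pool.Agent.Lib_MP_8a48ad_gt.R3One

/-! # Piece R3RED: reduction to one line -/

set_option autoImplicit false

namespace MP8a

universe u

variable {k : Type u} [Field k] {n : ℕ} {R : Type u} [CommRing R] [Algebra k R]
  [Algebra R (Sn k n)] {GR : Gr R}

/-- PROOF. `exists_JJ_gens`, `thick_red`, `exists_sep` (choose `τ`, `e`). Let `M` be `FG` with `Nil (f i) M`. Claim: for every finite `S ⊆ B` such that `Nil (τ q) M` for all `q ∈ B \ S`, `T M`; induction on the number of elements of `S`. If `S ⊆ {p}`: `thick_one_line` (if `B = ∅` then `R / (f)` is finite dimensional by `finite_of_hpr`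
and `thick_of_FDH`, `FDH_of_nil`). If `S` has two elements `p ≠ q`: `τ p * τ q ∈ rad J` (`mem_radical_of_hpr`, every prime in `B` contains `τ p` or `τ q`), so it is nilpotent on `H(M)` and `(τ p τ q)^N` is zero on `M` (`nz_pow'`); `M` is built from `M.mc (τ p)^N` and `M.mc (τ q)` (`thick_of_NZ_mul`), to which the
induction hypothesis applies with `S \ {p}`, `S \ {q}` (`FG_mc`, `Nil_mc`, `Nil_mc_self`). -/
theorem thick_of_lines (hS : Setup k n GR) {B : Finset (Ideal R)} (hB : Lines k n GR B)
    {T : DGM GR → Prop} (hT : IsThick T) (h : T (SR hS.compat)) {M : DGM GR} (hM : FG M) : T M := by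
  classical
  have hno := hS.noeth
  obtain ⟨l, f, m, hm, hf, hJ, hJs⟩ := exists_JJ_gens hS
  have hmax : ∀ p ∈ B, ∀ q ∈ B, q ≤ p → q = p := fun p hp q hq hqp =>
    (hB.max q hq p (hB.hpr p hp) hqp).symm
  have hsep : ∀ p : Ideal R, ∃ (e : ℤ) (t : R), p ∈ B →
      (0 < e ∧ Even e ∧ GR.c e t = t ∧ t ∉ p ∧ ∀ q ∈ B, q ≠ p → t ∈ q) := by
    intro p
    by_cases hp : p ∈ B
    · obtain ⟨e, t, h1⟩ := exists_sep hS B hB.hpr hmax hp
      exact ⟨e, t, fun _ => h1⟩
    · exact ⟨0, 0, fun h => absurd h hp⟩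
  choose e τ hτ using hsep
  have hIJ : ∀ x, x ∈ Ideal.span (Set.range f) ↔ JJ k n x := by
    intro x
    refine ⟨fun hx => ?_, hJs x⟩
    have h1 : Ideal.span (Set.range f) ≤ JIdeal k n R := by
      rw [Ideal.span_le]
      rintro _ ⟨i, rfl⟩
      exact hJ i
    exact h1 hx
  have hI : ∀ a ∈ Ideal.span (Set.range f), ∀ i, GR.c i a ∈ Ideal.span (Set.range f) :=
    fun a ha i => hJs _ (((hIJ a).1 ha).comp hS.compat i)
  have hbad : ∀ p', HPr GR p' → Ideal.span (Set.range f) ≤ p' → p' ∈ B := fun p' hp' hle =>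
    hB.bad p' hp' fun x hx => hle (hJs x hx)
  refine thick_red hS hT h f m hm hf hJ (fun M hM hn => ?_) hM
  have key : ∀ (c : ℕ) (S : Finset (Ideal R)), S.card ≤ c → S ⊆ B → ∀ M : DGM GR, FG M →
      (∀ i, Nil (f i) M) → (∀ q ∈ B, q ∉ S → Nil (τ q) M) → T M := by
    intro c
    induction c with
    | zero =>
      intro S hS0 _ M hM hn hnS
      have hSe : S = ∅ := Finset.card_eq_zero.1 (Nat.le_zero.1 hS0)
      by_cases hBe : B = ∅
      · have hfin : Module.Finite k (R ⧸ Ideal.span (Set.range f)) := by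
          refine finite_of_hpr hS _ hI fun p' hp' hle => ?_
          have h1 := hbad p' hp' hle
          rw [hBe] at h1
          exact absurd h1 (Finset.notMem_empty _)
        exact thick_of_FDH hS hT (thick_kM hS hT h) (FDH_of_nil hM f hn hfin)
      · obtain ⟨p, hp⟩ := Finset.nonempty_iff_ne_empty.2 hBe
        refine thick_one_line hS hB hT h hf hJ hJs (τ := τ) (e := e)
          (fun q hq => ⟨(hτ q hq).1, (hτ q hq).2.1⟩) (fun q hq => (hτ q hq).2.2.1)
          (fun q hq => (hτ q hq).2.2.2.1) (fun q hq q' hq' hne => (hτ q hq).2.2.2.2 q' hq' hne)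
          hp hM hn (fun q hq _ => hnS q hq ?_)
        rw [hSe]
        exact Finset.notMem_empty _
    | succ c ih =>
      intro S hSc hSB M hM hn hnS
      by_cases hS1 : S.card ≤ 1
      · by_cases hSe : S = ∅
        · refine ih S ?_ hSB M hM hn hnS
          rw [hSe, Finset.card_empty]
          exact Nat.zero_le _
        · obtain ⟨p, hpS⟩ := Finset.nonempty_iff_ne_empty.2 hSe
          refine thick_one_line hS hB hT h hf hJ hJs (τ := τ) (e := e)
            (fun q hq => ⟨(hτ q hq).1, (hτ q hq).2.1⟩) (fun q hq => (hτ q hq).2.2.1)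
            (fun q hq => (hτ q hq).2.2.2.1) (fun q hq q' hq' hne => (hτ q hq).2.2.2.2 q' hq' hne)
            (hSB hpS) hM hn (fun q hq hqp => hnS q hq ?_)
          intro hqS
          exact hqp (Finset.card_le_one.1 hS1 q hqS p hpS)
      · obtain ⟨p, hpS, q, hqS, hpq⟩ := Finset.one_lt_card.1 (not_le.1 hS1)
        have hpB := hSB hpS
        have hqB := hSB hqS
        obtain ⟨hp1, hp2, hp3, hp4, hp5⟩ := hτ p hpB
        obtain ⟨hq1, hq2, hq3, hq4, hq5⟩ := hτ q hqB
        have hpq3 : GR.c (e p + e q) (τ p * τ q) = τ p * τ q := GR.mul hp3 hq3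
        have hrad : τ p * τ q ∈ (Ideal.span (Set.range f)).radical := by
          refine mem_radical_of_hpr _ hI ?_ fun p' hp' hle => ?_
          · rw [← hpq3, GR.c_c, if_neg (by omega)]
          · have hp'B := hbad p' hp' hle
            by_cases h1 : p' = p
            · exact Ideal.mul_mem_left _ _ (hq5 p' hp'B (by rw [h1]; exact hpq))
            · exact Ideal.mul_mem_right _ _ (hp5 p' hp'B h1)
        have hnil : Nil (τ p * τ q) M := Nil_of_span hn hrad
        obtain ⟨r, hr⟩ := hrad
        obtain ⟨N, hN⟩ := nz_pow' hS (hp2.add hq2) hpq3 ((hIJ _).1 hr) hnil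
        have haN : GR.c (N * e p) (τ p ^ N) = τ p ^ N := GR.pow_hom hp3 N
        have heN : Even ((N : ℤ) * e p) := hp2.mul_left _
        refine thick_of_NZ_mul hT hp3 hp2 hq3 hq2 hN rfl haN heN rfl ?_ ?_
        · refine ih (S.erase p) ?_ ((Finset.erase_subset p S).trans hSB) _ (FG_mc hM haN heN)
            (fun i => Nil_mc (hn i) haN heN) ?_
          · rw [Finset.card_erase_of_mem hpS]
            omega
          · intro q' hq' hq'S
            by_cases h1 : q' = p
            · rw [h1]
              exact Nil_mc_self N haN heN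
            · exact Nil_mc (hnS q' hq' fun h2 => hq'S (Finset.mem_erase.2 ⟨h1, h2⟩)) haN heN
        · have hself : ∀ (b : R) (hb : GR.c (e q) b = b), b = τ q ^ 1 → Nil (τ q) (M.mc hb hq2) := by
            rintro b hb rfl
            exact Nil_mc_self 1 hb hq2
          refine ih (S.erase q) ?_ ((Finset.erase_subset q S).trans hSB) _ (FG_mc hM hq3 hq2)
            (fun i => Nil_mc (hn i) hq3 hq2) ?_
          · rw [Finset.card_erase_of_mem hqS]
            omega
          · intro q' hq' hq'S
            by_cases h1 : q' = q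
            · rw [h1]
              exact hself _ hq3 (pow_one _).symm
            · exact Nil_mc (hnS q' hq' fun h2 => hq'S (Finset.mem_erase.2 ⟨h1, h2⟩)) hq3 hq2
  exact key B.card B le_rfl (Finset.Subset.refl B) M hM hn fun q hq hq' => absurd hq hq'

theorem main_lines (hS : Setup k n GR) {B : Finset (Ideal R)} (hB : Lines k n GR B) (M : DGM GR) :
    FG M ↔ Thick (SR hS.compat) M :=
  ⟨fun hM _ hT h => thick_of_lines hS hB hT h hM, fun hM => FG_of_thick hS hM⟩

end MP8a
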