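import Pool.Agent.Lib_MP_8a48ad_gt.R3Refl1

/-! # Piece R3REFL: groups acting through one reflection -/

set_option autoImplicit false

namespace MP8a

universe u

section

variable {k : Type u} [Field k] {n : ℕ} {W : Type*} [Group W] [Finite W]

/-- The decomposition `t = ½ (t + s t) + ½ α θ(t)`, `θ(t) = (t - s t) / α`. PROOF. In the first case of `refl_dichotomy`: `m = 1`, `β = 1`, `θ = id`. In the second case let `s = ρ γ₀`, `a = lin α ≠ 0`. `t - s t ∈ (a)` for all `t ∈ S`: `S → S/(a)` and its composition with `s` are `k`-algebra homomorphisms which agree on the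
variables (`lin (s c) - lin c = lin (x • α)`; `MvPolynomial.algHom_ext`). So there is a unique `θ(t)` with `t - s t = a θ(t)`; uniqueness (`S` is a domain) shows that `θ` is additive and `R`-linear, and that `θ(t)` is `s`-invariant (`s (t - s t) = - (t - s t)`, `s a = - a`). `β = (½, ½ a)`, `θ_0 (t) = t + s t`, `θ_1 = θ`. -/
theorem refl_family (hW : (Nat.card W : k) ≠ 0) (ρ : W →* GL (Fin n) k) (Γ : Subgroup W)
    (hdet : ∀ w, (ρ w : Matrix (Fin n) (Fin n) k).det = 1 ∨ (ρ w : Matrix (Fin n) (Fin n) k).det = -1)
    (α : Fin n → k)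
    (hα : ∀ γ ∈ Γ, ∀ c, ∃ x : k, (ρ γ : Matrix (Fin n) (Fin n) k).mulVec c - c = x • α) :
    ∃ (m : ℕ) (β : Fin m → Sn k n) (θ : Fin m → (Sn k n →ₗ[invA ρ] Sn k n)),
      (∀ j t, ∀ γ ∈ Γ, wact ρ γ (θ j t) = θ j t) ∧ ∀ t, t = ∑ j, β j * θ j t := by
  rcases refl_dichotomy hW ρ Γ hdet α hα with h1 | ⟨h2, hα0, γ₀, hγ₀, _, hγ, hsq, hneg⟩
  · refine ⟨1, fun _ => 1, fun _ => LinearMap.id, fun j t γ hγ => ?_, fun t => ?_⟩
    · rw [wact, h1 γ hγ, Units.val_one, linAct_one]
    · rw [Fin.sum_univ_one, one_mul, LinearMap.id_apply]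
  · set A : Matrix (Fin n) (Fin n) k := (ρ γ₀ : Matrix (Fin n) (Fin n) k) with hA
    have ha0 : lin α ≠ 0 := fun h => hα0 (lin_inj h)
    have hAA : ∀ t : Sn k n, linAct A (linAct A t) = t := by
      intro t
      rw [← linAct_mul, hA, ← Units.val_mul, hsq, Units.val_one, linAct_one]
    have hAa : linAct A (lin α) = -lin α := by
      rw [linAct_lin, hneg]
      have h := lin_smul (-1 : k) α
      rw [neg_smul, one_smul, map_neg, map_one, neg_one_mul] at h
      exact h
    have hdiv : ∀ t : Sn k n, ∃ q, t - linAct A t = lin α * q := by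
      intro t
      induction t using MvPolynomial.induction_on with
      | C a =>
        refine ⟨0, ?_⟩
        rw [MvPolynomial.algHom_C, MvPolynomial.algebraMap_eq, sub_self, mul_zero]
      | add p q hp hq =>
        obtain ⟨a, ha⟩ := hp
        obtain ⟨b, hb⟩ := hq
        refine ⟨a + b, ?_⟩
        rw [map_add, mul_add, ← ha, ← hb]
        ring
      | mul_X p j hp =>
        obtain ⟨a, ha⟩ := hp
        obtain ⟨x, hx⟩ := hα γ₀ hγ₀ (Pi.single j 1)
        have h3 : linAct A (MvPolynomial.X j : Sn k n) = MvPolynomial.X j + MvPolynomial.C x * lin α := by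
          rw [← lin_single, linAct_lin, ← lin_smul, ← hx, lin_sub]
          ring
        refine ⟨a * MvPolynomial.X j - linAct A p * MvPolynomial.C x, ?_⟩
        rw [map_mul, h3, mul_sub (lin α), ← mul_assoc (lin α) a, ← ha]
        ring
    choose f hf using hdiv
    have huniq : ∀ t q, t - linAct A t = lin α * q → f t = q := by
      intro t q h
      apply mul_left_cancel₀ ha0
      rw [← hf t, h]
    have hinv : ∀ r : invA ρ, linAct A (r : Sn k n) = (r : Sn k n) := fun r => r.2 γ₀
    let sL : Sn k n →ₗ[invA ρ] Sn k n :=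
      { toFun := fun t => linAct A t
        map_add' := fun x y => map_add _ x y
        map_smul' := fun r x => by
          rw [RingHom.id_apply]
          change linAct A ((r : Sn k n) * x) = (r : Sn k n) * linAct A x
          rw [map_mul, hinv] }
    let θ₁ : Sn k n →ₗ[invA ρ] Sn k n :=
      { toFun := f
        map_add' := fun x y => by
          apply huniq
          rw [map_add, mul_add, ← hf x, ← hf y]
          ring
        map_smul' := fun r x => by
          rw [RingHom.id_apply]
          change f ((r : Sn k n) * x) = (r : Sn k n) * f x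
          apply huniq
          rw [map_mul, hinv, mul_left_comm, ← hf x]
          ring }
    have hfs : ∀ t, linAct A (f t) = f t := by
      intro t
      apply mul_left_cancel₀ ha0
      have h3 : linAct A (t - linAct A t) = -(lin α * linAct A (f t)) := by
        rw [hf t, map_mul, hAa, neg_mul]
      rw [map_sub, hAA] at h3
      rw [← hf t, ← neg_inj, ← h3]
      ring
    have hAinv : ∀ (γ : W) (t : Sn k n), γ ∈ Γ → linAct A t = t → wact ρ γ t = t := by
      intro γ t hγΓ ht
      rcases hγ γ hγΓ with h3 | h3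
      · rw [wact, h3, Units.val_one, linAct_one]
      · rw [wact, h3]
        exact ht
    refine ⟨2, ![MvPolynomial.C (2⁻¹ : k), MvPolynomial.C (2⁻¹ : k) * lin α], ![LinearMap.id + sL, θ₁],
      fun j t γ hγΓ => ?_, fun t => ?_⟩
    · apply hAinv γ _ hγΓ
      fin_cases j
      · change linAct A (t + linAct A t) = t + linAct A t
        rw [map_add, hAA, add_comm]
      · exact hfs t
    · rw [Fin.sum_univ_two]
      change t = MvPolynomial.C (2⁻¹ : k) * (t + linAct A t) + MvPolynomial.C (2⁻¹ : k) * lin α * f t
      rw [mul_assoc, ← hf t, ← mul_add]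
      have h3 : t + linAct A t + (t - linAct A t) = MvPolynomial.C (2 : k) * t := by
        have h4 : (MvPolynomial.C (2 : k) : Sn k n) = 2 := by
          rw [show (2 : k) = ((2 : ℕ) : k) by norm_num, map_natCast]
          norm_num
        rw [h4]
        ring
      rw [h3, ← mul_assoc, ← MvPolynomial.C_mul, inv_mul_cancel₀ h2, MvPolynomial.C_1, one_mul]

end

end MP8a
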