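import Pool.Agent.Lib_MP_8a48ad_gt.R3Loc2
import Pool.Agent.Lib_MP_8a48ad_gt.R3Dim
import Pool.Agent.Lib_MP_8a48ad_gt.R3Jin
import Pool.Agent.Lib_MP_8a48ad_gt.R3Refl
import Pool.Agent.Lib_MP_8a48ad_gt.R3Red

/-! # Piece R3GEO: the bad lines of a finite subgroup of `GL_3(ℤ)` -/

set_option autoImplicit false

namespace MP8a

universe u

variable {k : Type u} [Field k] {W : Type*} [Group W] [Finite W]

/-- the lines: homogeneous primes of `S` whose inertia group has a line -/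
def LQ (k : Type u) [Field k] (ρ₀ : W →* GL (Fin 3) ℤ) : Set (Ideal (Sn k 3)) :=
  {q | HPr (grS k 3) q ∧ ∃ t₀ c₁ c₂ : Fin 3 → ℤ, LD k ρ₀ (inert (latt k ρ₀) q) t₀ c₁ c₂}

/-- PROOF. `q ↦ inert q` is injective on `LQ`: if `inert q = inert q'` then `lin c₁, lin c₂ ∈ q'` (`lin_mem_of_esum`) and `q = (lin c₁, lin c₂) = q'` (`prime_eq`). A finite group has finitely many subgroups. -/
theorem LQ_finite (hW : (Nat.card W : k) ≠ 0) (ρ₀ : W →* GL (Fin 3) ℤ) : (LQ k ρ₀).Finite := by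
  refine Set.Finite.of_finite_image (f := fun q : Ideal (Sn k 3) => inert (latt k ρ₀) q)
    (Set.toFinite _) ?_
  rintro q ⟨hq, t₀, c₁, c₂, h⟩ q' ⟨hq', _⟩ heq
  have heq' : inert (latt k ρ₀) q = inert (latt k ρ₀) q' := heq
  have h1 := prime_eq h.det hq (lin_mem_of_esum hW ρ₀ q le_rfl h.sum1)
    (lin_mem_of_esum hW ρ₀ q le_rfl h.sum2)
  have h2 := prime_eq h.det hq' (lin_mem_of_esum hW ρ₀ q' heq'.le h.sum1)
    (lin_mem_of_esum hW ρ₀ q' heq'.le h.sum2)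
  rw [h1, ← h2]

/-- PROOF. `q ≤ q'`, both `HPr`, `q ∈ LQ`: `lin c₁, lin c₂ ∈ q ≤ q'`; `prime_eq` twice. -/
theorem LQ_max (hW : (Nat.card W : k) ≠ 0) (ρ₀ : W →* GL (Fin 3) ℤ) {q q' : Ideal (Sn k 3)}
    (hq : q ∈ LQ k ρ₀) (hq' : HPr (grS k 3) q') (h : q ≤ q') : q' = q := by
  obtain ⟨hq, t₀, c₁, c₂, hL⟩ := hq
  have hm1 := lin_mem_of_esum hW ρ₀ q le_rfl hL.sum1
  have hm2 := lin_mem_of_esum hW ρ₀ q le_rfl hL.sum2
  have h1 := prime_eq hL.det hq hm1 hm2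
  have h2 := prime_eq hL.det hq' (h hm1) (h hm2)
  rw [h2, ← h1]

/-- PROOF. `B` = the set of the `q ∩ R` (`Ideal.comap`), `q ∈ LQ` (`LQ_finite`). `hpr`: `hpr_comap`. `max`: if `q ∩ R ≤ p'` then there is `q' ⊇ q`, `HPr`, over `p'` (`exists_hpr_over`), `q' = q` by `LQ_max`. `bad`: let `q'` be over `p'` (`exists_hpr_over` with the ideal `⊥`). In the first case of `dim_cases`: `refl_family` (with `latt_det_sign`) and
`JS_inert` give `f ∉ q'` with `JS f`, and `exists_JJ_of_JS` a `t ∉ p'` with `JJ t`, contradiction. So `q' ∈ LQ`. `loc`: `exists_local`. -/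
theorem exists_lines (hW : (Nat.card W : k) ≠ 0) (ρ₀ : W →* GL (Fin 3) ℤ) :
    ∃ B : Finset (Ideal (invA (latt k ρ₀))), Lines k 3 (grR (latt k ρ₀)) B := by
  classical
  have hmem : ∀ p : Ideal (invA (latt k ρ₀)),
      p ∈ (LQ_finite hW ρ₀).toFinset.image
        (fun q => q.comap (algebraMap (invA (latt k ρ₀)) (Sn k 3))) ↔
      ∃ q ∈ LQ k ρ₀, q.comap (algebraMap (invA (latt k ρ₀)) (Sn k 3)) = p := by
    intro p
    rw [Finset.mem_image]
    simp only [Set.Finite.mem_toFinset]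
  refine ⟨(LQ_finite hW ρ₀).toFinset.image
    (fun q => q.comap (algebraMap (invA (latt k ρ₀)) (Sn k 3))), ?_, ?_, ?_, ?_⟩
  · intro p hp
    obtain ⟨q, hq, rfl⟩ := (hmem p).1 hp
    exact hpr_comap (latt k ρ₀) q hq.1
  · intro p hp p' hp' hle
    obtain ⟨q, hq, rfl⟩ := (hmem p).1 hp
    obtain ⟨q', hq', hqq', hcom⟩ := exists_hpr_over (latt k ρ₀) q hq.1.hom p' hp' hle
    rw [LQ_max hW ρ₀ hq hq' hqq'] at hcom
    exact hcom.symm
  · intro p' hp' hJ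
    obtain ⟨q', hq', _, hcom⟩ := exists_hpr_over (latt k ρ₀) ⊥ (by
        intro s hs i
        rw [Ideal.mem_bot] at hs ⊢
        rw [hs, map_zero]) p' hp' (by
        intro a ha
        rw [Ideal.mem_comap, Ideal.mem_bot] at ha
        have h0 : a = 0 := Subtype.ext ha
        rw [h0]
        exact p'.zero_mem)
    have hprime : q'.IsPrime := hq'.prime
    rcases dim_cases hW ρ₀ q' hq' with ⟨α, hα⟩ | hL
    · exfalso
      obtain ⟨m, β, θ, hθ, hβ⟩ := refl_family hW (latt k ρ₀) (inert (latt k ρ₀) q')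
        (fun w => latt_det_sign ρ₀ w) α hα
      obtain ⟨f, hf, hJS⟩ := JS_inert hW (latt k ρ₀) q' β θ hθ hβ
      obtain ⟨t, ht, htq⟩ := exists_JJ_of_JS (latt k ρ₀) q' hJS hf
      apply htq
      have h1 := hJ t ht
      rw [← hcom] at h1
      exact h1
    · exact (hmem p').2 ⟨q', ⟨hq', hL⟩, hcom⟩
  · intro p hp
    obtain ⟨q, hq, rfl⟩ := (hmem p).1 hp
    obtain ⟨hq1, t₀, c₁, c₂, hL⟩ := hq
    obtain ⟨et, e1, e2, t, s1, s2, het, he1, he2, ht, hs1, hs2, htq, hs1q, hs2q, hreg1, hreg2,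
      hab⟩ := exists_local hW ρ₀ q hq1 hL
    exact ⟨et, e1, e2, t, s1, s2, het, he1, he2, ht, hs1, hs2, htq, hs1q, hs2q, hreg1, hreg2,
      fun a ha b hb => hab a b ha hb⟩

end MP8a
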