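import Pool.Agent.Lib_MP_8a48ad_gt.R3Act

/-! # Stage 3: integral data of a line (definitions), Piece R3INT -/

set_option autoImplicit false

namespace MP8a

universe u

section

variable {W : Type*} [Group W] [Finite W]

/-- `∑_{γ ∈ Γ} ρ₀ γ`, an integral matrix -/
noncomputable def esum (ρ₀ : W →* GL (Fin 3) ℤ) (Γ : Subgroup W) : Matrix (Fin 3) (Fin 3) ℤ :=
  ∑ γ ∈ (Set.toFinite (Γ : Set W)).toFinset, (ρ₀ γ : Matrix (Fin 3) (Fin 3) ℤ)

/-- the image in `k^3` of a vector in `ℤ^3` -/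
def cv (k : Type u) [Field k] (c : Fin 3 → ℤ) : Fin 3 → k := fun i => (c i : k)

/-- The line of a subgroup `Γ`: `t₀` is fixed by `Γ`, the sum over `Γ` kills `c₁`, `c₂`, and `t₀, c₁, c₂` is a basis over `k`. -/
structure LD (k : Type u) [Field k] (ρ₀ : W →* GL (Fin 3) ℤ) (Γ : Subgroup W)
    (t₀ c₁ c₂ : Fin 3 → ℤ) : Prop where
  fix : ∀ γ ∈ Γ, (ρ₀ γ : Matrix (Fin 3) (Fin 3) ℤ).mulVec t₀ = t₀
  sum1 : (esum ρ₀ Γ).mulVec c₁ = 0
  sum2 : (esum ρ₀ Γ).mulVec c₂ = 0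
  det : (Matrix.of ![cv k t₀, cv k c₁, cv k c₂]).det ≠ 0

theorem latt_mulVec {k : Type u} [Field k] (ρ₀ : W →* GL (Fin 3) ℤ) (w : W) (c : Fin 3 → ℤ) :
    (latt k ρ₀ w : Matrix (Fin 3) (Fin 3) k).mulVec (cv k c) =
      cv k ((ρ₀ w : Matrix (Fin 3) (Fin 3) ℤ).mulVec c) := by
  funext i
  simp [latt, cv, Matrix.mulVec, dotProduct, Matrix.GeneralLinearGroup.map]

theorem latt_det_sign {k : Type u} [Field k] (ρ₀ : W →* GL (Fin 3) ℤ) (w : W) :
    (latt k ρ₀ w : Matrix (Fin 3) (Fin 3) k).det = 1 ∨ (latt k ρ₀ w : Matrix (Fin 3) (Fin 3) k).det = -1 := by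
  have h : IsUnit (ρ₀ w : Matrix (Fin 3) (Fin 3) ℤ).det :=
    (Matrix.isUnit_iff_isUnit_det _).1 (ρ₀ w).isUnit
  have h2 : (latt k ρ₀ w : Matrix (Fin 3) (Fin 3) k).det =
      (Int.castRingHom k) (ρ₀ w : Matrix (Fin 3) (Fin 3) ℤ).det := by
    rw [RingHom.map_det]
    rfl
  rcases Int.isUnit_iff.1 h with h1 | h1
  · left
    rw [h2, h1, map_one]
  · right
    rw [h2, h1, map_neg, map_one]

theorem esum_mul (ρ₀ : W →* GL (Fin 3) ℤ) (Γ : Subgroup W) {γ : W} (hγ : γ ∈ Γ) :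
    (ρ₀ γ : Matrix (Fin 3) (Fin 3) ℤ) * esum ρ₀ Γ = esum ρ₀ Γ ∧
      esum ρ₀ Γ * (ρ₀ γ : Matrix (Fin 3) (Fin 3) ℤ) = esum ρ₀ Γ := by
  constructor
  · unfold esum
    rw [Finset.mul_sum]
    refine Finset.sum_nbij' (fun δ => γ * δ) (fun δ => γ⁻¹ * δ) ?_ ?_ ?_ ?_ ?_
    · intro δ hδ
      simp only [Set.Finite.mem_toFinset, SetLike.mem_coe] at hδ ⊢
      exact Γ.mul_mem hγ hδ
    · intro δ hδ
      simp only [Set.Finite.mem_toFinset, SetLike.mem_coe] at hδ ⊢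
      exact Γ.mul_mem (Γ.inv_mem hγ) hδ
    · intro δ _
      exact inv_mul_cancel_left γ δ
    · intro δ _
      exact mul_inv_cancel_left γ δ
    · intro δ _
      rw [map_mul, Units.val_mul]
  · unfold esum
    rw [Finset.sum_mul]
    refine Finset.sum_nbij' (fun δ => δ * γ) (fun δ => δ * γ⁻¹) ?_ ?_ ?_ ?_ ?_
    · intro δ hδ
      simp only [Set.Finite.mem_toFinset, SetLike.mem_coe] at hδ ⊢
      exact Γ.mul_mem hδ hγ
    · intro δ hδ
      simp only [Set.Finite.mem_toFinset, SetLike.mem_coe] at hδ ⊢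
      exact Γ.mul_mem hδ (Γ.inv_mem hγ)
    · intro δ _
      exact mul_inv_cancel_right δ γ
    · intro δ _
      exact inv_mul_cancel_right δ γ
    · intro δ _
      rw [map_mul, Units.val_mul]

theorem esum_sq (ρ₀ : W →* GL (Fin 3) ℤ) (Γ : Subgroup W) :
    esum ρ₀ Γ * esum ρ₀ Γ = (Nat.card Γ : ℤ) • esum ρ₀ Γ := by
  have h : esum ρ₀ Γ * esum ρ₀ Γ =
      ∑ γ ∈ (Set.toFinite (Γ : Set W)).toFinset,
        (ρ₀ γ : Matrix (Fin 3) (Fin 3) ℤ) * esum ρ₀ Γ := by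
    conv_lhs => rw [esum]
    rw [Finset.sum_mul]
    rfl
  rw [h, Finset.sum_congr rfl (fun γ hγ => (esum_mul ρ₀ Γ
    ((Set.Finite.mem_toFinset _).1 hγ)).1), Finset.sum_const, natCast_zsmul]
  congr 1
  exact (Nat.card_eq_card_finite_toFinset (Set.toFinite (Γ : Set W))).symm

/-- `w` normalises `Γ` -/
theorem esum_conj (ρ₀ : W →* GL (Fin 3) ℤ) (Γ : Subgroup W) {w : W}
    (hw : ∀ γ ∈ Γ, w * γ * w⁻¹ ∈ Γ) (hw' : ∀ γ ∈ Γ, w⁻¹ * γ * w ∈ Γ) :
    (ρ₀ w : Matrix (Fin 3) (Fin 3) ℤ) * esum ρ₀ Γ = esum ρ₀ Γ * (ρ₀ w : Matrix (Fin 3) (Fin 3) ℤ) := by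
  unfold esum
  rw [Finset.mul_sum, Finset.sum_mul]
  refine Finset.sum_nbij' (fun δ => w * δ * w⁻¹) (fun δ => w⁻¹ * δ * w) ?_ ?_ ?_ ?_ ?_
  · intro δ hδ
    simp only [Set.Finite.mem_toFinset, SetLike.mem_coe] at hδ ⊢
    exact hw δ hδ
  · intro δ hδ
    simp only [Set.Finite.mem_toFinset, SetLike.mem_coe] at hδ ⊢
    exact hw' δ hδ
  · intro δ _
    group
  · intro δ _
    group
  · intro δ _
    rw [← Units.val_mul, ← Units.val_mul, ← map_mul, ← map_mul, inv_mul_cancel_right]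

/-- If `Γ` is contained in the inertia group of `q`, the forms `c₁`, `c₂` are in `q`. PROOF. `|Γ| lin c - lin (e c) = ∑_γ (lin c - γ lin c) ∈ q`, and `|Γ|` is invertible in `k` (it divides `|W|`). -/
theorem lin_mem_of_esum {k : Type u} [Field k] (hW : (Nat.card W : k) ≠ 0) (ρ₀ : W →* GL (Fin 3) ℤ)
    (q : Ideal (Sn k 3)) {Γ : Subgroup W} (hΓ : Γ ≤ inert (latt k ρ₀) q) {c : Fin 3 → ℤ}
    (hc : (esum ρ₀ Γ).mulVec c = 0) : lin (cv k c) ∈ q := by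
  have hsum : ∑ γ ∈ (Set.toFinite (Γ : Set W)).toFinset,
      wact (latt k ρ₀) γ (lin (cv k c)) = 0 := by
    have h1 : ∀ γ ∈ (Set.toFinite (Γ : Set W)).toFinset,
        wact (latt k ρ₀) γ (lin (cv k c)) =
          lin (cv k ((ρ₀ γ : Matrix (Fin 3) (Fin 3) ℤ).mulVec c)) := by
      intro γ _
      rw [wact, linAct_lin, latt_mulVec]
    rw [Finset.sum_congr rfl h1]
    have h2 : ∀ s : Finset W, ∑ γ ∈ s, lin (cv k ((ρ₀ γ : Matrix (Fin 3) (Fin 3) ℤ).mulVec c)) =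
        lin (cv k ((∑ γ ∈ s, (ρ₀ γ : Matrix (Fin 3) (Fin 3) ℤ)).mulVec c)) := by
      classical
      intro s
      induction s using Finset.induction_on with
      | empty =>
        rw [Finset.sum_empty, Finset.sum_empty, Matrix.zero_mulVec]
        have : cv k (0 : Fin 3 → ℤ) = 0 := by
          funext i
          simp [cv]
        rw [this, lin_zero]
      | insert a s ha ih =>
        rw [Finset.sum_insert ha, Finset.sum_insert ha, Matrix.add_mulVec, ih, ← lin_add]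
        congr 1
        funext i
        simp [cv]
    rw [h2]
    have h3 : (∑ γ ∈ (Set.toFinite (Γ : Set W)).toFinset,
        (ρ₀ γ : Matrix (Fin 3) (Fin 3) ℤ)).mulVec c = 0 := hc
    rw [h3]
    have : cv k (0 : Fin 3 → ℤ) = 0 := by
      funext i
      simp [cv]
    rw [this, lin_zero]
  have hdiff : ∑ γ ∈ (Set.toFinite (Γ : Set W)).toFinset,
      (wact (latt k ρ₀) γ (lin (cv k c)) - lin (cv k c)) ∈ q :=
    q.sum_mem fun γ hγ => hΓ ((Set.Finite.mem_toFinset _).1 hγ) _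
  rw [Finset.sum_sub_distrib, hsum, zero_sub, Finset.sum_const,
    ← Nat.card_eq_card_finite_toFinset (Set.toFinite (Γ : Set W))] at hdiff
  have hcard : (Nat.card Γ : k) ≠ 0 := by
    intro h0
    apply hW
    obtain ⟨m, hm⟩ := Subgroup.card_subgroup_dvd_card Γ
    rw [hm, Nat.cast_mul, h0, zero_mul]
  have h4 := q.neg_mem hdiff
  rw [neg_neg] at h4
  have h5 := q.mul_mem_left (MvPolynomial.C (Nat.card Γ : k)⁻¹) h4
  have h6 : MvPolynomial.C (Nat.card Γ : k)⁻¹ * (Nat.card (Γ : Set W) • lin (cv k c)) =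
      lin (cv k c) := by
    have h7 : (Nat.card (Γ : Set W) • lin (cv k c) : Sn k 3) =
        MvPolynomial.C (Nat.card Γ : k) * lin (cv k c) := by
      rw [nsmul_eq_mul, map_natCast]
      rfl
    rw [h7, ← mul_assoc, ← map_mul, inv_mul_cancel₀ hcard, map_one, one_mul]
  rw [h6] at h5
  exact h5

end

end MP8a
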