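import Pool.Agent.Lib_MP_8a48ad_gt.R3Int

/-! # Piece R3INT2: elements which normalise `Γ` -/

set_option autoImplicit false

namespace MP8a

universe u

section

/-- Cramer's rule -/
private theorem r3_span {R : Type*} [CommRing R] (a b c v : Fin 3 → R) :
    ∃ x y z : R, (Matrix.of ![a, b, c]).det • v = x • a + y • b + z • c := by
  have h : Matrix.vecMul (Matrix.vecMul v (Matrix.of ![a, b, c]).adjugate) (Matrix.of ![a, b, c]) =
      (Matrix.of ![a, b, c]).det • v := by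
    rw [Matrix.vecMul_vecMul, Matrix.adjugate_mul, Matrix.vecMul_smul, Matrix.vecMul_one]
  refine ⟨Matrix.vecMul v (Matrix.of ![a, b, c]).adjugate 0,
    Matrix.vecMul v (Matrix.of ![a, b, c]).adjugate 1,
    Matrix.vecMul v (Matrix.of ![a, b, c]).adjugate 2, ?_⟩
  rw [← h]
  funext j
  simp only [Matrix.vecMul, dotProduct, Fin.sum_univ_three, Matrix.of_apply, Matrix.cons_val_zero,
    Matrix.cons_val_one, Matrix.cons_val, Pi.add_apply, Pi.smul_apply, smul_eq_mul]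

private theorem r3_det {k : Type u} [Field k] (a b c : Fin 3 → ℤ) :
    (Matrix.of ![cv k a, cv k b, cv k c]).det = (((Matrix.of ![a, b, c]).det : ℤ) : k) := by
  rw [Matrix.det_fin_three, Matrix.det_fin_three]
  simp only [Matrix.of_apply, Matrix.cons_val_zero, Matrix.cons_val_one, Matrix.cons_val, cv]
  push_cast
  ring

private theorem r3_cv_add {k : Type u} [Field k] (a b : Fin 3 → ℤ) : cv k (a + b) = cv k a + cv k b := by
  funext i
  simp [cv]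

private theorem r3_cv_smul {k : Type u} [Field k] (m : ℤ) (a : Fin 3 → ℤ) :
    cv k (m • a) = (m : k) • cv k a := by
  funext i
  simp [cv]

private theorem r3_cv_zero {k : Type u} [Field k] : cv k (0 : Fin 3 → ℤ) = 0 := by
  funext i
  simp [cv]

variable {W : Type*} [Group W] [Finite W]

private theorem r3_card (Γ : Subgroup W) : (Set.toFinite (Γ : Set W)).toFinset.card = Nat.card Γ := by
  rw [← Set.ncard_eq_toFinset_card]
  rfl

private theorem r3_card_ne (Γ : Subgroup W) : ((Nat.card Γ : ℕ) : ℤ) ≠ 0 := by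
  have : 0 < Nat.card Γ := Nat.card_pos
  exact_mod_cast this.ne'

private theorem r3_e_mulVec (ρ₀ : W →* GL (Fin 3) ℤ) (Γ : Subgroup W) (v : Fin 3 → ℤ) :
    (esum ρ₀ Γ).mulVec v = ∑ γ ∈ (Set.toFinite (Γ : Set W)).toFinset,
      (ρ₀ γ : Matrix (Fin 3) (Fin 3) ℤ).mulVec v := by
  unfold esum
  rw [Matrix.sum_mulVec]

private theorem r3_et {k : Type u} [Field k] {ρ₀ : W →* GL (Fin 3) ℤ} {Γ : Subgroup W}
    {t₀ c₁ c₂ : Fin 3 → ℤ} (h : LD k ρ₀ Γ t₀ c₁ c₂) :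
    (esum ρ₀ Γ).mulVec t₀ = (Nat.card Γ : ℤ) • t₀ := by
  rw [r3_e_mulVec, Finset.sum_congr rfl (g := fun _ => t₀), Finset.sum_const, r3_card]
  · funext i
    simp
  · intro γ hγ
    exact h.fix γ ((Set.Finite.mem_toFinset _).1 hγ)

private theorem r3_D {k : Type u} [Field k] {ρ₀ : W →* GL (Fin 3) ℤ} {Γ : Subgroup W}
    {t₀ c₁ c₂ : Fin 3 → ℤ} (h : LD k ρ₀ Γ t₀ c₁ c₂) : (Matrix.of ![t₀, c₁, c₂]).det ≠ 0 := by
  intro h0
  apply h.det
  rw [r3_det, h0, Int.cast_zero]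

private theorem r3_t0 {k : Type u} [Field k] {ρ₀ : W →* GL (Fin 3) ℤ} {Γ : Subgroup W}
    {t₀ c₁ c₂ : Fin 3 → ℤ} (h : LD k ρ₀ Γ t₀ c₁ c₂) : t₀ ≠ 0 := by
  intro h0
  apply r3_D h
  rw [h0]
  exact Matrix.det_eq_zero_of_row_eq_zero 0 (fun j => rfl)

private theorem r3_smul_inj {m : ℤ} (hm : m ≠ 0) {u v : Fin 3 → ℤ} (h : m • u = m • v) : u = v := by
  funext i
  have h1 := congrFun h i
  simp only [Pi.smul_apply, smul_eq_mul] at h1
  exact mul_left_cancel₀ hm h1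

/-- Elements `w` which normalise `Γ` act on `t₀` by a sign. PROOF. Over `ℚ`, `t₀, c₁, c₂` is a basis (its determinant is an integer which is not zero, as it is not zero in `k`). Write `w t₀ = x t₀ + y c₁ + z c₂`; apply `e = esum`, which commutes with `w` (`esum_conj`), `e t₀ = |Γ| t₀`: `|Γ| w t₀ = |Γ| x t₀`,
so `w t₀ = x t₀`, and `x^{|W|} = 1`, `x ∈ ℚ`, `x = ±1`. -/
theorem LD.sign {k : Type u} [Field k] {ρ₀ : W →* GL (Fin 3) ℤ} {Γ : Subgroup W}
    {t₀ c₁ c₂ : Fin 3 → ℤ} (h : LD k ρ₀ Γ t₀ c₁ c₂) {w : W} (hw : ∀ γ ∈ Γ, w * γ * w⁻¹ ∈ Γ)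
    (hw' : ∀ γ ∈ Γ, w⁻¹ * γ * w ∈ Γ) :
    (ρ₀ w : Matrix (Fin 3) (Fin 3) ℤ).mulVec t₀ = t₀ ∨
      (ρ₀ w : Matrix (Fin 3) (Fin 3) ℤ).mulVec t₀ = -t₀ := by
  set M : Matrix (Fin 3) (Fin 3) ℤ := (ρ₀ w : Matrix (Fin 3) (Fin 3) ℤ) with hM
  set D : ℤ := (Matrix.of ![t₀, c₁, c₂]).det with hD
  have hD0 : D ≠ 0 := r3_D h
  obtain ⟨x, y, z, hxyz⟩ := r3_span t₀ c₁ c₂ (M.mulVec t₀)
  rw [← hD] at hxyz
  have hcomm : (esum ρ₀ Γ).mulVec (M.mulVec t₀) = M.mulVec ((esum ρ₀ Γ).mulVec t₀) := by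
    rw [Matrix.mulVec_mulVec, Matrix.mulVec_mulVec, esum_conj ρ₀ Γ hw hw']
  have h1 := congrArg (fun v => (esum ρ₀ Γ).mulVec v) hxyz
  simp only [Matrix.mulVec_add, Matrix.mulVec_smul, h.sum1, h.sum2, smul_zero, add_zero, hcomm,
    r3_et h] at h1
  have h2 : D • M.mulVec t₀ = x • t₀ := by
    apply r3_smul_inj (r3_card_ne Γ)
    rw [smul_comm, smul_comm (Nat.card Γ : ℤ) x]
    exact h1
  -- powers
  have h3 : ∀ n : ℕ, D ^ n • (M ^ n).mulVec t₀ = x ^ n • t₀ := by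
    intro n
    induction n with
    | zero => simp
    | succ n ih =>
      calc D ^ (n + 1) • (M ^ (n + 1)).mulVec t₀
          = D ^ n • (M ^ n).mulVec (D • M.mulVec t₀) := by
            rw [pow_succ, pow_succ, ← Matrix.mulVec_mulVec, Matrix.mulVec_smul, smul_smul]
        _ = x • (D ^ n • (M ^ n).mulVec t₀) := by
            rw [h2, Matrix.mulVec_smul, smul_comm]
        _ = x ^ (n + 1) • t₀ := by rw [ih, smul_smul, pow_succ, mul_comm]
  have hN : 0 < Nat.card W := Nat.card_pos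
  have hMN : M ^ (Nat.card W) = 1 := by
    have h4 : (ρ₀ w) ^ (Nat.card W) = 1 := by
      rw [← map_pow, pow_card_eq_one', map_one]
    have h5 := congrArg (fun g : GL (Fin 3) ℤ => (g : Matrix (Fin 3) (Fin 3) ℤ)) h4
    simpa using h5
  have h4 := h3 (Nat.card W)
  rw [hMN, Matrix.one_mulVec] at h4
  obtain ⟨i, hi⟩ : ∃ i, t₀ i ≠ 0 := by
    by_contra hcon
    push Not at hcon
    exact r3_t0 h (funext hcon)
  have h5 : D ^ (Nat.card W) = x ^ (Nat.card W) := by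
    have h6 := congrFun h4 i
    simp only [Pi.smul_apply, smul_eq_mul] at h6
    exact mul_right_cancel₀ hi h6
  have h6 : D.natAbs = x.natAbs := by
    have h7 := congrArg Int.natAbs h5
    rw [Int.natAbs_pow, Int.natAbs_pow] at h7
    exact Nat.pow_left_injective hN.ne' h7
  rcases Int.natAbs_eq_natAbs_iff.1 h6 with h7 | h7
  · left
    rw [← h7] at h2
    exact r3_smul_inj hD0 h2
  · right
    apply r3_smul_inj hD0
    rw [h2, h7, smul_neg, neg_smul, neg_neg]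

/-- `w` preserves the plane spanned by `c₁`, `c₂`. PROOF. `e (w c_i) = w (e c_i) = 0`; write `w c_i = x t₀ + y c₁ + z c₂` over `ℚ` (or over `k`, with the image of `e`): `|Γ| x t₀ = 0`. Over `k`, `|Γ|` is invertible. -/
theorem LD.plane {k : Type u} [Field k] (hW : (Nat.card W : k) ≠ 0) {ρ₀ : W →* GL (Fin 3) ℤ}
    {Γ : Subgroup W} {t₀ c₁ c₂ : Fin 3 → ℤ} (h : LD k ρ₀ Γ t₀ c₁ c₂) {w : W}
    (hw : ∀ γ ∈ Γ, w * γ * w⁻¹ ∈ Γ) (hw' : ∀ γ ∈ Γ, w⁻¹ * γ * w ∈ Γ) {c : Fin 3 → ℤ}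
    (hc : c = c₁ ∨ c = c₂) :
    ∃ x y : k, (latt k ρ₀ w : Matrix (Fin 3) (Fin 3) k).mulVec (cv k c) = x • cv k c₁ + y • cv k c₂ := by
  have hec : (esum ρ₀ Γ).mulVec c = 0 := by
    rcases hc with rfl | rfl
    · exact h.sum1
    · exact h.sum2
  set M : Matrix (Fin 3) (Fin 3) ℤ := (ρ₀ w : Matrix (Fin 3) (Fin 3) ℤ) with hM
  obtain ⟨x, y, z, hxyz⟩ := r3_span t₀ c₁ c₂ (M.mulVec c)
  have hcomm : (esum ρ₀ Γ).mulVec (M.mulVec c) = 0 := by
    rw [Matrix.mulVec_mulVec, ← esum_conj ρ₀ Γ hw hw', ← Matrix.mulVec_mulVec, hec,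
      Matrix.mulVec_zero]
  have h1 := congrArg (fun v => (esum ρ₀ Γ).mulVec v) hxyz
  simp only [Matrix.mulVec_add, Matrix.mulVec_smul, h.sum1, h.sum2, smul_zero, add_zero, hcomm,
    r3_et h] at h1
  obtain ⟨i, hi⟩ : ∃ i, t₀ i ≠ 0 := by
    by_contra hcon
    push Not at hcon
    exact r3_t0 h (funext hcon)
  have hx : x = 0 := by
    have h2 := congrFun h1 i
    simp only [Pi.smul_apply, smul_eq_mul, Pi.zero_apply] at h2
    by_contra hx
    exact mul_ne_zero hx (mul_ne_zero (r3_card_ne Γ) hi) h2.symm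
  rw [hx, zero_smul, zero_add] at hxyz
  have h2 := congrArg (cv k) hxyz
  rw [r3_cv_smul, r3_cv_add, r3_cv_smul, r3_cv_smul, ← r3_det] at h2
  have hd := h.det
  set d : k := (Matrix.of ![cv k t₀, cv k c₁, cv k c₂]).det with hd'
  refine ⟨d⁻¹ * (y : k), d⁻¹ * (z : k), ?_⟩
  rw [latt_mulVec, ← hM, mul_smul, mul_smul, ← smul_add, ← h2, smul_smul, inv_mul_cancel₀ hd,
    one_smul]

/-- `Γ` has no fixed vector in the plane. PROOF. A fixed vector `x` satisfies `e x = |Γ| x`, and `e x = 0` for `x` in the plane. -/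
theorem LD.nofix {k : Type u} [Field k] (hW : (Nat.card W : k) ≠ 0) {ρ₀ : W →* GL (Fin 3) ℤ}
    {Γ : Subgroup W} {t₀ c₁ c₂ : Fin 3 → ℤ} (h : LD k ρ₀ Γ t₀ c₁ c₂) {x y : k}
    (hx : ∀ γ ∈ Γ, (latt k ρ₀ γ : Matrix (Fin 3) (Fin 3) k).mulVec (x • cv k c₁ + y • cv k c₂) =
      x • cv k c₁ + y • cv k c₂) : x = 0 ∧ y = 0 := by
  have hcard : ((Nat.card Γ : ℕ) : k) ≠ 0 := by
    intro h0
    apply hW
    obtain ⟨m, hm⟩ := Subgroup.card_subgroup_dvd_card Γ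
    rw [hm, Nat.cast_mul, h0, zero_mul]
  have hcvsum : ∀ (s : Finset W) (f : W → (Fin 3 → ℤ)),
      ∑ γ ∈ s, cv k (f γ) = cv k (∑ γ ∈ s, f γ) := by
    intro s f
    funext i
    simp [cv, Finset.sum_apply]
  have hS : ∀ c : Fin 3 → ℤ, (esum ρ₀ Γ).mulVec c = 0 →
      ∑ γ ∈ (Set.toFinite (Γ : Set W)).toFinset,
        (latt k ρ₀ γ : Matrix (Fin 3) (Fin 3) k).mulVec (cv k c) = 0 := by
    intro c hc
    rw [Finset.sum_congr rfl (fun γ _ => latt_mulVec ρ₀ γ c), hcvsum, ← r3_e_mulVec, hc, r3_cv_zero]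
  have h1 : ∑ γ ∈ (Set.toFinite (Γ : Set W)).toFinset,
      (latt k ρ₀ γ : Matrix (Fin 3) (Fin 3) k).mulVec (x • cv k c₁ + y • cv k c₂) = 0 := by
    simp only [Matrix.mulVec_add, Matrix.mulVec_smul]
    rw [Finset.sum_add_distrib, ← Finset.smul_sum, ← Finset.smul_sum, hS c₁ h.sum1, hS c₂ h.sum2,
      smul_zero, smul_zero, add_zero]
  have h2 : ∑ γ ∈ (Set.toFinite (Γ : Set W)).toFinset,
      (latt k ρ₀ γ : Matrix (Fin 3) (Fin 3) k).mulVec (x • cv k c₁ + y • cv k c₂) =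
      ((Nat.card Γ : ℕ) : k) • (x • cv k c₁ + y • cv k c₂) := by
    rw [Finset.sum_congr rfl (fun γ hγ => hx γ ((Set.Finite.mem_toFinset _).1 hγ)),
      Finset.sum_const, r3_card, Nat.cast_smul_eq_nsmul]
  have h3 : x • cv k c₁ + y • cv k c₂ = 0 := by
    rw [h1] at h2
    exact (smul_eq_zero.1 h2.symm).resolve_left hcard
  have h4 : Matrix.vecMul ![0, x, y] (Matrix.of ![cv k t₀, cv k c₁, cv k c₂]) = 0 := by
    rw [← h3]
    funext j
    simp only [Matrix.vecMul, dotProduct, Fin.sum_univ_three, Matrix.of_apply, Matrix.cons_val_zero,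
      Matrix.cons_val_one, Matrix.cons_val, Pi.add_apply, Pi.smul_apply, smul_eq_mul, zero_mul,
      zero_add]
  have h5 := Matrix.eq_zero_of_vecMul_eq_zero h.det h4
  exact ⟨congrFun h5 1, congrFun h5 2⟩

end

end MP8a
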