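import Pool.Agent.Lib_MP_8a48ad_gt.R3Defs

/-! # Piece R3LOC: localisation of DG modules at a homogeneous element -/

set_option autoImplicit false

namespace MP8a

universe u

variable {A : Type u} [CommRing A] {G : Gr A}

/-- The localisation `M → M[1/t]` as a map of DG modules. -/
structure IsLoc (M N : DGM G) (t : A) (lam : M.X →ₗ[A] N.X) : Prop where
  mor : IsMor M N 0 lam
  inj : ∀ x : N.X, t • x = 0 → x = 0
  surj : ∀ x : N.X, ∃ y, t • y = x
  exists_pow : ∀ x : N.X, ∃ (m : ℕ) (y : M.X), t ^ m • x = lam y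
  ker : ∀ y : M.X, lam y = 0 → ∃ m : ℕ, t ^ m • y = 0

/-! ### the construction -/

theorem r3loc_log (t : A) (s : Submonoid.powers t) : ∃ m : ℕ, t ^ m = (s : A) :=
  (Submonoid.mem_powers_iff _ _).1 s.2

theorem r3loc_pr_pow (M : DGM G) {e : ℤ} {t : A} (ht : G.c e t = t) (m : ℕ) (j : ℤ) (x : M.X) :
    M.pr (j + m * e) (t ^ m • x) = t ^ m • M.pr j x := by
  have h := M.pr_smul (G.pow_hom ht m) j x
  rw [add_comm] at h
  exact h

theorem r3loc_wd (M : DGM G) {e : ℤ} {t : A} (ht : G.c e t = t) (i : ℤ) {x x' : M.X}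
    {s s' : Submonoid.powers t} {m m' : ℕ} (hm : t ^ m = (s : A)) (hm' : t ^ m' = (s' : A))
    (h : LocalizedModule.mk x s = LocalizedModule.mk x' s') :
    LocalizedModule.mk (M.pr (i + m * e) x) s = LocalizedModule.mk (M.pr (i + m' * e) x') s' := by
  rw [LocalizedModule.mk_eq] at h ⊢
  obtain ⟨u, hu⟩ := h
  obtain ⟨l, hl⟩ := r3loc_log t u
  refine ⟨u, ?_⟩
  have h1 : t ^ l • t ^ m' • x = t ^ l • t ^ m • x' := by
    rw [hl, hm, hm']
    exact hu
  have h2 := congrArg (M.pr (i + m * e + m' * e + l * e)) h1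
  rw [r3loc_pr_pow M ht, r3loc_pr_pow M ht, r3loc_pr_pow M ht,
    show i + (m : ℤ) * e + (m' : ℤ) * e = i + (m' : ℤ) * e + (m : ℤ) * e by ring,
    r3loc_pr_pow M ht] at h2
  rw [hl, hm, hm'] at h2
  exact h2

/-- the projections -/
noncomputable def r3locPr (M : DGM G) {e : ℤ} {t : A} (ht : G.c e t = t) (i : ℤ)
    (y : LocalizedModule (Submonoid.powers t) M.X) : LocalizedModule (Submonoid.powers t) M.X :=
  y.liftOn (fun p => LocalizedModule.mk (M.pr (i + ((r3loc_log t p.2).choose : ℕ) * e) p.1) p.2)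
    (fun p p' h => r3loc_wd M ht i (r3loc_log t p.2).choose_spec (r3loc_log t p'.2).choose_spec
      (LocalizedModule.mk_eq.2 h))

theorem r3locPr_mk (M : DGM G) {e : ℤ} {t : A} (ht : G.c e t = t) (i : ℤ) (x : M.X)
    {s : Submonoid.powers t} {m : ℕ} (hm : t ^ m = (s : A)) :
    r3locPr M ht i (LocalizedModule.mk x s) = LocalizedModule.mk (M.pr (i + m * e) x) s := by
  unfold r3locPr
  rw [LocalizedModule.liftOn_mk]
  exact r3loc_wd M ht i (r3loc_log t s).choose_spec hm rfl

theorem r3loc_ind {M : DGM G} {t : A} {P : LocalizedModule (Submonoid.powers t) M.X → Prop}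
    (h : ∀ (x : M.X) (s : Submonoid.powers t) (m : ℕ), t ^ m = (s : A) → P (LocalizedModule.mk x s))
    (y : LocalizedModule (Submonoid.powers t) M.X) : P y := by
  induction y using LocalizedModule.induction_on with
  | h x s =>
    obtain ⟨m, hm⟩ := r3loc_log t s
    exact h x s m hm

theorem r3locPr_zero (M : DGM G) {e : ℤ} {t : A} (ht : G.c e t = t) (i : ℤ) :
    r3locPr M ht i 0 = 0 := by
  have h1 : t ^ 0 = ((1 : Submonoid.powers t) : A) := by rw [pow_zero]; rfl
  rw [← LocalizedModule.zero_mk (1 : Submonoid.powers t), r3locPr_mk M ht i _ h1, map_zero]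

theorem r3locPr_add (M : DGM G) {e : ℤ} {t : A} (ht : G.c e t = t) (i : ℤ)
    (y z : LocalizedModule (Submonoid.powers t) M.X) :
    r3locPr M ht i (y + z) = r3locPr M ht i y + r3locPr M ht i z := by
  refine r3loc_ind (P := fun y => r3locPr M ht i (y + z) = r3locPr M ht i y + r3locPr M ht i z) ?_ y
  intro x s m hm
  refine r3loc_ind (P := fun z => r3locPr M ht i (LocalizedModule.mk x s + z) =
    r3locPr M ht i (LocalizedModule.mk x s) + r3locPr M ht i z) ?_ z
  intro x' s' m' hm'
  have hmm : t ^ (m + m') = ((s * s' : Submonoid.powers t) : A) := by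
    rw [pow_add, hm, hm']
    rfl
  rw [LocalizedModule.mk_add_mk, r3locPr_mk M ht i _ hmm, r3locPr_mk M ht i _ hm,
    r3locPr_mk M ht i _ hm', LocalizedModule.mk_add_mk, map_add]
  have h1 : M.pr (i + ((m + m' : ℕ) : ℤ) * e) (s' • x) = s' • M.pr (i + m * e) x := by
    have h2 := r3loc_pr_pow M ht m' (i + m * e) x
    rw [hm'] at h2
    have h3 : i + ((m + m' : ℕ) : ℤ) * e = i + (m : ℤ) * e + (m' : ℤ) * e := by
      push_cast
      ring
    rw [h3]
    exact h2
  have h1' : M.pr (i + ((m + m' : ℕ) : ℤ) * e) (s • x') = s • M.pr (i + m' * e) x' := by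
    have h2 := r3loc_pr_pow M ht m (i + m' * e) x'
    rw [hm] at h2
    have h3 : i + ((m + m' : ℕ) : ℤ) * e = i + (m' : ℤ) * e + (m : ℤ) * e := by
      push_cast
      ring
    rw [h3]
    exact h2
  rw [h1, h1']

theorem r3loc_mk_add {M : DGM G} {t : A} (s : Submonoid.powers t) (x x' : M.X) :
    LocalizedModule.mk (x + x') s = LocalizedModule.mk x s + LocalizedModule.mk x' s := by
  rw [LocalizedModule.mk_add_mk, ← smul_add, LocalizedModule.mk_cancel_common_left]

/-- the additive map `x ↦ x / s` -/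
noncomputable def r3locHom (M : DGM G) {t : A} (s : Submonoid.powers t) :
    M.X →+ LocalizedModule (Submonoid.powers t) M.X where
  toFun x := LocalizedModule.mk x s
  map_zero' := LocalizedModule.zero_mk s
  map_add' x x' := r3loc_mk_add s x x'

/-- the differential -/
noncomputable def r3locD (M : DGM G) (t : A) : LocalizedModule (Submonoid.powers t) M.X →ₗ[A]
    LocalizedModule (Submonoid.powers t) M.X :=
  IsLocalizedModule.map (Submonoid.powers t) (LocalizedModule.mkLinearMap (Submonoid.powers t) M.X)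
    (LocalizedModule.mkLinearMap (Submonoid.powers t) M.X) M.d

theorem r3locD_mk (M : DGM G) (t : A) (x : M.X) (s : Submonoid.powers t) :
    r3locD M t (LocalizedModule.mk x s) = LocalizedModule.mk (M.d x) s :=
  IsLocalizedModule.map_LocalizedModules _ _ _ _

/-- the localisation as a DG module -/
noncomputable def r3locN (M : DGM G) {e : ℤ} {t : A} (ht : G.c e t = t) : DGM G where
  X := LocalizedModule (Submonoid.powers t) M.X
  pr i :=
    { toFun := r3locPr M ht i
      map_zero' := r3locPr_zero M ht i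
      map_add' := r3locPr_add M ht i }
  pr_pr i j y := by
    refine r3loc_ind (P := fun y => r3locPr M ht i (r3locPr M ht j y) =
      if i = j then r3locPr M ht j y else 0) ?_ y
    intro x s m hm
    rw [r3locPr_mk M ht j _ hm, r3locPr_mk M ht i _ hm, M.pr_pr]
    by_cases h : i = j
    · rw [if_pos h, if_pos (by rw [h])]
    · rw [if_neg h, if_neg (fun h' => h (add_right_cancel h')), LocalizedModule.zero_mk]
  fin y := by
    refine r3loc_ind (P := fun y => ∃ s : Finset ℤ, ∑ i ∈ s, r3locPr M ht i y = y) ?_ y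
    intro x s m hm
    obtain ⟨F, hF⟩ := M.fin x
    refine ⟨F.map (addRightEmbedding (-(m * e))), ?_⟩
    rw [Finset.sum_map]
    have h1 : ∀ i ∈ F, r3locPr M ht (addRightEmbedding (-(m * e)) i) (LocalizedModule.mk x s) =
        r3locHom M s (M.pr i x) := by
      intro i _
      rw [r3locPr_mk M ht _ _ hm]
      show LocalizedModule.mk (M.pr (i + -(m * e) + m * e) x) s = LocalizedModule.mk (M.pr i x) s
      rw [neg_add_cancel_right]
    rw [Finset.sum_congr rfl h1, ← map_sum, hF]
    rfl
  smul := by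
    intro i j a y ha hy
    revert hy
    refine r3loc_ind (P := fun y => r3locPr M ht j y = y → r3locPr M ht (i + j) (a • y) = a • y)
      ?_ y
    intro x s m hm hy
    rw [← hy, r3locPr_mk M ht j _ hm, LocalizedModule.smul'_mk, r3locPr_mk M ht (i + j) _ hm]
    have h1 := M.smul ha (M.pr_self (j + m * e) x)
    rw [← add_assoc] at h1
    rw [h1]
  d := r3locD M t
  d_hom := by
    intro i y hy
    revert hy
    refine r3loc_ind (P := fun y => r3locPr M ht i y = y →
      r3locPr M ht (i + 1) (r3locD M t y) = r3locD M t y) ?_ y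
    intro x s m hm hy
    rw [← hy, r3locPr_mk M ht i _ hm, r3locD_mk, r3locPr_mk M ht (i + 1) _ hm]
    have h1 := M.d_hom (M.pr_self (i + m * e) x)
    rw [add_right_comm] at h1
    rw [h1]
  d_d y := by
    refine r3loc_ind (P := fun y => r3locD M t (r3locD M t y) = 0) ?_ y
    intro x s m hm
    rw [r3locD_mk, r3locD_mk, M.d_d, LocalizedModule.zero_mk]

/-- PROOF. `N.X = LocalizedModule (Submonoid.powers t) M.X` (as an `A`-module), `d (x / t^m) = d x / t^m` (`IsLocalizedModule.map` or `LocalizedModule.map`), and, if `t` is homogeneous of degree `e`,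
`pr i (x / t^m) = pr (i + m e) x / t^m`, well defined because `pr (i + m e + l e) (t^l x) = t^l pr (i + m e) x` (`DGM.pr_smul`, `Gr.pow_hom`). All axioms are checked on fractions `x / t^m` (with a common denominator for sums).
Alternatively: `N.X` = the quotient of the DG module `⊕_{m ∈ ℕ} M[m e]` (finitely supported functions) by the image of `x_m ↦ x_m - (t x)_{m+1}`. -/
theorem exists_isLoc (M : DGM G) {e : ℤ} {t : A} (ht : G.c e t = t) :
    ∃ (N : DGM G) (lam : M.X →ₗ[A] N.X), IsLoc M N t lam := by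
  refine ⟨r3locN M ht, LocalizedModule.mkLinearMap (Submonoid.powers t) M.X, ⟨?_, ?_⟩, ?_, ?_, ?_, ?_⟩
  · intro i x
    have h1 : t ^ 0 = ((1 : Submonoid.powers t) : A) := by rw [pow_zero]; rfl
    show r3locPr M ht (i + 0) (LocalizedModule.mk x 1) = LocalizedModule.mk (M.pr i x) 1
    rw [r3locPr_mk M ht _ _ h1, Nat.cast_zero, zero_mul, add_zero, add_zero]
  · intro x
    exact r3locD_mk M t x 1
  · intro y hy
    have h1 : IsUnit (algebraMap A (Module.End A (LocalizedModule (Submonoid.powers t) M.X)) t) :=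
      IsLocalizedModule.map_units (LocalizedModule.mkLinearMap (Submonoid.powers t) M.X)
        (⟨t, Submonoid.mem_powers t⟩ : Submonoid.powers t)
    rw [Module.End.isUnit_iff] at h1
    exact (injective_iff_map_eq_zero (algebraMap A
      (Module.End A (LocalizedModule (Submonoid.powers t) M.X)) t)).1 h1.1 y hy
  · intro y
    have h1 : IsUnit (algebraMap A (Module.End A (LocalizedModule (Submonoid.powers t) M.X)) t) :=
      IsLocalizedModule.map_units (LocalizedModule.mkLinearMap (Submonoid.powers t) M.X)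
        (⟨t, Submonoid.mem_powers t⟩ : Submonoid.powers t)
    rw [Module.End.isUnit_iff] at h1
    exact h1.2 y
  · intro y
    obtain ⟨⟨x, s⟩, hx⟩ := IsLocalizedModule.surj (Submonoid.powers t)
      (LocalizedModule.mkLinearMap (Submonoid.powers t) M.X) y
    obtain ⟨m, hm⟩ := r3loc_log t s
    refine ⟨m, x, ?_⟩
    rw [hm]
    exact hx
  · intro x hx
    obtain ⟨s, hs⟩ := (IsLocalizedModule.eq_zero_iff (Submonoid.powers t)
      (LocalizedModule.mkLinearMap (Submonoid.powers t) M.X)).1 hx
    obtain ⟨m, hm⟩ := r3loc_log t s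
    refine ⟨m, ?_⟩
    rw [hm]
    exact hs

end MP8a
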