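import Pool.Agent.Lib_MP_8a48ad_gt.R3Tb
import Pool.Agent.Lib_MP_8a48ad_gt.R3Loc

/-! # Piece R3KOZ: the cone of `s` and the quotient by `s`, localised at `t` -/

set_option autoImplicit false

namespace MP8a

universe u

variable {A : Type u} [CommRing A] {G : Gr A}

/-- the map `cone(s : M → M[e']) → M[e'] / s M` -/
noncomputable def mcQuo (M : DGM G) {e' : ℤ} {s : A} (hs : G.c e' s = s) (he' : Even e') :
    (M.mc hs he').X →ₗ[A] ((M.sh e').quo _ (isMor_mul M hs he').range_pr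
      (isMor_mul M hs he').range_d).X :=
  (LinearMap.range (s • (LinearMap.id : M.X →ₗ[A] M.X))).mkQ ∘ₗ LinearMap.fst A M.X M.X

theorem isMor_mcQuo (M : DGM G) {e' : ℤ} {s : A} (hs : G.c e' s = s) (he' : Even e') :
    IsMor (M.mc hs he') ((M.sh e').quo _ (isMor_mul M hs he').range_pr
      (isMor_mul M hs he').range_d) 0 (mcQuo M hs he') := by
  refine ⟨fun i x => ?_, fun x => ?_⟩
  · rw [add_zero]
    rfl
  · change (Submodule.Quotient.mk ((M.sh e').d x.1) : M.X ⧸ LinearMap.range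
        (s • (LinearMap.id : M.X →ₗ[A] M.X))) =
      Submodule.Quotient.mk ((M.sh e').d x.1 + (s • (LinearMap.id : M.X →ₗ[A] M.X)) x.2)
    rw [Submodule.Quotient.eq]
    rw [sub_add_cancel_left]
    exact Submodule.neg_mem _ ⟨x.2, rfl⟩

/-- abstract form: `f : P → Q` surjective (also in each degree), `t` kills the cohomology of the kernel -/
private theorem koz_abs {P Q N : DGM G} {f : P.X →ₗ[A] Q.X} {lam : Q.X →ₗ[A] N.X}
    (hf : IsMor P Q 0 f) {e : ℤ} (he : 0 ≤ e) {t : A} (ht : G.c e t = t)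
    (hlift : ∀ i q, Q.pr i q = q → ∃ x, P.pr i x = x ∧ f x = q)
    (hsurj : ∀ q, ∃ x, f x = q)
    (hK : ∀ l, f l = 0 → P.d l = 0 → ∃ w, f w = 0 ∧ P.d w = t • l)
    (hl : IsLoc Q N t lam) {m : ℤ} (hTB : TB P t e m) : HIs P N (lam ∘ₗ f) m := by
  have hinjp : ∀ (r : ℕ) (x : N.X), t ^ r • x = 0 → x = 0 := by
    intro r
    induction r with
    | zero =>
      intro x hx
      rwa [pow_zero, one_smul] at hx
    | succ r ih =>
      intro x hx
      rw [pow_succ, mul_smul] at hx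
      exact hl.inj x (ih _ hx)
  have hsurp : ∀ (r : ℕ) (x : N.X), ∃ y, t ^ r • y = x := by
    intro r
    induction r with
    | zero =>
      intro x
      exact ⟨x, by rw [pow_zero, one_smul]⟩
    | succ r ih =>
      intro x
      obtain ⟨y, hy⟩ := ih x
      obtain ⟨z, hz⟩ := hl.surj y
      exact ⟨z, by rw [pow_succ, mul_smul, hz, hy]⟩
  intro j hj
  constructor
  · intro x hx hdx y hy
    rw [LinearMap.comp_apply] at hy
    obtain ⟨a, q, hq⟩ := hl.exists_pow y
    have h1 : lam (t ^ a • f x - Q.d q) = 0 := by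
      rw [map_sub, map_smul, ← hl.mor.d, ← hq, map_smul, hy, sub_self]
    obtain ⟨b, hb⟩ := hl.ker _ h1
    obtain ⟨w', hw'⟩ := hsurj (t ^ b • q)
    have h2 : f (t ^ (b + a) • x - P.d w') = 0 := by
      rw [map_sub, map_smul, ← hf.d, hw', map_smul, pow_add, mul_smul, ← smul_sub]
      exact hb
    have h3 : P.d (t ^ (b + a) • x - P.d w') = 0 := by
      rw [map_sub, map_smul, hdx, smul_zero, P.d_d, sub_zero]
    obtain ⟨w, _, hw⟩ := hK _ h2 h3
    have h4 := (TB.pow he ht hTB (b + a + 1)) j hj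
    refine h4.1 x hx hdx ⟨w + t • w', ?_⟩
    rw [map_add, hw, map_smul, smul_sub, sub_add_cancel, smul_smul, pow_succ, mul_comm t]
  · intro y hy hdy
    obtain ⟨a, q0, hq0⟩ := hl.exists_pow y
    obtain ⟨q, hqd⟩ : ∃ q, q = Q.pr (j + a * e) q0 := ⟨_, rfl⟩
    have hqh : Q.pr (j + a * e) q = q := by rw [hqd, Q.pr_self]
    have hq : t ^ a • y = lam q := by
      have h := hl.mor.pr (j + a * e) q0
      rw [add_zero] at h
      rw [hqd, ← h, ← hq0, add_comm j, N.pr_smul (G.pow_hom ht a), hy]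
    have h1 : lam (Q.d q) = 0 := by
      rw [← hl.mor.d, ← hq, map_smul, hdy, smul_zero]
    obtain ⟨b, hb⟩ := hl.ker _ h1
    obtain ⟨c, hc⟩ : ∃ c, c = b + a := ⟨_, rfl⟩
    obtain ⟨q1, hq1⟩ : ∃ q1, q1 = t ^ b • q := ⟨_, rfl⟩
    have hq1d : Q.d q1 = 0 := by rw [hq1, map_smul, hb]
    have hq1y : t ^ c • y = lam q1 := by
      rw [hc, hq1, map_smul, ← hq, smul_smul, pow_add]
    have hq1h : Q.pr (j + c * e) q1 = q1 := by
      have h2 : j + (c : ℤ) * e = b * e + (j + a * e) := by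
        rw [hc]
        push_cast
        ring
      rw [h2, hq1, Q.pr_smul (G.pow_hom ht b), hqh]
    obtain ⟨x', _, hx'⟩ := hlift _ _ hq1h
    have h2 : f (P.d x') = 0 := by rw [← hf.d, hx', hq1d]
    obtain ⟨l, hl0, hl1⟩ := hK _ h2 (P.d_d x')
    obtain ⟨z1, hz1⟩ : ∃ z1, z1 = t • x' - l := ⟨_, rfl⟩
    have hz1d : P.d z1 = 0 := by rw [hz1, map_sub, map_smul, hl1, sub_self]
    have hz1f : f z1 = t • q1 := by rw [hz1, map_sub, map_smul, hl0, sub_zero, hx']
    obtain ⟨z2, hz2⟩ : ∃ z2, z2 = P.pr (j + ((c + 1 : ℕ) : ℤ) * e) z1 := ⟨_, rfl⟩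
    have hz2h : P.pr (j + ((c + 1 : ℕ) : ℤ) * e) z2 = z2 := by rw [hz2, P.pr_self]
    have hz2d : P.d z2 = 0 := by rw [hz2, ← P.pr_d, hz1d, map_zero]
    have hz2f : f z2 = t • q1 := by
      have h := hf.pr (j + ((c + 1 : ℕ) : ℤ) * e) z1
      rw [add_zero] at h
      have h3 : j + ((c + 1 : ℕ) : ℤ) * e = e + (j + c * e) := by
        push_cast
        ring
      rw [hz2, ← h, hz1f, h3, Q.pr_smul ht, hq1h]
    obtain ⟨z, w, hzh, hzd, hzw⟩ := ((TB.pow he ht hTB (c + 1)) j hj).2 z2 hz2h hz2d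
    have h5 : t ^ (c + 1) • y = t ^ (c + 1) • lam (f z) + N.d (lam (f w)) := by
      rw [pow_succ', mul_smul, hq1y, ← map_smul, ← hz2f, hzw, map_add, map_add, map_smul, map_smul,
        ← hf.d, ← hl.mor.d, pow_succ', mul_smul]
    obtain ⟨v, hv⟩ := hsurp (c + 1) (lam (f w))
    refine ⟨z, v, hzh, hzd, ?_⟩
    rw [LinearMap.comp_apply]
    have h6 : t ^ (c + 1) • (y - (lam (f z) + N.d v)) = 0 := by
      rw [smul_sub, smul_add, ← map_smul N.d, hv, h5, sub_self]
    exact sub_eq_zero.1 (hinjp _ _ h6)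

/-- Let `P` be the cone of `s : M → M[e']`, `Q = M[e'] / s M`, `Q → N` the localisation at `t`. Suppose that `s x = 0` implies `t x = 0` in `M`, and that `t` is bijective on `H^j(P)` for `j ≥ m`. Then `H^j(P) → H^j(N)` is bijective for `j ≥ m`.
PROOF. `π : P → Q`, `(x0, x1) ↦ [x0]` is surjective, and `t` kills the cohomology of `ker π`: if `(s y, x1)` is a cycle then `s (d y + x1) = 0`, so `t (d y + x1) = 0`, and `t (s y, x1) = D (0, t y)`. Surjectivity: let `y ∈ N` be a homogeneous cycle of degree `j ≥ m`; `t^a y = lam x` with `x ∈ Q` homogeneous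
(take components), and `t^b d x = 0`, replace `a` by `a + b`: `d x = 0`. Lift `x` to `x' ∈ P` homogeneous; `D x' ∈ ker π` is a cycle, so `t D x' = D l`, `l ∈ ker π`, and `z' = t x' - l` is a cycle of `P` (take the homogeneous component), `t^{a+1} y = lam (π z')`. By `TB.pow`, `z' = t^{a+1} z + D w` with `z` a cycle of degree `j`,
so `t^{a+1} (y - lam (π z)) = d (lam (π w))`, and as `t` is bijective on `N`, `y - lam (π z)` is a boundary. Injectivity: `z` a cycle of degree `j`, `lam (π z) = d y`, `t^a y = lam x`: `lam (t^a π z - d x) = 0`, so (increase `a`) `t^a π z = d x` in `Q`; lift `x` to `x'`: `t^a z - D x' ∈ ker π` is a cycle, so `t (t^a z - D x')` is a boundary, `t^{a+1} z` is a boundary,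
and `z` is one (`TB.pow`). -/
theorem his_koz {M : DGM G} {e' : ℤ} {s : A} (hs : G.c e' s = s) (he' : Even e') {e : ℤ} (he : 0 ≤ e)
    {t : A} (ht : G.c e t = t) (hst : ∀ x : M.X, s • x = 0 → t • x = 0) {N : DGM G}
    {lam : ((M.sh e').quo _ (isMor_mul M hs he').range_pr (isMor_mul M hs he').range_d).X →ₗ[A] N.X}
    (hl : IsLoc ((M.sh e').quo _ (isMor_mul M hs he').range_pr (isMor_mul M hs he').range_d) N t lam)
    {m : ℤ} (hTB : TB (M.mc hs he') t e m) : HIs (M.mc hs he') N (lam ∘ₗ mcQuo M hs he') m := by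
  refine koz_abs (isMor_mcQuo M hs he') he ht ?_ ?_ ?_ hl hTB
  · intro i q hq
    obtain ⟨x0, hx0, hx0q⟩ := DGM.quo_hom_lift (isMor_mul M hs he').range_pr hq
    exact ⟨(x0, 0), Prod.ext hx0 (M.pr (i + 1)).map_zero, hx0q⟩
  · intro q
    obtain ⟨x0, hx0⟩ := Submodule.Quotient.mk_surjective _ q
    exact ⟨(x0, 0), hx0⟩
  · rintro ⟨x0, x1⟩ hl0 hl1
    have h1 : x0 ∈ LinearMap.range (s • (LinearMap.id : M.X →ₗ[A] M.X)) :=
      (Submodule.Quotient.mk_eq_zero _).1 hl0
    obtain ⟨y, hy⟩ := h1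
    have hy' : s • y = x0 := hy
    have hd0 : (M.sh e').d x0 + s • x1 = 0 := congrArg Prod.fst hl1
    rw [M.sh_d_even he'] at hd0
    have h2 : s • (M.d y + x1) = 0 := by
      rw [smul_add, ← map_smul, hy', hd0]
    have h3 := hst _ h2
    refine ⟨(0, t • y), ?_, ?_⟩
    · change (Submodule.Quotient.mk (0 : M.X) : M.X ⧸ LinearMap.range
        (s • (LinearMap.id : M.X →ₗ[A] M.X))) = 0
      exact Submodule.Quotient.mk_zero _
    · refine Prod.ext ?_ ?_
      · change (M.sh e').d 0 + s • (t • y) = t • x0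
        rw [map_zero, zero_add, ← hy', smul_comm]
      · change -(M.d (t • y)) = t • x1
        rw [smul_add, add_eq_zero_iff_eq_neg] at h3
        rw [map_smul, h3, neg_neg]

end MP8a
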