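import Pool.Agent.Lib_MP_8a48ad_gt.R3Tr

/-! # Piece R3TR2: the cohomology of good truncations -/

set_option autoImplicit false

namespace MP8a

universe u

variable {k : Type u} [Field k] {n : ℕ} {R : Type u} [CommRing R] [Algebra k R]
  [Algebra R (Sn k n)] {GR : Gr R}

/-- The homogeneous cycles of degree `j` as a `k`-subspace. -/
def tr2Cyc (k : Type u) [Field k] {R : Type u} [CommRing R] [Algebra k R] {GR : Gr R}
    (hk : ∀ c : k, GR.c 0 (algebraMap k R c) = algebraMap k R c) (M : DGM GR) (j : ℤ) :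
    letI := kV k M
    Submodule k M.X :=
  letI := kV k M
  { carrier := {x | M.pr j x = x ∧ M.d x = 0}
    zero_mem' := ⟨map_zero _, map_zero _⟩
    add_mem' := fun {a b} ha hb => ⟨by rw [map_add, ha.1, hb.1], by rw [map_add, ha.2, hb.2, add_zero]⟩
    smul_mem' := fun c x hx => by
      change M.pr j (algebraMap k R c • x) = algebraMap k R c • x ∧ M.d (algebraMap k R c • x) = 0
      have h1 := M.smul (hk c) hx.1
      rw [zero_add] at h1
      exact ⟨h1, by rw [map_smul, hx.2, smul_zero]⟩ }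

/-- The boundaries as a `k`-subspace. -/
def tr2Bdr (k : Type u) [Field k] {R : Type u} [CommRing R] [Algebra k R] {GR : Gr R} (M : DGM GR) :
    letI := kV k M
    Submodule k M.X :=
  letI := kV k M
  { carrier := {x | ∃ y, M.d y = x}
    zero_mem' := ⟨0, map_zero _⟩
    add_mem' := fun {a b} ha hb => by
      obtain ⟨y, hy⟩ := ha
      obtain ⟨z, hz⟩ := hb
      exact ⟨y + z, by rw [map_add, hy, hz]⟩
    smul_mem' := fun c x hx => by
      obtain ⟨y, hy⟩ := hx
      exact ⟨algebraMap k R c • y, by rw [map_smul, hy]; rfl⟩ }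

/-- A morphism as a `k`-linear map. -/
def tr2Lin (k : Type u) [Field k] {R : Type u} [CommRing R] [Algebra k R] {GR : Gr R} {M N : DGM GR}
    (f : M.X →ₗ[R] N.X) :
    letI := kV k M
    letI := kV k N
    M.X →ₗ[k] N.X :=
  letI := kV k M
  letI := kV k N
  { toFun := f
    map_add' := f.map_add
    map_smul' := fun c x => f.map_smul (algebraMap k R c) x }

/-- PROOF. In degrees `< m` the module `U` is zero. In degrees `j > m` use `GT.his`: `x = d y + ∑ c_i z_i` with `z_i` homogeneous cycles of degree `j` (`FDj.hom`, `Setup.c_algebraMap`), so `z_i ∈ U`, and the cycle `x - ∑ c_i z_i ∈ U` is a boundary in `M`, so in `U`.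
In degree `m`: a cycle `x ∈ U_m` is determined by its class in `H^m(M)` (`bd`), so the space of these cycles is finite dimensional (`la_fd`, `FDj_iff`). -/
theorem GT.cfd (hS : Setup k n GR) {M : DGM GR} {m : ℤ} {U : Submodule R M.X} (hU : GT M m U)
    (h : ∀ j, FDj k M j) : CFD k (M.sub U hU.pr hU.d) := by
  have hk : ∀ c : k, GR.c 0 (algebraMap k R c) = algebraMap k R c := hS.c_algebraMap
  have hzero : ∀ j, j < m → ∀ x : (M.sub U hU.pr hU.d).X, (M.sub U hU.pr hU.d).pr j x = x → x = 0 := by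
    intro j hj x hx
    have h1 : M.pr j x.1 = x.1 := congrArg Subtype.val hx
    rw [hU.low j hj x.1 x.2] at h1
    exact Subtype.ext h1.symm
  refine ⟨⟨m, fun j hj x hx _ => ⟨0, ?_⟩⟩, fun j => ?_⟩
  · rw [map_zero, hzero j hj x hx]
  · rcases lt_trichotomy j m with hj | hj | hj
    · refine ⟨0, fun i => i.elim0, fun x hx _ => ⟨0, fun i => i.elim0, ?_⟩⟩
      rw [hzero j hj x hx, map_zero, Finset.univ_eq_empty, Finset.sum_empty, add_zero]
    · subst hj
      obtain ⟨F, hF, hF2⟩ := (FDj_iff M j).1 (h j)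
      refine (FDj_iff _ j).2 ?_
      let i1 := kV k M
      let i2 := kV k (M.sub U hU.pr hU.d)
      obtain ⟨F'', hF'', hV⟩ := la_fd (k := k) (P := (M.sub U hU.pr hU.d).X) (M := M.X)
        (tr2Cyc k hk (M.sub U hU.pr hU.d) j) ⊥ (tr2Lin k (M := M.sub U hU.pr hU.d) (N := M) U.subtype) (tr2Bdr k M) F hF ⊥
        Submodule.fg_bot (by
          intro v hv
          have hv1 : M.pr j v.1 = v.1 := congrArg Subtype.val hv.1
          have hv2 : M.d v.1 = 0 := congrArg Subtype.val hv.2
          obtain ⟨y, hy⟩ := hF2 v.1 hv1 hv2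
          rw [Submodule.mem_sup]
          exact ⟨v.1 - M.d y, hy, M.d y, ⟨y, rfl⟩, sub_add_cancel _ _⟩) (by
          intro v hv hvC
          have hv1 : M.pr j v.1 = v.1 := congrArg Subtype.val hv.1
          obtain ⟨y, hy⟩ := hvC
          have h0 : v.1 = 0 := hU.bd v.1 v.2 hv1 ⟨y, hy⟩
          have h00 : v = 0 := Subtype.ext h0
          rw [h00]
          exact Submodule.zero_mem _)
      refine ⟨F'', hF'', fun x hx hd => ⟨0, ?_⟩⟩
      rw [map_zero, sub_zero]
      have h3 := hV (show x ∈ tr2Cyc k hk (M.sub U hU.pr hU.d) j from ⟨hx, hd⟩)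
      rw [sup_bot_eq] at h3
      exact h3
    · obtain ⟨l, z, hz1, hz2, hz3⟩ := (h j).hom hk
      have hzU : ∀ i, z i ∈ U := fun i => hU.high j hj (z i) (hz1 i)
      refine ⟨l, fun i => ⟨z i, hzU i⟩, fun x hx hd => ?_⟩
      have hx1 : M.pr j x.1 = x.1 := congrArg Subtype.val hx
      have hx2 : M.d x.1 = 0 := congrArg Subtype.val hd
      obtain ⟨y, c, hy⟩ := hz3 x.1 hx1 hx2
      obtain ⟨s, hs⟩ : ∃ s : (M.sub U hU.pr hU.d).X,
        s = ∑ i, algebraMap k R (c i) • (⟨z i, hzU i⟩ : (M.sub U hU.pr hU.d).X) := ⟨_, rfl⟩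
      have hs1 : s.1 = ∑ i, algebraMap k R (c i) • z i := by
        rw [hs, AddSubmonoidClass.coe_finsetSum]
        rfl
      have hs2 : (M.sub U hU.pr hU.d).pr j s = s := by
        apply Subtype.ext
        change M.pr j s.1 = s.1
        rw [hs1, map_sum]
        refine Finset.sum_congr rfl fun i _ => ?_
        have h1 := M.smul (hk (c i)) (hz1 i)
        rw [zero_add] at h1
        exact h1
      have hs3 : (M.sub U hU.pr hU.d).d s = 0 := by
        apply Subtype.ext
        change M.d s.1 = 0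
        rw [hs1, map_sum]
        refine Finset.sum_eq_zero fun i _ => ?_
        rw [map_smul, hz2, smul_zero]
      obtain ⟨w, hw⟩ := (hU.his j (by omega)).1 (x - s) (by rw [map_sub, hx, hs2])
        (by rw [map_sub, hd, hs3, sub_zero]) y (by
          change M.d y = x.1 - s.1
          rw [hs1, hy]
          abel)
      refine ⟨w, c, ?_⟩
      rw [hw, ← hs, sub_add_cancel]

end MP8a
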