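import Pool.Agent.Lib_MP_8a48ad_gt.R3Fdh

/-! # Piece R3WIN: finitely generated modules -/

set_option autoImplicit false

namespace MP8a

universe u

variable {k : Type u} [Field k] {R : Type u} [CommRing R] [Algebra k R] {GR : Gr R}

/-- PROOF. `M.X` is generated over `R` by the (finitely many) finite spanning families of the `M_j`, `m ≤ j < m + e` (replace the `z i` by their components): by induction on the degree every homogeneous element is in the span, `x = t • x'`. -/
theorem finite_of_window (M : DGM GR) {e m : ℤ} (he : 0 < e) {t : R}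
    (hlow : ∀ j, j < m → ∀ x, M.pr j x = x → x = 0)
    (hup : ∀ j, m + e ≤ j → ∀ x, M.pr j x = x → ∃ x', M.pr (j - e) x' = x' ∧ x = t • x')
    (hfd : ∀ j, ∃ (l : ℕ) (z : Fin l → M.X), ∀ x, M.pr j x = x →
      ∃ c : Fin l → k, x = ∑ i, algebraMap k R (c i) • z i) : Module.Finite R M.X := by
  classical
  choose l z hz using hfd
  have hU : (⨆ j ∈ Finset.Ico m (m + e), Submodule.span R (Set.range (z j))).FG :=
    Submodule.fg_biSup _ _ (fun j _ => Submodule.fg_span (Set.finite_range _))
  set U : Submodule R M.X := ⨆ j ∈ Finset.Ico m (m + e), Submodule.span R (Set.range (z j)) with hUdef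
  have hin : ∀ n : ℕ, ∀ j : ℤ, j < m + n → ∀ x, M.pr j x = x → x ∈ U := by
    intro n
    induction n with
    | zero =>
      intro j hj x hx
      rw [hlow j (by simpa using hj) x hx]
      exact U.zero_mem
    | succ n ih =>
      intro j hj x hx
      by_cases h1 : j < m
      · rw [hlow j h1 x hx]
        exact U.zero_mem
      · by_cases h2 : j < m + e
        · obtain ⟨c, hc⟩ := hz j x hx
          rw [hc]
          refine U.sum_mem fun i _ => U.smul_mem _ ?_
          have h3 : Submodule.span R (Set.range (z j)) ≤ U :=
            le_biSup (fun j => Submodule.span R (Set.range (z j)))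
              (Finset.mem_Ico.2 ⟨not_lt.1 h1, h2⟩)
          exact h3 (Submodule.subset_span ⟨i, rfl⟩)
        · obtain ⟨x', hx', rfl⟩ := hup j (not_lt.1 h2) x hx
          refine U.smul_mem _ (ih (j - e) ?_ x' hx')
          push_cast at hj
          omega
  have htop : U = ⊤ := by
    rw [eq_top_iff]
    intro x _
    obtain ⟨s, hs⟩ := M.fin x
    rw [← hs]
    refine U.sum_mem fun i _ => ?_
    exact hin (i - m + 1).toNat i (by omega) _ (M.pr_self i x)
  exact ⟨htop ▸ hU⟩

end MP8a
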