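import Pool.Agent.Lib_MP_8a48ad_gt.R3ThS

/-! # Piece R3ZERO: finitely generated modules with zero differential -/

set_option autoImplicit false

namespace MP8a

universe u

variable {k : Type u} [Field k] {n : ℕ} {R : Type u} [CommRing R] [Algebra k R]
  [Algebra R (Sn k n)] {GR : Gr R}

omit [Algebra k R] in
/-- restriction of a thick class along `R → S` -/
private theorem r3z_thick (hc : Compat GR (grS k n)) {T : DGM GR → Prop} (hT : IsThick T) :
    IsThick (fun N : DGM (grS k n) => T (restr hc N)) where
  qis := fun M N f hf hq => hT.qis _ _ (restrMap hc f) (hf.restr hc) hq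
  sh := by
    intro M e h
    have h1 := hT.sh _ e h
    let e' : ((restr hc M).sh e).X ≃ₗ[R] (restr hc (M.sh e)).X :=
      LinearEquiv.refl R (restr hc M).X
    refine (hT.iso e' ⟨fun i x => ?_, fun x => ?_⟩).1 h1
    · rw [add_zero]
      rfl
    · by_cases he : Even e
      · change (M.sh e).d x = ((restr hc M).sh e).d x
        rw [DGM.sh_d_even M he, DGM.sh_d_even (restr hc M) he]
        rfl
      · change (if Even e then M.d else -M.d) x =
          (if Even e then (restr hc M).d else -(restr hc M).d) x
        rw [if_neg he, if_neg he]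
        rfl
  ses1 := fun L M N f g hf hg hs => hT.ses1 _ _ _ (restrMap hc f) (restrMap hc g) (hf.restr hc)
    (hg.restr hc) (hs.restr hc)
  ses2 := fun L M N f g hf hg hs => hT.ses2 _ _ _ (restrMap hc f) (restrMap hc g) (hf.restr hc)
    (hg.restr hc) (hs.restr hc)
  ses3 := fun L M N f g hf hg hs => hT.ses3 _ _ _ (restrMap hc f) (restrMap hc g) (hf.restr hc)
    (hg.restr hc) (hs.restr hc)
  retr := fun M N i r hi hr h => hT.retr _ _ (restrMap hc i) (restrMap hc r) (hi.restr hc)
    (hr.restr hc) h

omit [Algebra k R] in
private theorem r3z_reg (hc : Compat GR (grS k n)) {T : DGM GR → Prop} (hT : IsThick T)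
    (h : T (SR hc)) : T (restr hc (regM (grS k n))) := by
  let e' : (SR hc).X ≃ₗ[R] (restr hc (regM (grS k n))).X :=
    { toFun := fun s => s
      invFun := fun s => s
      left_inv := fun _ => rfl
      right_inv := fun _ => rfl
      map_add' := fun _ _ => rfl
      map_smul' := fun a s => Algebra.smul_def a s }
  refine (hT.iso e' ⟨fun i x => ?_, fun x => rfl⟩).1 h
  rw [add_zero]
  rfl

private theorem r3z_fin (hS : Setup k n GR) (M : DGM GR) (hM : Module.Finite R M.X) :
    Module.Finite (Sn k n) (coind hS M).X := by
  have := hS.noeth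
  have hfS := hS.fin
  -- finite over `R`
  have h1 : Module.Finite R (Sn k n →ₗ[R] M.X) := by
    obtain ⟨m, f, hf⟩ := Module.Finite.exists_fin' R (Sn k n)
    let F : (Sn k n →ₗ[R] M.X) →ₗ[R] ((Fin m → R) →ₗ[R] M.X) := LinearMap.lcomp R M.X f
    have hF : Function.Injective F := by
      intro φ ψ h
      refine LinearMap.ext fun s => ?_
      obtain ⟨x, rfl⟩ := hf s
      exact LinearMap.congr_fun h x
    exact Module.Finite.of_injective F hF
  let _ : Module (Sn k n) (Sn k n →ₗ[R] M.X) := homMod (k := k) (n := n) R M.X
  have h2 : IsScalarTower R (Sn k n) (Sn k n →ₗ[R] M.X) := by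
    constructor
    intro a s φ
    refine LinearMap.ext fun t => ?_
    change φ (a • s * t) = a • φ (s * t)
    rw [smul_mul_assoc, map_smul]
  exact Module.Finite.of_restrictScalars_finite R (Sn k n) (Sn k n →ₗ[R] M.X)

/-- PROOF. The class `{N | T (restr hS.compat N)}` of DG `S`-modules is thick (`IsMor.restr`, `IsSES.restr`, restriction commutes with shifts; quasi-isomorphisms and retracts are the same) and contains `regM (grS k n)`, whose restriction is `SR hS.compat`
(identity map, `hT.iso`). `coind hS M = Hom_R(S, M)` has zero differential and is finitely generated: `S` is a quotient of `R^m`, so `Hom_R(S, M) ⊆ M^m` as `R`-modules, `R` noetherian, hence it is finite over `R`, and over `S`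
(`FG_of_finite`). So `T (restr (coind hS M))` by `thick_S`, and `M` is a retract of it (`coind_retract`). -/
theorem thick_of_zero_diff (hS : Setup k n GR) {T : DGM GR → Prop} (hT : IsThick T)
    (h : T (SR hS.compat)) {M : DGM GR} (hM : Module.Finite R M.X) (hd : ∀ x, M.d x = 0) : T M := by
  have hd' : (coind hS M).d = 0 := by
    refine LinearMap.ext fun φ => ?_
    exact LinearMap.ext fun t => hd ((show Sn k n →ₗ[R] M.X from φ) t)
  have h1 : FG (coind hS M) := FG_of_finite (r3z_fin hS M hM) hd'
  have h2 : T (restr hS.compat (coind hS M)) :=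
    thick_S (r3z_thick hS.compat hT) (r3z_reg hS.compat hT h) h1
  obtain ⟨i, r, hi, hr, hir⟩ := coind_retract hS M
  exact hT.retr _ _ i r hi hr hir h2

end MP8a
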