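import Pool.Agent.Lib_MP_8a48ad_gt.R3Split
import Pool.Agent.Lib_MP_8a48ad_gt.R3Tr2
import Pool.Agent.Lib_MP_8a48ad_gt.R3Win
import Pool.Agent.Lib_MP_8a48ad_gt.R3Zero

/-! # Piece R3LEMA: the truncation of `M2` is in `T` -/

set_option autoImplicit false

namespace MP8a

universe u

variable {k : Type u} [Field k] {n : ℕ} {R : Type u} [CommRing R] [Algebra k R]
  [Algebra R (Sn k n)] {GR : Gr R}

theorem GT.inf_pr {M : DGM GR} {m : ℤ} {U : Submodule R M.X} (hU : GT M m U) {t : R}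
    {W M2 : Submodule R M.X} (h : Spl M t W M2) : ∀ i, ∀ x ∈ U ⊓ M2, M.pr i x ∈ U ⊓ M2 :=
  fun i x hx => ⟨hU.pr i x hx.1, h.hM2.pr i x hx.2⟩

theorem GT.inf_d {M : DGM GR} {m : ℤ} {U : Submodule R M.X} (hU : GT M m U) {t : R}
    {W M2 : Submodule R M.X} (h : Spl M t W M2) : ∀ x ∈ U ⊓ M2, M.d x ∈ U ⊓ M2 :=
  fun x hx => ⟨hU.d x hx.1, h.dM x⟩

/-- the part of `W` in degrees `> m` -/
private def lemaW (hS : Setup k n GR) (M : DGM GR) (W : Submodule R M.X) (m : ℤ) : Submodule R M.X where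
  carrier := {x | x ∈ W ∧ ∀ j, j ≤ m → M.pr j x = 0}
  zero_mem' := ⟨W.zero_mem, fun j _ => map_zero _⟩
  add_mem' := fun {a b} ha hb => ⟨W.add_mem ha.1 hb.1, fun j hj => by
    rw [map_add, ha.2 j hj, hb.2 j hj, add_zero]⟩
  smul_mem' := fun a x hx => ⟨W.smul_mem a hx.1, fun j hj => by
    refine GR.ind (P := fun a => M.pr j (a • x) = 0) ?_ ?_ ?_ a
    · rw [zero_smul, map_zero]
    · intro a b ha hb
      rw [add_smul, map_add, ha, hb, add_zero]
    · intro i a ha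
      rw [M.pr_smul' ha]
      by_cases hi : i < 0
      · rw [← ha, hS.c_neg hi, zero_smul]
      · rw [hx.2 (j - i) (by omega), smul_zero]⟩

/-- PIECE R3LEMA. The truncation `U ⊓ M2` of `M2` is in `T`.
PROOF. `W' = {x ∈ W | pr j x = 0 for all j ≤ m}`. Each `W_j` (elements of `W` of degree `j`) is finite dimensional: `FDj k M j` and `W ∩ range d = 0` (`Spl.Wd`; `la_fd` with `φ = id`). `t : W_{j-e} → W_j` is surjective for all `j` (`t` is bijective on `M`, homogeneous of degree `e` and `W` is saturated; the preimage of a homogeneous element is homogeneous).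
So the DG module `W'` is a finite `R`-module (`finite_of_window`) with zero differential, and in `T` (`thick_of_zero_diff`). `W' ≤ U ⊓ M2` (components of degree `> m` are in `U`). Compare by `thick_iff_of_HIs` (`thick_kM`) for the inclusion `W' → U ⊓ M2`, `HIs` for `m + 1`:
injectivity is `Spl.Wd`; surjectivity: a homogeneous cycle `y ∈ U ⊓ M2` of degree `j ≥ m + 1` is `d μ + w` with `μ ∈ M2`, `w ∈ W` (`Spl.qis`, `d y = 0 ∈ W`); take components: `w ∈ W'` of degree `j`, `μ` of degree `j - 1 ≥ m`; if `j - 1 > m` then `μ ∈ U`, and if `j - 1 = m` then `μ = d y' + u` (`GT.mid`), `d μ = d u`,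
`u ∈ U ⊓ M2`. `CFD`: `W'` is zero in degrees `≤ m` and finite dimensional in each degree; for `U ⊓ M2`: in degrees `> m` the cohomology is spanned by `W_j`, in degree `m` the cycles are determined by their class in `H^m(M)` (`GT.bd`), below it is zero. -/
theorem thick_inf (hS : Setup k n GR) {T : DGM GR → Prop} (hT : IsThick T) (h : T (SR hS.compat))
    {M : DGM GR} {e : ℤ} (he : 0 < e) {t : R} (ht : GR.c e t = t)
    (hinj : ∀ x : M.X, t • x = 0 → x = 0) (hsurj : ∀ x : M.X, ∃ y, t • y = x)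
    (hfd : ∀ j, FDj k M j) {W M2 : Submodule R M.X} (hs : Spl M t W M2) {m : ℤ}
    {U : Submodule R M.X} (hU : GT M m U) :
    T (M.sub (U ⊓ M2) (hU.inf_pr hs) (hU.inf_d hs)) := by
  classical
  have hk : ∀ c : k, GR.c 0 (algebraMap k R c) = algebraMap k R c := hS.c_algebraMap
  obtain ⟨W', hW'⟩ : ∃ W' : Submodule R M.X, ∀ x, x ∈ W' ↔ x ∈ W ∧ ∀ j, j ≤ m → M.pr j x = 0 :=
    ⟨lemaW hS M W m, fun x => Iff.rfl⟩
  have hWpr : ∀ i, ∀ x ∈ W', M.pr i x ∈ W' := by
    intro i x hx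
    rw [hW'] at hx ⊢
    refine ⟨hs.hW.pr i x hx.1, fun j hj => ?_⟩
    rw [M.pr_pr]
    by_cases h1 : j = i
    · subst h1
      rw [if_pos rfl, hx.2 j hj]
    · rw [if_neg h1]
  have hWd : ∀ x ∈ W', M.d x ∈ W' := by
    intro x hx
    rw [hs.dW x ((hW' x).1 hx).1]
    exact W'.zero_mem
  have hle : W' ≤ U ⊓ M2 := by
    intro x hx
    have hx' := (hW' x).1 hx
    refine ⟨?_, hs.le hx'.1⟩
    obtain ⟨s, hs'⟩ := M.fin x
    rw [← hs']
    refine Submodule.sum_mem _ fun i _ => ?_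
    by_cases hi : i ≤ m
    · rw [hx'.2 i hi]
      exact U.zero_mem
    · exact hU.high i (not_le.1 hi) _ (M.pr_self i x)
  have hPfd : ∀ j, ∃ (l : ℕ) (z : Fin l → (M.sub W' hWpr hWd).X), ∀ x, (M.sub W' hWpr hWd).pr j x = x →
      ∃ c : Fin l → k, x = ∑ i, algebraMap k R (c i) • z i := by
    intro j
    obtain ⟨F, hF, hF2⟩ := (FDj_iff M j).1 (hfd j)
    let i1 := kV k M
    let i2 := kV k (M.sub W' hWpr hWd)
    obtain ⟨F'', hF'', hV⟩ := la_fd (k := k) (P := (M.sub W' hWpr hWd).X) (M := M.X)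
        (tr2Cyc k hk (M.sub W' hWpr hWd) j) ⊥
        (tr2Lin k (M := M.sub W' hWpr hWd) (N := M) W'.subtype) (tr2Bdr k M) F hF ⊥
        Submodule.fg_bot (by
          intro v hv
          have hv1 : M.pr j v.1 = v.1 := congrArg Subtype.val hv.1
          have hv2 : M.d v.1 = 0 := congrArg Subtype.val hv.2
          obtain ⟨y, hy⟩ := hF2 v.1 hv1 hv2
          rw [Submodule.mem_sup]
          exact ⟨v.1 - M.d y, hy, M.d y, ⟨y, rfl⟩, sub_add_cancel _ _⟩) (by
          intro v hv hvC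
          obtain ⟨y, hy⟩ := hvC
          have h0 : v.1 = 0 := hs.Wd v.1 ((hW' v.1).1 v.2).1 ⟨y, hy⟩
          have h00 : v = 0 := Subtype.ext h0
          rw [h00]
          exact Submodule.zero_mem _)
    obtain ⟨l, z, hz⟩ := Submodule.fg_iff_exists_fin_generating_family.1 hF''
    refine ⟨l, z, fun x hx => ?_⟩
    have h3 := hV (show x ∈ tr2Cyc k hk (M.sub W' hWpr hWd) j from
      ⟨hx, Subtype.ext (hs.dW x.1 ((hW' x.1).1 x.2).1)⟩)
    rw [sup_bot_eq, ← hz, Submodule.mem_span_range_iff_exists_fun] at h3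
    obtain ⟨c, hc⟩ := h3
    exact ⟨c, hc.symm⟩
  have hPlow : ∀ j, j < m + 1 → ∀ x : (M.sub W' hWpr hWd).X, (M.sub W' hWpr hWd).pr j x = x → x = 0 := by
    intro j hj x hx
    have h1 : M.pr j x.1 = x.1 := congrArg Subtype.val hx
    rw [((hW' x.1).1 x.2).2 j (by omega)] at h1
    exact Subtype.ext h1.symm
  have hfin : Module.Finite R (M.sub W' hWpr hWd).X := by
    refine finite_of_window (k := k) (M.sub W' hWpr hWd) he (m := m + 1) (t := t) hPlow ?_ hPfd
    intro j hj x hx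
    have h1 : M.pr j x.1 = x.1 := congrArg Subtype.val hx
    obtain ⟨y, hy⟩ := hsurj x.1
    have h2 : t • M.pr (j - e) y = x.1 := by
      rw [← M.pr_smul' ht, hy, h1]
    have h3 : M.pr (j - e) y ∈ W' := by
      rw [hW']
      refine ⟨hs.hW.sat _ (by rw [h2]; exact ((hW' x.1).1 x.2).1), fun i hi => ?_⟩
      exact M.pr_ne (M.pr_self _ _) (by omega)
    exact ⟨⟨M.pr (j - e) y, h3⟩, Subtype.ext (M.pr_self _ _), Subtype.ext h2.symm⟩
  have hTP : T (M.sub W' hWpr hWd) :=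
    thick_of_zero_diff hS hT h hfin (fun x => Subtype.ext (hs.dW x.1 ((hW' x.1).1 x.2).1))
  have hPC : CFD k (M.sub W' hWpr hWd) := by
    refine ⟨⟨m + 1, fun j hj x hx _ => ⟨0, ?_⟩⟩, fun j => ?_⟩
    · rw [map_zero, hPlow j hj x hx]
    · obtain ⟨l, z, hz⟩ := hPfd j
      refine ⟨l, z, fun x hx _ => ?_⟩
      obtain ⟨c, hc⟩ := hz x hx
      exact ⟨0, c, by rw [map_zero, zero_add]; exact hc⟩
  have key : ∀ j, m + 1 ≤ j → ∀ y : M.X, y ∈ U ⊓ M2 → M.pr j y = y → M.d y = 0 →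
      ∃ w ∈ W', ∃ u ∈ U ⊓ M2, M.pr j w = w ∧ y = w + M.d u := by
    intro j hj y hy hyj hdy
    obtain ⟨-, μ, hμ, hw⟩ := hs.qis y hy.2 (by rw [hdy]; exact W.zero_mem)
    have h2 : M.pr j (M.d μ) = M.d (M.pr (j - 1) μ) := by
      have h2 := M.pr_d (j - 1) μ
      rwa [sub_add_cancel] at h2
    have h2' : M.pr j (M.d (M.pr (j - 1) μ)) = M.d (M.pr (j - 1) μ) := by
      rw [← h2, M.pr_self]
    have h1 : y - M.d (M.pr (j - 1) μ) ∈ W := by
      have h5 := hs.hW.pr j _ hw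
      rwa [map_sub, hyj, h2] at h5
    have h1' : M.pr j (y - M.d (M.pr (j - 1) μ)) = y - M.d (M.pr (j - 1) μ) := by
      rw [map_sub, hyj, h2']
    have h3 : M.pr (j - 1) μ ∈ M2 := hs.hM2.pr _ _ hμ
    have h4 : y - M.d (M.pr (j - 1) μ) ∈ W' := by
      rw [hW']
      exact ⟨h1, fun i hi => M.pr_ne h1' (by omega)⟩
    by_cases hjm : j - 1 = m
    · obtain ⟨y', u, hu, hum, hyu⟩ := hU.mid (M.pr (j - 1) μ) (by rw [hjm]; exact M.pr_self _ _)
      refine ⟨_, h4, u, ⟨hu, ?_⟩, h1', ?_⟩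
      · have h6 : u = M.pr (j - 1) μ - M.d y' := by
          rw [hyu]
          abel
        rw [h6]
        exact M2.sub_mem h3 (hs.dM y')
      · rw [hyu, map_add, M.d_d, zero_add]
        abel
    · exact ⟨_, h4, M.pr (j - 1) μ, ⟨hU.high (j - 1) (by omega) _ (M.pr_self _ _), h3⟩, h1', by abel⟩
  have hQC : CFD k (M.sub (U ⊓ M2) (hU.inf_pr hs) (hU.inf_d hs)) := by
    have hzero : ∀ j, j < m → ∀ x : (M.sub (U ⊓ M2) (hU.inf_pr hs) (hU.inf_d hs)).X,
        (M.sub (U ⊓ M2) (hU.inf_pr hs) (hU.inf_d hs)).pr j x = x → x = 0 := by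
      intro j hj x hx
      have h1 : M.pr j x.1 = x.1 := congrArg Subtype.val hx
      rw [hU.low j hj x.1 x.2.1] at h1
      exact Subtype.ext h1.symm
    refine ⟨⟨m, fun j hj x hx _ => ⟨0, ?_⟩⟩, fun j => ?_⟩
    · rw [map_zero, hzero j hj x hx]
    · rcases lt_trichotomy j m with hj | hj | hj
      · refine ⟨0, fun i => i.elim0, fun x hx _ => ⟨0, fun i => i.elim0, ?_⟩⟩
        rw [hzero j hj x hx, map_zero, Finset.univ_eq_empty, Finset.sum_empty, add_zero]
      · subst hj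
        obtain ⟨F, hF, hF2⟩ := (FDj_iff M j).1 (hfd j)
        refine (FDj_iff _ j).2 ?_
        let i1 := kV k M
        let i2 := kV k (M.sub (U ⊓ M2) (hU.inf_pr hs) (hU.inf_d hs))
        obtain ⟨F'', hF'', hV⟩ := la_fd (k := k) (P := (M.sub (U ⊓ M2) (hU.inf_pr hs) (hU.inf_d hs)).X)
          (M := M.X)
          (tr2Cyc k hk (M.sub (U ⊓ M2) (hU.inf_pr hs) (hU.inf_d hs)) j) ⊥
          (tr2Lin k (M := M.sub (U ⊓ M2) (hU.inf_pr hs) (hU.inf_d hs)) (N := M) (U ⊓ M2).subtype)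
          (tr2Bdr k M) F hF ⊥
          Submodule.fg_bot (by
            intro v hv
            have hv1 : M.pr j v.1 = v.1 := congrArg Subtype.val hv.1
            have hv2 : M.d v.1 = 0 := congrArg Subtype.val hv.2
            obtain ⟨y, hy⟩ := hF2 v.1 hv1 hv2
            rw [Submodule.mem_sup]
            exact ⟨v.1 - M.d y, hy, M.d y, ⟨y, rfl⟩, sub_add_cancel _ _⟩) (by
            intro v hv hvC
            have hv1 : M.pr j v.1 = v.1 := congrArg Subtype.val hv.1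
            obtain ⟨y, hy⟩ := hvC
            have h0 : v.1 = 0 := hU.bd v.1 v.2.1 hv1 ⟨y, hy⟩
            have h00 : v = 0 := Subtype.ext h0
            rw [h00]
            exact Submodule.zero_mem _)
        refine ⟨F'', hF'', fun x hx hd => ⟨0, ?_⟩⟩
        rw [map_zero, sub_zero]
        have h3 := hV (show x ∈ tr2Cyc k hk (M.sub (U ⊓ M2) (hU.inf_pr hs) (hU.inf_d hs)) j from
          ⟨hx, hd⟩)
        rw [sup_bot_eq] at h3
        exact h3
      · obtain ⟨l, z, hz⟩ := hPfd j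
        refine ⟨l, fun i => ⟨(z i).1, hle (z i).2⟩, fun x hx hd => ?_⟩
        obtain ⟨w, hw, u, hu, hwj, hxe⟩ := key j (by omega) x.1 x.2 (congrArg Subtype.val hx)
          (congrArg Subtype.val hd)
        obtain ⟨c, hc⟩ := hz ⟨w, hw⟩ (Subtype.ext hwj)
        have h5 : w = ∑ i, algebraMap k R (c i) • (z i).1 := by
          have h6 := congrArg Subtype.val hc
          rw [AddSubmonoidClass.coe_finsetSum] at h6
          exact h6
        refine ⟨⟨u, hu⟩, c, Subtype.ext ?_⟩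
        change x.1 = M.d u + ((∑ i, algebraMap k R (c i) •
          (⟨(z i).1, hle (z i).2⟩ : ↥(U ⊓ M2)) : ↥(U ⊓ M2)) : M.X)
        rw [AddSubmonoidClass.coe_finsetSum, hxe, h5, add_comm]
        rfl
  have hmor : IsMor (M.sub W' hWpr hWd) (M.sub (U ⊓ M2) (hU.inf_pr hs) (hU.inf_d hs)) 0
      (Submodule.inclusion hle) :=
    ⟨fun i x => by rw [add_zero]; rfl, fun x => rfl⟩
  have hHI : HIs (M.sub W' hWpr hWd) (M.sub (U ⊓ M2) (hU.inf_pr hs) (hU.inf_d hs))
      (Submodule.inclusion hle) (m + 1) := by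
    intro j hj
    refine ⟨fun x hx _ y hy => ⟨0, ?_⟩, fun y hy hd => ?_⟩
    · have h1 : x.1 = 0 := hs.Wd x.1 ((hW' x.1).1 x.2).1 ⟨y.1, congrArg Subtype.val hy⟩
      rw [map_zero]
      exact Subtype.ext h1.symm
    · obtain ⟨w, hw, u, hu, hwj, hxe⟩ := key j hj y.1 y.2 (congrArg Subtype.val hy)
        (congrArg Subtype.val hd)
      exact ⟨⟨w, hw⟩, ⟨u, hu⟩, Subtype.ext hwj, Subtype.ext (hs.dW w ((hW' w).1 hw).1),
        Subtype.ext hxe⟩
  exact (thick_iff_of_HIs hS hT (thick_kM hS hT h) hmor hPC hQC hHI).1 hTP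

end MP8a
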