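import Pool.Agent.Lib_MP_8a48ad_gt.R3LemA

/-! # Piece R3LEMB: the truncation of `M` is in `T` -/

set_option autoImplicit false

namespace MP8a

universe u

variable {k : Type u} [Field k] {n : ℕ} {R : Type u} [CommRing R] [Algebra k R]
  [Algebra R (Sn k n)] {GR : Gr R}

/-- PIECE R3LEMB. PROOF. `E = M.quo M2` (`d`-stable by `Spl.dM`) has zero differential (`Spl.dM`), each `E_j` is finite dimensional (`Spl.cyc`: every element of degree `j` is represented by a homogeneous cycle of degree `j`, and boundaries are in `M2`; `FDj`), `t` is bijective on `E` (`M2` saturated).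
`E' = {x ∈ E | pr j x = 0 for all j < m}` is a finite `R`-module (`finite_of_window` for `E.sub E'`), so the image `E''` of `U` in `E`, which is a graded submodule of `E'`, is finite too (`R` noetherian: `hS.noeth`). `E.sub E''` is in `T` (`thick_of_zero_diff`).
Exact sequence `0 → M.sub (U ⊓ M2) → M.sub U → E.sub E'' → 0`, `hT.ses2`, `thick_inf`. -/
theorem thick_GT (hS : Setup k n GR) {T : DGM GR → Prop} (hT : IsThick T) (h : T (SR hS.compat))
    {M : DGM GR} {e : ℤ} (he : 0 < e) {t : R} (ht : GR.c e t = t)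
    (hinj : ∀ x : M.X, t • x = 0 → x = 0) (hsurj : ∀ x : M.X, ∃ y, t • y = x)
    (hfd : ∀ j, FDj k M j) {W M2 : Submodule R M.X} (hs : Spl M t W M2) {m : ℤ}
    {U : Submodule R M.X} (hU : GT M m U) : T (M.sub U hU.pr hU.d) := by
  have hM2d : ∀ x ∈ M2, M.d x ∈ M2 := fun x _ => hs.dM x
  have hEd : ∀ x : M.X ⧸ M2, (M.quo M2 hs.hM2.pr hM2d).d x = 0 := by
    intro x
    obtain ⟨x, rfl⟩ := Submodule.Quotient.mk_surjective M2 x
    change (Submodule.Quotient.mk (M.d x) : M.X ⧸ M2) = 0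
    rw [Submodule.Quotient.mk_eq_zero]
    exact hs.dM x
  have hE2pr : ∀ i, ∀ x ∈ U.map M2.mkQ, (M.quo M2 hs.hM2.pr hM2d).pr i x ∈ U.map M2.mkQ := by
    rintro i _ ⟨u, hu, rfl⟩
    exact ⟨M.pr i u, hU.pr i u hu, rfl⟩
  have hE2d : ∀ x ∈ U.map M2.mkQ, (M.quo M2 hs.hM2.pr hM2d).d x ∈ U.map M2.mkQ := by
    intro x _
    rw [hEd]
    exact (U.map M2.mkQ).zero_mem
  -- all the homogeneous elements of degree `≥ m` are in the image of `U`
  have key : ∀ j, m ≤ j → ∀ y, M.pr j y = y → M2.mkQ y ∈ U.map M2.mkQ := by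
    intro j hj y hy
    rcases hj.lt_or_eq with hj | hj
    · exact ⟨y, hU.high j hj y hy, rfl⟩
    · subst hj
      obtain ⟨w, u, hu, _, hw⟩ := hU.mid y hy
      refine ⟨u, hu, ?_⟩
      have h0 : M2.mkQ (M.d w) = 0 := by
        rw [← LinearMap.mem_ker, Submodule.ker_mkQ]
        exact hs.dM w
      rw [hw, map_add, h0, zero_add]
  have hfin : Module.Finite R ((M.quo M2 hs.hM2.pr hM2d).sub (U.map M2.mkQ) hE2pr hE2d).X := by
    refine finite_of_window (k := k) ((M.quo M2 hs.hM2.pr hM2d).sub (U.map M2.mkQ) hE2pr hE2d)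
      (m := m) (t := t) he ?_ ?_ ?_
    · intro j hj x hx
      obtain ⟨u, hu, hux⟩ := x.2
      have h1 : (M.quo M2 hs.hM2.pr hM2d).pr j x.1 = x.1 := congrArg Subtype.val hx
      apply Subtype.ext
      rw [← h1, ← hux]
      change M2.mkQ (M.pr j u) = 0
      rw [hU.low j hj u hu, map_zero]
    · intro j hj x hx
      obtain ⟨u, hu, hux⟩ := x.2
      have h1 : (M.quo M2 hs.hM2.pr hM2d).pr j x.1 = x.1 := congrArg Subtype.val hx
      obtain ⟨y, hy⟩ := hsurj (M.pr j u)
      have hy2 : M.pr (j - e) y = y := by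
        have h2 := M.pr_smul' ht j y
        rw [hy, M.pr_self, ← hy, ← sub_eq_zero, ← smul_sub] at h2
        have h3 := hinj _ h2
        rw [sub_eq_zero] at h3
        exact h3.symm
      refine ⟨⟨M2.mkQ y, key (j - e) (by linarith) y hy2⟩, ?_, ?_⟩
      · apply Subtype.ext
        change M2.mkQ (M.pr (j - e) y) = M2.mkQ y
        rw [hy2]
      · apply Subtype.ext
        change x.1 = t • M2.mkQ y
        rw [← map_smul, hy, ← h1, ← hux]
        rfl
    · intro j
      by_cases hj : m ≤ j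
      · obtain ⟨l, z, hz⟩ := hfd j
        refine ⟨l, fun i => ⟨M2.mkQ (M.pr j (z i)), key j hj _ (M.pr_self j _)⟩, ?_⟩
        intro x hx
        obtain ⟨u, hu, hux⟩ := x.2
        have h1 : (M.quo M2 hs.hM2.pr hM2d).pr j x.1 = x.1 := congrArg Subtype.val hx
        obtain ⟨m', hm', hc⟩ := hs.cyc u
        have h2 : M.pr j (M.pr j (u - m')) = M.pr j (u - m') := M.pr_self _ _
        have h3 : M.d (M.pr j (u - m')) = 0 := by rw [← M.pr_d, hc, map_zero]
        obtain ⟨w, c, hw⟩ := hz _ h2 h3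
        refine ⟨c, ?_⟩
        apply Subtype.ext
        have h4 : M.pr j (u - m') = M.pr j (M.d w) + ∑ i, algebraMap k R (c i) • M.pr j (z i) := by
          have h5 := congrArg (M.pr j) hw
          rw [M.pr_self, map_add, map_sum] at h5
          rw [h5]
          refine congrArg _ (Finset.sum_congr rfl fun i _ => ?_)
          rw [M.pr_smul' (hS.c_algebraMap (c i)), sub_zero]
        have h6 : x.1 = M2.mkQ (M.pr j (u - m')) := by
          rw [map_sub, map_sub]
          have h7 : M2.mkQ (M.pr j m') = 0 := by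
            rw [← LinearMap.mem_ker, Submodule.ker_mkQ]
            exact hs.hM2.pr j m' hm'
          rw [h7, sub_zero, ← h1, ← hux]
          rfl
        have h8 : M2.mkQ (M.pr j (M.d w)) = 0 := by
          rw [← LinearMap.mem_ker, Submodule.ker_mkQ]
          exact hs.hM2.pr j _ (hs.dM w)
        rw [AddSubmonoidClass.coe_finsetSum, h6, h4, map_add, h8, zero_add, map_sum]
        rfl
      · refine ⟨0, fun i => i.elim0, fun x hx => ⟨fun i => i.elim0, ?_⟩⟩
        obtain ⟨u, hu, hux⟩ := x.2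
        have h1 : (M.quo M2 hs.hM2.pr hM2d).pr j x.1 = x.1 := congrArg Subtype.val hx
        rw [Finset.univ_eq_empty, Finset.sum_empty]
        apply Subtype.ext
        rw [← h1, ← hux]
        change M2.mkQ (M.pr j u) = 0
        rw [hU.low j (not_le.1 hj) u hu, map_zero]
  have hT3 : T ((M.quo M2 hs.hM2.pr hM2d).sub (U.map M2.mkQ) hE2pr hE2d) :=
    thick_of_zero_diff hS hT h hfin (fun x => Subtype.ext (hEd x.1))
  have hT1 := thick_inf hS hT h he ht hinj hsurj hfd hs hU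
  have hfm : IsMor (M.sub (U ⊓ M2) (hU.inf_pr hs) (hU.inf_d hs)) (M.sub U hU.pr hU.d) 0
      ((U ⊓ M2).subtype.codRestrict U (fun x => x.2.1)) :=
    (isMor_subtype M (U ⊓ M2) (hU.inf_pr hs) (hU.inf_d hs)).codRestrict U hU.pr hU.d _
  have hgm0 : IsMor (M.sub U hU.pr hU.d) (M.quo M2 hs.hM2.pr hM2d) 0 (M2.mkQ ∘ₗ U.subtype) :=
    (isMor_mkQ M M2 hs.hM2.pr hM2d).comp0 (isMor_subtype M U hU.pr hU.d)
  have hgm : IsMor (M.sub U hU.pr hU.d)
      ((M.quo M2 hs.hM2.pr hM2d).sub (U.map M2.mkQ) hE2pr hE2d) 0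
      ((M2.mkQ ∘ₗ U.subtype).codRestrict (U.map M2.mkQ) (fun x => ⟨x.1, x.2, rfl⟩)) :=
    hgm0.codRestrict (U.map M2.mkQ) hE2pr hE2d _
  refine hT.ses2 _ _ _ _ _ hfm hgm ⟨?_, ?_, ?_⟩ hT1 hT3
  · intro x y hxy
    exact Subtype.ext (congrArg (fun z : U => (z : M.X)) hxy)
  · rintro ⟨_, u, hu, rfl⟩
    exact ⟨⟨u, hu⟩, rfl⟩
  · intro x
    constructor
    · intro hx
      have h1 : M2.mkQ x.1 = 0 := congrArg Subtype.val hx
      rw [← LinearMap.mem_ker, Submodule.ker_mkQ] at h1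
      exact ⟨⟨x.1, x.2, h1⟩, rfl⟩
    · rintro ⟨y, rfl⟩
      apply Subtype.ext
      change M2.mkQ y.1 = 0
      rw [← LinearMap.mem_ker, Submodule.ker_mkQ]
      exact y.2.2

end MP8a
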