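import Pool.Agent.Lib_MP_8a48ad_gt.R3LemB

/-! # Piece R3LEMC: the main lemma on DG modules killed by `p^2` -/

set_option autoImplicit false

namespace MP8a

universe u

section

variable {A : Type u} [CommRing A] {G : Gr A}

theorem HIs.comp {L M N : DGM G} {f : L.X →ₗ[A] M.X} {g : M.X →ₗ[A] N.X} (hf : IsMor L M 0 f)
    (hg : IsMor M N 0 g) {m : ℤ} (h1 : HIs L M f m) (h2 : HIs M N g m) : HIs L N (g ∘ₗ f) m := by
  intro j hj
  constructor
  · intro x hx hd y hy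
    have hfx : M.pr j (f x) = f x := by
      have h := hf.pr j x
      rw [add_zero, hx] at h
      exact h
    have hfd : M.d (f x) = 0 := by rw [hf.d, hd, map_zero]
    obtain ⟨z, hz⟩ := (h2 j hj).1 (f x) hfx hfd y hy
    exact (h1 j hj).1 x hx hd z hz
  · intro y hy hd
    obtain ⟨x, z, hx, hdx, hxz⟩ := (h2 j hj).2 y hy hd
    obtain ⟨x', z', hx', hdx', hxz'⟩ := (h1 j hj).2 x hx hdx
    refine ⟨x', g z' + z, hx', hdx', ?_⟩
    rw [hxz, hxz', map_add, ← hg.d, LinearMap.comp_apply, map_add, add_assoc]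

theorem HIs.cancel {L M N : DGM G} {f : L.X →ₗ[A] M.X} {g : M.X →ₗ[A] N.X} (hf : IsMor L M 0 f)
    (hg : IsMor M N 0 g) {m : ℤ} (h1 : HIs L N (g ∘ₗ f) m) (h2 : HIs M N g m) : HIs L M f m := by
  intro j hj
  constructor
  · intro x hx hd y hy
    exact (h1 j hj).1 x hx hd (g y) (by rw [hg.d, hy, LinearMap.comp_apply])
  · intro y hy hd
    have hgy : N.pr j (g y) = g y := by
      have h := hg.pr j y
      rw [add_zero, hy] at h
      exact h
    have hgd : N.d (g y) = 0 := by rw [hg.d, hd, map_zero]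
    obtain ⟨x, z, hx, hdx, hxz⟩ := (h1 j hj).2 (g y) hgy hgd
    have hfx : M.pr j (f x) = f x := by
      have h := hf.pr j x
      rw [add_zero, hx] at h
      exact h
    have hfd : M.d (f x) = 0 := by rw [hf.d, hdx, map_zero]
    obtain ⟨w, hw⟩ := (h2 j hj).1 (y - f x) (by rw [map_sub, hy, hfx])
      (by rw [map_sub, hd, hfd, sub_zero]) z (by
        rw [map_sub, hxz, LinearMap.comp_apply, add_sub_cancel_left])
    exact ⟨x, w, hx, hdx, by rw [hw, add_sub_cancel]⟩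

theorem HIs.mono {M N : DGM G} {f : M.X →ₗ[A] N.X} {m m' : ℤ} (h : HIs M N f m) (hm : m ≤ m') :
    HIs M N f m' :=
  fun j hj => h j (hm.trans hj)

end

variable {k : Type u} [Field k] {n : ℕ} {R : Type u} [CommRing R] [Algebra k R]
  [Algebra R (Sn k n)] {GR : Gr R}

/-- PROOF. `W`, `M2` by `exists_split`; `U` good truncation of `M` in degree `m`, `V` of `P` in degree `m + 1` (`exists_GT`); `φ` maps `V` to `U` (components of degree `≥ m + 1`). `T (M.sub U)` by `thick_GT`. `V → U` satisfies `HIs` for `m + 2`: `HIs.cancel` for `V → U → M`, where `V → U → M` is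
`V → P → M` (`GT.his`, `HIs.comp`, `HIs.mono`). By `GT.cfd` and `thick_iff_of_HIs` (`thick_kM`), twice: `T (M.sub U) ↔ T (P.sub V) ↔ T P`. -/
theorem thick_of_sq (hS : Setup k n GR) {T : DGM GR → Prop} (hT : IsThick T) (h : T (SR hS.compat))
    {M : DGM GR} {e : ℤ} (he : 0 < e) {t : R} (ht : GR.c e t = t)
    (hinj : ∀ x : M.X, t • x = 0 → x = 0) (hsurj : ∀ x : M.X, ∃ y, t • y = x)
    (hfd : ∀ j, FDj k M j) (p : Ideal R) (hph : ∀ a ∈ p, ∀ i, GR.c i a ∈ p)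
    (hp : ∀ (i : ℤ) (r : R), GR.c i r = r → r ∉ p → ∃ (m : ℕ) (r' : R), r' * r - t ^ m ∈ p)
    (hpp : ∀ a ∈ p, ∀ b ∈ p, ∀ x : M.X, (a * b) • x = 0) {P : DGM GR} (hP : CFD k P)
    {φ : P.X →ₗ[R] M.X} (hφ : IsMor P M 0 φ) {m : ℤ} (hi : HIs P M φ m) : T P := by
  obtain ⟨W, M2, hs⟩ := exists_split M ht hinj hsurj p hph hp hpp
  obtain ⟨U, hU⟩ := exists_GT hS M m
  obtain ⟨V, hV⟩ := exists_GT hS P (m + 1)
  have hTU : T (M.sub U hU.pr hU.d) := thick_GT hS hT h he ht hinj hsurj hfd hs hU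
  have hVU : ∀ x : V, (φ ∘ₗ V.subtype) x ∈ U := by
    intro x
    obtain ⟨s, hs⟩ := M.fin (φ x.1)
    change φ x.1 ∈ U
    rw [← hs]
    refine U.sum_mem fun i _ => ?_
    have h1 := hφ.pr i x.1
    rw [add_zero] at h1
    by_cases hi' : m < i
    · exact hU.high i hi' _ (M.pr_self i _)
    · rw [h1, hV.low i (by omega) x.1 x.2, map_zero]
      exact U.zero_mem
  have hm1 : IsMor (P.sub V hV.pr hV.d) P 0 V.subtype := isMor_subtype P V hV.pr hV.d
  have hm2 : IsMor (M.sub U hU.pr hU.d) M 0 U.subtype := isMor_subtype M U hU.pr hU.d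
  have hm3 : IsMor (P.sub V hV.pr hV.d) M 0 (φ ∘ₗ V.subtype) := hφ.comp0 hm1
  have hm4 : IsMor (P.sub V hV.pr hV.d) (M.sub U hU.pr hU.d) 0
      ((φ ∘ₗ V.subtype).codRestrict U hVU) := hm3.codRestrict U hU.pr hU.d hVU
  have hi1 : HIs (P.sub V hV.pr hV.d) P V.subtype (m + 1 + 1) := hV.his
  have hi2 : HIs (M.sub U hU.pr hU.d) M U.subtype (m + 1 + 1) :=
    HIs.mono hU.his (by omega)
  have hi3 : HIs (P.sub V hV.pr hV.d) M (φ ∘ₗ V.subtype) (m + 1 + 1) :=
    HIs.comp hm1 hφ hi1 (hi.mono (by omega))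
  have hi4 : HIs (P.sub V hV.pr hV.d) (M.sub U hU.pr hU.d)
      ((φ ∘ₗ V.subtype).codRestrict U hVU) (m + 1 + 1) := by
    refine HIs.cancel hm4 hm2 ?_ hi2
    have e1 : U.subtype ∘ₗ (φ ∘ₗ V.subtype).codRestrict U hVU = φ ∘ₗ V.subtype := by
      ext x
      rfl
    rw [e1]
    exact hi3
  have hk : T (kM hS) := thick_kM hS hT h
  have hcU : CFD k (M.sub U hU.pr hU.d) := hU.cfd hS hfd
  have hcV : CFD k (P.sub V hV.pr hV.d) := hV.cfd hS hP.2
  exact (thick_iff_of_HIs hS hT hk hm1 hcV hP hi1).1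
    ((thick_iff_of_HIs hS hT hk hm4 hcV hcU hi4).2 hTU)

end MP8a
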