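import Pool.Agent.Lib_MP_8a48ad_gt.R3Defs
import Pool.Agent.Lib_MP_8a48ad_gt.JIdeal

/-! # Piece R3NIL: the nilpotence theorem -/

set_option autoImplicit false

namespace MP8a

universe u

variable {k : Type u} [Field k] {n : ℕ} {R : Type u} [CommRing R] [Algebra k R]
  [Algebra R (Sn k n)] {GR : Gr R}

/-- If `f` factors through free modules (`JJ`) and is nilpotent on the cohomology of `M`, then a power of `f` is zero on `M` in the derived category.
PROOF. Let `f^l` be zero on `H(M)`, `g = 2^n`. `GP_all hS hf hJ M : GP m f M g` applied to `X' = M`, `e' = 0`, `p = id` (which is `SQ`), the sequence `Y j = M.sh (j * (l * m))`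
(even shifts, so the same differential, `DGM.sh_d_even`), `γ j = f^l • id` (of degree `0` from `Y j` to `Y (j + 1)`; a `Ghost`), `y = id : M → Y 0 = M.sh 0`, `e = 0`. As `cmp Y γ g = f^(l g) • id`
(induction), this gives `NZ M (Y g) (g m) (f^g • f^(l g) • id)`; compose (`NZ.comp_left`) with the identity `Y g → M`, which has degree `g l m`, so `N = g + l g`. -/
theorem nz_pow (hS : Setup k n GR) {m : ℤ} (hm : Even m) {f : R} (hf : GR.c m f = f)
    (hJ : JJ k n f) {M : DGM GR} (hN : Nil f M) :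
    ∃ N : ℕ, NZ M M (N * m) (f ^ N • (LinearMap.id : M.X →ₗ[R] M.X)) := by
  obtain ⟨l, hl⟩ := hN
  have hlm : Even ((l : ℤ) * m) := hm.mul_left _
  have hfl : GR.c (l * m) (f ^ l) = f ^ l := GR.pow_hom hf l
  let Y : ℕ → DGM GR := fun j => M.sh (j * (l * m))
  have hYd : ∀ j, (Y j).d = M.d := fun j => M.sh_d_even (hlm.mul_left _)
  let γ : ∀ j, (Y j).X →ₗ[R] (Y (j + 1)).X := fun _ => (f ^ l • (LinearMap.id : M.X →ₗ[R] M.X))
  have hγ : ∀ j, IsMor (Y j) (Y (j + 1)) 0 (γ j) := by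
    intro j
    constructor
    · intro i x
      have h := M.pr_smul hfl (i + (j : ℤ) * (l * m)) x
      have h2 : (l : ℤ) * m + (i + (j : ℤ) * (l * m)) = i + 0 + ((j + 1 : ℕ) : ℤ) * (l * m) := by
        push_cast
        ring
      rw [h2] at h
      exact h
    · intro x
      rw [hYd, hYd]
      change M.d (f ^ l • x) = f ^ l • M.d x
      rw [map_smul]
  have hG : ∀ j, Ghost (Y j) (Y (j + 1)) (γ j) := by
    intro j x hx
    rw [hYd] at hx
    obtain ⟨y, hy⟩ := hl x hx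
    refine ⟨y, ?_⟩
    rw [hYd]
    exact hy
  have hy : IsMor M (Y 0) 0 (LinearMap.id : M.X →ₗ[R] M.X) := by
    constructor
    · intro i x
      change M.pr (i + 0 + ((0 : ℕ) : ℤ) * (l * m)) x = M.pr i x
      rw [Nat.cast_zero, zero_mul, add_zero, add_zero]
    · intro x
      rw [hYd]
      rfl
  have hcmp : ∀ g : ℕ, ∀ x : M.X, (cmp Y γ g x : M.X) = f ^ (l * g) • x := by
    intro g
    induction g with
    | zero =>
      intro x
      change x = f ^ (l * 0) • x
      rw [mul_zero, pow_zero, one_smul]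
    | succ g ih =>
      intro x
      change f ^ l • (cmp Y γ g x : M.X) = f ^ (l * (g + 1)) • x
      rw [ih x, smul_smul, ← pow_add]
      congr 2
      ring
  have h1 := GP_all hS hf hJ M M 0 LinearMap.id (isMor_id M)
    ⟨Function.surjective_id, fun x hx _ => ⟨0, map_zero _, by
      have hx' : x = 0 := hx
      rw [hx', map_zero]⟩⟩ Y γ hγ hG 0 LinearMap.id hy
  have hback : IsMor (Y (2 ^ n)) M (((2 ^ n : ℕ) : ℤ) * (l * m)) (LinearMap.id : M.X →ₗ[R] M.X) := by
    constructor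
    · intro i x
      rfl
    · intro x
      rw [hYd]
      rfl
  have h2 := h1.comp_left hback
  refine ⟨2 ^ n + l * 2 ^ n, ?_⟩
  have h3 : (f ^ (2 ^ n + l * 2 ^ n) • (LinearMap.id : M.X →ₗ[R] M.X)) =
      (LinearMap.id : M.X →ₗ[R] M.X) ∘ₗ (f ^ (2 ^ n) • (cmp Y γ (2 ^ n) ∘ₗ LinearMap.id)) := by
    ext x
    change f ^ (2 ^ n + l * 2 ^ n) • x = f ^ (2 ^ n) • (cmp Y γ (2 ^ n) x : M.X)
    rw [hcmp, smul_smul, ← pow_add]
  rw [h3]
  refine h2.cast ?_
  push_cast
  ring

/-- The same for `f` with a power in `J`. PROOF. `nz_pow` for `f^r` (`GR.pow_hom`); `(f^r)^N = f^(r N)`. -/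
theorem nz_pow' (hS : Setup k n GR) {m : ℤ} (hm : Even m) {f : R} (hf : GR.c m f = f) {r : ℕ}
    (hJ : JJ k n (f ^ r)) {M : DGM GR} (hN : Nil f M) :
    ∃ N : ℕ, NZ M M (N * m) (f ^ N • (LinearMap.id : M.X →ₗ[R] M.X)) := by
  have hJ' : JJ k n (f ^ (r + 1)) := by
    rw [pow_succ']
    exact JJ.mul f hJ
  have hN' : Nil (f ^ (r + 1)) M := by
    obtain ⟨l, hl⟩ := hN
    refine ⟨l, fun x hx => ?_⟩
    obtain ⟨y, hy⟩ := hl x hx
    refine ⟨f ^ (r * l) • y, ?_⟩
    rw [map_smul, hy, smul_smul, ← pow_add, ← pow_mul]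
    congr 2
    ring
  obtain ⟨N, h⟩ := nz_pow hS (hm.mul_left ((r + 1 : ℕ) : ℤ)) (GR.pow_hom hf (r + 1)) hJ' hN'
  refine ⟨(r + 1) * N, ?_⟩
  rw [← pow_mul] at h
  refine h.cast ?_
  push_cast
  ring

/-- PROOF. `hJ` says that `JIdeal k n R` is contained in the ideal generated by the `g i`, and the elements which are nilpotent on the cohomology form an ideal (`Nil_iff`). -/
theorem Nil_of_span {l : ℕ} {g : Fin l → R} {M : DGM GR} (hg : ∀ i, Nil (g i) M) {f : R}
    (hf : f ∈ (Ideal.span (Set.range g)).radical) : Nil f M := by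
  rw [Nil_iff]
  have h1 : Ideal.span (Set.range g) ≤ (annH M).radical := by
    rw [Ideal.span_le]
    rintro _ ⟨i, rfl⟩
    exact (Nil_iff (g i) M).1 (hg i)
  have h2 := Ideal.radical_mono h1 hf
  rwa [Ideal.radical_idem] at h2

end MP8a
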