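import Pool.Agent.Lib_MP_8a48ad_gt.R3Cone2
import Pool.Agent.Lib_MP_8a48ad_gt.R3Nil

/-! # Piece R3MCT: the cones of `t` and of `s` -/

set_option autoImplicit false

namespace MP8a

universe u

variable {k : Type u} [Field k] {n : ℕ} {R : Type u} [CommRing R] [Algebra k R]
  [Algebra R (Sn k n)] {GR : Gr R}

/-- PROOF. `FDH_of_nil` for the family `(g, t)` (`Fin.snoc`), and `thick_of_FDH`, `thick_kM`; `FG_mc`, `Nil_mc`, `Nil_mc_self`. -/
theorem thick_mc_t (hS : Setup k n GR) {T : DGM GR → Prop} (hT : IsThick T)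
    (h : T (SR hS.compat)) {l : ℕ} {g : Fin l → R} {et : ℤ} (hete : Even et) {t : R}
    (ht : GR.c et t = t)
    (hfin : Module.Finite k (R ⧸ (Ideal.span (Set.range g) ⊔ Ideal.span {t}))) {M : DGM GR}
    (hM : FG M) (hg : ∀ i, Nil (g i) M) (N : ℕ) {e' : ℤ} (hN : GR.c e' (t ^ N) = t ^ N)
    (he' : Even e') : FDH k (M.mc hN he') ∧ T (M.mc hN he') := by
  have := hS.noeth
  have h1 : FG (M.mc hN he') := FG_mc hM hN he'
  have h2 : ∀ i, Nil ((Fin.cons t g : Fin (l + 1) → R) i) (M.mc hN he') := by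
    intro i
    refine Fin.cases ?_ (fun j => ?_) i
    · rw [Fin.cons_zero]
      exact Nil_mc_self N hN he'
    · rw [Fin.cons_succ]
      exact Nil_mc (hg j) hN he'
  have h3 : Ideal.span (Set.range (Fin.cons t g : Fin (l + 1) → R)) =
      Ideal.span (Set.range g) ⊔ Ideal.span {t} := by
    rw [Fin.range_cons, Ideal.span_insert, sup_comm]
  have h4 : FDH k (M.mc hN he') := by
    refine FDH_of_nil h1 _ h2 ?_
    rw [h3]
    exact hfin
  exact ⟨h4, thick_of_FDH hS hT (thick_kM hS hT h) h4⟩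

/-- PROOF. `t s` is nilpotent on the cohomology of `M` (`hgJ`, `Nil_of_span`), so `(t s)^N` is zero on `M` in the derived category (`nz_pow'`); use `thick_of_NZ_mul` and `thick_mc_t`. -/
theorem thick_mc_s (hS : Setup k n GR) {T : DGM GR → Prop} (hT : IsThick T)
    (h : T (SR hS.compat)) {l : ℕ} {g : Fin l → R}
    (hgJ : ∀ f : R, JJ k n f → f ∈ (Ideal.span (Set.range g)).radical) {et : ℤ} (hete : Even et)
    {t : R} (ht : GR.c et t = t)
    (hfin : Module.Finite k (R ⧸ (Ideal.span (Set.range g) ⊔ Ideal.span {t}))) {es : ℤ}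
    (hes : Even es) {s : R} (hs : GR.c es s = s) {r : ℕ} (hJ : JJ k n ((t * s) ^ r)) {M : DGM GR}
    (hM : FG M) (hg : ∀ i, Nil (g i) M) (hmc : T (M.mc hs hes)) : T M := by
  have hnil : Nil (t * s) M :=
    Nil_of_span hg (Ideal.mem_radical_of_pow_mem (hgJ _ hJ))
  obtain ⟨N, hNZ⟩ := nz_pow' hS (hete.add hes) (GR.mul ht hs) hJ hnil
  exact thick_of_NZ_mul hT ht hete hs hes hNZ rfl (GR.pow_hom ht N) (hete.mul_left _) rfl
    (thick_mc_t hS hT h hete ht hfin hM hg N _ _).2 hmc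

end MP8a
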