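import Pool.Agent.Lib_MP_8a48ad_gt.R3Cov

/-! # Piece R3SYZ: second syzygies -/

set_option autoImplicit false

namespace MP8a

universe u

variable {A : Type u} [CommRing A] {G : Gr A}

/-- PROOF (elementary): if `0 → N → C → M → 0` is exact with `C` acyclic, `x ∈ N` a cycle, `i x = d y`, then `f y` is a cycle of `M`, `a^r f y = d m`, `m = f c`, `a^r y - d c = i x'`, and `a^r x = d x'`. -/
theorem Nil_syz {N C M : DGM G} {i : N.X →ₗ[A] C.X} {f : C.X →ₗ[A] M.X} (hi : IsMor N C 0 i)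
    (hf : IsMor C M 0 f) (h : IsSES N C M i f) (hC : Acy C) {a : A} (ha : Nil a M) : Nil a N := by
  obtain ⟨hinj, hsurj, hex⟩ := h
  obtain ⟨r, hr⟩ := ha
  refine ⟨r, fun x hx => ?_⟩
  obtain ⟨y, hy⟩ := hC (i x) (by rw [hi.d, hx, map_zero])
  obtain ⟨m, hm⟩ := hr (f y) (by rw [hf.d, hy]; exact (hex _).2 ⟨x, rfl⟩)
  obtain ⟨c, rfl⟩ := hsurj m
  obtain ⟨x', hx'⟩ := (hex (a ^ r • y - C.d c)).1 (by
    rw [map_sub, map_smul, ← hf.d, hm, sub_self])
  refine ⟨x', hinj ?_⟩
  rw [← hi.d, hx', map_sub, map_smul, C.d_d, sub_zero, hy, map_smul]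

/-- an element which is regular on the ring is regular on free modules -/
theorem syz_reg {X : Type u} [AddCommGroup X] [Module A X] {ι : Type u} (e : X ≃ₗ[A] (ι →₀ A)) {s1 : A}
    (hs1 : ∀ x, s1 * x = 0 → x = 0) (x : X) (hx : s1 • x = 0) : x = 0 := by
  apply e.injective
  rw [map_zero]
  ext j
  have h1 : (s1 • e x) j = 0 := by
    rw [← map_smul, hx, map_zero]
    rfl
  exact hs1 _ h1

/-- the second regularity condition on free modules -/
theorem syz_reg2 {X : Type u} [AddCommGroup X] [Module A X] {ι : Type u} (e : X ≃ₗ[A] (ι →₀ A))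
    {s1 s2 t : A} (hs2 : ∀ x y, s2 * x = s1 * y → ∃ z, t * x = s1 * z) (x y : X)
    (h : s2 • x = s1 • y) : ∃ z : X, t • x = s1 • z := by
  classical
  have h1 : ∀ j, s2 * (e x) j = s1 * (e y) j := by
    intro j
    have h2 : (s2 • e x) j = (s1 • e y) j := by
      rw [← map_smul, h, map_smul]
    exact h2
  choose z hz using fun j => hs2 _ _ (h1 j)
  let Z : ι →₀ A := Finsupp.onFinset (e x).support (fun j => if (e x) j = 0 then 0 else z j) (by
    intro j hj
    rw [Finsupp.mem_support_iff]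
    intro h0
    exact hj (if_pos h0))
  have hZ : ∀ j, Z j = if (e x) j = 0 then 0 else z j := fun j => rfl
  refine ⟨e.symm Z, e.injective ?_⟩
  rw [map_smul, map_smul, LinearEquiv.apply_symm_apply]
  ext j
  change t * (e x) j = s1 * Z j
  rw [hZ]
  by_cases h0 : (e x) j = 0
  · rw [if_pos h0, h0, mul_zero, mul_zero]
  · rw [if_neg h0]
    exact hz j

/-- SECOND SYZYGIES. `hs1`: `s1` is regular on `A`; `hs2`: `s2, s1` is a regular sequence up to `t`. Then there is a DG module `N` with `T N → T M` and the same properties for the module `N.X`.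
PROOF. `0 → N' → C → M → 0` and `0 → N → C' → N' → 0` by `exists_syz`. `T N → T N' → T M` by `hT.ses3` (`T C` by `hT.acy`), `FG N` by `isThick_FG` (`.ses1`, `.acy`), `Nil` by `Nil_syz`. `s1` is injective on the free modules `C.X`, `C'.X`, so on
`N.X ⊆ C'.X` and `N'.X ⊆ C.X`. If `s2 x = s1 y` in `N.X` then in the free module `C'.X` (coordinates) `t x = s1 z` with `z ∈ C'.X`; the image of `z` in `N'.X` is killed by `s1`, so it is `0` and `z ∈ N.X`. -/
theorem exists_syz2 [IsNoetherianRing A] {T : DGM G → Prop} (hT : IsThick T) {M0 : DGM G} (hM0 : T M0)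
    {s1 s2 t : A} (hs1 : ∀ x, s1 * x = 0 → x = 0) (hs2 : ∀ x y, s2 * x = s1 * y → ∃ z, t * x = s1 * z)
    {M : DGM G} (hM : FG M) {l : ℕ} {g : Fin l → A} (hg : ∀ i, Nil (g i) M) :
    ∃ N : DGM G, (T N → T M) ∧ FG N ∧ (∀ i, Nil (g i) N) ∧ (∀ x : N.X, s1 • x = 0 → x = 0) ∧
      ∀ x y : N.X, s2 • x = s1 • y → ∃ z, t • x = s1 • z := by
  obtain ⟨N', C, i, f, hi, hf, hS, hC, ι, ⟨e⟩⟩ := exists_syz M
  obtain ⟨N, C', i', f', hi', hf', hS', hC', ι', ⟨e'⟩⟩ := exists_syz N'
  have hFC : FG C := (isThick_FG (G := G)).acy hM hC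
  have hFN' : FG N' := (isThick_FG (G := G)).ses1 N' C M i f hi hf hS hFC hM
  have hFC' : FG C' := (isThick_FG (G := G)).acy hM hC'
  have hFN : FG N := (isThick_FG (G := G)).ses1 N C' N' i' f' hi' hf' hS' hFC' hFN'
  have hr' : ∀ x : N'.X, s1 • x = 0 → x = 0 := by
    intro x hx
    apply hS.1
    rw [map_zero]
    exact syz_reg e hs1 (i x) (by rw [← map_smul, hx, map_zero])
  refine ⟨N, ?_, hFN, ?_, ?_, ?_⟩
  · intro hN
    have h1 : T N' := hT.ses3 N C' N' i' f' hi' hf' hS' hN (hT.acy hM0 hC')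
    exact hT.ses3 N' C M i f hi hf hS h1 (hT.acy hM0 hC)
  · intro j
    exact Nil_syz hi' hf' hS' hC' (Nil_syz hi hf hS hC (hg j))
  · intro x hx
    apply hS'.1
    rw [map_zero]
    exact syz_reg e' hs1 (i' x) (by rw [← map_smul, hx, map_zero])
  · intro x y hxy
    obtain ⟨z, hz⟩ := syz_reg2 e' hs2 (i' x) (i' y) (by rw [← map_smul, ← map_smul, hxy])
    have h1 : f' z = 0 := by
      apply hr'
      rw [← map_smul, ← hz, map_smul, (hS'.2.2 (i' x)).2 ⟨x, rfl⟩, smul_zero]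
    obtain ⟨w, rfl⟩ := (hS'.2.2 z).1 h1
    exact ⟨w, hS'.1 (by rw [map_smul, map_smul, hz])⟩

end MP8a
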