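import Pool.Agent.Lib_MP_8a48ad_gt.R3Koz
import Pool.Agent.Lib_MP_8a48ad_gt.R3LemC
import Pool.Agent.Lib_MP_8a48ad_gt.R3Mct
import Pool.Agent.Lib_MP_8a48ad_gt.R3Syz

/-! # Piece R3LINE: DG modules whose cohomology is supported on one line -/

set_option autoImplicit false

namespace MP8a

universe u

section

variable {A : Type u} [CommRing A] {G : Gr A}

/-- the quotient `M[e] / s M` -/
@[reducible] def quoS (M : DGM G) {e : ℤ} {s : A} (hs : G.c e s = s) (he : Even e) : DGM G :=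
  (M.sh e).quo _ (isMor_mul M hs he).range_pr (isMor_mul M hs he).range_d

theorem line_ses (M : DGM G) {e : ℤ} {s : A} (hs : G.c e s = s) (he : Even e)
    (hr : ∀ x : M.X, s • x = 0 → x = 0) :
    IsSES M (M.sh e) (quoS M hs he) (s • (LinearMap.id : M.X →ₗ[A] M.X))
      (LinearMap.range (s • (LinearMap.id : M.X →ₗ[A] M.X))).mkQ := by
  refine ⟨?_, Submodule.mkQ_surjective _, fun x => ?_⟩
  · rw [injective_iff_map_eq_zero]
    intro x hx
    exact hr x hx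
  · rw [← LinearMap.mem_ker, Submodule.ker_mkQ]
    exact Iff.rfl

theorem line_ses_neg (M : DGM G) {e : ℤ} {s : A} (hs : G.c e s = s) (he : Even e)
    (hr : ∀ x : M.X, s • x = 0 → x = 0) :
    IsSES M (M.sh e) (quoS M hs he) (-(s • (LinearMap.id : M.X →ₗ[A] M.X)))
      (LinearMap.range (s • (LinearMap.id : M.X →ₗ[A] M.X))).mkQ := by
  obtain ⟨h1, h2, h3⟩ := line_ses M hs he hr
  refine ⟨?_, h2, fun x => ?_⟩
  · rw [injective_iff_map_eq_zero]
    intro x hx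
    have hx' : -(s • x) = 0 := hx
    exact hr x (neg_eq_zero.1 hx')
  · rw [h3]
    constructor
    · rintro ⟨y, rfl⟩
      refine ⟨-y, ?_⟩
      rw [LinearMap.neg_apply, map_neg, neg_neg]
    · rintro ⟨y, rfl⟩
      refine ⟨-y, ?_⟩
      rw [LinearMap.neg_apply, map_neg]

theorem line_cone {T : DGM G → Prop} (hT : IsThick T) (M : DGM G) {e : ℤ} {s : A}
    (hs : G.c e s = s) (he : Even e) (hr : ∀ x : M.X, s • x = 0 → x = 0)
    (h : T (quoS M hs he)) : T (M.mc hs he) := by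
  have h1 : IsMor M (M.sh e) 0 (-(-(s • (LinearMap.id : M.X →ₗ[A] M.X)))) := (isMor_mul M hs he).neg.neg
  have h2 := hT.cone_inj (isMor_mul M hs he).neg (isMor_mkQ (M.sh e) _ (isMor_mul M hs he).range_pr
    (isMor_mul M hs he).range_d) (line_ses_neg M hs he hr) h h1
  have h3 : ∀ f : M.X →ₗ[A] (M.sh e).X, f = s • (LinearMap.id : M.X →ₗ[A] M.X) →
      ∀ hf : IsMor M (M.sh e) 0 f, T (M.cone (M.sh e) f hf) → T (M.mc hs he) := by
    intro f hf
    subst hf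
    intro _ h4
    exact h4
  exact h3 _ (neg_neg _) h1 h2

theorem line_Nil_sh {M : DGM G} {a : A} (ha : Nil a M) {e : ℤ} (he : Even e) : Nil a (M.sh e) := by
  obtain ⟨r, hr⟩ := ha
  refine ⟨r, fun x hx => ?_⟩
  rw [DGM.sh_d_even M he] at hx ⊢
  exact hr x hx

theorem line_Nil_ses {L M N : DGM G} {f : L.X →ₗ[A] M.X} {g : M.X →ₗ[A] N.X} (hf : IsMor L M 0 f)
    (hg : IsMor M N 0 g) (h : IsSES L M N f g) {a : A} (hL : Nil a L) (hM : Nil a M) : Nil a N := by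
  obtain ⟨hinj, hsurj, hex⟩ := h
  obtain ⟨r, hr⟩ := hL
  obtain ⟨q, hq⟩ := hM
  refine ⟨q + r, fun x hx => ?_⟩
  obtain ⟨m, rfl⟩ := hsurj x
  obtain ⟨l, hl⟩ := (hex (M.d m)).1 (by rw [← hg.d, hx])
  obtain ⟨l', hl'⟩ := hr l (hinj (by rw [← hf.d, hl, M.d_d, map_zero]))
  obtain ⟨m', hm'⟩ := hq (a ^ r • m - f l') (by
    rw [map_sub, map_smul, hf.d, hl', map_smul, hl, sub_self])
  refine ⟨g m', ?_⟩
  rw [hg.d, hm', map_smul, map_sub, map_smul, (hex (f l')).2 ⟨l', rfl⟩, sub_zero, smul_smul, pow_add]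

theorem line_pow_inj {X : Type u} [AddCommGroup X] [Module A X] {t : A}
    (h : ∀ x : X, t • x = 0 → x = 0) (r : ℕ) (x : X) (hx : t ^ r • x = 0) : x = 0 := by
  induction r with
  | zero => rwa [pow_zero, one_smul] at hx
  | succ r ih =>
    rw [pow_succ', mul_smul] at hx
    exact ih (h _ hx)

/-- `s` kills `M[e] / s M` -/
theorem line_quoS_self (M : DGM G) {e : ℤ} {s : A} (hs : G.c e s = s) (he : Even e)
    (x : (quoS M hs he).X) : s • x = 0 := by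
  obtain ⟨y, rfl⟩ := Submodule.mkQ_surjective _ x
  rw [← map_smul, ← LinearMap.mem_ker, Submodule.ker_mkQ]
  exact ⟨y, rfl⟩

/-- what kills `M` kills the quotient -/
theorem line_quoS_of (M : DGM G) {e : ℤ} {s : A} (hs : G.c e s = s) (he : Even e) {a : A}
    (ha : ∀ x : M.X, a • x = 0) (x : (quoS M hs he).X) : a • x = 0 := by
  obtain ⟨y, rfl⟩ := Submodule.mkQ_surjective _ x
  rw [← map_smul]
  have h1 : a • y = 0 := ha y
  rw [h1, map_zero]

end

variable {k : Type u} [Field k] {n : ℕ} {R : Type u} [CommRing R] [Algebra k R]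
  [Algebra R (Sn k n)] {GR : Gr R}

/-- THE CASE OF ONE LINE. PROOF. By `exists_syz2` we may assume that `s1` is regular on `M.X` and that `s2 x = s1 y` implies `t x ∈ s1 M.X`. By `thick_mc_s` it is enough to show `T (M.mc s1)`, and by `IsThick.cone_inj` (for `c = - s1`; `M → M[e1]` is injective) that
`T N1`, `N1 = (M.sh e1).quo (s1 M)`; `N1` has `FG` and `Nil (g i)` (`isThick_FG`; `Nil` from the exact sequence `0 → M → M[e1] → N1 → 0`: a power of `a` which is zero on `H(M)`, squared), and `s2 x = 0` implies `t x = 0` in `N1`. By `thick_mc_s` it is enough to show `T P`, `P = N1.mc s2`.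
`FG P`, `Nil (g i) P` (`FG_mc`, `Nil_mc`), so `CFD k P` (`CFD_of_FG`), and `FDH (P.mc t)` (`thick_mc_t` with `N = 1`), so `t` is bijective on `H^j(P)` for large `j` (`HV_of_FDH`, `TB_of_HV`). Let `Q = (N1.sh e2).quo (s2 N1)`, `Q → N` the localisation (`exists_isLoc`): `his_koz`, `FDj_of_HIs`. Elements of
`span {s1, s2}` kill `Q`, so for `a, b ∈ p`, `t (a b) Q = 0` and `(a b) N = 0` (`IsLoc`). Apply `thick_of_sq` with `φ = lam ∘ mcQuo`. -/
theorem thick_line (hS : Setup k n GR) {T : DGM GR → Prop} (hT : IsThick T)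
    (h : T (SR hS.compat)) {l : ℕ} {g : Fin l → R}
    (hgJ : ∀ f : R, JJ k n f → f ∈ (Ideal.span (Set.range g)).radical) {et : ℤ} (het : 0 < et)
    (hete : Even et) {t : R} (ht : GR.c et t = t)
    (hfin : Module.Finite k (R ⧸ (Ideal.span (Set.range g) ⊔ Ideal.span {t}))) {e1 e2 : ℤ}
    (he1 : Even e1) (he2 : Even e2) {s1 s2 : R} (hs1 : GR.c e1 s1 = s1) (hs2 : GR.c e2 s2 = s2)
    {r1 r2 : ℕ} (hJ1 : JJ k n ((t * s1) ^ r1)) (hJ2 : JJ k n ((t * s2) ^ r2))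
    (hr1 : ∀ x, s1 * x = 0 → x = 0) (hr2 : ∀ x y, s2 * x = s1 * y → ∃ z, t * x = s1 * z)
    (p : Ideal R) (hph : ∀ a ∈ p, ∀ i, GR.c i a ∈ p)
    (hp : ∀ (i : ℤ) (r : R), GR.c i r = r → r ∉ p → ∃ (m : ℕ) (r' : R), r' * r - t ^ m ∈ p)
    (hsq : ∀ a ∈ p, ∀ b ∈ p, t * (a * b) ∈ Ideal.span {s1, s2}) {M : DGM GR} (hM : FG M)
    (hg : ∀ i, Nil (g i) M) : T M := by
  have hno := hS.noeth
  have hreg := thick_regM hS hT h
  obtain ⟨M0, hM0, hF0, hg0, hr0, hr0'⟩ := exists_syz2 hT hreg hr1 hr2 hM hg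
  apply hM0
  refine thick_mc_s hS hT h hgJ hete ht hfin he1 hs1 hJ1 hF0 hg0 ?_
  refine line_cone hT M0 hs1 he1 hr0 ?_
  have hses := line_ses M0 hs1 he1 hr0
  have hmk := isMor_mkQ (M0.sh e1) _ (isMor_mul M0 hs1 he1).range_pr (isMor_mul M0 hs1 he1).range_d
  -- the quotient `N1`
  have hF1 : FG (quoS M0 hs1 he1) :=
    (isThick_FG (G := GR)).ses3 M0 (M0.sh e1) _ _ _ (isMor_mul M0 hs1 he1) hmk hses hF0
      (FG_sh hF0 e1)
  have hg1 : ∀ i, Nil (g i) (quoS M0 hs1 he1) := fun i =>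
    line_Nil_ses (isMor_mul M0 hs1 he1) hmk hses (hg0 i) (line_Nil_sh (hg0 i) he1)
  have hst : ∀ x : (quoS M0 hs1 he1).X, s2 • x = 0 → t • x = 0 := by
    intro x hx
    obtain ⟨y, rfl⟩ := Submodule.mkQ_surjective _ x
    rw [← map_smul, ← LinearMap.mem_ker, Submodule.ker_mkQ] at hx
    obtain ⟨w, hw⟩ := hx
    have hw' : s2 • y = s1 • w := hw.symm
    obtain ⟨z, hz⟩ := hr0' y w hw'
    rw [← map_smul, ← LinearMap.mem_ker, Submodule.ker_mkQ]
    exact ⟨z, hz.symm⟩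
  refine thick_mc_s hS hT h hgJ hete ht hfin he2 hs2 hJ2 hF1 hg1 ?_
  have hFP : FG ((quoS M0 hs1 he1).mc hs2 he2) := FG_mc hF1 hs2 he2
  have hgP : ∀ i, Nil (g i) ((quoS M0 hs1 he1).mc hs2 he2) := fun i => Nil_mc (hg1 i) hs2 he2
  have hCFD : CFD k ((quoS M0 hs1 he1).mc hs2 he2) := CFD_of_FG hS hFP
  have hFDH : FDH k (((quoS M0 hs1 he1).mc hs2 he2).mc ht hete) := by
    have ht1 : GR.c et (t ^ 1) = t ^ 1 := by rw [pow_one, ht]
    have h5 := (thick_mc_t hS hT h hete ht hfin hFP hgP 1 ht1 hete).1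
    have h6 : ∀ b : R, b = t → ∀ hb : GR.c et b = b,
        FDH k (((quoS M0 hs1 he1).mc hs2 he2).mc hb hete) →
          FDH k (((quoS M0 hs1 he1).mc hs2 he2).mc ht hete) := by
      intro b hbt
      subst hbt
      intro _ h7
      exact h7
    exact h6 _ (pow_one t) ht1 h5
  obtain ⟨b, hb⟩ := HV_of_FDH hS.c_algebraMap hFDH
  have hTB : TB ((quoS M0 hs1 he1).mc hs2 he2) t et (b + 1) := TB_of_HV ht hete hb
  obtain ⟨N, lam, hl⟩ := exists_isLoc (quoS (quoS M0 hs1 he1) hs2 he2) ht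
  have hHIs : HIs ((quoS M0 hs1 he1).mc hs2 he2) N (lam ∘ₗ mcQuo (quoS M0 hs1 he1) hs2 he2) (b + 1) :=
    his_koz hs2 he2 het.le ht hst hl hTB
  have hφ : IsMor ((quoS M0 hs1 he1).mc hs2 he2) N 0 (lam ∘ₗ mcQuo (quoS M0 hs1 he1) hs2 he2) :=
    hl.mor.comp0 (isMor_mcQuo (quoS M0 hs1 he1) hs2 he2)
  have hfd : ∀ j, FDj k N j := FDj_of_HIs hφ hHIs hCFD.2 het ht hl.inj hl.surj
  have hkill : ∀ a ∈ Ideal.span {s1, s2}, ∀ x : (quoS (quoS M0 hs1 he1) hs2 he2).X, a • x = 0 := by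
    intro a ha x
    obtain ⟨c1, c2, rfl⟩ := Ideal.mem_span_pair.1 ha
    rw [add_smul, mul_smul, mul_smul, line_quoS_self (quoS M0 hs1 he1) hs2 he2 x,
      line_quoS_of (quoS M0 hs1 he1) hs2 he2 (line_quoS_self M0 hs1 he1) x, smul_zero, smul_zero,
      add_zero]
  have hpp : ∀ a ∈ p, ∀ b ∈ p, ∀ x : N.X, (a * b) • x = 0 := by
    intro a ha b hb x
    obtain ⟨m, y, hy⟩ := hl.exists_pow x
    refine line_pow_inj hl.inj (m + 1) _ ?_
    have e1 : t ^ (m + 1) • (a * b) • x = (t * (a * b)) • (t ^ m • x) := by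
      rw [smul_smul, smul_smul]
      congr 1
      ring
    rw [e1, hy, ← map_smul, hkill _ (hsq a ha b hb) y, map_zero]
  exact thick_of_sq hS hT h het ht hl.inj hl.surj hfd p hph hp hpp hCFD hφ hHIs

end MP8a
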