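import Pool.Agent.Lib_MP_8a48ad_gt.R3Det
import Pool.Agent.Lib_MP_8a48ad_gt.R3Gcd

/-! # Piece R3LOC2: the local data at a line -/

set_option autoImplicit false

namespace MP8a

universe u

section

variable {R : Type u} [CommRing R] {GR : Gr R}

/-- PROOF. Some component of `t` is not in `p` (`Gr.fin`), and it is in the homogeneous ideal `I`. Its degree is even: components in odd degrees are `0 ∈ p`. -/
theorem exists_hom_not_mem (I p : Ideal R) (hI : ∀ a ∈ I, ∀ i, GR.c i a ∈ I) {t : R} (ht : t ∈ I)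
    (htp : t ∉ p) : ∃ (e : ℤ) (t' : R), Even e ∧ GR.c e t' = t' ∧ t' ∈ I ∧ t' ∉ p := by
  obtain ⟨s, hs⟩ := GR.fin t
  by_contra hcon
  push Not at hcon
  apply htp
  rw [← hs]
  refine p.sum_mem fun i _ => ?_
  rcases Int.even_or_odd i with hi | hi
  · exact hcon i (GR.c i t) hi (GR.c_self i t) (hI t ht i)
  · rw [GR.odd hi]
    exact p.zero_mem

private theorem loc2_mul {i : ℤ} {a : R} (ha : GR.c i a = a) (j : ℤ) (x : R) :
    GR.c j (a * x) = a * GR.c (j - i) x :=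
  (regM GR).pr_smul' ha j x

private theorem loc2_span {s1 s2 : R} {e1 e2 : ℤ} (h1 : GR.c e1 s1 = s1) (h2 : GR.c e2 s2 = s2)
    {x : R} (hx : x ∈ Ideal.span {s1, s2}) (m : ℤ) : GR.c m x ∈ Ideal.span {s1, s2} := by
  obtain ⟨u, v, huv⟩ := Ideal.mem_span_pair.1 hx
  rw [← huv, map_add, mul_comm u, mul_comm v, loc2_mul h1, loc2_mul h2]
  exact Ideal.mem_span_pair.2 ⟨GR.c (m - e1) u, GR.c (m - e2) v, by rw [mul_comm s1, mul_comm s2]⟩

private theorem loc2_J1 {p : Ideal R} (hp : ∀ a ∈ p, ∀ i, GR.c i a ∈ p) {s1 s2 : R} {e1 e2 : ℤ}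
    (h1 : GR.c e1 s1 = s1) (h2 : GR.c e2 s2 = s2) {t : R}
    (ht : ∀ a ∈ p, ∀ b ∈ p, t * (a * b) ∈ Ideal.span {s1, s2}) (i : ℤ) :
    ∀ a ∈ p, ∀ b ∈ p, GR.c i t * (a * b) ∈ Ideal.span {s1, s2} := by
  intro a ha b hb
  obtain ⟨A, hA⟩ := GR.fin a
  obtain ⟨B, hB⟩ := GR.fin b
  have h3 : GR.c i t * (a * b) = ∑ j ∈ A, ∑ l ∈ B, GR.c i t * (GR.c j a * GR.c l b) := by
    conv_lhs => rw [← hA, ← hB]
    rw [Finset.sum_mul_sum, Finset.mul_sum]
    exact Finset.sum_congr rfl fun j _ => Finset.mul_sum _ _ _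
  rw [h3]
  refine Ideal.sum_mem _ fun j _ => Ideal.sum_mem _ fun l _ => ?_
  have h4 : GR.c (j + l) (GR.c j a * GR.c l b) = GR.c j a * GR.c l b :=
    GR.mul (GR.c_self j a) (GR.c_self l b)
  have h5 := loc2_mul h4 (i + (j + l)) t
  rw [add_sub_cancel_right] at h5
  rw [mul_comm, ← h5, mul_comm _ t]
  exact loc2_span h1 h2 (ht _ (hp a ha j) _ (hp b hb l)) _

private theorem loc2_J2 {s1 s2 : R} {e1 e2 : ℤ}
    (h1 : GR.c e1 s1 = s1) (h2 : GR.c e2 s2 = s2) {t : R}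
    (ht : ∀ x y, s2 * x = s1 * y → ∃ z, t * x = s1 * z) (i : ℤ) :
    ∀ x y, s2 * x = s1 * y → ∃ z, GR.c i t * x = s1 * z := by
  intro x y hxy
  obtain ⟨A, hA⟩ := GR.fin x
  have h3 : ∀ j, ∃ z, GR.c i t * GR.c j x = s1 * z := by
    intro j
    have h4 : s2 * GR.c j x = s1 * GR.c (j + e2 - e1) y := by
      have h5 := congrArg (GR.c (j + e2)) hxy
      rw [loc2_mul h2, loc2_mul h1, add_sub_cancel_right] at h5
      exact h5
    obtain ⟨z, hz⟩ := ht _ _ h4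
    refine ⟨GR.c (i + j - e1) z, ?_⟩
    have h6 := congrArg (GR.c (i + j)) hz
    rw [mul_comm t, loc2_mul (GR.c_self j x), loc2_mul h1, add_sub_cancel_right] at h6
    rw [mul_comm, h6]
  choose z hz using h3
  refine ⟨∑ j ∈ A, z j, ?_⟩
  conv_lhs => rw [← hA]
  rw [Finset.mul_sum, Finset.mul_sum]
  exact Finset.sum_congr rfl fun j _ => hz j

end

variable {k : Type u} [Field k] {W : Type*} [Group W] [Finite W]

/-- PROOF. `s₁, s₂, g'` from `exists_s₁s₂`, `η` from `exists_regular`. `I₁ = {s ∈ S | s a b ∈ (s₁, s₂) S for all invariants a, b ∈ q}` and `I₂ = {s ∈ S | s₂ x = s₁ y implies s x ∈ s₁ S}` are `W`-stable ideals of `S` (`s₁, s₂, a, b` are invariant) which contain `g'`, `η`, so there are invariants `t₁ ∈ I₁`, `t₂ ∈ I₂` which are not in `q` (`exists_inv_not_mem`).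
Let `r : S → R` be the Reynolds operator (`reynolds`), `R`-linear with `r 1 = 1`, so `r x = x` for invariants. Applying `r`: `t₁ a b ∈ (s₁, s₂) R`, and if `s₂ x = s₁ y` in `R` then `t₂ x = s₁ z` with `z ∈ R`. The ideals `J₁ = {t ∈ R | t a b ∈ (s₁, s₂) R for all a, b ∈ p}` and `J₂ = {t ∈ R | s₂ x = s₁ y implies t x ∈ s₁ R}` of `R` are homogeneous, as
`s₁, s₂` and `p` are homogeneous (for `J₁` it is enough to consider homogeneous `a`, `b`; for `J₂` homogeneous `x`, `y`; components). By `exists_hom_not_mem` we may assume that `t₁`, `t₂` are homogeneous of even degrees; `t = t₁ t₂`. Degrees of `s_i`: `c_of_hom`. -/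
theorem exists_local (hW : (Nat.card W : k) ≠ 0) (ρ₀ : W →* GL (Fin 3) ℤ) (q : Ideal (Sn k 3))
    (hq : HPr (grS k 3) q) {t₀ c₁ c₂ : Fin 3 → ℤ} (h : LD k ρ₀ (inert (latt k ρ₀) q) t₀ c₁ c₂) :
    ∃ (et e1 e2 : ℤ) (t s1 s2 : invA (latt k ρ₀)), Even et ∧ Even e1 ∧ Even e2 ∧
      (grR (latt k ρ₀)).c et t = t ∧ (grR (latt k ρ₀)).c e1 s1 = s1 ∧
      (grR (latt k ρ₀)).c e2 s2 = s2 ∧ (t : Sn k 3) ∉ q ∧ (s1 : Sn k 3) ∈ q ∧ (s2 : Sn k 3) ∈ q ∧
      (∀ x, s1 * x = 0 → x = 0) ∧ (∀ x y, s2 * x = s1 * y → ∃ z, t * x = s1 * z) ∧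
      ∀ a b : invA (latt k ρ₀), (a : Sn k 3) ∈ q → (b : Sn k 3) ∈ q →
        t * (a * b) ∈ Ideal.span {s1, s2} := by
  have hprime := hq.prime
  obtain ⟨s₁, s₂, d₁, d₂, g', hs1h, hs2h, hs1q, hs2q, hgq, hg⟩ := exists_s₁s₂ hW ρ₀ q hq h
  obtain ⟨hs10, η, hηq, hη⟩ := exists_regular hW ρ₀ q hq h hs1q hs2q hgq hg
  have hfix : ∀ (a : invA (latt k ρ₀)) (w : W), wact (latt k ρ₀) w (a : Sn k 3) = a :=
    fun a w => a.2 w
  -- the two ideals of `S`
  let I₁ : Ideal (Sn k 3) :=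
    { carrier := {s | ∀ a b : invA (latt k ρ₀), (a : Sn k 3) ∈ q → (b : Sn k 3) ∈ q →
        s * ((a : Sn k 3) * (b : Sn k 3)) ∈ Ideal.span {(s₁ : Sn k 3), (s₂ : Sn k 3)}}
      add_mem' := fun {s s'} hs hs' a b ha hb => by
        rw [add_mul]
        exact Ideal.add_mem _ (hs a b ha hb) (hs' a b ha hb)
      zero_mem' := fun a b _ _ => by
        rw [zero_mul]
        exact Ideal.zero_mem _
      smul_mem' := fun c s hs a b ha hb => by
        rw [smul_eq_mul, mul_assoc]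
        exact Ideal.mul_mem_left _ _ (hs a b ha hb) }
  have hI₁ : ∀ w, ∀ s ∈ I₁, wact (latt k ρ₀) w s ∈ I₁ := by
    intro w s hs a b ha hb
    obtain ⟨u, v, huv⟩ := Ideal.mem_span_pair.1 (hs a b ha hb)
    have h1 := congrArg (wact (latt k ρ₀) w) huv
    rw [map_add, map_mul, map_mul, map_mul, map_mul, hfix, hfix, hfix, hfix] at h1
    rw [← h1]
    exact Ideal.mem_span_pair.2 ⟨_, _, rfl⟩
  let I₂ : Ideal (Sn k 3) :=
    { carrier := {s | ∀ x y : Sn k 3, (s₂ : Sn k 3) * x = (s₁ : Sn k 3) * y →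
        ∃ z, s * x = (s₁ : Sn k 3) * z}
      add_mem' := fun {s s'} hs hs' x y hxy => by
        obtain ⟨z, hz⟩ := hs x y hxy
        obtain ⟨z', hz'⟩ := hs' x y hxy
        exact ⟨z + z', by rw [add_mul, hz, hz', mul_add]⟩
      zero_mem' := fun x y _ => ⟨0, by rw [zero_mul, mul_zero]⟩
      smul_mem' := fun c s hs x y hxy => by
        obtain ⟨z, hz⟩ := hs x y hxy
        exact ⟨c * z, by rw [smul_eq_mul, mul_assoc, hz, mul_left_comm]⟩ }
  have hI₂ : ∀ w, ∀ s ∈ I₂, wact (latt k ρ₀) w s ∈ I₂ := by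
    intro w s hs x y hxy
    have h1 := congrArg (wact (latt k ρ₀) w⁻¹) hxy
    rw [map_mul, map_mul, hfix, hfix] at h1
    obtain ⟨z, hz⟩ := hs _ _ h1
    refine ⟨wact (latt k ρ₀) w z, ?_⟩
    have h2 := congrArg (wact (latt k ρ₀) w) hz
    rw [map_mul, map_mul, act_act_inv, hfix] at h2
    exact h2
  obtain ⟨t₁, ht₁, ht₁q⟩ := exists_inv_not_mem (latt k ρ₀) q I₁ hI₁ (g := g') hg hgq
  obtain ⟨t₂, ht₂, ht₂q⟩ := exists_inv_not_mem (latt k ρ₀) q I₂ hI₂ (g := η) hη hηq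
  -- descent to the invariants
  obtain ⟨r, hr1, _⟩ := reynolds hW (latt k ρ₀)
  have hrm : ∀ (a : invA (latt k ρ₀)) (s : Sn k 3), r ((a : Sn k 3) * s) = a * r s := by
    intro a s
    exact r.map_smul a s
  have hra : ∀ a : invA (latt k ρ₀), r (a : Sn k 3) = a := by
    intro a
    have h1 := hrm a 1
    rw [mul_one, hr1, mul_one] at h1
    exact h1
  have he1 : (grR (latt k ρ₀)).c (2 * (d₁ : ℤ)) s₁ = s₁ := Subtype.ext (c_of_hom hs1h)
  have he2 : (grR (latt k ρ₀)).c (2 * (d₂ : ℤ)) s₂ = s₂ := Subtype.ext (c_of_hom hs2h)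
  have hp : ∀ a ∈ q.comap (algebraMap (invA (latt k ρ₀)) (Sn k 3)), ∀ i,
      (grR (latt k ρ₀)).c i a ∈ q.comap (algebraMap (invA (latt k ρ₀)) (Sn k 3)) :=
    fun a ha i => hq.hom _ ha i
  let J₁ : Ideal (invA (latt k ρ₀)) :=
    { carrier := {t | ∀ a ∈ q.comap (algebraMap (invA (latt k ρ₀)) (Sn k 3)),
        ∀ b ∈ q.comap (algebraMap (invA (latt k ρ₀)) (Sn k 3)), t * (a * b) ∈ Ideal.span {s₁, s₂}}
      add_mem' := fun {s s'} hs hs' a ha b hb => by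
        rw [add_mul]
        exact Ideal.add_mem _ (hs a ha b hb) (hs' a ha b hb)
      zero_mem' := fun a _ b _ => by
        rw [zero_mul]
        exact Ideal.zero_mem _
      smul_mem' := fun c s hs a ha b hb => by
        rw [smul_eq_mul, mul_assoc]
        exact Ideal.mul_mem_left _ _ (hs a ha b hb) }
  have hJ₁ : t₁ ∈ J₁ := by
    intro a ha b hb
    obtain ⟨u, v, huv⟩ := Ideal.mem_span_pair.1 (ht₁ a b ha hb)
    have h1 : r ((t₁ * (a * b) : invA (latt k ρ₀)) : Sn k 3) =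
        r (u * (s₁ : Sn k 3) + v * (s₂ : Sn k 3)) := congrArg r huv.symm
    rw [hra, map_add, mul_comm u, mul_comm v, hrm, hrm] at h1
    rw [h1]
    exact Ideal.mem_span_pair.2 ⟨r u, r v, by rw [mul_comm s₁, mul_comm s₂]⟩
  let J₂ : Ideal (invA (latt k ρ₀)) :=
    { carrier := {t | ∀ x y, s₂ * x = s₁ * y → ∃ z, t * x = s₁ * z}
      add_mem' := fun {s s'} hs hs' x y hxy => by
        obtain ⟨z, hz⟩ := hs x y hxy
        obtain ⟨z', hz'⟩ := hs' x y hxy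
        exact ⟨z + z', by rw [add_mul, hz, hz', mul_add]⟩
      zero_mem' := fun x y _ => ⟨0, by rw [zero_mul, mul_zero]⟩
      smul_mem' := fun c s hs x y hxy => by
        obtain ⟨z, hz⟩ := hs x y hxy
        exact ⟨c * z, by rw [smul_eq_mul, mul_assoc, hz, mul_left_comm]⟩ }
  have hJ₂ : t₂ ∈ J₂ := by
    intro x y hxy
    have hxy' : (s₂ : Sn k 3) * (x : Sn k 3) = (s₁ : Sn k 3) * (y : Sn k 3) :=
      congrArg Subtype.val hxy
    obtain ⟨z, hz⟩ := ht₂ _ _ hxy'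
    refine ⟨r z, ?_⟩
    have h1 : r ((t₂ * x : invA (latt k ρ₀)) : Sn k 3) = r ((s₁ : Sn k 3) * z) := congrArg r hz
    rw [hra, hrm] at h1
    exact h1
  obtain ⟨ea, ta, hea, hta, htaJ, htaq⟩ := exists_hom_not_mem (GR := grR (latt k ρ₀)) J₁
    (q.comap (algebraMap (invA (latt k ρ₀)) (Sn k 3)))
    (fun a ha i => loc2_J1 hp he1 he2 ha i) hJ₁ ht₁q
  obtain ⟨eb, tb, heb, htb, htbJ, htbq⟩ := exists_hom_not_mem (GR := grR (latt k ρ₀)) J₂
    (q.comap (algebraMap (invA (latt k ρ₀)) (Sn k 3)))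
    (fun a ha i => loc2_J2 he1 he2 ha i) hJ₂ ht₂q
  have htJ1 : ta * tb ∈ J₁ := J₁.mul_mem_right _ htaJ
  have htJ2 : ta * tb ∈ J₂ := J₂.mul_mem_left _ htbJ
  refine ⟨ea + eb, 2 * (d₁ : ℤ), 2 * (d₂ : ℤ), ta * tb, s₁, s₂, hea.add heb, even_two_mul _,
    even_two_mul _, (grR (latt k ρ₀)).mul hta htb, he1, he2, ?_, hs1q, hs2q, ?_, htJ2,
    fun a b ha hb => htJ1 a ha b hb⟩
  · intro hmem
    rcases hprime.mem_or_mem (show (ta : Sn k 3) * (tb : Sn k 3) ∈ q from hmem) with h1 | h1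
    · exact htaq h1
    · exact htbq h1
  · intro x hx
    have h1 : (s₁ : Sn k 3) * (x : Sn k 3) = 0 := congrArg Subtype.val hx
    rcases mul_eq_zero.1 h1 with h2 | h2
    · exact absurd (Subtype.ext h2) hs10
    · exact Subtype.ext h2

end MP8a
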