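import Pool.Agent.Lib_MP_8a48ad_gt.R3Act

/-! # Piece R3MON: torus invariants -/

set_option autoImplicit false

namespace MP8a

universe u

theorem R3Mon.diag_X {K : Type u} [Field K] {n : ℕ} (d : Fin n → K) (j : Fin n) :
    linAct (Matrix.diagonal d) (MvPolynomial.X j) = MvPolynomial.C (d j) * MvPolynomial.X j := by
  rw [linAct_X, Finset.sum_eq_single j]
  · rw [Matrix.diagonal_apply_eq]
  · intro i _ hi
    rw [Matrix.diagonal_apply_ne _ hi, map_zero, zero_mul]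
  · intro h
    exact absurd (Finset.mem_univ j) h

theorem R3Mon.diag_monomial {K : Type u} [Field K] {n : ℕ} (d : Fin n → K) (ν : Fin n →₀ ℕ)
    (c : K) : linAct (Matrix.diagonal d) (MvPolynomial.monomial ν c) =
      MvPolynomial.monomial ν (c * ∏ j, d j ^ ν j) := by
  have h1 : (MvPolynomial.monomial ν c : Sn K n) =
      MvPolynomial.C c * ∏ j, MvPolynomial.X j ^ ν j := by
    rw [MvPolynomial.monomial_eq, Finsupp.prod_fintype]
    intro i
    exact pow_zero _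
  have h2 : (MvPolynomial.monomial ν (c * ∏ j, d j ^ ν j) : Sn K n) =
      MvPolynomial.C (c * ∏ j, d j ^ ν j) * ∏ j, MvPolynomial.X j ^ ν j := by
    rw [MvPolynomial.monomial_eq, Finsupp.prod_fintype]
    intro i
    exact pow_zero _
  rw [h1, h2, map_mul, map_prod, MvPolynomial.algHom_C, MvPolynomial.algebraMap_eq]
  simp only [map_pow, R3Mon.diag_X, mul_pow, Finset.prod_mul_distrib]
  rw [map_mul, map_prod]
  simp only [map_pow]
  ring

theorem R3Mon.coeff_diag {K : Type u} [Field K] {n : ℕ} (d : Fin n → K) (μ : Fin n →₀ ℕ)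
    (x : Sn K n) : MvPolynomial.coeff μ (linAct (Matrix.diagonal d) x) =
      MvPolynomial.coeff μ x * ∏ j, d j ^ μ j := by
  induction x using MvPolynomial.induction_on' with
  | monomial ν c =>
    rw [R3Mon.diag_monomial, MvPolynomial.coeff_monomial, MvPolynomial.coeff_monomial]
    by_cases h : ν = μ
    · subst h
      rw [if_pos rfl, if_pos rfl]
    · rw [if_neg h, if_neg h, zero_mul]
  | add p q hp hq =>
    rw [map_add, MvPolynomial.coeff_add, MvPolynomial.coeff_add, hp, hq, add_mul]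

/-- PROOF. Comparing coefficients (`linAct` of a diagonal matrix multiplies the monomial `X^μ` by `ζ^{μ 1} ζ^{-μ 2}`): every monomial `μ` of `x` satisfies `ζ^{μ 1} = ζ^{μ 2}` for all `ζ ∈ Z`, so `μ 1 ≡ μ 2` modulo `m`, and `(μ 1, μ 2) ≠ (0, 0)` by `h0` (`MvPolynomial.mem_ideal_span_X_image`). If `μ 1, μ 2 ≥ 1` then `X_1 X_2`
divides the monomial; otherwise `X_1^m` or `X_2^m` divides it. -/
theorem mem_of_torus {K : Type u} [Field K] {m : ℕ} (hm : 0 < m) (x : Sn K 3) (Z : Set K)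
    (hZ0 : ∀ ζ ∈ Z, ζ ≠ 0) (hZ : ∀ a b : ℕ, (∀ ζ ∈ Z, ζ ^ a = ζ ^ b) → a ≡ b [MOD m])
    (hinv : ∀ ζ ∈ Z, linAct (Matrix.diagonal ![1, ζ, ζ⁻¹]) x = x)
    (h0 : x ∈ Ideal.span {MvPolynomial.X 1, MvPolynomial.X 2}) :
    x ∈ Ideal.span {(MvPolynomial.X 1 * MvPolynomial.X 2 : Sn K 3), MvPolynomial.X 1 ^ m,
      MvPolynomial.X 2 ^ m} := by
  classical
  have hset : ({(MvPolynomial.X 1 * MvPolynomial.X 2 : Sn K 3), MvPolynomial.X 1 ^ m,
      MvPolynomial.X 2 ^ m} : Set (Sn K 3)) = (fun s => MvPolynomial.monomial s (1 : K)) ''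
        {Finsupp.single 1 1 + Finsupp.single 2 1, Finsupp.single 1 m, Finsupp.single 2 m} := by
    rw [Set.image_insert_eq, Set.image_insert_eq, Set.image_singleton]
    congr 1
    · change MvPolynomial.monomial (Finsupp.single 1 1) (1 : K) *
        MvPolynomial.monomial (Finsupp.single 2 1) (1 : K) = _
      rw [MvPolynomial.monomial_mul, one_mul]
    · rw [MvPolynomial.X_pow_eq_monomial, MvPolynomial.X_pow_eq_monomial]
  rw [hset, MvPolynomial.mem_ideal_span_monomial_image]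
  intro μ hμ
  have hc : MvPolynomial.coeff μ x ≠ 0 := MvPolynomial.mem_support_iff.1 hμ
  -- the exponents are congruent
  have hmod : μ 1 ≡ μ 2 [MOD m] := by
    refine hZ _ _ fun ζ hζ => ?_
    have h1 := R3Mon.coeff_diag ![1, ζ, ζ⁻¹] μ x
    rw [hinv ζ hζ, Fin.prod_univ_three] at h1
    have h2 : (1 : K) ^ μ 0 * ζ ^ μ 1 * ζ⁻¹ ^ μ 2 = 1 := by
      have h3 : MvPolynomial.coeff μ x * 1 =
          MvPolynomial.coeff μ x * ((1 : K) ^ μ 0 * ζ ^ μ 1 * ζ⁻¹ ^ μ 2) := by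
        rw [mul_one]
        exact h1
      exact (mul_left_cancel₀ hc h3).symm
    rw [one_pow, one_mul, inv_pow, mul_inv_eq_one₀ (pow_ne_zero _ (hZ0 ζ hζ))] at h2
    exact h2
  -- not both are zero
  have hne : μ 1 ≠ 0 ∨ μ 2 ≠ 0 := by
    have hs : ({MvPolynomial.X 1, MvPolynomial.X 2} : Set (Sn K 3)) =
        MvPolynomial.X '' ({1, 2} : Set (Fin 3)) := by
      rw [Set.image_insert_eq, Set.image_singleton]
    rw [hs, MvPolynomial.mem_ideal_span_X_image] at h0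
    obtain ⟨i, hi, hi'⟩ := h0 μ hμ
    rcases hi with rfl | hi
    · exact Or.inl hi'
    · rw [Set.mem_singleton_iff] at hi
      subst hi
      exact Or.inr hi'
  by_cases h1 : μ 1 = 0
  · have h2 : μ 2 ≠ 0 := hne.resolve_left (fun h => h h1)
    refine ⟨Finsupp.single 2 m, by simp, ?_⟩
    rw [Finsupp.single_le_iff]
    have h3 : m ∣ μ 2 := by
      rw [h1] at hmod
      exact (Nat.modEq_zero_iff_dvd).1 hmod.symm
    exact Nat.le_of_dvd (Nat.pos_of_ne_zero h2) h3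
  · by_cases h2 : μ 2 = 0
    · refine ⟨Finsupp.single 1 m, by simp, ?_⟩
      rw [Finsupp.single_le_iff]
      have h3 : m ∣ μ 1 := by
        rw [h2] at hmod
        exact (Nat.modEq_zero_iff_dvd).1 hmod
      exact Nat.le_of_dvd (Nat.pos_of_ne_zero h1) h3
    · refine ⟨Finsupp.single 1 1 + Finsupp.single 2 1, by simp, ?_⟩
      intro i
      rw [Finsupp.add_apply]
      by_cases hi1 : i = 1
      · subst hi1
        rw [Finsupp.single_eq_same, Finsupp.single_eq_of_ne (by decide)]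
        omega
      · by_cases hi2 : i = 2
        · subst hi2
          rw [Finsupp.single_eq_same, Finsupp.single_eq_of_ne (by decide)]
          omega
        · rw [Finsupp.single_eq_of_ne hi1, Finsupp.single_eq_of_ne hi2]
          omega

/-- The same in other coordinates. `v₀, v₁, v₂` is a basis of `K³`; PROOF. `P` = the matrix with columns `v_i`, `linAct P X_i = lin v_i`; `x = linAct P (linAct P⁻¹ x)` (`linAct_mul`, `linAct_one`), `P⁻¹ A P = diag (1, ζ, ζ⁻¹)`. Apply `mem_of_torus` to `linAct P⁻¹ x`. -/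
theorem mem_of_torus' {K : Type u} [Field K] {m : ℕ} (hm : 0 < m) {v₀ v₁ v₂ : Fin 3 → K}
    (hdet : (Matrix.of ![v₀, v₁, v₂]).det ≠ 0) (x : Sn K 3) (Z : Set K) (hZ0 : ∀ ζ ∈ Z, ζ ≠ 0)
    (hZ : ∀ a b : ℕ, (∀ ζ ∈ Z, ζ ^ a = ζ ^ b) → a ≡ b [MOD m])
    (hinv : ∀ ζ ∈ Z, ∃ A : Matrix (Fin 3) (Fin 3) K, A.mulVec v₀ = v₀ ∧ A.mulVec v₁ = ζ • v₁ ∧
      A.mulVec v₂ = ζ⁻¹ • v₂ ∧ linAct A x = x)
    (h0 : x ∈ Ideal.span {lin v₁, lin v₂}) :
    x ∈ Ideal.span {lin v₁ * lin v₂, lin v₁ ^ m, lin v₂ ^ m} := by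
  classical
  set P : Matrix (Fin 3) (Fin 3) K := (Matrix.of ![v₀, v₁, v₂]).transpose with hP
  have hPdet : IsUnit P.det := by
    rw [hP, Matrix.det_transpose]
    exact isUnit_iff_ne_zero.2 hdet
  have hP1 : P * P⁻¹ = 1 := Matrix.mul_nonsing_inv P hPdet
  have hP2 : P⁻¹ * P = 1 := Matrix.nonsing_inv_mul P hPdet
  have hX : ∀ i : Fin 3, linAct P (MvPolynomial.X i) = lin ((![v₀, v₁, v₂] : Fin 3 → Fin 3 → K) i) := by
    intro i
    rw [linAct_X]
    rfl
  have hX1 : linAct P (MvPolynomial.X 1) = lin v₁ := hX 1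
  have hX2 : linAct P (MvPolynomial.X 2) = lin v₂ := hX 2
  have hY1 : linAct P⁻¹ (lin v₁) = MvPolynomial.X 1 := by
    rw [← hX1, ← linAct_mul, hP2, linAct_one]
  have hY2 : linAct P⁻¹ (lin v₂) = MvPolynomial.X 2 := by
    rw [← hX2, ← linAct_mul, hP2, linAct_one]
  have hxy : linAct P (linAct P⁻¹ x) = x := by
    rw [← linAct_mul, hP1, linAct_one]
  have hy : linAct P⁻¹ x ∈ Ideal.span {(MvPolynomial.X 1 * MvPolynomial.X 2 : Sn K 3),
      MvPolynomial.X 1 ^ m, MvPolynomial.X 2 ^ m} := by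
    refine mem_of_torus hm (linAct P⁻¹ x) Z hZ0 hZ (fun ζ hζ => ?_) ?_
    · obtain ⟨A, hA0, hA1, hA2, hAx⟩ := hinv ζ hζ
      have hAP : A * P = P * Matrix.diagonal ![1, ζ, ζ⁻¹] := by
        ext i j
        rw [Matrix.mul_diagonal, Matrix.mul_apply]
        have e0 := congrFun hA0 i
        have e1 := congrFun hA1 i
        have e2 := congrFun hA2 i
        rw [Matrix.mulVec, dotProduct] at e0 e1 e2
        fin_cases j
        · calc ∑ l, A i l * P l 0 = ∑ l, A i l * v₀ l := rfl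
            _ = v₀ i := e0
            _ = P i 0 * 1 := (mul_one _).symm
        · calc ∑ l, A i l * P l 1 = ∑ l, A i l * v₁ l := rfl
            _ = ζ * v₁ i := e1
            _ = P i 1 * ζ := mul_comm _ _
        · calc ∑ l, A i l * P l 2 = ∑ l, A i l * v₂ l := rfl
            _ = ζ⁻¹ * v₂ i := e2
            _ = P i 2 * ζ⁻¹ := mul_comm _ _
      have hD : Matrix.diagonal ![1, ζ, ζ⁻¹] * P⁻¹ = P⁻¹ * A := by
        calc Matrix.diagonal ![1, ζ, ζ⁻¹] * P⁻¹ = (P⁻¹ * P) * Matrix.diagonal ![1, ζ, ζ⁻¹] * P⁻¹ := by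
              rw [hP2, one_mul]
          _ = P⁻¹ * (P * Matrix.diagonal ![1, ζ, ζ⁻¹]) * P⁻¹ := by rw [mul_assoc P⁻¹ P]
          _ = P⁻¹ * (A * P) * P⁻¹ := by rw [hAP]
          _ = P⁻¹ * A * (P * P⁻¹) := by simp only [mul_assoc]
          _ = P⁻¹ * A := by rw [hP1, mul_one]
      rw [← linAct_mul, hD, linAct_mul, hAx]
    · have h1 : linAct P⁻¹ x ∈ Ideal.map (linAct P⁻¹) (Ideal.span {lin v₁, lin v₂}) :=
        Ideal.mem_map_of_mem _ h0
      rw [Ideal.map_span, Set.image_insert_eq, Set.image_singleton, hY1, hY2] at h1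
      exact h1
  have h2 : linAct P (linAct P⁻¹ x) ∈ Ideal.map (linAct P) (Ideal.span
      {(MvPolynomial.X 1 * MvPolynomial.X 2 : Sn K 3), MvPolynomial.X 1 ^ m,
        MvPolynomial.X 2 ^ m}) := Ideal.mem_map_of_mem _ hy
  rw [hxy, Ideal.map_span, Set.image_insert_eq, Set.image_insert_eq, Set.image_singleton,
    map_mul, map_pow, map_pow, hX1, hX2] at h2
  exact h2

end MP8a
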