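import Pool.Agent.Lib_MP_8a48ad_gt.R3Act

/-! # Piece R3MON2: ideals of torus invariants; descent of ideal membership; power sums -/

set_option autoImplicit false

namespace MP8a

universe u

/-- PROOF. `u^{2m} = u^m (u^m + v^m) - (u v)^m`, `(u v)^m ∈ (u v)` etc.; products of two of the generators `u v`, `u^m`, `v^m` are in `(u v, u^m + v^m)`. -/
theorem mul_mem_of_torus {A : Type u} [CommRing A] {m : ℕ} (hm : 0 < m) (u v x x' : A)
    (hx : x ∈ Ideal.span {u * v, u ^ m, v ^ m}) (hx' : x' ∈ Ideal.span {u * v, u ^ m, v ^ m}) :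
    x * x' ∈ Ideal.span {u * v, u ^ m + v ^ m} := by
  obtain ⟨a, b, c, rfl⟩ := Submodule.mem_span_triple.1 hx
  obtain ⟨a', b', c', rfl⟩ := Submodule.mem_span_triple.1 hx'
  obtain ⟨l, rfl⟩ : ∃ l, m = l + 1 := ⟨m - 1, by omega⟩
  rw [Ideal.mem_span_pair]
  simp only [smul_eq_mul]
  refine ⟨a * (a' * (u * v) + b' * u ^ (l + 1) + c' * v ^ (l + 1)) + a' * (b * u ^ (l + 1) + c * v ^ (l + 1)) +
    (b * c' + c * b' - b * b' - c * c') * (u * v) ^ l, b * b' * u ^ (l + 1) + c * c' * v ^ (l + 1), ?_⟩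
  ring

/-- PROOF. `(u, v)^{m+1}` is spanned by the `u^a v^b` with `a + b = m + 1`; if `a, b ≥ 1` they are in `(u v)`, and `u^{m+1} = u (u^m + v^m) - v^{m-1} (u v)`. -/
theorem pow_le_of_torus {A : Type u} [CommRing A] {m : ℕ} (hm : 0 < m) (u v : A) :
    (Ideal.span {u, v}) ^ (m + 1) ≤ Ideal.span {u * v, u ^ m + v ^ m} := by
  have key : ∀ j : ℕ, (Ideal.span {u, v}) ^ (j + 1) ≤ Ideal.span {u * v, u ^ (j + 1), v ^ (j + 1)} := by
    intro j
    induction j with
    | zero =>
      rw [zero_add, pow_one, pow_one, pow_one, Ideal.span_le]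
      rintro x (rfl | rfl)
      · exact Ideal.subset_span (by simp)
      · exact Ideal.subset_span (by simp)
    | succ j ih =>
      rw [pow_succ]
      refine (Ideal.mul_mono_left ih).trans ?_
      rw [Ideal.span_mul_span', Ideal.span_le]
      rintro _ ⟨x, hx, y, hy, rfl⟩
      change x * y ∈ Ideal.span {u * v, u ^ (j + 1 + 1), v ^ (j + 1 + 1)}
      have h1 : u * v ∈ Ideal.span {u * v, u ^ (j + 1 + 1), v ^ (j + 1 + 1)} :=
        Ideal.subset_span (by simp)
      have h2 : u ^ (j + 1 + 1) ∈ Ideal.span {u * v, u ^ (j + 1 + 1), v ^ (j + 1 + 1)} :=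
        Ideal.subset_span (by simp)
      have h3 : v ^ (j + 1 + 1) ∈ Ideal.span {u * v, u ^ (j + 1 + 1), v ^ (j + 1 + 1)} :=
        Ideal.subset_span (by simp)
      rcases hx with rfl | rfl | rfl
      · exact Ideal.mul_mem_right _ _ h1
      · rcases hy with rfl | rfl
        · rw [← pow_succ]
          exact h2
        · rw [show u ^ (j + 1) * y = u ^ j * (u * y) by ring]
          exact Ideal.mul_mem_left _ _ h1
      · rcases hy with rfl | rfl
        · rw [show v ^ (j + 1) * y = v ^ j * (y * v) by ring]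
          exact Ideal.mul_mem_left _ _ h1
        · rw [← pow_succ]
          exact h3
  refine (key m).trans ?_
  obtain ⟨l, rfl⟩ : ∃ l, m = l + 1 := ⟨m - 1, by omega⟩
  rw [Ideal.span_le]
  rintro x (rfl | rfl | rfl)
  · exact Ideal.subset_span (by simp)
  · change u ^ (l + 1 + 1) ∈ Ideal.span {u * v, u ^ (l + 1) + v ^ (l + 1)}
    rw [Ideal.mem_span_pair]
    exact ⟨-v ^ l, u, by ring⟩
  · change v ^ (l + 1 + 1) ∈ Ideal.span {u * v, u ^ (l + 1) + v ^ (l + 1)}
    rw [Ideal.mem_span_pair]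
    exact ⟨-u ^ l, v, by ring⟩

/-- PROOF. A `K`-linear retraction `K' → K`, applied to the coefficients, is a `K[X]`-linear retraction `σ` of `K[X] → K'[X]`; apply it to `x = a y₁ + b y₂`. -/
theorem mem_of_map {K K' : Type u} [Field K] [Field K'] [Algebra K K'] {n : ℕ} (x y₁ y₂ : Sn K n)
    (h : MvPolynomial.map (algebraMap K K') x ∈ Ideal.span
      {MvPolynomial.map (algebraMap K K') y₁, MvPolynomial.map (algebraMap K K') y₂}) :
    x ∈ Ideal.span {y₁, y₂} := by
  classical
  obtain ⟨r, hr⟩ := LinearMap.exists_leftInverse_of_injective (Algebra.linearMap K K')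
    (LinearMap.ker_eq_bot.2 (algebraMap K K').injective)
  have hr1 : ∀ c : K, r (algebraMap K K' c) = c := fun c => LinearMap.congr_fun hr c
  have hr2 : ∀ (c : K) (z : K'), r (algebraMap K K' c * z) = c * r z := by
    intro c z
    rw [← Algebra.smul_def, map_smul, smul_eq_mul]
  -- the retraction on polynomials
  let σ : Sn K' n → Sn K n := fun f => ∑ m ∈ f.support, MvPolynomial.monomial m (r (MvPolynomial.coeff m f))
  have hσ : ∀ f m, MvPolynomial.coeff m (σ f) = r (MvPolynomial.coeff m f) := by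
    intro f m
    change MvPolynomial.coeff m (∑ m ∈ f.support, MvPolynomial.monomial m (r (MvPolynomial.coeff m f))) = _
    rw [MvPolynomial.coeff_sum]
    simp only [MvPolynomial.coeff_monomial]
    rw [Finset.sum_ite_eq']
    by_cases hm : m ∈ f.support
    · rw [if_pos hm]
    · rw [if_neg hm, MvPolynomial.notMem_support_iff.1 hm, map_zero]
  have hσadd : ∀ f g, σ (f + g) = σ f + σ g := by
    intro f g
    ext m
    rw [hσ, MvPolynomial.coeff_add, map_add, MvPolynomial.coeff_add, hσ, hσ]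
  have hσmul : ∀ f y, σ (f * MvPolynomial.map (algebraMap K K') y) = σ f * y := by
    intro f y
    ext m
    rw [hσ, MvPolynomial.coeff_mul, MvPolynomial.coeff_mul, map_sum]
    refine Finset.sum_congr rfl fun w _ => ?_
    rw [MvPolynomial.coeff_map, mul_comm, hr2, hσ, mul_comm]
  have hσmap : ∀ y, σ (MvPolynomial.map (algebraMap K K') y) = y := by
    intro y
    ext m
    rw [hσ, MvPolynomial.coeff_map, hr1]
  obtain ⟨a, b, hab⟩ := Ideal.mem_span_pair.1 h
  rw [Ideal.mem_span_pair]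
  refine ⟨σ a, σ b, ?_⟩
  rw [← hσmul, ← hσmul, ← hσadd, hab, hσmap]

/-- Power sums. PROOF. Newton: `p_0 = 2`, `p_1 = a`, `p_{j+2} = a p_{j+1} - b p_j`. -/
theorem exists_psum {K K' : Type u} [Field K] [Field K'] [Algebra K K'] {n : ℕ} {a b : Sn K n}
    (ha : a.IsHomogeneous 1) (hb : b.IsHomogeneous 2) {u v : Sn K' n}
    (h1 : u + v = MvPolynomial.map (algebraMap K K') a)
    (h2 : u * v = MvPolynomial.map (algebraMap K K') b) (j : ℕ) :
    ∃ p : Sn K n, p.IsHomogeneous j ∧ MvPolynomial.map (algebraMap K K') p = u ^ j + v ^ j := by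
  have key : ∀ j : ℕ, (∃ p : Sn K n, p.IsHomogeneous j ∧
      MvPolynomial.map (algebraMap K K') p = u ^ j + v ^ j) ∧
      ∃ p : Sn K n, p.IsHomogeneous (j + 1) ∧
      MvPolynomial.map (algebraMap K K') p = u ^ (j + 1) + v ^ (j + 1) := by
    intro j
    induction j with
    | zero =>
      refine ⟨⟨MvPolynomial.C 2, MvPolynomial.isHomogeneous_C _ _, ?_⟩, a, ha, ?_⟩
      · rw [MvPolynomial.map_C, pow_zero, pow_zero, map_ofNat, map_ofNat]
        norm_num
      · rw [zero_add, pow_one, pow_one, h1]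
    | succ j ih =>
      obtain ⟨⟨p, hp, hp'⟩, q, hq, hq'⟩ := ih
      refine ⟨⟨q, hq, hq'⟩, a * q - b * p, ?_, ?_⟩
      · have e1 := ha.mul hq
        have e2 := hb.mul hp
        have e3 : 1 + (j + 1) = j + 1 + 1 := by omega
        have e4 : 2 + j = j + 1 + 1 := by omega
        rw [e3] at e1
        rw [e4] at e2
        exact e1.sub e2
      · rw [map_sub, map_mul, map_mul, ← h1, ← h2, hp', hq']
        ring
  exact (key j).1

end MP8a
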