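import Pool.Agent.Lib_MP_8a48ad_gt.R3Rad

/-! # Piece R3SEP: homogeneous generators, separation of homogeneous primes -/

set_option autoImplicit false

namespace MP8a

universe u

variable {k : Type u} [Field k] {n : ℕ} {R : Type u} [CommRing R] [Algebra k R]
  [Algebra R (Sn k n)] {GR : Gr R}

/-- Homogeneous generators of the ideal of all `f` with `JJ k n f`. PROOF. `JIdeal k n R` is finitely generated (`hS.noeth`); take all components of finitely many generators (`JJ.comp`). Components in odd degrees are `0` (`Gr.odd`); give them the degree `0`. -/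
theorem exists_JJ_gens (hS : Setup k n GR) : ∃ (l : ℕ) (f : Fin l → R) (m : Fin l → ℤ),
    (∀ i, Even (m i)) ∧ (∀ i, GR.c (m i) (f i) = f i) ∧ (∀ i, JJ k n (f i)) ∧
      ∀ x, JJ k n x → x ∈ Ideal.span (Set.range f) := by
  classical
  have := hS.noeth
  obtain ⟨s, hs⟩ := IsNoetherian.noetherian (JIdeal k n R)
  have hsJ : ∀ z ∈ s, JJ k n z := by
    intro z hz
    have h1 : z ∈ JIdeal k n R := by
      rw [← hs]
      exact Submodule.subset_span hz
    exact h1
  choose t ht using GR.fin
  let T : Finset R := s.biUnion fun z => (t z).image fun i => GR.c i z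
  have hT : ∀ w ∈ T, JJ k n w ∧ ∃ m : ℤ, Even m ∧ GR.c m w = w := by
    intro w hw
    obtain ⟨z, hz, hw⟩ := Finset.mem_biUnion.1 hw
    obtain ⟨i, _, rfl⟩ := Finset.mem_image.1 hw
    refine ⟨(hsJ z hz).comp hS.compat i, ?_⟩
    rcases Int.even_or_odd i with he | ho
    · exact ⟨i, he, GR.c_self i z⟩
    · refine ⟨0, Even.zero, ?_⟩
      rw [GR.odd ho, map_zero]
  have hTj : ∀ j : Fin T.card, ∃ m : ℤ, Even m ∧
      GR.c m ((T.equivFin.symm j : T) : R) = ((T.equivFin.symm j : T) : R) :=
    fun j => (hT _ (T.equivFin.symm j).2).2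
  choose m hm1 hm2 using hTj
  have hrange : Set.range (fun j : Fin T.card => ((T.equivFin.symm j : T) : R)) = (T : Set R) := by
    ext x
    constructor
    · rintro ⟨l, rfl⟩
      exact (T.equivFin.symm l).2
    · intro hx
      refine ⟨T.equivFin ⟨x, hx⟩, ?_⟩
      change ((T.equivFin.symm (T.equivFin ⟨x, hx⟩) : T) : R) = x
      rw [Equiv.symm_apply_apply]
  refine ⟨T.card, fun j => ((T.equivFin.symm j : T) : R), m, hm1, hm2,
    fun j => (hT _ (T.equivFin.symm j).2).1, ?_⟩
  intro x hx
  have h1 : x ∈ JIdeal k n R := hx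
  rw [← hs] at h1
  rw [hrange]
  refine (Submodule.span_le.2 ?_) h1
  intro z hz
  have h2 : z = ∑ i ∈ t z, GR.c i z := (ht z).symm
  rw [h2]
  refine Submodule.sum_mem _ fun i hi => Submodule.subset_span ?_
  exact Finset.mem_coe.2 (Finset.mem_biUnion.2 ⟨z, hz, Finset.mem_image.2 ⟨i, hi, rfl⟩⟩)

/-- an element outside `p` has a homogeneous component outside `p` -/
private theorem r3sep_comp (GR : Gr R) (p : Ideal R) {a : R} (ha : a ∉ p) :
    ∃ i, GR.c i a ∉ p := by
  by_contra h
  apply ha
  obtain ⟨s, hs⟩ := GR.fin a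
  rw [← hs]
  refine Submodule.sum_mem _ fun i _ => ?_
  by_contra h2
  exact h ⟨i, h2⟩

/-- Separation of finitely many homogeneous primes. PROOF. For `q ∈ B`, `q ≠ p`, there is `a ∈ q`, `a ∉ p` (otherwise `q ≤ p`, and `p = q` by `hmax`), and a component `a_i ∉ p` of `a`, homogeneous, in `q`. There is also a homogeneous element of positive degree which is not in `p`: a component of the `a` of `HPr.plus`
(`Setup.c_neg`). Take the product of all these elements, squared so that the degree is even (or: homogeneous elements which are not zero have even degree, `Gr.odd`). -/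
theorem exists_sep (hS : Setup k n GR) (B : Finset (Ideal R)) (hB : ∀ p ∈ B, HPr GR p)
    (hmax : ∀ p ∈ B, ∀ q ∈ B, q ≤ p → q = p) {p : Ideal R} (hp : p ∈ B) :
    ∃ (e : ℤ) (t : R), 0 < e ∧ Even e ∧ GR.c e t = t ∧ t ∉ p ∧ ∀ q ∈ B, q ≠ p → t ∈ q := by
  classical
  have hpp : p.IsPrime := (hB p hp).prime
  have hnn : ∀ (i : ℤ) (a : R), GR.c i a ∉ p → 0 ≤ i := by
    intro i a h
    by_contra h2
    apply h
    rw [hS.c_neg (not_le.1 h2)]
    exact p.zero_mem
  have key : ∀ S : Finset (Ideal R), (∀ q ∈ S, q ∈ B ∧ q ≠ p) →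
      ∃ (e : ℤ) (t : R), 0 < e ∧ GR.c e t = t ∧ t ∉ p ∧ ∀ q ∈ S, t ∈ q := by
    intro S
    induction S using Finset.induction_on with
    | empty =>
      intro _
      obtain ⟨a, ha, ha0⟩ := (hB p hp).plus
      obtain ⟨i, hi⟩ := r3sep_comp GR p ha
      refine ⟨i, GR.c i a, ?_, GR.c_self i a, hi, fun q hq => absurd hq (Finset.notMem_empty q)⟩
      rcases (hnn i a hi).lt_or_eq with h | h
      · exact h
      · exfalso
        apply hi
        rw [← h, ha0]
        exact p.zero_mem
    | insert q S hq ih =>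
      intro hS'
      obtain ⟨e, t, he, ht, htp, htS⟩ := ih (fun q' hq' => hS' q' (Finset.mem_insert_of_mem hq'))
      obtain ⟨hqB, hqp⟩ := hS' q (Finset.mem_insert_self q S)
      have h1 : ¬ q ≤ p := fun h => hqp (hmax p hp q hqB h)
      obtain ⟨a, haq, hap⟩ := Set.not_subset.1 h1
      obtain ⟨i, hi⟩ := r3sep_comp GR p hap
      refine ⟨e + i, t * GR.c i a, by have := hnn i a hi; omega, GR.mul ht (GR.c_self i a), ?_, ?_⟩
      · intro h
        rcases hpp.mem_or_mem h with h | h
        · exact htp h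
        · exact hi h
      · intro q' hq'
        rcases Finset.mem_insert.1 hq' with rfl | hq'
        · exact Ideal.mul_mem_left _ _ ((hB q' hqB).hom a haq i)
        · exact Ideal.mul_mem_right _ _ (htS q' hq')
  obtain ⟨e, t, he, ht, htp, htS⟩ := key (B.erase p) (fun q hq =>
    ⟨Finset.mem_of_mem_erase hq, Finset.ne_of_mem_erase hq⟩)
  refine ⟨e + e, t * t, by omega, ⟨e, rfl⟩, GR.mul ht ht, ?_, ?_⟩
  · intro h
    rcases hpp.mem_or_mem h with h | h
    · exact htp h
    · exact htp h
  · intro q hq hqp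
    exact Ideal.mul_mem_left _ _ (htS q (Finset.mem_erase.2 ⟨hqp, hq⟩))

end MP8a
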