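import Pool.Agent.Lib_MP_8a48ad_gt.R3Line
import Pool.Agent.Lib_MP_8a48ad_gt.R3Sep

/-! # Piece R3ONE: the case of one line -/

set_option autoImplicit false

namespace MP8a

universe u

variable {k : Type u} [Field k] {n : ℕ} {R : Type u} [CommRing R] [Algebra k R]
  [Algebra R (Sn k n)] {GR : Gr R}

/-- `B` is a finite set of homogeneous primes (the bad lines), maximal among the homogeneous primes which do not contain `R_+`, which contains all of these primes on which all `f` with `JJ k n f` vanish, and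
at each `p ∈ B` there are `t ∉ p`, `s1, s2 ∈ p` with `t p² ⊆ (s1, s2)` and `s1, s2` a regular sequence up to `t`. -/
structure Lines (k : Type u) [Field k] (n : ℕ) {R : Type u} [CommRing R] [Algebra k R]
    [Algebra R (Sn k n)] (GR : Gr R) (B : Finset (Ideal R)) : Prop where
  hpr : ∀ p ∈ B, HPr GR p
  max : ∀ p ∈ B, ∀ p', HPr GR p' → p ≤ p' → p' = p
  bad : ∀ p', HPr GR p' → (∀ f, JJ k n f → f ∈ p') → p' ∈ B
  loc : ∀ p ∈ B, ∃ (et e1 e2 : ℤ) (t s1 s2 : R), Even et ∧ Even e1 ∧ Even e2 ∧ GR.c et t = t ∧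
    GR.c e1 s1 = s1 ∧ GR.c e2 s2 = s2 ∧ t ∉ p ∧ s1 ∈ p ∧ s2 ∈ p ∧ (∀ x, s1 * x = 0 → x = 0) ∧
    (∀ x y, s2 * x = s1 * y → ∃ z, t * x = s1 * z) ∧
    ∀ a ∈ p, ∀ b ∈ p, t * (a * b) ∈ Ideal.span {s1, s2}

/-- the components of a product with a homogeneous element -/
private theorem R3ONE_c_mul (GR : Gr R) {j : ℤ} {b : R} (hb : GR.c j b = b) (i : ℤ) (a : R) :
    GR.c i (a * b) = GR.c (i - j) a * b := by
  have h := (regM GR).pr_smul' hb i a
  change GR.c i (b * a) = b * GR.c (i - j) a at h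
  rw [mul_comm a b, h, mul_comm]

/-- an ideal generated by homogeneous elements is homogeneous -/
private theorem R3ONE_span_hom (GR : Gr R) {S : Set R} (hS : ∀ x ∈ S, ∃ j, GR.c j x = x) :
    ∀ a ∈ Ideal.span S, ∀ i, GR.c i a ∈ Ideal.span S := by
  intro a ha
  refine Submodule.span_induction (p := fun a _ => ∀ i, GR.c i a ∈ Ideal.span S) ?_ ?_ ?_ ?_ ha
  · intro x hx i
    obtain ⟨j, hj⟩ := hS x hx
    rw [← hj, GR.c_c]
    split_ifs
    · rw [hj]
      exact Ideal.subset_span hx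
    · exact Ideal.zero_mem _
  · intro i
    rw [map_zero]
    exact Ideal.zero_mem _
  · intro x y _ _ hx hy i
    rw [map_add]
    exact Ideal.add_mem _ (hx i) (hy i)
  · intro r x _ hx i
    rw [smul_eq_mul]
    -- decompose `x` into its components
    obtain ⟨s, hs⟩ := GR.fin x
    have h1 : r * x = ∑ j ∈ s, r * GR.c j x := by
      rw [← Finset.mul_sum, hs]
    rw [h1, map_sum]
    refine Ideal.sum_mem _ fun j _ => ?_
    rw [R3ONE_c_mul GR (GR.c_self j x) i r]
    exact Ideal.mul_mem_left _ _ (hx j)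

private theorem R3ONE_sup_hom (GR : Gr R) {I J : Ideal R} (hI : ∀ a ∈ I, ∀ i, GR.c i a ∈ I)
    (hJ : ∀ a ∈ J, ∀ i, GR.c i a ∈ J) : ∀ a ∈ I ⊔ J, ∀ i, GR.c i a ∈ I ⊔ J := by
  intro a ha i
  obtain ⟨x, hx, y, hy, rfl⟩ := Submodule.mem_sup.1 ha
  rw [map_add]
  exact Submodule.mem_sup.2 ⟨_, hI x hx i, _, hJ y hy i, rfl⟩

private theorem R3ONE_nonneg (hS : Setup k n GR) {i : ℤ} {a : R} (ha : GR.c i a = a)
    (h0 : a ≠ 0) : 0 ≤ i := by
  by_contra h
  exact h0 (by rw [← ha, hS.c_neg (not_le.1 h)])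

/-- a product of a homogeneous element of positive degree and a homogeneous element has no component of degree `0` -/
private theorem R3ONE_c_zero (hS : Setup k n GR) {i j : ℤ} {a b : R} (hi : 0 < i)
    (ha : GR.c i a = a) (hb : GR.c j b = b) : GR.c 0 (a * b) = 0 := by
  by_cases h0 : b = 0
  · rw [h0, mul_zero, map_zero]
  · have h1 := R3ONE_nonneg hS hb h0
    rw [← GR.mul ha hb, GR.c_c, if_neg (by omega)]

/-- The case of one line `p`: all the separating elements `τ q`, `q ≠ p`, and all `f` with `JJ` are nilpotent on the cohomology of `M`. `f` : homogeneous generators of the ideal `J` (`exists_JJ_gens`).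
PROOF. Apply `thick_line` with `g` = the family `f` together with the `τ q`, `q ∈ B`, `q ≠ p` (indexed by a `Fin`), `t = τ p * t'` with `t'`, `s1`, `s2` from `Lines.loc`. `hgJ`: `JJ x` implies `x ∈ span f`. `hfin`: `finite_of_hpr`: if `p'` is `HPr` and contains all these elements then `p' ∈ B` (`Lines.bad`), `p' ≠ q` for
`q ≠ p` since `τ q ∉ q`, so `p' = p`, but `t ∉ p`. `t s1 ∈ rad J` (`mem_radical_of_hpr` with `I = span f`; every `HPr` prime `p'` containing `J` is in `B`, if `p' = p` it contains `s1`, otherwise it contains `τ p`); so `(t s1)^{r1} ∈ span f` satisfies `JJ` (`JJ.add`, `JJ.mul`). `hp`: if `r ∉ p` is homogeneous then `t ∈ rad (p + (r))` by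
`mem_radical_of_hpr` and `Lines.max`. -/
theorem thick_one_line (hS : Setup k n GR) {B : Finset (Ideal R)} (hB : Lines k n GR B)
    {T : DGM GR → Prop} (hT : IsThick T) (h : T (SR hS.compat)) {l : ℕ} {f : Fin l → R}
    {m : Fin l → ℤ} (hf : ∀ i, GR.c (m i) (f i) = f i) (hJ : ∀ i, JJ k n (f i))
    (hJs : ∀ x, JJ k n x → x ∈ Ideal.span (Set.range f)) {τ : Ideal R → R} {e : Ideal R → ℤ}
    (he : ∀ q ∈ B, 0 < e q ∧ Even (e q)) (hτ : ∀ q ∈ B, GR.c (e q) (τ q) = τ q)
    (hτ1 : ∀ q ∈ B, τ q ∉ q) (hτ2 : ∀ q ∈ B, ∀ q' ∈ B, q' ≠ q → τ q ∈ q') {p : Ideal R}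
    (hp : p ∈ B) {M : DGM GR} (hM : FG M) (hM1 : ∀ i, Nil (f i) M)
    (hM2 : ∀ q ∈ B, q ≠ p → Nil (τ q) M) : T M := by
  classical
  obtain ⟨et, e1, e2, t', s1, s2, hete, he1, he2, ht', hs1, hs2, ht'p, hs1p, hs2p, hr1, hr2, hsq⟩ :=
    hB.loc p hp
  have hpp := hB.hpr p hp
  have hpprime := hpp.prime
  -- `t = τ p * t'`
  have ht'0 : t' ≠ 0 := fun h0 => ht'p (h0 ▸ p.zero_mem)
  have het0 : 0 ≤ et := R3ONE_nonneg hS ht' ht'0
  have hepos : 0 < e p + et := by
    have := (he p hp).1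
    omega
  have hEt : Even (e p + et) := (he p hp).2.add hete
  have ht : GR.c (e p + et) (τ p * t') = τ p * t' := GR.mul (hτ p hp) ht'
  have htp : τ p * t' ∉ p := by
    intro h1
    rcases hpprime.mem_or_mem h1 with h2 | h2
    · exact hτ1 p hp h2
    · exact ht'p h2
  have hc0 : GR.c 0 (τ p * t') = 0 := R3ONE_c_zero hS (he p hp).1 (hτ p hp) ht'
  -- homogeneity of `J`
  have hfh : ∀ a ∈ Ideal.span (Set.range f), ∀ i, GR.c i a ∈ Ideal.span (Set.range f) := by
    refine R3ONE_span_hom GR ?_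
    rintro x ⟨i, rfl⟩
    exact ⟨m i, hf i⟩
  have hfJ : Ideal.span (Set.range f) ≤ JIdeal k n R := by
    refine Ideal.span_le.2 ?_
    rintro x ⟨i, rfl⟩
    exact hJ i
  have hbad : ∀ p', HPr GR p' → Ideal.span (Set.range f) ≤ p' → p' ∈ B :=
    fun p' hp' hle => hB.bad p' hp' fun x hx => hle (hJs x hx)
  -- the family `g`
  let Bq := {q : Ideal R // q ∈ B.erase p}
  let E := (B.erase p).equivFin
  let g2 : Fin (B.erase p).card → R := fun i => τ (E.symm i).1
  let g : Fin (l + (B.erase p).card) → R := Fin.append f g2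
  have hgf : ∀ i, f i ∈ Set.range g := fun i => ⟨Fin.castAdd _ i, Fin.append_left f g2 i⟩
  have hgτ : ∀ q ∈ B, q ≠ p → τ q ∈ Set.range g := by
    intro q hq hqp
    refine ⟨Fin.natAdd l (E ⟨q, Finset.mem_erase.2 ⟨hqp, hq⟩⟩), ?_⟩
    rw [show g = Fin.append f g2 from rfl, Fin.append_right]
    show τ (E.symm (E ⟨q, _⟩)).1 = τ q
    rw [Equiv.symm_apply_apply]
  have hgh : ∀ x ∈ Set.range g, ∃ j, GR.c j x = x := by
    rintro x ⟨i, rfl⟩
    refine Fin.addCases (fun i => ?_) (fun i => ?_) i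
    · refine ⟨m i, ?_⟩
      rw [show g = Fin.append f g2 from rfl, Fin.append_left]
      exact hf i
    · refine ⟨e (E.symm i).1, ?_⟩
      rw [show g = Fin.append f g2 from rfl, Fin.append_right]
      exact hτ _ (Finset.mem_of_mem_erase (E.symm i).2)
  have hgN : ∀ i, Nil (g i) M := by
    intro i
    refine Fin.addCases (fun i => ?_) (fun i => ?_) i
    · rw [show g = Fin.append f g2 from rfl, Fin.append_left]
      exact hM1 i
    · rw [show g = Fin.append f g2 from rfl, Fin.append_right]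
      exact hM2 _ (Finset.mem_of_mem_erase (E.symm i).2) (Finset.ne_of_mem_erase (E.symm i).2)
  have hfg : Ideal.span (Set.range f) ≤ Ideal.span (Set.range g) := by
    refine Ideal.span_mono ?_
    rintro x ⟨i, rfl⟩
    exact hgf i
  have hgJ : ∀ x : R, JJ k n x → x ∈ (Ideal.span (Set.range g)).radical :=
    fun x hx => Ideal.le_radical (hfg (hJs x hx))
  -- finite dimension
  have htspan : ∀ a ∈ Ideal.span {τ p * t'}, ∀ i, GR.c i a ∈ Ideal.span {τ p * t'} := by
    refine R3ONE_span_hom GR ?_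
    intro x hx
    rw [Set.mem_singleton_iff] at hx
    rw [hx]
    exact ⟨_, ht⟩
  have hfin : Module.Finite k (R ⧸ (Ideal.span (Set.range g) ⊔ Ideal.span {τ p * t'})) := by
    refine finite_of_hpr hS _ (R3ONE_sup_hom GR (R3ONE_span_hom GR hgh) htspan) ?_
    intro p' hp' hle
    have h1 : Ideal.span (Set.range g) ≤ p' := le_sup_left.trans hle
    have h2 : τ p * t' ∈ p' := hle (le_sup_right (a := Ideal.span (Set.range g))
      (Ideal.mem_span_singleton_self _))
    have h3 : p' ∈ B := hbad p' hp' (hfg.trans h1)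
    by_cases h4 : p' = p
    · rw [h4] at h2
      exact htp h2
    · exact hτ1 p' h3 (h1 (Ideal.subset_span (hgτ p' h3 h4)))
  -- `t s` is in the radical of `J` for homogeneous `s ∈ p`
  have hrad : ∀ (j : ℤ) (s : R), GR.c j s = s → s ∈ p →
      ∃ r : ℕ, JJ k n ((τ p * t' * s) ^ r) := by
    intro j s hs hsp
    have h1 : τ p * t' * s ∈ (Ideal.span (Set.range f)).radical := by
      refine mem_radical_of_hpr _ hfh (R3ONE_c_zero hS hepos ht hs) ?_
      intro p' hp' hle
      have h3 : p' ∈ B := hbad p' hp' hle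
      by_cases h4 : p' = p
      · rw [h4]
        exact Ideal.mul_mem_left _ _ hsp
      · rw [mul_assoc]
        exact Ideal.mul_mem_right _ _ (hτ2 p hp p' h3 h4)
    obtain ⟨r, hr⟩ := h1
    exact ⟨r, hfJ hr⟩
  obtain ⟨r1, hJ1⟩ := hrad e1 s1 hs1 hs1p
  obtain ⟨r2, hJ2⟩ := hrad e2 s2 hs2 hs2p
  refine thick_line hS hT h hgJ hepos hEt ht hfin he1 he2 hs1 hs2 hJ1 hJ2 hr1 ?_ p hpp.hom ?_ ?_
    hM hgN
  · intro x y hxy
    obtain ⟨z, hz⟩ := hr2 x y hxy
    exact ⟨τ p * z, by rw [mul_assoc, hz]; ring⟩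
  · intro i r hr hrp
    have h1 : τ p * t' ∈ (p ⊔ Ideal.span {r}).radical := by
      refine mem_radical_of_hpr _ (R3ONE_sup_hom GR hpp.hom (R3ONE_span_hom GR ?_)) hc0 ?_
      · intro x hx
        rw [Set.mem_singleton_iff] at hx
        rw [hx]
        exact ⟨i, hr⟩
      · intro p' hp' hle
        exfalso
        have h2 : p' = p := hB.max p hp p' hp' (le_sup_left.trans hle)
        refine hrp ?_
        rw [← h2]
        exact hle (le_sup_right (a := p) (Ideal.mem_span_singleton_self _))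
    obtain ⟨N, hN⟩ := h1
    obtain ⟨a, ha, b, hb, hab⟩ := Submodule.mem_sup.1 hN
    obtain ⟨r', rfl⟩ := Ideal.mem_span_singleton'.1 hb
    refine ⟨N, r', ?_⟩
    rw [← hab]
    have h2 : r' * r - (a + r' * r) = -a := by ring
    rw [h2]
    exact p.neg_mem ha
  · intro a ha b hb
    rw [mul_assoc]
    exact Ideal.mul_mem_left _ _ (hsq a ha b hb)

end MP8a
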