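import Pool.Agent.Lib_MP_8a48ad_gt.R3Int

/-! # Piece R3TWO: elements of a finite subgroup of `GL_3(ℤ)` which preserve a line -/

set_option autoImplicit false

namespace MP8a

variable {W : Type*} [Group W] [Finite W]

open Matrix in
/-- a `B`-orthogonal basis with first vector `t` -/
private theorem r3two_basis (B : Matrix (Fin 3) (Fin 3) ℚ) (hsym : ∀ i j, B i j = B j i)
    (hpos : ∀ x : Fin 3 → ℚ, x ≠ 0 → 0 < x ⬝ᵥ (B *ᵥ x)) (t : Fin 3 → ℚ) (ht : t ≠ 0) :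
    ∃ (P : Matrix (Fin 3) (Fin 3) ℚ) (g : Fin 3 → ℚ), (∀ i, 0 < g i) ∧ IsUnit P.det ∧
      (∀ i, P i 0 = t i) ∧ Pᵀ * B * P = diagonal g := by
  have hsy : ∀ x y : Fin 3 → ℚ, x ⬝ᵥ (B *ᵥ y) = y ⬝ᵥ (B *ᵥ x) := by
    intro x y
    have h1 := hsym 0 1
    have h2 := hsym 0 2
    have h3 := hsym 1 2
    simp only [dotProduct, mulVec, Fin.sum_univ_three]
    rw [h1, h2, h3]
    ring
  obtain ⟨y, hy, hty⟩ : ∃ y : Fin 3 → ℚ, y ≠ 0 ∧ t ⬝ᵥ (B *ᵥ y) = 0 := by
    set c := B *ᵥ t with hc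
    have hcy : ∀ y : Fin 3 → ℚ, t ⬝ᵥ (B *ᵥ y) = y 0 * c 0 + y 1 * c 1 + y 2 * c 2 := by
      intro y
      rw [hsy t y, ← hc]
      simp [dotProduct, Fin.sum_univ_three]
    by_cases h : c 0 = 0 ∧ c 1 = 0
    · refine ⟨![1, 0, 0], ?_, ?_⟩
      · intro h0
        have := congrFun h0 0
        simp at this
      · rw [hcy]
        simp [h.1]
    · refine ⟨![c 1, - c 0, 0], ?_, ?_⟩
      · intro h0
        apply h
        have h1 := congrFun h0 0
        have h2 := congrFun h0 1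
        simp at h1 h2
        exact ⟨h2, h1⟩
      · rw [hcy]
        simp
        ring
  set z : Fin 3 → ℚ := crossProduct (B *ᵥ t) (B *ᵥ y) with hz
  have htz : t ⬝ᵥ (B *ᵥ z) = 0 := by
    rw [hsy, dotProduct_comm, hz]
    exact dot_self_cross _ _
  have hyz : y ⬝ᵥ (B *ᵥ z) = 0 := by
    rw [hsy, dotProduct_comm, hz]
    exact dot_cross_self _ _
  have hz0 : z ≠ 0 := by
    intro h0
    have h1 := cross_dot_cross (B *ᵥ t) (B *ᵥ y) t y
    rw [← hz, h0, zero_dotProduct] at h1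
    have h2 : (B *ᵥ t) ⬝ᵥ y = 0 := by
      rw [dotProduct_comm, hsy y t]; exact hty
    have h3 := hpos t ht
    have h4 := hpos y hy
    rw [h2, zero_mul, sub_zero, dotProduct_comm (B *ᵥ t) t, dotProduct_comm (B *ᵥ y) y] at h1
    have := mul_pos h3 h4
    linarith
  have hyt : y ⬝ᵥ (B *ᵥ t) = 0 := by rw [hsy]; exact hty
  have hzt : z ⬝ᵥ (B *ᵥ t) = 0 := by rw [hsy]; exact htz
  have hzy : z ⬝ᵥ (B *ᵥ y) = 0 := by rw [hsy]; exact hyz
  let v : Fin 3 → (Fin 3 → ℚ) := ![t, y, z]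
  let P : Matrix (Fin 3) (Fin 3) ℚ := Matrix.of fun i j => v j i
  have hP : ∀ i j, (Pᵀ * B * P) i j = (v i) ⬝ᵥ (B *ᵥ (v j)) := by
    intro i j
    simp only [mul_apply, dotProduct, mulVec, Fin.sum_univ_three, transpose_apply, P, of_apply]
    ring
  let g : Fin 3 → ℚ := fun i => (v i) ⬝ᵥ (B *ᵥ (v i))
  have hg : ∀ i, 0 < g i := by
    intro i
    fin_cases i
    · exact hpos t ht
    · exact hpos y hy
    · exact hpos z hz0
  have hPd : Pᵀ * B * P = diagonal g := by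
    ext i j
    rw [hP]
    by_cases hij : i = j
    · subst hij
      rw [diagonal_apply_eq]
    · rw [diagonal_apply_ne _ hij]
      fin_cases i <;> fin_cases j <;> first | exact absurd rfl hij | assumption
  refine ⟨P, g, hg, ?_, fun i => rfl, hPd⟩
  rw [isUnit_iff_ne_zero]
  intro h0
  have := congrArg Matrix.det hPd
  rw [det_mul, h0, mul_zero, det_diagonal] at this
  exact absurd this.symm (Finset.prod_pos fun i _ => hg i).ne'

open Matrix in
private theorem r3two_shape {g : Fin 3 → ℚ} (hg : ∀ i, 0 < g i) {M : Matrix (Fin 3) (Fin 3) ℚ}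
    (hM : Mᵀ * diagonal g * M = diagonal g) {e : ℚ} (he : e * e = 1) (h0 : M 0 0 = e) (h1 : M 1 0 = 0)
    (h2 : M 2 0 = 0) {d : ℚ} (hd : e * M.det = d) :
    M 0 1 = 0 ∧ M 0 2 = 0 ∧ M 2 2 = d * M 1 1 ∧ M 1 2 = - d * M 2 1 * (g 2 / g 1) ∧
      M 1 1 ^ 2 + M 2 1 ^ 2 * (g 2 / g 1) = 1 := by
  have hg0 := (hg 0).ne'
  have hg1 := (hg 1).ne'
  have hg2 := (hg 2).ne'
  have he0 : e ≠ 0 := by rintro rfl; simp at he
  have E : ∀ i j, M 0 i * g 0 * M 0 j + M 1 i * g 1 * M 1 j + M 2 i * g 2 * M 2 j = diagonal g i j := by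
    intro i j
    rw [← hM]
    simp [mul_apply, Fin.sum_univ_three, transpose_apply, diagonal_apply]
  have e01 := E 0 1
  have e02 := E 0 2
  have e11 := E 1 1
  have e12 := E 1 2
  have e22 := E 2 2
  rw [diagonal_apply_ne _ (by decide)] at e01 e02 e12
  rw [diagonal_apply_eq] at e11 e22
  rw [h0, h1, h2] at e01 e02
  have a1 : M 0 1 = 0 := by
    have : e * g 0 * M 0 1 = 0 := by linarith
    rcases mul_eq_zero.1 this with h | h
    · exact absurd h (mul_ne_zero he0 hg0)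
    · exact h
  have a2 : M 0 2 = 0 := by
    have : e * g 0 * M 0 2 = 0 := by linarith
    rcases mul_eq_zero.1 this with h | h
    · exact absurd h (mul_ne_zero he0 hg0)
    · exact h
  have hdet : M 1 1 * M 2 2 - M 1 2 * M 2 1 = d := by
    rw [det_fin_three, h0, h1, h2, a1, a2] at hd
    linear_combination hd - (M 1 1 * M 2 2 - M 1 2 * M 2 1) * he
  have f11 : M 1 1 ^ 2 * g 1 + M 2 1 ^ 2 * g 2 = g 1 := by
    rw [a1] at e11; linear_combination e11
  have f12 : M 1 1 * g 1 * M 1 2 + M 2 1 * g 2 * M 2 2 = 0 := by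
    rw [a1] at e12; linear_combination e12
  refine ⟨a1, a2, ?_, ?_, ?_⟩
  · have : (M 2 2 - d * M 1 1) * g 1 = 0 := by
      linear_combination (- M 2 2) * f11 + M 2 1 * f12 + M 1 1 * g 1 * hdet
    rcases mul_eq_zero.1 this with h | h
    · linarith
    · exact absurd h hg1
  · field_simp
    linear_combination (- M 1 2) * f11 + M 1 1 * f12 - M 2 1 * g 2 * hdet
  · field_simp
    linear_combination f11

open Matrix in
private theorem r3two_setup (ρ₀ : W →* GL (Fin 3) ℤ) {t₀ : Fin 3 → ℤ} (ht : t₀ ≠ 0) :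
    ∃ (P : Matrix (Fin 3) (Fin 3) ℚ) (g : Fin 3 → ℚ), (∀ i, 0 < g i) ∧ IsUnit P.det ∧
      ∀ (w : W) (ε δ : ℤ), (ρ₀ w : Matrix (Fin 3) (Fin 3) ℤ).mulVec t₀ = ε • t₀ →
        ε * (ρ₀ w : Matrix (Fin 3) (Fin 3) ℤ).det = δ → δ * δ = 1 →
        ∃ M : Matrix (Fin 3) (Fin 3) ℚ, P * M = (ρ₀ w : Matrix (Fin 3) (Fin 3) ℤ).map (Int.castRingHom ℚ) * P ∧
          M 0 0 = ε ∧ M 1 0 = 0 ∧ M 2 0 = 0 ∧ (ε : ℚ) * ε = 1 ∧
    M 0 1 = 0 ∧ M 0 2 = 0 ∧ M 2 2 = δ * M 1 1 ∧ M 1 2 = - δ * M 2 1 * (g 2 / g 1) ∧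
      M 1 1 ^ 2 + M 2 1 ^ 2 * (g 2 / g 1) = 1 := by
  classical
  have : Fintype W := Fintype.ofFinite W
  let A : W → Matrix (Fin 3) (Fin 3) ℚ := fun w => (ρ₀ w : Matrix (Fin 3) (Fin 3) ℤ).map (Int.castRingHom ℚ)
  have hA1 : A 1 = 1 := by
    simp [A]
  have hAm : ∀ v w, A (v * w) = A v * A w := by
    intro v w
    simp only [A, map_mul, Units.val_mul]
    exact Matrix.map_mul
  let B : Matrix (Fin 3) (Fin 3) ℚ := ∑ w, (A w)ᵀ * A w
  have hB : ∀ x y : Fin 3 → ℚ, x ⬝ᵥ (B *ᵥ y) = ∑ w, (A w *ᵥ x) ⬝ᵥ (A w *ᵥ y) := by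
    intro x y
    simp only [B, Matrix.sum_mulVec, dotProduct_sum]
    refine Finset.sum_congr rfl fun w _ => ?_
    rw [← mulVec_mulVec, dotProduct_mulVec, vecMul_transpose]
  have hsym : ∀ i j, B i j = B j i := by
    intro i j
    simp only [B, Matrix.sum_apply]
    refine Finset.sum_congr rfl fun w _ => ?_
    simp only [mul_apply, transpose_apply]
    exact Finset.sum_congr rfl fun k _ => mul_comm _ _
  have hpos : ∀ x : Fin 3 → ℚ, x ≠ 0 → 0 < x ⬝ᵥ (B *ᵥ x) := by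
    intro x hx
    rw [hB]
    have hnn : ∀ u : Fin 3 → ℚ, 0 ≤ u ⬝ᵥ u := fun u => Finset.sum_nonneg fun i _ => mul_self_nonneg _
    refine Finset.sum_pos' (fun w _ => hnn _) ⟨1, Finset.mem_univ _, ?_⟩
    rw [hA1, one_mulVec]
    refine lt_of_le_of_ne (hnn x) fun h => hx ?_
    exact dotProduct_self_eq_zero.1 h.symm
  have hinv : ∀ v, (A v)ᵀ * B * A v = B := by
    intro v
    simp only [B, Matrix.mul_sum, Matrix.sum_mul]
    refine Fintype.sum_equiv (Equiv.mulRight v) _ _ fun w => ?_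
    rw [Equiv.coe_mulRight, hAm, transpose_mul]
    simp only [Matrix.mul_assoc]
  let t : Fin 3 → ℚ := fun i => (t₀ i : ℚ)
  have ht' : t ≠ 0 := by
    intro h
    apply ht
    funext i
    have := congrFun h i
    simpa [t] using this
  obtain ⟨P, g, hg, hPu, hP0, hPB⟩ := r3two_basis B hsym hpos t ht'
  refine ⟨P, g, hg, hPu, ?_⟩
  intro w ε δ hw hd hdd
  have hPP : P * P⁻¹ = 1 := Matrix.mul_nonsing_inv _ hPu
  have hPP' : P⁻¹ * P = 1 := Matrix.nonsing_inv_mul _ hPu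
  have hAt : A w *ᵥ t = (ε : ℚ) • t := by
    funext i
    have := congrFun hw i
    have h2 := congrArg (fun z : ℤ => (z : ℚ)) this
    simp only [mulVec, dotProduct, Fin.sum_univ_three, Pi.smul_apply, smul_eq_mul] at h2 ⊢
    push_cast at h2
    simpa [A, t] using h2
  let M : Matrix (Fin 3) (Fin 3) ℚ := P⁻¹ * (A w * P)
  have hPM : P * M = A w * P := by
    simp only [M]
    rw [← Matrix.mul_assoc, hPP, Matrix.one_mul]
  have hcol : ∀ i, (A w * P) i 0 = ε * P i 0 := by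
    intro i
    have := congrFun hAt i
    simp only [mulVec, dotProduct, Fin.sum_univ_three, Pi.smul_apply, smul_eq_mul] at this
    simp only [mul_apply, Fin.sum_univ_three, hP0]
    exact this
  have hM0 : ∀ i, M i 0 = (ε : ℚ) * (1 : Matrix (Fin 3) (Fin 3) ℚ) i 0 := by
    intro i
    rw [← hPP']
    simp only [M]
    rw [mul_apply, mul_apply, Finset.mul_sum]
    refine Finset.sum_congr rfl fun k _ => ?_
    rw [hcol]
    ring
  have hMG : Mᵀ * diagonal g * M = diagonal g := by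
    rw [← hPB]
    have h1 : Mᵀ * (Pᵀ * B * P) * M = (P * M)ᵀ * B * (P * M) := by
      rw [transpose_mul P M]; simp only [Matrix.mul_assoc]
    rw [h1, hPM, transpose_mul]
    have h2 : Pᵀ * (A w)ᵀ * B * (A w * P) = Pᵀ * ((A w)ᵀ * B * A w) * P := by
      simp only [Matrix.mul_assoc]
    rw [h2, hinv]
  have hMd : M.det = ((ρ₀ w : Matrix (Fin 3) (Fin 3) ℤ).det : ℚ) := by
    have h1 : P.det * M.det = (A w).det * P.det := by rw [← det_mul, hPM, det_mul]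
    have h2 : (A w).det = ((ρ₀ w : Matrix (Fin 3) (Fin 3) ℤ).det : ℚ) := by
      exact ((Int.castRingHom ℚ).map_det (ρ₀ w : Matrix (Fin 3) (Fin 3) ℤ)).symm
    rw [h2, mul_comm] at h1
    exact mul_right_cancel₀ hPu.ne_zero h1
  have hεd : (ε : ℚ) * M.det = δ := by
    rw [hMd]
    exact_mod_cast hd
  have hε : ε * ε = 1 := by
    have h1 : IsUnit (ε * (ρ₀ w : Matrix (Fin 3) (Fin 3) ℤ).det) := by
      rw [hd]; exact IsUnit.of_mul_eq_one _ hdd
    have h2 : IsUnit ε := isUnit_of_mul_isUnit_left h1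
    rcases Int.isUnit_iff.1 h2 with h | h <;> rw [h] <;> rfl
  have hε' : (ε : ℚ) * ε = 1 := by exact_mod_cast hε
  have h00 : M 0 0 = ε := by rw [hM0]; simp
  have h10 : M 1 0 = 0 := by rw [hM0]; simp
  have h20 : M 2 0 = 0 := by rw [hM0]; simp
  exact ⟨M, hPM, h00, h10, h20, hε', r3two_shape hg hMG hε' h00 h10 h20 hεd⟩

private theorem r3two_cast_inj {X Y : Matrix (Fin 3) (Fin 3) ℤ}
    (h : X.map (Int.castRingHom ℚ) = Y.map (Int.castRingHom ℚ)) : X = Y := by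
  ext i j
  have := congrFun (congrFun h i) j
  simpa using this

/-- NOTATION. `t^×` is the skew matrix with `xᵀ t^× y = det (t, x, y)`; for every `3 × 3` matrix `A`: `Aᵀ (A t)^× A = det A · t^×` (polynomial identity, `Matrix.det_fin_three`, `ring`). Work over `ℚ`. Let `B = ∑_{w ∈ W} A_wᵀ A_w` (`A_w` = the image of `ρ₀ w`): symmetric, positive definite, `A_wᵀ B A_w = B`. Let `t = t₀`, `T = t^×`, `K = B⁻¹ T`.
For `A = A_a` with `A t = ε t`, `ε = ±1`, `δ = ε det A = ±1`: `Aᵀ T A = δ T` and `Aᵀ B A = B`, so `A⁻¹ K A = δ K`, `K A = δ A K`. `K t = 0`; `B(x, K y) = xᵀ T y` is skew.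
Let `y ≠ 0` with `B(t, y) = 0`. Then `K y ≠ 0` (`T y = 0` only if `y` is a multiple of `t`), and `t, y, K y` are pairwise `B`-orthogonal, so a basis of `ℚ³`. `B(t, A y) = ε B(A t, A y) = 0`, so `A y = α y + β K y`.
PROOF OF `int_comm`: if `δ = 1` for `A` and `A'`: `A K = K A`, so `A A' y = α' (α y + β K y) + β' K (α y + β K y)` is symmetric in `A, A'`, and `A A' y = A' A y`; the same for `K y` (apply `K`) and for `t`. -/
theorem int_comm (ρ₀ : W →* GL (Fin 3) ℤ) {t₀ : Fin 3 → ℤ} (ht : t₀ ≠ 0) {a b : W} {εa εb : ℤ}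
    (ha : (ρ₀ a : Matrix (Fin 3) (Fin 3) ℤ).mulVec t₀ = εa • t₀)
    (hb : (ρ₀ b : Matrix (Fin 3) (Fin 3) ℤ).mulVec t₀ = εb • t₀)
    (hda : εa * (ρ₀ a : Matrix (Fin 3) (Fin 3) ℤ).det = 1)
    (hdb : εb * (ρ₀ b : Matrix (Fin 3) (Fin 3) ℤ).det = 1) : ρ₀ a * ρ₀ b = ρ₀ b * ρ₀ a := by
  obtain ⟨P, g, hg, hPu, H⟩ := r3two_setup ρ₀ ht
  obtain ⟨M, hM, m00, m10, m20, -, m01, m02, m22, m12, -⟩ := H a εa 1 ha hda (by norm_num)
  obtain ⟨N, hN, n00, n10, n20, -, n01, n02, n22, n12, -⟩ := H b εb 1 hb hdb (by norm_num)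
  have hMN : M * N = N * M := by
    ext i j
    simp only [Matrix.mul_apply, Fin.sum_univ_three]
    fin_cases i <;> fin_cases j <;>
      simp only [Fin.zero_eta, Fin.mk_one, Fin.reduceFinMk, m00, m10, m20, m01, m02, m22, m12, n00, n10, n20, n01, n02, n22, n12] <;> push_cast <;> ring
  have hPP : P * P⁻¹ = 1 := Matrix.mul_nonsing_inv _ hPu
  apply Units.ext
  apply r3two_cast_inj
  rw [Units.val_mul, Units.val_mul, Matrix.map_mul, Matrix.map_mul]
  set X := (ρ₀ a : Matrix (Fin 3) (Fin 3) ℤ).map (Int.castRingHom ℚ)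
  set Y := (ρ₀ b : Matrix (Fin 3) (Fin 3) ℤ).map (Int.castRingHom ℚ)
  have h1 : X * Y * P = Y * X * P := by
    rw [Matrix.mul_assoc, ← hN, ← Matrix.mul_assoc, ← hM, Matrix.mul_assoc, hMN, ← Matrix.mul_assoc, hN,
      Matrix.mul_assoc, hM, ← Matrix.mul_assoc]
  have h2 := congrArg (fun Z => Z * P⁻¹) h1
  simpa [Matrix.mul_assoc, hPP] using h2

/-- PROOF (notation of `int_comm`). `A K = - K A`, `A² y = α (α y + β K y) - β K (α y + β K y) = α² y - β² K² y`. `K² y` is orthogonal to `t` and to `K y` (`(K y)ᵀ T (K y) = 0`), so `K² y = - κ y`, `κ B(y, y) = - B(y, K² y) = B(K y, K y) > 0`. So `A² y = c y` with `c = α² + β² κ ≥ 0`, and `B(A² y, A² y) = B(y, y)` gives `c = 1`. Also `A² t = t`. -/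
theorem int_invol (ρ₀ : W →* GL (Fin 3) ℤ) {t₀ : Fin 3 → ℤ} (ht : t₀ ≠ 0) {a : W} {εa : ℤ}
    (ha : (ρ₀ a : Matrix (Fin 3) (Fin 3) ℤ).mulVec t₀ = εa • t₀)
    (hda : εa * (ρ₀ a : Matrix (Fin 3) (Fin 3) ℤ).det = -1) : ρ₀ a * ρ₀ a = 1 := by
  obtain ⟨P, g, hg, hPu, H⟩ := r3two_setup ρ₀ ht
  obtain ⟨M, hM, m00, m10, m20, me, m01, m02, m22, m12, mq⟩ := H a εa (-1) ha hda (by norm_num)
  have hMM : M * M = 1 := by
    ext i j
    simp only [Matrix.mul_apply, Fin.sum_univ_three]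
    fin_cases i <;> fin_cases j <;>
      simp only [Fin.zero_eta, Fin.mk_one, Fin.reduceFinMk, m00, m10, m20, m01, m02, m22, m12] <;> simp <;> linarith
  have hPP : P * P⁻¹ = 1 := Matrix.mul_nonsing_inv _ hPu
  apply Units.ext
  apply r3two_cast_inj
  rw [Units.val_mul, Matrix.map_mul, Units.val_one]
  set X := (ρ₀ a : Matrix (Fin 3) (Fin 3) ℤ).map (Int.castRingHom ℚ)
  have h1 : X * X * P = P := by
    rw [Matrix.mul_assoc, ← hM, ← Matrix.mul_assoc, ← hM, Matrix.mul_assoc, hMM, Matrix.mul_one]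
  have h2 := congrArg (fun Z => Z * P⁻¹) h1
  simpa [Matrix.mul_assoc, hPP] using h2

end MP8a
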