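import Pool.Agent.Lib_MP_8a48ad_gt.R3Sgn
import Pool.Agent.Lib_MP_8a48ad_gt.R3Two
import Pool.Agent.Lib_MP_8a48ad_gt.R3Prime

/-! # Piece R3PLN: the action of the stabiliser of a line on the plane -/

set_option autoImplicit false

namespace MP8a

universe u

variable {k : Type u} [Field k] {W : Type*} [Group W] [Finite W]

private theorem pln_indep (a b c : Fin 3 → k) (h : (Matrix.of ![a, b, c]).det ≠ 0)
    {x y x' y' : k} (he : x • b + y • c = x' • b + y' • c) : x = x' ∧ y = y' := by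
  have h4 : Matrix.vecMul ![0, x - x', y - y'] (Matrix.of ![a, b, c]) = 0 := by
    have h0 : (x - x') • b + (y - y') • c = 0 := by
      rw [← sub_eq_zero.2 he]
      module
    rw [← h0]
    funext j
    simp only [Matrix.vecMul, dotProduct, Fin.sum_univ_three, Matrix.of_apply, Matrix.cons_val_zero,
      Matrix.cons_val_one, Matrix.cons_val, Pi.add_apply, Pi.smul_apply, smul_eq_mul, zero_mul,
      zero_add]
  have h5 := Matrix.eq_zero_of_vecMul_eq_zero h h4
  exact ⟨sub_eq_zero.1 (congrFun h5 1), sub_eq_zero.1 (congrFun h5 2)⟩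

private theorem pln_det (A : Matrix (Fin 3) (Fin 3) k) (a b c : Fin 3 → k) :
    (Matrix.of ![A.mulVec a, A.mulVec b, A.mulVec c]).det =
      A.det * (Matrix.of ![a, b, c]).det := by
  have h : Matrix.of ![A.mulVec a, A.mulVec b, A.mulVec c] =
      Matrix.of ![a, b, c] * A.transpose := by
    ext i j
    fin_cases i <;> simp [Matrix.mul_apply, Matrix.mulVec, dotProduct, mul_comm]
  rw [h, Matrix.det_mul, Matrix.det_transpose, mul_comm]

private theorem pln_det2 (ε x1 y1 x2 y2 : k) (a b c : Fin 3 → k) :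
    (Matrix.of ![ε • a, x1 • b + y1 • c, x2 • b + y2 • c]).det =
      ε * (x1 * y2 - x2 * y1) * (Matrix.of ![a, b, c]).det := by
  rw [Matrix.det_fin_three, Matrix.det_fin_three]
  simp only [Matrix.of_apply, Matrix.cons_val_zero, Matrix.cons_val_one, Matrix.cons_val,
    Pi.add_apply, Pi.smul_apply, smul_eq_mul]
  ring

private theorem pln_cv_smul (m : ℤ) (a : Fin 3 → ℤ) : cv k (m • a) = (m : k) • cv k a := by
  funext i
  simp [cv]

/-- PROOF. `M w` = the matrix of `w` on the plane `span_k (c₁, c₂)` (`LD.plane`, `inert_conj`) with respect to `c₁`, `c₂` (a homomorphism by uniqueness of coordinates, `LD.det`). `ε w = ±1` with `w t₀ = ε t₀` (`stabi_sign`; `t₀ ≠ 0`), `δ w = ε w · det (ρ₀ w)`. In the basis `t₀, c₁, c₂` the matrix of `w` is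
`diag (ε, M w)`, so `det (latt w) = ε det (M w)`. `int_comm` and `int_invol` give commutation and `w² = 1` for the integral matrices, hence for `M`. -/
theorem exists_plane (hW : (Nat.card W : k) ≠ 0) (ρ₀ : W →* GL (Fin 3) ℤ) (q : Ideal (Sn k 3))
    {t₀ c₁ c₂ : Fin 3 → ℤ} (h : LD k ρ₀ (inert (latt k ρ₀) q) t₀ c₁ c₂) :
    ∃ (M : stabi (latt k ρ₀) q →* GL (Fin 2) k) (δ : stabi (latt k ρ₀) q →* ℤˣ),
      (∀ (w : stabi (latt k ρ₀) q) (x : Fin 2 → k),
        (latt k ρ₀ w : Matrix (Fin 3) (Fin 3) k).mulVec (x 0 • cv k c₁ + x 1 • cv k c₂) =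
          ((M w : Matrix (Fin 2) (Fin 2) k).mulVec x) 0 • cv k c₁ +
            ((M w : Matrix (Fin 2) (Fin 2) k).mulVec x) 1 • cv k c₂) ∧
      (∀ w, (M w : Matrix (Fin 2) (Fin 2) k).det = ((δ w : ℤ) : k)) ∧
      (∀ a b, δ a = 1 → δ b = 1 → M a * M b = M b * M a) ∧ (∀ a, δ a = -1 → M a * M a = 1) := by
  classical
  have hn : ∀ w ∈ stabi (latt k ρ₀) q,
      (∀ γ ∈ inert (latt k ρ₀) q, w * γ * w⁻¹ ∈ inert (latt k ρ₀) q) ∧
        ∀ γ ∈ inert (latt k ρ₀) q, w⁻¹ * γ * w ∈ inert (latt k ρ₀) q := by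
    intro w hw
    refine ⟨fun γ hγ => inert_conj _ q hw hγ, fun γ hγ => ?_⟩
    have h1 := inert_conj _ q (inv_mem hw) hγ
    rwa [inv_inv] at h1
  have hp : ∀ w : stabi (latt k ρ₀) q, ∃ N : Matrix (Fin 2) (Fin 2) k,
      (latt k ρ₀ w : Matrix (Fin 3) (Fin 3) k).mulVec (cv k c₁) =
        N 0 0 • cv k c₁ + N 1 0 • cv k c₂ ∧
      (latt k ρ₀ w : Matrix (Fin 3) (Fin 3) k).mulVec (cv k c₂) =
        N 0 1 • cv k c₁ + N 1 1 • cv k c₂ := by
    intro w
    obtain ⟨x1, y1, h1⟩ := h.plane hW (hn w w.2).1 (hn w w.2).2 (Or.inl rfl)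
    obtain ⟨x2, y2, h2⟩ := h.plane hW (hn w w.2).1 (hn w w.2).2 (Or.inr rfl)
    exact ⟨!![x1, x2; y1, y2], h1, h2⟩
  choose N hN1 hN2 using hp
  have hN : ∀ (w : stabi (latt k ρ₀) q) (x : Fin 2 → k),
      (latt k ρ₀ w : Matrix (Fin 3) (Fin 3) k).mulVec (x 0 • cv k c₁ + x 1 • cv k c₂) =
        ((N w).mulVec x) 0 • cv k c₁ + ((N w).mulVec x) 1 • cv k c₂ := by
    intro w x
    rw [Matrix.mulVec_add, Matrix.mulVec_smul, Matrix.mulVec_smul, hN1, hN2]
    simp only [Matrix.mulVec, dotProduct, Fin.sum_univ_two]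
    module
  have huniq : ∀ (A B : Matrix (Fin 2) (Fin 2) k),
      (∀ x : Fin 2 → k, (A.mulVec x) 0 • cv k c₁ + (A.mulVec x) 1 • cv k c₂ =
        (B.mulVec x) 0 • cv k c₁ + (B.mulVec x) 1 • cv k c₂) → A = B := by
    intro A B hAB
    apply Matrix.mulVec_injective
    funext x i
    obtain ⟨h1, h2⟩ := pln_indep _ _ _ h.det (hAB x)
    fin_cases i
    · exact h1
    · exact h2
  have hdep : ∀ v w : stabi (latt k ρ₀) q, ρ₀ v = ρ₀ w → N v = N w := by
    intro v w hvw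
    apply huniq
    intro x
    rw [← hN, ← hN]
    have h3 : latt k ρ₀ v = latt k ρ₀ w :=
      congrArg (Matrix.GeneralLinearGroup.map (Int.castRingHom k)) hvw
    rw [h3]
  have hone : N 1 = 1 := huniq _ _ fun x => by
    rw [← hN, Matrix.one_mulVec, OneMemClass.coe_one, map_one, Units.val_one, Matrix.one_mulVec]
  have hmul : ∀ v w, N (v * w) = N v * N w := fun v w => huniq _ _ fun x => by
    rw [← hN, ← Matrix.mulVec_mulVec, ← hN v, ← hN w, Subgroup.coe_mul, map_mul, Units.val_mul,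
      ← Matrix.mulVec_mulVec]
  have ht0 : t₀ ≠ 0 := by
    intro h0
    apply h.det
    refine Matrix.det_eq_zero_of_row_eq_zero 0 fun j => ?_
    show cv k t₀ j = 0
    rw [h0]
    simp [cv]
  obtain ⟨i, hi⟩ : ∃ i, t₀ i ≠ 0 := by
    by_contra hcon
    push Not at hcon
    exact ht0 (funext hcon)
  have he : ∀ w : stabi (latt k ρ₀) q, ∃ u : ℤˣ,
      (ρ₀ w : Matrix (Fin 3) (Fin 3) ℤ).mulVec t₀ = (u : ℤ) • t₀ := by
    intro w
    rcases (stabi_sign hW ρ₀ q h).1 w w.2 with h1 | h1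
    · exact ⟨1, by rw [h1, Units.val_one, one_smul]⟩
    · exact ⟨-1, by rw [h1, Units.val_neg, Units.val_one, neg_smul, one_smul]⟩
  choose e he using he
  have heu : ∀ u v : ℤˣ, (u : ℤ) • t₀ = (v : ℤ) • t₀ → u = v := by
    intro u v huv
    have h1 := congrFun huv i
    simp only [Pi.smul_apply, smul_eq_mul] at h1
    exact Units.ext (mul_right_cancel₀ hi h1)
  have heone : e 1 = 1 := by
    apply heu
    rw [← he, OneMemClass.coe_one, map_one, Units.val_one, Matrix.one_mulVec, Units.val_one,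
      one_smul]
  have hemul : ∀ v w, e (v * w) = e v * e w := by
    intro v w
    apply heu
    rw [← he, Subgroup.coe_mul, map_mul, Units.val_mul, ← Matrix.mulVec_mulVec, he w,
      Matrix.mulVec_smul, he v, smul_smul, Units.val_mul, mul_comm]
  set E : stabi (latt k ρ₀) q →* ℤˣ := { toFun := e, map_one' := heone, map_mul' := hemul } with hE
  set M : stabi (latt k ρ₀) q →* GL (Fin 2) k :=
    MonoidHom.toHomUnits { toFun := N, map_one' := hone, map_mul' := hmul } with hM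
  have hMN : ∀ w, (M w : Matrix (Fin 2) (Fin 2) k) = N w := fun w => rfl
  set δ : stabi (latt k ρ₀) q →* ℤˣ := E * (Matrix.GeneralLinearGroup.det.comp
    (ρ₀.comp (stabi (latt k ρ₀) q).subtype)) with hδ
  have hδv : ∀ w : stabi (latt k ρ₀) q, ((δ w : ℤˣ) : ℤ) =
      (e w : ℤ) * (ρ₀ w : Matrix (Fin 3) (Fin 3) ℤ).det := fun w => rfl
  refine ⟨M, δ, fun w x => ?_, fun w => ?_, fun a b ha hb => ?_, fun a ha => ?_⟩
  · rw [hMN]
    exact hN w x
  · rw [hMN, hδv, Matrix.det_fin_two]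
    have h1 := pln_det (latt k ρ₀ w : Matrix (Fin 3) (Fin 3) k) (cv k t₀) (cv k c₁) (cv k c₂)
    rw [latt_mulVec ρ₀ w t₀, he w, pln_cv_smul, hN1, hN2, pln_det2] at h1
    have h2 := mul_right_cancel₀ h.det h1
    have h3 : (latt k ρ₀ w : Matrix (Fin 3) (Fin 3) k).det =
        (((ρ₀ w : Matrix (Fin 3) (Fin 3) ℤ).det : ℤ) : k) := by
      have h4 : (((ρ₀ w : Matrix (Fin 3) (Fin 3) ℤ).det : ℤ) : k) =
          (Int.castRingHom k) (ρ₀ w : Matrix (Fin 3) (Fin 3) ℤ).det := rfl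
      rw [h4, RingHom.map_det]
      rfl
    rw [h3] at h2
    have h5 : ((e w : ℤ) : k) * ((e w : ℤ) : k) = 1 := by
      rw [← Int.cast_mul, ← Units.val_mul, Int.units_mul_self, Units.val_one, Int.cast_one]
    rw [Int.cast_mul, ← h2, ← mul_assoc, h5, one_mul]
  · have ha' : (e a : ℤ) * (ρ₀ a : Matrix (Fin 3) (Fin 3) ℤ).det = 1 := by
      rw [← hδv, ha, Units.val_one]
    have hb' : (e b : ℤ) * (ρ₀ b : Matrix (Fin 3) (Fin 3) ℤ).det = 1 := by
      rw [← hδv, hb, Units.val_one]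
    have h1 := int_comm ρ₀ ht0 (he a) (he b) ha' hb'
    refine Units.ext ?_
    rw [Units.val_mul, Units.val_mul, hMN, hMN, ← hmul, ← hmul]
    apply hdep
    rw [Subgroup.coe_mul, Subgroup.coe_mul, map_mul, map_mul, h1]
  · have ha' : (e a : ℤ) * (ρ₀ a : Matrix (Fin 3) (Fin 3) ℤ).det = -1 := by
      rw [← hδv, ha, Units.val_neg, Units.val_one]
    have h1 := int_invol ρ₀ ht0 (he a) ha'
    refine Units.ext ?_
    rw [Units.val_mul, Units.val_one, hMN, ← hmul, ← hone]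
    apply hdep
    rw [Subgroup.coe_mul, map_mul, h1, OneMemClass.coe_one, map_one]

end MP8a
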