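import Pool.Agent.Lib_MP_8a48ad_gt.R3Act

/-! # Piece R3REFL1: groups acting through one reflection (matrices) -/

set_option autoImplicit false

namespace MP8a

universe u

section

variable {k : Type u} [Field k] {n : ℕ} {W : Type*} [Group W] [Finite W]

/-- A matrix which is the identity up to multiples of `α` maps `α` to `det • α`. -/
theorem mulVec_eq_det_smul (A : Matrix (Fin n) (Fin n) k) (α : Fin n → k)
    (h : ∀ c, ∃ x : k, A.mulVec c - c = x • α) : A.mulVec α = A.det • α := by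
  classical
  choose l hl using fun j : Fin n => h (Pi.single j 1)
  have hA : A = 1 + Matrix.vecMulVec α l := by
    ext i j
    have h1 := congrFun (hl j) i
    rw [Pi.sub_apply, Matrix.mulVec_single_one, Matrix.col_apply, Pi.smul_apply, smul_eq_mul] at h1
    rw [Matrix.add_apply, Matrix.vecMulVec_apply, mul_comm (α i), ← h1, Matrix.one_apply,
      Pi.single_apply]
    ring
  have hdet : A.det = 1 + l ⬝ᵥ α := by
    rw [hA, Matrix.vecMulVec_eq Unit, Matrix.det_one_add_replicateCol_mul_replicateRow]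
  rw [hdet]
  conv_lhs => rw [hA]
  rw [Matrix.add_mulVec, Matrix.one_mulVec, Matrix.vecMulVec_mulVec, add_smul, one_smul,
    op_smul_eq_smul]

/-- PROOF. Let `A = ρ γ`, `A c - c = λ(c) α` with a linear form `λ`; `A α = χ α`, `χ = 1 + λ(α)`, `det A = χ` (`Matrix.det_one_add_mul_comm` or `Matrix.det_one_add_replicateCol_mul_replicateRow`), so `χ = ±1`. If `χ = 1` then `(A - 1)² = 0`, `1 = A^{|W|} = 1 + |W| (A - 1)`, so `A = 1`.
Hence if `A ≠ 1` then `A α = - α` and `2 ≠ 0` in `k`. If `A, A' ∈ ρ(Γ)` are both different from `1` then `A A'` fixes `α` and maps every `c` to `c +` a multiple of `α`, so `A A' = 1`, and `A A = 1`, `A = A'`. -/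
theorem refl_dichotomy (hW : (Nat.card W : k) ≠ 0) (ρ : W →* GL (Fin n) k) (Γ : Subgroup W)
    (hdet : ∀ w, (ρ w : Matrix (Fin n) (Fin n) k).det = 1 ∨ (ρ w : Matrix (Fin n) (Fin n) k).det = -1)
    (α : Fin n → k)
    (hα : ∀ γ ∈ Γ, ∀ c, ∃ x : k, (ρ γ : Matrix (Fin n) (Fin n) k).mulVec c - c = x • α) :
    (∀ γ ∈ Γ, ρ γ = 1) ∨ ((2 : k) ≠ 0 ∧ α ≠ 0 ∧ ∃ γ₀ ∈ Γ, ρ γ₀ ≠ 1 ∧ (∀ γ ∈ Γ, ρ γ = 1 ∨ ρ γ = ρ γ₀) ∧
      ρ γ₀ * ρ γ₀ = 1 ∧ (ρ γ₀ : Matrix (Fin n) (Fin n) k).mulVec α = -α) := by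
  classical
  by_cases hall : ∀ γ ∈ Γ, ρ γ = 1
  · exact Or.inl hall
  right
  push Not at hall
  obtain ⟨γ₀, hγ₀, hne⟩ := hall
  have hα0 : α ≠ 0 := by
    rintro rfl
    apply hne
    apply Units.ext
    apply Matrix.ext_of_mulVec_single
    intro j
    obtain ⟨x, hx⟩ := hα γ₀ hγ₀ (Pi.single j 1)
    rw [smul_zero, sub_eq_zero] at hx
    rw [hx, Units.val_one, Matrix.one_mulVec]
  -- fixed `α` implies identity
  have L1 : ∀ γ ∈ Γ, (ρ γ : Matrix (Fin n) (Fin n) k).mulVec α = α → ρ γ = 1 := by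
    intro γ hγ hfix
    apply Units.ext
    apply Matrix.ext_of_mulVec_single
    intro j
    obtain ⟨x, hx⟩ := hα γ hγ (Pi.single j 1)
    set c : Fin n → k := Pi.single j 1 with hc
    have hx' : (ρ γ : Matrix (Fin n) (Fin n) k).mulVec c = c + x • α := by
      rw [← hx]
      abel
    have hpow : ∀ m : ℕ, ((ρ γ : Matrix (Fin n) (Fin n) k) ^ m).mulVec c = c + ((m : k) * x) • α := by
      intro m
      induction m with
      | zero => simp
      | succ m ih =>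
        rw [pow_succ', ← Matrix.mulVec_mulVec, ih, Matrix.mulVec_add, Matrix.mulVec_smul, hfix, hx',
          Nat.cast_succ, add_mul, one_mul, add_smul]
        abel
    have h1 := hpow (Nat.card W)
    have h2 : (ρ γ : Matrix (Fin n) (Fin n) k) ^ (Nat.card W) = 1 := by
      rw [← Units.val_pow_eq_pow_val, ← map_pow, pow_card_eq_one', map_one, Units.val_one]
    rw [h2, Matrix.one_mulVec] at h1
    have h3 : (((Nat.card W : ℕ) : k) * x) • α = 0 := by
      have h4 := h1.symm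
      rwa [add_eq_left] at h4
    rcases smul_eq_zero.1 h3 with h4 | h4
    · rcases mul_eq_zero.1 h4 with h5 | h5
      · exact absurd h5 hW
      · rw [hx', h5, zero_smul, add_zero, Units.val_one, Matrix.one_mulVec]
    · exact absurd h4 hα0
  have L2 : ∀ γ ∈ Γ, ρ γ ≠ 1 → (2 : k) ≠ 0 ∧ (ρ γ : Matrix (Fin n) (Fin n) k).mulVec α = -α := by
    intro γ hγ hγ1
    have h1 := mulVec_eq_det_smul _ α (hα γ hγ)
    rcases hdet γ with h2 | h2
    · rw [h2, one_smul] at h1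
      exact absurd (L1 γ hγ h1) hγ1
    · rw [h2, neg_smul, one_smul] at h1
      refine ⟨fun h3 => hγ1 (L1 γ hγ ?_), h1⟩
      rw [h1]
      have h4 : (2 : k) • α = 0 := by rw [h3, zero_smul]
      rw [two_smul] at h4
      exact neg_eq_of_add_eq_zero_left h4
  have L3 : ∀ γ ∈ Γ, ρ γ ≠ 1 → ρ γ * ρ γ₀ = 1 := by
    intro γ hγ hγ1
    rw [← map_mul]
    refine L1 _ (Γ.mul_mem hγ hγ₀) ?_
    rw [map_mul, Units.val_mul, ← Matrix.mulVec_mulVec, (L2 γ₀ hγ₀ hne).2, Matrix.mulVec_neg,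
      (L2 γ hγ hγ1).2, neg_neg]
  refine ⟨(L2 γ₀ hγ₀ hne).1, hα0, γ₀, hγ₀, hne, fun γ hγ => ?_, L3 γ₀ hγ₀ hne, (L2 γ₀ hγ₀ hne).2⟩
  by_cases h1 : ρ γ = 1
  · exact Or.inl h1
  · right
    exact mul_right_cancel ((L3 γ hγ h1).trans (L3 γ₀ hγ₀ hne).symm)

end

end MP8a
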