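import Pool.Agent.Lib_MP_8a48ad_gt.R3Int2

/-! # Piece R3SGN: the action of the stabiliser on the line -/

set_option autoImplicit false

namespace MP8a

universe u

variable {k : Type u} [Field k] {W : Type*} [Group W] [Finite W]

private theorem sgn_span (a b c v : Fin 3 → k) (h : (Matrix.of ![a, b, c]).det ≠ 0) :
    ∃ x y z : k, v = x • a + y • b + z • c := by
  have h1 : Matrix.vecMul (Matrix.vecMul v (Matrix.of ![a, b, c]).adjugate) (Matrix.of ![a, b, c]) =
      (Matrix.of ![a, b, c]).det • v := by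
    rw [Matrix.vecMul_vecMul, Matrix.adjugate_mul, Matrix.vecMul_smul, Matrix.vecMul_one]
  set d := (Matrix.of ![a, b, c]).det with hd
  set u := Matrix.vecMul v (Matrix.of ![a, b, c]).adjugate with hu
  have h2 : d • v = u 0 • a + u 1 • b + u 2 • c := by
    rw [← h1]
    funext j
    simp only [Matrix.vecMul, dotProduct, Fin.sum_univ_three, Matrix.of_apply, Matrix.cons_val_zero,
      Matrix.cons_val_one, Matrix.cons_val, Pi.add_apply, Pi.smul_apply, smul_eq_mul]
  refine ⟨d⁻¹ * u 0, d⁻¹ * u 1, d⁻¹ * u 2, ?_⟩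
  rw [mul_smul, mul_smul, mul_smul, ← smul_add, ← smul_add, ← h2, smul_smul, inv_mul_cancel₀ h,
    one_smul]

/-- The stabiliser acts on `t₀` by signs; the elements which fix `t₀` are in the inertia group. PROOF. `inert_conj` and `LD.sign`. If `w` stabilises `q` and `w t₀ = t₀` then `w s - s ∈ q` for `s = lin t₀`, `lin c₁`, `lin c₂` (`lin_mem_of_esum`), so for all linear forms (`LD.det`: basis) and for all `s`
(the `s` with this property form a subalgebra of `S`). -/
theorem stabi_sign (hW : (Nat.card W : k) ≠ 0) (ρ₀ : W →* GL (Fin 3) ℤ) (q : Ideal (Sn k 3))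
    {t₀ c₁ c₂ : Fin 3 → ℤ} (h : LD k ρ₀ (inert (latt k ρ₀) q) t₀ c₁ c₂) :
    (∀ w ∈ stabi (latt k ρ₀) q, (ρ₀ w : Matrix (Fin 3) (Fin 3) ℤ).mulVec t₀ = t₀ ∨
      (ρ₀ w : Matrix (Fin 3) (Fin 3) ℤ).mulVec t₀ = -t₀) ∧
    ∀ w ∈ stabi (latt k ρ₀) q, (ρ₀ w : Matrix (Fin 3) (Fin 3) ℤ).mulVec t₀ = t₀ →
      w ∈ inert (latt k ρ₀) q := by
  refine ⟨fun w hw => ?_, fun w hw ht => ?_⟩
  · refine h.sign (fun γ hγ => inert_conj _ q hw hγ) (fun γ hγ => ?_)
    have h1 := inert_conj _ q (inv_mem hw) hγ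
    rwa [inv_inv] at h1
  · have hst : ∀ s, wact (latt k ρ₀) w s ∈ q ↔ s ∈ q := hw
    have hc : ∀ c : Fin 3 → ℤ, (esum ρ₀ (inert (latt k ρ₀) q)).mulVec c = 0 →
        wact (latt k ρ₀) w (lin (cv k c)) - lin (cv k c) ∈ q := by
      intro c hc
      have h1 : lin (cv k c) ∈ q := lin_mem_of_esum hW ρ₀ q le_rfl hc
      exact q.sub_mem ((hst _).2 h1) h1
    have h0 : wact (latt k ρ₀) w (lin (cv k t₀)) - lin (cv k t₀) ∈ q := by
      have h1 : wact (latt k ρ₀) w (lin (cv k t₀)) = lin (cv k t₀) := by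
        rw [wact, linAct_lin, latt_mulVec, ht]
      rw [h1, sub_self]
      exact q.zero_mem
    have hadd : ∀ a b : Sn k 3, wact (latt k ρ₀) w a - a ∈ q → wact (latt k ρ₀) w b - b ∈ q →
        wact (latt k ρ₀) w (a + b) - (a + b) ∈ q := by
      intro a b ha hb
      have h1 : wact (latt k ρ₀) w (a + b) - (a + b) =
          (wact (latt k ρ₀) w a - a) + (wact (latt k ρ₀) w b - b) := by
        rw [map_add]
        ring
      rw [h1]
      exact q.add_mem ha hb
    have hmul : ∀ a b : Sn k 3, wact (latt k ρ₀) w a - a ∈ q → wact (latt k ρ₀) w b - b ∈ q →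
        wact (latt k ρ₀) w (a * b) - (a * b) ∈ q := by
      intro a b ha hb
      have h1 : wact (latt k ρ₀) w (a * b) - (a * b) =
          wact (latt k ρ₀) w a * (wact (latt k ρ₀) w b - b) + b * (wact (latt k ρ₀) w a - a) := by
        rw [map_mul]
        ring
      rw [h1]
      exact q.add_mem (q.mul_mem_left _ hb) (q.mul_mem_left _ ha)
    have hC : ∀ a : k, wact (latt k ρ₀) w (MvPolynomial.C a) - MvPolynomial.C a ∈ q := by
      intro a
      rw [MvPolynomial.algHom_C, MvPolynomial.algebraMap_eq, sub_self]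
      exact q.zero_mem
    have hlin : ∀ v : Fin 3 → k, wact (latt k ρ₀) w (lin v) - lin v ∈ q := by
      intro v
      obtain ⟨x, y, z, rfl⟩ := sgn_span (cv k t₀) (cv k c₁) (cv k c₂) v h.det
      rw [lin_add, lin_add, lin_smul, lin_smul, lin_smul]
      exact hadd _ _ (hadd _ _ (hmul _ _ (hC x) h0) (hmul _ _ (hC y) (hc c₁ h.sum1)))
        (hmul _ _ (hC z) (hc c₂ h.sum2))
    intro s
    induction s using MvPolynomial.induction_on with
    | C a => exact hC a
    | add a b ha hb => exact hadd a b ha hb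
    | mul_X a j ha =>
      refine hmul a _ ha ?_
      rw [← lin_single j]
      exact hlin _

end MP8a
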