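import Pool.Agent.Lib_MP_8a48ad_gt.R3Compl

/-! # Piece R3SPLIT: DG modules killed by `p^2` -/

set_option autoImplicit false

namespace MP8a

universe u

variable {A : Type u} [CommRing A] {G : Gr A}

/-- `W ⊆ M2 ⊆ M` graded and saturated, `W` and `M / M2` have zero differential, `W → M2` is a quasi-isomorphism, `W → H(M)` is injective and `ker d → M / M2` is surjective. -/
structure Spl (M : DGM G) (t : A) (W M2 : Submodule A M.X) : Prop where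
  hW : Sat M t W
  hM2 : Sat M t M2
  le : W ≤ M2
  dW : ∀ x ∈ W, M.d x = 0
  Wd : ∀ x ∈ W, (∃ y, M.d y = x) → x = 0
  dM : ∀ x, M.d x ∈ M2
  cyc : ∀ x, ∃ m ∈ M2, M.d (x - m) = 0
  qis : ∀ x ∈ M2, M.d x ∈ W → M.d x = 0 ∧ ∃ m ∈ M2, x - M.d m ∈ W

/-! ### graded saturated submodules -/

theorem r3sp_bot (M : DGM G) {t : A} (hinj : ∀ x : M.X, t • x = 0 → x = 0) : Sat M t ⊥ :=
  ⟨fun i x hx => by
    rw [Submodule.mem_bot] at hx ⊢
    rw [hx, map_zero], fun x hx => by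
    rw [Submodule.mem_bot] at hx ⊢
    exact hinj x hx⟩

theorem r3sp_top (M : DGM G) (t : A) : Sat M t ⊤ :=
  ⟨fun _ _ _ => Submodule.mem_top, fun _ _ => Submodule.mem_top⟩

theorem r3sp_inf {M : DGM G} {t : A} {U V : Submodule A M.X} (hU : Sat M t U) (hV : Sat M t V) :
    Sat M t (U ⊓ V) :=
  ⟨fun i x hx => ⟨hU.pr i x hx.1, hV.pr i x hx.2⟩, fun x hx => ⟨hU.sat x hx.1, hV.sat x hx.2⟩⟩

theorem r3sp_eq {M : DGM G} {t : A} (hinj : ∀ x : M.X, t • x = 0 → x = 0) {x y : M.X}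
    (h : t • x = t • y) : x = y :=
  sub_eq_zero.1 (hinj _ (by rw [smul_sub, h, sub_self]))

theorem r3sp_sup {M : DGM G} {t : A} (hinj : ∀ x : M.X, t • x = 0 → x = 0)
    (hsurj : ∀ x : M.X, ∃ y, t • y = x) {U V : Submodule A M.X} (hU : Sat M t U) (hV : Sat M t V) :
    Sat M t (U ⊔ V) := by
  refine ⟨fun i x hx => ?_, fun x hx => ?_⟩
  · obtain ⟨u, hu, v, hv, rfl⟩ := Submodule.mem_sup.1 hx
    rw [map_add]
    exact Submodule.add_mem_sup (hU.pr i u hu) (hV.pr i v hv)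
  · obtain ⟨u, hu, v, hv, huv⟩ := Submodule.mem_sup.1 hx
    obtain ⟨u', rfl⟩ := hsurj u
    obtain ⟨v', rfl⟩ := hsurj v
    rw [← smul_add] at huv
    rw [← r3sp_eq hinj huv]
    exact Submodule.add_mem_sup (hU.sat _ hu) (hV.sat _ hv)

theorem r3sp_ker (M : DGM G) {t : A} (hinj : ∀ x : M.X, t • x = 0 → x = 0) :
    Sat M t (LinearMap.ker M.d) := by
  refine ⟨fun i x hx => ?_, fun x hx => ?_⟩
  · rw [LinearMap.mem_ker] at hx ⊢
    rw [← M.pr_d, hx, map_zero]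
  · rw [LinearMap.mem_ker] at hx ⊢
    rw [map_smul] at hx
    exact hinj _ hx

theorem r3sp_range (M : DGM G) {t : A} (hinj : ∀ x : M.X, t • x = 0 → x = 0)
    (hsurj : ∀ x : M.X, ∃ y, t • y = x) : Sat M t (LinearMap.range M.d) := by
  refine ⟨fun i x hx => ?_, fun x hx => ?_⟩
  · obtain ⟨y, rfl⟩ := LinearMap.mem_range.1 hx
    refine LinearMap.mem_range.2 ⟨M.pr (i - 1) y, ?_⟩
    rw [← M.pr_d, sub_add_cancel]
  · obtain ⟨y, hy⟩ := LinearMap.mem_range.1 hx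
    obtain ⟨y', rfl⟩ := hsurj y
    rw [map_smul] at hy
    exact LinearMap.mem_range.2 ⟨y', r3sp_eq hinj hy⟩

theorem r3sp_smul (M : DGM G) {t : A} (hinj : ∀ x : M.X, t • x = 0 → x = 0)
    (hsurj : ∀ x : M.X, ∃ y, t • y = x) (p : Ideal A) (hph : ∀ a ∈ p, ∀ i, G.c i a ∈ p) :
    Sat M t (p • (⊤ : Submodule A M.X)) := by
  refine ⟨fun i x hx => ?_, fun x hx => ?_⟩
  · refine Submodule.smul_induction_on (p := fun x => M.pr i x ∈ p • (⊤ : Submodule A M.X)) hx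
      ?_ ?_
    · intro a ha y _
      obtain ⟨s, hs⟩ := G.fin a
      rw [← hs, Finset.sum_smul, map_sum]
      refine Submodule.sum_mem _ fun j _ => ?_
      rw [M.pr_smul' (G.c_self j a)]
      exact Submodule.smul_mem_smul (hph a ha j) Submodule.mem_top
    · intro y z hy hz
      rw [map_add]
      exact Submodule.add_mem _ hy hz
  · have key : ∀ z ∈ p • (⊤ : Submodule A M.X), ∃ z' ∈ p • (⊤ : Submodule A M.X), t • z' = z := by
      intro z hz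
      refine Submodule.smul_induction_on
        (p := fun z => ∃ z' ∈ p • (⊤ : Submodule A M.X), t • z' = z) hz ?_ ?_
      · intro a ha y _
        obtain ⟨y', rfl⟩ := hsurj y
        exact ⟨a • y', Submodule.smul_mem_smul ha Submodule.mem_top, smul_comm _ _ _⟩
      · rintro y z ⟨y', hy', rfl⟩ ⟨z', hz', rfl⟩
        exact ⟨y' + z', Submodule.add_mem _ hy' hz', smul_add _ _ _⟩
    obtain ⟨z, hz, hzx⟩ := key _ hx
    rw [← r3sp_eq hinj hzx]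
    exact hz

/-- STRUCTURE OF DG MODULES KILLED BY `p²`. Let `t` be bijective on `M.X`, `p² M = 0`.
PROOF. Let `N = p M` (spanned by the `a x`, `a ∈ p`), `Z = ker d`, `B = range d`. `N`, `Z`, `B`, `N ⊓ Z`, `N ⊓ B`, `Z ⊔ N`, `B ⊔ N` are graded (`p` is homogeneous: `hph`) and saturated (`t` is bijective and commutes with everything). By `exists_graded_compl`: a complement `W` of
`N ⊓ B` in `N ⊓ Z` over `D = ⊥` (`p (N ⊓ Z) ≤ p² M = 0`), and a complement `M2` of `Z ⊔ N` in `⊤` over `D = B ⊔ N`: `M2 ⊓ (Z ⊔ N) = B ⊔ N`, `M2 ⊔ (Z ⊔ N) = ⊤`.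
`W ∩ B = 0` since `W ≤ N` and `W ⊓ (N ⊓ B) = ⊥`. `M2 ⊔ Z = ⊤` since `N ≤ M2`. Let `x ∈ M2`, `d x ∈ W`: `d x ∈ W ⊓ B = ⊥`, so `x ∈ M2 ⊓ Z ≤ B ⊔ N`, `x = d y + ν`, `ν ∈ N`, `d ν = 0`, so `ν ∈ N ⊓ Z = W ⊔ (N ⊓ B)`, `ν = w + d y'`.
`y + y' = m + z`, `m ∈ M2`, `z ∈ Z`, so `x = d m + w`. -/
theorem exists_split (M : DGM G) {e : ℤ} {t : A} (ht : G.c e t = t)
    (hinj : ∀ x : M.X, t • x = 0 → x = 0) (hsurj : ∀ x : M.X, ∃ y, t • y = x) (p : Ideal A)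
    (hph : ∀ a ∈ p, ∀ i, G.c i a ∈ p)
    (hp : ∀ (i : ℤ) (r : A), G.c i r = r → r ∉ p → ∃ (m : ℕ) (r' : A), r' * r - t ^ m ∈ p)
    (hpp : ∀ a ∈ p, ∀ b ∈ p, ∀ x : M.X, (a * b) • x = 0) :
    ∃ W M2 : Submodule A M.X, Spl M t W M2 := by
  have hN : Sat M t (p • (⊤ : Submodule A M.X)) := r3sp_smul M hinj hsurj p hph
  have hZ : Sat M t (LinearMap.ker M.d) := r3sp_ker M hinj
  have hR : Sat M t (LinearMap.range M.d) := r3sp_range M hinj hsurj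
  have hRZ : LinearMap.range M.d ≤ LinearMap.ker M.d := by
    intro x hx
    obtain ⟨y, rfl⟩ := LinearMap.mem_range.1 hx
    exact LinearMap.mem_ker.2 (M.d_d y)
  have hpN : ∀ a ∈ p, ∀ x ∈ p • (⊤ : Submodule A M.X), a • x = 0 := by
    intro a ha x hx
    refine Submodule.smul_induction_on (p := fun x => a • x = 0) hx ?_ ?_
    · intro b hb y _
      rw [smul_smul]
      exact hpp a ha b hb y
    · intro y z hy hz
      rw [smul_add, hy, hz, add_zero]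
  obtain ⟨W, hW, -, hW2, hW3, hW4⟩ := exists_graded_compl M ht hinj hsurj p hp ⊥
    (p • (⊤ : Submodule A M.X) ⊓ LinearMap.range M.d) (p • (⊤ : Submodule A M.X) ⊓ LinearMap.ker M.d)
    (r3sp_bot M hinj) (r3sp_inf hN hR) (r3sp_inf hN hZ) bot_le (inf_le_inf_left _ hRZ)
    (fun a ha x hx => by
      rw [Submodule.mem_bot]
      exact hpN a ha x hx.1)
  obtain ⟨M2, hM2, hC1, -, hC3, hC4⟩ := exists_graded_compl M ht hinj hsurj p hp
    (LinearMap.range M.d ⊔ p • (⊤ : Submodule A M.X))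
    (LinearMap.ker M.d ⊔ p • (⊤ : Submodule A M.X)) ⊤
    (r3sp_sup hinj hsurj hR hN) (r3sp_sup hinj hsurj hZ hN) (r3sp_top M t)
    (sup_le_sup_right hRZ _) le_top
    (fun a ha x _ => Submodule.mem_sup_right (Submodule.smul_mem_smul ha Submodule.mem_top))
  have hWN : ∀ x ∈ W, x ∈ p • (⊤ : Submodule A M.X) := fun x hx => (hW2 hx).1
  have hWd : ∀ x ∈ W, (∃ y, M.d y = x) → x = 0 := by
    rintro x hx ⟨y, hy⟩
    have h : x ∈ (p • (⊤ : Submodule A M.X) ⊓ LinearMap.range M.d) ⊓ W :=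
      ⟨⟨hWN x hx, LinearMap.mem_range.2 ⟨y, hy⟩⟩, hx⟩
    rw [hW3] at h
    exact (Submodule.mem_bot A).1 h
  have hcyc : ∀ x, ∃ m ∈ M2, M.d (x - m) = 0 := by
    intro x
    have hx : x ∈ (LinearMap.ker M.d ⊔ p • (⊤ : Submodule A M.X)) ⊔ M2 := by
      rw [hC4]
      exact Submodule.mem_top
    obtain ⟨u, hu, m, hm, rfl⟩ := Submodule.mem_sup.1 hx
    obtain ⟨z, hz, n, hn, rfl⟩ := Submodule.mem_sup.1 hu
    refine ⟨n + m, Submodule.add_mem _ (hC1 (Submodule.mem_sup_right hn)) hm, ?_⟩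
    rw [show z + n + m - (n + m) = z by abel]
    exact LinearMap.mem_ker.1 hz
  refine ⟨W, M2, hW, hM2, fun x hx => hC1 (Submodule.mem_sup_right (hWN x hx)),
    fun x hx => LinearMap.mem_ker.1 (hW2 hx).2, hWd,
    fun x => hC1 (Submodule.mem_sup_left (LinearMap.mem_range.2 ⟨x, rfl⟩)), hcyc, ?_⟩
  intro x hx hdx
  have h0 : M.d x = 0 := hWd _ hdx ⟨x, rfl⟩
  refine ⟨h0, ?_⟩
  have h1 : x ∈ (LinearMap.ker M.d ⊔ p • (⊤ : Submodule A M.X)) ⊓ M2 :=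
    ⟨Submodule.mem_sup_left (LinearMap.mem_ker.2 h0), hx⟩
  rw [hC3] at h1
  obtain ⟨r, hr, n, hn, rfl⟩ := Submodule.mem_sup.1 h1
  obtain ⟨y, rfl⟩ := LinearMap.mem_range.1 hr
  rw [map_add, M.d_d, zero_add] at h0
  have h2 : n ∈ p • (⊤ : Submodule A M.X) ⊓ LinearMap.ker M.d := ⟨hn, LinearMap.mem_ker.2 h0⟩
  rw [← hW4] at h2
  obtain ⟨b, hb, w, hw, rfl⟩ := Submodule.mem_sup.1 h2
  obtain ⟨y', hy'⟩ := LinearMap.mem_range.1 hb.2
  obtain ⟨m, hm, hmd⟩ := hcyc (y + y')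
  refine ⟨m, hm, ?_⟩
  rw [map_sub, map_add, hy'] at hmd
  have h3 : M.d y + (b + w) - M.d m = (M.d y + b - M.d m) + w := by abel
  rw [h3, hmd, zero_add]
  exact hw

end MP8a
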