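import Pool.Agent.Lib_MP_8a48ad_gt.R3Fdh

/-! # Piece R3TB: elements which are bijective on the cohomology in large degrees -/

set_option autoImplicit false

namespace MP8a

universe u

section

variable {A : Type u} [CommRing A] {G : Gr A}

/-- `t` is bijective on the cohomology in degrees `≥ m` -/
def TB (M : DGM G) (t : A) (e m : ℤ) : Prop :=
  ∀ j, m ≤ j → (∀ x, M.pr j x = x → M.d x = 0 → (∃ y, M.d y = t • x) → ∃ y, M.d y = x) ∧
    ∀ y, M.pr (j + e) y = y → M.d y = 0 → ∃ x z, M.pr j x = x ∧ M.d x = 0 ∧ y = t • x + M.d z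

/-- PROOF. Induction on `r`. -/
theorem TB.pow {M : DGM G} {t : A} {e m : ℤ} (he : 0 ≤ e) (ht : G.c e t = t) (h : TB M t e m)
    (r : ℕ) : TB M (t ^ r) (r * e) m := by
  induction r with
  | zero =>
    intro j hj
    constructor
    · rintro x _ _ ⟨y, hy⟩
      refine ⟨y, ?_⟩
      rw [hy, pow_zero, one_smul]
    · intro y hy hdy
      refine ⟨y, 0, ?_, hdy, ?_⟩
      · have h0 : j + ((0 : ℕ) : ℤ) * e = j := by simp
        rw [h0] at hy
        exact hy
      · rw [map_zero, add_zero, pow_zero, one_smul]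
  | succ r ih =>
    intro j hj
    have hre : m ≤ j + r * e := by
      have : 0 ≤ (r : ℤ) * e := mul_nonneg (Int.natCast_nonneg r) he
      linarith
    obtain ⟨ih1, ih2⟩ := ih j hj
    obtain ⟨h1, h2⟩ := h (j + r * e) hre
    constructor
    · rintro x hx hdx ⟨y, hy⟩
      refine ih1 x hx hdx ?_
      refine h1 (t ^ r • x) ?_ ?_ ⟨y, ?_⟩
      · have h3 := M.pr_smul (G.pow_hom ht r) j x
        rw [hx, add_comm] at h3
        exact h3
      · rw [map_smul, hdx, smul_zero]
      · rw [hy, smul_smul, pow_succ, mul_comm]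
    · intro y hy hdy
      have h0 : j + ((r + 1 : ℕ) : ℤ) * e = j + r * e + e := by
        push_cast
        ring
      rw [h0] at hy
      obtain ⟨x1, z1, hx1, hdx1, hy1⟩ := h2 y hy hdy
      obtain ⟨x, z, hx, hdx, hxz⟩ := ih2 x1 hx1 hdx1
      refine ⟨x, t • z + z1, hx, hdx, ?_⟩
      rw [hy1, hxz, smul_add, smul_smul, map_add, map_smul, ← add_assoc, ← pow_succ']

/-- PROOF. `M.mc ht he` is the cone of `t : M → M[e]`. If `x` is a cycle of degree `j` of `M` and `t x = d y` (`y` of degree `j + e - 1`), then `(- y, x)` is a cycle of degree `j - 1` of the cone; if it is a boundary then `x = - d x'`. If `y` is a cycle of degree `j + e`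
then `(y, 0)` is a cycle of degree `j` of the cone; if it is the boundary of `(z, x)` then `y = d z + t x`, `d x = 0`. So `m = b + 1` works (degrees may be restricted by taking components). -/
theorem TB_of_HV {M : DGM G} {t : A} {e b : ℤ} (ht : G.c e t = t) (he : Even e)
    (h : ∀ j, b ≤ j → HV (M.mc ht he) j) : TB M t e (b + 1) := by
  have hd : ∀ z w : M.X, (M.mc ht he).d (z, w) = (M.d z + t • w, -(M.d w)) := by
    intro z w
    rw [DGM.cone_d, DGM.sh_d_even M he]
    rfl
  intro j hj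
  constructor
  · rintro x hx hdx ⟨y, hy⟩
    have hy' : M.d (M.pr (j + e - 1) y) = t • x := by
      rw [← M.pr_d, sub_add_cancel, hy, add_comm j e, M.pr_smul ht, hx]
    have h1 := h (j - 1) (by linarith) ((-(M.pr (j + e - 1) y), x) : M.X × M.X) (by
      refine Prod.ext ?_ ?_
      · change M.pr (j - 1 + e) (-(M.pr (j + e - 1) y)) = -(M.pr (j + e - 1) y)
        have h2 : j - 1 + e = j + e - 1 := by ring
        rw [h2, map_neg, M.pr_self]
      · change M.pr (j - 1 + 1) x = x
        rw [sub_add_cancel]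
        exact hx) (by
      rw [hd, map_neg, hy', hdx, neg_add_cancel, neg_zero]
      rfl)
    obtain ⟨⟨z, w⟩, hzw⟩ := h1
    rw [hd] at hzw
    have h3 : -(M.d w) = x := congrArg Prod.snd hzw
    exact ⟨-w, by rw [map_neg, h3]⟩
  · intro y hy hdy
    have h1 := h j (by linarith) ((y, 0) : M.X × M.X) (by
      refine Prod.ext ?_ ?_
      · exact hy
      · exact (M.pr (j + 1)).map_zero) (by
      rw [hd, hdy, smul_zero, add_zero, map_zero, neg_zero]
      rfl)
    obtain ⟨⟨z, w⟩, hzw⟩ := h1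
    rw [hd] at hzw
    have h2 : M.d z + t • w = y := congrArg Prod.fst hzw
    have h3 : -(M.d w) = 0 := congrArg Prod.snd hzw
    rw [neg_eq_zero] at h3
    refine ⟨M.pr j w, M.pr (j + e - 1) z, M.pr_self j w, ?_, ?_⟩
    · rw [← M.pr_d, h3, map_zero]
    · rw [← M.pr_d, sub_add_cancel, ← M.pr_smul ht, add_comm e j, ← map_add, add_comm (t • w), h2, hy]

end

/-- `H^j(N)` is finite dimensional for all `j`. PROOF. For a homogeneous cycle `y ∈ N` of degree `j` choose `r` with `j + r e ≥ m`: `t^r y = φ x + d z` with `x` a homogeneous cycle of degree `j + r e` of `P`, and `x = d x' + ∑ c_i z_i`; so `t^r y = d z' + ∑ c_i φ z_i` and `y` is in `range d + span_k` of the preimages of the `φ z_i` under `t^r`. -/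
theorem FDj_of_HIs {k : Type u} [Field k] {R : Type u} [CommRing R] [Algebra k R] {GR : Gr R}
    {P N : DGM GR} {φ : P.X →ₗ[R] N.X} (hφ : IsMor P N 0 φ) {m : ℤ} (h : HIs P N φ m)
    (hP : ∀ j, FDj k P j) {e : ℤ} (he : 0 < e) {t : R} (ht : GR.c e t = t)
    (hinj : ∀ x : N.X, t • x = 0 → x = 0) (hsurj : ∀ x : N.X, ∃ y, t • y = x) (j : ℤ) : FDj k N j := by
  have hinjr : ∀ (r : ℕ) (x : N.X), t ^ r • x = 0 → x = 0 := by
    intro r
    induction r with
    | zero => intro x hx; rwa [pow_zero, one_smul] at hx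
    | succ r ih =>
      intro x hx
      rw [pow_succ, mul_smul] at hx
      exact hinj x (ih _ hx)
  have hsurjr : ∀ (r : ℕ) (x : N.X), ∃ y, t ^ r • y = x := by
    intro r
    induction r with
    | zero => intro x; exact ⟨x, by rw [pow_zero, one_smul]⟩
    | succ r ih =>
      intro x
      obtain ⟨y, hy⟩ := ih x
      obtain ⟨y', hy'⟩ := hsurj y
      exact ⟨y', by rw [pow_succ, mul_smul, hy', hy]⟩
  obtain ⟨r, hr⟩ : ∃ r : ℕ, m ≤ j + r * e := by
    refine ⟨(m - j).toNat, ?_⟩
    have h1 : m - j ≤ ((m - j).toNat : ℤ) := Int.self_le_toNat _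
    have h2 : ((m - j).toNat : ℤ) ≤ ((m - j).toNat : ℤ) * e := by
      have h3 : (0 : ℤ) ≤ ((m - j).toNat : ℤ) := Int.natCast_nonneg _
      nlinarith
    linarith
  obtain ⟨l, z, hz⟩ := hP (j + r * e)
  choose w hw using fun i => hsurjr r (φ (z i))
  refine ⟨l, w, fun y hy hdy => ?_⟩
  obtain ⟨x, z', hx, hdx, hyz⟩ := (h (j + r * e) hr).2 (t ^ r • y) (by
    have h3 := N.pr_smul (GR.pow_hom ht r) j y
    rw [hy, add_comm] at h3
    exact h3) (by rw [map_smul, hdy, smul_zero])
  obtain ⟨x', c, hxc⟩ := hz x hx hdx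
  obtain ⟨z'', hz''⟩ := hsurjr r (φ x' + z')
  refine ⟨z'', c, ?_⟩
  rw [← sub_eq_zero]
  refine hinjr r _ ?_
  rw [smul_sub, hyz, hxc, map_add, ← hφ.d, map_sum, smul_add, ← map_smul N.d, hz'', map_add,
    Finset.smul_sum]
  have h4 : ∑ i, t ^ r • algebraMap k R (c i) • w i = ∑ i, φ (algebraMap k R (c i) • z i) := by
    refine Finset.sum_congr rfl fun i _ => ?_
    rw [smul_comm, hw, map_smul]
  rw [h4]
  abel

end MP8a
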