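import Pool.Agent.Lib_MP_8a48ad_gt.R3Defs

/-! # Piece R3THS: the theorem for the polynomial ring -/

set_option autoImplicit false

namespace MP8a

universe u

variable {k : Type u} [Field k] {n : ℕ}

theorem r3ths_setup : Setup k n (R := Sn k n) (grS k n) where
  tower := IsScalarTower.right
  compat := fun _ _ => rfl
  fin := Module.Finite.self _
  noeth := inferInstance
  rho := ⟨LinearMap.id, rfl, fun _ _ => rfl⟩

theorem r3ths_isol : Isol k n (R := Sn k n) (grS k n) := by
  refine ⟨n, fun i => MvPolynomial.X i, fun _ => 2, fun _ => even_two, fun i => grS_X i, fun i => ?_, ?_⟩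
  · refine ⟨1, fun _ => LinearMap.id, fun _ => MvPolynomial.X i, fun s => ?_⟩
    rw [Fin.sum_univ_one, mul_comm]
    rfl
  · refine Module.Finite.of_surjective (Algebra.linearMap k
      (Sn k n ⧸ Ideal.span (Set.range fun i : Fin n => (MvPolynomial.X i : Sn k n)))) ?_
    intro y
    obtain ⟨s, rfl⟩ := Ideal.Quotient.mk_surjective y
    refine ⟨MvPolynomial.constantCoeff s, ?_⟩
    rw [Algebra.linearMap_apply, ← Ideal.Quotient.mk_algebraMap, Ideal.Quotient.eq]
    have h := sub_constantCoeff_mem (R := Sn k n) s
    have h2 : s - MvPolynomial.C (MvPolynomial.constantCoeff s) ∈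
        Ideal.span (Set.range fun i : Fin n => (MvPolynomial.X i : Sn k n)) := by
      refine Ideal.span_mono ?_ (show s - MvPolynomial.C (MvPolynomial.constantCoeff s) ∈
        Ideal.span {s : Sn k n | ∃ i : Fin n, (i : ℕ) < n ∧ s = MvPolynomial.X i} from h)
      rintro _ ⟨i, _, rfl⟩
      exact ⟨i, rfl⟩
    rw [← Ideal.neg_mem_iff, neg_sub]
    exact h2

/-- The theorem for `R = S`: PROOF. `Setup k n (grS k n)` with `R = S` (the algebra `S → S` is `Algebra.id`; `ρ = id`), every `f` satisfies `JJ` (`τ = id`, `x = f`), and `Isol` holds with the elements `X_i`: `S / (X_i) = k`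
(`MvPolynomial`: every polynomial is congruent to its constant coefficient; `IX`, `sub_constantCoeff_mem` in `KinS.lean`). Use `thick_of_isol`. -/
theorem thick_S {T : DGM (grS k n) → Prop} (hT : IsThick T) (h : T (regM (grS k n))) {N : DGM (grS k n)}
    (hN : FG N) : T N := by
  exact thick_of_isol r3ths_setup r3ths_isol hT h hN

end MP8a
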