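import Pool.Agent.Lib_MP_8a48ad_gt.R3Fgc

/-! # Piece R3TR: good truncations -/

set_option autoImplicit false

namespace MP8a

universe u

variable {k : Type u} [Field k] {n : ℕ} {R : Type u} [CommRing R] [Algebra k R]
  [Algebra R (Sn k n)] {GR : Gr R}

/-- `U` is a good truncation of `M` in degree `m`: `U_j = 0` for `j < m`, `U_j = M_j` for `j > m`, and `U_m` is a complement of the boundaries in `M_m`. -/
structure GT (M : DGM GR) (m : ℤ) (U : Submodule R M.X) : Prop where
  pr : ∀ i, ∀ x ∈ U, M.pr i x ∈ U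
  d : ∀ x ∈ U, M.d x ∈ U
  low : ∀ j, j < m → ∀ x ∈ U, M.pr j x = 0
  high : ∀ j, m < j → ∀ x, M.pr j x = x → x ∈ U
  mid : ∀ x, M.pr m x = x → ∃ y u, u ∈ U ∧ M.pr m u = u ∧ x = M.d y + u
  bd : ∀ x ∈ U, M.pr m x = x → (∃ y, M.d y = x) → x = 0

/-- PROOF. `exists_cpl hS M m` gives the `k`-subspace `D` of `M_m`; `U = {x | pr m x ∈ D, pr j x = 0 for j < m}` is an `R`-submodule, because a homogeneous `a ∈ R` has degree `> 0`, or degree `0` and is in
`k` (`Setup.c_neg`, `Setup.c_zero`; `DGM.pr_smul'`, `Gr.ind`), and stable under `d` (`DGM.pr_d`: the components of `d x` in degrees `≤ m` vanish). -/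
theorem exists_GT (hS : Setup k n GR) (M : DGM GR) (m : ℤ) : ∃ U : Submodule R M.X, GT M m U := by
  obtain ⟨D, hD0, hDa, hDi, hDs, hDb, hDd⟩ := exists_cpl hS M m
  let U : Submodule R M.X :=
    { carrier := {x | (∀ j, j < m → M.pr j x = 0) ∧ M.pr m x ∈ D}
      add_mem' := fun {x y} hx hy => by
        refine ⟨fun j hj => ?_, ?_⟩
        · rw [map_add, hx.1 j hj, hy.1 j hj, add_zero]
        · rw [map_add]
          exact hDa _ hx.2 _ hy.2
      zero_mem' := ⟨fun j _ => map_zero _, by rw [map_zero]; exact hD0⟩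
      smul_mem' := fun a x hx => by
        refine GR.ind (P := fun a => (∀ j, j < m → M.pr j (a • x) = 0) ∧ M.pr m (a • x) ∈ D)
          ?_ ?_ ?_ a
        · rw [zero_smul]
          exact ⟨fun j _ => map_zero _, by rw [map_zero]; exact hD0⟩
        · intro a b ha hb
          rw [add_smul]
          refine ⟨fun j hj => ?_, ?_⟩
          · rw [map_add, ha.1 j hj, hb.1 j hj, add_zero]
          · rw [map_add]
            exact hDa _ ha.2 _ hb.2
        · intro e a ha
          rcases lt_trichotomy e 0 with he | he | he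
          · have ha0 : a = 0 := by
              rw [← ha]
              exact hS.c_neg he a
            rw [ha0, zero_smul]
            exact ⟨fun j _ => map_zero _, by rw [map_zero]; exact hD0⟩
          · subst he
            refine ⟨fun j hj => ?_, ?_⟩
            · rw [M.pr_smul' ha, sub_zero, hx.1 j hj, smul_zero]
            · rw [M.pr_smul' ha, sub_zero]
              obtain ⟨r, hr⟩ := hS.c_zero a
              rw [ha] at hr
              rw [hr]
              exact hDs r _ hx.2
          · refine ⟨fun j hj => ?_, ?_⟩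
            · rw [M.pr_smul' ha, hx.1 (j - e) (by omega), smul_zero]
            · rw [M.pr_smul' ha, hx.1 (m - e) (by omega), smul_zero]
              exact hD0 }
  have hUm : ∀ x, x ∈ U ↔ (∀ j, j < m → M.pr j x = 0) ∧ M.pr m x ∈ D := fun _ => Iff.rfl
  have hprd : ∀ j x, M.pr j (M.d x) = M.d (M.pr (j - 1) x) := by
    intro j x
    have h2 := M.pr_d (j - 1) x
    rw [sub_add_cancel] at h2
    exact h2
  refine ⟨U, ⟨?_, ?_, ?_, ?_, ?_, ?_⟩⟩
  · intro j x hx
    rw [hUm] at hx ⊢
    refine ⟨fun l hl => ?_, ?_⟩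
    · rw [M.pr_pr]
      by_cases h : l = j
      · rw [if_pos h, ← h, hx.1 l hl]
      · rw [if_neg h]
    · rw [M.pr_pr]
      by_cases h : m = j
      · rw [if_pos h, ← h]
        exact hx.2
      · rw [if_neg h]
        exact hD0
  · intro x hx
    rw [hUm] at hx ⊢
    refine ⟨fun l hl => ?_, ?_⟩
    · rw [hprd, hx.1 (l - 1) (by omega), map_zero]
    · rw [hprd, hx.1 (m - 1) (by omega), map_zero]
      exact hD0
  · intro j hj x hx
    exact ((hUm x).1 hx).1 j hj
  · intro j hj x hx
    rw [hUm]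
    refine ⟨fun l hl => M.pr_ne hx (by omega), ?_⟩
    rw [M.pr_ne hx (by omega)]
    exact hD0
  · intro x hx
    obtain ⟨y, v, hv, hyv⟩ := hDd x hx
    have hvi := hDi v hv
    refine ⟨y, v, ?_, hvi, hyv⟩
    rw [hUm]
    refine ⟨fun l hl => M.pr_ne hvi (by omega), ?_⟩
    rw [hvi]
    exact hv
  · intro x hx hxm hy
    have h1 := ((hUm x).1 hx).2
    rw [hxm] at h1
    exact hDb x h1 hy

/-- PROOF. A homogeneous cycle of degree `j ≥ m + 1` of `M` is in `U`; if it is the boundary `d y`, then (taking the component of degree `j - 1`) `y` is in `U` if `j > m + 1`, and if `j = m + 1` then `y = d y' + u` (`mid`), `d y = d u`. -/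
theorem GT.his {M : DGM GR} {m : ℤ} {U : Submodule R M.X} (hU : GT M m U) :
    HIs (M.sub U hU.pr hU.d) M U.subtype (m + 1) := by
  have hprd : ∀ j x, M.pr j (M.d x) = M.d (M.pr (j - 1) x) := by
    intro j x
    have h2 := M.pr_d (j - 1) x
    rw [sub_add_cancel] at h2
    exact h2
  intro j hj
  constructor
  · intro x hx _ y hy
    have hx' : M.pr j x.1 = x.1 := congrArg Subtype.val hx
    have hy' : M.d y = x.1 := hy
    have h1 : M.d (M.pr (j - 1) y) = x.1 := by
      rw [← hprd, hy', hx']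
    by_cases h : m < j - 1
    · exact ⟨⟨M.pr (j - 1) y, hU.high (j - 1) h _ (M.pr_self _ _)⟩, Subtype.ext h1⟩
    · have h2 : j - 1 = m := by omega
      rw [h2] at h1
      obtain ⟨y', v, hv, _, hyv⟩ := hU.mid (M.pr m y) (M.pr_self _ _)
      refine ⟨⟨v, hv⟩, Subtype.ext ?_⟩
      show M.d v = x.1
      rw [← h1, hyv, map_add, M.d_d, zero_add]
  · intro y hy hdy
    exact ⟨⟨y, hU.high j (by omega) y hy⟩, 0, Subtype.ext hy, Subtype.ext hdy, by
      rw [map_zero, add_zero]
      rfl⟩

end MP8a
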