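import Mathlib

/-! # Stage 3: normal form of a plane representation (definitions), Piece R3UVA -/

set_option autoImplicit false

namespace MP8a

universe u

section

variable {F F' : Type u} [Field F] [Field F'] [Algebra F F'] {N : Type*} [Group N]

/-- the action of `w` on vectors with coefficients in the extension field `F'` -/
noncomputable def mv (F' : Type u) [Field F'] [Algebra F F'] (M : N →* GL (Fin 2) F) (w : N)
    (x : Fin 2 → F') : Fin 2 → F' :=
  ((M w : Matrix (Fin 2) (Fin 2) F).map (algebraMap F F')).mulVec x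

/-- `u, v` is a basis of `F'²`, elements with `δ = 1` act by `(ζ, ζ⁻¹)` and elements with `δ = -1` act by `u ↦ ζ v`, `v ↦ ζ⁻¹ u`; `u + v` and `u v` are defined over `F`. -/
structure UV (M : N →* GL (Fin 2) F) (δ : N →* ℤˣ) (u v : Fin 2 → F') : Prop where
  ind : u 0 * v 1 - u 1 * v 0 ≠ 0
  one : ∀ w, δ w = 1 → ∃ ζ : F', ζ ≠ 0 ∧ mv F' M w u = ζ • u ∧ mv F' M w v = ζ⁻¹ • v
  neg : ∀ w, δ w = -1 → ∃ ζ : F', ζ ≠ 0 ∧ mv F' M w u = ζ • v ∧ mv F' M w v = ζ⁻¹ • u
  sum : ∃ x : Fin 2 → F, ∀ i, u i + v i = algebraMap F F' (x i)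
  prod : ∃ a b c : F, u 0 * v 0 = algebraMap F F' a ∧ u 0 * v 1 + u 1 * v 0 = algebraMap F F' b ∧
    u 1 * v 1 = algebraMap F F' c

/-- determinant of two vectors -/
private def uvD {L : Type*} [Field L] (x y : Fin 2 → L) : L := x 0 * y 1 - x 1 * y 0

private theorem uv_mul0 {L : Type*} [Field L] (H : Matrix (Fin 2) (Fin 2) L) (x : Fin 2 → L) :
    H.mulVec x 0 = H 0 0 * x 0 + H 0 1 * x 1 := by
  simp [Matrix.mulVec, dotProduct, Fin.sum_univ_two]

private theorem uv_mul1 {L : Type*} [Field L] (H : Matrix (Fin 2) (Fin 2) L) (x : Fin 2 → L) :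
    H.mulVec x 1 = H 1 0 * x 0 + H 1 1 * x 1 := by
  simp [Matrix.mulVec, dotProduct, Fin.sum_univ_two]

private theorem uvD_mulVec {L : Type*} [Field L] (H : Matrix (Fin 2) (Fin 2) L)
    (x y : Fin 2 → L) : uvD (H.mulVec x) (H.mulVec y) = H.det * uvD x y := by
  simp only [uvD, uv_mul0, uv_mul1, Matrix.det_fin_two]
  ring

private theorem uvD_smul {L : Type*} [Field L] (a b : L) (x y : Fin 2 → L) :
    uvD (a • x) (b • y) = a * b * uvD x y := by
  simp only [uvD, Pi.smul_apply, smul_eq_mul]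
  ring

private theorem uvD_par {L : Type*} [Field L] {u v y : Fin 2 → L} (h : uvD u v ≠ 0)
    (h' : uvD v y = 0) : ∃ p : L, y = p • v := by
  refine ⟨uvD u y / uvD u v, ?_⟩
  funext i
  rw [Pi.smul_apply, smul_eq_mul, div_mul_eq_mul_div, eq_div_iff h]
  fin_cases i
  · simp only [uvD, Fin.zero_eta] at h' ⊢
    linear_combination (-(u 0)) * h'
  · simp only [uvD, Fin.mk_one] at h' ⊢
    linear_combination (-(u 1)) * h'

private theorem uvD_anti {L : Type*} [Field L] (x y : Fin 2 → L) : uvD y x = -uvD x y := by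
  simp only [uvD]
  ring

private theorem uvD_zero {L : Type*} [Field L] (x : Fin 2 → L) : uvD 0 x = 0 := by
  simp [uvD]

/-- not scalar -/
private def uvNS {L : Type*} [Field L] (H : Matrix (Fin 2) (Fin 2) L) : Prop :=
  ¬(H 0 1 = 0 ∧ H 1 0 = 0 ∧ H 0 0 = H 1 1)

private theorem uv_disc {L : Type*} [Field L] (H : Matrix (Fin 2) (Fin 2) L)
    (hdet : H.det = 1) (n : ℕ) (hn : (n : L) ≠ 0) (hpow : H ^ n = 1) (hns : uvNS H) :
    (H 0 0 + H 1 1) ^ 2 - 4 ≠ 0 := by
  intro h4
  obtain ⟨ε, hε, hτ⟩ : ∃ ε : L, ε * ε = 1 ∧ H 0 0 + H 1 1 = 2 * ε := by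
    have h5 : (H 0 0 + H 1 1 - 2) * (H 0 0 + H 1 1 + 2) = 0 := by linear_combination h4
    rcases mul_eq_zero.1 h5 with h | h
    · exact ⟨1, by ring, by linear_combination h⟩
    · exact ⟨-1, by ring, by linear_combination h⟩
  obtain ⟨E, hE⟩ : ∃ E : Matrix (Fin 2) (Fin 2) L, H = ε • (1 : Matrix (Fin 2) (Fin 2) L) + E :=
    ⟨H - ε • (1 : Matrix (Fin 2) (Fin 2) L), by abel⟩
  have e00 : H 0 0 = ε + E 0 0 := by rw [hE]; simp
  have e01 : H 0 1 = E 0 1 := by rw [hE]; simp
  have e10 : H 1 0 = E 1 0 := by rw [hE]; simp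
  have e11 : H 1 1 = ε + E 1 1 := by rw [hE]; simp
  rw [Matrix.det_fin_two, e00, e01, e10, e11] at hdet
  rw [e00, e11] at hτ
  have h0 : E 0 0 + E 1 1 = 0 := by linear_combination hτ
  have h1 : E 0 0 * E 1 1 - E 0 1 * E 1 0 = 0 := by
    linear_combination hdet - hε - ε * h0
  have hEE : E * E = 0 := by
    ext i j
    rw [Matrix.mul_apply, Fin.sum_univ_two, Matrix.zero_apply]
    fin_cases i <;> fin_cases j <;> simp only [Fin.zero_eta, Fin.mk_one]
    · linear_combination E 0 0 * h0 - h1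
    · linear_combination E 0 1 * h0
    · linear_combination E 1 0 * h0
    · linear_combination E 1 1 * h0 - h1
  have hp : ∀ n : ℕ, H ^ n = ε ^ n • (1 : Matrix (Fin 2) (Fin 2) L) + (n * ε ^ (n + 1)) • E := by
    intro n
    induction n with
    | zero => simp
    | succ n ih =>
      rw [pow_succ, ih]
      nth_rewrite 1 [hE]
      rw [add_mul, mul_add, mul_add, smul_mul_assoc, smul_mul_assoc, smul_mul_assoc,
        smul_mul_assoc, mul_smul_comm, mul_smul_comm, hEE, smul_zero, add_zero, one_mul, one_mul,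
        mul_one, smul_smul, smul_smul, ← pow_succ, add_assoc, ← add_smul]
      congr 2
      push_cast
      have h2 : ε ^ (n + 1 + 1) = ε ^ n := by
        rw [pow_succ, pow_succ, mul_assoc, hε, mul_one]
      have h3 : ε ^ (n + 1) * ε = ε ^ n := by
        rw [pow_succ, mul_assoc, hε, mul_one]
      rw [h2, mul_assoc, h3]
      ring
  have hq := hp n
  rw [hpow] at hq
  have hc : (n : L) * ε ^ (n + 1) ≠ 0 := by
    refine mul_ne_zero hn (pow_ne_zero _ ?_)
    rintro rfl
    simp at hε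
  apply hns
  rw [e00, e01, e10, e11]
  have q01 := congrFun (congrFun hq 0) 1
  have q10 := congrFun (congrFun hq 1) 0
  have q00 := congrFun (congrFun hq 0) 0
  have q11 := congrFun (congrFun hq 1) 1
  simp only [Matrix.add_apply, Matrix.smul_apply, smul_eq_mul, Matrix.one_apply_eq, mul_one] at q00 q11
  simp only [Matrix.add_apply, Matrix.smul_apply, smul_eq_mul, ne_eq, zero_ne_one, one_ne_zero,
    not_false_eq_true, Matrix.one_apply_ne, mul_zero, zero_add] at q01 q10
  refine ⟨?_, ?_, ?_⟩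
  · exact (mul_eq_zero.1 q01.symm).resolve_left hc
  · exact (mul_eq_zero.1 q10.symm).resolve_left hc
  · have h5 : (n * ε ^ (n + 1)) * (E 0 0 - E 1 1) = 0 := by linear_combination q11 - q00
    have h6 := (mul_eq_zero.1 h5).resolve_left hc
    linear_combination h6

private theorem uv_exists {L : Type*} [Field L] (H : Matrix (Fin 2) (Fin 2) L) (hns : uvNS H) :
    ∃ x : Fin 2 → L, uvD x (H.mulVec x) ≠ 0 := by
  by_contra hcon
  push Not at hcon
  have h1 := hcon ![1, 0]
  have h2 := hcon ![0, 1]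
  have h3 := hcon ![1, 1]
  simp only [uvD, uv_mul0, uv_mul1, Matrix.cons_val_zero, Matrix.cons_val_one, mul_one, mul_zero,
    one_mul, zero_mul, add_zero, zero_add, sub_zero, zero_sub] at h1 h2 h3
  apply hns
  have h2' : H 0 1 = 0 := neg_eq_zero.1 h2
  exact ⟨h2', h1, by rw [h1, h2'] at h3; linear_combination -h3⟩

private theorem uv_eig {L : Type*} [Field L] (H : Matrix (Fin 2) (Fin 2) L) {x : Fin 2 → L}
    (hx : x ≠ 0) (h : uvD x (H.mulVec x) = 0) : ∃ c : L, H.mulVec x = c • x := by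
  have h0 : x 0 ≠ 0 ∨ x 1 ≠ 0 := by
    by_contra hcon
    push Not at hcon
    apply hx
    funext i
    fin_cases i
    · exact hcon.1
    · exact hcon.2
  rw [uvD] at h
  rcases h0 with h0 | h0
  · refine ⟨H.mulVec x 0 / x 0, ?_⟩
    funext i
    rw [Pi.smul_apply, smul_eq_mul, div_mul_eq_mul_div, eq_div_iff h0]
    fin_cases i
    · simp only [Fin.zero_eta]
    · simp only [Fin.mk_one]
      linear_combination h
  · refine ⟨H.mulVec x 1 / x 1, ?_⟩
    funext i
    rw [Pi.smul_apply, smul_eq_mul, div_mul_eq_mul_div, eq_div_iff h0]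
    fin_cases i
    · simp only [Fin.zero_eta]
      linear_combination -h
    · simp only [Fin.mk_one]

private theorem uv_CH {L : Type*} [Field L] (H : Matrix (Fin 2) (Fin 2) L) (hdet : H.det = 1)
    (x : Fin 2 → L) :
    H.mulVec (H.mulVec x) = (H 0 0 + H 1 1) • H.mulVec x - x := by
  rw [Matrix.det_fin_two] at hdet
  funext i
  rw [Pi.sub_apply, Pi.smul_apply, smul_eq_mul]
  fin_cases i
  · simp only [Fin.zero_eta]
    rw [uv_mul0, uv_mul0, uv_mul1]
    linear_combination (-(x 0)) * hdet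
  · simp only [Fin.mk_one]
    rw [uv_mul1, uv_mul0, uv_mul1]
    linear_combination (-(x 1)) * hdet

private theorem uv_mv_mul (M : N →* GL (Fin 2) F) (a b : N) (x : Fin 2 → F') :
    mv F' M (a * b) x = mv F' M a (mv F' M b x) := by
  unfold mv
  rw [map_mul, Units.val_mul, Matrix.map_mul, Matrix.mulVec_mulVec]

private theorem uv_mv_congr (M : N →* GL (Fin 2) F) {a b : N} (h : M a = M b) (x : Fin 2 → F') :
    mv F' M a x = mv F' M b x := by
  unfold mv
  rw [h]

private theorem uv_mv_id (M : N →* GL (Fin 2) F) {a : N} (h : M a = 1) (x : Fin 2 → F') :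
    mv F' M a x = x := by
  unfold mv
  rw [h, Units.val_one, Matrix.map_one _ (map_zero _) (map_one _), Matrix.one_mulVec]

private theorem uv_mv_smul (M : N →* GL (Fin 2) F) (a : N) (c : F') (x : Fin 2 → F') :
    mv F' M a (c • x) = c • mv F' M a x := by
  unfold mv
  rw [Matrix.mulVec_smul]

private theorem uv_mv_add (M : N →* GL (Fin 2) F) (a : N) (x y : Fin 2 → F') :
    mv F' M a (x + y) = mv F' M a x + mv F' M a y := by
  unfold mv
  rw [Matrix.mulVec_add]

private theorem uv_mv_alg (M : N →* GL (Fin 2) F) (a : N) (x : Fin 2 → F) :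
    mv F' M a (fun i => algebraMap F F' (x i)) =
      fun i => algebraMap F F' ((M a : Matrix (Fin 2) (Fin 2) F).mulVec x i) := by
  funext i
  unfold mv
  rw [RingHom.map_mulVec]
  rfl

private theorem uv_mv_D (M : N →* GL (Fin 2) F) (δ : N →* ℤˣ)
    (hδ : ∀ w, (M w : Matrix (Fin 2) (Fin 2) F).det = ((δ w : ℤ) : F)) (a : N) (x y : Fin 2 → F') :
    uvD (mv F' M a x) (mv F' M a y) = ((δ a : ℤ) : F') * uvD x y := by
  unfold mv
  rw [uvD_mulVec]
  congr 1
  have h := (algebraMap F F').map_det (M a : Matrix (Fin 2) (Fin 2) F)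
  rw [hδ, map_intCast] at h
  rw [h]
  rfl

private theorem uv_root [IsAlgClosed F'] (t : F') : ∃ ζ : F', ζ ^ 2 - t * ζ + 1 = 0 := by
  have hdeg : (Polynomial.X ^ 2 - Polynomial.C t * Polynomial.X + 1 : Polynomial F').degree = 2 := by
    compute_degree!
  obtain ⟨ζ, hζ⟩ := IsAlgClosed.exists_root
    (Polynomial.X ^ 2 - Polynomial.C t * Polynomial.X + 1 : Polynomial F') (by rw [hdeg]; decide)
  refine ⟨ζ, ?_⟩
  simpa [Polynomial.IsRoot.def] using hζ

private theorem uv_scalar {L : Type*} [Field L] (H : Matrix (Fin 2) (Fin 2) L) (hdet : H.det = 1)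
    (hs : ¬uvNS H) : ∃ c : L, c * c = 1 ∧ H = c • (1 : Matrix (Fin 2) (Fin 2) L) := by
  unfold uvNS at hs
  rw [not_not] at hs
  obtain ⟨h01, h10, h00⟩ := hs
  rw [Matrix.det_fin_two, h01, h10, ← h00] at hdet
  refine ⟨H 0 0, by linear_combination hdet, ?_⟩
  ext i j
  fin_cases i <;> fin_cases j
  · simp
  · simp [h01]
  · simp [h10]
  · simp [h00]

private theorem uv_engine (M : N →* GL (Fin 2) F) (δ : N →* ℤˣ)
    (hδ : ∀ w, (M w : Matrix (Fin 2) (Fin 2) F).det = ((δ w : ℤ) : F))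
    (hC1 : ∀ a b, δ a = 1 → δ b = 1 → M a * M b = M b * M a) (hC2 : ∀ a, δ a = -1 → M a * M a = 1)
    (h : N) (hh : δ h = 1) (τ : F)
    (hτ : (M h : Matrix (Fin 2) (Fin 2) F) 0 0 + (M h : Matrix (Fin 2) (Fin 2) F) 1 1 = τ)
    (ζ : F') (hζ : ζ ^ 2 - algebraMap F F' τ * ζ + 1 = 0) (hdisc : τ ^ 2 - 4 ≠ 0)
    (x : Fin 2 → F) (hx : uvD x ((M h : Matrix (Fin 2) (Fin 2) F).mulVec x) ≠ 0) :
    ∃ u v : Fin 2 → F', UV M δ u v ∧ ∀ i, u i + v i = algebraMap F F' (x i) := by
  have hdet : (M h : Matrix (Fin 2) (Fin 2) F).det = 1 := by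
    rw [hδ, hh]
    simp
  have hζ0 : ζ ≠ 0 := by
    rintro rfl
    simp at hζ
  obtain ⟨η, hη⟩ : ∃ η, ζ * η = 1 := ⟨ζ⁻¹, mul_inv_cancel₀ hζ0⟩
  have hη0 : η ≠ 0 := right_ne_zero_of_mul_eq_one hη
  set τ' : F' := algebraMap F F' τ with hτ'
  have hsum : ζ + η = τ' := by linear_combination η * hζ - (ζ - τ') * hη
  have hDD : (ζ - η) ^ 2 = algebraMap F F' (τ ^ 2 - 4) := by
    rw [map_sub, map_pow, ← hτ', ← hsum]
    have h4 : algebraMap F F' 4 = 4 := map_ofNat _ 4
    rw [h4]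
    linear_combination (-4) * hη
  have hD : ζ - η ≠ 0 := by
    intro h0
    rw [h0] at hDD
    apply hdisc
    apply (algebraMap F F').injective
    rw [← hDD, map_zero]
    ring
  obtain ⟨d, hd⟩ : ∃ d, d * (ζ - η) = 1 := ⟨(ζ - η)⁻¹, inv_mul_cancel₀ hD⟩
  have hd0 : d ≠ 0 := left_ne_zero_of_mul_eq_one hd
  set y : Fin 2 → F := (M h : Matrix (Fin 2) (Fin 2) F).mulVec x with hy
  set X : Fin 2 → F' := fun i => algebraMap F F' (x i) with hX
  set Y : Fin 2 → F' := fun i => algebraMap F F' (y i) with hY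
  have HX : mv F' M h X = Y := uv_mv_alg M h x
  have HY : mv F' M h Y = τ' • Y - X := by
    have h1 := uv_mv_alg (F' := F') M h y
    rw [h1]
    funext i
    rw [hy, uv_CH _ hdet x, hτ, Pi.sub_apply, Pi.sub_apply, Pi.smul_apply, Pi.smul_apply,
      smul_eq_mul, smul_eq_mul, map_sub, map_mul]
  set u : Fin 2 → F' := d • (Y - η • X) with hu
  set v : Fin 2 → F' := d • (ζ • X - Y) with hv
  have mvsub : ∀ (a : N) (p q : Fin 2 → F'), mv F' M a (p - q) = mv F' M a p - mv F' M a q := by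
    intro a p q
    unfold mv
    rw [Matrix.mulVec_sub]
  have Hu : mv F' M h u = ζ • u := by
    rw [hu, uv_mv_smul, mvsub, uv_mv_smul, HX, HY]
    funext i
    simp only [Pi.smul_apply, Pi.sub_apply, smul_eq_mul]
    linear_combination (-(d * Y i)) * hsum + d * X i * hη
  have Hv : mv F' M h v = η • v := by
    rw [hv, uv_mv_smul, mvsub, uv_mv_smul, HX, HY]
    funext i
    simp only [Pi.smul_apply, Pi.sub_apply, smul_eq_mul]
    linear_combination (d * Y i) * hsum - d * X i * hη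
  have huv : ∀ i, u i + v i = algebraMap F F' (x i) := by
    intro i
    rw [hu, hv]
    simp only [Pi.smul_apply, Pi.sub_apply, smul_eq_mul]
    change d * (Y i - η * X i) + d * (ζ * X i - Y i) = X i
    linear_combination X i * hd
  have hXY : uvD X Y ≠ 0 := by
    have h1 : uvD X Y = algebraMap F F' (uvD x y) := by
      simp only [uvD, map_sub, map_mul, hX, hY]
    rw [h1]
    intro h0
    exact hx ((algebraMap F F').injective (by rw [h0, map_zero]))
  have hDuv : uvD u v = -(d * uvD X Y) := by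
    rw [hu, hv]
    simp only [uvD, Pi.smul_apply, Pi.sub_apply, smul_eq_mul]
    linear_combination (-(d * (X 0 * Y 1 - X 1 * Y 0))) * hd
  have hDuv0 : uvD u v ≠ 0 := by
    rw [hDuv]
    exact neg_ne_zero.2 (mul_ne_zero hd0 hXY)
  have hDvu0 : uvD v u ≠ 0 := by
    rw [uvD_anti]
    exact neg_ne_zero.2 hDuv0
  -- two vectors on the same eigenline
  have key : ∀ (c : F') (p q : Fin 2 → F'), c * c ≠ 1 → mv F' M h p = c • p →
      mv F' M h q = c • q → uvD p q = 0 := by
    intro c p q hc hp hq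
    have h1 := uv_mv_D (F' := F') M δ hδ h p q
    rw [hp, hq, uvD_smul, hh] at h1
    have h2 : (c * c - 1) * uvD p q = 0 := by
      rw [sub_mul, h1]
      simp
    exact (mul_eq_zero.1 h2).resolve_left (sub_ne_zero.2 hc)
  have hζζ : ζ * ζ ≠ 1 := by
    intro h0
    have h1 : ζ * (ζ - η) = 0 := by linear_combination h0 - hη
    rcases mul_eq_zero.1 h1 with h2 | h2
    · exact hζ0 h2
    · exact hD h2
  have hηη : η * η ≠ 1 := by
    intro h0
    have h1 : η * (ζ - η) = 0 := by linear_combination hη - h0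
    rcases mul_eq_zero.1 h1 with h2 | h2
    · exact hη0 h2
    · exact hD h2
  have hηζ : η = ζ⁻¹ := eq_inv_of_mul_eq_one_right hη
  have hfin : ∀ p q : F', p * q = 1 → p ≠ 0 ∧ q = p⁻¹ := fun p q hpq =>
    ⟨left_ne_zero_of_mul_eq_one hpq, eq_inv_of_mul_eq_one_right hpq⟩
  refine ⟨u, v, ⟨hDuv0, ?_, ?_, ⟨x, huv⟩, ?_⟩, huv⟩
  · intro w hw
    have hcomm : M (h * w) = M (w * h) := by
      rw [map_mul, map_mul]
      exact hC1 h w hh hw
    have e1 : mv F' M h (mv F' M w u) = ζ • mv F' M w u := by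
      rw [← uv_mv_mul, uv_mv_congr M hcomm, uv_mv_mul, Hu, uv_mv_smul]
    have e2 : mv F' M h (mv F' M w v) = η • mv F' M w v := by
      rw [← uv_mv_mul, uv_mv_congr M hcomm, uv_mv_mul, Hv, uv_mv_smul]
    obtain ⟨p, hp⟩ := uvD_par hDvu0 (key ζ u _ hζζ Hu e1)
    obtain ⟨q, hq⟩ := uvD_par hDuv0 (key η v _ hηη Hv e2)
    have h1 := uv_mv_D (F' := F') M δ hδ w u v
    rw [hp, hq, uvD_smul, hw] at h1
    have h2 : p * q = 1 := by
      have h3 : (p * q - 1) * uvD u v = 0 := by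
        rw [sub_mul, h1]
        simp
      exact sub_eq_zero.1 ((mul_eq_zero.1 h3).resolve_right hDuv0)
    obtain ⟨h3, h4⟩ := hfin p q h2
    exact ⟨p, h3, hp, by rw [hq, h4]⟩
  · intro w hw
    have hw2 := hC2 w hw
    have hwh := hC2 (w * h) (by rw [map_mul, hw, hh, mul_one])
    have hHGH : M (h * w * h) = M w := by
      rw [map_mul, map_mul]
      rw [map_mul] at hwh
      have h1 : M w * (M h * M w * M h) = M w * M w := by
        rw [hw2, ← hwh]
        group
      exact mul_left_cancel h1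
    have e0 : ∀ z : Fin 2 → F', mv F' M h (mv F' M w (mv F' M h z)) = mv F' M w z := by
      intro z
      rw [← uv_mv_mul, ← uv_mv_mul, uv_mv_congr M hHGH]
    have e1 : mv F' M h (mv F' M w u) = η • mv F' M w u := by
      have h1 := e0 u
      rw [Hu, uv_mv_smul, uv_mv_smul] at h1
      have h2 : η • (ζ • mv F' M h (mv F' M w u)) = η • mv F' M w u := by rw [h1]
      rw [smul_smul, mul_comm η ζ, hη, one_smul] at h2
      exact h2
    have e2 : mv F' M h (mv F' M w v) = ζ • mv F' M w v := by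
      have h1 := e0 v
      rw [Hv, uv_mv_smul, uv_mv_smul] at h1
      have h2 : ζ • (η • mv F' M h (mv F' M w v)) = ζ • mv F' M w v := by rw [h1]
      rw [smul_smul, hη, one_smul] at h2
      exact h2
    obtain ⟨p, hp⟩ := uvD_par hDuv0 (key η v _ hηη Hv e1)
    obtain ⟨q, hq⟩ := uvD_par hDvu0 (key ζ u _ hζζ Hu e2)
    have h1 : mv F' M w (mv F' M w u) = u := by
      rw [← uv_mv_mul]
      exact uv_mv_id M (by rw [map_mul, hw2]) u
    rw [hp, uv_mv_smul, hq, smul_smul] at h1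
    have h2 : p * q = 1 := by
      have h3 := congrArg (fun z => uvD z v) h1
      beta_reduce at h3
      have h4 : uvD ((p * q) • u) ((1 : F') • v) = (p * q) * 1 * uvD u v := uvD_smul _ _ _ _
      rw [one_smul, mul_one] at h4
      rw [h4] at h3
      have h5 : (p * q - 1) * uvD u v = 0 := by
        rw [sub_mul, h3, one_mul, sub_self]
      exact sub_eq_zero.1 ((mul_eq_zero.1 h5).resolve_right hDuv0)
    obtain ⟨h3, h4⟩ := hfin p q h2
    exact ⟨p, h3, hp, by rw [hq, h4]⟩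
  · obtain ⟨g, hg⟩ : ∃ g : F, g * (τ ^ 2 - 4) = 1 := ⟨(τ ^ 2 - 4)⁻¹, inv_mul_cancel₀ hdisc⟩
    have hg' : algebraMap F F' g = d ^ 2 := by
      have h1 : algebraMap F F' g * (ζ - η) ^ 2 = 1 := by
        rw [hDD, ← map_mul, hg, map_one]
      have h2 : (d * (ζ - η)) ^ 2 = 1 := by rw [hd, one_pow]
      linear_combination (-(algebraMap F F' g)) * h2 + d ^ 2 * h1
    refine ⟨-(g * (y 0 ^ 2 - τ * (x 0 * y 0) + x 0 ^ 2)),
      -(g * (2 * (y 0 * y 1) - τ * (x 0 * y 1 + x 1 * y 0) + 2 * (x 0 * x 1))),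
      -(g * (y 1 ^ 2 - τ * (x 1 * y 1) + x 1 ^ 2)), ?_, ?_, ?_⟩
    · simp only [map_neg, map_mul, map_add, map_sub, map_pow, hg']
      change d * (Y 0 - η * X 0) * (d * (ζ * X 0 - Y 0)) =
        -(d ^ 2 * (Y 0 ^ 2 - τ' * (X 0 * Y 0) + X 0 ^ 2))
      linear_combination (d ^ 2 * X 0 * Y 0) * hsum - (d ^ 2 * X 0 ^ 2) * hη
    · have h2 : algebraMap F F' 2 = 2 := map_ofNat _ 2
      simp only [map_neg, map_mul, map_add, map_sub, hg', h2]
      change d * (Y 0 - η * X 0) * (d * (ζ * X 1 - Y 1)) +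
          d * (Y 1 - η * X 1) * (d * (ζ * X 0 - Y 0)) =
        -(d ^ 2 * (2 * (Y 0 * Y 1) - τ' * (X 0 * Y 1 + X 1 * Y 0) + 2 * (X 0 * X 1)))
      linear_combination (d ^ 2 * (X 0 * Y 1 + X 1 * Y 0)) * hsum - (2 * d ^ 2 * X 0 * X 1) * hη
    · simp only [map_neg, map_mul, map_add, map_sub, map_pow, hg']
      change d * (Y 1 - η * X 1) * (d * (ζ * X 1 - Y 1)) =
        -(d ^ 2 * (Y 1 ^ 2 - τ' * (X 1 * Y 1) + X 1 ^ 2))
      linear_combination (d ^ 2 * X 1 * Y 1) * hsum - (d ^ 2 * X 1 ^ 2) * hη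

/-- With an element `σ` with `δ σ = -1`. PROOF. Case 1: some `h` with `δ h = 1` acts by a matrix `H` which is not scalar. Its characteristic polynomial is `X² - τ X + 1`, with roots `ζ, ζ⁻¹ ∈ F'`; `ζ ≠ ζ⁻¹`, because otherwise `ζ = ±1`, `(H - ζ)² = 0` and `H^{|N|} = 1` give `|N| (H - ζ) = 0`. Let `u'`, `v'` be eigenvectors; they are a basis.
Elements with `δ = 1` commute with `H` (`hC1`), so they preserve the two lines, and their determinant is `1`. If `δ w = -1` then `w² = 1`, `(w h)² = 1`, so `w h w = h⁻¹` (as matrices) and `w` exchanges the two lines: `w u' = ζ_w v'`, and `w v' = ζ_w⁻¹ u'` as `w² = 1`. `N` has even order (`σ` has even order), so `2 ≠ 0` in `F`;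
`σ² = 1`, `det σ = -1`, so `σ ≠ -1` and there is `x ∈ F²`, `x ≠ 0`, `σ x = x` (`x = e_i + σ e_i`). `x = α u' + β v'`; `σ x = x` shows that `α ≠ 0`, `β ≠ 0`, and with `u = α u'`, `v = β v'`: `x = u + v`, `σ u = v`, `σ v = u`. `u v` is defined over `F`: `H x - ζ⁻¹ x = (ζ - ζ⁻¹) u`, `H x - ζ x = - (ζ - ζ⁻¹) v`, so in
`Sym²`: `(ζ - ζ⁻¹)² u v = - ((H x)² - τ x (H x) + x²)`, `(ζ - ζ⁻¹)² = τ² - 4`, `τ = tr H ∈ F` (coordinates: `u 0 * v 0`, etc.).
Case 2: all elements with `δ = 1` act by scalars `c`, `c² = det = 1`. Let `x₊`, `x₋ ∈ F²` be eigenvectors of `σ` with eigenvalues `1`, `-1`; `u = x₊ + x₋`, `v = x₊ - x₋`. If `δ w = -1` then `w σ` is a scalar `c` and `w = c σ`. -/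
theorem exists_UV_neg [IsAlgClosed F'] [Finite N] (hN : (Nat.card N : F) ≠ 0)
    (M : N →* GL (Fin 2) F) (δ : N →* ℤˣ)
    (hδ : ∀ w, (M w : Matrix (Fin 2) (Fin 2) F).det = ((δ w : ℤ) : F))
    (hC1 : ∀ a b, δ a = 1 → δ b = 1 → M a * M b = M b * M a) (hC2 : ∀ a, δ a = -1 → M a * M a = 1)
    (σ : N) (hσ : δ σ = -1) :
    ∃ u v : Fin 2 → F', UV M δ u v ∧ mv F' M σ u = v ∧ mv F' M σ v = u := by
  have h2N : (2 : F) ≠ 0 := by
    intro h2
    apply hN
    have h3 : orderOf (δ σ) = 2 := by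
      rw [hσ]
      exact orderOf_eq_prime (by simp) (by decide)
    have h4 : 2 ∣ Nat.card N := by
      rw [← h3]
      exact (orderOf_map_dvd δ σ).trans (orderOf_dvd_natCard σ)
    obtain ⟨m, hm⟩ := h4
    rw [hm, Nat.cast_mul, Nat.cast_ofNat, h2, zero_mul]
  have hSS := hC2 σ hσ
  have hSdet : (M σ : Matrix (Fin 2) (Fin 2) F).det = -1 := by
    rw [hδ, hσ]
    simp
  have hSSm : ∀ z : Fin 2 → F, (M σ : Matrix (Fin 2) (Fin 2) F).mulVec
      ((M σ : Matrix (Fin 2) (Fin 2) F).mulVec z) = z := by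
    intro z
    rw [Matrix.mulVec_mulVec, ← Units.val_mul, hSS, Units.val_one, Matrix.one_mulVec]
  have hSns : uvNS (M σ : Matrix (Fin 2) (Fin 2) F) := by
    rintro ⟨h01, h10, h00⟩
    have h1 := hSSm ![1, 0]
    have h2 := congrFun h1 0
    rw [uv_mul0, uv_mul0, uv_mul1] at h2
    simp only [Matrix.cons_val_zero, Matrix.cons_val_one, mul_one, mul_zero, add_zero] at h2
    rw [Matrix.det_fin_two] at hSdet
    apply h2N
    rw [h01, h10, ← h00] at hSdet
    rw [h01, h10] at h2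
    linear_combination hSdet - h2
  obtain ⟨y, hy⟩ := uv_exists _ hSns
  by_cases hs : ∃ h, δ h = 1 ∧ uvNS (M h : Matrix (Fin 2) (Fin 2) F)
  · obtain ⟨h, hh, hns⟩ := hs
    have hdet : (M h : Matrix (Fin 2) (Fin 2) F).det = 1 := by
      rw [hδ, hh]
      simp
    have hpow : (M h : Matrix (Fin 2) (Fin 2) F) ^ (Nat.card N) = 1 := by
      rw [← Units.val_pow_eq_pow_val, ← map_pow, pow_card_eq_one', map_one, Units.val_one]
    have hdisc := uv_disc _ hdet _ hN hpow hns
    obtain ⟨τ, hτ⟩ : ∃ τ, (M h : Matrix (Fin 2) (Fin 2) F) 0 0 +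
      (M h : Matrix (Fin 2) (Fin 2) F) 1 1 = τ := ⟨_, rfl⟩
    rw [hτ] at hdisc
    obtain ⟨ζ, hζ⟩ := uv_root (algebraMap F F' τ)
    set x : Fin 2 → F := y + (M σ : Matrix (Fin 2) (Fin 2) F).mulVec y with hx
    have hSx : (M σ : Matrix (Fin 2) (Fin 2) F).mulVec x = x := by
      rw [hx, Matrix.mulVec_add, hSSm, add_comm]
    have hx0 : x ≠ 0 := by
      intro h0
      apply hy
      have h1 : (M σ : Matrix (Fin 2) (Fin 2) F).mulVec y = (-1 : F) • y := by
        rw [neg_one_smul]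
        exact eq_neg_of_add_eq_zero_right h0
      rw [h1]
      have h2 := uvD_smul (1 : F) (-1) y y
      rw [one_smul] at h2
      rw [h2]
      simp only [uvD]
      ring
    have hxD : uvD x ((M h : Matrix (Fin 2) (Fin 2) F).mulVec x) ≠ 0 := by
      intro h0
      obtain ⟨c, hc⟩ := uv_eig _ hx0 h0
      have hwh := hC2 (σ * h) (by rw [map_mul, hσ, hh, mul_one])
      have h1 : (M σ : Matrix (Fin 2) (Fin 2) F).mulVec ((M h : Matrix (Fin 2) (Fin 2) F).mulVec
          ((M σ : Matrix (Fin 2) (Fin 2) F).mulVec ((M h : Matrix (Fin 2) (Fin 2) F).mulVec x))) =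
          x := by
        rw [map_mul] at hwh
        have h2 := congrArg (fun g : GL (Fin 2) F => (g : Matrix (Fin 2) (Fin 2) F).mulVec x) hwh
        simp only [Units.val_mul, Units.val_one, Matrix.one_mulVec, ← Matrix.mulVec_mulVec] at h2
        exact h2
      rw [hc, Matrix.mulVec_smul, hSx, Matrix.mulVec_smul, hc, Matrix.mulVec_smul,
        Matrix.mulVec_smul, hSx, smul_smul] at h1
      have hxi : ∃ i, x i ≠ 0 := by
        by_contra hcon
        push Not at hcon
        exact hx0 (funext hcon)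
      obtain ⟨i, hi⟩ := hxi
      have h3 : c * c = 1 := by
        have h4 := congrFun h1 i
        rw [Pi.smul_apply, smul_eq_mul] at h4
        exact mul_right_cancel₀ hi (by rw [h4, one_mul])
      have h5 := uv_CH _ hdet x
      rw [hτ, hc, Matrix.mulVec_smul, hc, smul_smul, smul_smul, h3, one_smul] at h5
      have h6 : 2 = τ * c := by
        have h4 := congrFun h5 i
        rw [Pi.sub_apply, Pi.smul_apply, smul_eq_mul] at h4
        exact mul_right_cancel₀ hi (by linear_combination h4)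
      apply hdisc
      linear_combination (-(τ ^ 2)) * h3 - (2 + τ * c) * h6
    obtain ⟨u, v, hUV, hsum⟩ := uv_engine M δ hδ hC1 hC2 h hh τ hτ ζ hζ hdisc x hxD
    obtain ⟨p, hp0, hp1, hp2⟩ := hUV.neg σ hσ
    have hX : mv F' M σ (fun i => algebraMap F F' (x i)) = fun i => algebraMap F F' (x i) := by
      rw [uv_mv_alg, hSx]
    have hX2 : (fun i => algebraMap F F' (x i)) = u + v := by
      funext i
      exact (hsum i).symm
    rw [hX2, uv_mv_add, hp1, hp2] at hX
    have hp : p = 1 := by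
      have h1 := congrArg (fun z => uvD u z) hX
      beta_reduce at h1
      have h2 : (p - 1) * uvD u v = 0 := by
        simp only [uvD, Pi.add_apply, Pi.smul_apply, smul_eq_mul] at h1 ⊢
        linear_combination h1
      exact sub_eq_zero.1 ((mul_eq_zero.1 h2).resolve_right hUV.ind)
    rw [hp, one_smul] at hp1
    rw [hp, inv_one, one_smul] at hp2
    exact ⟨u, v, hUV, hp1, hp2⟩
  · push Not at hs
    set z : Fin 2 → F := (M σ : Matrix (Fin 2) (Fin 2) F).mulVec y with hz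
    have hSz : (M σ : Matrix (Fin 2) (Fin 2) F).mulVec z = y := hSSm y
    set u : Fin 2 → F' := fun i => algebraMap F F' (y i) with hu
    set v : Fin 2 → F' := fun i => algebraMap F F' (z i) with hv
    have Hu : mv F' M σ u = v := uv_mv_alg M σ y
    have Hv : mv F' M σ v = u := by
      rw [hv, uv_mv_alg, hSz]
    have hsc : ∀ w, δ w = 1 → ∃ ζ : F', ζ ≠ 0 ∧ ζ⁻¹ = ζ ∧ ∀ q, mv F' M w q = ζ • q := by
      intro w hw
      obtain ⟨c, hc1, hc2⟩ := uv_scalar _ (by rw [hδ, hw]; simp) (hs w hw)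
      refine ⟨algebraMap F F' c, ?_, ?_, fun q => ?_⟩
      · intro h0
        have h1 : c = 0 := (algebraMap F F').injective (by rw [h0, map_zero])
        rw [h1, mul_zero] at hc1
        exact zero_ne_one hc1
      · rw [← map_inv₀]
        congr 1
        exact inv_eq_of_mul_eq_one_left hc1
      · unfold mv
        rw [hc2]
        funext i
        fin_cases i
        · rw [Pi.smul_apply, smul_eq_mul]
          simp [uv_mul0]
        · rw [Pi.smul_apply, smul_eq_mul]
          simp [uv_mul1]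
    refine ⟨u, v, ⟨?_, ?_, ?_, ?_, ?_⟩, Hu, Hv⟩
    · have h1 : u 0 * v 1 - u 1 * v 0 = algebraMap F F' (uvD y z) := by
        simp only [uvD, map_sub, map_mul, hu, hv]
      rw [h1]
      intro h0
      exact hy ((algebraMap F F').injective (by rw [h0, map_zero]))
    · intro w hw
      obtain ⟨ζ, h1, h2, h3⟩ := hsc w hw
      exact ⟨ζ, h1, h3 u, by rw [h2]; exact h3 v⟩
    · intro w hw
      obtain ⟨ζ, h1, h2, h3⟩ := hsc (w * σ) (by rw [map_mul, hw, hσ]; simp)
      refine ⟨ζ, h1, ?_, ?_⟩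
      · have h4 := h3 v
        rw [uv_mv_mul, Hv] at h4
        exact h4
      · have h4 := h3 u
        rw [uv_mv_mul, Hu] at h4
        rw [h2]
        exact h4
    · exact ⟨y + z, fun i => by rw [Pi.add_apply, map_add]⟩
    · exact ⟨y 0 * z 0, y 0 * z 1 + y 1 * z 0, y 1 * z 1, by simp only [map_mul, hu, hv],
        by simp only [map_add, map_mul, hu, hv], by simp only [map_mul, hu, hv]⟩

/-- All `δ = 1`. PROOF. As in `exists_UV_neg`. Case 1 (some `H` is not scalar): choose `x ∈ F²` which is not an eigenvector of `H` (one of `e_0`, `e_1`, `e_0 + e_1`); `x = u + v`. Case 2: `u = e_0`, `v = e_1`. -/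
theorem exists_UV_one [IsAlgClosed F'] [Finite N] (hN : (Nat.card N : F) ≠ 0)
    (M : N →* GL (Fin 2) F) (δ : N →* ℤˣ)
    (hδ : ∀ w, (M w : Matrix (Fin 2) (Fin 2) F).det = ((δ w : ℤ) : F))
    (hC1 : ∀ a b, δ a = 1 → δ b = 1 → M a * M b = M b * M a) (h1 : ∀ w, δ w = 1) :
    ∃ u v : Fin 2 → F', UV M δ u v := by
  have hC2 : ∀ a, δ a = -1 → M a * M a = 1 := by
    intro a ha
    rw [h1 a] at ha
    exact absurd ha (by decide)
  by_cases hs : ∃ h, uvNS (M h : Matrix (Fin 2) (Fin 2) F)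
  · obtain ⟨h, hns⟩ := hs
    have hh := h1 h
    have hdet : (M h : Matrix (Fin 2) (Fin 2) F).det = 1 := by
      rw [hδ, hh]
      simp
    have hpow : (M h : Matrix (Fin 2) (Fin 2) F) ^ (Nat.card N) = 1 := by
      rw [← Units.val_pow_eq_pow_val, ← map_pow, pow_card_eq_one', map_one, Units.val_one]
    have hdisc := uv_disc _ hdet _ hN hpow hns
    obtain ⟨τ, hτ⟩ : ∃ τ, (M h : Matrix (Fin 2) (Fin 2) F) 0 0 +
      (M h : Matrix (Fin 2) (Fin 2) F) 1 1 = τ := ⟨_, rfl⟩
    rw [hτ] at hdisc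
    obtain ⟨ζ, hζ⟩ := uv_root (algebraMap F F' τ)
    obtain ⟨x, hx⟩ := uv_exists _ hns
    obtain ⟨u, v, hUV, -⟩ := uv_engine M δ hδ hC1 hC2 h hh τ hτ ζ hζ hdisc x hx
    exact ⟨u, v, hUV⟩
  · push Not at hs
    refine ⟨![1, 0], ![0, 1], ⟨by simp, fun w hw => ?_, fun w hw => ?_, ⟨![1, 1], fun i => ?_⟩,
      ⟨0, 1, 0, by simp, by simp, by simp⟩⟩⟩
    · obtain ⟨c, hc1, hc2⟩ := uv_scalar _ (by rw [hδ, hw]; simp) (hs w)
      refine ⟨algebraMap F F' c, ?_, ?_, ?_⟩
      · intro h0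
        have h1 : c = 0 := (algebraMap F F').injective (by rw [h0, map_zero])
        rw [h1, mul_zero] at hc1
        exact zero_ne_one hc1
      · unfold mv
        rw [hc2]
        funext i
        fin_cases i
        · simp [uv_mul0]
        · simp [uv_mul1]
      · have h2 : (algebraMap F F' c)⁻¹ = algebraMap F F' c := by
          rw [← map_inv₀]
          congr 1
          exact inv_eq_of_mul_eq_one_left hc1
        rw [h2]
        unfold mv
        rw [hc2]
        funext i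
        fin_cases i
        · simp [uv_mul0]
        · simp [uv_mul1]
    · rw [h1 w] at hw
      exact absurd hw (by decide)
    · fin_cases i
      · simp
      · simp

end

end MP8a
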