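import Pool.Agent.Lib_MP_8a48ad_gt.R3UV

/-! # Piece R3UVB: the order `m` of the torus part -/

set_option autoImplicit false

namespace MP8a

universe u

variable {F F' : Type u} [Field F] [Field F'] [Algebra F F'] {N : Type*} [Group N]

private theorem uvb_mul (M : N →* GL (Fin 2) F) (a b : N) (x : Fin 2 → F') :
    mv F' M (a * b) x = mv F' M a (mv F' M b x) := by
  unfold mv
  rw [Matrix.mulVec_mulVec, map_mul]
  congr 1
  change ((M a : Matrix (Fin 2) (Fin 2) F) * (M b : Matrix (Fin 2) (Fin 2) F)).map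
    (algebraMap F F') = _
  exact Matrix.map_mul

private theorem uvb_one (M : N →* GL (Fin 2) F) (x : Fin 2 → F') : mv F' M 1 x = x := by
  unfold mv
  rw [map_one]
  change ((1 : Matrix (Fin 2) (Fin 2) F).map (algebraMap F F')).mulVec x = x
  rw [Matrix.map_one _ (map_zero _) (map_one _), Matrix.one_mulVec]

private theorem uvb_smul (M : N →* GL (Fin 2) F) (a : N) (c : F') (x : Fin 2 → F') :
    mv F' M a (c • x) = c • mv F' M a x := by
  unfold mv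
  rw [Matrix.mulVec_smul]

private theorem uvb_pow (M : N →* GL (Fin 2) F) (a : N) {c : F'} {x : Fin 2 → F'}
    (h : mv F' M a x = c • x) (j : ℕ) : mv F' M (a ^ j) x = c ^ j • x := by
  induction j with
  | zero => rw [pow_zero, pow_zero, one_smul, uvb_one]
  | succ j ih => rw [pow_succ, uvb_mul, h, uvb_smul, ih, smul_smul, ← pow_succ']

private theorem uvb_cancel {u v : Fin 2 → F'} (hi : u 0 * v 1 - u 1 * v 0 ≠ 0) {c c' : F'}
    (h : c • u = c' • u) : c = c' := by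
  have h0 : c * u 0 = c' * u 0 := congrFun h 0
  have h1 : c * u 1 = c' * u 1 := congrFun h 1
  have h2 : c * (u 0 * v 1 - u 1 * v 0) = c' * (u 0 * v 1 - u 1 * v 0) := by
    linear_combination v 1 * h0 - v 0 * h1
  exact mul_right_cancel₀ hi h2

/-- PROOF. Choose `σ` with `δ σ = -1` in `Γ` if possible, otherwise any `σ` with `δ σ = -1` if possible; `u, v` by `exists_UV_neg` or `exists_UV_one`. For `γ ∈ Γ`, `δ γ = 1`, let `ζ_γ` be the eigenvalue on `u`. `{j ∈ ℤ | ζ_γ^j = 1 for all these γ}` is a subgroup of `ℤ` which contains `|N|`, so it is `m ℤ` with `m ≥ 1`.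
If `δ w = 1`: `w ∈ Γ` gives `ζ^m = 1`; if `w ∉ Γ` then `w² ∈ Γ` (`hΓ`), `ζ^{2m} = 1`, `ζ^m = ±1`. If `δ w = -1`: `w σ` has `δ = 1` and acts by `(ζ, ζ⁻¹)`, and as `σ u = v`, `σ v = u`: `w u = ζ⁻¹ v`, `w v = ζ u`. If `σ ∈ Γ`: `w σ ∈ Γ` iff `w ∈ Γ`. If no element of `Γ` has `δ = -1` then `w, σ ∉ Γ`, so
`w σ ∈ Γ` and `ζ^m = 1`. -/
theorem uv_lemma [IsAlgClosed F'] [Finite N] (hN : (Nat.card N : F) ≠ 0) (M : N →* GL (Fin 2) F)
    (δ : N →* ℤˣ) (hδ : ∀ w, (M w : Matrix (Fin 2) (Fin 2) F).det = ((δ w : ℤ) : F))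
    (hC1 : ∀ a b, δ a = 1 → δ b = 1 → M a * M b = M b * M a) (hC2 : ∀ a, δ a = -1 → M a * M a = 1)
    (Γ : Subgroup N) (hΓ : ∀ a b, a ∉ Γ → b ∉ Γ → a * b ∈ Γ) :
    ∃ (m : ℕ) (u v : Fin 2 → F'), 0 < m ∧ UV M δ u v ∧
      (∀ w, ∃ ζ : F', ζ ≠ 0 ∧ (ζ ^ m = 1 ∨ ζ ^ m = -1) ∧ (w ∈ Γ → ζ ^ m = 1) ∧
        ((mv F' M w u = ζ • u ∧ mv F' M w v = ζ⁻¹ • v) ∨
          (mv F' M w u = ζ • v ∧ mv F' M w v = ζ⁻¹ • u))) ∧
      ∀ a b : ℕ, (∀ γ ∈ Γ, ∀ ζ : F', ζ ≠ 0 → mv F' M γ u = ζ • u → mv F' M γ v = ζ⁻¹ • v →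
        ζ ^ a = ζ ^ b) → a ≡ b [MOD m] := by
  classical
  have hex : ∃ u v : Fin 2 → F', UV M δ u v ∧ ∀ w, δ w = -1 →
      ∃ σ, δ σ = -1 ∧ mv F' M σ u = v ∧ mv F' M σ v = u ∧ (w ∈ Γ → σ ∈ Γ) := by
    by_cases h1 : ∃ σ ∈ Γ, δ σ = -1
    · obtain ⟨σ, hσΓ, hσ⟩ := h1
      obtain ⟨u, v, hUV, hu, hv⟩ := exists_UV_neg (F' := F') hN M δ hδ hC1 hC2 σ hσ
      exact ⟨u, v, hUV, fun w _ => ⟨σ, hσ, hu, hv, fun _ => hσΓ⟩⟩
    · by_cases h2 : ∃ σ, δ σ = -1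
      · obtain ⟨σ, hσ⟩ := h2
        obtain ⟨u, v, hUV, hu, hv⟩ := exists_UV_neg (F' := F') hN M δ hδ hC1 hC2 σ hσ
        exact ⟨u, v, hUV, fun w hw => ⟨σ, hσ, hu, hv, fun hwΓ => absurd ⟨w, hwΓ, hw⟩ h1⟩⟩
      · have h3 : ∀ w, δ w = 1 := by
          intro w
          rcases Int.units_eq_one_or (δ w) with h | h
          · exact h
          · exact absurd ⟨w, h⟩ h2
        obtain ⟨u, v, hUV⟩ := exists_UV_one (F' := F') hN M δ hδ hC1 h3
        exact ⟨u, v, hUV, fun w hw => absurd ⟨w, hw⟩ h2⟩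
  obtain ⟨u, v, hUV, hsig⟩ := hex
  choose z hz0 hzu hzv using hUV.one
  have hcan : ∀ {c c' : F'}, c • u = c' • u → c = c' := fun h => uvb_cancel hUV.ind h
  have hP : ∃ j : ℕ, 0 < j ∧ ∀ γ ∈ Γ, ∀ h : δ γ = 1, z γ h ^ j = 1 := by
    refine ⟨Nat.card N, Nat.card_pos, fun γ _ h => ?_⟩
    have h1 := uvb_pow M γ (hzu γ h) (Nat.card N)
    rw [pow_card_eq_one', uvb_one] at h1
    apply hcan
    rw [← h1, one_smul]
  let m := Nat.find hP
  have hm0 : 0 < m := (Nat.find_spec hP).1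
  have hm1 : ∀ γ ∈ Γ, ∀ h : δ γ = 1, z γ h ^ m = 1 := (Nat.find_spec hP).2
  have hmin : ∀ j : ℕ, (∀ γ ∈ Γ, ∀ h : δ γ = 1, z γ h ^ j = 1) → m ∣ j := by
    intro j hj
    by_contra hnd
    have hr : 0 < j % m := Nat.pos_of_ne_zero (fun h0 => hnd (Nat.dvd_of_mod_eq_zero h0))
    have hlt : j % m < m := Nat.mod_lt j hm0
    refine Nat.find_min hP hlt ⟨hr, fun γ hγ h => ?_⟩
    have h1 := hj γ hγ h
    rw [← Nat.mod_add_div j m, pow_add, pow_mul, hm1 γ hγ h, one_pow, mul_one] at h1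
    exact h1
  have hone : ∀ w, ∀ h : δ w = 1, (z w h ^ m = 1 ∨ z w h ^ m = -1) ∧ (w ∈ Γ → z w h ^ m = 1) := by
    intro w h
    by_cases hw : w ∈ Γ
    · exact ⟨Or.inl (hm1 w hw h), fun _ => hm1 w hw h⟩
    · refine ⟨?_, fun h' => absurd h' hw⟩
      have h2 : w * w ∈ Γ := hΓ w w hw hw
      have h3 : δ (w * w) = 1 := by rw [map_mul, h, one_mul]
      have h4 : z (w * w) h3 = z w h * z w h := by
        apply hcan
        rw [← hzu (w * w) h3, uvb_mul, hzu w h, uvb_smul, hzu w h, smul_smul]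
      have h5 := hm1 (w * w) h2 h3
      rw [h4, mul_pow] at h5
      exact mul_self_eq_one_iff.1 h5
  refine ⟨m, u, v, hm0, hUV, ?_, ?_⟩
  · intro w
    rcases Int.units_eq_one_or (δ w) with h | h
    · exact ⟨z w h, hz0 w h, (hone w h).1, (hone w h).2, Or.inl ⟨hzu w h, hzv w h⟩⟩
    · obtain ⟨σ, hσ, hu, hv, hσΓ⟩ := hsig w h
      have h3 : δ (w * σ) = 1 := by
        rw [map_mul, h, hσ]
        decide
      have h4 := hzu (w * σ) h3
      have h5 := hzv (w * σ) h3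
      rw [uvb_mul, hu] at h4
      rw [uvb_mul, hv] at h5
      have h6 := hone (w * σ) h3
      refine ⟨(z (w * σ) h3)⁻¹, inv_ne_zero (hz0 _ h3), ?_, ?_, Or.inr ⟨h5, ?_⟩⟩
      · rw [inv_pow]
        rcases h6.1 with h7 | h7
        · left
          rw [h7, inv_one]
        · right
          rw [h7, inv_neg, inv_one]
      · intro hw
        rw [inv_pow, h6.2 (Γ.mul_mem hw (hσΓ hw)), inv_one]
      · rw [inv_inv]
        exact h4
  · intro a b hab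
    have key : ∀ a b : ℕ, a ≤ b → (∀ γ ∈ Γ, ∀ h : δ γ = 1, z γ h ^ a = z γ h ^ b) →
        a ≡ b [MOD m] := by
      intro a b hle h
      rw [Nat.modEq_iff_dvd' hle]
      apply hmin
      intro γ hγ hδγ
      have h1 := h γ hγ hδγ
      have h2 : z γ hδγ ^ b = z γ hδγ ^ a * z γ hδγ ^ (b - a) := by
        rw [← pow_add, Nat.add_sub_cancel' hle]
      rw [h2] at h1
      have h3 : z γ hδγ ^ a ≠ 0 := pow_ne_zero _ (hz0 γ hδγ)
      exact mul_left_cancel₀ h3 (by rw [mul_one]; exact h1.symm)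
    have h0 : ∀ γ ∈ Γ, ∀ h : δ γ = 1, z γ h ^ a = z γ h ^ b :=
      fun γ hγ h => hab γ hγ (z γ h) (hz0 γ h) (hzu γ h) (hzv γ h)
    rcases le_total a b with hle | hle
    · exact key a b hle h0
    · exact (key b a hle (fun γ hγ h => (h0 γ hγ h).symm)).symm

end MP8a
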