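import Pool.Agent.Lib_MP_8a48ad_gt.R3Pln
import Pool.Agent.Lib_MP_8a48ad_gt.R3UVB
import Pool.Agent.Lib_MP_8a48ad_gt.R3Mon
import Pool.Agent.Lib_MP_8a48ad_gt.R3Mon2

/-! # Piece R3YY: two semi-invariants -/

set_option autoImplicit false

namespace MP8a

universe u

variable {k : Type u} [Field k] {W : Type*} [Group W] [Finite W]

section yyaux

variable {k' K' : Type u} [Field k'] [Field K'] [Algebra k' K']

private theorem yy_lin (c : Fin 3 → k') :
    MvPolynomial.map (algebraMap k' K') (lin c) = lin (fun i => algebraMap k' K' (c i)) := by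
  unfold lin
  rw [map_sum]
  refine Finset.sum_congr rfl fun i _ => ?_
  rw [map_mul, MvPolynomial.map_C, MvPolynomial.map_X]

private theorem yy_linAct (A : Matrix (Fin 3) (Fin 3) k') (s : Sn k' 3) :
    MvPolynomial.map (algebraMap k' K') (linAct A s) =
      linAct (A.map (algebraMap k' K')) (MvPolynomial.map (algebraMap k' K') s) := by
  induction s using MvPolynomial.induction_on with
  | C a =>
    have h1 : linAct A (MvPolynomial.C a) = MvPolynomial.C a := (linAct A).commutes a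
    have h2 : linAct (A.map (algebraMap k' K')) (MvPolynomial.C (algebraMap k' K' a)) =
      MvPolynomial.C (algebraMap k' K' a) := (linAct (A.map (algebraMap k' K'))).commutes _
    rw [h1, MvPolynomial.map_C, h2]
  | add p q hp hq => rw [map_add, map_add, map_add, map_add, hp, hq]
  | mul_X p i hp =>
    rw [map_mul, map_mul, map_mul, map_mul, hp, linAct_X, MvPolynomial.map_X, linAct_X, map_sum]
    refine congrArg _ (Finset.sum_congr rfl fun l _ => ?_)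
    rw [map_mul, MvPolynomial.map_C, MvPolynomial.map_X, Matrix.map_apply]

private theorem yy_mulVec (A : Matrix (Fin 3) (Fin 3) k') (c : Fin 3 → k') :
    (A.map (algebraMap k' K')).mulVec (fun i => algebraMap k' K' (c i)) =
      fun i => algebraMap k' K' (A.mulVec c i) := by
  funext i
  simp [Matrix.mulVec, dotProduct, map_sum]

private theorem yy_plane (A : Matrix (Fin 3) (Fin 3) k') (B : Matrix (Fin 2) (Fin 2) k')
    (d₁ d₂ : Fin 3 → k')
    (hAB : ∀ x : Fin 2 → k', A.mulVec (x 0 • d₁ + x 1 • d₂) =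
      (B.mulVec x) 0 • d₁ + (B.mulVec x) 1 • d₂) (x : Fin 2 → K') :
    (A.map (algebraMap k' K')).mulVec (x 0 • (fun i => algebraMap k' K' (d₁ i)) +
      x 1 • (fun i => algebraMap k' K' (d₂ i))) =
      ((B.map (algebraMap k' K')).mulVec x) 0 • (fun i => algebraMap k' K' (d₁ i)) +
        ((B.map (algebraMap k' K')).mulVec x) 1 • (fun i => algebraMap k' K' (d₂ i)) := by
  have h1 := hAB ![1, 0]
  have h2 := hAB ![0, 1]
  simp only [Matrix.cons_val_zero, Matrix.cons_val_one, one_smul, zero_smul, add_zero, zero_add,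
    Matrix.mulVec, dotProduct, Fin.sum_univ_two, mul_one, mul_zero] at h1 h2
  have e1 : A.mulVec d₁ = B 0 0 • d₁ + B 1 0 • d₂ := h1
  have e2 : A.mulVec d₂ = B 0 1 • d₁ + B 1 1 • d₂ := h2
  rw [Matrix.mulVec_add, Matrix.mulVec_smul, Matrix.mulVec_smul, yy_mulVec, yy_mulVec, e1, e2]
  funext i
  simp only [Pi.add_apply, Pi.smul_apply, smul_eq_mul, map_add, map_mul, Matrix.mulVec, dotProduct,
    Fin.sum_univ_two, Matrix.map_apply]
  ring

/-- a power of `ζ` and of its inverse -/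
private theorem yy_pow {m : ℕ} {ζ : K'} (h : ζ ^ m = 1 ∨ ζ ^ m = -1) : ζ⁻¹ ^ m = ζ ^ m := by
  rw [inv_pow]
  rcases h with h | h
  · rw [h, inv_one]
  · rw [h, inv_neg, inv_one]

private theorem yy_smul_pow (ζ : K') (c : Fin 3 → K') (m : ℕ) :
    lin (ζ • c) ^ m = MvPolynomial.C (ζ ^ m) * lin c ^ m := by
  rw [lin_smul, mul_pow, ← map_pow]

end yyaux

/-- PROOF. `M`, `δ` from `exists_plane`; `uv_lemma` with `F = k`, `F' = AlgebraicClosure k`, `N = stabi q`, `Γ` = the elements of `N` in `inert q` (`Subgroup.subgroupOf`; `hΓ`: by `stabi_sign` elements not in `Γ` map `t₀` to `- t₀`). Let `U = u 0 • c₁ + u 1 • c₂`, `V = v 0 • c₁ + v 1 • c₂ ∈ F'³` (images of `c₁`, `c₂`), so `w U = ζ U` etc. for the matrices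
of `w` over `F'`, and `t₀, U, V` is a basis of `F'³` (determinant: `UV.ind` and `LD.det`). `y₁ ∈ S` with image `lin U * lin V` (`UV.prod`: `y₁ = a (lin c₁)² + b lin c₁ lin c₂ + c (lin c₂)²`), `y₂ ∈ S` homogeneous of degree `m` with image `(lin U)^m + (lin V)^m` (`exists_psum`, `UV.sum`). `MvPolynomial.map` is injective and commutes with the
actions (`linAct` of the mapped matrix), so the invariance properties of `y₁`, `y₂` can be checked over `F'`: `ζ U ζ⁻¹ V = U V`, `(ζ U)^m + (ζ⁻¹ V)^m = ζ^m (U^m + V^m)` as `ζ^m = ±1`. `y₁, y₂ ∈ q = (lin c₁, lin c₂)` (`prime_eq`, `lin_mem_of_esum`): their images are in `(lin U, lin V)`, or directly: they are homogeneous polynomials of positive degree in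
`lin c₁, lin c₂` (alternatively use `mem_of_map`). `pow`: over `F'` the ideal `q` generates `(lin U, lin V)`; `pow_le_of_torus`, `mem_of_map`. `sq`: the image of `x` over `F'` is invariant under the elements of `Γ` and in `(lin U, lin V)`; `mem_of_torus'` with `Z` = the set of the `ζ` of the elements `γ ∈ Γ` which act by `(ζ, ζ⁻¹)`, `mul_mem_of_torus`, `mem_of_map`. -/
theorem exists_yy (hW : (Nat.card W : k) ≠ 0) (ρ₀ : W →* GL (Fin 3) ℤ) (q : Ideal (Sn k 3))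
    (hq : HPr (grS k 3) q) {t₀ c₁ c₂ : Fin 3 → ℤ} (h : LD k ρ₀ (inert (latt k ρ₀) q) t₀ c₁ c₂) :
    ∃ (m : ℕ) (y₁ y₂ : Sn k 3), 0 < m ∧ y₁.IsHomogeneous 2 ∧ y₂.IsHomogeneous m ∧ y₁ ∈ q ∧ y₂ ∈ q ∧
      (∀ w ∈ stabi (latt k ρ₀) q, wact (latt k ρ₀) w y₁ = y₁) ∧
      (∀ w ∈ stabi (latt k ρ₀) q, wact (latt k ρ₀) w y₂ = y₂ ∨ wact (latt k ρ₀) w y₂ = -y₂) ∧
      (∀ w ∈ inert (latt k ρ₀) q, wact (latt k ρ₀) w y₂ = y₂) ∧
      (q ^ (m + 1) ≤ Ideal.span {y₁, y₂}) ∧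
      ∀ x ∈ q, ∀ x' ∈ q, (∀ w ∈ inert (latt k ρ₀) q, wact (latt k ρ₀) w x = x) →
        (∀ w ∈ inert (latt k ρ₀) q, wact (latt k ρ₀) w x' = x') → x * x' ∈ Ideal.span {y₁, y₂} := by
  classical
  obtain ⟨M, δ, hM1, hM2, hM3, hM4⟩ := exists_plane hW ρ₀ q h
  have hN : (Nat.card (stabi (latt k ρ₀) q) : k) ≠ 0 := by
    obtain ⟨c, hc⟩ := Subgroup.card_subgroup_dvd_card (stabi (latt k ρ₀) q)
    intro h0
    apply hW
    rw [hc, Nat.cast_mul, h0, zero_mul]
  have hsgn := stabi_sign hW ρ₀ q h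
  have hΓ : ∀ a b : stabi (latt k ρ₀) q, a ∉ (inert (latt k ρ₀) q).subgroupOf (stabi (latt k ρ₀) q) →
      b ∉ (inert (latt k ρ₀) q).subgroupOf (stabi (latt k ρ₀) q) →
      a * b ∈ (inert (latt k ρ₀) q).subgroupOf (stabi (latt k ρ₀) q) := by
    intro a b ha hb
    have h1 : ∀ c : stabi (latt k ρ₀) q, c ∉ (inert (latt k ρ₀) q).subgroupOf (stabi (latt k ρ₀) q) →
        (ρ₀ c : Matrix (Fin 3) (Fin 3) ℤ).mulVec t₀ = -t₀ := by
      intro c hc
      rcases hsgn.1 c.1 c.2 with h2 | h2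
      · exact absurd (Subgroup.mem_subgroupOf.2 (hsgn.2 c.1 c.2 h2)) hc
      · exact h2
    rw [Subgroup.mem_subgroupOf]
    refine hsgn.2 _ (a * b).2 ?_
    rw [Subgroup.coe_mul, map_mul, Units.val_mul, ← Matrix.mulVec_mulVec, h1 b hb, Matrix.mulVec_neg,
      h1 a ha, neg_neg]
  obtain ⟨m, u, v, hm, hUV, hact, hmod⟩ := uv_lemma (F' := AlgebraicClosure k) hN M δ hM2 hM3 hM4
    ((inert (latt k ρ₀) q).subgroupOf (stabi (latt k ρ₀) q)) hΓ
  -- the vectors over the algebraic closure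
  obtain ⟨C₁, hC₁⟩ : ∃ C₁ : Fin 3 → AlgebraicClosure k,
    C₁ = fun i => algebraMap k (AlgebraicClosure k) (cv k c₁ i) := ⟨_, rfl⟩
  obtain ⟨C₂, hC₂⟩ : ∃ C₂ : Fin 3 → AlgebraicClosure k,
    C₂ = fun i => algebraMap k (AlgebraicClosure k) (cv k c₂ i) := ⟨_, rfl⟩
  obtain ⟨C₀, hC₀⟩ : ∃ C₀ : Fin 3 → AlgebraicClosure k,
    C₀ = fun i => algebraMap k (AlgebraicClosure k) (cv k t₀ i) := ⟨_, rfl⟩
  obtain ⟨U, hU⟩ : ∃ U : Fin 3 → AlgebraicClosure k, U = u 0 • C₁ + u 1 • C₂ := ⟨_, rfl⟩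
  obtain ⟨V, hV⟩ : ∃ V : Fin 3 → AlgebraicClosure k, V = v 0 • C₁ + v 1 • C₂ := ⟨_, rfl⟩
  obtain ⟨A, hA⟩ : ∃ A : W → Matrix (Fin 3) (Fin 3) (AlgebraicClosure k),
    ∀ w, A w = (latt k ρ₀ w : Matrix (Fin 3) (Fin 3) k).map (algebraMap k (AlgebraicClosure k)) :=
      ⟨_, fun _ => rfl⟩
  have hpl : ∀ (w : stabi (latt k ρ₀) q) (x : Fin 2 → AlgebraicClosure k),
      (A w).mulVec (x 0 • C₁ + x 1 • C₂) =
        (mv (AlgebraicClosure k) M w x) 0 • C₁ + (mv (AlgebraicClosure k) M w x) 1 • C₂ := by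
    intro w x
    rw [hA, hC₁, hC₂]
    exact yy_plane _ _ _ _ (hM1 w) x
  have hplU : ∀ (w : stabi (latt k ρ₀) q) (ζ : AlgebraicClosure k) (x y : Fin 2 → AlgebraicClosure k),
      mv (AlgebraicClosure k) M w x = ζ • y →
      (A w).mulVec (x 0 • C₁ + x 1 • C₂) = ζ • (y 0 • C₁ + y 1 • C₂) := by
    intro w ζ x y hxy
    rw [hpl, hxy, Pi.smul_apply, Pi.smul_apply, smul_eq_mul, smul_eq_mul, smul_add, smul_smul, smul_smul]
  have hφact : ∀ (w : W) (s : Sn k 3), MvPolynomial.map (algebraMap k (AlgebraicClosure k))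
      (wact (latt k ρ₀) w s) = linAct (A w) (MvPolynomial.map (algebraMap k (AlgebraicClosure k)) s) := by
    intro w s
    rw [hA]
    exact yy_linAct _ s
  have hφinj : Function.Injective (MvPolynomial.map (σ := Fin 3) (algebraMap k (AlgebraicClosure k))) :=
    MvPolynomial.map_injective _ (algebraMap k (AlgebraicClosure k)).injective
  have hφ1 : MvPolynomial.map (algebraMap k (AlgebraicClosure k)) (lin (cv k c₁)) = lin C₁ := by
    rw [hC₁]
    exact yy_lin _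
  have hφ2 : MvPolynomial.map (algebraMap k (AlgebraicClosure k)) (lin (cv k c₂)) = lin C₂ := by
    rw [hC₂]
    exact yy_lin _
  have hlU : lin U = MvPolynomial.C (u 0) * lin C₁ + MvPolynomial.C (u 1) * lin C₂ := by
    rw [hU, lin_add, lin_smul, lin_smul]
  have hlV : lin V = MvPolynomial.C (v 0) * lin C₁ + MvPolynomial.C (v 1) * lin C₂ := by
    rw [hV, lin_add, lin_smul, lin_smul]
  -- `y₁`
  obtain ⟨a, b, c, ha, hb, hc⟩ := hUV.prod
  obtain ⟨y₁, hy₁⟩ : ∃ y₁ : Sn k 3, y₁ = MvPolynomial.C a * (lin (cv k c₁) * lin (cv k c₁)) +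
    MvPolynomial.C b * (lin (cv k c₁) * lin (cv k c₂)) +
    MvPolynomial.C c * (lin (cv k c₂) * lin (cv k c₂)) := ⟨_, rfl⟩
  have hφy₁ : MvPolynomial.map (algebraMap k (AlgebraicClosure k)) y₁ = lin U * lin V := by
    rw [hy₁, map_add, map_add, map_mul, map_mul, map_mul, map_mul, map_mul, map_mul, MvPolynomial.map_C,
      MvPolynomial.map_C, MvPolynomial.map_C, hφ1, hφ2, ← ha, ← hb, ← hc, hlU, hlV, map_mul, map_mul,
      map_add, map_mul, map_mul]
    ring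
  have hy₁h : y₁.IsHomogeneous 2 := by
    have h0 : ∀ (a : k) (x y : Sn k 3), x.IsHomogeneous 1 → y.IsHomogeneous 1 →
        (MvPolynomial.C a * (x * y)).IsHomogeneous 2 := by
      intro a x y hx hy
      have h1 := (MvPolynomial.isHomogeneous_C (Fin 3) a).mul (hx.mul hy)
      simpa using h1
    rw [hy₁]
    exact ((h0 a _ _ (lin_hom _) (lin_hom _)).add (h0 b _ _ (lin_hom _) (lin_hom _))).add
      (h0 c _ _ (lin_hom _) (lin_hom _))
  -- `y₂`
  obtain ⟨x, hx⟩ := hUV.sum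
  have hsum : lin U + lin V = MvPolynomial.map (algebraMap k (AlgebraicClosure k))
      (lin (x 0 • cv k c₁ + x 1 • cv k c₂)) := by
    rw [lin_add, lin_smul, lin_smul, map_add, map_mul, map_mul, MvPolynomial.map_C, MvPolynomial.map_C,
      hφ1, hφ2, ← hx 0, ← hx 1, hlU, hlV, map_add, map_add]
    ring
  obtain ⟨y₂, hy₂h, hφy₂⟩ := exists_psum (lin_hom _) hy₁h hsum hφy₁.symm m
  -- membership in `q`
  have hq1 : lin (cv k c₁) ∈ q := lin_mem_of_esum hW ρ₀ q le_rfl h.sum1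
  have hq2 : lin (cv k c₂) ∈ q := lin_mem_of_esum hW ρ₀ q le_rfl h.sum2
  have hqs : q = Ideal.span {lin (cv k c₁), lin (cv k c₂)} := prime_eq h.det hq hq1 hq2
  have hm1 : lin C₁ ∈ Ideal.span {lin C₁, lin C₂} := Ideal.subset_span (by simp)
  have hm2 : lin C₂ ∈ Ideal.span {lin C₁, lin C₂} := Ideal.subset_span (by simp)
  have hy₁q : y₁ ∈ q := by
    rw [hy₁]
    exact q.add_mem (q.add_mem (q.mul_mem_left _ (q.mul_mem_left _ hq1))
      (q.mul_mem_left _ (q.mul_mem_left _ hq2))) (q.mul_mem_left _ (q.mul_mem_left _ hq2))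
  have hy₂q : y₂ ∈ q := by
    rw [hqs]
    refine mem_of_map (K' := AlgebraicClosure k) _ _ _ ?_
    rw [hφ1, hφ2, hφy₂]
    have hUm : lin U ∈ Ideal.span {lin C₁, lin C₂} := by
      rw [hlU]
      exact Ideal.add_mem _ (Ideal.mul_mem_left _ _ hm1) (Ideal.mul_mem_left _ _ hm2)
    have hVm : lin V ∈ Ideal.span {lin C₁, lin C₂} := by
      rw [hlV]
      exact Ideal.add_mem _ (Ideal.mul_mem_left _ _ hm1) (Ideal.mul_mem_left _ _ hm2)
    exact Ideal.add_mem _ (Ideal.pow_mem_of_mem _ hUm m hm) (Ideal.pow_mem_of_mem _ hVm m hm)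
  -- the action on `U`, `V`
  have hAUV : ∀ w : stabi (latt k ρ₀) q, ∃ ζ : AlgebraicClosure k, ζ ≠ 0 ∧ (ζ ^ m = 1 ∨ ζ ^ m = -1) ∧
      (w.1 ∈ inert (latt k ρ₀) q → ζ ^ m = 1) ∧
      (((A w).mulVec U = ζ • U ∧ (A w).mulVec V = ζ⁻¹ • V) ∨
        ((A w).mulVec U = ζ • V ∧ (A w).mulVec V = ζ⁻¹ • U)) := by
    intro w
    obtain ⟨ζ, hζ0, hζ1, hζ2, hζ3⟩ := hact w
    refine ⟨ζ, hζ0, hζ1, fun hw => hζ2 (Subgroup.mem_subgroupOf.2 hw), ?_⟩
    rw [hU, hV]
    rcases hζ3 with ⟨h1, h2⟩ | ⟨h1, h2⟩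
    · exact Or.inl ⟨hplU w ζ u u h1, hplU w ζ⁻¹ v v h2⟩
    · exact Or.inr ⟨hplU w ζ u v h1, hplU w ζ⁻¹ v u h2⟩
  have hinv1 : ∀ w ∈ stabi (latt k ρ₀) q, wact (latt k ρ₀) w y₁ = y₁ := by
    intro w hw
    apply hφinj
    rw [hφact, hφy₁, map_mul, linAct_lin, linAct_lin]
    obtain ⟨ζ, hζ0, -, -, h3⟩ := hAUV ⟨w, hw⟩
    have hζ : (MvPolynomial.C ζ * MvPolynomial.C ζ⁻¹ : Sn (AlgebraicClosure k) 3) = 1 := by
      rw [← map_mul, mul_inv_cancel₀ hζ0, map_one]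
    rcases h3 with ⟨h1, h2⟩ | ⟨h1, h2⟩
    · rw [h1, h2, lin_smul, lin_smul, mul_mul_mul_comm, hζ, one_mul]
    · rw [h1, h2, lin_smul, lin_smul, mul_mul_mul_comm, hζ, one_mul, mul_comm]
  have hinv2 : ∀ w : stabi (latt k ρ₀) q, ∃ ε : AlgebraicClosure k, (ε = 1 ∨ ε = -1) ∧
      (w.1 ∈ inert (latt k ρ₀) q → ε = 1) ∧
      MvPolynomial.map (algebraMap k (AlgebraicClosure k)) (wact (latt k ρ₀) w y₂) =
        MvPolynomial.C ε * MvPolynomial.map (algebraMap k (AlgebraicClosure k)) y₂ := by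
    intro w
    obtain ⟨ζ, hζ0, hζ1, hζ2, h3⟩ := hAUV w
    refine ⟨ζ ^ m, hζ1, hζ2, ?_⟩
    rw [hφact, hφy₂, map_add, map_pow, map_pow, linAct_lin, linAct_lin]
    rcases h3 with ⟨h1, h2⟩ | ⟨h1, h2⟩
    · rw [h1, h2, yy_smul_pow, yy_smul_pow, yy_pow hζ1, mul_add]
    · rw [h1, h2, yy_smul_pow, yy_smul_pow, yy_pow hζ1, mul_add, add_comm]
  -- generation
  have hdet0 := hUV.ind
  have hspan : Ideal.span {lin C₁, lin C₂} ≤ Ideal.span {lin U, lin V} := by
    have hUm : lin U ∈ Ideal.span {lin U, lin V} := Ideal.subset_span (by simp)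
    have hVm : lin V ∈ Ideal.span {lin U, lin V} := Ideal.subset_span (by simp)
    have hDC : (MvPolynomial.C (u 0 * v 1 - u 1 * v 0)⁻¹ * MvPolynomial.C (u 0 * v 1 - u 1 * v 0) :
        Sn (AlgebraicClosure k) 3) = 1 := by
      rw [← map_mul, inv_mul_cancel₀ hdet0, map_one]
    have e1 : lin C₁ = MvPolynomial.C (u 0 * v 1 - u 1 * v 0)⁻¹ *
        (MvPolynomial.C (v 1) * lin U - MvPolynomial.C (u 1) * lin V) := by
      have h1 : MvPolynomial.C (v 1) * lin U - MvPolynomial.C (u 1) * lin V =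
          MvPolynomial.C (u 0 * v 1 - u 1 * v 0) * lin C₁ := by
        rw [hlU, hlV, map_sub, map_mul, map_mul]
        ring
      rw [h1, ← mul_assoc, hDC, one_mul]
    have e2 : lin C₂ = MvPolynomial.C (u 0 * v 1 - u 1 * v 0)⁻¹ *
        (MvPolynomial.C (u 0) * lin V - MvPolynomial.C (v 0) * lin U) := by
      have h1 : MvPolynomial.C (u 0) * lin V - MvPolynomial.C (v 0) * lin U =
          MvPolynomial.C (u 0 * v 1 - u 1 * v 0) * lin C₂ := by
        rw [hlU, hlV, map_sub, map_mul, map_mul]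
        ring
      rw [h1, ← mul_assoc, hDC, one_mul]
    rw [Ideal.span_le]
    rintro z (rfl | rfl)
    · rw [SetLike.mem_coe, e1]
      exact Ideal.mul_mem_left _ _ (Ideal.sub_mem _ (Ideal.mul_mem_left _ _ hUm)
        (Ideal.mul_mem_left _ _ hVm))
    · rw [SetLike.mem_coe, e2]
      exact Ideal.mul_mem_left _ _ (Ideal.sub_mem _ (Ideal.mul_mem_left _ _ hVm)
        (Ideal.mul_mem_left _ _ hUm))
  have hmapq : Ideal.map (MvPolynomial.map (algebraMap k (AlgebraicClosure k))) q ≤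
      Ideal.span {lin U, lin V} := by
    refine le_trans ?_ hspan
    rw [hqs, Ideal.map_span, Ideal.span_le]
    rintro _ ⟨z, (rfl | rfl), rfl⟩
    · rw [hφ1]
      exact hm1
    · rw [hφ2]
      exact hm2
  have hpow : q ^ (m + 1) ≤ Ideal.span {y₁, y₂} := by
    intro z hz
    refine mem_of_map (K' := AlgebraicClosure k) _ _ _ ?_
    rw [hφy₁, hφy₂]
    apply pow_le_of_torus hm
    apply Ideal.pow_right_mono hmapq (m + 1)
    rw [← Ideal.map_pow]
    exact Ideal.mem_map_of_mem _ hz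
  -- the product of two invariants
  have hdet : (Matrix.of ![C₀, U, V]).det ≠ 0 := by
    have h1 : (Matrix.of ![C₀, U, V]).det = (u 0 * v 1 - u 1 * v 0) *
        algebraMap k (AlgebraicClosure k) (Matrix.of ![cv k t₀, cv k c₁, cv k c₂]).det := by
      rw [Matrix.det_fin_three, Matrix.det_fin_three, hU, hV, hC₀, hC₁, hC₂]
      simp only [Matrix.of_apply, Matrix.cons_val_zero, Matrix.cons_val_one, Matrix.cons_val, Pi.add_apply,
        Pi.smul_apply, smul_eq_mul, map_add, map_sub, map_mul]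
      ring
    rw [h1]
    refine mul_ne_zero hdet0 ?_
    rw [Ne, map_eq_zero]
    exact h.det
  have hsq : ∀ z ∈ q, (∀ w ∈ inert (latt k ρ₀) q, wact (latt k ρ₀) w z = z) →
      MvPolynomial.map (algebraMap k (AlgebraicClosure k)) z ∈
        Ideal.span {lin U * lin V, lin U ^ m, lin V ^ m} := by
    intro z hz hzi
    refine mem_of_torus' hm hdet _
      {ζ | ζ ≠ 0 ∧ ∃ γ ∈ (inert (latt k ρ₀) q).subgroupOf (stabi (latt k ρ₀) q),
        mv (AlgebraicClosure k) M γ u = ζ • u ∧ mv (AlgebraicClosure k) M γ v = ζ⁻¹ • v}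
      (fun ζ hζ => hζ.1) ?_ ?_ (hmapq (Ideal.mem_map_of_mem _ hz))
    · intro a b hab
      exact hmod a b (fun γ hγ ζ hζ0 h1 h2 => hab ζ ⟨hζ0, γ, hγ, h1, h2⟩)
    · rintro ζ ⟨hζ0, γ, hγ, h1, h2⟩
      have hγ' : γ.1 ∈ inert (latt k ρ₀) q := Subgroup.mem_subgroupOf.1 hγ
      refine ⟨A γ, ?_, ?_, ?_, ?_⟩
      · rw [hA, hC₀, yy_mulVec, latt_mulVec, h.fix _ hγ']
      · rw [hU]
        exact hplU γ ζ u u h1
      · rw [hV]
        exact hplU γ ζ⁻¹ v v h2
      · rw [← hφact, hzi _ hγ']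
  refine ⟨m, y₁, y₂, hm, hy₁h, hy₂h, hy₁q, hy₂q, hinv1, ?_, ?_, hpow, ?_⟩
  · intro w hw
    obtain ⟨ε, hε, -, h2⟩ := hinv2 ⟨w, hw⟩
    rcases hε with h3 | h3
    · left
      apply hφinj
      rw [h2, h3, map_one, one_mul]
    · right
      apply hφinj
      rw [h2, h3, map_neg, map_neg, map_one, neg_one_mul]
  · intro w hw
    obtain ⟨ε, -, h1, h2⟩ := hinv2 ⟨w, inert_le_stabi _ _ hw⟩
    apply hφinj
    rw [h2, h1 hw, map_one, one_mul]
  · intro z hz z' hz' h1 h2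
    refine mem_of_map (K' := AlgebraicClosure k) _ _ _ ?_
    rw [hφy₁, hφy₂, map_mul]
    exact mul_mem_of_torus hm _ _ _ _ (hsq z hz h1) (hsq z' hz' h2)

end MP8a
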