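import Pool.Agent.Lib_MP_8a48ad_gt.StDefs

/-! # Piece REFL: reflections -/

set_option autoImplicit false

namespace MP8a

universe u

/-- `A` fixes a hyperplane pointwise: `A x = x + (v · x) u` for fixed vectors `u`, `v` (the identity is allowed). -/
def IsRefl {R : Type*} [CommRing R] {n : ℕ} (A : Matrix (Fin n) (Fin n) R) : Prop :=
  ∃ u v : Fin n → R, A = 1 + Matrix.vecMulVec u v

variable {k : Type u} [Field k] {n : ℕ}

theorem linAct_refl_X (u v : Fin n → k) (j : Fin n) :
    linAct (1 + Matrix.vecMulVec u v) (MvPolynomial.X j : Sn k n) =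
      MvPolynomial.X j + MvPolynomial.C (v j) * ∑ i, MvPolynomial.C (u i) * MvPolynomial.X i := by
  rw [linAct_X]
  have h : ∀ i : Fin n, (MvPolynomial.C ((1 + Matrix.vecMulVec u v) i j) * MvPolynomial.X i : Sn k n) =
      (if i = j then MvPolynomial.X i else 0) + MvPolynomial.C (v j) * (MvPolynomial.C (u i) * MvPolynomial.X i) := by
    intro i
    rw [Matrix.add_apply, Matrix.vecMulVec_apply, Matrix.one_apply]
    by_cases hij : i = j
    · rw [if_pos hij, if_pos hij]
      simp only [map_add, map_one, map_mul]
      ring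
    · rw [if_neg hij, if_neg hij]
      simp only [map_add, map_zero, map_mul]
      ring
  rw [Finset.sum_congr rfl fun i _ => h i, Finset.sum_add_distrib, ← Finset.mul_sum]
  simp

/-- The divided difference: if `A` is a reflection there is a linear form `α` (`α = ∑ u_i x_i`, `A x_j = x_j + v_j α`) such that `A t - t ∈ α S` for all `t`; for homogeneous `t` of degree `j + 1` the quotient
can be chosen homogeneous of degree `j`, and for `t` of degree `0` it is `0`. PROOF. The `t` with `A t - t ∈ α S` form a subalgebra containing the `x_j`: `A(s t) - s t = A s (A t - t) + (A s - s) t`.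
For homogeneous `t` take the homogeneous component of the quotient. -/
theorem exists_divdiff {A : Matrix (Fin n) (Fin n) k} (hA : IsRefl A) : ∃ α : Sn k n,
    α.IsHomogeneous 1 ∧ (∀ t, ∃ q, linAct A t - t = α * q) ∧
      ∀ (j : ℕ) (t : Sn k n), t.IsHomogeneous (j + 1) → ∃ q : Sn k n, q.IsHomogeneous j ∧ linAct A t - t = α * q := by
  obtain ⟨u, v, rfl⟩ := hA
  set α : Sn k n := ∑ i, MvPolynomial.C (u i) * MvPolynomial.X i with hα
  have hα1 : α.IsHomogeneous 1 := by
    refine MvPolynomial.IsHomogeneous.sum _ _ _ fun i _ => ?_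
    simpa using (MvPolynomial.isHomogeneous_C (Fin n) (u i)).mul (MvPolynomial.isHomogeneous_X k i)
  have hq : ∀ t : Sn k n, ∃ q, linAct (1 + Matrix.vecMulVec u v) t - t = α * q := by
    intro t
    induction t using MvPolynomial.induction_on with
    | C a =>
      refine ⟨0, ?_⟩
      rw [MvPolynomial.algHom_C, MvPolynomial.algebraMap_eq, sub_self, mul_zero]
    | add p q hp hq =>
      obtain ⟨a, ha⟩ := hp
      obtain ⟨b, hb⟩ := hq
      refine ⟨a + b, ?_⟩
      rw [map_add, mul_add, ← ha, ← hb]
      ring
    | mul_X p j hp =>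
      obtain ⟨a, ha⟩ := hp
      refine ⟨a * MvPolynomial.X j + linAct (1 + Matrix.vecMulVec u v) p * MvPolynomial.C (v j), ?_⟩
      rw [map_mul, linAct_refl_X, ← hα, mul_add α, ← mul_assoc α a, ← ha]
      ring
  refine ⟨α, hα1, hq, fun j t ht => ?_⟩
  obtain ⟨q, hq⟩ := hq t
  refine ⟨MvPolynomial.homogeneousComponent j q, MvPolynomial.homogeneousComponent_isHomogeneous j q, ?_⟩
  have h1 : (linAct (1 + Matrix.vecMulVec u v) t - t).IsHomogeneous (j + 1) := (linAct_hom _ ht).sub ht
  have h2 : MvPolynomial.homogeneousComponent (j + 1) (linAct (1 + Matrix.vecMulVec u v) t - t) =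
      linAct (1 + Matrix.vecMulVec u v) t - t := by
    rw [MvPolynomial.homogeneousComponent_of_mem h1, if_pos rfl]
  rw [← h2, hq]
  conv_lhs => rw [← MvPolynomial.sum_homogeneousComponent q, Finset.mul_sum, map_sum]
  have h3 : ∀ i ∈ Finset.range (q.totalDegree + 1),
      MvPolynomial.homogeneousComponent (j + 1) (α * MvPolynomial.homogeneousComponent i q) =
        if i = j then α * MvPolynomial.homogeneousComponent i q else 0 := by
    intro i _
    have h4 : (α * MvPolynomial.homogeneousComponent i q).IsHomogeneous (1 + i) :=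
      hα1.mul (MvPolynomial.homogeneousComponent_isHomogeneous i q)
    rw [MvPolynomial.homogeneousComponent_of_mem h4]
    by_cases hij : i = j
    · rw [if_pos hij, if_pos (by omega)]
    · rw [if_neg hij, if_neg (by omega)]
  rw [Finset.sum_congr rfl h3, Finset.sum_ite_eq']
  by_cases hj : j ∈ Finset.range (q.totalDegree + 1)
  · rw [if_pos hj]
  · rw [if_neg hj, MvPolynomial.homogeneousComponent_eq_zero, mul_zero]
    simpa using hj

/-- A `k`-linear divided difference operator which is linear over the invariants of `A` and lowers degrees. PROOF. If `u = 0` or `v = 0` then `A = 1` and `Δ = 0` works; otherwise `α ≠ 0`, the quotient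
in `exists_divdiff` is unique, so it is additive and linear over the ring of `r` with `A r = r`. -/
theorem exists_Delta {A : Matrix (Fin n) (Fin n) k} (hA : IsRefl A) : ∃ (α : Sn k n) (Δ : Sn k n →ₗ[k] Sn k n),
    (∀ t, linAct A t - t = α * Δ t) ∧ (∀ r t, linAct A r = r → Δ (r * t) = r * Δ t) ∧
      (∀ (j : ℕ) (t : Sn k n), t.IsHomogeneous (j + 1) → (Δ t).IsHomogeneous j) ∧
      ∀ c : k, Δ (MvPolynomial.C c) = 0 := by
  obtain ⟨α, _, hq, hqj⟩ := exists_divdiff hA
  by_cases hα : α = 0
  · refine ⟨0, 0, fun t => ?_, fun r t _ => ?_, fun j t _ => ?_, fun c => ?_⟩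
    · obtain ⟨q, hq⟩ := hq t
      rw [hq, hα, zero_mul, zero_mul]
    · rw [LinearMap.zero_apply, LinearMap.zero_apply, mul_zero]
    · rw [LinearMap.zero_apply]
      exact MvPolynomial.isHomogeneous_zero _ _ _
    · rw [LinearMap.zero_apply]
  · choose f hf using hq
    have huniq : ∀ t q, linAct A t - t = α * q → f t = q := by
      intro t q h
      apply mul_left_cancel₀ hα
      rw [← hf t, h]
    refine ⟨α, { toFun := f, map_add' := fun a b => ?_, map_smul' := fun c a => ?_ }, fun t => ?_,
      fun r t hr => ?_, fun j t ht => ?_, fun c => ?_⟩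
    · apply huniq
      rw [map_add, mul_add, ← hf a, ← hf b]
      ring
    · apply huniq
      rw [RingHom.id_apply, map_smul, mul_smul_comm, ← hf a, smul_sub]
    · exact hf t
    · change f (r * t) = r * f t
      apply huniq
      rw [map_mul, hr, mul_left_comm, ← hf t, mul_sub]
    · change (f t).IsHomogeneous j
      obtain ⟨q, hqh, hq⟩ := hqj j t ht
      rw [huniq t q hq]
      exact hqh
    · change f (MvPolynomial.C c) = 0
      apply huniq
      rw [MvPolynomial.algHom_C, MvPolynomial.algebraMap_eq, sub_self, mul_zero]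

end MP8a
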