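import Pool.Agent.Lib_MP_8a48ad_gt.GrS

/-!
# MP_8a48ad_gt: the ring of invariants and the module `S` (definitions for the statements)

`S = k[x_1, …, x_n]` (`Sn k n`, graded by `grS k n`: `x_i` in degree `2`) is `H^*(BT; k)`, `R = S^W` is `H^*(BG; k)`.
-/

set_option autoImplicit false

namespace MP8a

universe u v

/-- The action of an integer matrix on `S` by linear substitution: `x_j ↦ ∑_i A_ij x_i`. -/
noncomputable def act (k : Type u) [Field k] {n : ℕ} (A : Matrix (Fin n) (Fin n) ℤ) :
    Sn k n →ₐ[k] Sn k n :=
  MvPolynomial.aeval (fun j => ∑ i, MvPolynomial.C ((A i j : ℤ) : k) * MvPolynomial.X i)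

/-- `R`, graded by `GR`, is (isomorphic to) the graded ring of invariants `S^W`: the ring homomorphism `R → S` is injective,
its image is the set of the invariant polynomials and it is compatible with the gradings. -/
structure InvRing (k : Type u) [Field k] {n : ℕ} {W : Type v} [Group W]
    (ρ : W →* Matrix.GeneralLinearGroup (Fin n) ℤ) {R : Type u} [CommRing R] [Algebra R (Sn k n)]
    (GR : Gr R) : Prop where
  inj : Function.Injective (algebraMap R (Sn k n))
  img : ∀ s : Sn k n, (∃ r, algebraMap R (Sn k n) r = s) ↔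
    ∀ w, act k (ρ w : Matrix (Fin n) (Fin n) ℤ) s = s
  deg : ∀ i r, algebraMap R (Sn k n) (GR.c i r) = (grS k n).c i (algebraMap R (Sn k n) r)

/-- `S` as a DG `R`-module, with zero differential. -/
@[reducible] noncomputable def InvRing.mod {k : Type u} [Field k] {n : ℕ} {W : Type v} [Group W]
    {ρ : W →* Matrix.GeneralLinearGroup (Fin n) ℤ} {R : Type u} [CommRing R] [Algebra R (Sn k n)]
    {GR : Gr R} (h : InvRing k ρ GR) : DGM GR where
  X := Sn k n
  pr := (grS k n).c
  pr_pr := (grS k n).c_c
  fin := (grS k n).fin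
  smul := by
    intro i j a s ha hs
    rw [Algebra.smul_def]
    exact (grS k n).mul (by rw [← h.deg, ha]) hs
  d := 0
  d_hom := fun _ => by simp
  d_d := fun _ => rfl

end MP8a
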